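import Pool.Agent.CGN.Chart
import Pool.Agent.CG2.Statement

/-!
# The Hecke operators on the modules `Forms` of an adelic system
-/

noncomputable section

namespace Pool.Agent.CGN

open CategoryTheory NumberField IsDedekindDomain
open scoped IsMulCommutative
open Pool.Agent.CG2 (Pl)
open Pool.Agent.CGQ (Sys diag single single_apply single_same single_ne single_comm single_comm'
  act rt lt act_rt rt_mul rt_one Forms formsRep coeff)

variable {F : Type} [Field F] [NumberField F] {𝒟 : Sys F} {n : ℕ} {S : Set (Pl F)}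
variable {O : Type} [CommRing O] {W : Type} [AddCommGroup W] [Module O W]

/-- The element of `A` with component `φ⁻¹ h` at `v` and `1` elsewhere. -/
def sg (φ : Chart n 𝒟 S) (v : {v : Pl F // v ∉ S}) : GQ n v.1 →* 𝒟.A :=
  (single v.1).comp (φ.e v).symm.toMonoidHom

theorem sg_apply (φ : Chart n 𝒟 S) (v : {v : Pl F // v ∉ S}) (h : GQ n v.1) :
    sg φ v h = single v.1 ((φ.e v).symm h) := rfl

theorem sg_at (φ : Chart n 𝒟 S) (v : {v : Pl F // v ∉ S}) (h : GQ n v.1) :
    φ.e v ((sg φ v h).1 v.1) = h := by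
  rw [sg_apply, single_same, MulEquiv.apply_symm_apply]

theorem Hyp.sg_mem {K : Subgroup 𝒟.A} {φ : Chart n 𝒟 S} {v : {v : Pl F // v ∉ S}} (h : Hyp K φ v)
    {k : GQ n v.1} (hk : k ∈ GZ n v.1) : sg φ v k ∈ K := by
  apply h.mem
  change φ.e v ((φ.e v).symm k) ∈ _
  rwa [MulEquiv.apply_symm_apply]

/-- Right translation by an element of `GL_n(O_v)` does nothing on `Forms`. -/
theorem forms_mul_single {K : Subgroup 𝒟.A} {τ : Representation O K W} (f : Forms K τ)
    {φ : Chart n 𝒟 S} {v : {v : Pl F // v ∉ S}} (hU : Unram K τ φ v) (y : 𝒟.Pt) (k : GQ n v.1)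
    (hk : k ∈ GZ n v.1) : f.1 (rt y (sg φ v k)) = f.1 y := by
  have := f.2 y ⟨_, hU.hyp.sg_mem hk⟩
  rw [this]
  have h1 : τ (⟨sg φ v k, hU.hyp.sg_mem hk⟩ : K)⁻¹ = 1 := by
    have h2 := hU.triv ((φ.e v).symm k⁻¹) (by
      rw [MulEquiv.apply_symm_apply]
      exact (GZ n v.1).inv_mem hk)
    rw [← h2]
    congr 1
    apply Subtype.ext
    rw [Subgroup.coe_inv]
    exact (map_inv (sg φ v) k).symm
  rw [h1]
  rfl

/-- The value of `f` at `y h` depends only on the coset `h GL_n(O_v)`. -/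
theorem forms_congr_coset {K : Subgroup 𝒟.A} {τ : Representation O K W} (f : Forms K τ)
    {φ : Chart n 𝒟 S} {v : {v : Pl F // v ∉ S}} (hU : Unram K τ φ v) (y : 𝒟.Pt) {h h' : GQ n v.1}
    (hh : (h : GQ n v.1 ⧸ GZ n v.1) = (h' : GQ n v.1 ⧸ GZ n v.1)) :
    f.1 (rt y (sg φ v h)) = f.1 (rt y (sg φ v h')) := by
  have h1 : h⁻¹ * h' ∈ GZ n v.1 := QuotientGroup.eq.1 hh
  have h2 := forms_mul_single f hU (rt y (sg φ v h)) _ h1
  rw [← rt_mul, ← map_mul, mul_inv_cancel_left] at h2
  exact h2.symm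

/-- The sum over the cosets in the definition of the Hecke operators. -/
def heckeSum (φ : Chart n 𝒟 S) (v : {v : Pl F // v ∉ S}) (j : Option (Fin n)) (f : 𝒟.Pt → W) (y : 𝒟.Pt) :
    W :=
  ∑ c ∈ (cosets_finite v.1 j).toFinset, f (rt y (sg φ v (Quotient.out c)))

theorem heckeSum_mem {K : Subgroup 𝒟.A} {τ : Representation O K W} (f : Forms K τ)
    {φ : Chart n 𝒟 S} {v : {v : Pl F // v ∉ S}} (hU : Unram K τ φ v) (j : Option (Fin n)) :
    heckeSum φ v j f.1 ∈ Forms K τ := by
  intro y k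
  -- the element `k` with its component at `v` removed
  set a : GQ n v.1 := φ.e v (k.1.1 v.1) with ha
  have haZ : a ∈ GZ n v.1 := hU.hyp.le _ k.2
  let k' : 𝒟.A := (sg φ v a)⁻¹ * k.1
  have hk' : k.1 = sg φ v a * k' := by simp [k']
  have hk'v : k'.1 v.1 = 1 := by
    simp only [k', Subgroup.coe_mul, Pi.mul_apply, Subgroup.coe_inv, Pi.inv_apply, sg_apply,
      single_same]
    rw [ha, MulEquiv.symm_apply_apply, inv_mul_cancel]
  have hcomm : ∀ b : GQ n v.1, k' * sg φ v b = sg φ v b * k' := fun b => single_comm' _ hk'v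
  have hk'mem : k' ∈ K := K.mul_mem (K.inv_mem (hU.hyp.sg_mem haZ)) k.2
  have hpe : τ (⟨k', hk'mem⟩ : K)⁻¹ = τ k⁻¹ := by
    have h1 : (k : K) = ⟨sg φ v a, hU.hyp.sg_mem haZ⟩ * ⟨k', hk'mem⟩ := Subtype.ext hk'
    conv_rhs => rw [h1, _root_.mul_inv_rev, map_mul]
    have h2 : τ (⟨sg φ v a, hU.hyp.sg_mem haZ⟩ : K)⁻¹ = 1 := by
      have h3 := hU.triv ((φ.e v).symm a⁻¹) (by
        rw [MulEquiv.apply_symm_apply]
        exact (GZ n v.1).inv_mem haZ)
      rw [← h3]
      congr 1
      apply Subtype.ext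
      rw [Subgroup.coe_inv]
      exact (map_inv (sg φ v) a).symm
    rw [h2, mul_one]
  unfold heckeSum
  rw [map_sum]
  refine Finset.sum_bij (fun c _ => a • c) ?_ ?_ ?_ ?_
  · intro c hc
    rw [Set.Finite.mem_toFinset] at hc ⊢
    exact smul_mem_cosets hc haZ
  · intro c _ c' _ h
    exact MulAction.injective a h
  · intro c hc
    rw [Set.Finite.mem_toFinset] at hc
    refine ⟨a⁻¹ • c, ?_, by simp⟩
    rw [Set.Finite.mem_toFinset]
    exact smul_mem_cosets hc ((GZ n v.1).inv_mem haZ)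
  · intro c _
    have h1 : rt (rt y k.1) (sg φ v (Quotient.out c)) =
        rt (rt y (sg φ v (a * Quotient.out c))) k' := by
      rw [← rt_mul, ← rt_mul, hk', map_mul]
      congr 1
      simp only [mul_assoc]
      rw [hcomm]
    rw [h1]
    have h2 := f.2 (rt y (sg φ v (a * Quotient.out c))) ⟨k', hk'mem⟩
    simp only at h2
    rw [h2, hpe]
    congr 1
    apply forms_congr_coset f hU
    have h3 : ((Quotient.out (a • c) : GQ n v.1) : GQ n v.1 ⧸ GZ n v.1) = a • c := Quotient.out_eq' _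
    have h4 : ((Quotient.out c : GQ n v.1) : GQ n v.1 ⧸ GZ n v.1) = c := Quotient.out_eq' _
    rw [h3]
    conv_rhs => rw [← h4]
    rfl

/-- The index set of the generators of the Hecke algebra: a place `v ∉ S` and `some j` (the operator
of `diag(π, …, π, 1, …, 1)` with `j + 1` entries `π`) or `none` (the inverse of that of `π`). -/
abbrev Idx (n : ℕ) (S : Set (Pl F)) := {v : Pl F // v ∉ S} × Option (Fin n)

/-- The Hecke operator attached to `t` as an endomorphism of the `O`-module `Forms`. -/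
def heckeLin {φ : Chart n 𝒟 S} (K : Subgroup 𝒟.A) (τ : Representation O K W)
    (hU : UnramOff K τ φ) (t : Idx n S) : Forms K τ →ₗ[O] Forms K τ where
  toFun f := ⟨heckeSum φ t.1 t.2 f.1, heckeSum_mem f (hU _) t.2⟩
  map_add' f f' := by
    apply Subtype.ext
    funext y
    simp [heckeSum, Finset.sum_add_distrib]
  map_smul' c f := by
    apply Subtype.ext
    funext y
    simp [heckeSum, Finset.smul_sum]

/-- The Hecke operator as an endomorphism of the representation `coeff K τ`. -/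
def heckeHom {φ : Chart n 𝒟 S} (K : Subgroup 𝒟.A) (τ : Representation O K W)
    (hU : UnramOff K τ φ) (t : Idx n S) : coeff K τ ⟶ coeff K τ :=
  Rep.ofHom
    { toLinearMap := heckeLin K τ hU t
      isIntertwining' := by
        intro γ
        apply LinearMap.ext
        intro f
        apply Subtype.ext
        funext y
        simp [heckeLin, heckeSum, act_rt] }

/-- The Hecke operator on the cohomology group `Hⁱ(Y(K), W)`. -/
def heckeCoh {φ : Chart n 𝒟 S} (K : Subgroup 𝒟.A) (τ : Representation O K W)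
    (hU : UnramOff K τ φ) (i : ℕ) (t : Idx n S) :
    Module.End O (groupCohomology (coeff K τ) i) :=
  ((groupCohomology.functor O 𝒟.G i).map (heckeHom K τ hU t)).hom

/-! ### Commutativity -/

theorem heckeLin_comm {φ : Chart n 𝒟 S} (K : Subgroup 𝒟.A) (τ : Representation O K W)
    (hU : UnramOff K τ φ) (s t : Idx n S) :
    heckeLin K τ hU s ∘ₗ heckeLin K τ hU t = heckeLin K τ hU t ∘ₗ heckeLin K τ hU s := by
  obtain ⟨v, i⟩ := s
  obtain ⟨w, j⟩ := t
  apply LinearMap.ext
  intro f
  apply Subtype.ext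
  funext y
  have h2 : ∀ (v : {v : Pl F // v ∉ S}) (j : Option (Fin n)) (g : Forms K τ) (y : 𝒟.Pt),
      (heckeLin K τ hU (v, j) g).1 y =
      ∑ c ∈ (cosets_finite v.1 j).toFinset, g.1 (rt y (sg φ v (Quotient.out c))) :=
    fun v j g y => rfl
  rw [LinearMap.comp_apply, LinearMap.comp_apply]
  simp only [h2]
  by_cases hvw : v = w
  · subst hvw
    simp only [← rt_mul, ← map_mul]
    exact dcos_comm v.1 _ _ (fun g => f.1 (rt y (sg φ v g))) (fun g k hk => by
      change f.1 (rt y (sg φ v (g * k))) = f.1 (rt y (sg φ v g))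
      rw [map_mul, rt_mul]
      exact forms_mul_single f (hU v) _ k hk)
  · have hvw' : v.1 ≠ w.1 := fun h => hvw (Subtype.ext h)
    rw [Finset.sum_comm]
    refine Finset.sum_congr rfl fun c _ => Finset.sum_congr rfl fun c' _ => ?_
    rw [← rt_mul, ← rt_mul, sg_apply, sg_apply, single_comm hvw']

theorem heckeCoh_comm {φ : Chart n 𝒟 S} (K : Subgroup 𝒟.A) (τ : Representation O K W)
    (hU : UnramOff K τ φ) (i : ℕ) (s t : Idx n S) :
    heckeCoh K τ hU i s * heckeCoh K τ hU i t = heckeCoh K τ hU i t * heckeCoh K τ hU i s := by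
  have h1 : heckeHom K τ hU s ≫ heckeHom K τ hU t = heckeHom K τ hU t ≫ heckeHom K τ hU s := by
    apply Rep.hom_ext
    apply Representation.IntertwiningMap.ext
    apply LinearMap.ext
    intro f
    exact (LinearMap.congr_fun (heckeLin_comm K τ hU s t) f).symm
  have h2 := congrArg (fun a => ((groupCohomology.functor O 𝒟.G i).map a).hom) h1
  simp only [CategoryTheory.Functor.map_comp, ModuleCat.hom_comp] at h2
  exact h2.symm

/-- The Hecke algebra: the polynomial algebra over `O` on the Hecke operators. -/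
abbrev HeckeAlg (n : ℕ) (S : Set (Pl F)) (O : Type) [CommRing O] := MvPolynomial (Idx n S) O

/-- The commutative algebra of endomorphisms of `Hⁱ(Y(K), W)` generated by the Hecke
operators. -/
def heckeSub {φ : Chart n 𝒟 S} (K : Subgroup 𝒟.A) (τ : Representation O K W)
    (hU : UnramOff K τ φ) (i : ℕ) :
    Subalgebra O (Module.End O (groupCohomology (coeff K τ) i)) :=
  Algebra.adjoin O (Set.range (heckeCoh K τ hU i))

instance heckeSub_comm {φ : Chart n 𝒟 S} (K : Subgroup 𝒟.A) (τ : Representation O K W)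
    (hU : UnramOff K τ φ) (i : ℕ) :
    IsMulCommutative (heckeSub K τ hU i) :=
  Algebra.isMulCommutative_adjoin O (by
    rintro _ ⟨s, rfl⟩ _ ⟨t, rfl⟩
    exact heckeCoh_comm K τ hU i s t)

/-- The action of the Hecke algebra on `Hⁱ(Y(K), W)`. -/
def hact {φ : Chart n 𝒟 S} (K : Subgroup 𝒟.A) (τ : Representation O K W)
    (hU : UnramOff K τ φ) (i : ℕ) :
    HeckeAlg n S O →ₐ[O] Module.End O (groupCohomology (coeff K τ) i) :=
  (heckeSub K τ hU i).val.comp
    (MvPolynomial.aeval (fun t => (⟨heckeCoh K τ hU i t, Algebra.subset_adjoin ⟨t, rfl⟩⟩ :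
      heckeSub K τ hU i)))

theorem hact_X {φ : Chart n 𝒟 S} (K : Subgroup 𝒟.A) (τ : Representation O K W)
    (hU : UnramOff K τ φ) (i : ℕ) (t : Idx n S) :
    hact K τ hU i (MvPolynomial.X t) = heckeCoh K τ hU i t := by
  simp [hact]

/-- The localisation of `Hⁱ(Y(K), W)` at the prime ideal `m` of the Hecke algebra is not
zero. -/
def InSupport {φ : Chart n 𝒟 S} (K : Subgroup 𝒟.A) (τ : Representation O K W)
    (hU : UnramOff K τ φ) (i : ℕ) (m : Ideal (HeckeAlg n S O)) : Prop :=
  ∃ h : groupCohomology (coeff K τ) i, ∀ t : HeckeAlg n S O, t ∉ m → hact K τ hU i t h ≠ 0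

/-- The image in `k` of the Hecke operator attached to `t`, where `k` is a field extension of the
residue field of the maximal ideal `m` of the Hecke algebra. -/
def eig (m : Ideal (HeckeAlg n S O)) (k : Type) [Field k] [Algebra (HeckeAlg n S O ⧸ m) k]
    (t : Idx n S) : k :=
  algebraMap (HeckeAlg n S O ⧸ m) k (Ideal.Quotient.mk m (MvPolynomial.X t))

/-- The localisation of the cohomology at `m` is zero. -/
def Dead {φ : Chart n 𝒟 S} (K : Subgroup 𝒟.A) (τ : Representation O K W)
    (hU : UnramOff K τ φ) (i : ℕ) (m : Ideal (HeckeAlg n S O)) : Prop :=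
  ∀ z : groupCohomology (coeff K τ) i, ∃ t : HeckeAlg n S O, t ∉ m ∧ hact K τ hU i t z = 0

theorem not_inSupport_of_dead {φ : Chart n 𝒟 S} {K : Subgroup 𝒟.A} {τ : Representation O K W}
    {hU : UnramOff K τ φ} {i : ℕ} {m : Ideal (HeckeAlg n S O)}
    (h : Dead K τ hU i m) : ¬ InSupport K τ hU i m := by
  rintro ⟨z, hz⟩
  obtain ⟨t, ht, h0⟩ := h z
  exact hz t ht h0

/-- The trivial representation. -/
abbrev triv (K : Subgroup 𝒟.A) (O k : Type) [CommRing O] [AddCommGroup k] [Module O k] :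
    Representation O K k := 1

theorem unram_triv {φ : Chart n 𝒟 S} {K : Subgroup 𝒟.A} (hK : HypOff K φ) {k : Type}
    [AddCommGroup k] [Module O k] : UnramOff K (triv K O k) φ :=
  fun v => ⟨hK v, fun _ _ => rfl⟩

end Pool.Agent.CGN
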