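import Pool.Agent.CGN.EAa

/-!
# Part E: the element `t`
-/

noncomputable section

set_option linter.unusedSectionVars false

namespace Pool.Agent.CGN

open NumberField IsDedekindDomain Matrix Polynomial
open Pool.Agent.CG2 (Pl Fv Ov GalF Fbar Zbar Over IsInertia IsFrob Nm IsRay InRay expo TotPos Lies)
open Pool.Agent.CG2.GalFinAux (below)
open Pool.Agent.CGQ

variable {F : Type} [Field F] [NumberField F] {A : AD F} {S : Set (Pl F)}

/-- **AB1.** A matrix with given characteristic polynomial.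
PROOF. The matrix of the multiplication by the root in the power basis of `AdjoinRoot p`
(`AdjoinRoot.powerBasis'`, `charpoly_leftMulMatrix`, `minpoly` of the root is `p`: over a field `AdjoinRoot.minpoly_root`), reindexed by
`Fin n` (`Matrix.charpoly_reindex`). -/
theorem exists_charpoly {E : Type} [Field E] {n : ℕ} {p : E[X]} (hp : p.Monic)
    (hd : p.natDegree = n) : ∃ M : Matrix (Fin n) (Fin n) E, M.charpoly = p := by
  subst hd
  have hp0 := hp.ne_zero
  refine ⟨Algebra.leftMulMatrix (AdjoinRoot.powerBasis hp0).basis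
    (AdjoinRoot.powerBasis hp0).gen, ?_⟩
  have h := charpoly_leftMulMatrix (AdjoinRoot.powerBasis hp0)
  rw [AdjoinRoot.minpoly_powerBasis_gen, hp.leadingCoeff, inv_one, C_1, mul_one] at h
  exact h

/-- **AB2.** Polynomials of the first type.
PROOF. `κ = 𝓞 F ⧸ v.asIdeal` is a finite field. There is a monic irreducible polynomial over `κ` of degree
`n - 1 ≥ 1` (the minimal polynomial of a primitive element of an extension of degree `n - 1`: `FiniteField.Extension`,
`GaloisField`, `Field.exists_primitive_element`), lifted to a monic `g` of the same degree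
(`Polynomial.lifts_and_natDegree_eq_and_monic`). If `n - 1 ≥ 2` it has no roots and
`a = 0` (`Polynomial.not_isRoot_of_..`: irreducible of degree `≥ 2`, `Polynomial.root_iff`...); if `n - 1 = 1` take `g = X` and
`a = 1`. -/
theorem exists_T2p (v : Pl F) {n : ℕ} (hn : 2 ≤ n) :
    ∃ (a : 𝓞 F) (g : (𝓞 F)[X]), T2p v n a g := by
  letI : Field (𝓞 F ⧸ v.asIdeal) := Ideal.Quotient.field v.asIdeal
  have hfin : Finite (𝓞 F ⧸ v.asIdeal) := Ideal.finiteQuotientOfFreeOfNeBot _ v.ne_bot
  rcases Nat.lt_or_ge n 3 with h3 | h3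
  · have hn2 : n = 2 := by omega
    subst hn2
    refine ⟨1, X, monic_X, by rw [natDegree_X], ?_, ?_⟩
    · rw [map_X]
      exact irreducible_X
    · rw [eval_X]
      exact (Ideal.ne_top_iff_one _).1 v.isPrime.ne_top
  · obtain ⟨m, rfl⟩ : ∃ m, n = m + 1 := ⟨n - 1, by omega⟩
    have hm0 : NeZero m := ⟨by omega⟩
    have hchar : Fact (ringChar (𝓞 F ⧸ v.asIdeal)).Prime :=
      ⟨CharP.char_is_prime (𝓞 F ⧸ v.asIdeal) (ringChar (𝓞 F ⧸ v.asIdeal))⟩
    obtain ⟨θ, hθ⟩ := Field.exists_primitive_element (𝓞 F ⧸ v.asIdeal)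
      (FiniteField.Extension (𝓞 F ⧸ v.asIdeal) (ringChar (𝓞 F ⧸ v.asIdeal)) m)
    have hdeg := (Field.primitive_element_iff_minpoly_natDegree_eq (𝓞 F ⧸ v.asIdeal) θ).1 hθ
    rw [FiniteField.finrank_extension] at hdeg
    have hint : IsIntegral (𝓞 F ⧸ v.asIdeal) θ := Algebra.IsIntegral.isIntegral θ
    have hirr := minpoly.irreducible hint
    have hmon := minpoly.monic hint
    obtain ⟨g, hg1, hg2, hg3⟩ := lifts_and_natDegree_eq_and_monic
      (f := Ideal.Quotient.mk v.asIdeal) (p := minpoly (𝓞 F ⧸ v.asIdeal) θ) (by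
        rw [lifts_iff_coeff_lifts]
        intro k
        obtain ⟨c, hc⟩ := Ideal.Quotient.mk_surjective ((minpoly (𝓞 F ⧸ v.asIdeal) θ).coeff k)
        exact ⟨c, hc⟩) hmon
    refine ⟨0, g, hg3, by rw [hg2, hdeg], by rw [hg1]; exact hirr, ?_⟩
    intro h0
    have h1 : (g.map (Ideal.Quotient.mk v.asIdeal)).IsRoot (Ideal.Quotient.mk v.asIdeal 0) := by
      rw [IsRoot.def, eval_map_apply]
      exact Ideal.Quotient.eq_zero_iff_mem.2 h0
    rw [hg1] at h1
    exact hirr.not_isRoot_of_natDegree_ne_one (by omega) h1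

/-- **AB3.** Polynomials of the second type.
PROOF. `𝓞 F ⧸ v.asIdeal` has `Nm v ≥ n` elements: choose `a` and `b i`, `i < n - 2`, with different
classes, and `π ∈ v.asIdeal`, `π ∉ v.asIdeal ^ 2` (`Ideal.exists_mem_pow_notMem_pow_succ` or
`HeightOneSpectrum.intValuation_exists_uniformizer`); `p = (X - C a) ^ 2 * ∏ i, (X - C (b i)) + C π`. Monic of degree `n` as `C π` has degree
`0 < n`. `p.eval a = π`. -/
theorem exists_T3p (v : Pl F) {n : ℕ} (hn : 2 ≤ n) (hv : n ≤ Nm v) :
    ∃ (p : (𝓞 F)[X]) (a : 𝓞 F) (b : Fin (n - 2) → 𝓞 F), T3p v n p a b := by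
  have hfin : Finite (𝓞 F ⧸ v.asIdeal) := Ideal.finiteQuotientOfFreeOfNeBot _ v.ne_bot
  have hfin' : Fintype (𝓞 F ⧸ v.asIdeal) := Fintype.ofFinite _
  obtain ⟨m, rfl⟩ : ∃ m, n = m + 2 := ⟨n - 2, by omega⟩
  have hcard : Fintype.card (Fin (m + 1)) ≤ Fintype.card (𝓞 F ⧸ v.asIdeal) := by
    rw [Fintype.card_fin, ← Nat.card_eq_fintype_card]
    have h1 : Nm v = Nat.card (𝓞 F ⧸ v.asIdeal) := by
      rw [Nm, Ideal.absNorm_apply, Submodule.cardQuot_apply]
    omega
  obtain ⟨e⟩ := Function.Embedding.nonempty_of_card_le hcard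
  obtain ⟨a, ha⟩ := Ideal.Quotient.mk_surjective (e 0)
  have hb' : ∀ i : Fin m, ∃ b : 𝓞 F, Ideal.Quotient.mk v.asIdeal b = e i.succ := fun i =>
    Ideal.Quotient.mk_surjective _
  choose b hb using hb'
  obtain ⟨π, hπ1, hπ2⟩ := Ideal.exists_mem_pow_notMem_pow_succ v.asIdeal v.ne_bot
    v.isPrime.ne_top 1
  rw [pow_one] at hπ1
  set q : (𝓞 F)[X] := (X - C a) ^ 2 * ∏ i : Fin m, (X - C (b i)) with hq
  have hqm : q.Monic :=
    ((monic_X_sub_C a).pow 2).mul (monic_prod_of_monic _ _ fun i _ => monic_X_sub_C (b i))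
  have hqd : q.natDegree = m + 2 := by
    rw [hq, Monic.natDegree_mul ((monic_X_sub_C a).pow 2)
      (monic_prod_of_monic _ _ fun i _ => monic_X_sub_C (b i)), natDegree_pow, natDegree_X_sub_C,
      natDegree_prod_of_monic _ _ fun i _ => monic_X_sub_C (b i)]
    simp only [natDegree_X_sub_C, Finset.sum_const, Finset.card_univ, Fintype.card_fin,
      smul_eq_mul, mul_one]
    omega
  refine ⟨q + C π, a, b, ?_, ?_, ?_, ?_, ?_, ?_⟩
  · refine hqm.add_of_left ?_
    rw [degree_eq_natDegree hqm.ne_zero, hqd]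
    refine lt_of_le_of_lt degree_C_le ?_
    exact_mod_cast (by omega : 0 < m + 2)
  · rw [natDegree_add_C, hqd]
  · rw [Polynomial.map_add, map_C, Ideal.Quotient.eq_zero_iff_mem.2 hπ1, C_0, add_zero, hq,
      Polynomial.map_mul, Polynomial.map_pow, Polynomial.map_sub, map_X, map_C, Polynomial.map_prod]
    congr 1
    refine Finset.prod_congr rfl fun i _ => ?_
    rw [Polynomial.map_sub, map_X, map_C]
  · intro i j hij
    simp only [hb] at hij
    exact Fin.succ_injective _ (e.injective hij)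
  · intro i hi
    rw [hb, ha] at hi
    exact Fin.succ_ne_zero i (e.injective hi)
  · rw [eval_add, eval_C, hq, eval_mul, eval_pow, eval_sub, eval_X, eval_C, sub_self,
      zero_pow (by norm_num), zero_mul, zero_add]
    exact hπ2

private theorem AB4_cl (v : Pl F) (n m : ℕ) (p : (𝓞 F)[X]) :
    IsOpen {M : Matrix (Fin n) (Fin n) (Fv v) | Cl v m M.charpoly p} := by
  have hcont : ∀ i, Continuous fun M : Matrix (Fin n) (Fin n) (Fv v) => M.charpoly.coeff i := by
    intro i
    have h1 : ∀ M : Matrix (Fin n) (Fin n) (Fv v), M.charpoly.coeff i =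
        MvPolynomial.eval (fun ij : Fin n × Fin n => M ij.1 ij.2)
          ((Matrix.charpoly.univ (Fv v) (Fin n)).coeff i) := by
      intro M
      have h2 := Matrix.charpoly.univ_coeff_eval₂Hom (Fin n) (RingHom.id (Fv v))
        (fun ij : Fin n × Fin n => M ij.1 ij.2) i
      exact h2.symm
    simp_rw [h1]
    refine (MvPolynomial.continuous_eval _).comp ?_
    exact continuous_pi fun ij => (continuous_apply ij.2).comp (continuous_apply ij.1)
  have hopen : ∀ i, IsOpen {M : Matrix (Fin n) (Fin n) (Fv v) |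
      Valued.v (M.charpoly.coeff i - oF v (p.coeff i)) ≤ WithZero.exp (-(m : ℤ))} := by
    intro i
    exact (CG2.isOpen_val_le v _ WithZero.exp_ne_zero).preimage
      ((hcont i).sub continuous_const)
  by_cases hP : ∀ i, n < i → Valued.v ((0 : Fv v) - oF v (p.coeff i)) ≤ WithZero.exp (-(m : ℤ))
  · have h3 : {M : Matrix (Fin n) (Fin n) (Fv v) | Cl v m M.charpoly p} =
        ⋂ i ∈ Finset.range (n + 1), {M : Matrix (Fin n) (Fin n) (Fv v) |
          Valued.v (M.charpoly.coeff i - oF v (p.coeff i)) ≤ WithZero.exp (-(m : ℤ))} := by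
      ext M
      simp only [Set.mem_setOf_eq, Set.mem_iInter, Finset.mem_range]
      constructor
      · intro h i _
        exact h i
      · intro h i
        rcases Nat.lt_or_ge n i with hi | hi
        · have h4 : M.charpoly.coeff i = 0 := by
            refine coeff_eq_zero_of_natDegree_lt ?_
            rw [Matrix.charpoly_natDegree_eq_dim, Fintype.card_fin]
            exact hi
          rw [h4]
          exact hP i hi
        · exact h i (by omega)
    rw [h3]
    exact isOpen_biInter_finset fun i _ => hopen i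
  · push Not at hP
    obtain ⟨i, hi, hlt⟩ := hP
    have h3 : {M : Matrix (Fin n) (Fin n) (Fv v) | Cl v m M.charpoly p} = ∅ := by
      ext M
      simp only [Set.mem_setOf_eq, Set.mem_empty_iff_false, iff_false]
      intro h
      have h4 : M.charpoly.coeff i = 0 := by
        refine coeff_eq_zero_of_natDegree_lt ?_
        rw [Matrix.charpoly_natDegree_eq_dim, Fintype.card_fin]
        exact hi
      have h5 := h i
      rw [h4] at h5
      exact absurd h5 (not_le.2 hlt)
    rw [h3]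
    exact isOpen_empty

/-- **AB4.** The local types are open conditions.
PROOF. The coefficients of the characteristic polynomial are polynomials in the entries
(`Matrix.charpoly.univ`, `charpoly.univ_map_eval₂Hom`), so they are continuous functions of the matrix
(`MvPolynomial.continuous_eval`); the sets `{x | Valued.v (x - c) ≤ exp (-m)}` are open
(`CG2.isOpen_val_le`), `Cl` is a condition on the coefficients `i ≤ n` (for `i > n` it is the same condition for all matrices: both
coefficients are constant) and `T2`, `T3` are unions of such sets. -/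
theorem isOpen_T2 (v : Pl F) (n : ℕ) :
    IsOpen {M : Matrix (Fin n) (Fin n) (Fv v) | T2 v n M.charpoly} := by
  have h : {M : Matrix (Fin n) (Fin n) (Fv v) | T2 v n M.charpoly} =
      ⋃ (a : 𝓞 F) (g : (𝓞 F)[X]) (_ : T2p v n a g),
        {M : Matrix (Fin n) (Fin n) (Fv v) | Cl v 1 M.charpoly ((X - C a) * g)} := by
    ext M
    simp only [Set.mem_setOf_eq, Set.mem_iUnion, T2, exists_prop]
  rw [h]
  exact isOpen_iUnion fun a => isOpen_iUnion fun g => isOpen_iUnion fun _ => AB4_cl v n 1 _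

/-- See `isOpen_T2`. -/
theorem isOpen_T3 (v : Pl F) (n : ℕ) :
    IsOpen {M : Matrix (Fin n) (Fin n) (Fv v) | T3 v n M.charpoly} := by
  have h : {M : Matrix (Fin n) (Fin n) (Fv v) | T3 v n M.charpoly} =
      ⋃ (p : (𝓞 F)[X]) (a : 𝓞 F) (b : Fin (n - 2) → 𝓞 F) (_ : T3p v n p a b),
        {M : Matrix (Fin n) (Fin n) (Fv v) | Cl v 2 M.charpoly p} := by
    ext M
    simp only [Set.mem_setOf_eq, Set.mem_iUnion, T3, exists_prop]
  rw [h]
  exact isOpen_iUnion fun p => isOpen_iUnion fun a => isOpen_iUnion fun b =>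
    isOpen_iUnion fun _ => AB4_cl v n 2 _

private theorem AB5_sign (n k : ℕ) (hk : k ≤ n) :
    0 < (-1 : ℝ) ^ (n - k) * ∏ i : Fin n, (((k : ℝ) - 1 / 2) - ((i : ℕ) : ℝ)) := by
  rw [← Finset.prod_range (fun i : ℕ => ((k : ℝ) - 1 / 2) - (i : ℝ)),
    ← Finset.prod_range_mul_prod_Ico _ hk]
  have h1 : (-1 : ℝ) ^ (n - k) = ∏ _i ∈ Finset.Ico k n, (-1 : ℝ) := by
    rw [Finset.prod_const, Nat.card_Ico]
  rw [h1, mul_left_comm, ← Finset.prod_mul_distrib]
  refine mul_pos (Finset.prod_pos fun i hi => ?_) (Finset.prod_pos fun i hi => ?_)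
  · have h2 : (i : ℝ) + 1 ≤ k := by exact_mod_cast Finset.mem_range.1 hi
    linarith
  · have h2 : (k : ℝ) ≤ i := by exact_mod_cast (Finset.mem_Ico.1 hi).1
    linarith

/-- **AB5.** The real matrices near `diagonal (0, 1, ..., n - 1)` have `n` different real eigenvalues.
PROOF. `M.charpoly.eval y = det (y - M)` is a continuous function of `M` and for `M = diagonal i` it
is `∏ (y - i)`, with the sign `(-1) ^ (n - k)` at `y = k - 1 / 2`, `k = 0, ..., n`. `U` = the set of the `M` for which the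
sign is the same at these `n + 1` points, open. The intermediate value theorem gives a root in each of the
`n` intervals `(k - 1 / 2, k + 1 / 2)`. -/
theorem real_open (n : ℕ) : ∃ U : Set (Matrix (Fin n) (Fin n) ℝ), IsOpen U ∧ U.Nonempty ∧
    ∀ M ∈ U, RR n M.charpoly := by
  have hcont : ∀ y : ℝ, Continuous fun M : Matrix (Fin n) (Fin n) ℝ => M.charpoly.eval y := by
    intro y
    simp_rw [Matrix.eval_charpoly]
    exact (continuous_const.sub continuous_id).matrix_det
  refine ⟨⋂ k ∈ Finset.range (n + 1), {M : Matrix (Fin n) (Fin n) ℝ |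
    0 < (-1 : ℝ) ^ (n - k) * M.charpoly.eval ((k : ℝ) - 1 / 2)}, ?_, ?_, ?_⟩
  · exact isOpen_biInter_finset fun k _ =>
      isOpen_lt continuous_const (continuous_const.mul (hcont _))
  · refine ⟨Matrix.diagonal fun i : Fin n => ((i : ℕ) : ℝ), ?_⟩
    simp only [Set.mem_iInter, Finset.mem_range, Set.mem_setOf_eq]
    intro k hk
    rw [Matrix.charpoly_diagonal, eval_prod]
    simp only [eval_sub, eval_X, eval_C]
    exact AB5_sign n k (by omega)
  · intro M hM
    simp only [Set.mem_iInter, Finset.mem_range, Set.mem_setOf_eq] at hM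
    have key : ∀ i : Fin n, ∃ y : ℝ, ((i : ℕ) : ℝ) - 1 / 2 < y ∧ y < ((i : ℕ) : ℝ) + 1 / 2 ∧
        M.charpoly.IsRoot y := by
      intro i
      have h1 := hM (i : ℕ) (by omega)
      have h2 := hM ((i : ℕ) + 1) (by omega)
      have h3 : n - (i : ℕ) = (n - ((i : ℕ) + 1)) + 1 := by omega
      rw [h3, pow_succ] at h1
      have h4 : (((i : ℕ) + 1 : ℕ) : ℝ) - 1 / 2 = ((i : ℕ) : ℝ) + 1 / 2 := by push_cast; ring
      rw [h4] at h2
      have h5 : ContinuousOn (fun y : ℝ => M.charpoly.eval y)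
          (Set.Icc (((i : ℕ) : ℝ) - 1 / 2) (((i : ℕ) : ℝ) + 1 / 2)) :=
        M.charpoly.continuous.continuousOn
      have hle : ((i : ℕ) : ℝ) - 1 / 2 ≤ ((i : ℕ) : ℝ) + 1 / 2 := by linarith
      rcases neg_one_pow_eq_or ℝ (n - ((i : ℕ) + 1)) with h6 | h6
      · rw [h6] at h1 h2
        obtain ⟨y, hy1, hy2⟩ := intermediate_value_Ioo hle h5 (show (0 : ℝ) ∈ Set.Ioo _ _ from
          ⟨by linarith, by linarith⟩)
        exact ⟨y, hy1.1, hy1.2, hy2⟩
      · rw [h6] at h1 h2
        obtain ⟨y, hy1, hy2⟩ := intermediate_value_Ioo' hle h5 (show (0 : ℝ) ∈ Set.Ioo _ _ from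
          ⟨by linarith, by linarith⟩)
        exact ⟨y, hy1.1, hy1.2, hy2⟩
    choose y hy1 hy2 hy3 using key
    refine ⟨y, ?_, hy3⟩
    intro i j hij
    have h1 := hy1 i
    have h2 := hy2 i
    have h3 := hy1 j
    have h4 := hy2 j
    rw [hij] at h1 h2
    have h5 : ((i : ℕ) : ℝ) < ((j : ℕ) : ℝ) + 1 := by linarith
    have h6 : ((j : ℕ) : ℝ) < ((i : ℕ) : ℝ) + 1 := by linarith
    have h7 : (i : ℕ) < (j : ℕ) + 1 := by exact_mod_cast h5
    have h8 : (j : ℕ) < (i : ℕ) + 1 := by exact_mod_cast h6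
    exact Fin.ext (by omega)

/-- **AB6.** The element `t`.
PROOF. `exists_approx` with `U₂ = {M | T2 v₂ n M.charpoly}`, not empty by AB2 and AB1 (the image in `Fv v₂` of the monic polynomial
`(X - C a) * g`, of degree `n`; `Cl` holds as the differences vanish), the same for `U₃` (AB3) and
`U` from AB5. -/
theorem exists_t (φ : Spl A S) {v₂ v₃ : {v : Pl F // v ∉ S}} (h : v₂.1 ≠ v₃.1) (hn : 2 ≤ A.n)
    (hv : A.n ≤ Nm v₃.1) : ∃ t : DF A, TyL φ v₂ v₃ t ∧ TyR A t := by
  have hcl : ∀ (v : Pl F) (m : ℕ) (p : (𝓞 F)[X]), Cl v m (p.map (oF v)) p := by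
    intro v m p i
    rw [coeff_map, sub_self, map_zero]
    exact zero_le
  obtain ⟨a, g, hg⟩ := exists_T2p v₂.1 hn
  have hm : ((X - C a) * g).Monic := (monic_X_sub_C a).mul hg.mo
  have hd : ((X - C a) * g).natDegree = A.n := by
    rw [(monic_X_sub_C a).natDegree_mul hg.mo, natDegree_X_sub_C, ← hg.dg]
    ring
  obtain ⟨M, hM⟩ := exists_charpoly (hm.map (oF v₂.1)) ((hm.natDegree_map _).trans hd)
  obtain ⟨p, a', b, hp⟩ := exists_T3p v₃.1 hn hv
  obtain ⟨M', hM'⟩ := exists_charpoly (hp.mo.map (oF v₃.1)) ((hp.mo.natDegree_map _).trans hp.dg)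
  obtain ⟨U, hU, hUn, hUr⟩ := real_open A.n
  obtain ⟨t, h2, h3, hr⟩ := exists_approx φ h (isOpen_T2 v₂.1 A.n) ⟨M, by
    change T2 _ _ M.charpoly
    rw [hM]
    exact ⟨a, g, hg, hcl _ _ _⟩⟩ (isOpen_T3 v₃.1 A.n) ⟨M', by
    change T3 _ _ M'.charpoly
    rw [hM']
    exact ⟨p, a', b, hp, hcl _ _ _⟩⟩ hU hUn
  exact ⟨t, ⟨h2, h3⟩, fun w => hUr _ (hr w)⟩

end Pool.Agent.CGN
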