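import Pool.Agent.CGN.EDf

/-!
# Part E: minimal and characteristic polynomials of the elements of `D`
-/

noncomputable section

set_option linter.unusedSectionVars false

namespace Pool.Agent.CGN

open NumberField IsDedekindDomain Matrix Polynomial
open Pool.Agent.CG2 (Pl Fv Ov GalF Fbar Zbar Over IsInertia IsFrob Nm IsRay InRay expo TotPos Lies)
open Pool.Agent.CG2.GalFinAux (below)
open Pool.Agent.CGQ

variable {F : Type} [Field F] [NumberField F] {A : AD F}

private theorem FA1_pi {ι F E : Type} [Fintype ι] [DecidableEq ι] [Field F] [Field E] (φ : F →+* E) {m : ℕ}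
    {u : Fin m → ι → F} (hu : LinearIndependent F u) : LinearIndependent E fun k i => φ (u k i) := by
  have hinj : Function.Injective (Fintype.linearCombination F u) := by
    rw [← LinearMap.ker_eq_bot, LinearMap.ker_eq_bot']
    intro a ha
    rw [Fintype.linearCombination_apply] at ha
    exact funext (Fintype.linearIndependent_iff.1 hu a ha)
  obtain ⟨g, hg⟩ := LinearMap.exists_leftInverse_of_injective _ (LinearMap.ker_eq_bot.2 hinj)
  have hmat : LinearMap.toMatrix' g * LinearMap.toMatrix' (Fintype.linearCombination F u) = 1 := by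
    rw [← LinearMap.toMatrix'_comp, hg, LinearMap.toMatrix'_id]
  have hmat' : (LinearMap.toMatrix' g).map φ * (LinearMap.toMatrix' (Fintype.linearCombination F u)).map φ = 1 := by
    rw [← Matrix.map_mul, hmat, Matrix.map_one φ (map_zero φ) (map_one φ)]
  have hU : ∀ i k, (LinearMap.toMatrix' (Fintype.linearCombination F u)).map φ i k = φ (u k i) := by
    intro i k
    rw [Matrix.map_apply, LinearMap.toMatrix'_apply]
    congr 1
    rw [Fintype.linearCombination_apply]
    have h1 : ∀ j : Fin m, (if j = k then (1 : F) else 0) • u j = if j = k then u j else 0 := by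
      intro j
      split_ifs
      · rw [one_smul]
      · rw [zero_smul]
    simp only [Pi.single_apply, h1]
    rw [Finset.sum_ite_eq' Finset.univ k u, if_pos (Finset.mem_univ k)]
  rw [Fintype.linearIndependent_iff]
  intro b hb
  have h1 : ((LinearMap.toMatrix' (Fintype.linearCombination F u)).map φ).mulVec b = 0 := by
    funext i
    have h2 := congrFun hb i
    rw [Finset.sum_apply] at h2
    rw [Matrix.mulVec, dotProduct]
    simp only [hU]
    refine Eq.trans (Finset.sum_congr rfl fun k _ => ?_) h2
    rw [Pi.smul_apply, smul_eq_mul, mul_comm]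
  have h2 : b = 0 := by
    rw [← Matrix.one_mulVec b, ← hmat', ← Matrix.mulVec_mulVec, h1, Matrix.mulVec_zero]
  intro k
  rw [h2]
  rfl

/-- **FA1.** Linear independence is preserved by extension of scalars.
PROOF. The coordinates give the matrix `U` (rows `i : Fin n × Fin n`, columns `k : Fin m`), the linear map
`(Fin m → F) → DF A`, `a ↦ ∑ a k • u k` is injective, so it has a left inverse
(`LinearMap.exists_leftInverse_of_injective`), given by a matrix `B` with `B * U = 1`. Then
`φ(B) * φ(U) = 1` (`Matrix.map_mul`) so `φ(U)` is injective: the `dE A φ (u k)` are independent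
(`Fintype.linearIndependent_iff`). -/
theorem lin_map {E : Type} [Field E] (φ : F →+* E) {m : ℕ} {u : Fin m → DF A}
    (hu : LinearIndependent F u) : LinearIndependent E fun k => dE A φ (u k) := by
  exact FA1_pi (ι := Fin A.n × Fin A.n) φ hu

/-- Polynomials commute with the extension of scalars. -/
theorem dE_aeval {E : Type} [Field E] (φ : F →+* E) (c : DF A) (f : F[X]) :
    dE A φ (aeval c f) = aeval (dE A φ c) (f.map φ) := by
  have h : ∀ r : F, dE A φ (algebraMap F (DF A) r) = algebraMap E (DE A φ) (φ r) := by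
    intro r
    apply SC.Alg.ext
    intro i
    rw [Algebra.algebraMap_eq_smul_one, Algebra.algebraMap_eq_smul_one, dE_co, SC.Alg.co_smul,
      SC.Alg.co_smul, map_mul]
    rfl
  rw [aeval_def, hom_eval₂, aeval_def, eval₂_map]
  congr 1
  exact RingHom.ext h

/-- The same for an isomorphism with the matrix algebra. -/
theorem iso_aeval {E : Type} [Field E] (φ : F →+* E)
    (χ : DE A φ ≃ₐ[E] Matrix (Fin A.n) (Fin A.n) E) (c : DF A) (f : F[X]) :
    χ (dE A φ (aeval c f)) = aeval (χ (dE A φ c)) (f.map φ) := by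
  rw [dE_aeval]
  exact (aeval_algHom_apply (χ : DE A φ →ₐ[E] Matrix (Fin A.n) (Fin A.n) E) _ _).symm

/-- powers of the image of `c` are independent -/
private theorem FA2_pow {E : Type} [Field E] (φ : F →+* E)
    (χ : DE A φ ≃ₐ[E] Matrix (Fin A.n) (Fin A.n) E) (c : DF A) (m : ℕ) (hm : m ≤ (minpoly F c).natDegree) :
    LinearIndependent E fun k : Fin m => (χ (dE A φ c)) ^ (k : ℕ) := by
  have h1 : LinearIndependent F fun k : Fin m => c ^ (k : ℕ) :=
    (linearIndependent_pow (K := F) c).comp (Fin.castLE hm) (Fin.castLE_injective hm)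
  have h2 := lin_map (A := A) φ h1
  have h3 : LinearIndependent E fun k : Fin m => (dE A φ c) ^ (k : ℕ) := by
    have h4 : (fun k : Fin m => dE A φ (c ^ (k : ℕ))) = fun k : Fin m => (dE A φ c) ^ (k : ℕ) :=
      funext fun k => map_pow _ _ _
    rw [← h4]
    exact h2
  have h5 := h3.map' χ.toLinearMap (LinearMap.ker_eq_bot.2 χ.injective)
  have h6 : (χ.toLinearMap ∘ fun k : Fin m => (dE A φ c) ^ (k : ℕ)) = fun k : Fin m => (χ (dE A φ c)) ^ (k : ℕ) :=
    funext fun k => map_pow χ _ _
  rw [← h6]
  exact h5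

/-- a polynomial of degree less than the degree of `c` which kills the image of `c` is zero -/
private theorem FA2_zero {E : Type} [Field E] (φ : F →+* E)
    (χ : DE A φ ≃ₐ[E] Matrix (Fin A.n) (Fin A.n) E) (c : DF A) (P : E[X]) (hP : P.degree < (minpoly F c).natDegree)
    (h : aeval (χ (dE A φ c)) P = 0) : P = 0 := by
  have h1 := FA2_pow φ χ c (minpoly F c).natDegree le_rfl
  by_contra hP0
  have hlt : P.natDegree < (minpoly F c).natDegree := (Polynomial.natDegree_lt_iff_degree_lt hP0).2 hP
  rw [Polynomial.aeval_eq_sum_range' hlt, ← Fin.sum_univ_eq_sum_range (fun k => P.coeff k • (χ (dE A φ c)) ^ k)] at h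
  have h2 := Fintype.linearIndependent_iff.1 h1 (fun k => P.coeff (k : ℕ)) h
  apply hP0
  ext k
  rw [Polynomial.coeff_zero]
  rcases Nat.lt_or_ge k (minpoly F c).natDegree with h3 | h3
  · exact h2 ⟨k, h3⟩
  · exact Polynomial.coeff_eq_zero_of_natDegree_lt (lt_of_lt_of_le hlt h3)

/-- **FA2.** The degree of the minimal polynomial is at most `n`.
PROOF. Suppose `n < (minpoly F c).natDegree`. Then `1, c, ..., c ^ n` are linearly independent over `F`
(a linear relation is a nonzero polynomial of degree `≤ n` killing `c`: `minpoly.natDegree_le_of..`,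
`minpoly.degree_le_of_ne_zero`; `DF A` is a finite dimensional algebra, `minpoly` for a ring), so by
FA1 their images in `DE A φ` are independent over `E`, and so are the powers `χ(c) ^ k`, `k ≤ n`
(`χ` is injective). But `aeval M M.charpoly = 0` (`Matrix.aeval_self_charpoly`) is a nontrivial relation
(`charpoly` is monic of degree `n`: `Matrix.charpoly_natDegree_eq_dim`, `Matrix.charpoly_monic`). -/
theorem minpoly_le {E : Type} [Field E] (φ : F →+* E)
    (χ : DE A φ ≃ₐ[E] Matrix (Fin A.n) (Fin A.n) E) (c : DF A) :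
    (minpoly F c).natDegree ≤ A.n := by
  by_contra hcon
  push Not at hcon
  have h1 := FA2_zero φ χ c (χ (dE A φ c)).charpoly (by
    refine lt_of_le_of_lt Polynomial.degree_le_natDegree ?_
    rw [Matrix.charpoly_natDegree_eq_dim, Fintype.card_fin]
    exact_mod_cast hcon) (Matrix.aeval_self_charpoly _)
  exact (Matrix.charpoly_monic (χ (dE A φ c))).ne_zero h1

/-- **FA3.** For an element of degree `n` the characteristic polynomial is the minimal polynomial.
PROOF. `1, c, ..., c ^ (n - 1)` are independent over `F`, so their images are independent over `E` (FA1). Put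
`M = χ (dE A φ c)`, `P = M.charpoly - (minpoly F c).map φ`. Both polynomials are monic of degree
`n` (`minpoly.monic`, integrality from finite dimension) so `P.degree < n`; both kill `M`
(`Matrix.aeval_self_charpoly`, `iso_aeval` with `minpoly.aeval`). So `aeval M P = 0` is a linear
relation between `1, M, ..., M ^ (n - 1)`, which are independent: `P = 0`. -/
theorem charpoly_eq {E : Type} [Field E] (φ : F →+* E)
    (χ : DE A φ ≃ₐ[E] Matrix (Fin A.n) (Fin A.n) E) {c : DF A}
    (hc : (minpoly F c).natDegree = A.n) :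
    (χ (dE A φ c)).charpoly = (minpoly F c).map φ := by
  have hint : IsIntegral F c :=
    @IsIntegral.of_finite F (DF A) _ _ _ (inferInstanceAs (Module.Finite F (Fin A.n × Fin A.n → F))) c
  have hmon := minpoly.monic hint
  have hmon' : ((minpoly F c).map φ).Monic := hmon.map φ
  have hd : (χ (dE A φ c)).charpoly.degree = ((minpoly F c).map φ).degree := by
    rw [Matrix.charpoly_degree_eq_dim, Polynomial.degree_eq_natDegree hmon'.ne_zero, hmon.natDegree_map, hc,
      Fintype.card_fin]
  have hlt : ((χ (dE A φ c)).charpoly - (minpoly F c).map φ).degree < (minpoly F c).natDegree := by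
    have h1 := Polynomial.degree_sub_lt_left hd (Matrix.charpoly_monic _).ne_zero
      ((Matrix.charpoly_monic _).leadingCoeff.trans hmon'.leadingCoeff.symm)
    refine lt_of_lt_of_le h1 ?_
    rw [Matrix.charpoly_degree_eq_dim, Fintype.card_fin, hc]
  have h0 := FA2_zero φ χ c _ hlt (by
    rw [map_sub, Matrix.aeval_self_charpoly, ← iso_aeval, minpoly.aeval, map_zero, map_zero, sub_zero])
  exact sub_eq_zero.1 h0

/-- **FA4.** If the characteristic polynomial is separable then the degree is `n`.
PROOF. `≤` is FA2. Let `Ω` be an algebraic closure of `E`, `M = χ (dE A φ c)` mapped to `Ω`. Its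
characteristic polynomial is separable of degree `n` and splits, so it has `n` different roots in `Ω`; every
root `λ` is an eigenvalue (`Matrix.exists_mulVec_eq_zero_iff` for `λ - M`, `det = charpoly.eval λ`), so every
polynomial over `Ω` which kills `M` has the root `λ`; `(minpoly F c).map` kills `M` and is nonzero, so its degree is at least
`n`. (Or: `charpoly` divides every annihilating polynomial because it is squarefree and divides a
power of the minimal polynomial.) -/
theorem deg_of_sep {E : Type} [Field E] (φ : F →+* E)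
    (χ : DE A φ ≃ₐ[E] Matrix (Fin A.n) (Fin A.n) E) {c : DF A}
    (hs : (χ (dE A φ c)).charpoly.Separable) : (minpoly F c).natDegree = A.n := by
  refine le_antisymm (minpoly_le φ χ c) ?_
  have hint : IsIntegral F c :=
    @IsIntegral.of_finite F (DF A) _ _ _ (inferInstanceAs (Module.Finite F (Fin A.n × Fin A.n → F))) c
  have hmon := minpoly.monic hint
  let ψ : E →+* AlgebraicClosure E := algebraMap E (AlgebraicClosure E)
  obtain ⟨M, hM⟩ : ∃ M : Matrix (Fin A.n) (Fin A.n) (AlgebraicClosure E), M = (χ (dE A φ c)).map ψ := ⟨_, rfl⟩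
  have hMc : M.charpoly = (χ (dE A φ c)).charpoly.map ψ := by
    rw [hM]
    exact Matrix.charpoly_map _ ψ
  obtain ⟨Q, hQ⟩ : ∃ Q : (AlgebraicClosure E)[X], Q = ((minpoly F c).map φ).map ψ := ⟨_, rfl⟩
  have hQmon : Q.Monic := by
    rw [hQ]
    exact (hmon.map φ).map ψ
  have hQdeg : Q.natDegree = (minpoly F c).natDegree := by
    rw [hQ, (hmon.map φ).natDegree_map, hmon.natDegree_map]
  have hQM : aeval M Q = 0 := by
    have h1 : aeval (χ (dE A φ c)) ((minpoly F c).map φ) = 0 := by
      rw [← iso_aeval, minpoly.aeval, map_zero, map_zero]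
    have h2 := congrArg (fun N : Matrix (Fin A.n) (Fin A.n) E => N.map ψ) h1
    have h3 : ∀ P : E[X], (aeval (χ (dE A φ c)) P).map ψ = aeval M (P.map ψ) := by
      intro P
      have h4 : (aeval (χ (dE A φ c)) P).map ψ = ψ.mapMatrix (aeval (χ (dE A φ c)) P) := rfl
      rw [h4, aeval_def, hom_eval₂, aeval_def, eval₂_map, hM]
      congr 1
      apply RingHom.ext
      intro r
      change ψ.mapMatrix (algebraMap E (Matrix (Fin A.n) (Fin A.n) E) r) =
        algebraMap (AlgebraicClosure E) (Matrix (Fin A.n) (Fin A.n) (AlgebraicClosure E)) (ψ r)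
      ext i j
      rw [RingHom.mapMatrix_apply, Matrix.map_apply, Matrix.algebraMap_matrix_apply, Matrix.algebraMap_matrix_apply]
      split_ifs
      · rfl
      · exact map_zero ψ
    simp only [h3] at h2
    rw [← hQ] at h2
    rw [h2]
    ext i j
    exact map_zero ψ
  have hroots : ∀ μ, M.charpoly.IsRoot μ → Q.IsRoot μ := by
    intro μ hμ
    have h1 : Module.End.HasEigenvalue (Matrix.toLin' M) μ := by
      rw [Module.End.hasEigenvalue_iff_isRoot_charpoly, Matrix.charpoly_toLin']
      exact hμ
    obtain ⟨x, hx⟩ := h1.exists_hasEigenvector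
    have h2 := Module.End.aeval_apply_of_hasEigenvector (p := Q) hx
    have h3 : aeval (Matrix.toLin' M) Q = 0 := by
      have h4 : Matrix.toLin' M = Matrix.toLinAlgEquiv' M := rfl
      have h5 : aeval (Matrix.toLinAlgEquiv' M) Q = Matrix.toLinAlgEquiv' (aeval M Q) :=
        (aeval_algHom_apply (Matrix.toLinAlgEquiv' : Matrix (Fin A.n) (Fin A.n) (AlgebraicClosure E) ≃ₐ[AlgebraicClosure E] _).toAlgHom M Q)
      rw [h4, h5, hQM, map_zero]
    rw [h3, LinearMap.zero_apply] at h2
    exact (smul_eq_zero.1 h2.symm).resolve_right hx.2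
  have hsep : M.charpoly.Separable := by
    rw [hMc]
    exact hs.map
  have hsplit : M.charpoly.Splits := IsAlgClosed.splits _
  have hcard : Multiset.card M.charpoly.roots = A.n := by
    rw [← hsplit.natDegree_eq_card_roots, Matrix.charpoly_natDegree_eq_dim, Fintype.card_fin]
  have hnodup := Polynomial.nodup_roots hsep
  have hle : M.charpoly.roots ≤ Q.roots := by
    rw [Multiset.le_iff_subset hnodup]
    intro μ hμ
    rw [Polynomial.mem_roots hQmon.ne_zero]
    exact hroots μ ((Polynomial.mem_roots (Matrix.charpoly_monic M).ne_zero).1 hμ)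
  calc A.n = Multiset.card M.charpoly.roots := hcard.symm
    _ ≤ Multiset.card Q.roots := Multiset.card_le_card hle
    _ ≤ Q.natDegree := Polynomial.card_roots' Q
    _ = (minpoly F c).natDegree := hQdeg

private theorem FA5_gen {O K k : Type} [CommRing O] [IsDomain O] [IsIntegrallyClosed O] [Field K] [Algebra O K]
    [IsFractionRing O K] [Field k] (ρ : O →+* k) (f : O[X]) (hf : f.Monic) (hs : (f.map ρ).Separable) :
    (f.map (algebraMap O K)).Separable := by
  classical
  have hinj : Function.Injective (algebraMap O K) := IsFractionRing.injective O K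
  have hf0 : f.map (algebraMap O K) ≠ 0 := (hf.map _).ne_zero
  obtain ⟨d, hd⟩ : ∃ d, d = EuclideanDomain.gcd (f.map (algebraMap O K)) (derivative (f.map (algebraMap O K))) := ⟨_, rfl⟩
  have hd1 : d ∣ f.map (algebraMap O K) := by
    rw [hd]
    exact EuclideanDomain.gcd_dvd_left _ _
  have hd2 : d ∣ derivative (f.map (algebraMap O K)) := by
    rw [hd]
    exact EuclideanDomain.gcd_dvd_right _ _
  have hd0 : d ≠ 0 := ne_zero_of_dvd_ne_zero hf0 hd1
  have hlc : d.leadingCoeff ≠ 0 := leadingCoeff_ne_zero.2 hd0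
  obtain ⟨g, hg⟩ := IsIntegrallyClosed.eq_map_mul_C_of_dvd K hf hd1
  have hgm : (g.map (algebraMap O K)).Monic := by
    have h1 : g.map (algebraMap O K) = d * C d.leadingCoeff⁻¹ := by
      nth_rewrite 1 [← hg]
      rw [mul_assoc, ← C_mul, mul_inv_cancel₀ hlc, C_1, mul_one]
    rw [h1]
    exact monic_mul_leadingCoeff_inv hd0
  have hgmon : g.Monic := Polynomial.monic_of_injective hinj hgm
  have hgd : g.map (algebraMap O K) ∣ d := ⟨_, hg.symm⟩
  have h1 : g ∣ f := (Polynomial.map_dvd_map (algebraMap O K) hinj hgmon).1 (hgd.trans hd1)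
  have h2 : g ∣ derivative f := by
    rw [← Polynomial.map_dvd_map (algebraMap O K) hinj hgmon, ← derivative_map]
    exact hgd.trans hd2
  have h3 : IsUnit (g.map ρ) := by
    have h4 : IsCoprime (f.map ρ) (derivative (f.map ρ)) := hs
    refine h4.isUnit_of_dvd' (Polynomial.map_dvd ρ h1) ?_
    rw [derivative_map]
    exact Polynomial.map_dvd ρ h2
  have h4 : g.natDegree = 0 := by
    rw [← hgmon.natDegree_map ρ]
    exact natDegree_eq_zero_of_isUnit h3
  have h5 : g = 1 := hgmon.natDegree_eq_zero.1 h4
  have h6 : IsUnit d := by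
    rw [← hg, h5, Polynomial.map_one, one_mul]
    exact isUnit_C.2 hlc.isUnit
  rw [hd, EuclideanDomain.gcd_isUnit_iff] at h6
  exact h6

/-- **FA5.** A monic polynomial of the first local type is separable.
PROOF. The coefficients of `f` are in `Ov v` (`Cl`, `v.valuation (p.coeff i) ≤ 1`), so `f` is the image of a monic `f₁ ∈ (Ov v)[X]`
(`Polynomial.lifts`, `lifts_and_natDegree_eq_and_monic`). Let `k` be the residue field of `Ov v` (`IsLocalRing.ResidueField`); there is a homomorphism
`κ = 𝓞 F ⧸ v.asIdeal → k` (the map `𝓞 F → Ov v → k` kills `v.asIdeal`). The image of `f₁` in `k[X]` is the image of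
`(X - C ā) * ḡ ∈ κ[X]` (`Cl v 1`: the difference of the coefficients has valuation `< 1`, so it is in the maximal ideal). This polynomial over the finite
field `κ` is separable (`ḡ` irreducible over a perfect field; coprime to `X - C ā` because
`ḡ(ā) ≠ 0`; `Separable.mul`), so is its image. Suppose `f` is not separable: there is a monic
common divisor `d` of `f` and `f.derivative` of positive degree (`gcd`). By the Gauss lemma (`Ov v` is integrally closed, `f₁`
monic: `IsIntegrallyClosed.eq_map_mul_C_of_dvd`) `d` is the image of a monic `d₁ ∈ (Ov v)[X]`, and `d₁ ∣ f₁`, `d₁ ∣ f₁.derivative` in `(Ov v)[X]`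
(`Polynomial.map_dvd_map`, for monic `d₁`). So the image of `d₁` in `k[X]` divides the image of
`f₁` and its derivative, it has positive degree: contradiction. (Other possibility: the discriminant.) -/
theorem T2_sep {v : Pl F} {n : ℕ} {f : (Fv v)[X]} (hf : f.Monic) (hn : f.natDegree = n)
    (h : T2 v n f) : f.Separable := by
  obtain ⟨a, g, hT, hC⟩ := h
  obtain ⟨p, hp⟩ : ∃ p, p = (X - C a) * g := ⟨_, rfl⟩
  rw [← hp] at hC
  have he : WithZero.exp (-((1 : ℕ) : ℤ)) < (1 : WithZero (Multiplicative ℤ)) := by
    rw [← WithZero.exp_zero, WithZero.exp_lt_exp]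
    norm_num
  have hoF : ∀ x : 𝓞 F, Valued.v (oF v x) ≤ 1 := by
    intro x
    rw [val_oF]
    exact HeightOneSpectrum.valuation_le_one v x
  have hcoef : ∀ i, Valued.v (f.coeff i) ≤ 1 := by
    intro i
    have h1 : f.coeff i = (f.coeff i - oF v (p.coeff i)) + oF v (p.coeff i) := by ring
    rw [h1]
    exact (Valuation.map_add _ _ _).trans (max_le ((hC i).trans he.le) (hoF _))
  have hlift : f ∈ Polynomial.lifts (algebraMap (Ov v) (Fv v)) := by
    rw [Polynomial.lifts_iff_coeff_lifts]
    intro i
    exact ⟨⟨f.coeff i, hcoef i⟩, rfl⟩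
  obtain ⟨f₁, hf1, _, hf1m⟩ := Polynomial.lifts_and_natDegree_eq_and_monic hlift hf
  have hnon : ∀ y : Ov v, Valued.v (y : Fv v) < 1 → IsLocalRing.residue (Ov v) y = 0 := by
    intro y hy
    rw [IsLocalRing.residue_eq_zero_iff, IsLocalRing.mem_maximalIdeal, mem_nonunits_iff]
    rintro ⟨u, rfl⟩
    have h1 : ((u : Ov v) : Fv v) * (((u⁻¹ : (Ov v)ˣ) : Ov v) : Fv v) = 1 := by
      have h2 : (u : Ov v) * ((u⁻¹ : (Ov v)ˣ) : Ov v) = 1 := u.mul_inv
      exact congrArg (fun z : Ov v => (z : Fv v)) h2
    have h2 := congrArg Valued.v h1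
    rw [map_mul, map_one] at h2
    have h3 : Valued.v ((((u⁻¹ : (Ov v)ˣ) : Ov v) : Fv v)) ≤ 1 := ((u⁻¹ : (Ov v)ˣ) : Ov v).2
    have h4 : Valued.v ((u : Ov v) : Fv v) * Valued.v ((((u⁻¹ : (Ov v)ˣ) : Ov v) : Fv v)) < 1 :=
      mul_lt_one_of_lt_of_le hy h3
    rw [h2] at h4
    exact lt_irrefl _ h4
  let ρ : Ov v →+* IsLocalRing.ResidueField (Ov v) := IsLocalRing.residue (Ov v)
  let σ : 𝓞 F →+* Ov v := algebraMap (𝓞 F) (Ov v)
  have hσ : ∀ x, ((σ x : Ov v) : Fv v) = oF v x := fun x => rfl
  have hker : ∀ x ∈ v.asIdeal, (ρ.comp σ) x = 0 := by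
    intro x hx
    apply hnon
    rw [hσ, val_oF]
    exact (HeightOneSpectrum.valuation_lt_one_iff_mem v x).2 hx
  let τ : 𝓞 F ⧸ v.asIdeal →+* IsLocalRing.ResidueField (Ov v) := Ideal.Quotient.lift v.asIdeal (ρ.comp σ) hker
  have hred : f₁.map ρ = (p.map (Ideal.Quotient.mk v.asIdeal)).map τ := by
    ext i
    rw [Polynomial.coeff_map, Polynomial.coeff_map, Polynomial.coeff_map]
    have h1 : τ (Ideal.Quotient.mk v.asIdeal (p.coeff i)) = ρ (σ (p.coeff i)) := Ideal.Quotient.lift_mk _ _ _
    rw [h1, ← sub_eq_zero, ← map_sub]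
    apply hnon
    have h2 : ((f₁.coeff i - σ (p.coeff i) : Ov v) : Fv v) = f.coeff i - oF v (p.coeff i) := by
      rw [← hf1, Polynomial.coeff_map]
      rfl
    rw [h2]
    exact lt_of_le_of_lt (hC i) he
  have hfinκ : Finite (𝓞 F ⧸ v.asIdeal) := Ideal.finiteQuotientOfFreeOfNeBot v.asIdeal v.ne_bot
  have hmax : v.asIdeal.IsMaximal := v.isMaximal
  let _ : Field (𝓞 F ⧸ v.asIdeal) := Ideal.Quotient.field v.asIdeal
  have hsep : (p.map (Ideal.Quotient.mk v.asIdeal)).Separable := by
    rw [hp, Polynomial.map_mul, Polynomial.map_sub, Polynomial.map_X, Polynomial.map_C]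
    refine Separable.mul (separable_X_sub_C) (PerfectField.separable_of_irreducible hT.irr) ?_
    rw [(irreducible_X_sub_C _).coprime_iff_not_dvd, dvd_iff_isRoot]
    intro hroot
    apply hT.ne
    rw [← Ideal.Quotient.eq_zero_iff_mem]
    rw [IsRoot, Polynomial.eval_map, Polynomial.eval₂_at_apply] at hroot
    exact hroot
  have hfin : (f₁.map ρ).Separable := by
    rw [hred]
    exact hsep.map
  have := FA5_gen (K := Fv v) ρ f₁ hf1m hfin
  rw [hf1] at this
  exact this

end Pool.Agent.CGN
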