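import Pool.Agent.CGN.EDf

/-!
# Part E: subfields of `D` and generators
-/

noncomputable section

set_option linter.unusedSectionVars false

namespace Pool.Agent.CGN

open NumberField IsDedekindDomain Matrix Polynomial
open Pool.Agent.CG2 (Pl Fv Ov GalF Fbar Zbar Over IsInertia IsFrob Nm IsRay InRay expo TotPos Lies)
open Pool.Agent.CG2.GalFinAux (below)
open Pool.Agent.CGQ

variable {F : Type} [Field F] [NumberField F] {A : AD F}

private theorem FB1_gen {F D : Type} [Field F] [NumberField F] [Ring D] [Nontrivial D] [Algebra F D]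
    [Module.Finite F D] (hdiv : ∀ x : D, x ≠ 0 → IsUnit x) (c : D) :
    ∃ (L : Type) (_ : Field L) (_ : NumberField L) (_ : Algebra F L) (ι : L →ₐ[F] D) (θ : L),
      ι θ = c ∧ Module.finrank F L = (minpoly F c).natDegree := by
  have hnz : NoZeroDivisors D := ⟨fun {a b} hab => by
    by_contra hcon
    push Not at hcon
    obtain ⟨u, hu⟩ := hdiv a hcon.1
    apply hcon.2
    rw [← hu] at hab
    have h1 := congrArg (fun z => (u⁻¹ : Dˣ).1 * z) hab
    simpa using h1⟩
  have hdom : IsDomain D := NoZeroDivisors.to_isDomain D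
  have hint : IsIntegral F c := IsIntegral.of_finite F c
  have hirr : Irreducible (minpoly F c) := minpoly.irreducible hint
  have : Fact (Irreducible (minpoly F c)) := ⟨hirr⟩
  let pb := AdjoinRoot.powerBasis hirr.ne_zero
  have hfin : Module.Finite F (AdjoinRoot (minpoly F c)) := pb.finite
  have hnf : NumberField (AdjoinRoot (minpoly F c)) := NumberField.of_module_finite F _
  have hker : ∀ a ∈ Ideal.span {minpoly F c}, (aeval c : F[X] →ₐ[F] D) a = 0 := by
    intro a ha
    obtain ⟨b, rfl⟩ := Ideal.mem_span_singleton'.1 ha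
    rw [map_mul, minpoly.aeval, mul_zero]
  let ι : AdjoinRoot (minpoly F c) →ₐ[F] D :=
    (Ideal.Quotient.liftₐ (Ideal.span {minpoly F c}) (aeval c : F[X] →ₐ[F] D) hker)
  refine ⟨AdjoinRoot (minpoly F c), inferInstance, hnf, inferInstance, ι, AdjoinRoot.root _, ?_, ?_⟩
  · have h1 : ι (AdjoinRoot.root (minpoly F c)) = (aeval c : F[X] →ₐ[F] D) X := rfl
    rw [h1, aeval_X]
  · rw [pb.finrank]
    exact AdjoinRoot.powerBasis_dim hirr.ne_zero

/-- **FB1.** The subfield generated by an element of `D`.
PROOF. `DF A` has no zero divisors (`hdiv`) and is finite dimensional, so `minpoly F c` is irreducible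
(`minpoly.irreducible` needs `IsDomain (DF A)`: `Nontrivial` — if `DF A` is trivial then `c = 0 = 1`; is it possible? only if
`n = 0`; exclude it with the hypothesis `h0`). `L = AdjoinRoot (minpoly F c)`, a field (`Fact (Irreducible _)`), finite over `F`
of degree `natDegree` (`AdjoinRoot.powerBasis`, `PowerBasis.finrank`), `NumberField.of_module_finite F L`;
`ι = AdjoinRoot.liftAlgHom`-like map for a noncommutative target: `Polynomial.aeval c` is an algebra homomorphism
`F[X] →ₐ[F] DF A`, killing the ideal generated by `minpoly F c`: `Ideal.Quotient.liftₐ`. `θ = root`. -/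
theorem exists_field (hdiv : IsDiv A) (h0 : A.n ≠ 0) (c : DF A) :
    ∃ (L : Type) (_ : Field L) (_ : NumberField L) (_ : Algebra F L) (ι : L →ₐ[F] DF A) (θ : L),
      ι θ = c ∧ Module.finrank F L = (minpoly F c).natDegree := by
  have hne : Nonempty (Fin A.n × Fin A.n) := ⟨(⟨0, Nat.pos_of_ne_zero h0⟩, ⟨0, Nat.pos_of_ne_zero h0⟩)⟩
  have hnt : Nontrivial (DF A) := inferInstanceAs (Nontrivial (Fin A.n × Fin A.n → F))
  exact @FB1_gen F (DF A) _ _ _ _ _ (inferInstanceAs (Module.Finite F (Fin A.n × Fin A.n → F))) hdiv c

private theorem FB2_trans {α : Type} [DecidableEq α] (i j i' j' : α) (h : i ≠ j) (h' : i' ≠ j') :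
    ∃ τ : Equiv.Perm α, τ i = i' ∧ τ j = j' := by
  refine ⟨Equiv.swap (Equiv.swap i i' j) j' * Equiv.swap i i', ?_, ?_⟩
  · rw [Equiv.Perm.mul_apply, Equiv.swap_apply_left]
    apply Equiv.swap_apply_of_ne_of_ne
    · intro h1
      apply h
      have h2 := congrArg (Equiv.swap i i') h1
      rw [Equiv.swap_apply_right, Equiv.swap_apply_self] at h2
      exact h2
    · exact h'
  · rw [Equiv.Perm.mul_apply, Equiv.swap_apply_left]

/-- **FB2.** If the Galois group induces all permutations of the embeddings then every element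
outside `F` generates `L`.
PROOF. `n = [L : F]` is the number of the embeddings (`AlgHom.card`). If the values `j z` are all different
then `minpoly F z` has `n` different roots in `Fbar F` (`aeval (j z) (minpoly F z) = 0`), so its degree is `≥ n`, and
it is `≤ n` (`minpoly.natDegree_le`). Otherwise `j₁ z = j₂ z` with `j₁ ≠ j₂`. For all `j ≠ j'` there is a
permutation with `j₁ ↦ j`, `j₂ ↦ j'` (`Equiv.swap` products or
`Function.Embedding` extension), so `g (j₁ z) = j z`, `g (j₂ z) = j' z`: `j z = j' z` for all `j, j'`.
So `j z` is fixed by the Galois group (every `g ∘ j` is an embedding), it is in the image of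
`F` (`IsGalois F (Fbar F)`: `IsGalois.mem_bot_iff_fixed` or `InfiniteGalois`), `j z = algebraMap r = j (algebraMap r)`, so
`z = algebraMap r`, contradiction. (Or: the roots of `minpoly F z` in `Fbar` are the values `j z`, so there is only
one, it is separable, so its degree is one.) -/
theorem gen_of_sn {L : Type} [Field L] [NumberField L] [Algebra F L]
    (sn : ∀ π : Equiv.Perm (L →ₐ[F] Fbar F), ∃ g : GalF F, ActsAs g π) {z : L}
    (hz : z ∉ Set.range (algebraMap F L)) :
    (minpoly F z).natDegree = Module.finrank F L := by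
  classical
  have hint : IsIntegral F z := Algebra.IsIntegral.isIntegral z
  have hsep : (minpoly F z).Separable := Algebra.IsSeparable.isSeparable F z
  have hcard : Fintype.card ((minpoly F z).rootSet (Fbar F)) = (minpoly F z).natDegree :=
    Polynomial.card_rootSet_eq_natDegree hsep (IsAlgClosed.splits _)
  have hrange : (Set.range fun ψ : L →ₐ[F] Fbar F => ψ z) = (minpoly F z).rootSet (Fbar F) :=
    Algebra.IsAlgebraic.range_eval_eq_rootSet_minpoly (F := F) (K := L) (A := Fbar F) z
  have hcard' : Nat.card (Set.range fun ψ : L →ₐ[F] Fbar F => ψ z) = (minpoly F z).natDegree := by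
    rw [hrange, Nat.card_eq_fintype_card, hcard]
  by_cases hinj : Function.Injective fun ψ : L →ₐ[F] Fbar F => ψ z
  · rw [← hcard', Nat.card_congr (Equiv.ofInjective _ hinj).symm, Nat.card_eq_fintype_card, AlgHom.card F L (Fbar F)]
  · exfalso
    rw [Function.Injective] at hinj
    push Not at hinj
    obtain ⟨j₁, j₂, h12, hne⟩ := hinj
    have hall : ∀ j j' : L →ₐ[F] Fbar F, j z = j' z := by
      intro j j'
      by_cases h : j = j'
      · rw [h]
      · obtain ⟨π, h1, h2⟩ := FB2_trans j₁ j₂ j j' hne h
        obtain ⟨g, hg⟩ := sn π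
        rw [← h1, ← h2, ← hg, ← hg]
        exact congrArg g h12
    have hone : (minpoly F z).natDegree = 1 := by
      rw [← hcard']
      have h1 : (Set.range fun ψ : L →ₐ[F] Fbar F => ψ z) = {j₁ z} := by
        ext w
        constructor
        · rintro ⟨j, rfl⟩
          exact hall j j₁
        · intro hw
          exact ⟨j₁, (Set.mem_singleton_iff.1 hw).symm⟩
      rw [h1, Nat.card_unique]
    rw [minpoly.natDegree_eq_one_iff] at hone
    exact hz hone

/-- **FB3.** Every element is a polynomial in a generator.
PROOF. `IntermediateField.adjoin F {z} = ⊤` by the degree; `= Algebra.adjoin` (`z` is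
algebraic); `Algebra.adjoin_singleton_eq_range_aeval`. -/
theorem exists_poly {L : Type} [Field L] [NumberField L] [Algebra F L] {z : L}
    (hz : (minpoly F z).natDegree = Module.finrank F L) (x : L) :
    ∃ P : F[X], aeval z P = x := by
  have hint : IsIntegral F z := Algebra.IsIntegral.isIntegral z
  have h1 : IntermediateField.adjoin F {z} = ⊤ := (Field.primitive_element_iff_minpoly_natDegree_eq F z).2 hz
  have h2 := IntermediateField.adjoin_simple_toSubalgebra_of_isAlgebraic hint.isAlgebraic
  rw [h1, IntermediateField.top_toSubalgebra, Algebra.adjoin_singleton_eq_range_aeval] at h2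
  have h3 : x ∈ (aeval z : F[X] →ₐ[F] L).range := by
    rw [← h2]
    trivial
  exact h3

/-- **FB4.** The real embeddings of `L` over a real embedding of `F`.
PROOF. `f = (minpoly F z).map e` has degree `n` and the `n` different roots `y i`. `F(z) = L`; for
every root `y i` there is a homomorphism `L → ℝ` over `e` with `z ↦ y i` (with `e.toAlgebra : Algebra F ℝ`:
power basis `Field.powerBasisOfFiniteOfSeparable`-like: `PowerBasis.lift`, or `IntermediateField.adjoin.powerBasis`,
`IntermediateField.adjoin_algHom..`, or `AdjoinRoot.lift` composed with the inverse of the isomorphism `AdjoinRoot (minpoly F z) ≃ L`).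
They are different as the values at `z` are. -/
theorem exists_real_embs {L : Type} [Field L] [NumberField L] [Algebra F L] {n : ℕ}
    (hL : Module.finrank F L = n) {z : L} (hz : (minpoly F z).natDegree = n) (e : F →+* ℝ)
    (hr : RR n ((minpoly F z).map e)) :
    ∃ σ : Fin n → (L →+* ℝ), Function.Injective σ ∧ ∀ i, (σ i).comp (algebraMap F L) = e := by
  obtain ⟨y, hy, hroot⟩ := hr
  have hint : IsIntegral F z := Algebra.IsIntegral.isIntegral z
  have : Fact (Irreducible (minpoly F z)) := ⟨minpoly.irreducible hint⟩
  let θ : AdjoinRoot (minpoly F z) →ₐ[F] L := AdjoinRoot.liftAlgHom (minpoly F z) (Algebra.ofId F L) z (minpoly.aeval F z)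
  have hθr : θ (AdjoinRoot.root (minpoly F z)) = z := AdjoinRoot.lift_root (minpoly.aeval F z)
  have hθ : Function.Bijective θ := by
    refine ⟨θ.toRingHom.injective, fun x => ?_⟩
    obtain ⟨P, hP⟩ := exists_poly (hz.trans hL.symm) x
    refine ⟨aeval (AdjoinRoot.root (minpoly F z)) P, ?_⟩
    rw [← aeval_algHom_apply, hθr, hP]
  let E := AlgEquiv.ofBijective θ hθ
  have hEr : E.symm z = AdjoinRoot.root (minpoly F z) := by
    rw [AlgEquiv.symm_apply_eq]
    exact hθr.symm
  have hy0 : ∀ i, (minpoly F z).eval₂ e (y i) = 0 := by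
    intro i
    have h1 := hroot i
    rw [IsRoot, eval_map] at h1
    exact h1
  refine ⟨fun i => (AdjoinRoot.lift e (y i) (hy0 i)).comp E.symm.toAlgHom.toRingHom, ?_, ?_⟩
  · intro i j hij
    apply hy
    have h1 := congrArg (fun f : L →+* ℝ => f z) hij
    have h2 : ∀ k, ((AdjoinRoot.lift e (y k) (hy0 k)).comp E.symm.toAlgHom.toRingHom) z = y k := by
      intro k
      change (AdjoinRoot.lift e (y k) (hy0 k)) (E.symm z) = y k
      rw [hEr]
      exact AdjoinRoot.lift_root (hy0 k)
    rw [← h2 i, ← h2 j]
    exact h1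
  · intro i
    apply RingHom.ext
    intro r
    change (AdjoinRoot.lift e (y i) (hy0 i)) (E.symm (algebraMap F L r)) = e r
    rw [AlgEquiv.commutes]
    exact AdjoinRoot.lift_of (hy0 i)

end Pool.Agent.CGN
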