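import Pool.Agent.CGN.EDf

/-!
# Part E: places
-/

noncomputable section

set_option linter.unusedSectionVars false

namespace Pool.Agent.CGN

open NumberField IsDedekindDomain Matrix Polynomial
open Pool.Agent.CG2 (Pl Fv Ov GalF Fbar Zbar Over IsInertia IsFrob Nm IsRay InRay expo TotPos Lies)
open Pool.Agent.CG2.GalFinAux (below)
open Pool.Agent.CGQ

variable {F : Type} [Field F] [NumberField F]

/-- **PL1.** Places of large norm outside a finite set.
PROOF. Let `N = ∏ v ∈ T, Nm v` and let `q ≥ B` be a prime number with `N < q` (`Nat.exists_infinite_primes`). There is a maximal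
ideal of `𝓞 F` containing `q` (`q` is not a unit), a place `v`. `Nm v` is a power of `q` (`absNorm` of an
ideal containing `q` divides a power of `q`: `Ideal.absNorm_dvd_norm_of_mem`, `Algebra.norm` of an
integer), not `1`, so `q ≤ Nm v`; and `v ∉ T` as `Nm v ≥ q > N ≥ Nm v'` for `v' ∈ T` (`Nm v' ≥ 1`). -/
theorem exists_place {T : Set (Pl F)} (hT : T.Finite) (B : ℕ) : ∃ v : Pl F, v ∉ T ∧ B ≤ Nm v := by
  obtain ⟨q, hq1, hq2⟩ := Nat.exists_infinite_primes (max B (∑ v ∈ hT.toFinset, Nm v + 1))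
  have hq0 : (q : ℤ) ≠ 0 := by exact_mod_cast hq2.ne_zero
  have hirr : Irreducible (q : ℤ) := (Nat.prime_iff_prime_int.1 hq2).irreducible
  have hmax : (Ideal.span {(q : ℤ)}).IsMaximal :=
    PrincipalIdealRing.isMaximal_of_irreducible hirr
  obtain ⟨Q, hQ1, hQ2⟩ := Ideal.exists_maximal_ideal_liesOver_of_isIntegral (S := 𝓞 F)
    (Ideal.span {(q : ℤ)})
  have hmem : ∀ m : ℤ, ((m : ℤ) : 𝓞 F) ∈ Q ↔ (q : ℤ) ∣ m := by
    intro m
    have h1 := hQ2.over
    rw [← Ideal.mem_span_singleton, h1, Ideal.mem_comap]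
    simp
  have hne : Q ≠ ⊥ := by
    intro h
    have h1 := (hmem (q : ℤ)).2 dvd_rfl
    rw [h, Ideal.mem_bot] at h1
    exact hq0 (by exact_mod_cast h1)
  have h2 : (q : ℤ) ∣ ((Ideal.absNorm Q : ℕ) : ℤ) := by
    rw [← hmem]
    exact_mod_cast Ideal.absNorm_mem Q
  have h3 : q ∣ Ideal.absNorm Q := by exact_mod_cast h2
  have h4 : Ideal.absNorm Q ≠ 0 := by
    rw [Ne, Ideal.absNorm_eq_zero_iff]
    exact hne
  have h5 : q ≤ Ideal.absNorm Q := Nat.le_of_dvd (Nat.pos_of_ne_zero h4) h3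
  refine ⟨⟨Q, hQ1.isPrime, hne⟩, fun hv => ?_, le_trans (le_trans (le_max_left _ _) hq1) h5⟩
  have h6 : Nm (⟨Q, hQ1.isPrime, hne⟩ : Pl F) ≤ ∑ v ∈ hT.toFinset, Nm v :=
    Finset.single_le_sum (f := fun v : Pl F => Nm v) (fun _ _ => Nat.zero_le _)
      (hT.mem_toFinset.2 hv)
  have h7 : Nm (⟨Q, hQ1.isPrime, hne⟩ : Pl F) = Ideal.absNorm Q := rfl
  have h8 := le_trans (le_max_right B _) hq1
  omega

/-- **PL2.** The places above `p` are finitely many.
PROOF. `v.asIdeal ∣ span {p}`, `Ideal.finite_factors`. -/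
theorem finite_above_p {p : ℕ} (hp : p ≠ 0) : {v : Pl F | ((p : ℕ) : 𝓞 F) ∈ v.asIdeal}.Finite := by
  have h2 : Ideal.span {((p : ℕ) : 𝓞 F)} ≠ ⊥ := by
    rw [Ne, Ideal.span_singleton_eq_bot]
    exact_mod_cast hp
  refine (Ideal.finite_factors (I := Ideal.span {((p : ℕ) : 𝓞 F)})
    (by rw [Ideal.zero_eq_bot]; exact h2)).subset ?_
  intro v hv
  apply Ideal.dvd_iff_le.2
  rw [Ideal.span_singleton_le_iff_mem]
  exact hv

/-- **PL3.** The norm of a place which does not divide `p` is prime to `p`.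
PROOF. `Nm v` is the number of elements of the finite field `𝓞 F ⧸ v.asIdeal`
(`CG2.GalFinAux.absNorm_eq_card`), a power of its characteristic `q` (`FiniteField.card`). If `p ∣ Nm v` then
`p = q`, so `p = 0` in the residue field. (Or: an element of additive order `p` by Cauchy.) -/
theorem not_dvd_nm {p : ℕ} (hp : p.Prime) {v : Pl F} (hv : ((p : ℕ) : 𝓞 F) ∉ v.asIdeal) :
    ¬ p ∣ Nm v := by
  intro hd
  have : Fact p.Prime := ⟨hp⟩
  have hc : Nm v = Nat.card (𝓞 F ⧸ v.asIdeal) := CG2.GalFinAux.absNorm_eq_card v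
  rw [hc] at hd
  have hfin : Finite (𝓞 F ⧸ v.asIdeal) := by
    apply Nat.finite_of_card_ne_zero
    rw [← hc]
    exact (lt_trans Nat.zero_lt_one (CG2.GalFinAux.two_le_N v)).ne'
  obtain ⟨x, hx⟩ := exists_prime_addOrderOf_dvd_card' p hd
  have hx0 : x ≠ 0 := by
    rintro rfl
    rw [addOrderOf_zero] at hx
    exact hp.one_lt.ne hx
  have h1 : p • x = 0 := by rw [← hx]; exact addOrderOf_nsmul_eq_zero x
  rw [nsmul_eq_mul] at h1
  have hdom : IsDomain (𝓞 F ⧸ v.asIdeal) := Ideal.Quotient.isDomain v.asIdeal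
  rcases mul_eq_zero.1 h1 with h2 | h2
  · apply hv
    rw [← Ideal.Quotient.eq_zero_iff_mem, map_natCast]
    exact h2
  · exact hx0 h2

end Pool.Agent.CGN
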