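import Pool.Agent.CGN.EAa
import Pool.Agent.CGN.EFa

/-!
# Part E: powers of elements of small groups at the finite places
-/

noncomputable section

set_option linter.unusedSectionVars false

namespace Pool.Agent.CGN

open NumberField IsDedekindDomain Matrix Polynomial
open Pool.Agent.CG2 (Pl Fv Ov GalF Fbar Zbar Over IsInertia IsFrob Nm IsRay InRay expo TotPos Lies)
open Pool.Agent.CG2.GalFinAux (below)
open Pool.Agent.CGQ

variable {F : Type} [Field F] [NumberField F] {A : AD F} {S : Set (Pl F)}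

private theorem SA1_lt_one {x : WithZero (Multiplicative ℤ)} (hx : x < 1) :
    x ≤ WithZero.exp (-1 : ℤ) := by
  by_cases h0 : x = 0
  · rw [h0]
    exact zero_le
  · obtain ⟨m, rfl⟩ : ∃ m : ℤ, x = WithZero.exp m := ⟨WithZero.log x, (WithZero.exp_log h0).symm⟩
    rw [← WithZero.exp_zero, WithZero.exp_lt_exp] at hx
    rw [WithZero.exp_le_exp]
    omega

/-- All the entries have valuation at most `r`. -/
private def SA1_B {v : Pl F} {n : ℕ} (r : WithZero (Multiplicative ℤ))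
    (Z : Matrix (Fin n) (Fin n) (Fv v)) : Prop := ∀ i j, Valued.v (Z i j) ≤ r

private theorem SA1_mul {v : Pl F} {n : ℕ} {r s : WithZero (Multiplicative ℤ)}
    {Z W : Matrix (Fin n) (Fin n) (Fv v)} (hZ : SA1_B r Z) (hW : SA1_B s W) :
    SA1_B (r * s) (Z * W) := by
  intro i j
  rw [Matrix.mul_apply]
  refine Valuation.map_sum_le _ fun k _ => ?_
  rw [map_mul]
  exact mul_le_mul' (hZ i k) (hW k j)

private theorem SA1_add {v : Pl F} {n : ℕ} {r : WithZero (Multiplicative ℤ)}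
    {Z W : Matrix (Fin n) (Fin n) (Fv v)} (hZ : SA1_B r Z) (hW : SA1_B r W) :
    SA1_B r (Z + W) := by
  intro i j
  rw [Matrix.add_apply]
  exact Valuation.map_add_le _ (hZ i j) (hW i j)

private theorem SA1_sum {v : Pl F} {n : ℕ} {r : WithZero (Multiplicative ℤ)} {ι : Type}
    (s : Finset ι) {Z : ι → Matrix (Fin n) (Fin n) (Fv v)} (hZ : ∀ i ∈ s, SA1_B r (Z i)) :
    SA1_B r (∑ i ∈ s, Z i) := by
  intro i j
  rw [Matrix.sum_apply]
  exact Valuation.map_sum_le _ fun k hk => hZ k hk i j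

private theorem SA1_one {v : Pl F} {n : ℕ} : SA1_B 1 (1 : Matrix (Fin n) (Fin n) (Fv v)) := by
  intro i j
  rw [Matrix.one_apply]
  split_ifs
  · rw [map_one]
  · rw [map_zero]
    exact zero_le

private theorem SA1_mono {v : Pl F} {n : ℕ} {r s : WithZero (Multiplicative ℤ)} (h : r ≤ s)
    {Z : Matrix (Fin n) (Fin n) (Fv v)} (hZ : SA1_B r Z) : SA1_B s Z :=
  fun i j => (hZ i j).trans h

private theorem SA1_one_of {v : Pl F} {n : ℕ} {r : WithZero (Multiplicative ℤ)} (hr : r ≤ 1)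
    {X : Matrix (Fin n) (Fin n) (Fv v)} (hX : SA1_B r (X - 1)) : SA1_B 1 X := by
  have h := SA1_add (SA1_mono hr hX) SA1_one
  rwa [sub_add_cancel] at h

private theorem SA1_pow {v : Pl F} {n : ℕ} {r : WithZero (Multiplicative ℤ)} (hr : r ≤ 1)
    {X : Matrix (Fin n) (Fin n) (Fv v)} (hX : SA1_B r (X - 1)) (s : ℕ) :
    SA1_B r (X ^ s - 1) := by
  induction s with
  | zero =>
    intro i j
    rw [pow_zero, sub_self, Matrix.zero_apply, map_zero]
    exact zero_le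
  | succ s ih =>
    have h : X ^ (s + 1) - 1 = X ^ s * (X - 1) + (X ^ s - 1) := by
      rw [pow_succ, mul_sub, mul_one]
      abel
    rw [h]
    refine SA1_add ?_ ih
    have h2 := SA1_mul (SA1_one_of hr ih) hX
    rwa [one_mul] at h2

private theorem SA1_step {v : Pl F} {n : ℕ} {r : WithZero (Multiplicative ℤ)}
    (hr : r ≤ WithZero.exp (-1 : ℤ))
    {X : Matrix (Fin n) (Fin n) (Fv v)} (hX : SA1_B r (X - 1)) {ℓ : ℕ}
    (hℓ : Valued.v ((ℓ : ℕ) : Fv v) < 1) :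
    SA1_B (WithZero.exp (-1 : ℤ) * r) (X ^ ℓ - 1) := by
  have hr1 : r ≤ 1 := hr.trans (by
    rw [← WithZero.exp_zero, WithZero.exp_le_exp]
    omega)
  rw [← geom_sum_mul]
  refine SA1_mul ?_ hX
  have h : ∑ i ∈ Finset.range ℓ, X ^ i =
      ∑ i ∈ Finset.range ℓ, (X ^ i - 1) + (ℓ : Matrix (Fin n) (Fin n) (Fv v)) := by
    rw [Finset.sum_sub_distrib, Finset.sum_const, Finset.card_range, nsmul_one, sub_add_cancel]
  rw [h]
  refine SA1_add (SA1_sum _ fun i _ => SA1_mono hr (SA1_pow hr1 hX i)) ?_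
  intro i j
  rw [Matrix.natCast_apply]
  split_ifs
  · exact SA1_lt_one hℓ
  · rw [Nat.cast_zero, map_zero]
    exact zero_le

/-- **SA1.** Powers of matrices congruent to `1`.
PROOF. Induction on `b`: if `X = 1 + Z`, all the entries of `Z` of valuation `≤ exp (-(b + 1))`, then
`X ^ ℓ - 1 = ∑_{1 ≤ i ≤ ℓ} (ℓ choose i) Z ^ i` has entries of valuation `≤ exp (-(b + 2))`: for `i = 1` because `v ℓ ≤ exp (-1)`, for
`i ≥ 2` because the entries of `Z ^ i` have valuation `≤ exp (-i (b + 1)) ≤ exp (-(b + 2))` (ultrametric inequality for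
the sums, natural numbers have valuation `≤ 1`). (Shorter: `X ^ ℓ - 1 = Z * (1 + X + ... + X ^ (ℓ-1))` and the second factor is
`ℓ` plus a matrix with entries of valuation `≤ exp (-(b + 1)) ≤ exp (-1)`, so it has entries of valuation
`≤ exp (-1)`.) The start: a valuation `< 1` is `≤ exp (-1)`. Then the matrices
`Y` with the entries of `Y - 1` of valuation `≤ exp (-(b + 1))` are closed under products, so the power `s` is in it. -/
theorem pow_close {v : Pl F} {n : ℕ} {X : Matrix (Fin n) (Fin n) (Fv v)}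
    (hX : ∀ i j, Valued.v ((X - 1) i j) < 1) {ℓ : ℕ} (hℓ : Valued.v ((ℓ : ℕ) : Fv v) < 1)
    (b s : ℕ) (i j : Fin n) :
    Valued.v ((X ^ (ℓ ^ b * s) - 1) i j) ≤ WithZero.exp (-((b + 1 : ℕ) : ℤ)) := by
  have h0 : SA1_B (WithZero.exp (-1 : ℤ)) (X - 1) := fun i j => SA1_lt_one (hX i j)
  have h1 : ∀ b : ℕ, SA1_B (WithZero.exp (-((b + 1 : ℕ) : ℤ))) (X ^ ℓ ^ b - 1) := by
    intro b
    induction b with
    | zero =>
      rw [pow_zero, pow_one]
      exact h0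
    | succ b ih =>
      have hr : (WithZero.exp (-((b + 1 : ℕ) : ℤ)) : WithZero (Multiplicative ℤ)) ≤
          WithZero.exp (-1 : ℤ) := by
        rw [WithZero.exp_le_exp]
        push_cast
        omega
      have h2 := SA1_step hr ih hℓ
      rw [← pow_mul, ← pow_succ, ← WithZero.exp_add] at h2
      refine SA1_mono (le_of_eq ?_) h2
      congr 1
      push_cast
      ring
  have hr : (WithZero.exp (-((b + 1 : ℕ) : ℤ)) : WithZero (Multiplicative ℤ)) ≤ 1 := by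
    rw [← WithZero.exp_zero, WithZero.exp_le_exp]
    push_cast
    omega
  have h3 := SA1_pow hr (h1 b) s
  rw [← pow_mul] at h3
  exact h3 i j

/-- **SA2.** The elements of the stabilisers are congruent to `1` in the frame of `y`.
PROOF. `mem_Stab'`: `act γ y = rt y κ`, `κ ∈ K`, so `κ = y.2⁻¹ * diag γ * y.2` and its component at `v` is
`g⁻¹ * loc γ * g` with `g = y.2.1 v`, whose image under `φ v` is `psi φ v g γ`: `hK κ hκ`. -/
theorem stab_small (φ : Spl A S) {v : {v : Pl F // v ∉ S}} {K : Subgroup (sysA A).A}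
    (hK : SmallAt φ v K) (y : (sysA A).Pt) {γ : (DF A)ˣ}
    (hγ : (show (sysA A).G from γ) ∈ Stab K y) (i j : Fin A.n) :
    Valued.v ((psi φ v (show (DV A v.1)ˣ from y.2.1 v.1) γ.1 - 1) i j) < 1 := by
  obtain ⟨κ, hκ, h⟩ := mem_Stab'.1 hγ
  have h3 : diag (show (sysA A).G from γ) * y.2 = y.2 * κ := congrArg Prod.snd h
  have h4 : κ = y.2⁻¹ * diag (show (sysA A).G from γ) * y.2 := by
    rw [mul_assoc, h3, inv_mul_cancel_left]
  have h5 := hK κ hκ i j
  rw [h4] at h5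
  exact h5

/-- **SA3.** The conjugate of `psi`.
PROOF. `φ v (dloc x) = φ v (g * (g⁻¹ * dloc x * g) * g⁻¹)`, `Units.mapEquiv`/`Units.map` of `φ v`. -/
theorem phi_eq (φ : Spl A S) (v : {v : Pl F // v ∉ S}) (g : (DV A v.1)ˣ) :
    ∃ G : (Matrix (Fin A.n) (Fin A.n) (Fv v.1))ˣ, ∀ x : DF A,
      φ v (dloc A v.1 x) =
        G.1 * psi φ v g x * (G⁻¹ : (Matrix (Fin A.n) (Fin A.n) (Fv v.1))ˣ).1 := by
  refine ⟨Units.map (φ v : DV A v.1 →* Matrix (Fin A.n) (Fin A.n) (Fv v.1)) g, fun x => ?_⟩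
  have h1 : (Units.map (φ v : DV A v.1 →* Matrix (Fin A.n) (Fin A.n) (Fv v.1)) g).1 =
      φ v g.1 := rfl
  have h2 : ((Units.map (φ v : DV A v.1 →* Matrix (Fin A.n) (Fin A.n) (Fv v.1)) g)⁻¹ :
      (Matrix (Fin A.n) (Fin A.n) (Fv v.1))ˣ).1 = φ v (g⁻¹ : (DV A v.1)ˣ).1 := rfl
  have h3 : psi φ v g x = φ v ((g⁻¹ : (DV A v.1)ˣ).1 * dloc A v.1 x * g.1) := rfl
  rw [h1, h2, h3, ← map_mul, ← map_mul]
  congr 1
  simp only [mul_assoc]
  rw [Units.mul_inv, mul_one, ← mul_assoc, Units.mul_inv, one_mul]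

private theorem SA4_exp_lt (γ : WithZero (Multiplicative ℤ)) (hγ : γ ≠ 0) :
    ∃ n : ℕ, WithZero.exp (-(n : ℤ)) < γ := by
  obtain ⟨m, rfl⟩ : ∃ m : ℤ, γ = WithZero.exp m := ⟨WithZero.log γ, (WithZero.exp_log hγ).symm⟩
  refine ⟨(1 - m).toNat, WithZero.exp_lt_exp.2 ?_⟩
  have := Int.self_le_toNat (1 - m)
  omega

/-- The neighbourhoods of a point of `F_v`. -/
private theorem SA4_nhds (v : Pl F) (x : Fv v) {V : Set (Fv v)} (hV : V ∈ nhds x) :
    ∃ n : ℕ, ∀ y : Fv v, Valued.v (y - x) ≤ WithZero.exp (-(n : ℤ)) → y ∈ V := by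
  obtain ⟨γ, hγ⟩ := Valued.mem_nhds.1 hV
  have h0 : MonoidWithZeroHom.ValueGroup₀.embedding γ.1 ≠ 0 := by
    rw [map_ne_zero_iff _ (MonoidWithZeroHom.ValueGroup₀.embedding_strictMono.injective)]
    exact γ.ne_zero
  obtain ⟨n, hn⟩ := SA4_exp_lt _ h0
  refine ⟨n, fun y hy => hγ ?_⟩
  change Valued.v.restrict (y - x) < γ.1
  rw [Valuation.restrict_lt_iff_lt_embedding]
  exact lt_of_le_of_lt hy hn

/-- The neighbourhoods of a function of two variables. -/
private theorem SA4_nhdsF {v : Pl F} {n : ℕ} (M : Fin n → Fin n → Fv v)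
    {V : Set (Fin n → Fin n → Fv v)} (hV : V ∈ nhds M) :
    ∃ m : ℕ, ∀ N : Fin n → Fin n → Fv v,
      (∀ i j, Valued.v (N i j - M i j) ≤ WithZero.exp (-(m : ℤ))) → N ∈ V := by
  rw [nhds_pi, Filter.mem_pi'] at hV
  obtain ⟨I, t, ht, hIt⟩ := hV
  have h1 : ∀ i, ∃ m : ℕ, ∀ N : Fin n → Fv v,
      (∀ j, Valued.v (N j - M i j) ≤ WithZero.exp (-(m : ℤ))) → N ∈ t i := by
    intro i
    have h2 := ht i
    rw [nhds_pi, Filter.mem_pi'] at h2
    obtain ⟨J, u, hu, hJu⟩ := h2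
    choose k hk using fun j => SA4_nhds v _ (hu j)
    refine ⟨∑ j, k j, fun N hN => hJu ?_⟩
    intro j _
    apply hk j
    refine (hN j).trans ?_
    rw [WithZero.exp_le_exp]
    have h3 : k j ≤ ∑ j, k j :=
      Finset.single_le_sum (fun _ _ => Nat.zero_le _) (Finset.mem_univ j)
    have h4 : (k j : ℤ) ≤ ((∑ j, k j : ℕ) : ℤ) := by exact_mod_cast h3
    omega
  choose k hk using h1
  refine ⟨∑ i, k i, fun N hN => hIt ?_⟩
  intro i _
  apply hk i
  intro j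
  refine (hN i j).trans ?_
  rw [WithZero.exp_le_exp]
  have h3 : k i ≤ ∑ i, k i :=
    Finset.single_le_sum (fun _ _ => Nat.zero_le _) (Finset.mem_univ i)
  have h4 : (k i : ℤ) ≤ ((∑ i, k i : ℕ) : ℤ) := by exact_mod_cast h3
  omega

/-- The neighbourhoods of a matrix. -/
private theorem SA4_nhdsM {v : Pl F} {n : ℕ} (M : Matrix (Fin n) (Fin n) (Fv v))
    {V : Set (Matrix (Fin n) (Fin n) (Fv v))} (hV : V ∈ nhds M) :
    ∃ m : ℕ, ∀ N : Matrix (Fin n) (Fin n) (Fv v),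
      SA1_B (WithZero.exp (-(m : ℤ))) (N - M) → N ∈ V := by
  obtain ⟨m, hm⟩ := SA4_nhdsF (fun i j => M i j) hV
  exact ⟨m, fun N hN => hm N hN⟩

private theorem SA4_l {v : Pl F} {ℓ : ℕ} (hℓ : ((ℓ : ℕ) : 𝓞 F) ∈ v.asIdeal) :
    Valued.v ((ℓ : ℕ) : Fv v) < 1 := by
  have h1 : ((ℓ : ℕ) : Fv v) = oF v ((ℓ : ℕ) : 𝓞 F) := (map_natCast (oF v) ℓ).symm
  rw [h1, val_oF]
  exact (v.valuation_lt_one_iff_mem _).2 hℓ

private theorem SA4_psi_aeval (φ : Spl A S) (v : {v : Pl F // v ∉ S}) (g : (DV A v.1)ˣ)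
    (c : DF A) (P : F[X]) :
    psi φ v g (aeval c P) = aeval (psi φ v g c) (P.map (algebraMap F (Fv v.1))) := by
  have h : ∀ r : F, psi φ v g (algebraMap F (DF A) r) =
      algebraMap (Fv v.1) (Matrix (Fin A.n) (Fin A.n) (Fv v.1)) (algebraMap F (Fv v.1) r) := by
    intro r
    have h1 : dloc A v.1 (algebraMap F (DF A) r) =
        algebraMap (Fv v.1) (DV A v.1) (algebraMap F (Fv v.1) r) := by
      apply SC.Alg.ext
      intro i
      rw [Algebra.algebraMap_eq_smul_one, Algebra.algebraMap_eq_smul_one, dE_co, SC.Alg.co_smul,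
        SC.Alg.co_smul, map_mul]
      rfl
    have h2 : psi φ v g (algebraMap F (DF A) r) =
        φ v ((g⁻¹ : (DV A v.1)ˣ).1 * dloc A v.1 (algebraMap F (DF A) r) * g.1) := rfl
    rw [h2, h1, ← Algebra.commutes, mul_assoc, Units.inv_mul, mul_one, AlgEquiv.commutes]
  rw [aeval_def, hom_eval₂, aeval_def, eval₂_map]
  congr 1
  exact RingHom.ext h

/-- **SA4.** Stability of open conditions.
PROOF. `ψ = psi φ v g`, `g = y.2.1 v`, `G` from SA3. `ψ` is a ring homomorphism with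
`ψ (algebraMap r) = algebraMap r` (`r ∈ F`, scalar matrices), so `ψ (aeval c P) = aeval (ψ c) (P.map (algebraMap F (Fv v)))` (as in `dE_aeval`). The map
`(M, M') ↦ aeval (M * ψ d * M') P'` is continuous (matrices over a topological field are a topological ring:
`Polynomial.continuous_aeval`-like, or induction over `P`), at `(1, 1)` its conjugate by `G` is in
`T` (`hP`; `T` is stable under conjugation), so there is `m` such that it is in `T` for all `M`, `M'` with the entries of `M - 1`, `M' - 1` of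
valuation `≤ exp (-m)` (the valued topology, product topology of the entries; see the lemmas `ELM_nhds` in `CGQ/ECg.lean`). For `b ≥ m` take `M = ψ c₀ ^ (ℓ ^ b)`,
`M' = ψ d ^ (ℓ ^ b * s)` (SA2, SA1). -/
theorem loc_close (φ : Spl A S) {v : {v : Pl F // v ∉ S}} {K : Subgroup (sysA A).A}
    (hK : SmallAt φ v K) (y : (sysA A).Pt) {c₀ d : (DF A)ˣ}
    (hc : (show (sysA A).G from c₀) ∈ Stab K y) (hd : (show (sysA A).G from d) ∈ Stab K y) {ℓ : ℕ}
    (hℓ : ((ℓ : ℕ) : 𝓞 F) ∈ v.1.asIdeal) {T : Set (Matrix (Fin A.n) (Fin A.n) (Fv v.1))}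
    (hT : IsOpen T) (hconj : ∀ (G : (Matrix (Fin A.n) (Fin A.n) (Fv v.1))ˣ), ∀ M ∈ T,
      G.1 * M * (G⁻¹ : (Matrix (Fin A.n) (Fin A.n) (Fv v.1))ˣ).1 ∈ T) {P : F[X]}
    (hP : φ v (dloc A v.1 (aeval d.1 P)) ∈ T) :
    ∃ m : ℕ, ∀ b ≥ m, ∀ s : ℕ,
      φ v (dloc A v.1 (aeval (c₀.1 ^ ℓ ^ b * d.1 ^ (1 + ℓ ^ b * s)) P)) ∈ T := by
  obtain ⟨G, hG⟩ := phi_eq φ v (show (DV A v.1)ˣ from y.2.1 v.1)
  have hs1 := stab_small φ hK y hc
  have hs2 := stab_small φ hK y hd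
  set ψ := psi φ v (show (DV A v.1)ˣ from y.2.1 v.1) with hψ
  have hl := SA4_l hℓ
  -- membership in `T` may be tested after conjugation
  have hT2 : ∀ x : DF A, φ v (dloc A v.1 x) ∈ T ↔ ψ x ∈ T := by
    intro x
    constructor
    · intro h
      have h1 := hconj G⁻¹ _ h
      rw [hG x, inv_inv] at h1
      have h2 : (G⁻¹ : (Matrix (Fin A.n) (Fin A.n) (Fv v.1))ˣ).1 *
          (G.1 * ψ x * (G⁻¹ : (Matrix (Fin A.n) (Fin A.n) (Fv v.1))ˣ).1) * G.1 = ψ x := by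
        simp only [mul_assoc]
        rw [Units.inv_mul, mul_one, ← mul_assoc, Units.inv_mul, one_mul]
      rwa [h2] at h1
    · intro h
      rw [hG x]
      exact hconj G _ h
  have hcont : Continuous fun p : Matrix (Fin A.n) (Fin A.n) (Fv v.1) ×
      Matrix (Fin A.n) (Fin A.n) (Fv v.1) =>
      aeval (p.1 * ψ d.1 * p.2) (P.map (algebraMap F (Fv v.1))) :=
    (Polynomial.continuous_aeval _).comp
      ((continuous_fst.mul continuous_const).mul continuous_snd)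
  have hmem : (fun p : Matrix (Fin A.n) (Fin A.n) (Fv v.1) ×
      Matrix (Fin A.n) (Fin A.n) (Fv v.1) =>
      aeval (p.1 * ψ d.1 * p.2) (P.map (algebraMap F (Fv v.1)))) ⁻¹' T ∈
      nhds ((1 : Matrix (Fin A.n) (Fin A.n) (Fv v.1)), (1 : Matrix (Fin A.n) (Fin A.n) (Fv v.1))) := by
    refine (hT.preimage hcont).mem_nhds ?_
    change aeval (1 * ψ d.1 * 1) (P.map (algebraMap F (Fv v.1))) ∈ T
    rw [one_mul, mul_one, ← SA4_psi_aeval]
    exact (hT2 _).1 hP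
  obtain ⟨V1, hV1, V2, hV2, h12⟩ := mem_nhds_prod_iff.1 hmem
  obtain ⟨m1, hm1⟩ := SA4_nhdsM _ hV1
  obtain ⟨m2, hm2⟩ := SA4_nhdsM _ hV2
  refine ⟨max m1 m2, fun b hb s => (hT2 _).2 ?_⟩
  have hb1 : m1 ≤ b := (le_max_left _ _).trans hb
  have hb2 : m2 ≤ b := (le_max_right _ _).trans hb
  have h1 : ψ c₀.1 ^ ℓ ^ b ∈ V1 := by
    refine hm1 _ fun i j => ?_
    have h := pow_close hs1 hl b 1 i j
    rw [mul_one] at h
    refine h.trans ?_
    rw [WithZero.exp_le_exp]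
    push_cast
    omega
  have h2 : ψ d.1 ^ (ℓ ^ b * s) ∈ V2 := by
    refine hm2 _ fun i j => ?_
    refine (pow_close hs2 hl b s i j).trans ?_
    rw [WithZero.exp_le_exp]
    push_cast
    omega
  have h3 := h12 (Set.mk_mem_prod h1 h2)
  have h4 : aeval (ψ c₀.1 ^ ℓ ^ b * ψ d.1 * ψ d.1 ^ (ℓ ^ b * s)) (P.map (algebraMap F (Fv v.1))) ∈ T :=
    h3
  rw [SA4_psi_aeval, map_mul, map_pow, map_pow, pow_add, pow_one, ← mul_assoc]
  exact h4

/-- **SA5.** Convergence of the powers.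
PROOF. `ψ γ ^ (ℓ ^ b) → 1` (SA2, SA1) in the matrices and
`dloc x = g * (φ v).symm (ψ x) * g⁻¹`, continuous in `ψ x` (`iso_cont`). -/
theorem stab_tendsto (φ : Spl A S) {v : {v : Pl F // v ∉ S}} {K : Subgroup (sysA A).A}
    (hK : SmallAt φ v K) (y : (sysA A).Pt) {c₀ : (DF A)ˣ}
    (hc : (show (sysA A).G from c₀) ∈ Stab K y) {ℓ : ℕ} (hℓ : ((ℓ : ℕ) : 𝓞 F) ∈ v.1.asIdeal) :
    Filter.Tendsto (fun b : ℕ => dloc A v.1 (c₀.1 ^ ℓ ^ b)) Filter.atTop (nhds 1) := by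
  have hs1 := stab_small φ hK y hc
  have hl := SA4_l hℓ
  have hm : Filter.Tendsto (fun b : ℕ => psi φ v (show (DV A v.1)ˣ from y.2.1 v.1) c₀.1 ^ ℓ ^ b)
      Filter.atTop (nhds 1) := by
    intro V hV
    obtain ⟨m, hm⟩ := SA4_nhdsM _ hV
    rw [Filter.mem_map]
    filter_upwards [Filter.eventually_ge_atTop m] with b hb
    refine hm _ fun i j => ?_
    have h := pow_close hs1 hl b 1 i j
    rw [mul_one] at h
    refine h.trans ?_
    rw [WithZero.exp_le_exp]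
    push_cast
    omega
  have hsym := (iso_cont (algebraMap F (Fv v.1)) (φ v)).2
  have hcont : Continuous fun M : Matrix (Fin A.n) (Fin A.n) (Fv v.1) =>
      (show (DV A v.1)ˣ from y.2.1 v.1).1 * (φ v).symm M *
        ((show (DV A v.1)ˣ from y.2.1 v.1)⁻¹ : (DV A v.1)ˣ).1 :=
    (continuous_const.mul hsym).mul continuous_const
  have h1 := (hcont.tendsto 1).comp hm
  rw [map_one, mul_one, Units.mul_inv] at h1
  refine h1.congr fun b => ?_
  change (show (DV A v.1)ˣ from y.2.1 v.1).1 * (φ v).symm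
    (psi φ v (show (DV A v.1)ˣ from y.2.1 v.1) c₀.1 ^ ℓ ^ b) *
        ((show (DV A v.1)ˣ from y.2.1 v.1)⁻¹ : (DV A v.1)ˣ).1 = dloc A v.1 (c₀.1 ^ ℓ ^ b)
  rw [← map_pow]
  have h2 : ∀ x : DF A, psi φ v (show (DV A v.1)ˣ from y.2.1 v.1) x =
      φ v (((show (DV A v.1)ˣ from y.2.1 v.1)⁻¹ : (DV A v.1)ˣ).1 * dloc A v.1 x *
        (show (DV A v.1)ˣ from y.2.1 v.1).1) := fun _ => rfl
  rw [h2, AlgEquiv.symm_apply_apply]
  simp only [mul_assoc]
  rw [Units.mul_inv, mul_one, ← mul_assoc, Units.mul_inv, one_mul]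

end Pool.Agent.CGN
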