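import Pool.Agent.CGN.EDf
import Pool.Agent.CGQ.EUL
import Pool.Agent.CGQ.EAvd

/-!
# Part E: units of `L`
-/

noncomputable section

set_option linter.unusedSectionVars false

namespace Pool.Agent.CGN

open NumberField IsDedekindDomain Matrix Polynomial
open Pool.Agent.CG2 (Pl Fv Ov GalF Fbar Zbar Over IsInertia IsFrob Nm IsRay InRay expo TotPos Lies)
open Pool.Agent.CG2.GalFinAux (below)
open Pool.Agent.CGQ

variable {F : Type} [Field F] [NumberField F]

private theorem NA1_ne {L : Type} [Field L] [NumberField L] (u : (𝓞 L)ˣ) :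
    ((u : 𝓞 L) : L) ≠ 0 := by
  intro h
  exact u.ne_zero (RingOfIntegers.ext h)

private theorem NA1_mul {L : Type} [Field L] [NumberField L] (a b : (𝓞 L)ˣ) :
    (((a * b : (𝓞 L)ˣ) : 𝓞 L) : L) = ((a : 𝓞 L) : L) * ((b : 𝓞 L) : L) := by
  rw [Units.val_mul]
  exact map_mul (algebraMap (𝓞 L) L) _ _

private theorem NA1_log {L : Type} [Field L] [NumberField L] (w : InfinitePlace L)
    (a b : (𝓞 L)ˣ) : Real.log (w (((a : 𝓞 L) : L) * ((b : 𝓞 L) : L))) =
      Real.log (w ((a : 𝓞 L) : L)) + Real.log (w ((b : 𝓞 L) : L)) := by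
  rw [map_mul, Real.log_mul]
  · exact fun h => NA1_ne a ((map_eq_zero w).1 h)
  · exact fun h => NA1_ne b ((map_eq_zero w).1 h)

/-- **NA1.** A unit with different absolute values at all infinite places.
PROOF. `CGQ.exists_forall_ne_zero` for the group `(𝓞 L)ˣ`, the finite index set of the pairs `(w, w')` of different
infinite places and `l (w, w') u = Real.log (w u) - Real.log (w' u)`; the hypothesis that it is not identically
zero is `CGQ.exists_unit_sum_ne` with `c = Pi.single w 1 - Pi.single w' 1` (`c w * mult w' = mult w' > 0` and `c w' * mult w = - mult w < 0`). -/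
theorem exists_sep_unit (L : Type) [Field L] [NumberField L] :
    ∃ δ : (𝓞 L)ˣ, ∀ w w' : InfinitePlace L, w ≠ w' →
      w ((δ : 𝓞 L) : L) ≠ w' ((δ : 𝓞 L) : L) := by
  classical
  obtain ⟨δ, hδ⟩ := exists_forall_ne_zero (G := (𝓞 L)ˣ)
    (ι := {p : InfinitePlace L × InfinitePlace L // p.1 ≠ p.2})
    (fun p u => Real.log (p.1.1 ((u : 𝓞 L) : L)) - Real.log (p.1.2 ((u : 𝓞 L) : L)))
    (by
      intro p a b
      change Real.log (p.1.1 (((a * b : (𝓞 L)ˣ) : 𝓞 L) : L)) -
        Real.log (p.1.2 (((a * b : (𝓞 L)ˣ) : 𝓞 L) : L)) = _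
      rw [NA1_mul, NA1_log, NA1_log]
      ring)
    (by
      rintro ⟨⟨w, w'⟩, hne⟩
      have hne : w ≠ w' := hne
      obtain ⟨u, hu⟩ := exists_unit_sum_ne (K := L)
        (fun v => if v = w then 1 else if v = w' then -1 else 0) ⟨w, w', by
          simp only [if_true, if_neg hne.symm]
          have h1 : (0 : ℝ) < w.mult := by exact_mod_cast w.mult_pos
          have h2 : (0 : ℝ) < w'.mult := by exact_mod_cast w'.mult_pos
          intro h
          linarith⟩
      refine ⟨u, ?_⟩
      have e2 : ∑ v : InfinitePlace L, (if v = w then (1 : ℝ) else if v = w' then -1 else 0) *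
          Real.log (v ((u : 𝓞 L) : L)) =
          Real.log (w ((u : 𝓞 L) : L)) - Real.log (w' ((u : 𝓞 L) : L)) := by
        have e3 : ∀ v : InfinitePlace L, (if v = w then (1 : ℝ) else if v = w' then -1 else 0) *
            Real.log (v ((u : 𝓞 L) : L)) =
            (if v = w then Real.log (v ((u : 𝓞 L) : L)) else 0) -
            (if v = w' then Real.log (v ((u : 𝓞 L) : L)) else 0) := by
          intro v
          by_cases h1 : v = w
          · have h2 : v ≠ w' := fun h => hne (h1 ▸ h)
            simp [h1, hne]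
          · by_cases h2 : v = w'
            · simp [h2, hne.symm]
            · simp [h1, h2]
        rw [Finset.sum_congr rfl fun v _ => e3 v, Finset.sum_sub_distrib, Finset.sum_ite_eq',
          Finset.sum_ite_eq', if_pos (Finset.mem_univ _), if_pos (Finset.mem_univ _)]
      rw [e2] at hu
      exact hu)
  refine ⟨δ, fun w w' h h' => hδ ⟨(w, w'), h⟩ ?_⟩
  change Real.log (w ((δ : 𝓞 L) : L)) - Real.log (w' ((δ : 𝓞 L) : L)) = 0
  rw [h', sub_self]

/-- **NA2.** Its powers are not in `F`, if `L` has more infinite places than `F`.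
PROOF. The map `w ↦ w.comap (algebraMap F L)` from the places of `L` to those of `F` is not
injective (cardinality), so `w ≠ w'` have the same restriction; if `δ ^ m = algebraMap f` then
`w δ ^ m = w (δ ^ m) = (w.comap _) f = w' δ ^ m`, so `w δ = w' δ` (nonnegative numbers, `0 < m`). -/
theorem pow_not_mem {L : Type} [Field L] [NumberField L] [Algebra F L]
    (hc : Fintype.card (InfinitePlace F) < Fintype.card (InfinitePlace L)) {δ : (𝓞 L)ˣ}
    (hδ : ∀ w w' : InfinitePlace L, w ≠ w' → w ((δ : 𝓞 L) : L) ≠ w' ((δ : 𝓞 L) : L)) {m : ℕ}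
    (hm : 0 < m) : ((δ : 𝓞 L) : L) ^ m ∉ Set.range (algebraMap F L) := by
  rintro ⟨f, hf⟩
  have h1 : ¬ Function.Injective
      (fun w : InfinitePlace L => w.comap (algebraMap F L)) := by
    intro h
    exact absurd (Fintype.card_le_of_injective _ h) (by omega)
  rw [Function.Injective] at h1
  push Not at h1
  obtain ⟨w, w', h2, h3⟩ := h1
  refine hδ w w' h3 ?_
  have h4 : w (((δ : 𝓞 L) : L) ^ m) = w' (((δ : 𝓞 L) : L) ^ m) := by
    rw [← hf]
    change (w.comap (algebraMap F L)) f = (w'.comap (algebraMap F L)) f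
    rw [h2]
  rw [map_pow, map_pow] at h4
  exact (pow_left_inj₀ (apply_nonneg w _) (apply_nonneg w' _) hm.ne').1 h4

open Classical in
private theorem NA3_form {L : Type} [Field L] [NumberField L] [Algebra F L] (u : (𝓞 L)ˣ)
    (hc : Fintype.card (InfinitePlace F) + 2 ≤ Fintype.card (InfinitePlace L) ∨
      (u = 1 ∧ Fintype.card (InfinitePlace F) + 1 ≤ Fintype.card (InfinitePlace L))) :
    ∃ c : InfinitePlace L → ℝ, c ≠ 0 ∧
      (∀ v : InfinitePlace F, ∑ w : InfinitePlace L,
        (if w.comap (algebraMap F L) = v then c w else 0) = 0) ∧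
      ∑ w : InfinitePlace L, c w * Real.log (w ((u : 𝓞 L) : L)) = 0 := by
  classical
  let f₁ : (InfinitePlace L → ℝ) →ₗ[ℝ] (InfinitePlace F → ℝ) :=
    { toFun := fun c v => ∑ w : InfinitePlace L,
        (if w.comap (algebraMap F L) = v then c w else 0)
      map_add' := fun c c' => by
        funext v
        rw [Pi.add_apply, ← Finset.sum_add_distrib]
        refine Finset.sum_congr rfl fun w _ => ?_
        split_ifs
        · rfl
        · rw [add_zero]
      map_smul' := fun r c => by
        funext v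
        rw [Pi.smul_apply, Finset.smul_sum]
        refine Finset.sum_congr rfl fun w _ => ?_
        split_ifs
        · rfl
        · rw [RingHom.id_apply, smul_zero] }
  let f₂ : (InfinitePlace L → ℝ) →ₗ[ℝ] ℝ :=
    { toFun := fun c => ∑ w : InfinitePlace L, c w * Real.log (w ((u : 𝓞 L) : L))
      map_add' := fun c c' => by
        rw [← Finset.sum_add_distrib]
        refine Finset.sum_congr rfl fun w _ => ?_
        rw [Pi.add_apply, add_mul]
      map_smul' := fun r c => by
        rw [RingHom.id_apply, Finset.smul_sum]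
        refine Finset.sum_congr rfl fun w _ => ?_
        rw [Pi.smul_apply, smul_eq_mul, smul_eq_mul, mul_assoc] }
  rcases hc with hc | ⟨hu, hc⟩
  · have h1 : LinearMap.ker (f₁.prod f₂) ≠ ⊥ := by
      apply LinearMap.ker_ne_bot_of_finrank_lt
      rw [Module.finrank_prod, Module.finrank_fintype_fun_eq_card, Module.finrank_self,
        Module.finrank_fintype_fun_eq_card]
      omega
    obtain ⟨c, hc1, hc0⟩ := Submodule.exists_mem_ne_zero_of_ne_bot h1
    rw [LinearMap.mem_ker] at hc1
    have hc3 : f₁ c = 0 := congrArg Prod.fst hc1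
    have hc4 : f₂ c = 0 := congrArg Prod.snd hc1
    exact ⟨c, hc0, fun v => congrFun hc3 v, hc4⟩
  · have h1 : LinearMap.ker f₁ ≠ ⊥ := by
      apply LinearMap.ker_ne_bot_of_finrank_lt
      rw [Module.finrank_fintype_fun_eq_card, Module.finrank_fintype_fun_eq_card]
      omega
    obtain ⟨c, hc1, hc0⟩ := Submodule.exists_mem_ne_zero_of_ne_bot h1
    rw [LinearMap.mem_ker] at hc1
    refine ⟨c, hc0, fun v => congrFun hc1 v, ?_⟩
    refine Finset.sum_eq_zero fun w _ => ?_
    rw [hu]
    have h2 : (((1 : (𝓞 L)ˣ) : 𝓞 L) : L) = 1 := by simp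
    rw [h2, map_one, Real.log_one, mul_zero]

/-- **NA3.** A unit independent of `u` modulo the units of `F`.
PROOF. Linear algebra: there is a nonzero `c : InfinitePlace L → ℝ` with (i) `∑ w over w₀, c w = 0` for every infinite place
`w₀` of `F` (`w.comap (algebraMap F L) = w₀`), (ii) `∑ w, c w * log (w u) = 0`: the kernel of a linear map from `ℝ ^ (places of L)` to
`ℝ ^ (places of F) × ℝ` (or only to `ℝ ^ (places of F)` if `u = 1`, when (ii) is automatic), which is not zero
by the dimensions (`LinearMap.exists_ne_zero_of..`, `LinearMap.ker_ne_bot_of_finrank_lt`). `c` is not proportional to `mult`: there are `w, w'` with `c w * mult w' ≠ c w' * mult w`: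
otherwise `c w = r * mult w` for all `w` with a fixed `r ≠ 0` and the sum in (i) over the places above the restriction of some `w` is
`r` times a positive number. `CGQ.exists_unit_sum_ne` gives `e` with `∑ w, c w * log (w e) ≠ 0`. If
`e ^ a = u ^ b * f` then (`f ≠ 0`) `a * ∑ c w log (w e) = b * ∑ c w log (w u) + ∑ c w log (w f) = 0`, as `w f` depends only on the
restriction of `w` (i). So `a = 0`. -/
theorem exists_indep {L : Type} [Field L] [NumberField L] [Algebra F L] (u : (𝓞 L)ˣ)
    (hc : Fintype.card (InfinitePlace F) + 2 ≤ Fintype.card (InfinitePlace L) ∨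
      (u = 1 ∧ Fintype.card (InfinitePlace F) + 1 ≤ Fintype.card (InfinitePlace L))) :
    ∃ e : (𝓞 L)ˣ, ∀ (a b : ℤ) (f : F),
      ((e : 𝓞 L) : L) ^ a = ((u : 𝓞 L) : L) ^ b * algebraMap F L f → a = 0 := by
  classical
  obtain ⟨c, hc0, hc1, hc2⟩ := NA3_form (F := F) u hc
  have hmp : ∀ w : InfinitePlace L, (0 : ℝ) < w.mult := fun w => by exact_mod_cast w.mult_pos
  have hcc : ∃ w w' : InfinitePlace L, c w * w'.mult ≠ c w' * w.mult := by
    by_contra hcon
    push Not at hcon
    obtain ⟨w₁, hw₁⟩ := Function.ne_iff.1 hc0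
    have hw₁ : c w₁ ≠ 0 := hw₁
    have h1 := hc1 (w₁.comap (algebraMap F L))
    have h2 : ∀ w, c w = c w₁ / w₁.mult * w.mult := by
      intro w
      have := hcon w w₁
      have h3 := (hmp w₁).ne'
      field_simp
      linarith
    have h4 : ∑ w : InfinitePlace L,
        (if w.comap (algebraMap F L) = w₁.comap (algebraMap F L) then c w else 0) =
        c w₁ / w₁.mult * ∑ w : InfinitePlace L,
        (if w.comap (algebraMap F L) = w₁.comap (algebraMap F L) then (w.mult : ℝ) else 0) := by
      rw [Finset.mul_sum]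
      refine Finset.sum_congr rfl fun w _ => ?_
      split_ifs
      · exact h2 w
      · rw [mul_zero]
    rw [h4] at h1
    rcases mul_eq_zero.1 h1 with h5 | h5
    · exact (div_ne_zero hw₁ (hmp w₁).ne') h5
    · have h6 : (0 : ℝ) < ∑ w : InfinitePlace L,
        (if w.comap (algebraMap F L) = w₁.comap (algebraMap F L) then (w.mult : ℝ) else 0) := by
        refine Finset.sum_pos' (fun w _ => ?_) ⟨w₁, Finset.mem_univ _, ?_⟩
        · split_ifs
          · exact (hmp w).le
          · exact le_rfl
        · rw [if_pos rfl]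
          exact hmp w₁
      exact h6.ne' h5
  obtain ⟨e, he⟩ := exists_unit_sum_ne (K := L) c hcc
  refine ⟨e, fun a b f hf => ?_⟩
  have hf0 : f ≠ 0 := by
    rintro rfl
    rw [map_zero, mul_zero] at hf
    exact zpow_ne_zero a (NA1_ne e) hf
  have h7 : ∀ w : InfinitePlace L, (a : ℝ) * Real.log (w ((e : 𝓞 L) : L)) =
      b * Real.log (w ((u : 𝓞 L) : L)) + Real.log (w (algebraMap F L f)) := by
    intro w
    have h8 : Real.log (w (((e : 𝓞 L) : L) ^ a)) =
        Real.log (w (((u : 𝓞 L) : L) ^ b * algebraMap F L f)) := by rw [hf]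
    rw [map_mul, map_zpow₀, map_zpow₀, Real.log_mul, Real.log_zpow, Real.log_zpow] at h8
    · exact h8
    · exact zpow_ne_zero b fun h => NA1_ne u ((map_eq_zero w).1 h)
    · intro h
      exact hf0 ((map_eq_zero (algebraMap F L)).1 ((map_eq_zero w).1 h))
  have h9 : ∑ w : InfinitePlace L, c w * Real.log (w (algebraMap F L f)) = 0 := by
    have h10 : ∀ w : InfinitePlace L, c w * Real.log (w (algebraMap F L f)) =
        ∑ v : InfinitePlace F, (if w.comap (algebraMap F L) = v then c w else 0) *
          Real.log (v f) := by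
      intro w
      rw [Finset.sum_eq_single (w.comap (algebraMap F L))]
      · rw [if_pos rfl]
        rfl
      · intro v _ hv
        rw [if_neg hv.symm, zero_mul]
      · intro h
        exact absurd (Finset.mem_univ _) h
    rw [Finset.sum_congr rfl fun w _ => h10 w, Finset.sum_comm]
    refine Finset.sum_eq_zero fun v _ => ?_
    rw [← Finset.sum_mul, hc1 v, zero_mul]
  have h11 : (a : ℝ) * ∑ w : InfinitePlace L, c w * Real.log (w ((e : 𝓞 L) : L)) = 0 := by
    rw [Finset.mul_sum]
    have h12 : ∀ w : InfinitePlace L, (a : ℝ) * (c w * Real.log (w ((e : 𝓞 L) : L))) =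
        b * (c w * Real.log (w ((u : 𝓞 L) : L))) + c w * Real.log (w (algebraMap F L f)) := by
      intro w
      have := h7 w
      calc (a : ℝ) * (c w * Real.log (w ((e : 𝓞 L) : L)))
          = c w * ((a : ℝ) * Real.log (w ((e : 𝓞 L) : L))) := by ring
        _ = _ := by rw [this]; ring
    rw [Finset.sum_congr rfl fun w _ => h12 w, Finset.sum_add_distrib, ← Finset.mul_sum, hc2, h9]
    simp
  rcases mul_eq_zero.1 h11 with h13 | h13
  · exact_mod_cast h13
  · exact absurd h13 he

end Pool.Agent.CGN
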