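import Pool.Agent.CGN.EDf

/-!
# Part E: counting the infinite places of `L`
-/

noncomputable section

set_option linter.unusedSectionVars false

namespace Pool.Agent.CGN

open NumberField IsDedekindDomain Matrix Polynomial
open Pool.Agent.CG2 (Pl Fv Ov GalF Fbar Zbar Over IsInertia IsFrob Nm IsRay InRay expo TotPos Lies)
open Pool.Agent.CG2.GalFinAux (below)
open Pool.Agent.CGQ

variable {F : Type} [Field F] [NumberField F] {L : Type} [Field L] [NumberField L] [Algebra F L]

/-- The infinite places of `L` above the place `w₀` of `F`. -/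
abbrev Abv (L : Type) [Field L] [NumberField L] [Algebra F L] (w₀ : InfinitePlace F) : Type :=
  {w : InfinitePlace L // w.comap (algebraMap F L) = w₀}

/-- **NB1.** The embeddings of `L` over an embedding of `F`.
PROOF. With `ρ.toAlgebra : Algebra F ℂ` these are the `F`-algebra homomorphisms `L → ℂ`, their number is
`[L : F]` (`AlgHom.card F L ℂ`: separable, `ℂ` algebraically closed). -/
theorem card_ext (ρ : F →+* ℂ) :
    Nat.card {ψ : L →+* ℂ // ψ.comp (algebraMap F L) = ρ} = Module.finrank F L := by
  let _ : Algebra F ℂ := ρ.toAlgebra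
  let e : {ψ : L →+* ℂ // ψ.comp (algebraMap F L) = ρ} ≃ (L →ₐ[F] ℂ) :=
    { toFun := fun ψ => { ψ.1 with commutes' := fun x => RingHom.congr_fun ψ.2 x }
      invFun := fun f => ⟨f.toRingHom, by ext x; exact f.commutes x⟩
      left_inv := fun ψ => by apply Subtype.ext; rfl
      right_inv := fun f => by apply AlgHom.ext; intro x; rfl }
  rw [Nat.card_congr e, Nat.card_eq_fintype_card, AlgHom.card]

/-- **NB2.** Above a complex place there are `[L : F]` places (at least).
PROOF. The map `ψ ↦ InfinitePlace.mk ψ` from the embeddings over `w₀.embedding` (NB1) to the places above `w₀`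
(`(mk ψ).comap _ = mk (ψ.comp _) = mk w₀.embedding = w₀`) is injective: `mk ψ = mk ψ'` implies `ψ' = ψ` or
`ψ' = conjugate ψ` (`InfinitePlace.mk_eq_iff`); in the second case the restriction of `ψ'` is the conjugate of
`w₀.embedding`, so `w₀.embedding` would be real. -/
theorem le_card_complex {w₀ : InfinitePlace F} (hw : w₀.IsComplex) :
    Module.finrank F L ≤ Nat.card (Abv L w₀) := by
  rw [← card_ext (L := L) w₀.embedding]
  have hab : ∀ ψ : L →+* ℂ, ψ.comp (algebraMap F L) = w₀.embedding →
      (InfinitePlace.mk ψ).comap (algebraMap F L) = w₀ := by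
    intro ψ hψ
    rw [InfinitePlace.comap_mk, hψ, InfinitePlace.mk_embedding]
  refine Nat.card_le_card_of_injective
    (fun ψ : {ψ : L →+* ℂ // ψ.comp (algebraMap F L) = w₀.embedding} =>
      (⟨InfinitePlace.mk ψ.1, hab ψ.1 ψ.2⟩ : Abv L w₀)) ?_
  intro ψ ψ' h
  have h1 : InfinitePlace.mk ψ.1 = InfinitePlace.mk ψ'.1 := congrArg Subtype.val h
  rcases InfinitePlace.mk_eq_iff.1 h1 with h2 | h2
  · exact Subtype.ext h2
  · exfalso
    apply InfinitePlace.isComplex_iff.1 hw
    rw [ComplexEmbedding.isReal_iff]
    have h3 := ψ'.2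
    rw [← h2] at h3
    have h4 : (ComplexEmbedding.conjugate ψ.1).comp (algebraMap F L) =
        ComplexEmbedding.conjugate (ψ.1.comp (algebraMap F L)) := rfl
    rw [h4, ψ.2] at h3
    exact h3

/-- **NB3.** Above any place there are at least `[L : F] / 2` places, and at least one.
PROOF. The same map has fibres with at most two elements (`mk ψ = mk ψ'` iff `ψ' = ψ` or conjugate), so `[L : F] ≤ 2 * card`
(`Finset.card_le_mul_card_image`). At least one: `[L : F] ≥ 1` embedding. -/
theorem half_le_card (w₀ : InfinitePlace F) :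
    Module.finrank F L / 2 ≤ Nat.card (Abv L w₀) ∧ 1 ≤ Nat.card (Abv L w₀) := by
  classical
  have hab : ∀ ψ : L →+* ℂ, ψ.comp (algebraMap F L) = w₀.embedding →
      (InfinitePlace.mk ψ).comap (algebraMap F L) = w₀ := by
    intro ψ hψ
    rw [InfinitePlace.comap_mk, hψ, InfinitePlace.mk_embedding]
  have h1 : Module.finrank F L ≤ Nat.card (Abv L w₀ × Bool) := by
    rw [← card_ext (L := L) w₀.embedding]
    refine Nat.card_le_card_of_injective
      (fun ψ : {ψ : L →+* ℂ // ψ.comp (algebraMap F L) = w₀.embedding} =>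
        ((⟨InfinitePlace.mk ψ.1, hab ψ.1 ψ.2⟩ : Abv L w₀),
          decide (ψ.1 = (InfinitePlace.mk ψ.1).embedding))) ?_
    intro ψ ψ' h
    have h1 : InfinitePlace.mk ψ.1 = InfinitePlace.mk ψ'.1 :=
      congrArg (fun z : Abv L w₀ × Bool => z.1.1) h
    have h2 : decide (ψ.1 = (InfinitePlace.mk ψ.1).embedding) =
        decide (ψ'.1 = (InfinitePlace.mk ψ'.1).embedding) :=
      congrArg (fun z : Abv L w₀ × Bool => z.2) h
    have h3 : ∀ φ : L →+* ℂ, φ = (InfinitePlace.mk φ).embedding ∨
        ComplexEmbedding.conjugate φ = (InfinitePlace.mk φ).embedding := by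
      intro φ
      have : InfinitePlace.mk φ = InfinitePlace.mk (InfinitePlace.mk φ).embedding := by
        rw [InfinitePlace.mk_embedding]
      exact InfinitePlace.mk_eq_iff.1 this
    apply Subtype.ext
    rcases h3 ψ.1 with h4 | h4
    · rw [decide_eq_true h4] at h2
      have h5 := of_decide_eq_true h2.symm
      rw [h4, h1, ← h5]
    · by_cases h6 : ψ.1 = (InfinitePlace.mk ψ.1).embedding
      · rw [decide_eq_true h6] at h2
        have h5 := of_decide_eq_true h2.symm
        rw [h6, h1, ← h5]
      · rw [decide_eq_false h6] at h2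
        have h5 := of_decide_eq_false h2.symm
        have h7 := (h3 ψ'.1).resolve_left h5
        have h8 : ComplexEmbedding.conjugate ψ.1 = ComplexEmbedding.conjugate ψ'.1 := by
          rw [h4, h7, h1]
        have h9 := congrArg ComplexEmbedding.conjugate h8
        have hcc : ∀ φ : L →+* ℂ, ComplexEmbedding.conjugate (ComplexEmbedding.conjugate φ) = φ := by
          intro φ
          ext x
          simp
        rwa [hcc, hcc] at h9
  have h2 : Nat.card (Abv L w₀ × Bool) = Nat.card (Abv L w₀) * 2 := by
    rw [Nat.card_prod]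
    simp
  have h3 : 0 < Module.finrank F L := Module.finrank_pos
  rw [h2] at h1
  constructor <;> omega

/-- **NB4.** Above a real place for which all embeddings of `L` are real there are `[L : F]` places.
PROOF. `i ↦ InfinitePlace.mk (Complex.ofRealHom.comp (σ i))` is an injective map from `Fin n` to the places above `w₀`:
two real embeddings with the same place are equal (`mk_eq_iff`; the conjugate of a real embedding is the embedding), and
the restriction is the place of `Complex.ofRealHom.comp e`, which is `w₀`. -/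
theorem le_card_real {w₀ : InfinitePlace F} {n : ℕ} {e : F →+* ℝ}
    (he : InfinitePlace.mk (Complex.ofRealHom.comp e) = w₀) {σ : Fin n → (L →+* ℝ)}
    (hσ : Function.Injective σ) (h : ∀ i, (σ i).comp (algebraMap F L) = e) :
    n ≤ Nat.card (Abv L w₀) := by
  have hab : ∀ i, (InfinitePlace.mk (Complex.ofRealHom.comp (σ i))).comap (algebraMap F L) = w₀ := by
    intro i
    rw [InfinitePlace.comap_mk, RingHom.comp_assoc, h i, he]
  have hn : n = Nat.card (Fin n) := by simp
  rw [hn]
  refine Nat.card_le_card_of_injective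
    (fun i : Fin n => (⟨InfinitePlace.mk (Complex.ofRealHom.comp (σ i)), hab i⟩ : Abv L w₀)) ?_
  intro i j hij
  have h1 : InfinitePlace.mk (Complex.ofRealHom.comp (σ i)) =
      InfinitePlace.mk (Complex.ofRealHom.comp (σ j)) := congrArg Subtype.val hij
  apply hσ
  have h2 : Complex.ofRealHom.comp (σ i) = Complex.ofRealHom.comp (σ j) := by
    rcases InfinitePlace.mk_eq_iff.1 h1 with h2 | h2
    · exact h2
    · rw [← h2]
      ext x
      simp
  ext x
  have h3 := RingHom.congr_fun h2 x
  exact Complex.ofReal_injective h3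

/-- **NB5.** The number of the infinite places of `L`.
PROOF. `card (InfinitePlace L) = ∑ w₀, card (Abv L w₀)` (`Fintype.card_sigma`, `Equiv.sigmaFiberEquiv`). Put `n = A.n`,
`s = A.sp` (the number of the real places `w₀` in `SPl A`), `r₁`, `r₂`. The terms are `≥ n` for `w₀`
complex (NB2) and for `w₀` in `SPl A` (NB4 with `e = w.emb`: `mk (ofReal ∘ w.emb) = w.1`, see the proof of
`SPl.emb_injective`), and `≥ max 1 (n / 2) ≥ 1 + (n / 2 - 1)` for the `r₁ - s` other real places. So the sum is
`≥ n s + n r₂ + (1 + (n / 2 - 1)) (r₁ - s)` and `n ≥ 1` (`n = [L : F]`) gives `n = 1 + (n - 1)`: the sum is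
`≥ s + r₂ + (r₁ - s) + (n - 1) (s + r₂) + (n / 2 - 1) (r₁ - s) = card (InfinitePlace F) + A.rk`
(`s ≤ r₁`; `InfinitePlace.card_add_card..`: `r₁ + r₂ = card (InfinitePlace F)`). -/
theorem card_places {A : AD F} (hL : Module.finrank F L = A.n)
    (hre : ∀ w : SPl A, ∃ σ : Fin A.n → (L →+* ℝ), Function.Injective σ ∧
      ∀ i, (σ i).comp (algebraMap F L) = w.emb) :
    Fintype.card (InfinitePlace F) + A.rk ≤ Fintype.card (InfinitePlace L) := by
  classical
  -- the sum over the places of `F`
  have hsum : Fintype.card (InfinitePlace L) = ∑ w₀ : InfinitePlace F, Nat.card (Abv L w₀) := by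
    rw [← Fintype.card_congr (Equiv.sigmaFiberEquiv
      (fun w : InfinitePlace L => w.comap (algebraMap F L))), Fintype.card_sigma]
    refine Finset.sum_congr rfl fun w₀ _ => ?_
    rw [Nat.card_eq_fintype_card]
  set f : InfinitePlace F → ℕ := fun w₀ =>
    if w₀.IsComplex then A.n - 1 else
      if (∃ h : w₀.IsReal, Nonempty (DE A (InfinitePlace.embedding_of_isReal h) ≃ₐ[ℝ]
        Matrix (Fin A.n) (Fin A.n) ℝ)) then A.n - 1 else A.n / 2 - 1 with hf
  have hn : 1 ≤ A.n := by
    rw [← hL]
    exact Module.finrank_pos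
  have hle : ∀ w₀ : InfinitePlace F, 1 + f w₀ ≤ Nat.card (Abv L w₀) := by
    intro w₀
    simp only [hf]
    split_ifs with h1 h2
    · have := le_card_complex (L := L) h1
      rw [hL] at this
      omega
    · obtain ⟨σ, hσ, hσ'⟩ := hre ⟨w₀, h2⟩
      have he : InfinitePlace.mk (Complex.ofRealHom.comp (SPl.emb (A := A) ⟨w₀, h2⟩)) = w₀ := by
        apply InfinitePlace.ext
        intro x
        rw [InfinitePlace.apply]
        have h3 := InfinitePlace.embedding_of_isReal_apply h2.choose x
        have h4 : (Complex.ofRealHom.comp (SPl.emb (A := A) ⟨w₀, h2⟩)) x = w₀.embedding x := h3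
        rw [h4, InfinitePlace.norm_embedding_eq]
      have := le_card_real (L := L) he hσ hσ'
      omega
    · have := half_le_card (L := L) w₀
      rw [hL] at this
      omega
  have h1 : Fintype.card (InfinitePlace F) + ∑ w₀, f w₀ ≤ Fintype.card (InfinitePlace L) := by
    rw [hsum]
    calc Fintype.card (InfinitePlace F) + ∑ w₀, f w₀ = ∑ w₀ : InfinitePlace F, (1 + f w₀) := by
          rw [Finset.sum_add_distrib]
          simp
      _ ≤ _ := Finset.sum_le_sum fun w₀ _ => hle w₀
  refine le_trans (Nat.add_le_add_left ?_ _) h1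
  -- the value of the sum of `f`
  set P : InfinitePlace F → Prop := fun w₀ => ∃ h : w₀.IsReal, Nonempty (DE A
    (InfinitePlace.embedding_of_isReal h) ≃ₐ[ℝ] Matrix (Fin A.n) (Fin A.n) ℝ) with hP
  have hsp : A.sp = (Finset.univ.filter P).card := by
    rw [AD.sp, ← Fintype.card_subtype, ← Nat.card_eq_fintype_card]
    rfl
  have hPc : ∀ w₀, P w₀ → ¬ w₀.IsComplex := by
    intro w₀ h hc
    obtain ⟨hr, -⟩ := h
    exact InfinitePlace.not_isReal_iff_isComplex.2 hc hr
  have hc : InfinitePlace.nrComplexPlaces F =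
      (Finset.univ.filter (fun w₀ : InfinitePlace F => w₀.IsComplex)).card := by
    rw [InfinitePlace.nrComplexPlaces, ← Fintype.card_subtype]
  have hr : InfinitePlace.nrRealPlaces F =
      (Finset.univ.filter (fun w₀ : InfinitePlace F => w₀.IsReal)).card := by
    rw [InfinitePlace.nrRealPlaces, ← Fintype.card_subtype]
  have hsplit : Finset.univ.filter (fun w₀ : InfinitePlace F => w₀.IsReal) =
      Finset.univ.filter P ∪ Finset.univ.filter (fun w₀ : InfinitePlace F => w₀.IsReal ∧ ¬ P w₀) := by
    ext w₀
    simp only [Finset.mem_filter, Finset.mem_univ, true_and, Finset.mem_union]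
    constructor
    · intro h
      by_cases h2 : P w₀
      · exact Or.inl h2
      · exact Or.inr ⟨h, h2⟩
    · rintro (h | h)
      · exact h.1
      · exact h.1
  have hdisj : Disjoint (Finset.univ.filter P)
      (Finset.univ.filter (fun w₀ : InfinitePlace F => w₀.IsReal ∧ ¬ P w₀)) := by
    rw [Finset.disjoint_filter]
    intro w₀ _ h1 h2
    exact h2.2 h1
  have hcard : InfinitePlace.nrRealPlaces F - A.sp =
      (Finset.univ.filter (fun w₀ : InfinitePlace F => w₀.IsReal ∧ ¬ P w₀)).card := by
    rw [hr, hsplit, Finset.card_union_of_disjoint hdisj, hsp]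
    omega
  have e1 : ∑ w₀, f w₀ = ∑ w₀ : InfinitePlace F, ((if w₀.IsComplex then A.n - 1 else 0) +
      (if P w₀ then A.n - 1 else 0) + (if w₀.IsReal ∧ ¬ P w₀ then A.n / 2 - 1 else 0)) := by
    refine Finset.sum_congr rfl fun w₀ _ => ?_
    simp only [hf]
    by_cases h1 : w₀.IsComplex
    · have h2 : ¬ P w₀ := fun h => hPc w₀ h h1
      have h3 : ¬ w₀.IsReal := InfinitePlace.not_isReal_iff_isComplex.2 h1
      rw [if_pos h1, if_pos h1, if_neg h2, if_neg (fun h => h3 h.1)]
      omega
    · have h3 : w₀.IsReal := by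
        by_contra h
        exact h1 (InfinitePlace.not_isReal_iff_isComplex.1 h)
      by_cases h2 : P w₀
      · rw [if_neg h1, if_neg h1, if_pos h2, if_pos h2, if_neg (fun h => h.2 h2)]
        omega
      · rw [if_neg h1, if_neg h1, if_neg h2, if_neg h2, if_pos ⟨h3, h2⟩]
        omega
  have e2 : ∀ (R : InfinitePlace F → Prop) [DecidablePred R] (c : ℕ),
      ∑ w₀, (if R w₀ then c else 0) = (Finset.univ.filter R).card * c := by
    intro R _ c
    rw [← Finset.sum_filter, Finset.sum_const, smul_eq_mul]
  rw [e1, Finset.sum_add_distrib, Finset.sum_add_distrib, e2, e2, e2, ← hc, ← hsp, ← hcard, AD.rk]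
  apply le_of_eq
  ring

end Pool.Agent.CGN
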