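import Pool.Agent.CGN.EDf

/-!
# Part E: powers of units are in the stabilisers, integrality
-/

noncomputable section

set_option linter.unusedSectionVars false

namespace Pool.Agent.CGN

open NumberField IsDedekindDomain Matrix Polynomial
open Pool.Agent.CG2 (Pl Fv Ov GalF Fbar Zbar Over IsInertia IsFrob Nm IsRay InRay expo TotPos Lies)
open Pool.Agent.CG2.GalFinAux (below)
open Pool.Agent.CGQ

variable {F : Type} [Field F] [NumberField F] {A : AD F} {L : Type} [Field L] [NumberField L]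
  [Algebra F L]

private theorem NC1_exp_lt (γ : WithZero (Multiplicative ℤ)) (hγ : γ ≠ 0) :
    ∃ n : ℕ, WithZero.exp (-(n : ℤ)) < γ := by
  obtain ⟨m, rfl⟩ : ∃ m : ℤ, γ = WithZero.exp m := ⟨WithZero.log γ, (WithZero.exp_log hγ).symm⟩
  refine ⟨(1 - m).toNat, WithZero.exp_lt_exp.2 ?_⟩
  have := Int.self_le_toNat (1 - m)
  omega

/-- The neighbourhoods of a point of `F_v`. -/
private theorem NC1_nhds (v : Pl F) (x : Fv v) {V : Set (Fv v)} (hV : V ∈ nhds x) :
    ∃ n : ℕ, ∀ y : Fv v, Valued.v (y - x) ≤ WithZero.exp (-(n : ℤ)) → y ∈ V := by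
  obtain ⟨γ, hγ⟩ := Valued.mem_nhds.1 hV
  have h0 : MonoidWithZeroHom.ValueGroup₀.embedding γ.1 ≠ 0 := by
    rw [map_ne_zero_iff _ (MonoidWithZeroHom.ValueGroup₀.embedding_strictMono.injective)]
    exact γ.ne_zero
  obtain ⟨n, hn⟩ := NC1_exp_lt _ h0
  refine ⟨n, fun y hy => hγ ?_⟩
  change Valued.v.restrict (y - x) < γ.1
  rw [Valuation.restrict_lt_iff_lt_embedding]
  exact lt_of_le_of_lt hy hn

/-- The coordinates of `x` have valuation at most `r`. -/
private def NC1_B (v : Pl F) (r : WithZero (Multiplicative ℤ)) (x : DV A v) : Prop :=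
  ∀ i, Valued.v (x.co i) ≤ r

private theorem NC1_pi (v : Pl F) {J : Type} [Fintype J] (x : J → Fv v) {V : Set (J → Fv v)}
    (hV : V ∈ nhds x) :
    ∃ n : ℕ, ∀ y : J → Fv v, (∀ i, Valued.v (y i - x i) ≤ WithZero.exp (-(n : ℤ))) → y ∈ V := by
  rw [nhds_pi, Filter.mem_pi'] at hV
  obtain ⟨I, t, ht, hIt⟩ := hV
  choose n hn using fun i => NC1_nhds v _ (ht i)
  refine ⟨∑ i, n i, fun y hy => hIt ?_⟩
  have hle : ∀ i, WithZero.exp (-((∑ j, n j : ℕ) : ℤ)) ≤
      (WithZero.exp (-(n i : ℤ)) : WithZero (Multiplicative ℤ)) := by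
    intro i
    rw [WithZero.exp_le_exp]
    have : n i ≤ ∑ j, n j := Finset.single_le_sum (fun _ _ => Nat.zero_le _) (Finset.mem_univ i)
    have : (n i : ℤ) ≤ ((∑ j, n j : ℕ) : ℤ) := by exact_mod_cast this
    omega
  intro i _
  apply hn i
  exact (hy i).trans (hle i)

/-- The neighbourhoods of a point of `D_v`. -/
private theorem NC1_nhdsD (v : Pl F) (x : DV A v) {V : Set (DV A v)} (hV : V ∈ nhds x) :
    ∃ n : ℕ, ∀ y : DV A v, NC1_B v (WithZero.exp (-(n : ℤ))) (y - x) → y ∈ V :=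
  NC1_pi v (J := Fin A.n × Fin A.n) x hV

/-- The neighbourhoods of `1` in the units. -/
private theorem NC1_nhdsU (v : Pl F) (W : Subgroup (DV A v)ˣ) (hW : IsOpen (W : Set (DV A v)ˣ)) :
    ∃ n : ℕ, ∀ g : (DV A v)ˣ, NC1_B v (WithZero.exp (-(n : ℤ))) (g.1 - 1) →
      NC1_B v (WithZero.exp (-(n : ℤ))) ((g⁻¹ : (DV A v)ˣ).1 - 1) → g ∈ W := by
  have h1 : (W : Set (DV A v)ˣ) ∈ nhds (1 : (DV A v)ˣ) := hW.mem_nhds W.one_mem
  rw [Units.isEmbedding_embedProduct.isInducing.nhds_eq_comap, Filter.mem_comap] at h1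
  obtain ⟨T, hT, hTW⟩ := h1
  rw [map_one] at hT
  obtain ⟨V1, hV1, V2, hV2, h12⟩ := mem_nhds_prod_iff.1 hT
  have hV2' : MulOpposite.op ⁻¹' V2 ∈ nhds (1 : DV A v) :=
    MulOpposite.continuous_op.continuousAt.preimage_mem_nhds hV2
  obtain ⟨n1, h1⟩ := NC1_nhdsD v _ hV1
  obtain ⟨n2, h2⟩ := NC1_nhdsD v _ hV2'
  have hm : ∀ (a b : ℕ) (x : DV A v), b ≤ a → NC1_B v (WithZero.exp (-(a : ℤ))) x →
      NC1_B v (WithZero.exp (-(b : ℤ))) x := by
    intro a b x hab hx
    have hle : (WithZero.exp (-(a : ℤ)) : WithZero (Multiplicative ℤ)) ≤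
        WithZero.exp (-(b : ℤ)) := WithZero.exp_le_exp.2 (by omega)
    exact fun i => (hx i).trans hle
  refine ⟨max n1 n2, fun g hg hg' => hTW (h12 ⟨?_, ?_⟩)⟩
  · exact h1 _ (hm _ _ _ (le_max_left _ _) hg)
  · exact h2 _ (hm _ _ _ (le_max_right _ _) hg')

/-- The elements of `D` whose coordinates have valuation at most `r`. -/
private def NC1_P (A : AD F) (v : Pl F) (r : WithZero (Multiplicative ℤ)) :
    AddSubgroup (DF A) where
  carrier := {x | ∀ i, v.valuation F (x.co i) ≤ r}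
  zero_mem' := by
    intro i
    rw [SC.Alg.co_zero, map_zero]
    exact zero_le
  add_mem' := by
    intro x y hx hy i
    exact (Valuation.map_add _ _ _).trans (max_le (hx i) (hy i))
  neg_mem' := by
    intro x hx i
    rw [SC.Alg.co_neg, Valuation.map_neg]
    exact hx i

private theorem NC1_key (v : Pl F) (z : F) : ∃ n : ℕ, v.valuation F z ≤ WithZero.exp (n : ℤ) := by
  by_cases h0 : v.valuation F z = 0
  · exact ⟨0, by rw [h0]; exact zero_le⟩
  · obtain ⟨m, hm⟩ : ∃ m : ℤ, v.valuation F z = WithZero.exp m :=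
      ⟨WithZero.log (v.valuation F z), (WithZero.exp_log h0).symm⟩
    refine ⟨m.toNat, ?_⟩
    rw [hm, WithZero.exp_le_exp]
    exact Int.self_le_toNat m

/-- A bound for one element. -/
private theorem NC1_one (v : Pl F) (x : DF A) : ∃ n : ℕ, x ∈ NC1_P A v (WithZero.exp (n : ℤ)) := by
  choose n hn using fun i => NC1_key v (x.co i)
  refine ⟨∑ i, n i, fun i => (hn i).trans ?_⟩
  rw [WithZero.exp_le_exp]
  exact_mod_cast Finset.single_le_sum (f := n) (fun _ _ => Nat.zero_le _) (Finset.mem_univ i)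

private theorem NC1_mono (v : Pl F) {a b : ℕ} (hab : a ≤ b) :
    NC1_P A v (WithZero.exp (a : ℤ)) ≤ NC1_P A v (WithZero.exp (b : ℤ)) := by
  have hle : (WithZero.exp (a : ℤ) : WithZero (Multiplicative ℤ)) ≤ WithZero.exp (b : ℤ) := by
    rw [WithZero.exp_le_exp]
    exact_mod_cast hab
  intro x hx i
  exact (hx i).trans hle

/-- A bound for the integers of `L`. -/
private theorem NC1_bdd (v : Pl F) (ι : L →ₐ[F] DF A) :
    ∃ n : ℕ, ∀ z : 𝓞 L, ι (z : L) ∈ NC1_P A v (WithZero.exp (n : ℤ)) := by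
  obtain ⟨S, hS⟩ := (Module.Finite.fg_top (R := ℤ) (M := 𝓞 L))
  choose n hn using fun z : 𝓞 L => NC1_one (A := A) v (ι (z : L))
  refine ⟨S.sup n, fun z => ?_⟩
  let f : 𝓞 L →+ DF A := (ι : L →+* DF A).toAddMonoidHom.comp
    (algebraMap (𝓞 L) L).toAddMonoidHom
  have hz : z ∈ Submodule.span ℤ (S : Set (𝓞 L)) := by
    rw [hS]
    exact Submodule.mem_top
  refine Submodule.span_induction (p := fun z _ => f z ∈ NC1_P A v (WithZero.exp ((S.sup n : ℕ) : ℤ)))
    ?_ ?_ ?_ ?_ hz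
  · intro x hx
    exact NC1_mono v (Finset.le_sup (f := n) hx) (hn x)
  · rw [map_zero]
    exact zero_mem _
  · intro x y _ _ hx hy
    rw [map_add]
    exact add_mem hx hy
  · intro m x _ hx
    rw [map_zsmul]
    exact zsmul_mem hx m

private theorem NC1_p (v : Pl F) : ((Ideal.absNorm v.asIdeal : ℕ) : F) ≠ 0 ∧
    v.valuation F ((Ideal.absNorm v.asIdeal : ℕ) : F) ≤ WithZero.exp (-1 : ℤ) := by
  set p : ℕ := Ideal.absNorm v.asIdeal with hp
  have hp0 : p ≠ 0 := by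
    rw [hp]
    intro h
    exact v.ne_bot (Ideal.absNorm_eq_zero_iff.1 h)
  have h1 : v.valuation F (p : F) < 1 := by
    have h2 : ((p : ℕ) : 𝓞 F) ∈ v.asIdeal := Ideal.absNorm_mem v.asIdeal
    have h3 := (v.valuation_lt_one_iff_mem (K := F) _).2 h2
    simpa using h3
  have hp1 : (p : F) ≠ 0 := by exact_mod_cast hp0
  refine ⟨hp1, ?_⟩
  have h0 : v.valuation F (p : F) ≠ 0 := by
    rw [Valuation.ne_zero_iff]
    exact hp1
  obtain ⟨m, hm⟩ : ∃ m : ℤ, v.valuation F (p : F) = WithZero.exp m :=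
    ⟨WithZero.log (v.valuation F (p : F)), (WithZero.exp_log h0).symm⟩
  rw [hm] at h1 ⊢
  rw [← WithZero.exp_zero, WithZero.exp_lt_exp] at h1
  rw [WithZero.exp_le_exp]
  omega

private theorem NC1_N (v : Pl F) (k : ℕ) :
    ∃ N : ℕ, N ≠ 0 ∧ v.valuation F (N : F) ≤ WithZero.exp (-(k : ℤ)) := by
  obtain ⟨h0, h2⟩ := NC1_p v
  set p : ℕ := Ideal.absNorm v.asIdeal with hp
  refine ⟨p ^ k, pow_ne_zero k (by exact_mod_cast h0), ?_⟩
  push_cast
  rw [map_pow]
  refine (pow_le_pow_left₀ zero_le h2 k).trans (le_of_eq ?_)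
  rw [← WithZero.exp_nsmul]
  congr 1
  simp

/-- **NC1.** The local statement.
PROOF. Port of `CGQ.exists_pow_loc` (file `CGQ/ECg.lean`, proved there for quaternion algebras with
four coordinates; here the coordinates are indexed by `Fin A.n × Fin A.n`, `SC.Alg.co`, and the topology of
`DV A v` is the product topology of the coordinates; `uA` instead of `uD`). -/
theorem exists_pow_loc (ι : L →ₐ[F] DF A) (v : Pl F) (W : Subgroup (DV A v)ˣ)
    (hW : IsOpen (W : Set (DV A v)ˣ)) :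
    ∃ m : ℕ, 0 < m ∧ ∀ ε : (𝓞 L)ˣ, ((sysA A).loc v (uA ι ε) : (DV A v)ˣ) ^ m ∈ W := by
  obtain ⟨n, hn⟩ := NC1_nhdsU v W hW
  obtain ⟨k, hk⟩ := NC1_bdd v ι
  obtain ⟨N, hN0, hN⟩ := NC1_N v (n + k)
  set I : Ideal (𝓞 L) := Ideal.span {(N : 𝓞 L)} with hI
  have hI0 : I ≠ ⊥ := by
    rw [hI, Ne, Ideal.span_singleton_eq_bot]
    exact_mod_cast hN0
  have hfin : Finite (𝓞 L ⧸ I) := Ideal.finiteQuotientOfFreeOfNeBot I hI0
  have hfinU : Finite (𝓞 L ⧸ I)ˣ := inferInstance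
  -- the powers of the units
  have key : ∀ ε : (𝓞 L)ˣ, NC1_B v (WithZero.exp (-(n : ℤ)))
      (dloc A v (ι (((ε ^ Nat.card (𝓞 L ⧸ I)ˣ : (𝓞 L)ˣ) : 𝓞 L) : L)) - 1) := by
    intro ε
    have h1 : (Units.map (Ideal.Quotient.mk I : 𝓞 L →* 𝓞 L ⧸ I) ε) ^ Nat.card (𝓞 L ⧸ I)ˣ = 1 :=
      pow_card_eq_one'
    rw [← map_pow] at h1
    have h2 : Ideal.Quotient.mk I ((ε ^ Nat.card (𝓞 L ⧸ I)ˣ : (𝓞 L)ˣ) : 𝓞 L) =
        Ideal.Quotient.mk I 1 := (congrArg Units.val h1).trans (map_one _).symm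
    rw [Ideal.Quotient.eq, hI, Ideal.mem_span_singleton] at h2
    obtain ⟨z, hz⟩ := h2
    have h3 : (((ε ^ Nat.card (𝓞 L ⧸ I)ˣ : (𝓞 L)ˣ) : 𝓞 L) : L) = 1 + (N : L) * (z : L) := by
      have h4 : ((ε ^ Nat.card (𝓞 L ⧸ I)ˣ : (𝓞 L)ˣ) : 𝓞 L) = 1 + (N : 𝓞 L) * z := by
        rw [← hz]
        ring
      rw [h4]
      simp
    have h5 : dloc A v (ι (((ε ^ Nat.card (𝓞 L ⧸ I)ˣ : (𝓞 L)ˣ) : 𝓞 L) : L)) - 1 =
        dloc A v ((N : F) • ι (z : L)) := by
      rw [h3, map_add, map_one, map_add, map_one, add_sub_cancel_left, map_mul, map_natCast]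
      congr 1
      rw [Algebra.smul_def, map_natCast]
    rw [h5]
    have h6 := hk z
    intro i
    have h8 : Valued.v ((dloc A v ((N : F) • ι (z : L))).co i) =
        v.valuation F ((N : F) * (ι (z : L)).co i) := by
      rw [← val_F]
      rfl
    rw [h8, map_mul]
    refine (mul_le_mul' hN (h6 i)).trans (le_of_eq ?_)
    rw [← WithZero.exp_add]
    congr 1
    push_cast
    ring
  have hpow : ∀ (ε : (𝓞 L)ˣ) (m : ℕ), (((ε ^ m : (𝓞 L)ˣ) : 𝓞 L) : L) = ((ε : 𝓞 L) : L) ^ m := by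
    intro ε m
    rw [Units.val_pow_eq_pow_val]
    exact map_pow (algebraMap (𝓞 L) L) _ _
  have main : ∀ ε : (𝓞 L)ˣ, ∀ g : (DV A v)ˣ, g.1 = dloc A v (ι ((ε : 𝓞 L) : L)) →
      (g⁻¹ : (DV A v)ˣ).1 = dloc A v (ι (((ε⁻¹ : (𝓞 L)ˣ) : 𝓞 L) : L)) →
      g ^ Nat.card (𝓞 L ⧸ I)ˣ ∈ W := by
    intro ε g hg hg'
    apply hn
    · have h1 : (g ^ Nat.card (𝓞 L ⧸ I)ˣ : (DV A v)ˣ).1 =
          dloc A v (ι (((ε ^ Nat.card (𝓞 L ⧸ I)ˣ : (𝓞 L)ˣ) : 𝓞 L) : L)) := by
        rw [Units.val_pow_eq_pow_val, hg, hpow, map_pow, map_pow]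
      rw [h1]
      exact key ε
    · have h1 : ((g ^ Nat.card (𝓞 L ⧸ I)ˣ)⁻¹ : (DV A v)ˣ).1 =
          dloc A v (ι (((ε⁻¹ ^ Nat.card (𝓞 L ⧸ I)ˣ : (𝓞 L)ˣ) : 𝓞 L) : L)) := by
        rw [← inv_pow, Units.val_pow_eq_pow_val, hg', hpow, map_pow, map_pow]
      rw [h1]
      exact key ε⁻¹
  exact ⟨Nat.card (𝓞 L ⧸ I)ˣ, Nat.card_pos, fun ε => main ε _ rfl rfl⟩

/-- **NC2.** At almost all places the units of `L` are in the base subgroups.
PROOF. Port of `CGQ.finite_not_mem_BZ` (file `CGQ/ECg.lean`). -/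
theorem finite_not_mem_BZ (ι : L →ₐ[F] DF A) :
    ∃ T : Set (Pl F), T.Finite ∧ ∀ v, v ∉ T → ∀ ε : (𝓞 L)ˣ, (sysA A).loc v (uA ι ε) ∈ BZ A v := by
  classical
  obtain ⟨s, hs⟩ := (Module.finite_def (R := ℤ) (M := 𝓞 L)).1 inferInstance
  refine ⟨⋃ ω ∈ s, {v : Pl F | ¬ IntA A v (dloc A v (ι (ω : L)))}, ?_, ?_⟩
  · exact Set.Finite.biUnion s.finite_toSet fun ω _ => dloc_fin A _
  · intro v hv ε
    simp only [Set.mem_iUnion, Set.mem_ofPred_eq, not_exists, not_not] at hv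
    have hall : ∀ z : 𝓞 L, IntA A v (dloc A v (ι (z : L))) := by
      intro z
      rw [intA_iff]
      let f : 𝓞 L →+* DV A v := (dloc A v).comp ((ι : L →+* DF A).comp (algebraMap (𝓞 L) L))
      change f z ∈ (dint A v).range
      have hz : z ∈ Submodule.span ℤ (s : Set (𝓞 L)) := by rw [hs]; trivial
      induction hz using Submodule.span_induction with
      | mem x hx => exact (intA_iff A v _).1 (hv x hx)
      | zero => rw [map_zero]; exact (dint A v).range.zero_mem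
      | add x y _ _ hx hy => rw [map_add]; exact (dint A v).range.add_mem hx hy
      | smul n x _ hx => rw [map_zsmul]; exact (dint A v).range.zsmul_mem hx n
    apply (mem_BZ_iff A v _).2
    refine ⟨hall (ε : 𝓞 L), ?_⟩
    exact hall ((ε⁻¹ : (𝓞 L)ˣ) : 𝓞 L)

/-- **NC3.** A power of every unit of `L` is in `Stab K y`.
PROOF. Port of `CGQ.exists_pow_mem_stab` (file `CGQ/ECg.lean`). -/
theorem exists_pow_mem_stab {K : Subgroup (sysA A).A} (hK : OC K) (y : (sysA A).Pt)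
    (ι : L →ₐ[F] DF A) :
    ∃ m : ℕ, 0 < m ∧ ∀ ε : (𝓞 L)ˣ, uA ι ε ^ m ∈ Stab K y := by
  classical
  obtain ⟨U, hUo, hUf, hUK⟩ := hK.op
  obtain ⟨T₀, hT₀, hT₀'⟩ := finite_not_mem_BZ (F := F) (A := A) ι
  have hg : {v : Pl F | y.2.1 v ∉ (sysA A).B v}.Finite := y.2.2
  have hfin : ({v : Pl F | ¬ (sysA A).B v ≤ U v} ∪ {v : Pl F | y.2.1 v ∉ (sysA A).B v} ∪
    T₀).Finite := (hUf.union hg).union hT₀
  set T : Finset (Pl F) := hfin.toFinset with hT
  have hloc : ∀ v : Pl F, ∃ m : ℕ, 0 < m ∧ ∀ ε : (𝓞 L)ˣ,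
      (y.2.1 v)⁻¹ * ((sysA A).loc v (uA ι ε)) ^ m * y.2.1 v ∈ U v := by
    intro v
    let c : (sysA A).L v →* (sysA A).L v := (MulAut.conj (y.2.1 v)⁻¹).toMonoidHom
    have hc : ∀ x, c x = (y.2.1 v)⁻¹ * x * y.2.1 v := by
      intro x
      simp [c]
    have hcont : Continuous c := by
      have : (c : (sysA A).L v → (sysA A).L v) = fun x => (y.2.1 v)⁻¹ * x * y.2.1 v := funext hc
      rw [this]
      exact (continuous_const.mul continuous_id).mul continuous_const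
    obtain ⟨m, hm, h⟩ := exists_pow_loc ι v ((U v).comap c) ((hUo v).preimage hcont)
    refine ⟨m, hm, fun ε => ?_⟩
    rw [← hc]
    exact h ε
  choose m hm hmU using hloc
  refine ⟨2 * ∏ v ∈ T, m v, Nat.mul_pos two_pos (Finset.prod_pos fun v _ => hm v), fun ε => ?_⟩
  set M := 2 * ∏ v ∈ T, m v with hM
  rw [mem_Stab']
  refine ⟨y.2⁻¹ * diag (uA ι ε ^ M) * y.2, ?_, ?_⟩
  · apply hUK
    intro v
    have e1 : (y.2⁻¹ * diag (uA ι ε ^ M) * y.2).1 v =
        (y.2.1 v)⁻¹ * ((sysA A).loc v (uA ι ε)) ^ M * y.2.1 v := by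
      rw [← map_pow]
      rfl
    rw [e1]
    by_cases hv : v ∈ T
    · obtain ⟨k, hk⟩ : m v ∣ M := (Finset.dvd_prod_of_mem m hv).trans (Dvd.intro_left 2 rfl)
      have h1 := (U v).pow_mem (hmU v ε) k
      have h2 : ((y.2.1 v)⁻¹ * ((sysA A).loc v (uA ι ε)) ^ m v * y.2.1 v) ^ k =
          (y.2.1 v)⁻¹ * ((sysA A).loc v (uA ι ε)) ^ M * y.2.1 v := by
        have h3 := conj_pow (i := k) (a := (y.2.1 v)⁻¹) (b := ((sysA A).loc v (uA ι ε)) ^ m v)
        rw [inv_inv] at h3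
        rw [h3, ← pow_mul, ← hk]
      rw [← h2]
      exact h1
    · rw [hT, Set.Finite.mem_toFinset] at hv
      simp only [Set.mem_union, Set.mem_ofPred_eq, not_or, not_not] at hv
      obtain ⟨⟨hv1, hv2⟩, hv3⟩ := hv
      apply hv1
      exact ((sysA A).B v).mul_mem (((sysA A).B v).mul_mem (((sysA A).B v).inv_mem hv2)
        (((sysA A).B v).pow_mem (hT₀' v hv3 ε) M)) hv2
  · refine Prod.ext ?_ ?_
    · change (sysA A).sgn (uA ι ε ^ M) * y.1 = y.1
      have h1 : (sysA A).sgn (uA ι ε ^ M) = 1 := by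
        rw [hM, pow_mul, map_pow, map_pow]
        have h2 : ((sysA A).sgn (uA ι ε)) ^ 2 = 1 := by
          funext w
          exact Int.units_sq _
        rw [h2, one_pow]
      rw [h1, one_mul]
    · change diag (uA ι ε ^ M) * y.2 = y.2 * (y.2⁻¹ * diag (uA ι ε ^ M) * y.2)
      rw [← mul_assoc, ← mul_assoc, mul_inv_cancel, one_mul]

private theorem NC4_bdd {v : Pl F} {C : Set (DV A v)ˣ} (hC : IsCompact C) (f : (DV A v)ˣ → Fv v)
    (hf : Continuous f) : ∃ n : ℕ, ∀ h ∈ C, Valued.v (f h) ≤ WithZero.exp (n : ℤ) := by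
  have hcov : C ⊆ ⋃ n : ℕ, {h | Valued.v (f h) < WithZero.exp (n : ℤ)} := by
    intro h _
    rw [Set.mem_iUnion]
    by_cases h0 : Valued.v (f h) = 0
    · refine ⟨0, ?_⟩
      rw [Set.mem_ofPred_eq, h0]
      exact WithZero.exp_pos
    · obtain ⟨m, hm⟩ : ∃ m : ℤ, Valued.v (f h) = WithZero.exp m :=
        ⟨WithZero.log (Valued.v (f h)), (WithZero.exp_log h0).symm⟩
      refine ⟨(m + 1).toNat, ?_⟩
      rw [Set.mem_ofPred_eq, hm, WithZero.exp_lt_exp]
      have := Int.self_le_toNat (m + 1)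
      omega
  have hdir : Directed (· ⊆ ·) (fun n : ℕ => {h | Valued.v (f h) < WithZero.exp (n : ℤ)}) := by
    refine Monotone.directed_le fun n m hnm => ?_
    intro h hh
    refine lt_of_lt_of_le hh (WithZero.exp_le_exp.2 ?_)
    exact_mod_cast hnm
  obtain ⟨n, hn⟩ := hC.elim_directed_cover _
    (fun n => (CG2.isOpen_val_lt v _ WithZero.exp_ne_zero).preimage hf) hcov hdir
  exact ⟨n, fun h hh => (hn hh).le⟩

/-- **NC4.** Bounds for the coordinates of all powers of an element of the stabiliser.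
PROOF. (Compare `CGQ.exists_bound` in `CGQ/EInt.lean`.) Let `g = y.2`. For `γ ∈ Stab K y` and all `k`, `γ ^ k ∈ Stab K y`, so
`g⁻¹ * diag (γ ^ k) * g ∈ K` (`mem_Stab'`), and its `v` component is in the compact set `C v` of `hK.cp`
(`OC`: see `CGQ/SysOC.lean`), so `loc v (γ ^ k)` is in the compact set `g v * C v * (g v)⁻¹` and its coordinates (continuous functions) have bounded
valuations. For almost all `v` the set `C v` is in `B v` and `g v ∈ B v`, so `loc v (γ ^ k) ∈ BZ A v` has integral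
coordinates. -/
theorem exists_bound {K : Subgroup (sysA A).A} (hK : OC K) (y : (sysA A).Pt) (γ : (DF A)ˣ)
    (hγ : (show (sysA A).G from γ) ∈ Stab K y) :
    (∀ v : Pl F, ∃ m : ℕ, ∀ (k : ℕ) (i : Fin A.n × Fin A.n),
      v.valuation F ((γ.1 ^ k).co i) ≤ WithZero.exp (m : ℤ)) ∧
    {v : Pl F | ¬ ∀ (k : ℕ) (i : Fin A.n × Fin A.n),
      v.valuation F ((γ.1 ^ k).co i) ≤ 1}.Finite := by
  obtain ⟨C, hC, hCf, hCK⟩ := hK.cp
  obtain ⟨g, hgy⟩ : ∃ g : ∀ v : Pl F, (DV A v)ˣ, ∀ v, g v = y.2.1 v :=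
    ⟨fun v => y.2.1 v, fun v => rfl⟩
  -- the local components of the elements of the stabiliser
  have key : ∀ (δ : (DF A)ˣ), (show (sysA A).G from δ) ∈ Stab K y → ∀ v : Pl F,
      ∃ κ : (DV A v)ˣ, κ ∈ C v ∧ (Units.map (dloc A v : DF A →* DV A v) δ : (DV A v)ˣ) =
        g v * κ * (g v)⁻¹ := by
    intro δ hδ v
    obtain ⟨κ, hκ, h⟩ := mem_Stab'.1 hδ
    have h3 : diag (show (sysA A).G from δ) * y.2 = y.2 * κ := congrArg Prod.snd h
    have h4 : diag (show (sysA A).G from δ) = y.2 * κ * y.2⁻¹ := by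
      rw [← h3, mul_inv_cancel_right]
    refine ⟨κ.1 v, hCK κ hκ v, ?_⟩
    have h5 := congrArg (fun z : (sysA A).A => z.1 v) h4
    rw [hgy]
    exact h5
  have hval : ∀ (v : Pl F) (x : DF A) (i : Fin A.n × Fin A.n),
      Valued.v ((dloc A v x).co i) = v.valuation F (x.co i) := fun v x i => by
    rw [← val_F]
    rfl
  have hpow : ∀ k : ℕ, (show (sysA A).G from (γ ^ k : (DF A)ˣ)) ∈ Stab K y := fun k =>
    pow_mem hγ k
  constructor
  · intro v
    have hcont : ∀ i : Fin A.n × Fin A.n, Continuous (fun h : (DV A v)ˣ =>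
        SC.Alg.co ((g v * h * (g v)⁻¹ : (DV A v)ˣ)).1 i) := by
      intro i
      exact (continuous_co i).comp (Units.continuous_val.comp
        ((continuous_const.mul continuous_id).mul continuous_const))
    choose n hn using fun i => NC4_bdd (hC v) _ (hcont i)
    refine ⟨∑ i, n i, fun k i => ?_⟩
    obtain ⟨κ, hκ, h⟩ := key (γ ^ k) (hpow k) v
    have h1 := hn i κ hκ
    have h2 : SC.Alg.co ((g v * κ * (g v)⁻¹ : (DV A v)ˣ)).1 i =
        (dloc A v (γ.1 ^ k)).co i := by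
      have h3 : (g v * κ * (g v)⁻¹ : (DV A v)ˣ).1 =
          dloc A v (γ.1 ^ k) := by
        rw [← Units.val_pow_eq_pow_val]
        exact (congrArg Units.val h).symm
      rw [h3]
    rw [h2, hval] at h1
    refine h1.trans ?_
    rw [WithZero.exp_le_exp]
    exact_mod_cast Finset.single_le_sum (f := n) (fun _ _ => Nat.zero_le _) (Finset.mem_univ i)
  · have hg : {v : Pl F | y.2.1 v ∉ (sysA A).B v}.Finite := y.2.2
    refine (hCf.union hg).subset ?_
    intro v hv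
    by_contra hc
    simp only [Set.mem_union, Set.mem_ofPred_eq, not_or, not_not] at hc
    obtain ⟨hc1, hc2⟩ := hc
    apply hv
    intro k i
    obtain ⟨κ, hκ, h⟩ := key (γ ^ k) (hpow k) v
    have h1 : (Units.map (dloc A v : DF A →* DV A v) (γ ^ k) : (DV A v)ˣ) ∈ BZ A v := by
      rw [h]
      have hc2' : g v ∈ BZ A v := by rw [hgy]; exact hc2
      exact (BZ A v).mul_mem ((BZ A v).mul_mem hc2' (hc1 hκ)) ((BZ A v).inv_mem hc2')
    have h2 := ((mem_BZ_iff A v _).1 h1).1 i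
    have h3 : (Units.map (dloc A v : DF A →* DV A v) (γ ^ k) : (DV A v)ˣ).1 =
        dloc A v (γ.1 ^ k) := by
      rw [← Units.val_pow_eq_pow_val]
      rfl
    rw [h3, hval] at h2
    exact h2

/-- **NC5.** The elements of the stabilisers are integral.
PROOF. By NC4 there is a natural number `N ≥ 1` such that all coordinates of all `N γ ^ k` are in `𝓞 F`: `N = ∏ v ∈ T, (Nm v) ^ m_v`, `T` the
finite exceptional set (`Nm v ∈ v.asIdeal` has `v`-valuation `≤ exp (-1)`, the other valuations of the natural number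
`N` are `≤ 1`), and `HeightOneSpectrum.mem_integers_of_valuation_le_one`. So the `𝓞 F`-submodule of `DF A` spanned by the powers
of `γ` is contained in the finitely generated submodule of the elements with coordinates in
`(1 / N) 𝓞 F`, so it is finitely generated (`𝓞 F` is noetherian): `γ` is integral over `𝓞 F`
(`isIntegral_of_mem_of_fg`-like for noncommutative rings: `IsIntegral.of_mem_of_fg` needs a subalgebra
`Algebra.adjoin (𝓞 F) {γ}`, which is commutative; or `IsIntegral` from the finite module by Cayley-Hamilton: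
`LinearMap`/`Module.End`, or directly: the ascending chain of the spans of `1, ..., γ ^ k` stops so
`γ ^ (k+1)` is a combination of lower powers), so integral over `ℤ`
(`isIntegral_trans` needs commutative rings: apply it to the element `θ` of a subfield, or take the statement over `𝓞 F`: here only
integrality over `𝓞 F` is claimed). -/
theorem stab_integral {K : Subgroup (sysA A).A} (hK : OC K) (y : (sysA A).Pt) (γ : (DF A)ˣ)
    (hγ : (show (sysA A).G from γ) ∈ Stab K y) :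
    ∃ f : (𝓞 F)[X], f.Monic ∧ aeval γ.1 (f.map (algebraMap (𝓞 F) F)) = 0 := by
  classical
  obtain ⟨hb, hfin⟩ := exists_bound hK y γ hγ
  choose m hm using hb
  set T : Finset (Pl F) := hfin.toFinset with hT
  set N : ℕ := ∏ v ∈ T, (Ideal.absNorm v.asIdeal) ^ m v with hN
  have hN0 : (N : F) ≠ 0 := by
    rw [hN, Nat.cast_prod]
    refine Finset.prod_ne_zero_iff.2 fun v _ => ?_
    rw [Nat.cast_pow]
    exact pow_ne_zero _ (NC1_p v).1
  have hle1 : ∀ (v : Pl F) (a : ℕ), v.valuation F (a : F) ≤ 1 := by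
    intro v a
    have := v.valuation_le_one (K := F) (a : 𝓞 F)
    simpa using this
  have hint : ∀ (k : ℕ) (i : Fin A.n × Fin A.n), ∃ z : 𝓞 F,
      algebraMap (𝓞 F) F z = (N : F) * (γ.1 ^ k).co i := by
    intro k i
    refine HeightOneSpectrum.mem_integers_of_valuation_le_one F _ fun v => ?_
    rw [map_mul]
    by_cases hv : v ∈ T
    · have h1 : v.valuation F (N : F) ≤ WithZero.exp (-(m v : ℤ)) := by
        rw [hN, ← Finset.mul_prod_erase T _ hv, Nat.cast_mul, Nat.cast_pow, map_mul, map_pow]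
        refine (mul_le_mul' (pow_le_pow_left₀ zero_le (NC1_p v).2 (m v)) (hle1 v _)).trans
          (le_of_eq ?_)
        rw [mul_one, ← WithZero.exp_nsmul]
        congr 1
        simp
      refine (mul_le_mul' h1 (hm v k i)).trans (le_of_eq ?_)
      rw [← WithZero.exp_add, neg_add_cancel, WithZero.exp_zero]
    · rw [hT, Set.Finite.mem_toFinset] at hv
      simp only [Set.mem_ofPred_eq, not_not] at hv
      exact (mul_le_mul' (hle1 v N) (hv k i)).trans_eq (one_mul 1)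
  choose c hc using hint
  -- the ascending chain
  let S : ℕ →o Submodule (𝓞 F) (Fin A.n × Fin A.n → 𝓞 F) :=
    { toFun := fun k => Submodule.span (𝓞 F) (Set.range fun j : Fin k => c j)
      monotone' := by
        intro k l hkl
        refine Submodule.span_mono ?_
        rintro _ ⟨j, rfl⟩
        exact ⟨⟨j.1, lt_of_lt_of_le j.2 hkl⟩, rfl⟩ }
  obtain ⟨k, hk⟩ := (monotone_stabilizes_iff_noetherian (R := 𝓞 F)
    (M := Fin A.n × Fin A.n → 𝓞 F)).2 inferInstance S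
  have hmem : c k ∈ Submodule.span (𝓞 F) (Set.range fun j : Fin k => c j) := by
    have h1 := hk (k + 1) (Nat.le_succ k)
    have h2 : c k ∈ S (k + 1) := Submodule.subset_span ⟨⟨k, Nat.lt_succ_self k⟩, rfl⟩
    rw [← h1] at h2
    exact h2
  obtain ⟨a, ha⟩ := (Submodule.mem_span_range_iff_exists_fun (𝓞 F)).1 hmem
  refine ⟨X ^ k - ∑ j : Fin k, C (a j) * X ^ (j : ℕ), ?_, ?_⟩
  · exact monic_X_pow_sub (degree_sum_fin_lt a)
  · rw [Polynomial.map_sub, Polynomial.map_pow, map_X, map_sub, map_pow, aeval_X,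
      Polynomial.map_sum, map_sum]
    apply SC.Alg.ext
    intro i
    have h1 : ∀ j : Fin k, (aeval γ.1) (Polynomial.map (algebraMap (𝓞 F) F) (C (a j) * X ^ (j : ℕ))) =
        (algebraMap (𝓞 F) F (a j)) • γ.1 ^ (j : ℕ) := by
      intro j
      rw [Polynomial.map_mul, Polynomial.map_pow, map_C, map_X, map_mul, map_pow, aeval_X, aeval_C,
        Algebra.smul_def]
    simp only [h1]
    rw [SC.Alg.co_sub, SC.Alg.co_zero]
    have h2 : (∑ j : Fin k, (algebraMap (𝓞 F) F (a j)) • γ.1 ^ (j : ℕ) : DF A).co i =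
        ∑ j : Fin k, algebraMap (𝓞 F) F (a j) * (γ.1 ^ (j : ℕ)).co i := by
      let co' : DF A →+ F :=
        { toFun := fun x => x.co i
          map_zero' := rfl
          map_add' := fun _ _ => rfl }
      exact map_sum co' (fun j : Fin k => (algebraMap (𝓞 F) F (a j)) • γ.1 ^ (j : ℕ)) Finset.univ
    rw [h2]
    apply mul_left_cancel₀ hN0
    rw [mul_zero, mul_sub, ← hc, Finset.mul_sum]
    have h3 : ∀ j : Fin k, (N : F) * (algebraMap (𝓞 F) F (a j) * (γ.1 ^ (j : ℕ)).co i) =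
        algebraMap (𝓞 F) F (a j * c j i) := by
      intro j
      rw [map_mul, hc]
      ring
    simp only [h3]
    rw [← map_sum, ← map_sub]
    have h4 := congrFun ha i
    rw [Finset.sum_apply] at h4
    have h5 : ∑ j : Fin k, a j * c j i = c k i := h4
    rw [h5, sub_self, map_zero]

/-- **NC6.** The elements of the stabilisers which are in `L` are units of `𝓞 L`.
PROOF. NC5 for `γ` and `γ⁻¹`: `θ` and `θ⁻¹` (`ι` is injective, `ι θ⁻¹ = γ⁻¹`) are integral over `𝓞 F`, so over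
`ℤ` (`isIntegral_trans`): they are in `𝓞 L` and their product is one. -/
theorem exists_unit_of_stab {K : Subgroup (sysA A).A} (hK : OC K) (y : (sysA A).Pt)
    (γ : (DF A)ˣ) (hγ : (show (sysA A).G from γ) ∈ Stab K y) (ι : L →ₐ[F] DF A) {θ : L}
    (hθ : ι θ = γ.1) (hn : 1 ≤ A.n) : ∃ u : (𝓞 L)ˣ, ((u : 𝓞 L) : L) = θ ∧ uA ι u = γ := by
  have hnt : Nontrivial (DF A) := by
    have hne : Nonempty (Fin A.n × Fin A.n) := ⟨(⟨0, hn⟩, ⟨0, hn⟩)⟩
    exact (Function.nontrivial : Nontrivial (Fin A.n × Fin A.n → F))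
  have hinj : Function.Injective ι := ι.toRingHom.injective
  have hint : ∀ (δ : (DF A)ˣ) (η : L), (show (sysA A).G from δ) ∈ Stab K y → ι η = δ.1 →
      IsIntegral ℤ η := by
    intro δ η hδ hη
    obtain ⟨f, hf, h0⟩ := stab_integral hK y δ hδ
    have h1 : aeval η (f.map (algebraMap (𝓞 F) F)) = 0 := by
      apply hinj
      rw [← aeval_algHom_apply, hη, h0, map_zero]
    have h2 : IsIntegral (𝓞 F) η := by
      refine ⟨f, hf, ?_⟩
      rw [aeval_map_algebraMap] at h1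
      exact h1
    exact isIntegral_trans (R := ℤ) (A := 𝓞 F) η h2
  have hθ0 : θ ≠ 0 := by
    rintro rfl
    rw [map_zero] at hθ
    exact γ.ne_zero hθ.symm
  have hθ' : ι θ⁻¹ = (γ⁻¹ : (DF A)ˣ).1 := by
    have h1 : ι θ⁻¹ * γ.1 = 1 := by
      rw [← hθ, ← map_mul, inv_mul_cancel₀ hθ0, map_one]
    exact (Units.inv_eq_of_mul_eq_one_left h1).symm
  let a : 𝓞 L := ⟨θ, hint γ θ hγ hθ⟩
  let b : 𝓞 L := ⟨θ⁻¹, hint γ⁻¹ θ⁻¹ (inv_mem hγ) hθ'⟩
  have hab : a * b = 1 := by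
    apply RingOfIntegers.ext
    exact mul_inv_cancel₀ hθ0
  have hba : b * a = 1 := by rw [mul_comm, hab]
  refine ⟨⟨a, b, hab, hba⟩, rfl, ?_⟩
  apply Units.ext
  exact hθ

end Pool.Agent.CGN
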