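import Pool.Agent.CGN.EGd
import Pool.Agent.CGN.EFa
import Pool.Agent.CGN.EFb
import Pool.Agent.CGN.EAb
import Pool.Agent.CGN.EPl
import Pool.Agent.CGN.EUa
import Pool.Agent.CGN.EUb
import Pool.Agent.CGN.EUc
import Pool.Agent.CGN.ERb
import Pool.Agent.CGN.ESa

/-!
# Part E: the generic unit
-/

noncomputable section

set_option linter.unusedSectionVars false

namespace Pool.Agent.CGN

open NumberField IsDedekindDomain Matrix Polynomial
open Pool.Agent.CG2 (Pl Fv Ov GalF Fbar Zbar Over IsInertia IsFrob Nm IsRay InRay expo TotPos Lies)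
open Pool.Agent.CG2.GalFinAux (below)
open Pool.Agent.CGQ

variable {F : Type} [Field F] [NumberField F] {A : AD F} {S : Set (Pl F)}

private theorem MA_nontrivial (A : AD F) (h : A.n ≠ 0) : Nontrivial (DF A) := by
  have h1 : Nonempty (Fin A.n × Fin A.n) := ⟨(⟨0, Nat.pos_of_ne_zero h⟩, ⟨0, Nat.pos_of_ne_zero h⟩)⟩
  exact (inferInstance : Nontrivial (Fin A.n × Fin A.n → F))

private theorem MA_inj {L : Type} [Field L] [NumberField L] [Algebra F L] (ι : L →ₐ[F] DF A)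
    (hL : Module.finrank F L = A.n) : Function.Injective ι := by
  have h : A.n ≠ 0 := by
    rw [← hL]
    have : 0 < Module.finrank F L := Module.finrank_pos
    exact this.ne'
  have := MA_nontrivial A h
  exact ι.toRingHom.injective

private theorem MA_conj {E : Type} [Field E] {n : ℕ} (G : (Matrix (Fin n) (Fin n) E)ˣ)
    (M : Matrix (Fin n) (Fin n) E) :
    (G.1 * M * (G⁻¹ : (Matrix (Fin n) (Fin n) E)ˣ).1).charpoly = M.charpoly := by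
  rw [Matrix.coe_units_inv]
  exact Matrix.charpoly_units_conj G M

private theorem MA_hom_pow {G k : Type} [Group G] [Field k] {Γ : Subgroup G} {h : G → k}
    (hh : ∀ a ∈ Γ, ∀ b ∈ Γ, h (a * b) = h a + h b) {g : G} (hg : g ∈ Γ) (n : ℕ) :
    h (g ^ n) = n * h g := by
  induction n with
  | zero =>
    have h1 := hh 1 Γ.one_mem 1 Γ.one_mem
    rw [one_mul] at h1
    rw [pow_zero, Nat.cast_zero, zero_mul]
    exact left_eq_add.1 h1
  | succ n ih =>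
    rw [pow_succ, hh _ (Γ.pow_mem hg n) _ hg, ih]
    push_cast
    ring

/-- **MA1.** The Galois group of a subfield with an element of the two local types.
PROOF. `(φ v₂ (dloc (ι x))).charpoly` is monic of degree `n` and separable (`T2_sep`), so `(minpoly F (ι x)).natDegree = n`
(`deg_of_sep`), and `minpoly F (ι x) = minpoly F x` (`minpoly.algHom_eq`, `ι` injective). `charpoly_eq` at
`v₂`, `v₃`: the characteristic polynomials are `(minpoly F x).map _`. `gal_ty`. -/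
theorem gal_of_ty (φ : Spl A S) {v₂ v₃ : {v : Pl F // v ∉ S}} {L : Type} [Field L] [NumberField L]
    [Algebra F L] (ι : L →ₐ[F] DF A) (hL : Module.finrank F L = A.n) {x : L}
    (hx : TyL φ v₂ v₃ (ι x)) :
    (minpoly F x).natDegree = A.n ∧
    (∀ π : Equiv.Perm (L →ₐ[F] Fbar F), ∃ g : GalF F, ActsAs g π) ∧
      ∃ (Q : Ideal (Zbar F)) (g : GalF F) (j₁ j₂ : L →ₐ[F] Fbar F), Over v₃.1 Q ∧ IsInertia Q g ∧
        j₁ ≠ j₂ ∧ (∀ x, g (j₁ x) = j₂ x) ∧ (∀ x, g (j₂ x) = j₁ x) ∧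
        ∀ j : L →ₐ[F] Fbar F, j ≠ j₁ → j ≠ j₂ → ∀ x, g (j x) = j x := by
  have hx' : (minpoly F (ι x)).natDegree = A.n := by
    apply deg_of_sep (algebraMap F (Fv v₂.1)) (φ v₂)
    exact T2_sep (Matrix.charpoly_monic _) (by rw [Matrix.charpoly_natDegree_eq_dim, Fintype.card_fin])
      hx.t2
  have hm : minpoly F (ι x) = minpoly F x := minpoly.algHom_eq ι (MA_inj ι hL) x
  have h2 := hx.t2
  have h3 := hx.t3
  have e2 : (φ v₂ (dloc A v₂.1 (ι x))).charpoly = (minpoly F x).map (algebraMap F (Fv v₂.1)) := by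
    rw [← hm]
    exact charpoly_eq (algebraMap F (Fv v₂.1)) (φ v₂) hx'
  have e3 : (φ v₃ (dloc A v₃.1 (ι x))).charpoly = (minpoly F x).map (algebraMap F (Fv v₃.1)) := by
    rw [← hm]
    exact charpoly_eq (algebraMap F (Fv v₃.1)) (φ v₃) hx'
  rw [e2] at h2
  rw [e3] at h3
  rw [hm] at hx'
  exact ⟨hx', gal_ty hL hx' h2 h3⟩

/-- **MA2.** The real embeddings of a subfield.
PROOF. `charpoly_eq` for `w.iso` and `ι z`, `exists_real_embs`. -/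
theorem real_of_ty {L : Type} [Field L] [NumberField L] [Algebra F L] (ι : L →ₐ[F] DF A)
    (hL : Module.finrank F L = A.n) {z : L} (hz : (minpoly F z).natDegree = A.n)
    (hr : TyR A (ι z)) (w : SPl A) : ∃ σ : Fin A.n → (L →+* ℝ), Function.Injective σ ∧
      ∀ i, (σ i).comp (algebraMap F L) = w.emb := by
  have hm : minpoly F (ι z) = minpoly F z := minpoly.algHom_eq ι (MA_inj ι hL) z
  apply exists_real_embs hL hz w.emb
  have h := hr w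
  rw [charpoly_eq w.emb w.iso (by rw [hm]; exact hz), hm] at h
  exact h

/-- **MA3.** The element `d`.
PROOF. `exists_field` for `t`: `M`, `ι`, `θ` with `ι θ = t`; `[M : F] = n`: `T2_sep`, `deg_of_sep`. MA1: all permutations. MA2
(`z = θ`): real embeddings `σ w i`. `card_places`: `card (InfinitePlace F) + 1 ≤ card (InfinitePlace M)`. `exists_sep_unit M`: `δ`;
`exists_pow_mem_stab`: `m₁`; `d = uA ι δ ^ m₁ ∈ Stab K y`, `d ^ m = ι (δ ^ (m₁ m))`. Put `δ₁ = δ ^ (m₁ * m)`: it is not in `F`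
(`pow_not_mem`), so `(minpoly F δ₁).natDegree = n` (`gen_of_sn`) and `t = ι θ = ι (P δ₁) = aeval (ι δ₁) P` (`exists_poly`). For
`w : SPl A`: `(w.iso (dE (ι δ₁))).charpoly = (minpoly F δ₁).map w.emb` (`charpoly_eq`) has the roots
`y i = σ w i δ₁ = (σ w i δ) ^ (m₁ m)`, positive as `m` is even and `δ ≠ 0`, and different: the places `mk (ofReal ∘ σ w i)` of `M` are different
(a place of a real embedding determines the embedding, `InfinitePlace.mk_eq_iff`) so the `|σ w i δ|` are different. `exists_diag`. -/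
theorem exists_d (hdiv : IsDiv A) (hr : 1 ≤ A.rk) (φ : Spl A S) {v₂ v₃ : {v : Pl F // v ∉ S}}
    {t : DF A} (ht : TyL φ v₂ v₃ t) (ht' : TyR A t) {K : Subgroup (sysA A).A} (hK : OC K)
    (y : (sysA A).Pt) {m : ℕ} (hm : 0 < m) (he : Even m) :
    ∃ d : (DF A)ˣ, (show (sysA A).G from d) ∈ Stab K y ∧ (∃ P : F[X], aeval (d.1 ^ m) P = t) ∧
      ∀ w : SPl A, ∃ (V : (Matrix (Fin A.n) (Fin A.n) ℝ)ˣ) (l : Fin A.n → ℝ), StrictAnti l ∧
        (∀ i, 0 < l i) ∧ w.iso (dE A w.emb (d.1 ^ m)) =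
          V.1 * diagonal l * (V⁻¹ : (Matrix (Fin A.n) (Fin A.n) ℝ)ˣ).1 := by
  have hn : 2 ≤ A.n := two_le_n hr
  obtain ⟨M, iM1, iM2, iM3, ι, θ, hθ, hM⟩ := exists_field hdiv (by omega) t
  have htd : (minpoly F t).natDegree = A.n := by
    apply deg_of_sep (algebraMap F (Fv v₂.1)) (φ v₂)
    exact T2_sep (Matrix.charpoly_monic _) (by rw [Matrix.charpoly_natDegree_eq_dim, Fintype.card_fin])
      ht.t2
  rw [htd] at hM
  obtain ⟨hdeg, sn, -⟩ := gal_of_ty φ (v₂ := v₂) (v₃ := v₃) ι hM (x := θ) (by rw [hθ]; exact ht)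
  have hre := fun w => real_of_ty ι hM hdeg (by rw [hθ]; exact ht') w
  have hcard := card_places hM hre
  obtain ⟨δ, hδ⟩ := exists_sep_unit M
  obtain ⟨m₁, hm₁, hst⟩ := exists_pow_mem_stab hK y ι
  have hnot := pow_not_mem (F := F) (by omega) hδ (Nat.mul_pos hm₁ hm)
  obtain ⟨δ₁, hδ₁⟩ : ∃ δ₁ : M, δ₁ = ((δ : 𝓞 M) : M) ^ (m₁ * m) := ⟨_, rfl⟩
  rw [← hδ₁] at hnot
  have hdeg₁ := gen_of_sn sn hnot
  obtain ⟨P, hP⟩ := exists_poly hdeg₁ θ
  obtain ⟨d, hd⟩ : ∃ d : (DF A)ˣ, d = (show (DF A)ˣ from uA ι δ) ^ m₁ := ⟨_, rfl⟩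
  have hdm : d.1 ^ m = ι δ₁ := by
    have h1 : (show (DF A)ˣ from uA ι δ).1 = ι ((δ : 𝓞 M) : M) := uA_val ι δ
    rw [hd, Units.val_pow_eq_pow_val, h1, hδ₁, map_pow, pow_mul]
  refine ⟨d, ?_, ⟨P, ?_⟩, ?_⟩
  · rw [hd]
    exact hst δ
  · rw [hdm, aeval_algHom_apply, hP, hθ]
  · intro w
    obtain ⟨σ, hσ, hσ'⟩ := hre w
    have hmi : minpoly F (ι δ₁) = minpoly F δ₁ := minpoly.algHom_eq ι (MA_inj ι hM) δ₁
    have hroot : ∀ i, (w.iso (dE A w.emb (d.1 ^ m))).charpoly.IsRoot (σ i δ₁) := by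
      intro i
      rw [hdm, charpoly_eq w.emb w.iso (by rw [hmi, hdeg₁, hM]), hmi, IsRoot.def, eval_map, ← hσ' i,
        ← hom_eval₂, ← aeval_def, minpoly.aeval, map_zero]
    have hδ0 : ∀ i, σ i ((δ : 𝓞 M) : M) ≠ 0 := by
      intro i h
      rw [map_eq_zero] at h
      have h2 : (δ : 𝓞 M) = 0 := RingOfIntegers.ext h
      exact δ.ne_zero h2
    have hval : ∀ i, σ i δ₁ = |σ i ((δ : 𝓞 M) : M)| ^ (m₁ * m) := by
      intro i
      rw [hδ₁, map_pow]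
      have h3 : Even (m₁ * m) := he.mul_left m₁
      exact (h3.pow_abs _).symm
    have hpos : ∀ i, 0 < σ i δ₁ := by
      intro i
      rw [hval]
      exact pow_pos (abs_pos.2 (hδ0 i)) _
    have hinj : Function.Injective fun i => σ i δ₁ := by
      intro i j hij
      by_contra hne
      have h1 : InfinitePlace.mk (Complex.ofRealHom.comp (σ i)) ≠
          InfinitePlace.mk (Complex.ofRealHom.comp (σ j)) := by
        intro h
        rcases InfinitePlace.mk_eq_iff.1 h with h2 | h2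
        · apply hne
          apply hσ
          ext x
          have h3 : ((σ i x : ℝ) : ℂ) = ((σ j x : ℝ) : ℂ) := RingHom.congr_fun h2 x
          exact_mod_cast h3
        · apply hne
          apply hσ
          ext x
          have h3 := RingHom.congr_fun h2 x
          rw [ComplexEmbedding.conjugate_coe_eq] at h3
          have h4 : (starRingEnd ℂ) ((σ i x : ℝ) : ℂ) = ((σ j x : ℝ) : ℂ) := h3
          rw [Complex.conj_ofReal] at h4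
          exact_mod_cast h4
      have h2 := hδ _ _ h1
      apply h2
      rw [InfinitePlace.apply, InfinitePlace.apply]
      have h3 : ∀ i, ‖(Complex.ofRealHom.comp (σ i)) ((δ : 𝓞 M) : M)‖ =
          |σ i ((δ : 𝓞 M) : M)| := by
        intro i
        rw [RingHom.comp_apply, Complex.ofRealHom_eq_coe, Complex.norm_real, Real.norm_eq_abs]
      rw [h3, h3]
      have h4 : σ i δ₁ = σ j δ₁ := hij
      rw [hval, hval] at h4
      exact (pow_left_inj₀ (abs_nonneg _) (abs_nonneg _) (Nat.mul_pos hm₁ hm).ne').1 h4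
    obtain ⟨V, l, h1, h2, h3⟩ := exists_diag _ hinj hroot hpos
    exact ⟨V, l, h1, h2, h3⟩

/-- **MA4.** The element `c`.
PROOF. `loc_close` for `v₂` with `T = {M | T2 v₂ n M.charpoly}` (`isOpen_T2`; the characteristic polynomial is invariant under conjugation:
`Matrix.charpoly_units_conj`) and for `v₃` with `T3`: `m₂`, `m₃`. For every `w : SPl A` and `k ≤ n` let `f` be the element of `idem_alg`;
`stab_tendsto` at `v₂` and `min_unit`: for all large `b`, `1 + (dE (c₀ ^ ℓ ^ b) - 1) * f` is a unit, so its image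
`1 + (w.iso (dE (c₀ ^ ℓ ^ b)) - 1) * V * fk k * V⁻¹` is a unit, and conjugated by `V`: with `a = V⁻¹ * w.iso (dE (c₀ ^ ℓ ^ b)) * V`,
`1 + (a - 1) * fk k` is a unit, its determinant is not `0`. Fix such a `b ≥ m₂, m₃` (finitely many `w`, `k`;
`1 ≤ ℓ ^ b`: `ℓ ≥ 1` by `hℓ0`). `real_roots` for every `w`: `N₀`; take
`s` with `1 + ℓ ^ b * s ≥ N₀` for all `w` (`s = N₀`). The matrix of `c₀ ^ ℓ ^ b * d ^ N` is `V * (a * diagonal (l ^ N)) * V⁻¹`. -/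
theorem exists_c (φ : Spl A S) {v₂ v₃ : {v : Pl F // v ∉ S}} {K : Subgroup (sysA A).A}
    (h₂ : SmallAt φ v₂ K) (h₃ : SmallAt φ v₃ K) (y : (sysA A).Pt) {c₀ d : (DF A)ˣ}
    (hc : (show (sysA A).G from c₀) ∈ Stab K y) (hd : (show (sysA A).G from d) ∈ Stab K y)
    {P : F[X]} (hP : TyL φ v₂ v₃ (aeval d.1 P))
    (hV : ∀ w : SPl A, ∃ (V : (Matrix (Fin A.n) (Fin A.n) ℝ)ˣ) (l : Fin A.n → ℝ), StrictAnti l ∧
      (∀ i, 0 < l i) ∧ w.iso (dE A w.emb d.1) =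
        V.1 * diagonal l * (V⁻¹ : (Matrix (Fin A.n) (Fin A.n) ℝ)ˣ).1)
    {ℓ : ℕ} (hℓ0 : 0 < ℓ) (hℓ2 : ((ℓ : ℕ) : 𝓞 F) ∈ v₂.1.asIdeal)
    (hℓ3 : ((ℓ : ℕ) : 𝓞 F) ∈ v₃.1.asIdeal) :
    ∃ b s : ℕ, TyL φ v₂ v₃ (aeval (c₀.1 ^ ℓ ^ b * d.1 ^ (1 + ℓ ^ b * s)) P) ∧
      TyR A (c₀.1 ^ ℓ ^ b * d.1 ^ (1 + ℓ ^ b * s)) := by
  classical
  obtain ⟨m₂, hm₂⟩ := loc_close φ h₂ y hc hd hℓ2 (isOpen_T2 v₂.1 A.n) (by
    intro G M hM
    change T2 v₂.1 A.n (G.1 * M * (G⁻¹ : (Matrix (Fin A.n) (Fin A.n) (Fv v₂.1))ˣ).1).charpoly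
    rw [MA_conj]
    exact hM) (P := P) hP.t2
  obtain ⟨m₃, hm₃⟩ := loc_close φ h₃ y hc hd hℓ3 (isOpen_T3 v₃.1 A.n) (by
    intro G M hM
    change T3 v₃.1 A.n (G.1 * M * (G⁻¹ : (Matrix (Fin A.n) (Fin A.n) (Fv v₃.1))ˣ).1).charpoly
    rw [MA_conj]
    exact hM) (P := P) hP.t3
  choose V l hl hpos hw using hV
  have hid := fun (w : SPl A) (k : ℕ) => idem_alg w (hl w).injective (hw w) k
  choose f hf hfk using hid
  have ht := stab_tendsto φ h₂ y hc hℓ2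
  have hun : ∀ᶠ b : ℕ in Filter.atTop, ∀ (w : SPl A) (k : Fin (A.n + 1)),
      IsUnit (1 + (dE A w.emb (c₀.1 ^ ℓ ^ b) - 1) * f w k) := by
    rw [Filter.eventually_all]
    intro w
    rw [Filter.eventually_all]
    intro k
    exact min_unit w.emb (hf w k) v₂.1 ht
  obtain ⟨b, hb, hb2, hb3⟩ := (hun.and ((Filter.eventually_ge_atTop m₂).and
    (Filter.eventually_ge_atTop m₃))).exists
  have hreal : ∀ w : SPl A, ∃ N₀ : ℕ, ∀ N ≥ N₀,
      RR A.n (((V w)⁻¹.1 * w.iso (dE A w.emb (c₀.1 ^ ℓ ^ b)) * (V w).1) *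
        diagonal fun j => l w j ^ N).charpoly := by
    intro w
    apply real_roots _ (hl w) (hpos w)
    intro k hk
    have h1 := hb w ⟨k, Nat.lt_succ_of_le hk⟩
    have h2 := (h1.map w.iso)
    rw [map_add, map_one, map_mul, map_sub, map_one, hfk] at h2
    have h3 : 1 + ((V w)⁻¹.1 * w.iso (dE A w.emb (c₀.1 ^ ℓ ^ b)) * (V w).1 - 1) * fk A.n k =
        (V w)⁻¹.1 * (1 + (w.iso (dE A w.emb (c₀.1 ^ ℓ ^ b)) - 1) *
          ((V w).1 * fk A.n k * (V w)⁻¹.1)) * (V w).1 := by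
      have e1 : (V w)⁻¹.1 * (V w).1 = 1 := Units.inv_mul _
      have e2 : (V w).1 * (V w)⁻¹.1 = 1 := Units.mul_inv _
      simp only [mul_add, add_mul, sub_mul, mul_sub, mul_one, one_mul, e1]
      congr 1
      · simp only [mul_assoc]
        rw [e1, mul_one, ← mul_assoc (V w)⁻¹.1 (V w).1, e1, one_mul]
    have h4 : IsUnit (1 + ((V w)⁻¹.1 * w.iso (dE A w.emb (c₀.1 ^ ℓ ^ b)) * (V w).1 - 1) *
        fk A.n k) := by
      rw [h3]
      exact (((V w)⁻¹.isUnit).mul h2).mul (V w).isUnit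
    rw [Matrix.isUnit_iff_isUnit_det] at h4
    exact h4.ne_zero
  choose N₀ hN₀ using hreal
  have := Fintype.ofFinite (SPl A)
  refine ⟨b, Finset.univ.sup N₀, ⟨hm₂ b hb2 _, hm₃ b hb3 _⟩, ?_⟩
  intro w
  have hN : N₀ w ≤ 1 + ℓ ^ b * Finset.univ.sup N₀ := by
    have h1 : N₀ w ≤ Finset.univ.sup N₀ := Finset.le_sup (Finset.mem_univ w)
    have h2 : 1 ≤ ℓ ^ b := Nat.one_le_pow _ _ hℓ0
    nlinarith
  have h5 := hN₀ w _ hN
  obtain ⟨N, hNe⟩ : ∃ N, N = 1 + ℓ ^ b * Finset.univ.sup N₀ := ⟨_, rfl⟩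
  rw [← hNe] at h5 ⊢
  have h6 : w.iso (dE A w.emb (c₀.1 ^ ℓ ^ b * d.1 ^ N)) =
      (V w).1 * (((V w)⁻¹.1 * w.iso (dE A w.emb (c₀.1 ^ ℓ ^ b)) * (V w).1) *
        diagonal fun j => l w j ^ N) * (V w)⁻¹.1 := by
    rw [map_mul, map_mul, map_pow (dE A w.emb) d.1, map_pow w.iso (dE A w.emb d.1), hw w,
      Units.conj_pow, diagonal_pow]
    have e2 : (V w).1 * (V w)⁻¹.1 = 1 := Units.mul_inv _
    simp only [mul_assoc]
    rw [← mul_assoc (V w).1 (V w)⁻¹.1, e2, one_mul]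
    rfl
  rw [h6, MA_conj]
  exact h5

/-- **MA5.** A nice field.
PROOF. `exists_d` with `m = 2 * p`: `d₀`, `P`; `d = d₀ ^ m`. `ℓ = Nm v₂ * Nm v₃`: positive, in both ideals (`Ideal.absNorm_mem`), prime to `p` (`not_dvd_nm`).
`exists_c`: `c = c₀ ^ ℓ ^ b * d ^ (1 + ℓ ^ b s) ∈ Stab K y`, `h c = ℓ ^ b h c₀ + 2 p (..) h d₀ = ℓ ^ b h c₀ ≠ 0` (`hh` gives `h (a ^ j) = j h a` on
`Stab K y`; `k` has characteristic `p`). `exists_field` for `c`: `L`, `ι`, `θ`. `x = aeval θ P`, `ι x = aeval c P` of the local types; as in MA3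
the degree of `minpoly F (ι x)` is `n`; it is at most `[F(c) : F] = [L : F] = (minpoly F c).natDegree ≤ n`
(`minpoly_le` at `v₂`; the minimal polynomial of an element `x` of `L` has degree at most `[L : F]`: `minpoly.natDegree_le`), so
`[L : F] = n = (minpoly F θ).natDegree` . MA1, MA2 (`z = θ`), `card_places`; `exists_unit_of_stab`: `u`. -/
theorem exists_nice (hdiv : IsDiv A) (hr : 1 ≤ A.rk) {p : ℕ} (hp : p.Prime) (φ : Spl A S)
    {v₂ v₃ : {v : Pl F // v ∉ S}} (hv₂ : ((p : ℕ) : 𝓞 F) ∉ v₂.1.asIdeal)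
    (hv₃ : ((p : ℕ) : 𝓞 F) ∉ v₃.1.asIdeal) {t : DF A} (ht : TyL φ v₂ v₃ t) (ht' : TyR A t)
    {K : Subgroup (sysA A).A} (hK : OC K) (h₂ : SmallAt φ v₂ K) (h₃ : SmallAt φ v₃ K)
    (y : (sysA A).Pt) {k : Type} [Field k] [CharP k p] {h : (sysA A).G → k}
    (hh : ∀ a ∈ Stab K y, ∀ b ∈ Stab K y, h (a * b) = h a + h b) {c₀ : (sysA A).G}
    (hc : c₀ ∈ Stab K y) :
    ∃ (L : Type) (_ : Field L) (_ : NumberField L) (_ : Algebra F L) (ι : L →ₐ[F] DF A)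
      (u : (𝓞 L)ˣ), Module.finrank F L = A.n ∧ uA ι u ∈ Stab K y ∧
      (∀ π : Equiv.Perm (L →ₐ[F] Fbar F), ∃ g : GalF F, ActsAs g π) ∧
      (∃ (Q : Ideal (Zbar F)) (g : GalF F) (j₁ j₂ : L →ₐ[F] Fbar F), Over v₃.1 Q ∧ IsInertia Q g ∧
        j₁ ≠ j₂ ∧ (∀ x, g (j₁ x) = j₂ x) ∧ (∀ x, g (j₂ x) = j₁ x) ∧
        ∀ j : L →ₐ[F] Fbar F, j ≠ j₁ → j ≠ j₂ → ∀ x, g (j x) = j x) ∧
      Fintype.card (InfinitePlace F) + A.rk ≤ Fintype.card (InfinitePlace L) ∧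
      (h c₀ ≠ 0 → h (uA ι u) ≠ 0) := by
  have hn : 2 ≤ A.n := two_le_n hr
  obtain ⟨d₀, hd₀, ⟨P, hP⟩, hV⟩ := exists_d hdiv hr φ ht ht' hK y (m := 2 * p)
    (Nat.mul_pos two_pos hp.pos) (even_two_mul p)
  obtain ⟨d, hd⟩ : ∃ d : (DF A)ˣ, d = d₀ ^ (2 * p) := ⟨_, rfl⟩
  have hd1 : d.1 = d₀.1 ^ (2 * p) := by rw [hd, Units.val_pow_eq_pow_val]
  have hdS : (show (sysA A).G from d) ∈ Stab K y := by
    rw [hd]
    exact (Stab K y).pow_mem hd₀ _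
  obtain ⟨ℓ, hℓ⟩ : ∃ ℓ : ℕ, ℓ = Nm v₂.1 * Nm v₃.1 := ⟨_, rfl⟩
  have hNm : ∀ v : Pl F, 0 < Nm v := fun v =>
    Nat.pos_of_ne_zero fun h => v.ne_bot (Ideal.absNorm_eq_zero_iff.1 h)
  have hℓ0 : 0 < ℓ := by
    rw [hℓ]
    exact Nat.mul_pos (hNm _) (hNm _)
  have hℓ2 : ((ℓ : ℕ) : 𝓞 F) ∈ v₂.1.asIdeal := by
    rw [hℓ, Nat.cast_mul]
    exact Ideal.mul_mem_right _ _ (Ideal.absNorm_mem _)
  have hℓ3 : ((ℓ : ℕ) : 𝓞 F) ∈ v₃.1.asIdeal := by
    rw [hℓ, Nat.cast_mul]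
    exact Ideal.mul_mem_left _ _ (Ideal.absNorm_mem _)
  have hℓk : ((ℓ : ℕ) : k) ≠ 0 := by
    rw [Ne, CharP.cast_eq_zero_iff k p, hℓ, hp.dvd_mul, not_or]
    exact ⟨not_dvd_nm hp hv₂, not_dvd_nm hp hv₃⟩
  obtain ⟨b, s, hL, hR⟩ := exists_c φ h₂ h₃ y (c₀ := (show (DF A)ˣ from c₀)) (d := d) hc hdS
    (P := P) (by rw [hd1, hP]; exact ht) (by rw [hd1]; exact hV) hℓ0 hℓ2 hℓ3
  obtain ⟨c, hce⟩ : ∃ c : (DF A)ˣ, c = (show (DF A)ˣ from c₀) ^ ℓ ^ b * d ^ (1 + ℓ ^ b * s) :=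
    ⟨_, rfl⟩
  have hc1 : c.1 = (show (DF A)ˣ from c₀).1 ^ ℓ ^ b * d.1 ^ (1 + ℓ ^ b * s) := by
    rw [hce, Units.val_mul, Units.val_pow_eq_pow_val, Units.val_pow_eq_pow_val]
  rw [← hc1] at hL hR
  have hcS : (show (sysA A).G from c) ∈ Stab K y := by
    rw [hce]
    exact (Stab K y).mul_mem ((Stab K y).pow_mem hc _) ((Stab K y).pow_mem hdS _)
  -- the value of the homomorphism
  have hhc : h c = ((ℓ : ℕ) : k) ^ b * h c₀ := by
    have e1 : h (show (sysA A).G from c) = h (c₀ ^ ℓ ^ b) + h ((show (sysA A).G from d) ^ (1 + ℓ ^ b * s)) := by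
      rw [← hh _ ((Stab K y).pow_mem hc _) _ ((Stab K y).pow_mem hdS _)]
      rw [hce]
      rfl
    have e2 : h (show (sysA A).G from d) = 0 := by
      have e3 : (show (sysA A).G from d) = (show (sysA A).G from d₀) ^ (2 * p) := hd
      rw [e3, MA_hom_pow hh hd₀, Nat.cast_mul, CharP.cast_eq_zero k p, mul_zero, zero_mul]
    rw [show h c = h (show (sysA A).G from c) from rfl, e1, MA_hom_pow hh hc, MA_hom_pow hh hdS, e2,
      mul_zero, add_zero, Nat.cast_pow]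
  -- the field
  obtain ⟨L, iL1, iL2, iL3, ι, θ, hθ, hLd⟩ := exists_field hdiv (by omega) c.1
  have hle : Module.finrank F L ≤ A.n := by
    rw [hLd]
    exact minpoly_le (algebraMap F (Fv v₂.1)) (φ v₂) c.1
  have hinj : Function.Injective ι := by
    have := MA_nontrivial A (by omega)
    exact ι.toRingHom.injective
  have hx : ι (aeval θ P) = aeval c.1 P := by
    rw [← hθ, aeval_algHom_apply]
  have hxd : (minpoly F (aeval c.1 P)).natDegree = A.n := by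
    apply deg_of_sep (algebraMap F (Fv v₂.1)) (φ v₂)
    exact T2_sep (Matrix.charpoly_monic _) (by rw [Matrix.charpoly_natDegree_eq_dim, Fintype.card_fin])
      hL.t2
  have hge : A.n ≤ Module.finrank F L := by
    rw [← hxd, ← hx, minpoly.algHom_eq ι hinj]
    exact minpoly.natDegree_le _
  have hLn : Module.finrank F L = A.n := le_antisymm hle hge
  have hzd : (minpoly F θ).natDegree = A.n := by
    rw [← minpoly.algHom_eq ι hinj, hθ, ← hLd, hLn]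
  obtain ⟨-, sn, tr⟩ := gal_of_ty φ (v₂ := v₂) (v₃ := v₃) ι hLn (x := aeval θ P)
    (by rw [hx]; exact hL)
  have hre := fun w => real_of_ty ι hLn hzd (by rw [hθ]; exact hR) w
  obtain ⟨u, -, hu⟩ := exists_unit_of_stab hK y c hcS ι hθ (by omega)
  refine ⟨L, iL1, iL2, iL3, ι, u, hLn, ?_, sn, tr, card_places hLn hre, ?_⟩
  · rw [hu]
    exact hcS
  · intro h0
    rw [hu, hhc]
    exact mul_ne_zero (pow_ne_zero _ hℓk) h0

/-- **MA6.** The generic unit (this is the statement of `Iface.lean`).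
PROOF. `n ≥ 2` (`two_le_n`). `exists_place` outside `S ∪ S₀ ∪ {v ∣ p}` (`finite_above_p`): `v₂`; then `v₃` outside this set and `v₂`, with `n ≤ Nm v₃`.
`v 0 = v 1 = v₂`, `v 2 = v₃`. `exists_t`. (H⁰) `exists_nice` with `k = ZMod p`, `h = 0`, `c₀ = 1`; `exists_indep 1` (second
alternative): `e₀`, and `exists_pow_mem_stab`: `e = e₀ ^ m ∈ Stab K y`, `e ^ a = e₀ ^ (m a)`, so `m a = 0`. The second
statement: `exists_nice` with `c₀`: `u`; `exists_indep u` (first alternative: `2 ≤ A.rk`). -/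
theorem exists_gen' {A : AD F} (hdiv : IsDiv A) (hr : 1 ≤ A.rk) (p : ℕ)
    [Fact p.Prime] {S : Set (Pl F)} (hS : S.Finite) (φ : Spl A S) (S₀ : Set (Pl F))
    (hS₀ : S₀.Finite) :
    ∃ v : Fin 3 → {v : Pl F // v ∉ S}, (∀ i, (v i).1 ∉ S₀) ∧
      ∀ K : Subgroup (sysA A).A, OC K → (∀ i, SmallAt φ (v i) K) → ∀ y : (sysA A).Pt,
        (∃ (L : Type) (_ : Field L) (_ : NumberField L) (_ : Algebra F L) (ι : L →ₐ[F] DF A)
          (e : (𝓞 L)ˣ), Gen A K y (v 2).1 ι 1 e) ∧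
        (2 ≤ A.rk → ∀ (k : Type) [Field k] [CharP k p] (h : (sysA A).G → k),
          (∀ a ∈ Stab K y, ∀ b ∈ Stab K y, h (a * b) = h a + h b) → ∀ c₀ ∈ Stab K y, h c₀ ≠ 0 →
          ∃ (L : Type) (_ : Field L) (_ : NumberField L) (_ : Algebra F L) (ι : L →ₐ[F] DF A)
            (u e : (𝓞 L)ˣ), Gen A K y (v 2).1 ι u e ∧ h (uA ι u) ≠ 0) := by
  have hp : p.Prime := Fact.out
  have hn : 2 ≤ A.n := two_le_n hr
  have hT : (S ∪ S₀ ∪ {v : Pl F | ((p : ℕ) : 𝓞 F) ∈ v.asIdeal}).Finite :=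
    (hS.union hS₀).union (finite_above_p hp.ne_zero)
  obtain ⟨v₂, hv₂, -⟩ := exists_place hT 0
  obtain ⟨v₃, hv₃, hv₃n⟩ := exists_place (hT.union (Set.finite_singleton v₂)) A.n
  simp only [Set.mem_union, Set.mem_ofPred_eq, Set.mem_singleton_iff, not_or] at hv₂ hv₃
  obtain ⟨⟨hv₂S, hv₂S₀⟩, hv₂p⟩ := hv₂
  obtain ⟨⟨⟨hv₃S, hv₃S₀⟩, hv₃p⟩, hv₃₂⟩ := hv₃
  obtain ⟨t, ht, ht'⟩ := exists_t φ (v₂ := ⟨v₂, hv₂S⟩) (v₃ := ⟨v₃, hv₃S⟩) (fun h => hv₃₂ h.symm) hn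
    hv₃n
  refine ⟨![⟨v₂, hv₂S⟩, ⟨v₂, hv₂S⟩, ⟨v₃, hv₃S⟩], ?_, ?_⟩
  · intro i
    fin_cases i
    · exact hv₂S₀
    · exact hv₂S₀
    · exact hv₃S₀
  intro K hK hsm y
  have h₂ : SmallAt φ ⟨v₂, hv₂S⟩ K := hsm 0
  have h₃ : SmallAt φ ⟨v₃, hv₃S⟩ K := hsm 2
  -- a power of a unit `e₀` in the stabiliser
  have key : ∀ {L : Type} [Field L] [NumberField L] [Algebra F L] (ι : L →ₐ[F] DF A)
      (u e₀ : (𝓞 L)ˣ), (∀ (a b : ℤ) (f : F),
        ((e₀ : 𝓞 L) : L) ^ a = ((u : 𝓞 L) : L) ^ b * algebraMap F L f → a = 0) →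
      ∃ e : (𝓞 L)ˣ, uA ι e ∈ Stab K y ∧ ∀ (a b : ℤ) (f : F),
        ((e : 𝓞 L) : L) ^ a = ((u : 𝓞 L) : L) ^ b * algebraMap F L f → a = 0 := by
    intro L _ _ _ ι u e₀ he₀
    obtain ⟨m, hm, hst⟩ := exists_pow_mem_stab hK y ι
    refine ⟨e₀ ^ m, ?_, ?_⟩
    · have h1 : uA ι (e₀ ^ m) = uA ι e₀ ^ m :=
        map_pow ((uL ι).comp (Units.map (algebraMap (𝓞 L) L : 𝓞 L →* L))) e₀ m
      rw [h1]
      exact hst e₀
    · intro a b f hf
      have h1 : (((e₀ ^ m : (𝓞 L)ˣ) : 𝓞 L) : L) = ((e₀ : 𝓞 L) : L) ^ m := by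
        rw [Units.val_pow_eq_pow_val]
        exact map_pow (algebraMap (𝓞 L) L) _ _
      rw [h1, ← zpow_natCast, ← _root_.zpow_mul] at hf
      have h2 := he₀ _ _ _ hf
      rcases mul_eq_zero.1 h2 with h3 | h3
      · exact absurd (Int.natCast_eq_zero.1 h3) hm.ne'
      · exact h3
  constructor
  · obtain ⟨L, iL1, iL2, iL3, ι, u, hL, -, sn, tr, hcard, -⟩ := exists_nice hdiv hr hp φ
      (v₂ := ⟨v₂, hv₂S⟩) (v₃ := ⟨v₃, hv₃S⟩) hv₂p hv₃p ht ht' hK h₂ h₃ y (k := ZMod p)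
      (h := fun _ => 0) (fun _ _ _ _ => (add_zero 0).symm) (c₀ := 1) (Stab K y).one_mem
    obtain ⟨e₀, he₀⟩ := exists_indep (F := F) (1 : (𝓞 L)ˣ) (Or.inr ⟨rfl, by omega⟩)
    obtain ⟨e, he, hei⟩ := key ι 1 e₀ he₀
    refine ⟨L, iL1, iL2, iL3, ι, e, ⟨hL, ?_, he, hei, sn, tr⟩⟩
    have h1 : uA ι 1 = 1 :=
      map_one ((uL ι).comp (Units.map (algebraMap (𝓞 L) L : 𝓞 L →* L)))
    rw [h1]
    exact (Stab K y).one_mem
  · intro hr2 k _ _ h hh c₀ hc₀ hh0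
    obtain ⟨L, iL1, iL2, iL3, ι, u, hL, hu, sn, tr, hcard, hh1⟩ := exists_nice hdiv hr hp φ
      (v₂ := ⟨v₂, hv₂S⟩) (v₃ := ⟨v₃, hv₃S⟩) hv₂p hv₃p ht ht' hK h₂ h₃ y (k := k) (h := h) hh hc₀
    obtain ⟨e₀, he₀⟩ := exists_indep (F := F) u (Or.inl (by omega))
    obtain ⟨e, he, hei⟩ := key ι u e₀ he₀
    exact ⟨L, iL1, iL2, iL3, ι, u, e, ⟨hL, hu, he, hei, sn, tr⟩, hh1 hh0⟩

end Pool.Agent.CGN
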