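import Pool.Agent.CGN.GalLin

/-!
# The group theoretic conclusion
-/

noncomputable section

set_option linter.unusedSectionVars false

namespace Pool.Agent.CGN

open Matrix

variable {κ : Type} [Field κ] {G : Type} [Group G] {d : ℕ}

/- MODULE GG -/
private theorem GG_comm (A : GL (Fin d) κ) (s : GL (Fin d) κ) (hs : IsScal s) : A * s = s * A := by
  obtain ⟨a, ha⟩ := hs
  apply Units.ext
  rw [Units.val_mul, Units.val_mul]
  change (A : Matrix (Fin d) (Fin d) κ) * (s : Matrix (Fin d) (Fin d) κ)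
    = (s : Matrix (Fin d) (Fin d) κ) * (A : Matrix (Fin d) (Fin d) κ)
  rw [ha]
  exact (Matrix.scalar_commute a (fun r => mul_comm _ _) _).symm

private theorem GG_normal : (scalSub d κ).Normal := by
  constructor
  intro A hA B
  have h1 : B * A * B⁻¹ = A := by
    rw [GG_comm B A hA, mul_assoc, mul_inv_cancel, mul_one]
  rw [h1]
  exact hA

private theorem GG_pow {p : ℕ} (hp : p.Prime) (ρ : G →* GL (Fin d) κ) [Finite ρ.range]
    (x : G) (h : ∀ k m : ℕ, p.Coprime m → ρ (x ^ (p ^ k)) ^ m = 1 → IsScal (ρ (x ^ (p ^ k)))) :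
    ∃ k : ℕ, IsScal (ρ x ^ (p ^ k)) := by
  have h1 : IsOfFinOrder (ρ x) := by
    have h2 : IsOfFinOrder (⟨ρ x, ⟨x, rfl⟩⟩ : ρ.range) := isOfFinOrder_of_finite _
    rw [isOfFinOrder_iff_pow_eq_one] at h2 ⊢
    obtain ⟨n, hn, hn'⟩ := h2
    refine ⟨n, hn, ?_⟩
    have h3 := congrArg (Subtype.val) hn'
    rw [Subgroup.coe_pow] at h3
    exact h3
  have h2 := h1.orderOf_pos
  obtain ⟨k, m, hm, hkm⟩ := Nat.exists_eq_pow_mul_and_not_dvd h2.ne' p hp.ne_one
  refine ⟨k, ?_⟩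
  rw [← map_pow]
  refine h k m ((Nat.Prime.coprime_iff_not_dvd hp).2 hm) ?_
  rw [map_pow, ← pow_mul, ← hkm, pow_orderOf_eq_one]

private theorem GG_nil [IsAlgClosed κ] {p : ℕ} [CharP κ p] (hp : p.Prime) (hd : 0 < d)
    (A : GL (Fin d) κ) (k : ℕ) (h : IsScal (A ^ (p ^ k))) :
    ∃ μ : κ, IsNilpotent ((A : Matrix (Fin d) (Fin d) κ) - Matrix.scalar (Fin d) μ) := by
  have : Fact p.Prime := ⟨hp⟩
  have : Nonempty (Fin d) := ⟨⟨0, hd⟩⟩
  obtain ⟨c, hc⟩ := h
  obtain ⟨μ, hμ⟩ := IsAlgClosed.exists_pow_nat_eq c (pow_pos hp.pos k)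
  refine ⟨μ, p ^ k, ?_⟩
  have hcomm : Commute (A : Matrix (Fin d) (Fin d) κ) (Matrix.scalar (Fin d) μ) :=
    (Matrix.scalar_commute μ (fun r => mul_comm _ _) _).symm
  have hpow : (A : Matrix (Fin d) (Fin d) κ) ^ (p ^ k) = ((A ^ (p ^ k) : GL (Fin d) κ) : Matrix (Fin d) (Fin d) κ) :=
    (Units.val_pow_eq_pow_val A (p ^ k)).symm
  rw [sub_pow_char_pow_of_commute p _ hcomm, hpow, hc, ← map_pow, hμ, sub_self]

private theorem GG_uniq (hd : 0 < d) (A : Matrix (Fin d) (Fin d) κ) (a b : κ)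
    (ha : IsNilpotent (A - Matrix.scalar (Fin d) a)) (hb : IsNilpotent (A - Matrix.scalar (Fin d) b)) : a = b := by
  have : Nonempty (Fin d) := ⟨⟨0, hd⟩⟩
  have h1 : Commute (A - Matrix.scalar (Fin d) b) (A - Matrix.scalar (Fin d) a) := by
    have hA : ∀ c : κ, Commute A (Matrix.scalar (Fin d) c) := fun c =>
      (Matrix.scalar_commute c (fun r => mul_comm _ _) _).symm
    have hs : Commute (Matrix.scalar (Fin d) b) (Matrix.scalar (Fin d) a) :=
      (Matrix.scalar_commute b (fun r => mul_comm _ _) _)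
    exact ((Commute.refl A).sub_left (hA b).symm).sub_right (Commute.sub_left (hA a) hs)
  have h2 := h1.isNilpotent_sub hb ha
  have h3 : A - Matrix.scalar (Fin d) b - (A - Matrix.scalar (Fin d) a) = Matrix.scalar (Fin d) (a - b) := by
    rw [map_sub]
    abel
  rw [h3] at h2
  obtain ⟨n, hn⟩ := h2
  rw [← map_pow] at hn
  have h4 : (a - b) ^ n = 0 := by
    have h5 := congrFun (congrFun hn ⟨0, hd⟩) ⟨0, hd⟩
    rw [Matrix.scalar_apply, Matrix.diagonal_apply_eq] at h5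
    exact h5
  exact sub_eq_zero.1 (eq_zero_of_pow_eq_zero h4)

/-- **GG**. A normal subgroup whose elements of order prime to `p` are scalars.

PROOF. (Copy `scal_or_line` of CGQ/GalGG.lean with its private lemmas `gg_normal`, `gg_pow` up to the
element `z`.) For every `x ∈ H` some `ρ x ^ (p ^ k)` is scalar (`gg_pow`), `= c`; as `κ` is algebraically
closed `c = μ ^ (p ^ k)`, and `(ρ x - μ) ^ (p ^ k) = ρ x ^ (p ^ k) - μ ^ (p ^ k) = 0` (characteristic `p`,
`sub_pow_char_pow_of_commute`): (*) for all `x ∈ H` there is `μ` with `ρ x - μ` nilpotent; `μ` is unique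
(`0 < d`; if `A - a`, `A - b` are nilpotent then so is the scalar `a - b`, `Commute.isNilpotent_sub`).
If not all `ρ x`, `x ∈ H`, are scalar, the group `ρ(H) / scalars` is a non trivial finite `p`-group, its
centre is not trivial (`IsPGroup.center_nontrivial`): there is `z₀ ∈ H` with `ρ z₀` not scalar and for all
`y ∈ H`: `ρ y * ρ z₀ * (ρ y)⁻¹ = b ρ z₀` with a scalar `b`. Raise this to the power `p ^ k`, for which
`ρ z₀ ^ (p ^ k)` is a scalar: `b ^ (p ^ k) = 1`, so `b = 1` (Frobenius is injective). So `ρ z₀` commutes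
with all `ρ y`, `y ∈ H`.
Let `Z` be the set of all `z ∈ H` such that `ρ z` commutes with all `ρ y`, `y ∈ H`; `g z g⁻¹ ∈ Z` for
`z ∈ Z`, `g ∈ G` (`H` is normal). Choose `μ z` as in (*) for `z ∈ H`. Let
`V = ⨅ z ∈ Z, ker (ρ z - μ z)` (or the submodule of all `x` with `ρ z x = μ z x` for all `z ∈ Z`).
`V ≠ ⊤` because `ρ z₀` is not scalar. `V ≠ ⊥` by `common_kernel` for the set of the `ρ z - μ z`, `z ∈ Z`
(pairwise commuting, nilpotent). `V` is stable under `ρ g`: for `x ∈ V`, `z ∈ Z`, `z' = g⁻¹ z g ∈ Z`: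
`ρ z (ρ g x) = ρ g (ρ z' x) = μ z' • ρ g x` and `μ z' = μ z` by the uniqueness (`ρ z' - μ z` is conjugate to
`ρ z - μ z`, so it is nilpotent). -/
theorem scal_or_sub [IsAlgClosed κ] {p : ℕ} [CharP κ p] (hp : p.Prime) (hd : 0 < d)
    (ρ : G →* GL (Fin d) κ) [Finite ρ.range] (H : Subgroup G) [H.Normal]
    (h : ∀ x ∈ H, ∀ m : ℕ, p.Coprime m → ρ x ^ m = 1 → IsScal (ρ x)) :
    (∀ x ∈ H, IsScal (ρ x)) ∨ HasSub ρ := by
  classical
  have hN : (scalSub d κ).Normal := GG_normal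
  have : Fact p.Prime := ⟨hp⟩
  have hne : Nonempty (Fin d) := ⟨⟨0, hd⟩⟩
  by_cases hall : ∀ x ∈ H, IsScal (ρ x)
  · exact Or.inl hall
  right
  have hpow : ∀ x ∈ H, ∃ k : ℕ, IsScal (ρ x ^ (p ^ k)) := fun x hx =>
    GG_pow hp ρ x fun k m hm h1 => h _ (H.pow_mem hx _) m hm h1
  obtain ⟨φ, hφ⟩ : ∃ φ : H →* GL (Fin d) κ ⧸ scalSub d κ,
      φ = (QuotientGroup.mk' (scalSub d κ)).comp (ρ.comp H.subtype) := ⟨_, rfl⟩
  have hφ1 : ∀ x : H, φ x = 1 ↔ IsScal (ρ x) := by
    intro x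
    rw [hφ]
    exact QuotientGroup.eq_one_iff _
  have hfin : Finite φ.range := by
    have h1 : Set.Finite (Set.range φ) := by
      have h2 : Set.range φ ⊆ (fun A : GL (Fin d) κ => (QuotientGroup.mk' (scalSub d κ)) A) ''
          (ρ.range : Set (GL (Fin d) κ)) := by
        rintro _ ⟨x, rfl⟩
        refine ⟨ρ x, ⟨x, rfl⟩, ?_⟩
        rw [hφ]
        rfl
      exact (Set.Finite.image _ (Set.toFinite (ρ.range : Set (GL (Fin d) κ)))).subset h2
    exact h1.to_subtype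
  have hP : IsPGroup p φ.range := by
    rintro ⟨_, x, rfl⟩
    obtain ⟨k, hk⟩ := hpow x x.2
    refine ⟨k, ?_⟩
    apply Subtype.ext
    rw [Subgroup.coe_pow, Subgroup.coe_one]
    change φ x ^ p ^ k = 1
    rw [← map_pow, hφ1, Subgroup.coe_pow, map_pow]
    exact hk
  have hnt : Nontrivial φ.range := by
    push Not at hall
    obtain ⟨x, hx, hx'⟩ := hall
    refine ⟨⟨⟨φ ⟨x, hx⟩, ⟨x, hx⟩, rfl⟩, 1, ?_⟩⟩
    intro h1
    have h2 : φ ⟨x, hx⟩ = 1 := congrArg Subtype.val h1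
    exact hx' ((hφ1 _).1 h2)
  have hc := hP.center_nontrivial
  obtain ⟨⟨⟨_, z, rfl⟩, hz⟩, hz1⟩ := exists_ne (1 : Subgroup.center φ.range)
  have hz2 : ¬ IsScal (ρ z) := by
    intro h1
    apply hz1
    apply Subtype.ext
    apply Subtype.ext
    exact (hφ1 z).2 h1
  obtain ⟨k, hk⟩ := hpow z z.2
  -- `ρ z` commutes with all `ρ y`
  have hH : ∀ y ∈ H, ρ z * ρ y = ρ y * ρ z := by
    intro y hy
    have h1 : φ z * φ ⟨y, hy⟩ = φ ⟨y, hy⟩ * φ z := by
      have h2 := Subgroup.mem_center_iff.1 hz ⟨φ ⟨y, hy⟩, ⟨y, hy⟩, rfl⟩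
      exact (congrArg Subtype.val h2).symm
    have h2 : φ ((⟨y, hy⟩ * z)⁻¹ * (z * ⟨y, hy⟩)) = 1 := by
      rw [map_mul, map_inv, map_mul, map_mul, h1, inv_mul_cancel]
    have h3 : IsScal ((ρ y * ρ z)⁻¹ * (ρ z * ρ y)) := by
      have h4 := (hφ1 _).1 h2
      have h5 : ρ (((⟨y, hy⟩ * z)⁻¹ * (z * ⟨y, hy⟩) : H) : G) = (ρ y * ρ z)⁻¹ * (ρ z * ρ y) := by
        push_cast
        rw [map_mul, map_inv, map_mul, map_mul]
      rwa [h5] at h4
    obtain ⟨s, hs⟩ : ∃ s, s = (ρ y * ρ z)⁻¹ * (ρ z * ρ y) := ⟨_, rfl⟩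
    rw [← hs] at h3
    have h4 : ρ z * ρ y = ρ y * ρ z * s := by rw [hs, mul_inv_cancel_left]
    have h5 : (ρ y)⁻¹ * ρ z * ((ρ y)⁻¹)⁻¹ = ρ z * s := by
      rw [inv_inv, mul_assoc, h4, mul_assoc, inv_mul_cancel_left]
    have h6 := congrArg (fun A => A ^ (p ^ k)) h5
    have h7 : Commute (ρ z) s := GG_comm _ _ h3
    rw [conj_pow, h7.mul_pow, GG_comm _ _ hk, mul_assoc, inv_inv, inv_mul_cancel, mul_one] at h6
    have h8 : s ^ (p ^ k) = 1 := by
      have h9 := congrArg (fun A => (ρ z ^ (p ^ k))⁻¹ * A) h6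
      simp only [inv_mul_cancel, inv_mul_cancel_left] at h9
      exact h9.symm
    have h9 : s = 1 := by
      obtain ⟨b, hb⟩ := h3
      have h10 : b ^ (p ^ k) = 1 := by
        have h11 := congrArg (fun A : GL (Fin d) κ => (A : Matrix (Fin d) (Fin d) κ)) h8
        simp only [Units.val_pow_eq_pow_val, Units.val_one] at h11
        rw [hb, ← map_pow] at h11
        have h12 := congrFun (congrFun h11 ⟨0, hd⟩) ⟨0, hd⟩
        rw [Matrix.scalar_apply, Matrix.diagonal_apply_eq, Matrix.one_apply_eq] at h12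
        exact h12
      have h11 : b = 1 := by
        have h12 : (b - 1) ^ (p ^ k) = 0 := by
          rw [sub_pow_char_pow, h10, one_pow, sub_self]
        exact sub_eq_zero.1 (eq_zero_of_pow_eq_zero h12)
      apply Units.ext
      rw [hb, h11, map_one]
      rfl
    rw [h4, h9, mul_one]
  -- the eigenvalues
  have hmu : ∀ x : G, ∃ μ : κ, x ∈ H → IsNilpotent ((ρ x : Matrix (Fin d) (Fin d) κ) - Matrix.scalar (Fin d) μ) := by
    intro x
    by_cases hx : x ∈ H
    · obtain ⟨k, hk⟩ := hpow x hx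
      obtain ⟨μ, hμ⟩ := GG_nil hp hd (ρ x) k hk
      exact ⟨μ, fun _ => hμ⟩
    · exact ⟨0, fun h => absurd h hx⟩
  choose μ hμ using hmu
  let V : Submodule κ (Fin d → κ) :=
    { carrier := {x | ∀ z ∈ H, (∀ y ∈ H, ρ z * ρ y = ρ y * ρ z) →
        (ρ z : Matrix (Fin d) (Fin d) κ).mulVec x = μ z • x}
      add_mem' := by
        intro a b ha hb z hz hz'
        rw [Matrix.mulVec_add, ha z hz hz', hb z hz hz', smul_add]
      zero_mem' := by
        intro z _ _
        rw [Matrix.mulVec_zero, smul_zero]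
      smul_mem' := by
        intro c a ha z hz hz'
        rw [Matrix.mulVec_smul, ha z hz hz', smul_comm] }
  refine ⟨V, ?_, ?_, ?_⟩
  · let S : Set (Module.End κ (Fin d → κ)) := {f | ∃ z ∈ H, (∀ y ∈ H, ρ z * ρ y = ρ y * ρ z) ∧
        f = Matrix.toLinAlgEquiv' ((ρ z : Matrix (Fin d) (Fin d) κ) - Matrix.scalar (Fin d) (μ z))}
    have hSc : ∀ f ∈ S, ∀ g ∈ S, f * g = g * f := by
      rintro _ ⟨a, ha, ha', rfl⟩ _ ⟨b, hb, hb', rfl⟩
      rw [← map_mul, ← map_mul]
      congr 1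
      have h1 : Commute (ρ a : Matrix (Fin d) (Fin d) κ) (ρ b : Matrix (Fin d) (Fin d) κ) :=
        congrArg (fun A : GL (Fin d) κ => (A : Matrix (Fin d) (Fin d) κ)) (ha' b hb)
      have hA : ∀ (A : Matrix (Fin d) (Fin d) κ) (c : κ), Commute A (Matrix.scalar (Fin d) c) := fun A c =>
        (Matrix.scalar_commute c (fun r => mul_comm _ _) _).symm
      exact (h1.sub_left (hA _ _).symm).sub_right (Commute.sub_left (hA _ _) (hA _ _))
    have hSn : ∀ f ∈ S, IsNilpotent f := by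
      rintro _ ⟨a, ha, ha', rfl⟩
      exact (hμ a ha).map _
    obtain ⟨x, hx0, hx1⟩ := common_kernel S hSc hSn
    intro hV
    apply hx0
    rw [← Submodule.mem_bot κ, ← hV]
    intro z hz hz'
    have h1 := hx1 _ ⟨z, hz, hz', rfl⟩
    rw [Matrix.toLinAlgEquiv'_apply, Matrix.sub_mulVec, sub_eq_zero] at h1
    rw [h1, Matrix.scalar_apply]
    ext i
    rw [Matrix.mulVec_diagonal]
    rfl
  · intro hV
    apply hz2
    refine ⟨μ z, ?_⟩
    have h1 : ∀ x : Fin d → κ, (ρ z : Matrix (Fin d) (Fin d) κ).mulVec x = μ z • x := by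
      intro x
      have hx : x ∈ V := by
        rw [hV]
        trivial
      exact hx z z.2 hH
    apply Matrix.ext_of_mulVec_single
    intro i
    rw [h1, Matrix.scalar_apply]
    ext j
    rw [Matrix.mulVec_diagonal]
    rfl
  · intro g x hx z hz hz'
    have hz1 : g⁻¹ * z * g ∈ H := by
      have := Subgroup.Normal.conj_mem ‹H.Normal› z hz g⁻¹
      rwa [inv_inv] at this
    have hz2 : ∀ y ∈ H, ρ (g⁻¹ * z * g) * ρ y = ρ y * ρ (g⁻¹ * z * g) := by
      intro y hy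
      have h1 := hz' (g * y * g⁻¹) (Subgroup.Normal.conj_mem ‹H.Normal› y hy g)
      rw [map_mul, map_mul, map_inv] at h1
      rw [map_mul, map_mul, map_inv]
      have h2 := congrArg (fun A => (ρ g)⁻¹ * A * ρ g) h1
      have h3 : (ρ g)⁻¹ * (ρ z * (ρ g * ρ y * (ρ g)⁻¹)) * ρ g = (ρ g)⁻¹ * ρ z * ρ g * ρ y := by group
      have h4 : (ρ g)⁻¹ * (ρ g * ρ y * (ρ g)⁻¹ * ρ z) * ρ g = ρ y * ((ρ g)⁻¹ * ρ z * ρ g) := by group
      rw [h3, h4] at h2
      exact h2
    have hx1 := hx _ hz1 hz2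
    have hmm : μ (g⁻¹ * z * g) = μ z := by
      apply GG_uniq hd _ _ _ (hμ _ hz1)
      obtain ⟨n, hn⟩ := hμ z hz
      refine ⟨n, ?_⟩
      have h1 : ((ρ (g⁻¹ * z * g) : GL (Fin d) κ) : Matrix (Fin d) (Fin d) κ) - Matrix.scalar (Fin d) (μ z) =
          ((ρ g)⁻¹ : GL (Fin d) κ).1 * ((ρ z : Matrix (Fin d) (Fin d) κ) - Matrix.scalar (Fin d) (μ z)) * (ρ g).1 := by
        have h2 : ((ρ g)⁻¹ : GL (Fin d) κ).1 * Matrix.scalar (Fin d) (μ z) * (ρ g).1 = Matrix.scalar (Fin d) (μ z) := by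
          rw [mul_assoc, (Matrix.scalar_commute (μ z) (fun r => mul_comm _ _) (ρ g).1).eq, ← mul_assoc, Units.inv_mul,
            one_mul]
        rw [mul_sub, sub_mul, h2, map_mul, map_mul, map_inv]
        rfl
      rw [h1, Units.conj_pow', hn, mul_zero, zero_mul]
    rw [hmm] at hx1
    rw [← Matrix.mulVec_smul, ← hx1, Matrix.mulVec_mulVec, Matrix.mulVec_mulVec,
      ← GeneralLinearGroup.coe_mul, ← GeneralLinearGroup.coe_mul, ← map_mul, ← map_mul]
    congr 3
    group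
/- END GG -/

/- MODULE GD -/
private theorem GD_coprime {Δ : Type} [Group Δ] {S : Subgroup Δ} {x : Δ} {a b : ℕ}
    (ha : x ^ a ∈ S) (hb : x ^ b ∈ S) (hab : Nat.Coprime a b) : x ∈ S := by
  have h1 : (Nat.gcd a b : ℤ) = a * Nat.gcdA a b + b * Nat.gcdB a b := Nat.gcd_eq_gcd_ab a b
  rw [hab] at h1
  have h2 : x = (x ^ a) ^ (Nat.gcdA a b) * (x ^ b) ^ (Nat.gcdB a b) := by
    rw [← zpow_natCast x a, ← zpow_natCast x b, ← _root_.zpow_mul, ← _root_.zpow_mul, ← _root_.zpow_add, ← h1]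
    simp
  rw [h2]
  exact S.mul_mem (S.zpow_mem ha _) (S.zpow_mem hb _)

/-- **GD**. The conclusion. `H₂ ≤ H₁ ≤ G₀ ≤ G`: in the application `G = GalF F`, `G₀` the elements
trivial on `ζ_{p^M}`, `H₁` those which are moreover trivial on the conjugates of `L`, `H₂` those which
are trivial on `Z`.

PROOF. (Compare `hasLine_final` in CGQ/GalGD.lean.) By `scal_or_sub` for `H₂` we may assume that `ρ x`
is scalar for all `x ∈ H₂`. Then `ρ x ^ (p ^ M)` is scalar for `x ∈ H₁`, so the elements `ρ x` of order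
prime to `p`, `x ∈ H₁`, are scalar (`gd_coprime` there): by `scal_or_sub` for `H₁` we may assume that
`ρ x` is scalar for all `x ∈ H₁`. So `ρ y = ρ (c * y)` is scalar for all `y ∈ G₀`.
`p ≠ 2`: `C` is cyclic; choose `t` with `f t` generating `f.range`; for `g ∈ G` there is `i` with
`f g = f t ^ i`, `(t ^ i)⁻¹ * g ∈ G₀`: `hasSub_of_cyclic`.
`p = 2`: `ρ g ^ (2 ^ k)` is scalar for all `g`, so `scal_or_sub` for `H = ⊤` applies: `HasSub ρ`, or all
`ρ g` are scalar, and then every line is stable (`2 ≤ d`; or `hasSub_of_cyclic` with `t = 1`). -/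
theorem hasSub_final [IsAlgClosed κ] {p M : ℕ} [CharP κ p] (hp : p.Prime) (hd : 2 ≤ d)
    (ρ : G →* GL (Fin d) κ) [Finite ρ.range] (G₀ H₁ H₂ : Subgroup G) [H₁.Normal] [H₂.Normal]
    (hH2 : ∀ x ∈ H₂, ∀ m : ℕ, p.Coprime m → ρ x ^ m = 1 → IsScal (ρ x))
    (hH1 : ∀ y ∈ G₀, ∃ c : G, ρ c = 1 ∧ c * y ∈ H₁)
    (hpow : ∀ x ∈ H₁, x ^ (p ^ M) ∈ H₂)
    {C : Type} [CommGroup C] [Finite C] (f : G →* C) (hf : ∀ g, f g = 1 → g ∈ G₀)
    (hC1 : p ≠ 2 → IsCyclic C) (hC2 : p = 2 → ∃ k : ℕ, ∀ x : C, x ^ (2 ^ k) = 1) :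
    HasSub ρ := by
  rcases scal_or_sub hp (by omega) ρ H₂ hH2 with hs | hl
  swap
  · exact hl
  rcases scal_or_sub hp (by omega) ρ H₁ (fun x hx m hm hxm => by
    have h1 : ρ x ^ (p ^ M) ∈ scalSub d κ := by
      have h2 := hs _ (hpow x hx)
      rw [map_pow] at h2
      exact h2
    refine GD_coprime h1 ?_ (Nat.Coprime.pow_left M hm)
    rw [hxm]
    exact (scalSub d κ).one_mem) with hs1 | hl
  swap
  · exact hl
  have h0 : ∀ y ∈ G₀, ρ y ∈ scalSub d κ := by
    intro y hy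
    obtain ⟨c, hc, hcy⟩ := hH1 y hy
    have h1 := hs1 _ hcy
    rw [map_mul, hc, one_mul] at h1
    exact h1
  by_cases hp2 : p = 2
  · subst hp2
    obtain ⟨k, hk⟩ := hC2 rfl
    have hG : ∀ g : G, ρ g ^ (2 ^ k) ∈ scalSub d κ := by
      intro g
      have h1 : g ^ (2 ^ k) ∈ G₀ := hf _ (by rw [map_pow, hk])
      have h2 := h0 _ h1
      rw [map_pow] at h2
      exact h2
    rcases scal_or_sub hp (by omega) ρ (⊤ : Subgroup G) (fun x _ m hm hxm => by
      refine GD_coprime (hG x) ?_ ((Nat.Coprime.pow_left k hm))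
      rw [hxm]
      exact (scalSub d κ).one_mem) with h1 | h1
    · refine hasSub_of_cyclic hd ρ 1 fun g => ⟨0, ?_⟩
      rw [zpow_zero, inv_one, map_one, one_mul]
      exact h1 g trivial
    · exact h1
  · have := hC1 hp2
    obtain ⟨⟨_, t, rfl⟩, ht⟩ := IsCyclic.exists_generator (α := f.range)
    refine hasSub_of_cyclic hd ρ t fun g => ?_
    obtain ⟨i, hi⟩ := Subgroup.mem_zpowers_iff.1 (ht ⟨f g, ⟨g, rfl⟩⟩)
    refine ⟨i, ?_⟩
    rw [← map_mul]
    apply h0
    apply hf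
    have h2 : f t ^ i = f g := congrArg Subtype.val hi
    rw [map_mul, map_inv, map_zpow, h2, inv_mul_cancel]
/- END GD -/

/- MODULE DU -/
/-- The contragredient representation. -/
def dualRep (ρ : G →* GL (Fin d) κ) : G →* GL (Fin d) κ where
  toFun g := ⟨(ρ g⁻¹ : Matrix (Fin d) (Fin d) κ)ᵀ, (ρ g : Matrix (Fin d) (Fin d) κ)ᵀ, by
      rw [← Matrix.transpose_mul, ← GeneralLinearGroup.coe_mul, ← map_mul, mul_inv_cancel, map_one]
      simp, by
      rw [← Matrix.transpose_mul, ← GeneralLinearGroup.coe_mul, ← map_mul, inv_mul_cancel, map_one]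
      simp⟩
  map_one' := by
    apply Units.ext
    change (ρ 1⁻¹ : Matrix (Fin d) (Fin d) κ)ᵀ = 1
    rw [inv_one, map_one]
    simp
  map_mul' a b := by
    apply Units.ext
    change (ρ (a * b)⁻¹ : Matrix (Fin d) (Fin d) κ)ᵀ =
      (ρ a⁻¹ : Matrix (Fin d) (Fin d) κ)ᵀ * (ρ b⁻¹ : Matrix (Fin d) (Fin d) κ)ᵀ
    rw [← Matrix.transpose_mul, ← GeneralLinearGroup.coe_mul, ← map_mul, _root_.mul_inv_rev]

theorem coe_dualRep (ρ : G →* GL (Fin d) κ) (g : G) :
    (dualRep ρ g : Matrix (Fin d) (Fin d) κ) = (ρ g⁻¹ : Matrix (Fin d) (Fin d) κ)ᵀ := rfl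

/-- **DU** (1). -/
theorem dualRep_ker (ρ : G →* GL (Fin d) κ) : (dualRep ρ).ker = ρ.ker := by
  ext g
  rw [MonoidHom.mem_ker, MonoidHom.mem_ker]
  constructor
  · intro h
    have h1 := congrArg (fun A : GL (Fin d) κ => (A : Matrix (Fin d) (Fin d) κ)) h
    simp only [coe_dualRep, Units.val_one] at h1
    have h2 : (ρ g⁻¹ : Matrix (Fin d) (Fin d) κ) = 1 := by
      rw [← Matrix.transpose_transpose (ρ g⁻¹ : Matrix (Fin d) (Fin d) κ), h1, Matrix.transpose_one]
    have h3 : ρ g⁻¹ = 1 := Units.ext h2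
    rw [map_inv, inv_eq_one] at h3
    exact h3
  · intro h
    apply Units.ext
    rw [coe_dualRep, map_inv, h, inv_one, Units.val_one, Matrix.transpose_one]

/-- **DU** (2). PROOF. If `V` is stable under the contragredient representation, then
`{y | ∀ x ∈ V, x ⬝ᵥ y = 0}` is stable under `ρ`: `x ⬝ᵥ (ρ g y) = ((ρ g)ᵀ x) ⬝ᵥ y` and
`(ρ g)ᵀ = dualRep ρ g⁻¹`. It is proper and non zero because `V` is (`V ≠ ⊥`: there is `x ∈ V` with
`x i ≠ 0`, and the `i`-th unit vector is not in the annihilator; `V ≠ ⊤`: dimensions, or: a linear form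
which vanishes on `V`, `Submodule.exists_le_ker_of_lt_top`, is `x ↦ x ⬝ᵥ y` for some `y ≠ 0`). -/
theorem hasSub_of_dual (ρ : G →* GL (Fin d) κ) (h : HasSub (dualRep ρ)) : HasSub ρ := by
  obtain ⟨V, hV0, hV1, hV⟩ := h
  let W : Submodule κ (Fin d → κ) :=
    { carrier := {y | ∀ x ∈ V, x ⬝ᵥ y = 0}
      add_mem' := by
        intro a b ha hb x hx
        rw [dotProduct_add, ha x hx, hb x hx, add_zero]
      zero_mem' := by
        intro x _
        rw [dotProduct_zero]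
      smul_mem' := by
        intro c a ha x hx
        rw [dotProduct_smul, ha x hx, smul_zero] }
  refine ⟨W, ?_, ?_, ?_⟩
  · intro hW
    obtain ⟨f, hf0, hf⟩ := Submodule.exists_le_ker_of_lt_top V (lt_top_iff_ne_top.2 hV1)
    have hfx : ∀ x : Fin d → κ, f x = x ⬝ᵥ fun i => f (Pi.single i 1) := by
      intro x
      nth_rewrite 1 [pi_eq_sum_univ' x]
      rw [map_sum, dotProduct]
      refine Finset.sum_congr rfl fun i _ => ?_
      rw [map_smul, smul_eq_mul]
    have hy : (fun i => f (Pi.single i 1)) ∈ W := by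
      intro x hx
      rw [← hfx]
      exact hf hx
    rw [hW, Submodule.mem_bot] at hy
    apply hf0
    apply LinearMap.ext
    intro x
    rw [hfx, hy, dotProduct_zero]
    rfl
  · intro hW
    obtain ⟨x, hx, hx0⟩ := Submodule.exists_mem_ne_zero_of_ne_bot hV0
    apply hx0
    ext i
    have h1 : (Pi.single i 1 : Fin d → κ) ∈ W := by
      rw [hW]
      trivial
    have h2 := h1 x hx
    rw [dotProduct_single, mul_one] at h2
    exact h2
  · intro g y hy x hx
    rw [Matrix.dotProduct_mulVec, ← Matrix.mulVec_transpose]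
    apply hy
    have h1 := hV g⁻¹ x hx
    rw [coe_dualRep, inv_inv] at h1
    exact h1
/- END DU -/

/- MODULE NS -/
/-- **NS**. A stable subspace over the algebraic closure gives one over a finite extension.

PROOF. Let `V` be the subspace, `x ∈ V`, `x ≠ 0`. `k' = IntermediateField.adjoin k (Set.range x)`, finite
over `k` (as in CGQ/GalNE.lean). `V' = {y : Fin d → k' | (fun i => (y i : AlgebraicClosure k)) ∈ V}`.
`x` gives a non zero element of `V'`. If `V' = ⊤` then all unit vectors are in `V` and `V = ⊤`. -/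
theorem exists_finite_sub {k : Type} [Field k] (ρ : G →* GL (Fin d) k)
    (h : HasSub ((GeneralLinearGroup.map (n := Fin d)
      (algebraMap k (AlgebraicClosure k))).comp ρ)) :
    ∃ (k' : IntermediateField k (AlgebraicClosure k)) (V : Submodule k' (Fin d → k')),
      FiniteDimensional k k' ∧ V ≠ ⊥ ∧ V ≠ ⊤ ∧ ∀ g : G, ∀ x ∈ V,
        ((ρ g : Matrix (Fin d) (Fin d) k).map (algebraMap k k')).mulVec x ∈ V := by
  obtain ⟨V, hV0, hV1, hV⟩ := h
  obtain ⟨x, hx, hx0⟩ := Submodule.exists_mem_ne_zero_of_ne_bot hV0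
  let k' : IntermediateField k (AlgebraicClosure k) := IntermediateField.adjoin k (Set.range x)
  have hfd : FiniteDimensional k k' := by
    apply IntermediateField.finiteDimensional_adjoin
    intro y _
    exact Algebra.IsIntegral.isIntegral y
  have hxmem : ∀ i, x i ∈ k' := fun i => IntermediateField.subset_adjoin k _ ⟨i, rfl⟩
  let V' : Submodule k' (Fin d → k') :=
    { carrier := {y | (fun i => ((y i : k') : AlgebraicClosure k)) ∈ V}
      add_mem' := by
        intro a b ha hb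
        exact V.add_mem ha hb
      zero_mem' := V.zero_mem
      smul_mem' := by
        intro c a ha
        exact V.smul_mem (c : AlgebraicClosure k) ha }
  refine ⟨k', V', hfd, ?_, ?_, ?_⟩
  · intro h
    have h1 : (fun i => (⟨x i, hxmem i⟩ : k')) ∈ V' := hx
    rw [h, Submodule.mem_bot] at h1
    apply hx0
    ext i
    exact congrArg Subtype.val (congrFun h1 i)
  · intro h
    apply hV1
    rw [eq_top_iff]
    intro y _
    rw [pi_eq_sum_univ' y]
    refine V.sum_mem fun i _ => V.smul_mem _ ?_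
    have h1 : (Pi.single i 1 : Fin d → k') ∈ V' := by
      rw [h]
      trivial
    have h2 : (fun j : Fin d => (((Pi.single i 1 : Fin d → k') j : k') : AlgebraicClosure k)) ∈ V := h1
    have h3 : (Pi.single i 1 : Fin d → AlgebraicClosure k) =
        fun j : Fin d => (((Pi.single i 1 : Fin d → k') j : k') : AlgebraicClosure k) := by
      funext j
      rw [Pi.single_apply, Pi.single_apply]
      split_ifs
      · rfl
      · rfl
    rw [h3]
    exact h2
  · intro g y hy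
    have h1 := hV g _ hy
    have h2 : (fun i => (((((ρ g : Matrix (Fin d) (Fin d) k).map (algebraMap k k')).mulVec y i : k')) : AlgebraicClosure k)) =
        (((GeneralLinearGroup.map (n := Fin d) (algebraMap k (AlgebraicClosure k))).comp ρ g :
          GL (Fin d) (AlgebraicClosure k)) : Matrix (Fin d) (Fin d) (AlgebraicClosure k)).mulVec
          (fun i => ((y i : k') : AlgebraicClosure k)) := by
      funext i
      simp only [Matrix.mulVec, dotProduct]
      push_cast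
      rfl
    change (fun i => (((((ρ g : Matrix (Fin d) (Fin d) k).map (algebraMap k k')).mulVec y i : k')) : AlgebraicClosure k)) ∈ V
    rw [h2]
    exact h1
/- END NS -/

end Pool.Agent.CGN
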