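import Mathlib

/-!
# A symmetrisation
-/

noncomputable section

set_option linter.unusedSectionVars false

namespace Pool.Agent.CGN

/- MODULE SY -/
private theorem SY_inv {α : Type} (f : Equiv.Perm α) (x : α) : f⁻¹ (f x) = x := f.symm_apply_apply x

private theorem SY_trans {α : Type} [DecidableEq α] (i j i' j' : α) (h : i ≠ j) (h' : i' ≠ j') :
    ∃ τ : Equiv.Perm α, τ i = i' ∧ τ j = j' := by
  refine ⟨Equiv.swap (Equiv.swap i i' j) j' * Equiv.swap i i', ?_, ?_⟩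
  · rw [Equiv.Perm.mul_apply, Equiv.swap_apply_left]
    apply Equiv.swap_apply_of_ne_of_ne
    · intro h1
      apply h
      have h2 := congrArg (Equiv.swap i i') h1
      rw [Equiv.swap_apply_right, Equiv.swap_apply_self] at h2
      exact h2
    · exact h'
  · rw [Equiv.Perm.mul_apply, Equiv.swap_apply_left]

private theorem SY_move {α : Type} [Fintype α] [DecidableEq α] {C : Type} [CommGroup C] (a : α) (x : α → C)
    (τ : Equiv.Perm α) (i j : α) :
    ∏ π ∈ Finset.univ.filter (fun π : Equiv.Perm α => π a = τ i), x (π⁻¹ (τ j)) =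
      ∏ π ∈ Finset.univ.filter (fun π : Equiv.Perm α => π a = i), x (π⁻¹ j) := by
  symm
  refine Finset.prod_bij' (fun π _ => τ * π) (fun π _ => τ⁻¹ * π) ?_ ?_ ?_ ?_ ?_
  · intro π hπ
    rw [Finset.mem_filter] at hπ ⊢
    refine ⟨Finset.mem_univ _, ?_⟩
    rw [Equiv.Perm.mul_apply, hπ.2]
  · intro π hπ
    rw [Finset.mem_filter] at hπ ⊢
    refine ⟨Finset.mem_univ _, ?_⟩
    rw [Equiv.Perm.mul_apply, hπ.2, SY_inv]
  · intro π _
    exact inv_mul_cancel_left τ π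
  · intro π _
    exact mul_inv_cancel_left τ π
  · intro π _
    rw [_root_.mul_inv_rev, Equiv.Perm.mul_apply, SY_inv]

/-- **SY**. Symmetrisation.

PROOF. Let `d = Fintype.card α`, `N` the number of the `π : Equiv.Perm α` with `π a = a` (`N > 0`: the
identity). For `i, j : α` let `X j i = ∏ π with π a = i, x (π⁻¹ j)`.
(1) For every `i` there are exactly `N` permutations with `π a = i` (bijection `π ↦ swap a i * π`), and for
them `π⁻¹ i = a`; so `X i i = A`, `A = x a ^ N`.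
(2) If `i ≠ j` and `i' ≠ j'` then `X j i = X j' i'`: choose a permutation `τ` with `τ i = i'`, `τ j = j'`
(for instance `τ = swap (swap i i' j) j' * swap i i'`), and substitute `π ↦ τ * π` (`(τ π) a = i'`,
`(τ π)⁻¹ j' = π⁻¹ j`). Call the common value `B` (`B = 1` if `d = 1`).
(3) `∏ j, X j i = ∏ (π with π a = i), ∏ j, x (π⁻¹ j) = P ^ N`, `P = ∏ i, x i`; by (1), (2):
`A * B ^ (d - 1) = P ^ N`, so `B ^ (d - 1) = P ^ N * A⁻¹`.
(4) `∏ π, x (π⁻¹ j) ^ ((d - 1) c (π a)) = ∏ i, X j i ^ ((d - 1) c i)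
= A ^ ((d - 1) c j) * ∏ (i ≠ j), (P ^ N * A⁻¹) ^ (c i)
= (A ^ d * (P ^ N)⁻¹) ^ (c j) * ∏ i, (P ^ N * A⁻¹) ^ (c i)`.
`A ^ d * (P ^ N)⁻¹ = (x a ^ d * P⁻¹) ^ N`, and `b = ∏ i, (P ^ N * A⁻¹) ^ (c i)`. -/
theorem sym_prod {α : Type} [Fintype α] [DecidableEq α] {C : Type} [CommGroup C] (a : α) :
    ∃ N : ℕ, 0 < N ∧ ∀ (c : α → ℕ) (x : α → C), ∃ b : C, ∀ j : α,
      ∏ π : Equiv.Perm α, x (π⁻¹ j) ^ ((Fintype.card α - 1) * c (π a)) =
        (x a ^ Fintype.card α * (∏ i, x i)⁻¹) ^ (N * c j) * b := by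
  obtain ⟨N, hN⟩ : ∃ N, N = (Finset.univ.filter (fun π : Equiv.Perm α => π a = a)).card := ⟨_, rfl⟩
  have hcard : ∀ i, (Finset.univ.filter (fun π : Equiv.Perm α => π a = i)).card = N := by
    intro i
    rw [hN]
    symm
    refine Finset.card_bij' (fun π _ => Equiv.swap a i * π) (fun π _ => Equiv.swap a i * π) ?_ ?_ ?_ ?_
    · intro π hπ
      rw [Finset.mem_filter] at hπ ⊢
      refine ⟨Finset.mem_univ _, ?_⟩
      rw [Equiv.Perm.mul_apply, hπ.2, Equiv.swap_apply_left]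
    · intro π hπ
      rw [Finset.mem_filter] at hπ ⊢
      refine ⟨Finset.mem_univ _, ?_⟩
      rw [Equiv.Perm.mul_apply, hπ.2, Equiv.swap_apply_right]
    · intro π _
      exact Equiv.swap_mul_self_mul a i π
    · intro π _
      exact Equiv.swap_mul_self_mul a i π
  refine ⟨N, ?_, fun c x => ?_⟩
  · rw [hN, Finset.card_pos]
    exact ⟨1, by rw [Finset.mem_filter]; exact ⟨Finset.mem_univ _, rfl⟩⟩
  have hd : 0 < Fintype.card α := Fintype.card_pos_iff.2 ⟨a⟩
  obtain ⟨D, hD⟩ : ∃ D, Fintype.card α = D + 1 := ⟨Fintype.card α - 1, by omega⟩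
  obtain ⟨X, hX⟩ : ∃ X : α → α → C, X = fun j i =>
      ∏ π ∈ Finset.univ.filter (fun π : Equiv.Perm α => π a = i), x (π⁻¹ j) := ⟨_, rfl⟩
  have hX' : ∀ j i, X j i = ∏ π ∈ Finset.univ.filter (fun π : Equiv.Perm α => π a = i), x (π⁻¹ j) := by
    intro j i
    rw [hX]
  -- (1)
  have h1 : ∀ i, X i i = x a ^ N := by
    intro i
    rw [hX', ← hcard i]
    apply Finset.prod_eq_pow_card
    intro π hπ
    rw [Finset.mem_filter] at hπ
    rw [← hπ.2, SY_inv]
  -- (2)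
  have h2 : ∀ i j j', i ≠ j → i ≠ j' → X j i = X j' i := by
    intro i j j' h h'
    obtain ⟨τ, hτ1, hτ2⟩ := SY_trans i j i j' h h'
    have h3 := SY_move a x τ i j
    rw [hτ1, hτ2] at h3
    rw [hX', hX', h3]
  -- (3)
  have h3 : ∀ i, ∏ j, X j i = (∏ j, x j) ^ N := by
    intro i
    have h4 : ∀ j, X j i = ∏ π ∈ Finset.univ.filter (fun π : Equiv.Perm α => π a = i), x (π⁻¹ j) := fun j => hX' j i
    rw [Finset.prod_congr rfl fun j _ => h4 j, Finset.prod_comm, ← hcard i]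
    apply Finset.prod_eq_pow_card
    intro π _
    exact Equiv.prod_comp (π⁻¹) x
  have h4 : ∀ i j, i ≠ j → X j i ^ D = (∏ j, x j) ^ N * (x a ^ N)⁻¹ := by
    intro i j hij
    rw [← h3 i, ← Finset.mul_prod_erase Finset.univ (fun j => X j i) (Finset.mem_univ i), h1, mul_comm, inv_mul_cancel_left]
    symm
    have h5 : (Finset.univ.erase i).card = D := by
      rw [Finset.card_erase_of_mem (Finset.mem_univ i), Finset.card_univ, hD, Nat.add_sub_cancel]
    rw [← h5]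
    apply Finset.prod_eq_pow_card
    intro j' hj'
    exact h2 i j' j (Finset.ne_of_mem_erase hj').symm hij
  refine ⟨∏ i, ((∏ j, x j) ^ N * (x a ^ N)⁻¹) ^ (c i), fun j => ?_⟩
  rw [hD, Nat.add_sub_cancel]
  have h5 : ∏ π : Equiv.Perm α, x (π⁻¹ j) ^ (D * c (π a)) = ∏ i, X j i ^ (D * c i) := by
    rw [← Finset.prod_fiberwise Finset.univ (fun π : Equiv.Perm α => π a)]
    refine Finset.prod_congr rfl fun i _ => ?_
    rw [hX', ← Finset.prod_pow]
    refine Finset.prod_congr rfl fun π hπ => ?_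
    rw [Finset.mem_filter] at hπ
    rw [hπ.2]
  rw [h5, ← Finset.mul_prod_erase Finset.univ (fun i => X j i ^ (D * c i)) (Finset.mem_univ j),
    ← Finset.mul_prod_erase Finset.univ (fun i => ((∏ j, x j) ^ N * (x a ^ N)⁻¹) ^ (c i)) (Finset.mem_univ j)]
  have h6 : ∏ i ∈ Finset.univ.erase j, X j i ^ (D * c i) =
      ∏ i ∈ Finset.univ.erase j, ((∏ j, x j) ^ N * (x a ^ N)⁻¹) ^ (c i) := by
    refine Finset.prod_congr rfl fun i hi => ?_
    rw [pow_mul, h4 i j (Finset.ne_of_mem_erase hi)]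
  rw [h6, ← mul_assoc]
  congr 1
  rw [h1, pow_mul, pow_mul, ← mul_pow]
  congr 1
  rw [mul_pow, inv_pow, ← pow_mul, ← pow_mul, mul_comm (D + 1) N, Nat.mul_add, mul_one, pow_add]
  generalize x a ^ (N * D) = u
  generalize x a ^ N = v
  generalize (∏ j, x j) ^ N = w
  group
/- END SY -/

end Pool.Agent.CGN
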