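import Pool.Agent.CGN.GalKz
import Pool.Agent.CGN.GalSym
import Pool.Agent.CGQ.GalKum

/-!
# The Kummer step in degree `d`
-/

noncomputable section

set_option linter.unusedSectionVars false

namespace Pool.Agent.CGN

open NumberField IsDedekindDomain Matrix Pool.Agent.CG2 Pool.Agent.CG2.GalFinAux
  Pool.Agent.CG2.GalInfAux Pool.Agent.CGQ

variable {F : Type} [Field F] [NumberField F] {L : Type} [Field L] [NumberField L] [Algebra F L]

/-- `e` is independent of `u` modulo `F`. -/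
def Indep (F : Type) [Field F] [NumberField F] {L : Type} [Field L] [NumberField L] [Algebra F L]
    (u e : (𝓞 L)ˣ) : Prop :=
  ∀ (a b : ℤ) (x : F), algebraMap F L x = (((e ^ a * u ^ b : (𝓞 L)ˣ) : 𝓞 L) : L) → a = 0

/- MODULE NU -/
/-- **NU**. The norm of a unit. PROOF. `s` is the image in `(𝓞 L)ˣ` of the unit `RingOfIntegers.norm F t`
of `𝓞 F` (`Units.map`), `x = Algebra.norm F (t : L)`; `Algebra.norm_eq_prod_embeddings F (Fbar F)`. -/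
theorem norm_unit [Algebra L (Fbar F)] [IsScalarTower F L (Fbar F)] (t : (𝓞 L)ˣ) :
    ∃ (s : (𝓞 L)ˣ) (x : F), algebraMap F L x = ((s : 𝓞 L) : L) ∧
      algebraMap L (Fbar F) ((s : 𝓞 L) : L) = ∏ j : L →ₐ[F] Fbar F, j ((t : 𝓞 L) : L) := by
  refine ⟨Units.map (algebraMap (𝓞 F) (𝓞 L) : 𝓞 F →* 𝓞 L) (Units.map (RingOfIntegers.norm F : 𝓞 L →* 𝓞 F) t),
    Algebra.norm F ((t : 𝓞 L) : L), ?_, ?_⟩
  · rfl
  · have h1 : ((((Units.map (algebraMap (𝓞 F) (𝓞 L) : 𝓞 F →* 𝓞 L) (Units.map (RingOfIntegers.norm F : 𝓞 L →* 𝓞 F) t) :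
        (𝓞 L)ˣ) : 𝓞 L)) : L) = algebraMap F L (Algebra.norm F ((t : 𝓞 L) : L)) := rfl
    rw [h1, ← IsScalarTower.algebraMap_apply, Algebra.norm_eq_prod_embeddings F (Fbar F)]
/- END NU -/

/- MODULE KL -/
/-- **KL**. The Kummer factor of a product of elements which are trivial on the conjugates of `L`
and on the roots of unity. PROOF. Induction on the list, `kz_mul`, `kz_one`. -/
theorem kz_list {n : ℕ} (hn : 0 < n) {y : Fbar F} (hy : y ≠ 0) (l : List (GalF F))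
    (hl : ∀ g ∈ l, TrivMu n g ∧ g y = y) :
    kz n y l.prod = (l.map (kz n y)).prod ∧ TrivMu n l.prod ∧ l.prod y = y := by
  induction l with
  | nil => exact ⟨kz_one hn hy, (HMu F n).one_mem, rfl⟩
  | cons g l ih =>
    obtain ⟨h1, h2, h3⟩ := ih fun x hx => hl x (List.mem_cons_of_mem _ hx)
    obtain ⟨h4, h5⟩ := hl g List.mem_cons_self
    rw [List.prod_cons, List.map_cons, List.prod_cons]
    refine ⟨?_, (HMu F n).mul_mem h4 h2, ?_⟩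
    · rw [kz_mul hn hy h4 h3, h1]
    · rw [AlgEquiv.mul_apply, h3, h5]
/- END KL -/

/- MODULE KU -/
private theorem KU_coe (s : (𝓞 L)ˣ) (k : ℤ) :
    (((s ^ k : (𝓞 L)ˣ) : 𝓞 L) : L) = ((s : 𝓞 L) : L) ^ k := by
  have h := congrArg (fun z : Lˣ => (z : L)) (map_zpow (Units.map (algebraMap (𝓞 L) L).toMonoidHom) s k)
  simp only [Units.val_zpow_eq_zpow_val] at h
  exact h

private theorem KU_coemul (s t : (𝓞 L)ˣ) :
    (((s * t : (𝓞 L)ˣ) : 𝓞 L) : L) = ((s : 𝓞 L) : L) * ((t : 𝓞 L) : L) := by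
  rw [Units.val_mul]
  exact map_mul (algebraMap (𝓞 L) L) _ _

private theorem KU_ind {u e : (𝓞 L)ˣ} (hind : Indep F u e) {d C : ℕ} (hd : 0 < d) (hC : 0 < C)
    {su se : (𝓞 L)ˣ} {xu xe : F} (hxu : algebraMap F L xu = ((su : 𝓞 L) : L))
    (hxe : algebraMap F L xe = ((se : 𝓞 L) : L)) (a b : ℤ)
    (hab : ((e ^ d * se⁻¹) ^ C) ^ a = (u ^ d * su⁻¹) ^ b) : a = 0 := by
  have h1 : e ^ ((d : ℤ) * C * a) * u ^ (-((d : ℤ) * b)) = se ^ ((C : ℤ) * a) * su ^ (-b) := by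
    have h3 : ((e ^ d * se⁻¹) ^ C) ^ a = e ^ ((d : ℤ) * C * a) * (se ^ ((C : ℤ) * a))⁻¹ := by
      rw [← zpow_natCast (e ^ d * se⁻¹) C, ← _root_.zpow_mul, mul_zpow, ← zpow_natCast e d,
        ← _root_.zpow_mul, _root_.inv_zpow, mul_assoc]
    have h4 : (u ^ d * su⁻¹) ^ b = u ^ ((d : ℤ) * b) * (su ^ b)⁻¹ := by
      rw [mul_zpow, ← zpow_natCast u d, ← _root_.zpow_mul, _root_.inv_zpow]
    rw [h3, h4, ← div_eq_mul_inv, ← div_eq_mul_inv, div_eq_div_iff_mul_eq_mul] at hab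
    rw [_root_.zpow_neg, _root_.zpow_neg, ← div_eq_mul_inv, ← div_eq_mul_inv,
      div_eq_div_iff_mul_eq_mul, hab, mul_comm]
  have h7 := hind ((d : ℤ) * C * a) (-((d : ℤ) * b)) (xe ^ ((C : ℤ) * a) * xu ^ (-b)) (by
    rw [h1, KU_coemul, KU_coe, KU_coe, map_mul, map_zpow₀, map_zpow₀, hxu, hxe])
  have hd' : (d : ℤ) ≠ 0 := by exact_mod_cast hd.ne'
  have hC' : (C : ℤ) ≠ 0 := by exact_mod_cast hC.ne'
  rcases mul_eq_zero.1 h7 with h8 | h8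
  · rcases mul_eq_zero.1 h8 with h9 | h9
    · exact absurd h9 hd'
    · exact absurd h9 hC'
  · exact h8

/-- powers of an element with large order modulo the factorial -/
private theorem KU_lt {G : Type} [Group G] {z : G} {N d : ℕ} (hz : z ^ (N * (d - 1).factorial) ≠ 1)
    {x y : ℕ} (hx : x < d) (hy : y < d) (h : z ^ (N * x) = z ^ (N * y)) : x = y := by
  have key : ∀ x y : ℕ, x < y → y < d → z ^ (N * x) ≠ z ^ (N * y) := by
    intro x y hxy hy h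
    have h1 : z ^ (N * (y - x)) = 1 := by
      have h2 : z ^ (N * y) = z ^ (N * x) * z ^ (N * (y - x)) := by
        rw [← pow_add, ← mul_add, Nat.add_sub_cancel' hxy.le]
      rw [← h] at h2
      exact (mul_eq_left.1 h2.symm)
    obtain ⟨w, hw⟩ := Nat.dvd_factorial (m := y - x) (n := d - 1) (by omega) (by omega)
    apply hz
    rw [hw, ← mul_assoc, pow_mul, h1, one_pow]
  rcases lt_trichotomy x y with h1 | h1 | h1
  · exact absurd h (key x y h1 hy)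
  · exact h1
  · exact absurd h.symm (key y x h1 hx)

/-- **KU**. The Kummer step in degree `d`: one automorphism which multiplies the roots of all conjugates
of `u` by the same factor and the roots of the conjugates of `e` by pairwise different factors.

PROOF. Make `L` a subfield of `Fbar F` (choose `j₀ : L →ₐ[F] Fbar F`, `let := j₀.toRingHom.toAlgebra`,
`IsScalarTower.of_algebraMap_eq`, see the beginning of the proof of `galois_unit` in CGQ/GalMain.lean).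
`d = Fintype.card (L →ₐ[F] Fbar F)`. `sym_prod` (for `α = (L →ₐ[F] Fbar F)`, `C = (Fbar F)ˣ`, `a = j₀`) gives
`N`. Let `c : (L →ₐ[F] Fbar F) → ℕ` be injective with values `< d` (`Fintype.equivFin`), `C = N * (d - 1)!`.
With `norm_unit`: `u' = u ^ d * s_u⁻¹`, `e' = e ^ d * s_e⁻¹`, units of `𝓞 L`. `(e' ^ C) ^ a = u' ^ b` implies
`e ^ (d C a) * u ^ (- d b) = s_e ^ (C a) * s_u ^ (- b)`, in `F`, so `d C a = 0`, `a = 0`.
`Pool.Agent.CGQ.kummer_step` for `ρ.prod (eact L)`, `B * (Nat.card (Equiv.Perm _))` and the units `u'`,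
`e' ^ C` gives `M, α, θ, σ` (`n = p ^ M`) with `ρ σ = 1`, `σ` trivial on the conjugates of `L` and on the `n`-th
roots of unity, `σ α = α`, `σ θ ≠ θ`. So (`kz_apply`) `kz n (j₀ u') σ = 1` and `kz n (j₀ (e' ^ C)) σ ≠ 1`. As
`j₀ u' = (j₀ u) ^ d * (∏ j, j u)⁻¹` this means (`kz_mul_left`, `kz_pow_left`, `kz_inv_left`, `kz_prod_left`)
`x a ^ d * (∏ x)⁻¹ = 1` for `x j = kz n (j u) σ`, and `(y a ^ d * (∏ y)⁻¹) ^ C ≠ 1` for `y j = kz n (j e) σ`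
(as elements of `(Fbar F)ˣ`, `Units.mk0 _ (kz_ne ..)`).
For every `π` choose `g π` with `ρ (g π) = 1`, `TrivMu n (g π)`, `eact L (g π) = π` (`hS M π`), and put
`σ₁ π = g π * σ * (g π)⁻¹`: in the kernel of `ρ`, in `HE L n`, and `kz n (j t) (σ₁ π) = kz n ((π⁻¹ j) t) σ` for
`t ≠ 0` in `L` (`kz_conj` for `y = (π⁻¹ j) t`; `g π` fixes the root of unity `kz n ((π⁻¹ j) t) σ`, see `kz_pow`).
`σ₀ = (Finset.univ.toList.map fun π => σ₁ π ^ ((d - 1) * c (π j₀))).prod`. `kz_list`, `kz_npow`: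
`kz n (j t) σ₀ = ∏ π, kz n ((π⁻¹ j) t) σ ^ ((d - 1) * c (π j₀))` (`Finset.prod_map_toList`).
By `sym_prod`: `kz n (j u) σ₀ = b`, and `kz n (j e) σ₀ = z ^ (N * c j) * b'`, `z = y a ^ d * (∏ y)⁻¹`. If the
last one were the same for `j` and `k`, `j ≠ k`, say `c j < c k`, then `z ^ (N * (c k - c j)) = 1`,
`c k - c j` divides `(d - 1)!`, so `z ^ C = 1`, contradiction. `0 < M` is in `kummer_step`. -/
theorem kummer {p : ℕ} (hp : p.Prime) {Δ : Type} [Group Δ] (ρ : GalF F →* Δ) {B : ℕ}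
    (hB : 0 < B) (hρ : ∀ s : GalF F, ρ s ^ B = 1)
    (hS : ∀ (M : ℕ) (π : Equiv.Perm (L →ₐ[F] Fbar F)), ∃ c : GalF F, ρ c = 1 ∧
      TrivMu (p ^ M) c ∧ eact L c = π)
    (u e : (𝓞 L)ˣ) (hind : Indep F u e) :
    ∃ (M : ℕ) (σ₀ : GalF F), 0 < M ∧ ρ σ₀ = 1 ∧ σ₀ ∈ HE L (p ^ M) ∧
      (∀ j k : L →ₐ[F] Fbar F, kz (p ^ M) (j ((u : 𝓞 L) : L)) σ₀ =
        kz (p ^ M) (k ((u : 𝓞 L) : L)) σ₀) ∧
      (∀ j k : L →ₐ[F] Fbar F, j ≠ k → kz (p ^ M) (j ((e : 𝓞 L) : L)) σ₀ ≠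
        kz (p ^ M) (k ((e : 𝓞 L) : L)) σ₀) := by
  classical
  obtain ⟨j₀⟩ : Nonempty (L →ₐ[F] Fbar F) := ⟨IsAlgClosed.lift⟩
  let : Algebra L (Fbar F) := j₀.toRingHom.toAlgebra
  have : IsScalarTower F L (Fbar F) := IsScalarTower.of_algebraMap_eq fun x => (j₀.commutes x).symm
  have halg : ∀ x : L, algebraMap L (Fbar F) x = j₀ x := fun x => rfl
  obtain ⟨N, hN, hsym⟩ := sym_prod (C := (Fbar F)ˣ) j₀
  obtain ⟨d, hd⟩ : ∃ d, d = Fintype.card (L →ₐ[F] Fbar F) := ⟨_, rfl⟩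
  have hd0 : 0 < d := by
    rw [hd]
    exact Fintype.card_pos_iff.2 ⟨j₀⟩
  rw [← hd] at hsym
  obtain ⟨su, xu, hxu, hsu⟩ := norm_unit (F := F) (L := L) u
  obtain ⟨se, xe, hxe, hse⟩ := norm_unit (F := F) (L := L) e
  obtain ⟨C, hC⟩ : ∃ C, C = N * (d - 1).factorial := ⟨_, rfl⟩
  have hC0 : 0 < C := by
    rw [hC]
    exact Nat.mul_pos hN (Nat.factorial_pos _)
  -- the exponent for the product
  have hρ' : ∀ s : GalF F, (ρ.prod (eact L)) s ^ (B * Nat.card (Equiv.Perm (L →ₐ[F] Fbar F))) = 1 := by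
    intro s
    apply Prod.ext
    · change ρ s ^ (B * _) = 1
      rw [pow_mul, hρ, one_pow]
    · change eact L s ^ (B * _) = 1
      rw [mul_comm, pow_mul, pow_card_eq_one', one_pow]
  obtain ⟨M, α, θ, σ, hM, hα, hθ, hσ, hσL, hσμ, hσα, hσθ, -⟩ := kummer_step hp (ρ.prod (eact L))
    (Nat.mul_pos hB Nat.card_pos) hρ' (u ^ d * su⁻¹) ((e ^ d * se⁻¹) ^ C)
    (KU_ind hind hd0 hC0 hxu hxe)
  obtain ⟨n, hn⟩ : ∃ n, n = p ^ M := ⟨_, rfl⟩
  have hn0 : 0 < n := by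
    rw [hn]
    exact pow_pos hp.pos M
  have hSn := hS M
  rw [← hn] at hα hθ hσμ hSn
  have hρσ : ρ σ = 1 := congrArg Prod.fst hσ
  have heσ : eact L σ = 1 := congrArg Prod.snd hσ
  have hfix : ∀ (j : L →ₐ[F] Fbar F) (x : L), σ (j x) = j x := (mem_eact_ker L).1 heσ
  have hne : ∀ (t : (𝓞 L)ˣ) (j : L →ₐ[F] Fbar F), j ((t : 𝓞 L) : L) ≠ 0 := by
    intro t j h
    have h1 : ((t : 𝓞 L) : L) ≠ 0 := RingOfIntegers.coe_ne_zero_iff.2 t.ne_zero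
    exact h1 ((map_eq_zero j).1 h)
  obtain ⟨X, hX⟩ : ∃ X : (𝓞 L)ˣ → (L →ₐ[F] Fbar F) → (Fbar F)ˣ, ∀ t j,
      ((X t j : (Fbar F)ˣ) : Fbar F) = kz n (j ((t : 𝓞 L) : L)) σ :=
    ⟨fun t j => Units.mk0 _ (kz_ne hn0 (hne t j) σ), fun t j => rfl⟩
  -- the Kummer factor of `t ^ d * s⁻¹`
  have hkz : ∀ (t s : (𝓞 L)ˣ), algebraMap L (Fbar F) ((s : 𝓞 L) : L) =
      ∏ j : L →ₐ[F] Fbar F, j ((t : 𝓞 L) : L) → kz n (j₀ (((t ^ d * s⁻¹ : (𝓞 L)ˣ) : 𝓞 L) : L)) σ =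
      ((X t j₀ ^ d * (∏ j, X t j)⁻¹ : (Fbar F)ˣ) : Fbar F) := by
    intro t s hs
    rw [halg] at hs
    have h1 : j₀ (((t ^ d * s⁻¹ : (𝓞 L)ˣ) : 𝓞 L) : L) =
        (j₀ ((t : 𝓞 L) : L)) ^ d * (∏ j : L →ₐ[F] Fbar F, j ((t : 𝓞 L) : L))⁻¹ := by
      have h2 := KU_coe s (-1)
      rw [_root_.zpow_neg_one, _root_.zpow_neg_one] at h2
      have h3 := KU_coe t (d : ℤ)
      rw [zpow_natCast, zpow_natCast] at h3
      rw [KU_coemul, h2, h3, map_mul, map_pow, map_inv₀, hs]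
    have h4 : (∏ j : L →ₐ[F] Fbar F, j ((t : 𝓞 L) : L)) ≠ 0 :=
      Finset.prod_ne_zero_iff.2 fun j _ => hne t j
    rw [h1, kz_mul_left hn0 (pow_ne_zero _ (hne t j₀)) (inv_ne_zero h4) hσμ,
      kz_pow_left hn0 (hne t j₀) hσμ, kz_inv_left hn0 h4 hσμ,
      kz_prod_left hn0 Finset.univ _ (hne t) hσμ, Units.val_mul, Units.val_pow_eq_pow_val,
      Units.val_inv_eq_inv_val, Units.coe_prod, hX]
    simp only [hX]
  have hXu : X u j₀ ^ d * (∏ j, X u j)⁻¹ = 1 := by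
    apply Units.ext
    rw [← hkz u su hsu, Units.val_one]
    have h1 := kz_apply hn0 (hne (u ^ d * su⁻¹) j₀) hσμ hα
    rw [hσα] at h1
    have h2 : α ≠ 0 := by
      rintro rfl
      rw [zero_pow hn0.ne'] at hα
      exact hne _ j₀ hα.symm
    exact (mul_eq_right₀ h2).1 h1.symm
  have hXe : (X e j₀ ^ d * (∏ j, X e j)⁻¹) ^ (N * (d - 1).factorial) ≠ 1 := by
    intro hcon
    rw [← hC] at hcon
    apply hσθ
    have h1 := kz_apply hn0 (hne ((e ^ d * se⁻¹) ^ C) j₀) hσμ hθ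
    have h2 : j₀ ((((e ^ d * se⁻¹) ^ C : (𝓞 L)ˣ) : 𝓞 L) : L) =
        (j₀ (((e ^ d * se⁻¹ : (𝓞 L)ˣ) : 𝓞 L) : L)) ^ C := by
      have h3 := KU_coe (e ^ d * se⁻¹) (C : ℤ)
      rw [zpow_natCast, zpow_natCast] at h3
      rw [h3, map_pow]
    rw [h2, kz_pow_left hn0 (hne _ j₀) hσμ, hkz e se hse, ← Units.val_pow_eq_pow_val, hcon,
      Units.val_one, one_mul] at h1
    exact h1
  -- the conjugates
  choose g hg1 hg2 hg3 using hSn
  have hs1ρ : ∀ π, ρ (g π * σ * (g π)⁻¹) = 1 := by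
    intro π
    rw [map_mul, map_mul, hρσ, map_inv, hg1, mul_one, mul_inv_cancel]
  have hs1μ : ∀ π, TrivMu n (g π * σ * (g π)⁻¹) := fun π =>
    (HMu F n).mul_mem ((HMu F n).mul_mem (hg2 π) hσμ) ((HMu F n).inv_mem (hg2 π))
  have hs1e : ∀ π, eact L (g π * σ * (g π)⁻¹) = 1 := by
    intro π
    rw [map_mul, map_mul, heσ, map_inv, mul_one, mul_inv_cancel]
  have hs1f : ∀ π (j : L →ₐ[F] Fbar F) (x : L), (g π * σ * (g π)⁻¹) (j x) = j x := fun π =>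
    (mem_eact_ker L).1 (hs1e π)
  have hs1k : ∀ π (t : (𝓞 L)ˣ) (j : L →ₐ[F] Fbar F),
      kz n (j ((t : 𝓞 L) : L)) (g π * σ * (g π)⁻¹) = ((X t (π⁻¹ j) : (Fbar F)ˣ) : Fbar F) := by
    intro π t j
    have h1 : g π ((π⁻¹ j) ((t : 𝓞 L) : L)) = j ((t : 𝓞 L) : L) := by
      rw [← eact_apply, hg3]
      exact congrArg (fun j : L →ₐ[F] Fbar F => j ((t : 𝓞 L) : L)) (π.apply_symm_apply j)
    rw [← h1, kz_conj hn0 (hne t (π⁻¹ j)) (g π) hσμ, hX]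
    exact hg2 π _ (kz_pow hn0 (hne t (π⁻¹ j)) (hfix _ _))
  obtain ⟨c, hc⟩ : ∃ c : (L →ₐ[F] Fbar F) → ℕ, Function.Injective c ∧ ∀ j, c j < d := by
    refine ⟨fun j => (Fintype.equivFin (L →ₐ[F] Fbar F) j : ℕ), fun j k hjk => ?_, fun j => ?_⟩
    · exact (Fintype.equivFin (L →ₐ[F] Fbar F)).injective (Fin.ext hjk)
    · rw [hd]
      exact (Fintype.equivFin (L →ₐ[F] Fbar F) j).2
  obtain ⟨σ₀, hσ₀⟩ : ∃ σ₀ : GalF F, σ₀ = ((Finset.univ : Finset (Equiv.Perm (L →ₐ[F] Fbar F))).toList.map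
      fun π => (g π * σ * (g π)⁻¹) ^ ((d - 1) * c (π j₀))).prod := ⟨_, rfl⟩
  have hlist : ∀ y : Fbar F, (∀ π, (g π * σ * (g π)⁻¹) y = y) →
      ∀ h ∈ ((Finset.univ : Finset (Equiv.Perm (L →ₐ[F] Fbar F))).toList.map
      fun π => (g π * σ * (g π)⁻¹) ^ ((d - 1) * c (π j₀))), TrivMu n h ∧ h y = y := by
    intro y hy h hh
    obtain ⟨π, -, rfl⟩ := List.mem_map.1 hh
    refine ⟨(HMu F n).pow_mem (hs1μ π) _, ?_⟩
    have h1 : ∀ k : ℕ, ((g π * σ * (g π)⁻¹) ^ k) y = y := by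
      intro k
      induction k with
      | zero => rfl
      | succ k ih => rw [pow_succ, AlgEquiv.mul_apply, hy, ih]
    exact h1 _
  have hlk : ∀ (t : (𝓞 L)ˣ) (j : L →ₐ[F] Fbar F), kz n (j ((t : 𝓞 L) : L)) σ₀ =
      ((∏ π : Equiv.Perm (L →ₐ[F] Fbar F), X t (π⁻¹ j) ^ ((d - 1) * c (π j₀)) : (Fbar F)ˣ) : Fbar F) := by
    intro t j
    have h1 := (kz_list hn0 (hne t j) _ (hlist (j ((t : 𝓞 L) : L)) (fun π => hs1f π j _))).1
    rw [← hσ₀] at h1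
    rw [h1, List.map_map, Units.coe_prod, ← Finset.prod_map_toList]
    congr 1
    refine List.map_congr_left fun π _ => ?_
    rw [Function.comp_apply, kz_npow hn0 (hne t j) (hs1μ π) (hs1f π j _), hs1k,
      Units.val_pow_eq_pow_val]
  obtain ⟨bu, hbu⟩ := hsym c (X u)
  obtain ⟨be, hbe⟩ := hsym c (X e)
  refine ⟨M, σ₀, hM, ?_, ?_, ?_, ?_⟩
  · rw [hσ₀, map_list_prod, List.map_map]
    refine List.prod_eq_one fun z hz => ?_
    obtain ⟨π, -, rfl⟩ := List.mem_map.1 hz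
    rw [Function.comp_apply, map_pow, hs1ρ, one_pow]
  · rw [mem_HE, ← hn]
    have h0 := hne u j₀
    refine ⟨fun j x => ?_, ?_⟩
    · by_cases hx : j x = 0
      · rw [hx, map_zero]
      · have h1 := (kz_list hn0 hx _ (hlist (j x) (fun π => hs1f π j x))).2.2
        rw [← hσ₀] at h1
        exact h1
    · have h1 := (kz_list hn0 h0 _ (hlist _ (fun π => hs1f π j₀ _))).2.1
      rw [← hσ₀] at h1
      exact h1
  · intro j k
    rw [← hn, hlk, hlk, hbu, hbu, hXu, one_pow, one_pow]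
  · intro j k hjk heq
    rw [← hn, hlk, hlk, hbe, hbe] at heq
    have h1 := mul_right_cancel (Units.ext heq)
    exact hjk (hc.1 (KU_lt hXe (hc.2 j) (hc.2 k) h1))
/- END KU -/

end Pool.Agent.CGN
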