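import Pool.Agent.CGN.GalCore
import Pool.Agent.CGN.GalKum
import Pool.Agent.CGN.GalGrp
import Pool.Agent.CGQ.GalLC

/-!
# The Galois side in degree `d`
-/

noncomputable section

set_option linter.unusedSectionVars false

namespace Pool.Agent.CGN

open NumberField IsDedekindDomain Matrix Pool.Agent.CG2 Pool.Agent.CG2.GalFinAux
  Pool.Agent.CG2.GalInfAux Pool.Agent.CGQ

variable {F : Type} [Field F] [NumberField F] {L : Type} [Field L] [NumberField L] [Algebra F L]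
  {κ : Type} [Field κ]

/- MODULE AR -/
private theorem AR_root {n : ℕ} (hn : 0 < n) {x : GalF F} (hx : x ∈ HE L n) {t : L}
    (ht : t ≠ 0) : x ^ n ∈ HR F n t := by
  rw [mem_HR]
  intro j y hy
  have hjt : j t ≠ 0 := (map_ne_zero j).2 ht
  obtain ⟨h1, h2⟩ := (mem_HE L).1 hx
  refine (kz_eq_one_iff hn hjt ((HMu F n).pow_mem h2 n)).1 ?_ y hy
  rw [kz_npow hn hjt h2 (h1 j t), kz_pow hn hjt (h1 j t)]

private theorem AR_unit (u : (𝓞 L)ˣ) : ((u : 𝓞 L) : L) ≠ 0 := by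
  intro h
  exact u.ne_zero (RingOfIntegers.coe_eq_zero_iff.1 h)

/-- **AR**. The case of arithmetic Frobenius elements.

PROOF. (Compare `galois_arith` in CGQ/GalArith.lean.) Let `B = Nat.card ρ.range`, `M, σ₀` from `kummer`,
`n = p ^ M`. Apply `hasSub_final` with `G₀ = HMu F n`, `H₁ = HE L n`, `H₂ = HN F n u e`, `C = (ZMod n)ˣ`, `f` from
`exists_cyc`. `hH2` is `core_scalar`. `hH1`: for `y ∈ G₀` take `c` from `hS` for the permutation
`(eact L y)⁻¹`: `c * y ∈ HE L n`. `hpow`: for `x ∈ HE L n` and a root `y` of `j t` (`t ≠ 0`):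
`kz n (j t) (x ^ n) = kz n (j t) x ^ n = 1` (`kz_npow`, `kz_pow`, `kz_eq_one_iff`). `hC1`, `hC2` as in
`galois_arith`. -/
theorem galois_arith [IsAlgClosed κ] {p d : ℕ} (hp : p.Prime) [CharP κ p] (hd : 2 ≤ d)
    (hL : Module.finrank F L = d)
    (ρ : GalF F →* GL (Fin d) κ) (hρ : IsOpen (ρ.ker : Set (GalF F))) (u e : (𝓞 L)ˣ)
    (hind : Indep F u e) {S : Set (Pl L)} (hS : S.Finite)
    (χ : Pl L → κ) (hχ : IsRay S χ) {T : Set (Pl F)} (hT : T.Finite)
    (hH : HypN 1 p ρ u e χ T)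
    (hSur : ∀ (M : ℕ) (π : Equiv.Perm (L →ₐ[F] Fbar F)), ∃ c : GalF F, ρ c = 1 ∧
      TrivMu (p ^ M) c ∧ eact L c = π) : HasSub ρ := by
  classical
  have hfinQ : Finite (GalF F ⧸ ρ.ker) := Subgroup.quotient_finite_of_isOpen ρ.ker hρ
  have hfin : Finite ρ.range :=
    Finite.of_equiv _ (QuotientGroup.quotientKerEquivRange ρ).toEquiv
  have hB : 0 < Nat.card ρ.range := Nat.card_pos
  have hρB : ∀ s : GalF F, ρ s ^ Nat.card ρ.range = 1 := by
    intro s
    have h1 : (⟨ρ s, s, rfl⟩ : ρ.range) ^ Nat.card ρ.range = 1 := pow_card_eq_one'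
    exact congrArg Subtype.val h1
  obtain ⟨M, σ₀, hM, hσ₀, hσE, hσu, hσe⟩ := kummer hp ρ hB hρB hSur u e hind
  have hn : 0 < p ^ M := pow_pos hp.pos M
  have : NeZero (p ^ M) := ⟨hn.ne'⟩
  obtain ⟨f, hf⟩ := exists_cyc F (p ^ M) hn
  refine hasSub_final (M := M) hp hd ρ (HMu F (p ^ M)) (HE L (p ^ M))
    (HN F (p ^ M) ((u : 𝓞 L) : L) ((e : 𝓞 L) : L)) ?_ ?_ ?_ f
    (fun g hg => (hf g).1 hg) ?_ ?_
  · intro x hx m hpm hxm
    exact core_scalar hp hpm hd hL hρ hS hχ hT hH hσ₀ hσE hσu hσe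
      (fun π => by
        obtain ⟨c, h1, _, h3⟩ := hSur M π
        exact ⟨c, h1, h3⟩) hx hxm
  · intro y hy
    obtain ⟨c, hc, hcμ, hcE⟩ := hSur M (eact L y)⁻¹
    refine ⟨c, hc, ?_⟩
    rw [HE, Subgroup.mem_inf]
    refine ⟨?_, (HMu F (p ^ M)).mul_mem hcμ hy⟩
    rw [MonoidHom.mem_ker, map_mul, hcE, inv_mul_cancel]
  · intro x hx
    rw [mem_HN]
    exact ⟨(HE L (p ^ M)).pow_mem hx _, AR_root hn hx (AR_unit u), AR_root hn hx (AR_unit e)⟩
  · intro hp2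
    exact ZMod.isCyclic_units_of_prime_pow p hp hp2 M
  · intro hp2
    subst hp2
    refine ⟨M - 1, fun x => ?_⟩
    have h1 : Fintype.card (ZMod (2 ^ M))ˣ = 2 ^ (M - 1) := by
      rw [ZMod.card_units_eq_totient, Nat.totient_prime_pow Nat.prime_two hM]
      simp
    rw [← h1]
    exact pow_card_eq_one
/- END AR -/

/- MODULE GU -/
/-- **GU**. The Galois side of the unit trick, arithmetic or geometric Frobenius elements.

PROOF. `ε = 1`: `galois_arith`. `ε = -1`: `galois_arith` for the contragredient representation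
`dualRep ρ` (`dualRep_ker`): `dualRep ρ g = (ρ g⁻¹)ᵀ` has the characteristic polynomial of `ρ g⁻¹`
(`Matrix.charpoly_transpose`), so `HypN (-1) p ρ .. ` is `HypN 1 p (dualRep ρ) ..`. `hasSub_of_dual`. -/
theorem galois_unit [IsAlgClosed κ] {p d : ℕ} (hp : p.Prime) [CharP κ p] (hd : 2 ≤ d)
    (hL : Module.finrank F L = d)
    (ρ : GalF F →* GL (Fin d) κ) (hρ : IsOpen (ρ.ker : Set (GalF F))) (ε : ℤˣ) (u e : (𝓞 L)ˣ)
    (hind : Indep F u e) {S : Set (Pl L)} (hS : S.Finite)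
    (χ : Pl L → κ) (hχ : IsRay S χ) {T : Set (Pl F)} (hT : T.Finite)
    (hH : HypN ε p ρ u e χ T)
    (hSur : ∀ (M : ℕ) (π : Equiv.Perm (L →ₐ[F] Fbar F)), ∃ c : GalF F, ρ c = 1 ∧
      TrivMu (p ^ M) c ∧ eact L c = π) : HasSub ρ := by
  rcases Int.units_eq_one_or ε with rfl | rfl
  · exact galois_arith hp hd hL ρ hρ u e hind hS χ hχ hT hH hSur
  · apply hasSub_of_dual
    refine galois_arith hp hd hL (dualRep ρ) ?_ u e hind hS χ hχ hT ?_ ?_
    · rw [dualRep_ker]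
      exact hρ
    · intro v hv hN r hr hinj W hW M hM h1 h2 Q hQ g hg
      have h3 := hH v hv hN r hr hinj W hW M hM h1 h2 Q hQ g hg
      rw [coe_dualRep, Matrix.charpoly_transpose, ← h3]
      congr 3
    · intro M π
      obtain ⟨c, hc, hcμ, hcE⟩ := hSur M π
      refine ⟨c, ?_, hcμ, hcE⟩
      have h4 : c ∈ (dualRep ρ).ker := by
        rw [dualRep_ker]
        exact hc
      exact h4
/- END GU -/

end Pool.Agent.CGN
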