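import Pool.Agent.CGN.IDefs
import Pool.Agent.CGN.GalArith

/-!
# The Galois side: the final statements
-/

noncomputable section

set_option linter.unusedSectionVars false

namespace Pool.Agent.CGN

open NumberField IsDedekindDomain Matrix Pool.Agent.CG2 Pool.Agent.CG2.GalFinAux
  Pool.Agent.CG2.GalInfAux Pool.Agent.CGQ

variable {F : Type} [Field F] [NumberField F] {L : Type} [Field L] [NumberField L] [Algebra F L]

/- MODULE TR -/
/-- **TR** (1). At most `[L : F]` places of `L` lie over `v`.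

PROOF. `Ideal.sum_ramification_inertia` (all terms are positive). -/
theorem abv_card_le (v : Pl F) : (abv L v).card ≤ Module.finrank F L := by
  classical
  have hmax : v.asIdeal.IsMaximal := v.isMaximal
  have h1 : (IsDedekindDomain.primesOverFinset v.asIdeal (𝓞 L)).card ≤
      Module.finrank F L := by
    rw [← Ideal.sum_ramification_inertia (𝓞 L) F L (p := v.asIdeal) v.ne_bot,
      Finset.card_eq_sum_ones]
    refine Finset.sum_le_sum fun P hP => ?_
    have e1 : P.IsPrime := ((IsDedekindDomain.mem_primesOverFinset_iff v.ne_bot _).1 hP).1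
    have e2 : P.LiesOver v.asIdeal :=
      ((IsDedekindDomain.mem_primesOverFinset_iff v.ne_bot _).1 hP).2
    refine Right.one_le_mul ?_ ?_
    · exact Nat.pos_iff_ne_zero.mpr
        (Ideal.IsDedekindDomain.ramificationIdx'_ne_zero_of_liesOver _ v.ne_bot)
    · exact Nat.pos_iff_ne_zero.mpr (Ideal.inertiaDeg'_ne_zero v.asIdeal P)
  refine le_trans ?_ h1
  refine Finset.card_le_card_of_injOn (fun w => w.asIdeal) ?_ ?_
  · intro w hw
    rw [Finset.mem_coe, mem_abv] at hw
    have h2 : Lies w v := GalFinAux.lies_iff.2 hw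
    exact (IsDedekindDomain.mem_primesOverFinset_iff v.ne_bot (𝓞 L)).2
      ⟨w.isPrime, liesOver_of_lies h2⟩
  · intro w _ w' _ h
    exact HeightOneSpectrum.ext h

/-- **TR** (2). The hypothesis in the form of `HypN`.

PROOF. Let `v, r, W, M` be as in `HypN`. `r i` is surjective (already on `𝓞 F`), `below F (W i) = v`
(`W i` is the kernel of `r i`), and `W` is injective (`r i` is determined by its kernel: for `x : 𝓞 L` choose
`a : 𝓞 F` with `r i x = mk a`, then `x - a ∈ W i = W j`, so `r j x = mk a`). So the `n` places `W i` are all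
of `abv L v` (`abv_card_le`), `Split L v`. `PPow v m (W i) (W j) u` means `r i u = y ^ m * r j u` for some
`y`. The product over `abv L v` is the product over `i` (`Finset.prod_image`, `Finset.image W univ = abv L v`). -/
theorem hypN_of_hypE {n : ℕ} {κ : Type} [Field κ] {ε : ℤˣ} {p : ℕ}
    {ρ : GalF F →* GL (Fin n) κ} (hn : 2 ≤ n) (hL : Module.finrank F L = n) {u e : (𝓞 L)ˣ}
    {χ : Pl L → κ} {T : Set (Pl F)} (h : HypE ε p ρ u e χ T) : HypN ε p ρ u e χ T := by
  classical
  intro v hv _ r hr hinj W hW M hM hu he Q hQ g hg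
  have hsurj : ∀ (i : Fin n) (x : 𝓞 L), ∃ a : 𝓞 F, r i x = Ideal.Quotient.mk _ a := by
    intro i x
    obtain ⟨a, ha⟩ := Ideal.Quotient.mk_surjective (r i x)
    exact ⟨a, ha.symm⟩
  have hmem : ∀ (i : Fin n) (x : 𝓞 L) (a : 𝓞 F), r i x = Ideal.Quotient.mk _ a ↔
      algebraMap (𝓞 F) (𝓞 L) a - x ∈ (W i).asIdeal := by
    intro i x a
    rw [hW, RingHom.mem_ker, map_sub, hr, sub_eq_zero]
    exact eq_comm
  have hbel : ∀ i, below F (W i) = v := by
    intro i
    apply HeightOneSpectrum.ext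
    ext x
    change algebraMap (𝓞 F) (𝓞 L) x ∈ (W i).asIdeal ↔ x ∈ v.asIdeal
    rw [hW, RingHom.mem_ker, hr, Ideal.Quotient.eq_zero_iff_mem]
  have hWinj : Function.Injective W := by
    intro i j h
    apply hinj
    apply RingHom.ext
    intro x
    obtain ⟨a, ha⟩ := hsurj i x
    have h1 := (hmem i x a).1 ha
    rw [h] at h1
    rw [ha, ((hmem j x a).2 h1)]
  have himg : Finset.univ.image W = abv L v := by
    apply Finset.eq_of_subset_of_card_le
    · intro w hw
      obtain ⟨i, -, rfl⟩ := Finset.mem_image.1 hw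
      exact mem_abv.2 (hbel i)
    · rw [Finset.card_image_of_injective _ hWinj, Finset.card_univ, Fintype.card_fin, ← hL]
      exact abv_card_le v
  have hpp : ∀ (t : 𝓞 L) (i j : Fin n), PPow v (p ^ M) (W i) (W j) t ↔
      ∃ y, r i t = y ^ (p ^ M) * r j t := by
    intro t i j
    constructor
    · rintro ⟨a, b, x, h1, h2, h3⟩
      refine ⟨Ideal.Quotient.mk _ x, ?_⟩
      rw [(hmem i t a).2 h1, (hmem j t b).2 h2, ← map_pow, ← map_mul, Ideal.Quotient.eq]
      exact h3
    · rintro ⟨y, hy⟩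
      obtain ⟨x, rfl⟩ := Ideal.Quotient.mk_surjective y
      obtain ⟨a, ha⟩ := hsurj i t
      obtain ⟨b, hb⟩ := hsurj j t
      refine ⟨a, b, x, (hmem i t a).1 ha, (hmem j t b).1 hb, ?_⟩
      rw [ha, hb, ← map_pow, ← map_mul, Ideal.Quotient.eq] at hy
      exact hy
  have hex : ∀ w ∈ abv L v, ∃ i, W i = w := by
    intro w hw
    rw [← himg, Finset.mem_image] at hw
    obtain ⟨i, -, h1⟩ := hw
    exact ⟨i, h1⟩
  have hsel : Sel L u e (p ^ M) v := by
    refine ⟨?_, ?_, ?_⟩
    · rw [Split, ← himg, Finset.card_image_of_injective _ hWinj, Finset.card_univ,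
        Fintype.card_fin, hL]
    · intro w hw w' hw'
      obtain ⟨i, rfl⟩ := hex w hw
      obtain ⟨j, rfl⟩ := hex w' hw'
      exact (hpp _ i j).2 (hu i j)
    · intro w hw w' hw' hne
      obtain ⟨i, rfl⟩ := hex w hw
      obtain ⟨j, rfl⟩ := hex w' hw'
      rw [hpp]
      exact he i j fun h1 => hne (by rw [h1])
  have hM0 : 0 < M := by
    by_contra hM0
    have hM1 : M = 0 := by omega
    subst hM1
    have hne : (⟨0, by omega⟩ : Fin n) ≠ ⟨1, by omega⟩ := by
      intro h1
      have h2 := congrArg Fin.val h1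
      exact absurd h2 (by norm_num)
    apply he _ _ hne
    refine ⟨r ⟨0, by omega⟩ (e : 𝓞 L) * r ⟨1, by omega⟩ ((e⁻¹ : (𝓞 L)ˣ) : 𝓞 L), ?_⟩
    rw [pow_zero, pow_one, mul_assoc, ← map_mul, Units.inv_mul, map_one, mul_one]
  rw [h v hv M hM0 hM hsel Q hQ g hg, ← himg, Finset.prod_image fun i _ j _ h1 => hWinj h1]
/- END TR -/

/- MODULE GT -/
/-- **GT**. The surjectivity from the transposition in the inertia group.

PROOF. `K = ρ.ker ⊓ HMu F (p ^ M)` is normal in `GalF F`; the inertia element `g` of `tr` is in `K`: `ρ g = 1`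
by `hρ`, and for `z ^ (p ^ M) = 1` the root of unity `g z / z` is congruent to `1` modulo `Q` (`hg`), so it
is `1` (`root_one`, CGQ/GalPR.lean; `p ^ M ∉ Q` by `comap_prime_eq`). `X = K.map (eact L)` is normal
because `eact L` is surjective (`sn`), and it contains `eact L g = swap j₁ j₂`, so all transpositions
(`Equiv.Perm.isConj_swap`), so everything (`Equiv.Perm.closure_isSwap` or `swap_induction_on`). -/
theorem surj_of_tr {n : ℕ} {L : Type} [Field L] [NumberField L] [Algebra F L] {k : Type} [Field k]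
    {p : ℕ} (hp : p.Prime) (ρ : GalF F →* GL (Fin n) k) {v₃ : Pl F}
    (hv : ((p : ℕ) : 𝓞 F) ∉ v₃.asIdeal)
    (hρ : ∀ Q : Ideal (Zbar F), Over v₃ Q → ∀ g : GalF F, IsInertia Q g → ρ g = 1)
    (sn : ∀ π : Equiv.Perm (L →ₐ[F] Fbar F), ∃ g : GalF F, ActsAs g π)
    (tr : ∃ (Q : Ideal (Zbar F)) (g : GalF F) (j₁ j₂ : L →ₐ[F] Fbar F), Over v₃ Q ∧
      IsInertia Q g ∧ j₁ ≠ j₂ ∧ (∀ x, g (j₁ x) = j₂ x) ∧ (∀ x, g (j₂ x) = j₁ x) ∧
      ∀ j : L →ₐ[F] Fbar F, j ≠ j₁ → j ≠ j₂ → ∀ x, g (j x) = j x) (M : ℕ)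
    (π : Equiv.Perm (L →ₐ[F] Fbar F)) :
    ∃ g : GalF F, ρ g = 1 ∧ (∀ z : Fbar F, z ^ (p ^ M) = 1 → g z = z) ∧ ActsAs g π := by
  classical
  have hact : ∀ (g : GalF F) (π : Equiv.Perm (L →ₐ[F] Fbar F)), ActsAs g π ↔ eact L g = π := by
    intro g π
    constructor
    · intro h
      apply Equiv.ext
      intro j
      apply AlgHom.ext
      intro x
      exact h j x
    · rintro rfl j x
      rfl
  obtain ⟨Q, g, j₁, j₂, hQ, hg, hne, h1, h2, h3⟩ := tr
  have hQp : Q.IsPrime := hQ.1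
  have hMn : (HMu F (p ^ M)).Normal := by
    refine ⟨fun g hg x z hz => ?_⟩
    have hz' : (x⁻¹ z) ^ (p ^ M) = 1 := by rw [← map_pow, hz, map_one]
    change x (g (x⁻¹ z)) = z
    rw [hg _ hz']
    exact x.apply_symm_apply z
  set K : Subgroup (GalF F) := ρ.ker ⊓ HMu F (p ^ M) with hK
  have hKn : K.Normal := Subgroup.normal_inf_normal _ _
  have hgK : g ∈ K := by
    refine ⟨hρ Q hQ g hg, fun z hz => ?_⟩
    have hpM : 0 < p ^ M := pow_pos hp.pos M
    have hzi : IsIntegral ℤ z := by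
      apply IsIntegral.of_pow hpM
      rw [hz]
      exact isIntegral_one
    have hgz : (g z) ^ (p ^ M) = 1 := by rw [← map_pow, hz, map_one]
    have hgzi : IsIntegral ℤ (g z) := by
      apply IsIntegral.of_pow hpM
      rw [hgz]
      exact isIntegral_one
    set z' : Zbar F := ⟨z, hzi⟩ with hz'
    set y' : Zbar F := ⟨g z, hgzi⟩ with hy'
    have e1 : y' - z' ∈ Q := hg z' y' rfl
    have e2 : z' ^ (p ^ M) = 1 := Subtype.ext hz
    have e3 : y' ^ (p ^ M) = 1 := Subtype.ext hgz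
    have e4 : z' ^ (p ^ M - 1) * z' = 1 := by
      rw [← pow_succ, Nat.sub_add_cancel hpM, e2]
    have e5 : z' ^ (p ^ M - 1) * y' - 1 ∈ Q := by
      have := Q.mul_mem_left (z' ^ (p ^ M - 1)) e1
      rwa [mul_sub, e4] at this
    have e6 : (z' ^ (p ^ M - 1) * y') ^ (p ^ M) = 1 := by
      rw [mul_pow, e3, mul_one, ← pow_mul, mul_comm, pow_mul, e2, one_pow]
    have hpQ : (((p ^ M : ℕ) : ℕ) : Zbar F) ∉ Q := by
      intro h
      rw [Nat.cast_pow] at h
      apply hv
      rw [← comap_prime_eq hQ, Ideal.mem_comap, map_natCast]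
      exact hQp.mem_of_pow_mem _ h
    have e7 := root_one hpQ e6 e5
    have e8 : y' = z' := by
      have : z' * (z' ^ (p ^ M - 1) * y') = z' * 1 := by rw [e7]
      rw [← mul_assoc, mul_comm z', e4, one_mul, mul_one] at this
      exact this
    exact congrArg Subtype.val e8
  set X : Subgroup (Equiv.Perm (L →ₐ[F] Fbar F)) := K.map (eact L) with hX
  have hXn : X.Normal := hKn.map (eact L) (fun π => by
    obtain ⟨g, hg⟩ := sn π
    exact ⟨g, (hact g π).1 hg⟩)
  have hsw : Equiv.swap j₁ j₂ ∈ X := by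
    refine ⟨g, hgK, ?_⟩
    rw [← hact]
    intro j x
    by_cases e1 : j = j₁
    · rw [e1, Equiv.swap_apply_left]
      exact h1 x
    · by_cases e2 : j = j₂
      · rw [e2, Equiv.swap_apply_right]
        exact h2 x
      · rw [Equiv.swap_apply_of_ne_of_ne e1 e2]
        exact h3 j e1 e2 x
  have htop : π ∈ X := by
    induction π using Equiv.Perm.swap_induction_on with
    | one => exact X.one_mem
    | swap_mul f x y hxy ih =>
      refine X.mul_mem ?_ ih
      obtain ⟨c, hc⟩ := isConj_iff.1 (Equiv.Perm.isConj_swap hne hxy)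
      rw [← hc]
      exact hXn.conj_mem _ hsw c
  obtain ⟨c, hc, hc'⟩ := htop
  exact ⟨c, hc.1, hc.2, (hact c π).2 hc'⟩
/- END GT -/

/- MODULE GM -/
theorem rhobar_eq_one {n : ℕ} {k : Type} [Field k] (ρ : GalF F →* GL (Fin n) k) (g : GalF F) :
    rhobar ρ g = 1 ↔ ρ g = 1 := by
  constructor
  · intro h
    apply Units.ext
    ext i j
    have h1 := congrArg (fun A : GL (Fin n) (AlgebraicClosure k) =>
      (A : Matrix (Fin n) (Fin n) (AlgebraicClosure k)) i j) h
    change algebraMap k (AlgebraicClosure k) ((ρ g : Matrix (Fin n) (Fin n) k) i j) =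
      (1 : Matrix (Fin n) (Fin n) (AlgebraicClosure k)) i j at h1
    rw [Matrix.one_apply] at h1
    change (ρ g : Matrix (Fin n) (Fin n) k) i j = (1 : Matrix (Fin n) (Fin n) k) i j
    rw [Matrix.one_apply]
    apply (algebraMap k (AlgebraicClosure k)).injective
    rw [h1]
    split_ifs <;> simp
  · intro h
    change GeneralLinearGroup.map _ (ρ g) = 1
    rw [h, map_one]

/-- **G. The Galois side.** -/
theorem galois_main {n : ℕ} (hn : 2 ≤ n) {L : Type} [Field L] [NumberField L] [Algebra F L]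
    {k : Type} [Field k] {p : ℕ} (hp : p.Prime) [CharP k p] (hL : Module.finrank F L = n)
    (ρ : GalF F →* GL (Fin n) k) (hρ : IsOpen (ρ.ker : Set (GalF F))) (ε : ℤˣ) (u e : (𝓞 L)ˣ)
    (hind : ∀ (a b : ℤ) (f : F),
      ((e : 𝓞 L) : L) ^ a = ((u : 𝓞 L) : L) ^ b * algebraMap F L f → a = 0)
    {SL : Set (Pl L)} (hSL : SL.Finite) (χ : Pl L → AlgebraicClosure k) (hχ : IsRay SL χ)
    {T : Set (Pl F)} (hT : T.Finite) (hH : HypE ε p (rhobar ρ) u e χ T)
    (hsurj : ∀ (M : ℕ) (π : Equiv.Perm (L →ₐ[F] Fbar F)), ∃ g : GalF F, ρ g = 1 ∧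
      (∀ z : Fbar F, z ^ (p ^ M) = 1 → g z = z) ∧ ActsAs g π) : ¬ NonEis ρ := by
  have hchar : CharP (AlgebraicClosure k) p :=
    charP_of_injective_algebraMap (algebraMap k (AlgebraicClosure k)).injective p
  have hker : (rhobar ρ).ker = ρ.ker := by
    ext g
    rw [MonoidHom.mem_ker, MonoidHom.mem_ker, rhobar_eq_one]
  have hsub : HasSub (rhobar ρ) := by
    refine galois_unit hp hn hL (rhobar ρ) (by rw [hker]; exact hρ) ε u e ?_ hSL χ hχ hT
      (hypN_of_hypE hn hL hH) ?_
    · intro a b x hx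
      have hu0 : ((u : 𝓞 L) : L) ≠ 0 := RingOfIntegers.coe_ne_zero_iff.2 u.ne_zero
      have he0 : ((e : 𝓞 L) : L) ≠ 0 := RingOfIntegers.coe_ne_zero_iff.2 e.ne_zero
      apply hind a (-b) x
      have hz : ∀ (t : (𝓞 L)ˣ) (m : ℤ), (((t ^ m : (𝓞 L)ˣ) : 𝓞 L) : L) = ((t : 𝓞 L) : L) ^ m := by
        intro t m
        have h1 := map_zpow (Units.map (algebraMap (𝓞 L) L : 𝓞 L →* L)) t m
        have h2 := congrArg (Units.val) h1
        rw [Units.val_zpow_eq_zpow_val] at h2
        exact h2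
      have hm : (((e ^ a * u ^ b : (𝓞 L)ˣ) : 𝓞 L) : L) =
          (((e ^ a : (𝓞 L)ˣ) : 𝓞 L) : L) * (((u ^ b : (𝓞 L)ˣ) : 𝓞 L) : L) :=
        congrArg Units.val (map_mul (Units.map (algebraMap (𝓞 L) L : 𝓞 L →* L)) (e ^ a) (u ^ b))
      rw [hx, hm, hz, hz, _root_.zpow_neg, mul_comm (((e : 𝓞 L) : L) ^ a), inv_mul_cancel_left₀]
      exact zpow_ne_zero _ hu0
    · intro M π
      obtain ⟨g, h1, h2, h3⟩ := hsurj M π
      refine ⟨g, (rhobar_eq_one ρ g).2 h1, h2, ?_⟩
      apply Equiv.ext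
      intro j
      apply AlgHom.ext
      intro x
      exact h3 j x
  intro hNE
  obtain ⟨k', V, hfd, h1, h2, h3⟩ := exists_finite_sub ρ hsub
  rcases hNE k' hfd V h3 with h | h
  · exact h1 h
  · exact h2 h
/- END GM -/

/- MODULE UR -/
/-- **UR.** A homomorphism with open kernel is ramified at finitely many places only. -/
theorem finite_ram {M : Type} [Group M] (ω : GalF F →* M)
    (hω : IsOpen (ω.ker : Set (GalF F))) :
    {v : Pl F | ∃ Q : Ideal (Zbar F), Over v Q ∧ ∃ g : GalF F, IsInertia Q g ∧ ω g ≠ 1}.Finite := by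
  obtain ⟨hfd, hgal, hfix, hmem⟩ := fixedField_open ω.ker hω
  set N : IntermediateField F (Fbar F) := IntermediateField.fixedField ω.ker with hN
  have hNF : NumberField N :=
    { to_charZero := inferInstance
      to_finiteDimensional := FiniteDimensional.trans ℚ F N }
  have hnor : Normal F N := inferInstance
  refine (unram_cofinite F N).subset ?_
  rintro v ⟨Q, hQ, g, hg, hne⟩ hun
  apply hne
  have hQp : Q.IsPrime := hQ.1
  have hcomap : (Q.comap (inc F N)).comap (algebraMap (𝓞 F) (𝓞 N)) = v.asIdeal := by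
    rw [← comap_prime_eq hQ, Ideal.comap_comap]
    congr 1
  let P : Pl N :=
    { asIdeal := Q.comap (inc F N)
      isPrime := inferInstance
      ne_bot := by
        intro h
        rw [h] at hcomap
        apply v.ne_bot
        rw [← hcomap]
        ext x
        rw [Ideal.mem_comap, Ideal.mem_bot, Ideal.mem_bot]
        exact map_eq_zero_iff _ (FaithfulSMul.algebraMap_injective _ _) }
  have h1 : AlgEquiv.restrictNormalHom N g = 1 := by
    apply hun P hcomap
    intro x
    change _ ∈ Q.comap (inc F N)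
    rw [Ideal.mem_comap, map_sub, inc_smul]
    exact (isInertia_iff Q g).1 hg _
  rw [ker_restrict, hfix] at h1
  exact h1
/- END UR -/

end Pool.Agent.CGN
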