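import Pool.Agent.CGN.KMain

/-!
# The results of part K in the form used in the assembly
-/

noncomputable section

set_option linter.unusedVariables false

namespace Pool.Agent.CGN

open NumberField IsDedekindDomain Pool.Agent.CGQ
open Pool.Agent.CG2 (Pl Fv Ov GQ GZ)

variable {F : Type} [Field F] [NumberField F]

/-- At the places which do not divide `N` the group `KNA A N` contains `BZ A v`. -/
theorem single_mem_KNA (A : AD F) {N : ℕ} (hN : N ≠ 0) (v : Pl F)
    (hv : ((N : ℕ) : 𝓞 F) ∉ v.asIdeal) (k : (DV A v)ˣ) (hk : k ∈ BZ A v) :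
    (single v k : (sysA A).A) ∈ KNA A N := by
  intro w
  by_cases h : w = v
  · subst h
    have h1 : gv (single w k : (sysA A).A) w = k := single_same _ _
    rw [h1]
    refine ⟨hk, ?_⟩
    have h2 : Valued.v ((N : ℕ) : Fv w) = 1 := by
      have h3 : Valued.v ((((N : ℕ) : F) : F) : Fv w) = w.valuation F ((N : ℕ) : F) :=
        HeightOneSpectrum.valuedAdicCompletion_eq_valuation' w _
      have h4 : ((((N : ℕ) : F) : F) : Fv w) = ((N : ℕ) : Fv w) :=
        map_natCast (algebraMap F (Fv w)) N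
      rw [← h4, h3]
      have h5 : ((N : ℕ) : F) = algebraMap (𝓞 F) F ((N : ℕ) : 𝓞 F) := (map_natCast _ N).symm
      rw [h5, HeightOneSpectrum.valuation_of_algebraMap]
      exact w.intValuation_eq_one_iff.2 hv
    intro i
    rw [h2]
    have h4 := (intA_iff_co A w _).1 (intA_add ((mem_BZ_iff A w k).1 hk).1
      (intA_neg ((mem_BZ_iff A w 1).1 (BZ A w).one_mem).1)) i
    rw [Units.val_one, ← sub_eq_add_neg] at h4
    exact h4
  · have h1 : gv (single v k : (sysA A).A) w = 1 := single_ne h _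
    rw [h1]
    refine ⟨(BZ A w).one_mem, ?_⟩
    rw [Units.val_one, sub_self]
    exact divN_zero

/-- The number of the split real places is at most the number of the real places. -/
theorem sp_le (A : AD F) : A.sp ≤ InfinitePlace.nrRealPlaces F := by
  classical
  have h1 : Function.Injective (SPl.r (A := A)) := by
    intro x y h
    exact Subtype.ext (congrArg (fun z : RPl F => z.1) h)
  have h2 := Nat.card_le_card_of_injective _ h1
  have h3 : Nat.card (RPl F) = InfinitePlace.nrRealPlaces F := by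
    rw [Nat.card_eq_fintype_card]
  rw [h3] at h2
  exact h2

/-- The dimension is at least `2` if the real rank is positive. -/
theorem dim_ge (A : AD F) (hr : 1 ≤ A.rk) : 2 ≤ A.n ∧ 2 ≤ A.dim := by
  have hsp := sp_le A
  unfold AD.rk at hr
  unfold AD.dim
  obtain ⟨m, hm⟩ : ∃ m, A.n = m := ⟨_, rfl⟩
  rw [hm] at hr ⊢
  set s := A.sp
  set r := InfinitePlace.nrRealPlaces F
  set c := InfinitePlace.nrComplexPlaces F
  have hn : 2 ≤ m := by
    by_contra h
    have h1 : m - 1 = 0 := by omega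
    have h2 : m / 2 - 1 = 0 := by omega
    rw [h1, h2] at hr
    simp at hr
  refine ⟨hn, ?_⟩
  have h1 : 3 ≤ m * (m + 1) / 2 := by
    rw [Nat.le_div_iff_mul_le two_pos]
    nlinarith
  have h2 : 3 ≤ m ^ 2 := by nlinarith
  rcases Nat.eq_zero_or_pos (s + c) with h0 | h0
  · have hs : s = 0 := by omega
    have hc : c = 0 := by omega
    rw [hs, hc] at hr ⊢
    simp only [add_zero, mul_zero, zero_add, Nat.sub_zero, zero_mul] at hr ⊢
    have h3 : 1 ≤ m / 2 - 1 := by
      rcases Nat.eq_zero_or_pos (m / 2 - 1) with h | h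
      · rw [h, zero_mul] at hr
        omega
      · exact h
    have h4 : 1 ≤ r := by
      rcases Nat.eq_zero_or_pos r with h | h
      · rw [h, mul_zero] at hr
        omega
      · exact h
    have h5 : 4 ≤ m := by omega
    have h6 : 3 ≤ m * (m - 1) / 2 := by
      rw [Nat.le_div_iff_mul_le two_pos]
      have : 3 ≤ m - 1 := by omega
      nlinarith
    have h7 : 3 ≤ r * (m * (m - 1) / 2) := by nlinarith
    omega
  · rcases Nat.eq_zero_or_pos s with h3 | h3
    · have hc : 1 ≤ c := by omega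
      have h4 : 3 ≤ c * m ^ 2 := by nlinarith
      omega
    · have h4 : 3 ≤ s * (m * (m + 1) / 2) := by nlinarith
      omega

/-- **KF1.** The cells for the subgroups of a principal congruence subgroup. -/
theorem exists_ksys (A : AD F) (hdiv : IsDiv A) (hcen : IsCen A) (hr : 1 ≤ A.rk) (p : ℕ)
    [hp : Fact p.Prime] :
    ∃ K₀ : Subgroup (sysA A).A, OC K₀ ∧
      (∀ v : Pl F, ((p : ℕ) : 𝓞 F) ∉ v.asIdeal → ∀ k ∈ BZ A v,
        (single v k : (sysA A).A) ∈ K₀) ∧
      ∀ K : Subgroup (sysA A).A, K ≤ K₀ → OC K → ∃ T : TSys K, T.C.n0 = A.dim ∧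
        ∀ γ, (sysA A).sgn γ = 1 → T.ε γ = 1 := by
  obtain ⟨h0, hd⟩ := dim_ge A hr
  have : DivAlg A := ⟨hdiv, hcen, by omega⟩
  have h2 : 2 ≤ p := hp.out.two_le
  have hN : 3 ≤ p ^ 2 := by nlinarith
  have hN0 : p ^ 2 ≠ 0 := by positivity
  refine ⟨KNA A (p ^ 2), oc_KNA _ hN0, fun v hv k hk => single_mem_KNA A hN0 v (fun h => hv ?_) k hk,
    fun K hK hO => ?_⟩
  · rw [Nat.cast_pow] at h
    exact v.isPrime.mem_of_pow_mem _ h
  · obtain ⟨T, h1, h3, -⟩ := exists_tsys (A := A) hd hN hK hO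
    refine ⟨T, h1, fun γ hγ => ?_⟩
    rw [h3, hγ, map_one]

/-- **KF2.** The crude bound. -/
theorem crude_bound (A : AD F) (hdiv : IsDiv A) (hcen : IsCen A) (hn : 1 ≤ A.n)
    (K : Subgroup (sysA A).A) (hK : OC K) (hTF : TorsionFree K) :
    ∃ N₀ : ℕ, ∀ (O : Type) [CommRing O] (W : Type) [AddCommGroup W] [Module O W]
      (τ : Representation O K W) (i : ℕ), N₀ < i →
        Subsingleton (groupCohomology (coeff K τ) i) := by
  have : DivAlg A := ⟨hdiv, hcen, hn⟩
  obtain ⟨E, i1, i2, ⟨C⟩⟩ := exists_prodA (A := A) hK hTF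
  refine ⟨C.n0 + 1, fun O _ W _ _ τ i hi => ?_⟩
  rw [← forms_rep]
  exact C.vanish (forms_coef τ) (c0 := 0) (fun _ _ _ => Nat.zero_le _) i (by omega)

/-- If the degree is odd then every real place is split. -/
theorem sp_odd (A : AD F) (hdiv : IsDiv A) (hcen : IsCen A) (h : ¬ 2 ∣ A.n) :
    A.sp = InfinitePlace.nrRealPlaces F := by
  classical
  have hn : 1 ≤ A.n := by
    by_contra h0
    apply h
    have h1 : A.n = 0 := by omega
    rw [h1]
    exact dvd_zero 2
  have : DivAlg A := ⟨hdiv, hcen, hn⟩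
  have hb : Function.Bijective (SPl.r (A := A)) := by
    constructor
    · intro x y h
      exact Subtype.ext (congrArg (fun z : RPl F => z.1) h)
    · intro w
      by_contra hw
      have h1 : ¬ Nonempty (DE A (embR w) ≃ₐ[ℝ] Matrix (Fin A.n) (Fin A.n) ℝ) := by
        intro h2
        exact hw ⟨⟨w.1, w.2, h2⟩, rfl⟩
      exact h ⟨A.n / 2, (nonsplit_iso A ⟨w, h1⟩).1⟩
  have h2 := Nat.card_eq_of_bijective _ hb
  have h3 : Nat.card (RPl F) = InfinitePlace.nrRealPlaces F := by
    rw [Nat.card_eq_fintype_card]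
  rw [← h3]
  exact h2

end Pool.Agent.CGN
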