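import Pool.Agent.CGN.UMain
import Pool.Agent.CGN.GalTr
import Pool.Agent.CGN.EMa
import Pool.Agent.CGN.KTop
import Pool.Agent.CGQ.TBE

/-!
# The main theorems of the parts U, G, E and K
-/

noncomputable section

namespace Pool.Agent.CGN

open NumberField IsDedekindDomain Matrix
open Pool.Agent.CG2 (Pl Fv Ov GalF Fbar Zbar Over IsInertia IsFrob Nm IsRay InRay expo TotPos Lies)
open Pool.Agent.CG2.GalFinAux (below)
open Pool.Agent.CGQ

variable {F : Type} [Field F] [NumberField F]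

/-- **E. The generic unit.** -/
theorem exists_gen {A : AD F} (hdiv : IsDiv A) (_hcen : IsCen A) (hr : 1 ≤ A.rk) (p : ℕ)
    [Fact p.Prime] {S : Set (Pl F)} (hS : S.Finite) (φ : Spl A S) (S₀ : Set (Pl F))
    (hS₀ : S₀.Finite) :
    ∃ v : Fin 3 → {v : Pl F // v ∉ S}, (∀ i, (v i).1 ∉ S₀) ∧
      ∀ K : Subgroup (sysA A).A, OC K → (∀ i, SmallAt φ (v i) K) → ∀ y : (sysA A).Pt,
        (∃ (L : Type) (_ : Field L) (_ : NumberField L) (_ : Algebra F L) (ι : L →ₐ[F] DF A)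
          (e : (𝓞 L)ˣ), Gen A K y (v 2).1 ι 1 e) ∧
        (2 ≤ A.rk → ∀ (k : Type) [Field k] [CharP k p] (h : (sysA A).G → k),
          (∀ a ∈ Stab K y, ∀ b ∈ Stab K y, h (a * b) = h a + h b) → ∀ c₀ ∈ Stab K y, h c₀ ≠ 0 →
          ∃ (L : Type) (_ : Field L) (_ : NumberField L) (_ : Algebra F L) (ι : L →ₐ[F] DF A)
            (u e : (𝓞 L)ˣ), Gen A K y (v 2).1 ι u e ∧ h (uA ι u) ≠ 0) :=
  exists_gen' hdiv hr p hS φ S₀ hS₀

end Pool.Agent.CGN
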