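import Pool.Agent.CGN.SDefs
import Pool.Agent.CGN.Iface

/-!
# Assembly: from an eigenfamily to the Galois representation
-/

noncomputable section

namespace Pool.Agent.CGN

open NumberField IsDedekindDomain Matrix
open Pool.Agent.CG2 (Pl Fv Ov GalF Fbar Zbar Over IsInertia IsFrob Nm IsRay TotPos expo)
open Pool.Agent.CG2.GalFinAux (below)
open Pool.Agent.CGQ

variable {F : Type} [Field F] [NumberField F] {n : ℕ}

/-- The Frobenius elements have the Hecke polynomials of `lam` (`e` a sign). -/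
def FrobEq {S : Set (Pl F)} {k : Type} [Field k]
    (lam : {v : Pl F // v ∉ S} → Option (Fin n) → k) (e : ℤˣ)
    (ρ : GalF F →* GL (Fin n) k) : Prop :=
  ∀ (v : {v : Pl F // v ∉ S}) (Q : Ideal (Zbar F)), Over v.1 Q → ∀ σ : GalF F, IsFrob v.1 Q σ →
    (ρ (σ ^ (e : ℤ)) : Matrix (Fin n) (Fin n) k).charpoly =
      heckePol (lam v) 1 ((Nm v.1 : ℕ) : k)

/-- The characteristic polynomial of a multiple of a matrix. -/
theorem charpoly_twist {k : Type} [Field k] (A : Matrix (Fin n) (Fin n) k)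
    (lam : Option (Fin n) → k) (w N : k) (hw : w ≠ 0) (h : A.charpoly = heckePol lam w N) :
    (w⁻¹ • A).charpoly = heckePol lam 1 N := by
  let f : Polynomial k →+* Polynomial k := Polynomial.compRingHom (Polynomial.C w * Polynomial.X)
  have hf : ∀ P, f P = P.comp (Polynomial.C w * Polynomial.X) := fun P => rfl
  have h1 : charmatrix (w⁻¹ • A) = Polynomial.C w⁻¹ • (charmatrix A).map f := by
    ext1 i j
    rw [Matrix.smul_apply, Matrix.map_apply, charmatrix, charmatrix, Matrix.sub_apply,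
      Matrix.sub_apply, hf, Polynomial.sub_comp]
    by_cases hij : i = j
    · subst hij
      simp only [Matrix.scalar_apply, Matrix.diagonal_apply_eq, RingHom.mapMatrix_apply,
        Matrix.map_apply, Matrix.smul_apply, smul_eq_mul, Polynomial.X_comp, Polynomial.C_comp,
        mul_sub, ← mul_assoc, ← Polynomial.C_mul]
      rw [inv_mul_cancel₀ hw, Polynomial.C_1, one_mul]
    · simp only [Matrix.scalar_apply, Matrix.diagonal_apply_ne _ hij, RingHom.mapMatrix_apply,
        Matrix.map_apply, Matrix.smul_apply, smul_eq_mul, Polynomial.zero_comp, Polynomial.C_comp,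
        zero_sub, mul_neg, ← Polynomial.C_mul]
  rw [Matrix.charpoly, h1, Matrix.det_smul, Fintype.card_fin]
  have h2 : ((charmatrix A).map f).det = f A.charpoly := by
    rw [Matrix.charpoly, RingHom.map_det]
    rfl
  rw [h2, h, heckePol, heckePol, map_sum, Finset.mul_sum]
  refine Finset.sum_congr rfl fun j hj => ?_
  have hj' : j ≤ n := Nat.lt_succ_iff.1 (Finset.mem_range.1 hj)
  rw [hf, Polynomial.mul_comp, Polynomial.C_comp, Polynomial.X_pow_comp, mul_pow, ← Polynomial.C_pow,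
    ← Polynomial.C_pow, ← mul_assoc, ← mul_assoc, ← Polynomial.C_mul, ← Polynomial.C_mul, one_pow,
    mul_one]
  congr 2
  have h3 : w⁻¹ ^ n * (w ^ j * w ^ (n - j)) = 1 := by
    rw [← pow_add, Nat.add_sub_cancel' hj', ← mul_pow, inv_mul_cancel₀ hw, one_pow]
  linear_combination ((-1) ^ j * N ^ (j * (j - 1) / 2) * lk lam j) * h3

/-- Removing the twist. -/
theorem exists_twistA {S : Set (Pl F)} {O : Type} [CommRing O] {m : Ideal (HeckeAlg n S O)}
    {k : Type} [Field k] [Algebra (HeckeAlg n S O ⧸ m) k] {ρ : GalF F →* GL (Fin n) k}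
    (hA : AttachedN m k ρ) :
    ∃ (e : ℤˣ) (ρ' : GalF F →* GL (Fin n) k) (T : Set (Pl F)), IsOpen (ρ'.ker : Set (GalF F)) ∧
      (NonEis ρ → NonEis ρ') ∧ FrobEq (fun v j => eig m k (v, j)) e ρ' ∧ T.Finite ∧
      ∀ v : Pl F, v ∉ S → v ∉ T → ∀ Q : Ideal (Zbar F), Over v Q → ∀ g : GalF F,
        IsInertia Q g → ρ' g = 1 := by
  obtain ⟨hopen, e, ω, hω, h⟩ := hA
  -- the scalar matrices
  let sc : kˣ →* GL (Fin n) k := Units.map (algebraMap k (Matrix (Fin n) (Fin n) k) : k →* _)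
  have hsc : ∀ (a : kˣ) (M : GL (Fin n) k), sc a * M = M * sc a := by
    intro a M
    apply Units.ext
    exact Algebra.commutes (a : k) (M : Matrix (Fin n) (Fin n) k)
  have hscv : ∀ a : kˣ, ((sc a : GL (Fin n) k) : Matrix (Fin n) (Fin n) k) =
      algebraMap k (Matrix (Fin n) (Fin n) k) (a : k) := fun a => rfl
  let ψ : GalF F →* kˣ := (zpowGroupHom (e : ℤ)).comp ω
  have hψ : ∀ g, ψ g = (ω g) ^ (e : ℤ) := fun g => rfl
  let ρ' : GalF F →* GL (Fin n) k :=
    { toFun := fun g => sc (ψ g)⁻¹ * ρ g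
      map_one' := by simp
      map_mul' := by
        intro g g'
        rw [map_mul ψ, map_mul ρ, mul_inv, map_mul sc]
        have h1 := hsc (ψ g')⁻¹ (ρ g)
        calc sc (ψ g)⁻¹ * sc (ψ g')⁻¹ * (ρ g * ρ g')
            = sc (ψ g)⁻¹ * (sc (ψ g')⁻¹ * ρ g) * ρ g' := by simp only [mul_assoc]
          _ = sc (ψ g)⁻¹ * (ρ g * sc (ψ g')⁻¹) * ρ g' := by rw [h1]
          _ = _ := by simp only [mul_assoc] }
  have hρ' : ∀ g, ρ' g = sc (ψ g)⁻¹ * ρ g := fun g => rfl
  have hρm : ∀ g, (ρ' g : Matrix (Fin n) (Fin n) k) =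
      (((ψ g)⁻¹ : kˣ) : k) • (ρ g : Matrix (Fin n) (Fin n) k) := by
    intro g
    rw [hρ', Units.val_mul, hscv, Algebra.smul_def]
  refine ⟨e, ρ', _, ?_, ?_, ?_, finite_ram ω hω, ?_⟩
  · have h1 : ρ.ker ⊓ ω.ker ≤ ρ'.ker := by
      intro g hg
      have hg1 : ρ g = 1 := (Subgroup.mem_inf.1 hg).1
      have hg2 : ω g = 1 := (Subgroup.mem_inf.1 hg).2
      rw [MonoidHom.mem_ker, hρ', hψ, hg1, hg2]
      simp
    refine Subgroup.isOpen_mono h1 ?_
    exact hopen.inter hω
  · intro hne k' _ _ hfin V hV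
    refine hne k' hfin V fun g v hv => ?_
    have h1 := hV g v hv
    have h2 : ((ρ' g : Matrix (Fin n) (Fin n) k).map (algebraMap k k')).mulVec v =
        algebraMap k k' (((ψ g)⁻¹ : kˣ) : k) •
          ((ρ g : Matrix (Fin n) (Fin n) k).map (algebraMap k k')).mulVec v := by
      rw [hρm, ← Matrix.smul_mulVec]
      congr 1
      ext i j
      simp [Matrix.map_apply, Matrix.smul_apply]
    rw [h2] at h1
    have h3 := V.smul_mem (algebraMap k k' ((ψ g : kˣ) : k)) h1
    rw [smul_smul, ← map_mul, Units.mul_inv, map_one, one_smul] at h3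
    exact h3
  · intro v Q hQ σ hσ
    have hee : (e : ℤ) * (e : ℤ) = 1 := by
      rcases Int.units_eq_one_or e with h1 | h1 <;> rw [h1] <;> simp
    have h1 : ψ (σ ^ (e : ℤ)) = ω σ := by
      rw [hψ, map_zpow, ← _root_.zpow_mul, hee, zpow_one]
    have h2 := (h v.1 v.2 Q hQ).2 σ hσ
    rw [hρm, h1, Units.val_inv_eq_inv_val]
    exact charpoly_twist _ _ _ _ (ω σ).ne_zero h2
  · intro v hv hvT Q hQ g hg
    have h1 : ρ g = 1 := (h v hv Q hQ).1 g hg
    have h2 : ω g = 1 := by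
      by_contra h3
      exact hvT ⟨Q, hQ, g, hg, h3⟩
    rw [hρ', hψ, h1, h2]
    simp

/-- The inverse of a ray class character. -/
theorem isRay_inv {κ : Type} [Field κ] {S : Set (Pl F)} {χ : Pl F → κ} (h : IsRay S χ) :
    IsRay S (fun w => (χ w)⁻¹) := by
  obtain ⟨h0, m₀, hm, hS, hr⟩ := h
  refine ⟨fun v => inv_ne_zero (h0 v), m₀, hm, hS, fun a ha ha1 hp => ?_⟩
  have h1 := hr a ha ha1 hp
  have h2 : ∏ᶠ v : Pl F, (χ v)⁻¹ ^ expo v (Ideal.span {a}) =
      (∏ᶠ v : Pl F, χ v ^ expo v (Ideal.span {a}))⁻¹ := by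
    rw [← finprod_inv_distrib]
    exact finprod_congr fun v => inv_pow _ _
  rw [h2, h1, inv_one]

/-! ### Elementary symmetric functions -/

section esymm

variable {ι κ : Type} [Field κ]

/-- The elementary symmetric function. -/
private def es (s : Finset ι) (χ : ι → κ) (k : ℕ) : κ := ∑ I ∈ s.powersetCard k, ∏ w ∈ I, χ w

private theorem heckePol_prod (s : Finset ι) (χ : ι → κ) (hs : s.card = n)
    (a : Option (Fin n) → κ) (h : ∀ k ≤ n, lk a k = es s χ k) :
    heckePol a 1 1 = ∏ w ∈ s, (Polynomial.X - Polynomial.C (χ w)) := by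
  have h1 := Multiset.prod_X_sub_X_eq_sum_esymm (s.val.map χ)
  rw [Multiset.map_map, Multiset.card_map] at h1
  have h2 : (s.val.map ((fun t => Polynomial.X - Polynomial.C t) ∘ χ)).prod =
      ∏ w ∈ s, (Polynomial.X - Polynomial.C (χ w)) := rfl
  have h3 : Multiset.card s.val = n := hs
  rw [← h2, h1, h3, heckePol]
  refine Finset.sum_congr rfl fun j hj => ?_
  rw [Finset.esymm_map_val, h j (Nat.lt_succ_iff.1 (Finset.mem_range.1 hj)), one_pow, one_pow,
    mul_one, mul_one, Polynomial.C_mul, Polynomial.C_pow, Polynomial.C_neg, Polynomial.C_1,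
    mul_assoc]
  rfl

private theorem es_inv [DecidableEq ι] (s : Finset ι) (χ : ι → κ) (h0 : ∀ w, χ w ≠ 0) (k : ℕ)
    (hk : k ≤ s.card) :
    es s χ (s.card - k) = (∏ w ∈ s, χ w) * es s (fun w => (χ w)⁻¹) k := by
  rw [es, es, Finset.mul_sum]
  refine Finset.sum_bij' (fun I _ => s \ I) (fun I _ => s \ I) ?_ ?_ ?_ ?_ ?_
  · intro I hI
    rw [Finset.mem_powersetCard] at hI ⊢
    refine ⟨Finset.sdiff_subset, ?_⟩
    rw [Finset.card_sdiff_of_subset hI.1, hI.2]
    omega
  · intro I hI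
    rw [Finset.mem_powersetCard] at hI ⊢
    refine ⟨Finset.sdiff_subset, ?_⟩
    rw [Finset.card_sdiff_of_subset hI.1, hI.2]
  · intro I hI
    rw [Finset.mem_powersetCard] at hI
    exact Finset.sdiff_sdiff_eq_self hI.1
  · intro I hI
    rw [Finset.mem_powersetCard] at hI
    exact Finset.sdiff_sdiff_eq_self hI.1
  · intro I hI
    rw [Finset.mem_powersetCard] at hI
    rw [Finset.prod_inv_distrib, ← Finset.prod_sdiff hI.1, mul_comm (∏ w ∈ s \ I, χ w), mul_assoc,
      mul_inv_cancel₀ (Finset.prod_ne_zero_iff.2 fun w _ => h0 w), mul_one]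

end esymm

variable {L : Type} [Field L] [NumberField L] [Algebra F L]

theorem finite_above {T : Set (Pl F)} (hT : T.Finite) : {w : Pl L | below F w ∈ T}.Finite := by
  refine (hT.biUnion fun v _ => finite_aboveL L v).subset ?_
  intro w hw
  exact Set.mem_biUnion (x := below F w) hw rfl

/-- The hypothesis of the Galois side from the conclusion of the unit trick. -/
theorem exists_hypE (hn : 0 < n) {S : Set (Pl F)} {k : Type} [Field k] {p : ℕ} [hp : Fact p.Prime]
    [CharP k p] (hL : Module.finrank F L = n)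
    (lam : {v : Pl F // v ∉ S} → Option (Fin n) → k)
    (lam' : {v : Pl F // v ∉ S} → Option (Fin n) → AlgebraicClosure k)
    (hlr : (∀ v j, lam' v j = algebraMap k _ (lam v j)) ∨
      (∀ v, lk (fun j => algebraMap k (AlgebraicClosure k) (lam v j)) n *
          algebraMap k (AlgebraicClosure k) (lam v none) = 1 ∧
        ∀ j, lam' v j = dualL (fun j => algebraMap k (AlgebraicClosure k) (lam v j)) j))
    (ε : ℤˣ) (ρ : GalF F →* GL (Fin n) k) (hρ : FrobEq lam ε ρ) (u e : (𝓞 L)ˣ)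
    {T : Set (Pl F)} (hST : S ⊆ T) (χ : Pl L → AlgebraicClosure k)
    (hray : IsRay {w : Pl L | below F w ∈ T} χ)
    (hχ : ∀ (v : {v : Pl F // v ∉ S}), v.1 ∉ T → ∀ M : ℕ, Sel L u e (p ^ M) v.1 →
        ∀ j : Fin n, lam' v (some j) =
          ∑ I ∈ (abv L v.1).powersetCard ((j : ℕ) + 1), ∏ w ∈ I, χ w) :
    ∃ χ' : Pl L → AlgebraicClosure k, IsRay {w : Pl L | below F w ∈ T} χ' ∧
      HypE ε p (rhobar ρ) u e χ' T := by
  classical
  have hcard : ∀ v M, Sel L u e (p ^ M) v → (abv L v).card = n := fun v M h => by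
    rw [← hL]
    exact h.split
  have hchar : ∀ (v : {v : Pl F // v ∉ S}), ((Nm v.1 : ℕ) : k) = 1 →
      ∀ (Q : Ideal (Zbar F)), Over v.1 Q → ∀ g : GalF F, IsFrob v.1 Q g →
      (rhobar ρ (g ^ (ε : ℤ)) : Matrix (Fin n) (Fin n) (AlgebraicClosure k)).charpoly =
        heckePol (fun j => algebraMap k (AlgebraicClosure k) (lam v j)) 1 1 := by
    intro v hN Q hQ g hg
    have h1 : (rhobar ρ (g ^ (ε : ℤ)) : Matrix (Fin n) (Fin n) (AlgebraicClosure k)) =
        (ρ (g ^ (ε : ℤ)) : Matrix (Fin n) (Fin n) k).map (algebraMap k (AlgebraicClosure k)) := rfl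
    rw [h1, Matrix.charpoly_map, hρ v Q hQ g hg, hN, heckePol, heckePol, Polynomial.map_sum]
    refine Finset.sum_congr rfl fun j _ => ?_
    rw [Polynomial.map_mul, Polynomial.map_C, Polynomial.map_pow, Polynomial.map_X]
    congr 2
    simp only [map_mul, map_pow, map_neg, map_one, one_pow, mul_one]
    congr 1
    rw [lk, lk]
    split_ifs
    · rfl
    · rw [map_one]
  have hNone : ∀ v M, 0 < M → p ^ M ∣ Nm v - 1 → ((Nm (F := F) v : ℕ) : k) = 1 := by
    intro v M hM h3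
    have hN1 : 1 ≤ Nm v := by
      have : Nm v ≠ 0 := by
        intro h
        exact v.ne_bot (Ideal.absNorm_eq_zero_iff.1 h)
      omega
    have h8 : p ∣ Nm v - 1 := (dvd_pow_self p (by omega)).trans h3
    have h9 : ((Nm v - 1 : ℕ) : k) = 0 := (CharP.cast_eq_zero_iff k p _).2 h8
    rw [Nat.cast_sub hN1, Nat.cast_one, sub_eq_zero] at h9
    exact h9
  have hes : ∀ (v : {v : Pl F // v ∉ S}), v.1 ∉ T → ∀ M : ℕ, Sel L u e (p ^ M) v.1 →
      ∀ k ≤ n, lk (lam' v) k = es (abv L v.1) χ k := by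
    intro v hv M hs k hk
    rcases Nat.eq_zero_or_pos k with h0 | h0
    · subst h0
      rw [lk_zero, es, Finset.powersetCard_zero, Finset.sum_singleton, Finset.prod_empty]
    · obtain ⟨l, hl⟩ : ∃ l : Fin n, (l : ℕ) + 1 = k := ⟨⟨k - 1, by omega⟩, by simp; omega⟩
      rw [lk_eq _ l hl, hχ v hv M hs l, hl]
      rfl
  rcases hlr with hlr | hlr
  · refine ⟨χ, hray, ?_⟩
    intro v hv M hM hdvd hs Q hQ g hg
    have hvS : v ∉ S := fun h => hv (hST h)
    rw [hchar ⟨v, hvS⟩ (hNone v M hM hdvd) Q hQ g hg]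
    refine heckePol_prod _ χ (hcard v M hs) _ ?_
    intro k hk
    rw [← hes ⟨v, hvS⟩ hv M hs k hk]
    congr 1
    funext j
    exact (hlr ⟨v, hvS⟩ j).symm
  · refine ⟨fun w => (χ w)⁻¹, isRay_inv hray, ?_⟩
    intro v hv M hM hdvd hs Q hQ g hg
    have hvS : v ∉ S := fun h => hv (hST h)
    rw [hchar ⟨v, hvS⟩ (hNone v M hM hdvd) Q hQ g hg]
    refine heckePol_prod _ _ (hcard v M hs) _ ?_
    obtain ⟨h1, h2⟩ := hlr ⟨v, hvS⟩
    set a : Option (Fin n) → AlgebraicClosure k :=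
      fun j => algebraMap k (AlgebraicClosure k) (lam ⟨v, hvS⟩ j) with ha
    have han : lk a n ≠ 0 := left_ne_zero_of_mul_eq_one h1
    -- the dual eigenvalues
    have h3 : ∀ k ≤ n, lk (lam' ⟨v, hvS⟩) k * lk a n = lk a (n - k) := by
      intro k hk
      rcases Nat.eq_zero_or_pos k with h0 | h0
      · subst h0
        rw [lk_zero, one_mul, Nat.sub_zero]
      · obtain ⟨l, hl⟩ : ∃ l : Fin n, (l : ℕ) + 1 = k := ⟨⟨k - 1, by omega⟩, by simp; omega⟩
        rw [lk_eq _ l hl, h2 (some l)]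
        change lk a (n - (l + 1)) * a none * lk a n = _
        have h1' : a none * lk a n = 1 := by rw [mul_comm]; exact h1
        rw [mul_assoc, h1', mul_one, hl]
    have hc := hcard v M hs
    have h4 : (∏ w ∈ abv L v, χ w) * lk a n = 1 := by
      have h5 := h3 n le_rfl
      rw [hes ⟨v, hvS⟩ hv M hs n le_rfl, Nat.sub_self, lk_zero] at h5
      have h6 : es (abv L v) χ n = ∏ w ∈ abv L v, χ w := by
        rw [es, ← hc, Finset.powersetCard_self, Finset.sum_singleton]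
      rw [← h6]
      exact h5
    intro k hk
    have h5 := h3 (n - k) (Nat.sub_le _ _)
    rw [Nat.sub_sub_self hk, hes ⟨v, hvS⟩ hv M hs _ (Nat.sub_le _ _)] at h5
    have h6 := es_inv (abv L v) χ hray.1 k (by rw [hc]; exact hk)
    rw [hc] at h6
    change es (abv L v) χ (n - k) * lk a n = lk a k at h5
    rw [← h5, h6, mul_right_comm, h4, one_mul]

variable {A : AD F} {S : Set (Pl F)} {φ : Spl A S} {K : Subgroup (sysA A).A}

/-- From an eigenfamily at the generic unit to the Galois side. -/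
theorem not_ne_of_eig (hn : 2 ≤ A.n) {k : Type} [Field k] {p : ℕ} [hp : Fact p.Prime] [CharP k p]
    (hS : S.Finite) (hK : OC K) (hΦ : HypOff K (chartA φ)) (hstd : Std (chartA φ))
    (lam : {v : Pl F // v ∉ S} → Option (Fin A.n) → k)
    (lam' : {v : Pl F // v ∉ S} → Option (Fin A.n) → AlgebraicClosure k)
    (hlr : (∀ v j, lam' v j = algebraMap k _ (lam v j)) ∨
      (∀ v, lk (fun j => algebraMap k (AlgebraicClosure k) (lam v j)) A.n *
          algebraMap k (AlgebraicClosure k) (lam v none) = 1 ∧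
        ∀ j, lam' v j = dualL (fun j => algebraMap k (AlgebraicClosure k) (lam v j)) j))
    (ε : ℤˣ) (ρ : GalF F →* GL (Fin A.n) k)
    (hρo : IsOpen (ρ.ker : Set (GalF F))) (hρ : FrobEq lam ε ρ) {v₃ : Pl F}
    (hv₃ : ((p : ℕ) : 𝓞 F) ∉ v₃.asIdeal)
    (hram : ∀ Q : Ideal (Zbar F), Over v₃ Q → ∀ g : GalF F, IsInertia Q g → ρ g = 1)
    (y : (sysA A).Pt) (ι : L →ₐ[F] DF A) (u e : (𝓞 L)ˣ) (hG : Gen A K y v₃ ι u e)
    (η : (sysA A).G →* ℤˣ) (hηS : ∀ γ ∈ Stab K y, η γ = 1)
    (hη : ∀ γ, (sysA A).sgn γ = 1 → η γ = 1)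
    (E : EigFam K (chartA φ) (AlgebraicClosure k) η (uA ι u) lam') (h0 : E.h y 1 ≠ 0) :
    ¬ NonEis ρ := by
  have hchar : CharP (AlgebraicClosure k) p :=
    charP_of_injective_algebraMap (algebraMap k (AlgebraicClosure k)).injective p
  obtain ⟨T, χ, hT, hST, hray, hrel⟩ := unit_main hS hK hΦ hstd ι hG.deg y u e E h0 hG.hu hG.he
    (hηS _ hG.hu) (hηS _ hG.he)
    (fun x hx hpos => hη _ (by
      funext w
      exact if_pos (det_pos ι hx hpos w)))
  obtain ⟨χ', hray', hH⟩ := exists_hypE (by omega) hG.deg lam lam' hlr ε ρ hρ u e hST χ hray hrel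
  exact galois_main hn hp.out hG.deg ρ hρo ε u e hG.ind (finite_above hT) χ' hray' hT hH
    (surj_of_tr hp.out ρ hv₃ hram hG.sn hG.tr)

end Pool.Agent.CGN
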