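import Pool.Agent.CGN.FFm
import Pool.Agent.CGQ.Fam
import Pool.Agent.CGQ.CBase
import Pool.Agent.CG2.EigF
import Pool.Agent.CG2.CellLoc

/-!
# Eigenfamilies
-/

noncomputable section

namespace Pool.Agent.CGN

open NumberField IsDedekindDomain
open Pool.Agent.CG2 (Pl)
open Pool.Agent.CGQ

variable {F : Type} [Field F] [NumberField F] {𝒟 : Sys F} {n : ℕ} {S : Set (Pl F)}
  {Φ : Chart n 𝒟 S}

/-- The neighbour of `y` at the place `v` given by the coset `c`. -/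
def nb (Φ : Chart n 𝒟 S) (v : {v : Pl F // v ∉ S}) (y : 𝒟.Pt) (c : GQ n v.1 ⧸ GZ n v.1) : 𝒟.Pt :=
  rt y (sg Φ v (Quotient.out c))

/-- The element of `GL_n(F_v)` through which `γ` acts on the neighbours of `y`. -/
def locZ (Φ : Chart n 𝒟 S) (v : {v : Pl F // v ∉ S}) (y : 𝒟.Pt) (γ : 𝒟.G) : GQ n v.1 :=
  Φ.e v ((y.2.1 v.1)⁻¹ * 𝒟.loc v.1 γ * y.2.1 v.1)

/-- The data of the values at the powers of `γ` of an eigenclass in `H¹` (the value `h y m` is the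
value at `(y, γᵐ)`), or of an eigenfunction (`γ = 1`); `η` is the twist, `lam v j` the eigenvalue
of the Hecke operator with the index `(v, j)`. -/
structure EigFam (K : Subgroup 𝒟.A) (Φ : Chart n 𝒟 S) (κ : Type) [Field κ] (η : 𝒟.G →* ℤˣ)
    (γ : 𝒟.G) (lam : {v : Pl F // v ∉ S} → Option (Fin n) → κ) where
  /-- the values -/
  h : 𝒟.Pt → ℕ → κ
  h_rt : ∀ y, ∀ k ∈ K, ∀ m, h (rt y k) m = h y m
  h_act : ∀ y (δ : 𝒟.G) m, δ * γ = γ * δ → h (act δ y) m = (((η δ : ℤˣ) : ℤ) : κ) * h y m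
  h_T : ∀ v j y, γ ∈ Stab K y → ∀ R : Finset (GQ n v.1 ⧸ GZ n v.1),
    Reps (fun c => locZ Φ v y γ • c) (cosets_finite v.1 j).toFinset R →
    ∑ c ∈ R, h (nb Φ v y c) (Function.minimalPeriod (fun c => locZ Φ v y γ • c) c) =
      lam v j * h y 1

/-- The data of the values of an eigenfunction. -/
structure PtFam (K : Subgroup 𝒟.A) (Φ : Chart n 𝒟 S) (κ : Type) [Field κ] (η : 𝒟.G →* ℤˣ)
    (lam : {v : Pl F // v ∉ S} → Option (Fin n) → κ) where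
  /-- the values -/
  h : 𝒟.Pt → κ
  h_rt : ∀ y, ∀ k ∈ K, h (rt y k) = h y
  h_act : ∀ y (δ : 𝒟.G), h (act δ y) = (((η δ : ℤˣ) : ℤ) : κ) * h y
  h_T : ∀ v j y, ∑ c ∈ (cosets_finite v.1 j).toFinset, h (nb Φ v y c) = lam v j * h y

/-- The data of the values of an eigenclass at the elements of the stabilisers. -/
structure BigFam (K : Subgroup 𝒟.A) (Φ : Chart n 𝒟 S) (κ : Type) [Field κ] (η : 𝒟.G →* ℤˣ)
    (lam : {v : Pl F // v ∉ S} → Option (Fin n) → κ) where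
  /-- the values -/
  h : 𝒟.Pt → 𝒟.G → κ
  h_rt : ∀ y, ∀ k ∈ K, ∀ γ, h (rt y k) γ = h y γ
  h_act : ∀ y (δ γ : 𝒟.G), γ ∈ Stab K y →
    h (act δ y) (δ * γ * δ⁻¹) = (((η δ : ℤˣ) : ℤ) : κ) * h y γ
  h_mul : ∀ y, ∀ γ ∈ Stab K y, ∀ γ' ∈ Stab K y, h y (γ * γ') = h y γ + h y γ'
  h_T : ∀ v j y, ∀ γ ∈ Stab K y, ∀ R : Finset (GQ n v.1 ⧸ GZ n v.1),
    Reps (fun c => locZ Φ v y γ • c) (cosets_finite v.1 j).toFinset R →
    ∑ c ∈ R, h (nb Φ v y c) (γ ^ Function.minimalPeriod (fun c => locZ Φ v y γ • c) c) =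
      lam v j * h y γ

/-- Under the chart the base subgroups are the maximal compact subgroups. -/
def Std (Φ : Chart n 𝒟 S) : Prop := ∀ v (k : 𝒟.L v.1), Φ.e v k ∈ GZ n v.1 ↔ k ∈ 𝒟.B v.1

theorem locZ_mem {K : Subgroup 𝒟.A} {v : {v : Pl F // v ∉ S}} (hK : Hyp K Φ v) {y : 𝒟.Pt}
    {γ : 𝒟.G} (hγ : γ ∈ Stab K y) : locZ Φ v y γ ∈ GZ n v.1 := by
  obtain ⟨κ, hκ, h⟩ := mem_Stab'.1 hγ
  have h1 : diag γ * y.2 = y.2 * κ := congrArg Prod.snd h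
  have h2 : κ = y.2⁻¹ * (diag γ * y.2) := by rw [h1, inv_mul_cancel_left]
  have h3 : locZ Φ v y γ = Φ.e v (κ.1 v.1) := by
    rw [locZ, h2]
    simp only [Subgroup.coe_mul, Subgroup.coe_inv, Pi.mul_apply, Pi.inv_apply, diag_apply,
      mul_assoc]
  rw [h3]
  exact hK.le _ hκ

/-- The elements of the stabiliser permute the neighbours. -/
theorem act_nb {K : Subgroup 𝒟.A} {v : {v : Pl F // v ∉ S}} (hK : Hyp K Φ v) {y : 𝒟.Pt}
    {γ : 𝒟.G} (hγ : γ ∈ Stab K y) (c : GQ n v.1 ⧸ GZ n v.1) :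
    mkK K (act γ (nb Φ v y c)) = mkK K (nb Φ v y (locZ Φ v y γ • c)) := by
  obtain ⟨κ, hκ, h⟩ := mem_Stab'.1 hγ
  have h1 : diag γ * y.2 = y.2 * κ := congrArg Prod.snd h
  have h2 : κ = y.2⁻¹ * (diag γ * y.2) := by rw [h1, inv_mul_cancel_left]
  have h3 : locZ Φ v y γ = Φ.e v (κ.1 v.1) := by
    rw [locZ, h2]
    simp only [Subgroup.coe_mul, Subgroup.coe_inv, Pi.mul_apply, Pi.inv_apply, diag_apply,
      mul_assoc]
  set a : GQ n v.1 := Φ.e v (κ.1 v.1) with ha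
  have haZ : a ∈ GZ n v.1 := hK.le _ hκ
  -- the element `κ` with its component at `v` removed
  set κ' : 𝒟.A := (sg Φ v a)⁻¹ * κ with hκ'
  have hκ'v : κ'.1 v.1 = 1 := by
    rw [hκ', Subgroup.coe_mul, Pi.mul_apply, Subgroup.coe_inv, Pi.inv_apply, sg_apply,
      single_same, ha, MulEquiv.symm_apply_apply, inv_mul_cancel]
  have hκ'K : κ' ∈ K := K.mul_mem (K.inv_mem (hK.sg_mem haZ)) hκ
  have hκe : κ = sg Φ v a * κ' := by rw [hκ', mul_inv_cancel_left]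
  have h4 : act γ (nb Φ v y c) = rt (rt y (sg Φ v (a * Quotient.out c))) κ' := by
    rw [nb, act_rt, h, ← rt_mul, ← rt_mul, hκe, map_mul]
    congr 1
    simp only [mul_assoc]
    have hc : κ' * sg Φ v (Quotient.out c) = sg Φ v (Quotient.out c) * κ' := single_comm' _ hκ'v
    rw [hc]
  rw [h4, mkK_rt _ hκ'K, h3, nb, mkK_eq]
  have h5 : ((a * Quotient.out c : GQ n v.1) : GQ n v.1 ⧸ GZ n v.1) =
      ((Quotient.out (a • c) : GQ n v.1) : GQ n v.1 ⧸ GZ n v.1) := by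
    have h6 : ((Quotient.out (a • c) : GQ n v.1) : GQ n v.1 ⧸ GZ n v.1) = a • c := Quotient.out_eq' _
    have h7 : ((Quotient.out c : GQ n v.1) : GQ n v.1 ⧸ GZ n v.1) = c := Quotient.out_eq' _
    rw [h6]
    conv_rhs => rw [← h7]
    rfl
  refine ⟨sg Φ v ((a * Quotient.out c)⁻¹ * Quotient.out (a • c)),
    hK.sg_mem (QuotientGroup.eq.1 h5), ?_⟩
  rw [← rt_mul, ← map_mul, mul_inv_cancel_left]

/-- The values of an eigenfamily depend only on the coset `y K`. -/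
theorem EigFam.congr {K : Subgroup 𝒟.A} {κ : Type} [Field κ] {η : 𝒟.G →* ℤˣ} {γ : 𝒟.G}
    {lam : {v : Pl F // v ∉ S} → Option (Fin n) → κ} (E : EigFam K Φ κ η γ lam) {y y' : 𝒟.Pt}
    (h : mkK K y = mkK K y') (m : ℕ) : E.h y m = E.h y' m := by
  obtain ⟨k, hk, rfl⟩ := mkK_eq.1 h
  exact (E.h_rt y k hk m).symm

end Pool.Agent.CGN
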