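import Pool.Agent.CG2.GalL
import Pool.Agent.CG2.GalFin

/-!
# Elements with prescribed valuations above a place
-/

noncomputable section

namespace Pool.Agent.CGN

open NumberField IsDedekindDomain
open Pool.Agent.CG2 (Pl expo)
open Pool.Agent.CG2.GalFinAux (below)

variable {F : Type} [Field F] [NumberField F] {L : Type} [Field L] [NumberField L] [Algebra F L]

/-- There are only finitely many places above a place. -/
theorem above_finite (v : Pl F) : {w : Pl L | below F w = v}.Finite := by
  have hJ : v.asIdeal.map (algebraMap (𝓞 F) (𝓞 L)) ≠ 0 := by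
    rw [Ideal.zero_eq_bot, Ne, Ideal.map_eq_bot_iff_of_injective
      (FaithfulSMul.algebraMap_injective _ _)]
    exact v.ne_bot
  refine (Ideal.finite_factors hJ).subset fun w hw => ?_
  have hw' : below F w = v := hw
  change w.asIdeal ∣ _
  rw [Ideal.dvd_iff_le, Ideal.map_le_iff_le_comap, ← hw']
  exact le_refl _

/-- **UEltA.** Elements with prescribed valuations above `v`. -/
theorem exists_elt_int (v : Pl F) (I : Ideal (𝓞 L)) : ∃ y : 𝓞 L, (y : L) ≠ 0 ∧
    ∀ w : Pl L, below F w = v → w.valuation L (y : L) = WithZero.exp (-(expo w I : ℤ)) := by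
  classical
  have hfin := above_finite (L := L) v
  choose π hπ using fun w : Pl L => w.intValuation_exists_uniformizer
  obtain ⟨y, hy⟩ := IsDedekindDomain.exists_forall_sub_mem_ideal (s := hfin.toFinset)
    (fun w : Pl L => w.asIdeal) (fun w => expo w I + 1) (fun w _ => w.prime)
    (fun w _ w' _ h h' => h (HeightOneSpectrum.ext h')) (fun w => π w.1 ^ expo w.1 I)
  have hval : ∀ w : Pl L, below F w = v →
      w.valuation L (y : L) = WithZero.exp (-(expo w I : ℤ)) := by
    intro w hw
    have h1 : w.intValuation (π w ^ expo w I) = WithZero.exp (-(expo w I : ℤ)) := by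
      rw [map_pow, hπ, ← WithZero.exp_nsmul]
      congr 1
      simp
    have h2 : w.intValuation (y - π w ^ expo w I) ≤
        WithZero.exp (-((expo w I + 1 : ℕ) : ℤ)) :=
      (w.intValuation_le_pow_iff_mem _ _).2 (hy w (hfin.mem_toFinset.2 hw))
    have h3 : w.intValuation (y - π w ^ expo w I) < w.intValuation (π w ^ expo w I) := by
      rw [h1]
      refine lt_of_le_of_lt h2 ?_
      rw [WithZero.exp_lt_exp]
      push_cast
      omega
    have h4 : w.intValuation y = w.intValuation (π w ^ expo w I) := by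
      calc w.intValuation y = w.intValuation (π w ^ expo w I + (y - π w ^ expo w I)) := by
            rw [add_sub_cancel]
        _ = _ := Valuation.map_add_eq_of_lt_left _ h3
    have h6 : w.valuation L (algebraMap (𝓞 L) L y) = w.intValuation y :=
      w.valuation_of_algebraMap y
    rw [← h1, ← h4]
    exact h6
  obtain ⟨w₀, hw₀⟩ := CG2.GalFinAux.exists_above (L := L) v
  refine ⟨y, fun h => ?_, hval⟩
  have h7 := hval w₀ (CG2.GalFinAux.lies_iff.1 hw₀)
  rw [h, map_zero] at h7
  exact WithZero.exp_ne_zero h7.symm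

/-- The same with an element of `Lˣ`. -/
theorem exists_eltL (v : Pl F) (I : Ideal (𝓞 L)) : ∃ x : Lˣ, ∀ w : Pl L, below F w = v →
    w.valuation L (x : L) = WithZero.exp (-(expo w I : ℤ)) := by
  obtain ⟨y, hy0, hy⟩ := exists_elt_int (L := L) v I
  exact ⟨Units.mk0 (y : L) hy0, hy⟩

/-- **UEltB.** Idempotents modulo finitely many places. -/
theorem exists_idem (P : Finset (Pl L)) (w : Pl L) :
    ∃ z : 𝓞 L, z - 1 ∈ w.asIdeal ∧ ∀ w' ∈ P, w' ≠ w → z ∈ w'.asIdeal := by
  classical
  obtain ⟨y, hy⟩ := IsDedekindDomain.exists_forall_sub_mem_ideal (s := insert w P)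
    (fun w : Pl L => w.asIdeal) (fun _ => 1) (fun w _ => w.prime)
    (fun w _ w' _ h h' => h (HeightOneSpectrum.ext h')) (fun w' => if w'.1 = w then 1 else 0)
  refine ⟨y, ?_, fun w' hw' hne => ?_⟩
  · have h1 := hy w (Finset.mem_insert_self _ _)
    rw [pow_one] at h1
    simpa using h1
  · have h1 := hy w' (Finset.mem_insert_of_mem hw')
    rw [pow_one] at h1
    simpa [hne] using h1

/-- The exponents of a product of distinct places. -/
theorem expo_prod (w : Pl L) (J : Finset (Pl L)) [Decidable (w ∈ J)] :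
    expo w (∏ w' ∈ J, w'.asIdeal) = if w ∈ J then 1 else 0 := by
  classical
  have key : ∀ J : Finset (Pl L), (∏ w' ∈ J, w'.asIdeal) ≠ ⊥ ∧
      expo w (∏ w' ∈ J, w'.asIdeal) = if w ∈ J then 1 else 0 := by
    intro J
    induction J using Finset.induction_on with
    | empty =>
      rw [Finset.prod_empty, Ideal.one_eq_top, if_neg (Finset.notMem_empty w)]
      exact ⟨top_ne_bot, CG2.GalL_expo_top w⟩
    | insert u J hu ih =>
      obtain ⟨h1, h2⟩ := ih
      rw [Finset.prod_insert hu]
      refine ⟨?_, ?_⟩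
      · rw [← Ideal.zero_eq_bot] at h1 ⊢
        exact mul_ne_zero (by rw [Ideal.zero_eq_bot]; exact u.ne_bot) h1
      · rw [CG2.GalL_expo_mul w u.ne_bot h1, h2]
        by_cases hwu : w = u
        · subst hwu
          rw [CG2.GalL_expo_self, if_neg hu, if_pos (Finset.mem_insert_self _ _)]
        · rw [CG2.GalL_expo_other hwu, zero_add]
          by_cases hwJ : w ∈ J
          · rw [if_pos hwJ, if_pos (Finset.mem_insert_of_mem hwJ)]
          · rw [if_neg hwJ, if_neg]
            rw [Finset.mem_insert]
            rintro (h | h)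
            · exact hwu h
            · exact hwJ h
  rw [(key J).2]
  congr

theorem prod_ne_bot (J : Finset (Pl L)) : (∏ w' ∈ J, w'.asIdeal) ≠ (⊥ : Ideal (𝓞 L)) := by
  rw [← Ideal.zero_eq_bot]
  exact Finset.prod_ne_zero_iff.2 fun w _ => w.ne_bot

end Pool.Agent.CGN
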