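import Pool.Agent.CGN.ULSum

/-!
# Frames: simultaneous diagonalisation modulo `π`
-/

noncomputable section

namespace Pool.Agent.CGN

open Matrix

/-- **UFrmA.** A commutative ring `A` acting on `k^ι` through a faithful action of its quotient
`k^ι` is diagonal in a suitable basis.
PROOF. `E_i = ρ (z_i)` are orthogonal idempotents, not zero; choose a non-zero column `b_i` of `E_i`.
The `b_i` are linearly independent, `ρ(x) b_i = f_i(x) b_i`. -/
theorem exists_frame {A R₀ k ι : Type} [CommRing A] [CommRing R₀] [Field k] [Fintype ι]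
    [DecidableEq ι] (ρ : A →+* Matrix ι ι k) (c : R₀ →+* A) (cb : R₀ →+* k)
    (hcb : Function.Surjective cb) (hρc : ∀ r, ρ (c r) = cb r • (1 : Matrix ι ι k))
    (f : ι → A →+* k) (hfc : ∀ i r, f i (c r) = cb r) (hf : ∀ x, (∀ i, f i x = 0) → ρ x = 0)
    (hf' : ∀ x, ρ x = 0 → ∀ i, f i x = 0) (z : ι → A) (hz : ∀ i, f i (z i) = 1)
    (hz' : ∀ i j, i ≠ j → f j (z i) = 0) :
    ∃ P : GL ι k, ∀ x, ρ x * (P : Matrix ι ι k) = (P : Matrix ι ι k) * diagonal fun i => f i x := by
  classical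
  have hE : ∀ i, ∃ b : ι → k, ρ (z i) *ᵥ b ≠ 0 := by
    intro i
    by_contra h
    push Not at h
    have h1 : ρ (z i) = 0 := by
      ext x y
      have h2 := congrFun (h (Pi.single y 1)) x
      rw [Matrix.mulVec_single_one] at h2
      exact h2
    have h3 := hf' _ h1 i
    rw [hz i] at h3
    exact one_ne_zero h3
  choose b' hb' using hE
  let b : ι → ι → k := fun i => ρ (z i) *ᵥ b' i
  have hb : ∀ i, b i ≠ 0 := hb'
  have hEE : ∀ i, ρ (z i) *ᵥ b i = b i := by
    intro i
    change ρ (z i) *ᵥ (ρ (z i) *ᵥ b' i) = ρ (z i) *ᵥ b' i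
    rw [Matrix.mulVec_mulVec, ← map_mul]
    have h1 : ρ (z i * z i - z i) = 0 := by
      refine hf _ fun j => ?_
      rw [map_sub, map_mul]
      by_cases hij : i = j
      · subst hij
        rw [hz i, mul_one, sub_self]
      · rw [hz' i j hij, mul_zero, sub_self]
    rw [map_sub, sub_eq_zero] at h1
    rw [h1]
  have hE0 : ∀ i j, i ≠ j → ρ (z j) *ᵥ b i = 0 := by
    intro i j hij
    change ρ (z j) *ᵥ (ρ (z i) *ᵥ b' i) = 0
    rw [Matrix.mulVec_mulVec, ← map_mul]
    have h1 : ρ (z j * z i) = 0 := by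
      refine hf _ fun l => ?_
      rw [map_mul]
      by_cases hil : i = l
      · subst hil
        rw [hz' j i (Ne.symm hij), zero_mul]
      · rw [hz' i l hil, mul_zero]
    rw [h1, Matrix.zero_mulVec]
  have hρ : ∀ x i, ρ x *ᵥ b i = f i x • b i := by
    intro x i
    obtain ⟨r, hr⟩ := hcb (f i x)
    change ρ x *ᵥ (ρ (z i) *ᵥ b' i) = f i x • (ρ (z i) *ᵥ b' i)
    have h1 : ρ ((x - c r) * z i) = 0 := by
      refine hf _ fun j => ?_
      rw [map_mul]
      by_cases hij : i = j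
      · subst hij
        rw [map_sub, hfc, hr, sub_self, zero_mul]
      · rw [hz' i j hij, mul_zero]
    rw [sub_mul, map_sub, sub_eq_zero, map_mul, map_mul, hρc, smul_mul_assoc, one_mul, hr] at h1
    rw [Matrix.mulVec_mulVec, h1, Matrix.smul_mulVec]
  let P : Matrix ι ι k := Matrix.of fun x i => b i x
  have hPv : ∀ y : ι → k, P *ᵥ y = ∑ i, y i • b i := by
    intro y
    funext x
    rw [Finset.sum_apply]
    simp only [Matrix.mulVec, dotProduct, Pi.smul_apply, smul_eq_mul]
    refine Finset.sum_congr rfl fun i _ => ?_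
    rw [mul_comm]
    rfl
  have hzP : ∀ (y : ι → k) j, ρ (z j) *ᵥ (P *ᵥ y) = y j • b j := by
    intro y j
    rw [hPv, Matrix.mulVec_sum, Finset.sum_eq_single j]
    · rw [Matrix.mulVec_smul, hEE]
    · intro i _ hij
      rw [Matrix.mulVec_smul, hE0 i j hij, smul_zero]
    · intro hj
      exact absurd (Finset.mem_univ j) hj
  have hPinj : Function.Injective P.mulVec := by
    intro y y' h
    funext j
    have h1 : y j • b j = y' j • b j := by
      rw [← hzP, ← hzP]
      exact congrArg (fun w => ρ (z j) *ᵥ w) h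
    have h2 : (y j - y' j) • b j = 0 := by rw [sub_smul, h1, sub_self]
    rcases smul_eq_zero.1 h2 with h3 | h3
    · exact sub_eq_zero.1 h3
    · exact absurd h3 (hb j)
  obtain ⟨P', hP'⟩ := Matrix.mulVec_injective_iff_isUnit.1 hPinj
  refine ⟨P', fun x => ?_⟩
  rw [hP']
  ext a i
  rw [mul_diagonal]
  have h1 := congrFun (hρ x i) a
  rw [Pi.smul_apply, smul_eq_mul] at h1
  calc (ρ x * P) a i = (ρ x *ᵥ b i) a := rfl
    _ = f i x * b i a := h1
    _ = P a i * f i x := mul_comm _ _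

/-- **UFrmB.** Lifting of invertible matrices. -/
theorem lift_GL {R k ι : Type} [CommRing R] [Field k] [Fintype ι] [DecidableEq ι] (res : R →+* k)
    (hres : Function.Surjective res) (hunit : ∀ x, res x ≠ 0 → IsUnit x) (P : GL ι k) :
    ∃ m : GL ι R, (m : Matrix ι ι R).map res = (P : Matrix ι ι k) := by
  choose s hs using hres
  let A : Matrix ι ι R := (P : Matrix ι ι k).map s
  have hA : A.map res = (P : Matrix ι ι k) := by
    ext i j
    exact hs _
  have h1 : IsUnit A.det := by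
    apply hunit
    have h2 : res A.det = (A.map res).det := RingHom.map_det res A
    rw [h2, hA]
    exact ((Matrix.isUnit_iff_isUnit_det _).1 P.isUnit).ne_zero
  obtain ⟨m, hm⟩ := (Matrix.isUnit_iff_isUnit_det A).2 h1
  exact ⟨m, by rw [hm, hA]⟩

/-- **UFrmC.** The coset of an element of the torus.
PROOF. `C = m⁻¹ X m = DJ π J * U`, `C' = m⁻¹ X' m = V * DJ π Jᶜ` and `C C' = π w`, `w = m⁻¹ W m`; then
`C w⁻¹ V = DJ π J`. -/
theorem coset_frame {R k ι E : Type} [CommRing R] [Field k] [Fintype ι] [DecidableEq ι]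
    (res : R →+* k) [Field E] [Algebra R E] (hinj : Function.Injective (algebraMap R E)) {π : R}
    (hπ : algebraMap R E π ≠ 0) (hker : ∀ x, res x = 0 → ∃ y, x = π * y) (m W : GL ι R)
    (B : GL ι E) (X X' : Matrix ι ι R) (hB : (B : Matrix ι ι E) = X.map (algebraMap R E))
    (hXX : X * X' = π • (W : Matrix ι ι R)) (hXX' : X' * X = π • (W : Matrix ι ι R)) (tX tX' : ι → k)
    (hX : (((m⁻¹ : GL ι R) : Matrix ι ι R) * X * (m : Matrix ι ι R)).map res = diagonal tX)
    (hX' : (((m⁻¹ : GL ι R) : Matrix ι ι R) * X' * (m : Matrix ι ι R)).map res = diagonal tX')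
    (J : Finset ι) (hJ : ∀ i ∈ J, tX i = 0) (hJ' : ∀ i, i ∉ J → tX' i = 0) :
    (B : GL ι E ⧸ GZg R ι E) = GeneralLinearGroup.map (algebraMap R E) m •
      ((DJu (algebraMap R E π) hπ J : GL ι E) : GL ι E ⧸ GZg R ι E) := by
  classical
  obtain ⟨C, hC⟩ : ∃ C, C = ((m⁻¹ : GL ι R) : Matrix ι ι R) * X * (m : Matrix ι ι R) := ⟨_, rfl⟩
  obtain ⟨C', hC'⟩ : ∃ C', C' = ((m⁻¹ : GL ι R) : Matrix ι ι R) * X' * (m : Matrix ι ι R) :=
    ⟨_, rfl⟩
  rw [← hC] at hX
  rw [← hC'] at hX'
  have hmm : (m : Matrix ι ι R) * ((m⁻¹ : GL ι R) : Matrix ι ι R) = 1 := by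
    rw [← Units.val_mul, mul_inv_cancel, Units.val_one]
  have hmm' : ((m⁻¹ : GL ι R) : Matrix ι ι R) * (m : Matrix ι ι R) = 1 := by
    rw [← Units.val_mul, inv_mul_cancel, Units.val_one]
  have hreg : ∀ x y : R, π * x = π * y → x = y := by
    intro x y hxy
    apply hinj
    have h5 := congrArg (algebraMap R E) hxy
    rw [map_mul, map_mul] at h5
    exact mul_left_cancel₀ hπ h5
  -- the factorisations
  obtain ⟨U, hU⟩ : ∃ U, C = DJ π J * U := by
    have h1 : ∀ i j, i ∈ J → ∃ y, C i j = π * y := by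
      intro i j hi
      refine hker _ ?_
      have h2 := congrFun (congrFun hX i) j
      rw [Matrix.map_apply] at h2
      rw [h2]
      by_cases hij : i = j
      · rw [hij, diagonal_apply_eq, hJ j (hij ▸ hi)]
      · rw [diagonal_apply_ne _ hij]
    choose! y hy using h1
    refine ⟨Matrix.of fun i j => if i ∈ J then y i j else C i j, ?_⟩
    ext i j
    rw [DJ, diagonal_mul, Matrix.of_apply]
    by_cases hi : i ∈ J
    · rw [if_pos hi, if_pos hi, hy i j hi]
    · rw [if_neg hi, if_neg hi, one_mul]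
  obtain ⟨V, hV⟩ : ∃ V, C' = V * DJ π Jᶜ := by
    have h1 : ∀ i j, j ∉ J → ∃ y, C' i j = π * y := by
      intro i j hj
      refine hker _ ?_
      have h2 := congrFun (congrFun hX' i) j
      rw [Matrix.map_apply] at h2
      rw [h2]
      by_cases hij : i = j
      · rw [hij, diagonal_apply_eq, hJ' j hj]
      · rw [diagonal_apply_ne _ hij]
    choose! y hy using h1
    refine ⟨Matrix.of fun i j => if j ∈ J then C' i j else y i j, ?_⟩
    ext i j
    rw [DJ, mul_diagonal, Matrix.of_apply]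
    by_cases hj : j ∈ J
    · rw [if_pos hj, if_neg (by simpa using hj), mul_one]
    · rw [if_neg hj, if_pos (by simpa using hj), mul_comm, ← hy i j hj]
  obtain ⟨w, hw⟩ : ∃ w : GL ι R, w = m⁻¹ * W * m := ⟨_, rfl⟩
  have hCC : C * C' = π • (w : Matrix ι ι R) := by
    rw [hC, hC', hw, Units.val_mul, Units.val_mul]
    calc ((m⁻¹ : GL ι R) : Matrix ι ι R) * X * (m : Matrix ι ι R) *
          (((m⁻¹ : GL ι R) : Matrix ι ι R) * X' * (m : Matrix ι ι R)) =
          ((m⁻¹ : GL ι R) : Matrix ι ι R) * (X * (((m : Matrix ι ι R) *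
            ((m⁻¹ : GL ι R) : Matrix ι ι R)) * X')) * (m : Matrix ι ι R) := by
          simp only [mul_assoc]
      _ = _ := by rw [hmm, one_mul, hXX, mul_smul_comm, smul_mul_assoc]
  have hCC' : C' * C = π • (w : Matrix ι ι R) := by
    rw [hC, hC', hw, Units.val_mul, Units.val_mul]
    calc ((m⁻¹ : GL ι R) : Matrix ι ι R) * X' * (m : Matrix ι ι R) *
          (((m⁻¹ : GL ι R) : Matrix ι ι R) * X * (m : Matrix ι ι R)) =
          ((m⁻¹ : GL ι R) : Matrix ι ι R) * (X' * (((m : Matrix ι ι R) *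
            ((m⁻¹ : GL ι R) : Matrix ι ι R)) * X)) * (m : Matrix ι ι R) := by
          simp only [mul_assoc]
      _ = _ := by rw [hmm, one_mul, hXX', mul_smul_comm, smul_mul_assoc]
  -- `w` commutes with `C'`
  have hwC : (w : Matrix ι ι R) * C' = C' * (w : Matrix ι ι R) := by
    have h1 : π • ((w : Matrix ι ι R) * C') = π • (C' * (w : Matrix ι ι R)) := by
      rw [← smul_mul_assoc, ← hCC', mul_assoc, hCC, mul_smul_comm]
    ext i j
    exact hreg _ _ (congrFun (congrFun h1 i) j)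
  have hwC' : ((w⁻¹ : GL ι R) : Matrix ι ι R) * C' = C' * ((w⁻¹ : GL ι R) : Matrix ι ι R) := by
    have h1 : (w : Matrix ι ι R) * ((w⁻¹ : GL ι R) : Matrix ι ι R) = 1 := by
      rw [← Units.val_mul, mul_inv_cancel, Units.val_one]
    have h2 : ((w⁻¹ : GL ι R) : Matrix ι ι R) * (w : Matrix ι ι R) = 1 := by
      rw [← Units.val_mul, inv_mul_cancel, Units.val_one]
    calc ((w⁻¹ : GL ι R) : Matrix ι ι R) * C' = ((w⁻¹ : GL ι R) : Matrix ι ι R) *
          (C' * (w : Matrix ι ι R)) * ((w⁻¹ : GL ι R) : Matrix ι ι R) := by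
          rw [mul_assoc, mul_assoc C', h1, mul_one]
      _ = _ := by rw [← hwC, ← mul_assoc, h2, one_mul]
  have hkey : C * (((w⁻¹ : GL ι R) : Matrix ι ι R) * V) = DJ π J := by
    have h1 : C * (((w⁻¹ : GL ι R) : Matrix ι ι R) * V) * DJ π Jᶜ = DJ π J * DJ π Jᶜ := by
      have h2 : DJ π J * DJ π Jᶜ = π • (1 : Matrix ι ι R) := by
        rw [DJ, DJ, diagonal_mul_diagonal, ← diagonal_one, ← diagonal_smul]
        congr 1
        funext i
        by_cases h : i ∈ J
        · rw [if_pos h, if_neg (by simpa using h), mul_one, Pi.smul_apply, smul_eq_mul, mul_one]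
        · rw [if_neg h, if_pos (by simpa using h), one_mul, Pi.smul_apply, smul_eq_mul, mul_one]
      rw [h2, mul_assoc, mul_assoc, ← hV, hwC', ← mul_assoc, hCC, smul_mul_assoc, ← Units.val_mul,
        mul_inv_cancel, Units.val_one]
    ext i j
    have h3 := congrFun (congrFun h1 i) j
    rw [DJ, mul_diagonal, mul_diagonal] at h3
    by_cases hj : j ∈ Jᶜ
    · rw [if_pos hj, mul_comm, mul_comm _ π] at h3
      exact hreg _ _ h3
    · rw [if_neg hj, mul_one, mul_one] at h3
      exact h3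
  change _ = ((GeneralLinearGroup.map (algebraMap R E) m * DJu (algebraMap R E π) hπ J : GL ι E) :
    GL ι E ⧸ GZg R ι E)
  have hXe : X = (m : Matrix ι ι R) * C * ((m⁻¹ : GL ι R) : Matrix ι ι R) := by
    rw [hC]
    calc X = ((m : Matrix ι ι R) * ((m⁻¹ : GL ι R) : Matrix ι ι R)) * X *
          ((m : Matrix ι ι R) * ((m⁻¹ : GL ι R) : Matrix ι ι R)) := by
          rw [hmm, one_mul, mul_one]
      _ = _ := by simp only [mul_assoc]
  refine coset_eq hinj (U := U * ((m⁻¹ : GL ι R) : Matrix ι ι R))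
    (V := (m : Matrix ι ι R) * (((w⁻¹ : GL ι R) : Matrix ι ι R) * V)) ?_ ?_
  · rw [Units.val_mul, DJu_val, hB, ← DJ_map, hXe, hU]
    change _ = ((m : Matrix ι ι R).map (algebraMap R E)) * _ * _
    rw [← Matrix.map_mul, ← Matrix.map_mul]
    simp only [mul_assoc]
  · rw [Units.val_mul, DJu_val, hB, ← DJ_map, ← Matrix.map_mul]
    change ((m : Matrix ι ι R).map (algebraMap R E)) * _ = _
    rw [← Matrix.map_mul, ← hkey]
    congr 1
    conv_rhs => rw [hXe]
    calc (m : Matrix ι ι R) * (C * (((w⁻¹ : GL ι R) : Matrix ι ι R) * V)) =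
          (m : Matrix ι ι R) * C * 1 * (((w⁻¹ : GL ι R) : Matrix ι ι R) * V) := by
          rw [mul_one, mul_assoc]
      _ = _ := by
          rw [← hmm']
          simp only [mul_assoc]

end Pool.Agent.CGN
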