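import Pool.Agent.CGN.ULSum
import Pool.Agent.CGN.UEmb
import Pool.Agent.CGN.Fam
import Pool.Agent.CGQ.ULE

/-!
# The sum over the cosets of a Hecke operator
-/

noncomputable section

namespace Pool.Agent.CGN

open NumberField IsDedekindDomain Matrix
open Pool.Agent.CG2 (Pl Fv Ov)
open Pool.Agent.CGQ (Reps)

variable {F : Type} [Field F] [NumberField F] {n : ℕ}

/-- The coset of the diagonal matrix with the entries `π` for the indices in `J`. -/
def dcs (n : ℕ) (v : Pl F) (J : Finset (Fin n)) : GQ n v ⧸ GZ n v :=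
  ((DJu (algebraMap (Ov v) (Fv v) (piv v)) (piv_ne v) J : GQ n v) : GQ n v ⧸ GZ n v)

theorem dgk_eq (v : Pl F) (k : ℕ) : dgk n v k = DJu (algebraMap (Ov v) (Fv v) (piv v))
    (piv_ne v) (Finset.univ.filter fun i : Fin n => (i : ℕ) < k) := by
  apply Units.ext
  rw [dgk_val, DJu_val, DJ]
  congr 1
  funext i
  rw [piv_coe]
  by_cases h : (i : ℕ) < k
  · rw [if_pos h, if_pos (by simpa using h)]
  · rw [if_neg h, if_neg (by simpa using h)]

theorem card_lt_filter {k : ℕ} (hk : k ≤ n) :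
    (Finset.univ.filter fun i : Fin n => (i : ℕ) < k).card = k := by
  rw [Fin.card_filter_val_lt]
  exact min_eq_right hk

/-- **ULHec.** The sum over representatives of the orbits of `A` on the cosets of the Hecke operator
with `j + 1` entries `π` is the sum over the `(j + 1)`-subsets `J` at the diagonal cosets
`m • dcs J`. -/
theorem hecke_local {v : Pl F} {κ : Type} [Field κ] {p : ℕ} [hp : Fact p.Prime] [CharP κ p]
    (M : ℕ) {m A B : GQ n v} (hm : m ∈ GZ n v) (hAB : A * B = B * A) (a b : GL (Fin n) (Ov v))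
    (hA : m⁻¹ * A * m = mapO v a) (hB : m⁻¹ * B * m = mapO v b) (ta tb : Fin n → (kv v)ˣ)
    (ha : (a : Matrix (Fin n) (Fin n) (Ov v)).map (resv v) = diagonal fun i => (ta i : kv v))
    (hb : (b : Matrix (Fin n) (Fin n) (Ov v)).map (resv v) = diagonal fun i => (tb i : kv v))
    (hpow : ∀ x y, x ≠ y → ∃ z : (kv v)ˣ, z ^ p ^ M = ta x / ta y)
    (hnpow : ∀ x y, x ≠ y → ¬ ∃ z : (kv v)ˣ, z ^ p ^ M = tb x / tb y) (j : Fin n)
    (H : GQ n v ⧸ GZ n v → κ) (hHA : ∀ c, H (A • c) = H c) (hHB : ∀ c, H (B • c) = H c)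
    (Rr : Finset (GQ n v ⧸ GZ n v))
    (hR : Reps (fun c => A • c) (cosets_finite v (some j)).toFinset Rr) :
    ∑ c ∈ Rr, H c = ∑ J ∈ Finset.powersetCard ((j : ℕ) + 1) (Finset.univ : Finset (Fin n)),
      H (m • dcs n v J) := by
  have hN : ∀ c : GQ n v ⧸ GZ n v, c ∈ (cosets_finite v (some j)).toFinset ↔
      ∃ k ∈ GZ n v, c = ((k * DJu (algebraMap (Ov v) (Fv v) (piv v)) (piv_ne v)
        (Finset.univ.filter fun i : Fin n => (i : ℕ) < (j : ℕ) + 1) : GQ n v) :
          GQ n v ⧸ GZ n v) := by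
    intro c
    rw [Set.Finite.mem_toFinset, ← dgk_eq]
    rfl
  have h1 := local_sum (resv v) (ov_inj v) (resv_surj v) (piv_ne v) (resv_ker v) (resv_pi v)
    (piv_not_unit v) (p := p) M hm hAB a b hA hB ta tb ha hb hpow hnpow
    (Finset.univ.filter fun i : Fin n => (i : ℕ) < (j : ℕ) + 1)
    (cosets_finite v (some j)).toFinset hN H hHA hHB Rr hR.sub hR.ex hR.inj
  rw [card_lt_filter (by omega)] at h1
  exact h1

end Pool.Agent.CGN
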