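import Pool.Agent.CGN.SC
import Pool.Agent.CGQ.Sys

/-!
# The multiplicative group of an algebra of degree `n` over a number field
-/

noncomputable section

namespace Pool.Agent.CGN

open NumberField IsDedekindDomain
open Pool.Agent.CG2 (Pl Fv Ov)
open Pool.Agent.CGQ (Sys)

/-- The data of an algebra of dimension `n²` over the number field `F`: structure constants in
the ring of integers. -/
structure AD (F : Type) [Field F] [NumberField F] where
  /-- the degree -/
  n : ℕ
  /-- the structure constants -/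
  s : SC (Fin n × Fin n) (𝓞 F)

variable {F : Type} [Field F] [NumberField F]

/-- The structure constants as elements of `F`. -/
def AD.sF (A : AD F) : SC (Fin A.n × Fin A.n) F := A.s.map (algebraMap (𝓞 F) F)

/-- The algebra `D` over `F`. -/
abbrev DF (A : AD F) : Type := A.sF.Alg

/-- The algebra `D ⊗ E` for a homomorphism `φ : F → E`. -/
abbrev DE (A : AD F) {E : Type} [CommRing E] (φ : F →+* E) : Type := (A.sF.map φ).Alg

/-- The embedding of `D` in `D ⊗ E`. -/
def dE (A : AD F) {E : Type} [CommRing E] (φ : F →+* E) : DF A →+* DE A φ := A.sF.hom φ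

@[simp] theorem dE_co (A : AD F) {E : Type} [CommRing E] (φ : F →+* E) (x : DF A)
    (i : Fin A.n × Fin A.n) : (dE A φ x).co i = φ (x.co i) := rfl

/-- The algebra `D_v = D ⊗ F_v`. -/
abbrev DV (A : AD F) (v : Pl F) : Type := DE A (algebraMap F (Fv v))

/-- The embedding of `D` in `D_v`. -/
abbrev dloc (A : AD F) (v : Pl F) : DF A →+* DV A v := dE A (algebraMap F (Fv v))

/-- The standard order over `O_v`. -/
abbrev DO (A : AD F) (v : Pl F) : Type := (A.s.map (algebraMap (𝓞 F) (Ov v))).Alg

/-- The inclusion of the standard order over `O_v` in `D_v`. -/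
def dint (A : AD F) (v : Pl F) : DO A v →+* DV A v :=
  (A.s.map (algebraMap (𝓞 F) (Ov v))).hom (algebraMap (Ov v) (Fv v))

@[simp] theorem dint_co (A : AD F) (v : Pl F) (x : DO A v) (i : Fin A.n × Fin A.n) :
    (dint A v x).co i = (x.co i : Fv v) := rfl

theorem dint_inj (A : AD F) (v : Pl F) : Function.Injective (dint A v) := by
  intro x y h
  apply SC.Alg.ext
  intro i
  exact Subtype.ext (congrArg (fun z => SC.Alg.co z i) h)

/-- The unit group of the standard order over `O_v`. -/
def BZ (A : AD F) (v : Pl F) : Subgroup (DV A v)ˣ :=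
  (Units.map (dint A v : DO A v →* DV A v)).range

/-- The coordinates of `x` are in `O_v`. -/
def IntA (A : AD F) (v : Pl F) (x : DV A v) : Prop := ∀ i, Valued.v (x.co i) ≤ 1

theorem intA_iff (A : AD F) (v : Pl F) (x : DV A v) : IntA A v x ↔ ∃ y, dint A v y = x := by
  constructor
  · intro h
    exact ⟨SC.Alg.mk fun i => ⟨x.co i, h i⟩, rfl⟩
  · rintro ⟨y, rfl⟩ i
    exact (y.co i).2

theorem mem_BZ_iff (A : AD F) (v : Pl F) (g : (DV A v)ˣ) :
    g ∈ BZ A v ↔ IntA A v g.1 ∧ IntA A v (g⁻¹ : (DV A v)ˣ).1 := by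
  constructor
  · rintro ⟨u, rfl⟩
    constructor
    · exact (intA_iff A v _).2 ⟨u.1, rfl⟩
    · rw [← map_inv]
      exact (intA_iff A v _).2 ⟨(u⁻¹).1, rfl⟩
  · rintro ⟨h1, h2⟩
    obtain ⟨x, hx⟩ := (intA_iff A v _).1 h1
    obtain ⟨y, hy⟩ := (intA_iff A v _).1 h2
    refine ⟨⟨x, y, ?_, ?_⟩, ?_⟩
    · apply dint_inj A v
      rw [map_mul, hx, hy, map_one, Units.mul_inv]
    · apply dint_inj A v
      rw [map_mul, hx, hy, map_one, Units.inv_mul]
    · exact Units.ext hx

theorem isOpen_IntA (A : AD F) (v : Pl F) : IsOpen {x : DV A v | IntA A v x} := by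
  have hb : IsOpen {x : Fv v | Valued.v x ≤ 1} := CG2.isOpen_val_le v 1 one_ne_zero
  have h : {x : DV A v | IntA A v x} = ⋂ i, {x | Valued.v (x.co i) ≤ 1} := by
    ext x
    simp [IntA]
  rw [h]
  exact isOpen_iInter_of_finite fun i => hb.preimage (continuous_co i)

theorem isOpen_BZ (A : AD F) (v : Pl F) : IsOpen (BZ A v : Set (DV A v)ˣ) := by
  have h0 := isOpen_IntA A v
  have h : (BZ A v : Set (DV A v)ˣ) = (fun g : (DV A v)ˣ => g.1) ⁻¹' {x | IntA A v x} ∩
      (fun g : (DV A v)ˣ => (g⁻¹ : (DV A v)ˣ).1) ⁻¹' {x | IntA A v x} := by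
    ext g
    exact mem_BZ_iff A v g
  rw [h]
  exact (h0.preimage Units.continuous_val).inter
    (h0.preimage (Units.continuous_val.comp continuous_inv))

theorem isCompact_BZ (A : AD F) (v : Pl F) : IsCompact (BZ A v : Set (DV A v)ˣ) := by
  have h0 : CompactSpace (Ov v) := inferInstance
  have h1 : CompactSpace (DO A v) := inferInstance
  have h2 : CompactSpace (DO A v)ˣ := inferInstance
  have h3 : (BZ A v : Set (DV A v)ˣ) =
      Set.range (Units.map (dint A v : DO A v →* DV A v)) := rfl
  rw [h3]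
  have hc : Continuous (dint A v) := continuous_alg fun i =>
    (continuous_subtype_val (p := fun x : Fv v => x ∈ Ov v)).comp (continuous_co i)
  exact isCompact_range (Continuous.units_map _ hc)

theorem dloc_fin (A : AD F) (x : DF A) : {v : Pl F | ¬ IntA A v (dloc A v x)}.Finite := by
  have h : {v : Pl F | ¬ IntA A v (dloc A v x)} ⊆
      ⋃ i, {v : Pl F | ¬ Valued.v ((x.co i : F) : Fv v) ≤ 1} := by
    intro v hv
    by_contra hc
    simp only [Set.mem_iUnion, Set.mem_ofPred_eq, not_exists, not_not] at hc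
    exact hv fun i => hc i
  exact (Set.finite_iUnion fun i => CG2.finite_val_gt _).subset h

/-- The real places of `F` where `D` is split. -/
def SPl (A : AD F) : Type := {w : InfinitePlace F // ∃ h : w.IsReal,
  Nonempty (DE A (InfinitePlace.embedding_of_isReal h) ≃ₐ[ℝ] Matrix (Fin A.n) (Fin A.n) ℝ)}

variable {A : AD F}

/-- The embedding given by such a place. -/
def SPl.emb (w : SPl A) : F →+* ℝ := InfinitePlace.embedding_of_isReal w.2.choose

/-- An isomorphism of `D_w` with the matrix algebra. -/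
def SPl.iso (w : SPl A) : DE A w.emb ≃ₐ[ℝ] Matrix (Fin A.n) (Fin A.n) ℝ := w.2.choose_spec.some

instance (A : AD F) : Finite (SPl A) := Subtype.finite

/-- The reduced norm at a real place where `D` is split. -/
def SPl.det (w : SPl A) (x : DF A) : ℝ := (w.iso (dE A w.emb x)).det

theorem SPl.det_mul (w : SPl A) (x y : DF A) : w.det (x * y) = w.det x * w.det y := by
  rw [SPl.det, map_mul, map_mul, Matrix.det_mul]
  rfl

theorem SPl.det_one (w : SPl A) : w.det 1 = 1 := by
  rw [SPl.det, map_one, map_one, Matrix.det_one]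

theorem SPl.det_ne (w : SPl A) (γ : (DF A)ˣ) : w.det γ.1 ≠ 0 := by
  intro h
  have h1 := w.det_mul γ.1 (γ⁻¹ : (DF A)ˣ).1
  rw [Units.mul_inv, w.det_one, h, zero_mul] at h1
  exact one_ne_zero h1

/-- The signs of the reduced norm at the real places where `D` is split. -/
def dsgn (A : AD F) : (DF A)ˣ →* (SPl A → ℤˣ) where
  toFun γ w := if 0 < w.det γ.1 then 1 else -1
  map_one' := by
    funext w
    simp [SPl.det_one]
  map_mul' x y := by
    funext w
    have hx := w.det_ne x
    have hy := w.det_ne y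
    simp only [Units.val_mul, SPl.det_mul, Pi.mul_apply]
    rcases lt_or_gt_of_ne hx with h1 | h1 <;> rcases lt_or_gt_of_ne hy with h2 | h2
    · rw [if_pos (mul_pos_of_neg_of_neg h1 h2), if_neg (not_lt.2 h1.le), if_neg (not_lt.2 h2.le)]
      simp
    · rw [if_neg (not_lt.2 (mul_nonpos_of_nonpos_of_nonneg h1.le h2.le)), if_neg (not_lt.2 h1.le),
        if_pos h2]
      simp
    · rw [if_neg (not_lt.2 (mul_nonpos_of_nonneg_of_nonpos h1.le h2.le)), if_pos h1,
        if_neg (not_lt.2 h2.le)]
      simp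
    · rw [if_pos (mul_pos h1 h2), if_pos h1, if_pos h2]
      simp

/-- The system of groups attached to `D`. -/
def sysA (A : AD F) : Sys F where
  G := (DF A)ˣ
  grpG := inferInstance
  L v := (DV A v)ˣ
  grpL _ := inferInstance
  topL _ := inferInstance
  tgL _ := inferInstance
  B := BZ A
  isOpen_B := isOpen_BZ A
  isCompact_B := isCompact_BZ A
  loc v := Units.map (dloc A v : DF A →* DV A v)
  fin γ := by
    refine ((dloc_fin A γ.1).union (dloc_fin A (γ⁻¹ : (DF A)ˣ).1)).subset ?_
    intro v hv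
    by_contra hc
    simp only [Set.mem_union, Set.mem_ofPred_eq, not_or, not_not] at hc
    exact hv ((mem_BZ_iff A v _).2 hc)
  Sg := SPl A → ℤˣ
  grpS := inferInstance
  finS := inferInstance
  sgn := dsgn A

/-- `D` is a division algebra. -/
def IsDiv (A : AD F) : Prop := ∀ x : DF A, x ≠ 0 → IsUnit x

/-- The centre of `D` is `F`. -/
def IsCen (A : AD F) : Prop := ∀ x : DF A, (∀ y : DF A, x * y = y * x) → ∃ r : F, x = r • 1

/-- The number of the real places where `D` is split. -/
def AD.sp (A : AD F) : ℕ := Nat.card (SPl A)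

/-- The real rank of `SL₁(D ⊗ ℝ)`. -/
def AD.rk (A : AD F) : ℕ :=
  (A.n - 1) * (A.sp + InfinitePlace.nrComplexPlaces F) + (A.n / 2 - 1) * (InfinitePlace.nrRealPlaces F - A.sp)

/-- The dimension of the locally symmetric space. -/
def AD.dim (A : AD F) : ℕ :=
  A.sp * (A.n * (A.n + 1) / 2) + (InfinitePlace.nrRealPlaces F - A.sp) * (A.n * (A.n - 1) / 2) +
    InfinitePlace.nrComplexPlaces F * A.n ^ 2 - 1

end Pool.Agent.CGN
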