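import Pool.Agent.CGQ.LEC
import Pool.Agent.CGN.LEA

/-!
# Degree zero
-/

noncomputable section

namespace Pool.Agent.CGN

open NumberField IsDedekindDomain CategoryTheory
open Pool.Agent.CG2 (Pl)
open Pool.Agent.CGQ

variable {F : Type} [Field F] [NumberField F] {n : ℕ} {𝒟 : Sys F} {S : Set (Pl F)}
  {Φ : Chart n 𝒟 S}
variable {K : Subgroup 𝒟.A} {O : Type} [CommRing O] {k : Type} [AddCommGroup k] [Module O k]

/-- The form attached to a class in degree zero. -/
private def fm0 (z : groupCohomology (coeff K (triv K O k)) 0) : Forms K (triv K O k) :=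
  (CG2.CellTop_h0 (coeff K (triv K O k)) z).1

private theorem ev0_apply (y : 𝒟.Pt) (z : groupCohomology (coeff K (triv K O k)) 0) :
    ev0 K O k y z = (fm0 z).1 y := rfl

private theorem fm0_hecke (hU : UnramOff K (triv K O k) Φ) (t : Idx n S)
    (z : groupCohomology (coeff K (triv K O k)) 0) :
    fm0 (heckeCoh K (triv K O k) hU 0 t z) = heckeLin K (triv K O k) hU t (fm0 z) :=
  CG2.CellTop_h0_nat (heckeHom K (triv K O k) hU t) z

theorem ev0_T (hU : UnramOff K (triv K O k) Φ) (v : {v : Pl F // v ∉ S}) (j : Option (Fin n))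
    (y : 𝒟.Pt) :
    ev0 K O k y ∘ₗ heckeCoh K (triv K O k) hU 0 (v, j) =
      ∑ c ∈ (cosets_finite v.1 j).toFinset, ev0 K O k (nb Φ v y c) := by
  apply LinearMap.ext
  intro z
  rw [LinearMap.comp_apply, ev0_apply, fm0_hecke, LinearMap.sum_apply]
  rfl

theorem exists_ptfam [IsLocalRing O] (hK : HypOff K Φ)
    (hfin : Module.Finite O (groupCohomology
      (coeff K (triv K O (IsLocalRing.ResidueField O))) 0))
    (m : Ideal (HeckeAlg n S O)) [m.IsMaximal]
    (hm : ¬ Dead K (triv K O (IsLocalRing.ResidueField O)) (unram_triv hK) 0 m)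
    (κ : Type) [Field κ] [Algebra (HeckeAlg n S O ⧸ m) κ] :
    ∃ E : PtFam K Φ κ 1 (fun v j => eig m κ (v, j)), ∃ y, E.h y ≠ 0 := by
  have hU : UnramOff K (triv K O (IsLocalRing.ResidueField O)) Φ := unram_triv hK
  have hm' : ∃ z : groupCohomology (coeff K (triv K O (IsLocalRing.ResidueField O))) 0,
      ∀ t ∉ m, hact K (triv K O (IsLocalRing.ResidueField O)) hU 0 t z ≠ 0 := by
    by_contra hcon
    apply hm
    intro z
    by_contra h2
    apply hcon
    refine ⟨z, fun t ht h0 => h2 ⟨t, ht, h0⟩⟩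
  obtain ⟨φ, ⟨y, hy⟩, hφ⟩ := exists_dual_eig
    (M := groupCohomology (coeff K (triv K O (IsLocalRing.ResidueField O))) 0)
    (fun c hc z => coh_killed K 0 c hc z)
    (hact K (triv K O (IsLocalRing.ResidueField O)) hU 0) m hm' κ
    (fun y : 𝒟.Pt => ev0 K O (IsLocalRing.ResidueField O) y) (fun z h => ev0_sep z h)
  refine ⟨{ h := fun y => φ (ev0 K O (IsLocalRing.ResidueField O) y)
            h_rt := fun y κ hκ => by rw [ev0_rt y κ hκ]
            h_act := fun y δ => by rw [ev0_act y δ]; simp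
            h_T := fun v j y => ?_ }, y, hy⟩
  rw [← map_sum, ← ev0_T hU v j y, ← hact_X, hφ]
  rfl

end Pool.Agent.CGN
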