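import Pool.Agent.CGN.LEE
import Pool.Agent.CGN.LEC

/-!
# Degree one: the family of an eigenclass
-/

noncomputable section

namespace Pool.Agent.CGN

open NumberField IsDedekindDomain CategoryTheory
open Pool.Agent.CG2 (Pl)
open Pool.Agent.CGQ

variable {F : Type} [Field F] [NumberField F] {n : ℕ} {𝒟 : Sys F} {S : Set (Pl F)}
  {Φ : Chart n 𝒟 S}
variable {K : Subgroup 𝒟.A} {O : Type} [CommRing O]

theorem exists_bigfam [IsLocalRing O] (hK : HypOff K Φ)
    (hfin : Module.Finite O (groupCohomology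
      (coeff K (triv K O (IsLocalRing.ResidueField O))) 1))
    (m : Ideal (HeckeAlg n S O)) [m.IsMaximal]
    (hm : ¬ Dead K (triv K O (IsLocalRing.ResidueField O)) (unram_triv hK) 1 m)
    (κ : Type) [Field κ] [Algebra (HeckeAlg n S O ⧸ m) κ] :
    ∃ E : BigFam K Φ κ 1 (fun v j => eig m κ (v, j)), ∃ y, ∃ γ ∈ Stab K y, E.h y γ ≠ 0 := by
  have hU : UnramOff K (triv K O (IsLocalRing.ResidueField O)) Φ := unram_triv hK
  have hm' : ∃ z : groupCohomology (coeff K (triv K O (IsLocalRing.ResidueField O))) 1,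
      ∀ t ∉ m, hact K (triv K O (IsLocalRing.ResidueField O)) hU 1 t z ≠ 0 := by
    by_contra hcon
    apply hm
    intro z
    by_contra h2
    apply hcon
    refine ⟨z, fun t ht h0 => h2 ⟨t, ht, h0⟩⟩
  obtain ⟨E, h_rt, h_act, h_mul, h_T, h_sep⟩ :=
    exists_ev1 (O := O) (k := IsLocalRing.ResidueField O) hK hU
  obtain ⟨φ, ⟨⟨y, γ⟩, hy⟩, hφ⟩ := exists_dual_eig
    (M := groupCohomology (coeff K (triv K O (IsLocalRing.ResidueField O))) 1)
    (fun c hc z => coh_killed K 1 c hc z)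
    (hact K (triv K O (IsLocalRing.ResidueField O)) hU 1) m hm' κ
    (ι := Σ y : 𝒟.Pt, Stab K y) (fun a => E a.1 a.2.1)
    (fun z h => h_sep z (fun y γ hγ => h ⟨y, ⟨γ, hγ⟩⟩))
  refine ⟨{ h := fun y γ => φ (E y γ)
            h_rt := fun y κ hκ γ => by rw [h_rt y κ hκ]
            h_act := fun y δ γ hγ => by rw [h_act y δ γ hγ]; simp
            h_mul := fun y γ hγ γ' hγ' => by rw [h_mul y γ hγ γ' hγ', map_add]
            h_T := fun v j y γ hγ R hR => ?_ }, y, γ.1, γ.2, hy⟩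
  rw [← map_sum, ← h_T v j y γ hγ R hR, ← hact_X, hφ]
  rfl

end Pool.Agent.CGN
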