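import Pool.Agent.CGN.AGA
import Pool.Agent.CGN.LEF

/-!
# Assembly: the localisations with trivial coefficients in the degrees `0, 1, d - 1, d`
-/

noncomputable section

namespace Pool.Agent.CGN

open NumberField IsDedekindDomain Matrix
open Pool.Agent.CG2 (Pl Fv Ov GalF Fbar Zbar Over IsInertia IsFrob Nm r1 r2)
open Pool.Agent.CGQ

variable {F : Type} [Field F] [NumberField F]

/-- The eigenvalue in the algebraic closure. -/
theorem eig_bar {n : ℕ} {S : Set (Pl F)} {O : Type} [CommRing O] (m : Ideal (HeckeAlg n S O))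
    (k : Type) [Field k] [Algebra (HeckeAlg n S O ⧸ m) k] (t : Idx n S) :
    eig m (AlgebraicClosure k) t = algebraMap k (AlgebraicClosure k) (eig m k t) := by
  rw [eig, eig, IsScalarTower.algebraMap_apply (HeckeAlg n S O ⧸ m) k (AlgebraicClosure k)]

/-- The first form of the generic unit. -/
def GenZ (A : AD F) (v₃ : Pl F) (K : Subgroup (sysA A).A) : Prop :=
  ∀ y : (sysA A).Pt, ∃ (L : Type) (_ : Field L) (_ : NumberField L) (_ : Algebra F L)
    (ι : L →ₐ[F] DF A) (e : (𝓞 L)ˣ), Gen A K y v₃ ι 1 e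

/-- The second form of the generic unit. -/
def GenO (A : AD F) (p : ℕ) (v₃ : Pl F) (K : Subgroup (sysA A).A) : Prop :=
  ∀ y : (sysA A).Pt, ∀ (k : Type) [Field k] [CharP k p] (h : (sysA A).G → k),
    (∀ a ∈ Stab K y, ∀ b ∈ Stab K y, h (a * b) = h a + h b) → ∀ c₀ ∈ Stab K y, h c₀ ≠ 0 →
    ∃ (L : Type) (_ : Field L) (_ : NumberField L) (_ : Algebra F L) (ι : L →ₐ[F] DF A)
      (u e : (𝓞 L)ˣ), Gen A K y v₃ ι u e ∧ h (uA ι u) ≠ 0

variable {A : AD F} {S : Set (Pl F)} {φ : Spl A S} {K : Subgroup (sysA A).A}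
  {O : Type} [CommRing O]

/-- Degree zero. -/
theorem dead_zero [IsLocalRing O] (hn : 2 ≤ A.n) {p : ℕ} [Fact p.Prime] (hS : S.Finite)
    (hstd : Std (chartA φ)) (hK : OC K) (hΦ : HypOff K (chartA φ))
    [CharP (IsLocalRing.ResidueField O) p]
    (hfin : Module.Finite O (groupCohomology
      (coeff K (triv K O (IsLocalRing.ResidueField O))) 0))
    (m : Ideal (HeckeAlg A.n S O)) [m.IsMaximal] (k : Type) [Field k]
    [Algebra (HeckeAlg A.n S O ⧸ m) k] (ε : ℤˣ) (ρ : GalF F →* GL (Fin A.n) k)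
    (hopen : IsOpen (ρ.ker : Set (GalF F))) (hfrob : FrobEq (fun v j => eig m k (v, j)) ε ρ)
    (hne : NonEis ρ) {v₃ : Pl F} (hv₃ : ((p : ℕ) : 𝓞 F) ∉ v₃.asIdeal)
    (hram : ∀ Q : Ideal (Zbar F), Over v₃ Q → ∀ g : GalF F, IsInertia Q g → ρ g = 1)
    (hG : GenZ A v₃ K) :
    Dead K (triv K O (IsLocalRing.ResidueField O)) (unram_triv hΦ) 0 m := by
  by_contra hm
  have hp : p.Prime := Fact.out
  have hc1 : CharP k p := char_of_not_dead hp hΦ 0 m hm k
  have hc2 : CharP (AlgebraicClosure k) p := char_of_not_dead hp hΦ 0 m hm (AlgebraicClosure k)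
  obtain ⟨E, y, hy⟩ := exists_ptfam hΦ hfin m hm (AlgebraicClosure k)
  obtain ⟨L, iF, iN, iA, ι, e, hg⟩ := hG y
  have h1 : uA ι (1 : (𝓞 L)ˣ) = 1 := by
    rw [uA, map_one]
    exact map_one _
  obtain ⟨E', hE'⟩ : ∃ E' : EigFam K (chartA φ) (AlgebraicClosure k) 1 (uA ι (1 : (𝓞 L)ˣ))
      (fun v j => eig m (AlgebraicClosure k) (v, j)), ∀ y i, E'.h y i = E.h y := by
    rw [h1]
    exact E.exists_eig
  exact not_ne_of_eig hn (p := p) hS hK hΦ hstd (fun v j => eig m k (v, j))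
    _ (Or.inl fun v j => eig_bar m k (v, j)) ε ρ hopen hfrob hv₃ hram y ι 1 e hg
    1 (fun _ _ => rfl) (fun _ _ => rfl) E' (by rw [hE']; exact hy) hne

/-- Degree one. -/
theorem dead_one [IsLocalRing O] (hn : 2 ≤ A.n) {p : ℕ} [Fact p.Prime] (hS : S.Finite)
    (hstd : Std (chartA φ)) (hK : OC K) (hΦ : HypOff K (chartA φ))
    [CharP (IsLocalRing.ResidueField O) p]
    (hfin : Module.Finite O (groupCohomology
      (coeff K (triv K O (IsLocalRing.ResidueField O))) 1))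
    (m : Ideal (HeckeAlg A.n S O)) [m.IsMaximal] (k : Type) [Field k]
    [Algebra (HeckeAlg A.n S O ⧸ m) k] (ε : ℤˣ) (ρ : GalF F →* GL (Fin A.n) k)
    (hopen : IsOpen (ρ.ker : Set (GalF F))) (hfrob : FrobEq (fun v j => eig m k (v, j)) ε ρ)
    (hne : NonEis ρ) {v₃ : Pl F} (hv₃ : ((p : ℕ) : 𝓞 F) ∉ v₃.asIdeal)
    (hram : ∀ Q : Ideal (Zbar F), Over v₃ Q → ∀ g : GalF F, IsInertia Q g → ρ g = 1)
    (hG : GenO A p v₃ K) :
    Dead K (triv K O (IsLocalRing.ResidueField O)) (unram_triv hΦ) 1 m := by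
  by_contra hm
  have hp : p.Prime := Fact.out
  have hc1 : CharP k p := char_of_not_dead hp hΦ 1 m hm k
  have hc2 : CharP (AlgebraicClosure k) p := char_of_not_dead hp hΦ 1 m hm (AlgebraicClosure k)
  obtain ⟨E, y, γ, hγ, hy⟩ := exists_bigfam hΦ hfin m hm (AlgebraicClosure k)
  obtain ⟨L, iF, iN, iA, ι, u, e, hg, hhu⟩ := hG y (AlgebraicClosure k) (E.h y)
      (fun a ha b hb => E.h_mul y a ha b hb) γ hγ hy
  obtain ⟨E', hE'⟩ := E.exists_eig hΦ (uA ι u)
  refine not_ne_of_eig hn (p := p) hS hK hΦ hstd (fun v j => eig m k (v, j))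
    _ (Or.inl fun v j => eig_bar m k (v, j)) ε ρ hopen hfrob hv₃ hram y ι u e hg
    1 (fun _ _ => rfl) (fun _ _ => rfl) E' ?_ hne
  rw [hE' y 1 (by rw [pow_one]; exact hg.hu), pow_one]
  exact hhu

private theorem agb_lr [IsLocalRing O] (hn : 0 < A.n) (hΦ : HypOff K (chartA φ)) (i : ℕ)
    (m : Ideal (HeckeAlg A.n S O)) [m.IsMaximal]
    (hm : ¬ Dead K (triv K O (IsLocalRing.ResidueField O)) (unram_triv hΦ) i m)
    (k : Type) [Field k] [Algebra (HeckeAlg A.n S O ⧸ m) k] (v : {v : Pl F // v ∉ S}) :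
    lk (fun j => algebraMap k (AlgebraicClosure k) (eig m k (v, j))) A.n *
        algebraMap k (AlgebraicClosure k) (eig m k (v, none)) = 1 ∧
      ∀ j, dualL (fun j => eig m (AlgebraicClosure k) (v, j)) j =
        dualL (fun j => algebraMap k (AlgebraicClosure k) (eig m k (v, j))) j := by
  have h1 := eig_none_mul hn (unram_triv hΦ) i m hm (AlgebraicClosure k) v
  have h2 : (fun j => eig m (AlgebraicClosure k) (v, j)) =
      fun j => algebraMap k (AlgebraicClosure k) (eig m k (v, j)) := by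
    funext j
    exact eig_bar m k (v, j)
  rw [h2, eig_bar m k (v, none)] at h1
  exact ⟨h1, fun j => by rw [h2]⟩

/-- The top degree. -/
theorem dead_top [IsNoetherianRing O] [IsLocalRing O] (T : TSys K)
    (hε : ∀ γ, (sysA A).sgn γ = 1 → T.ε γ = 1) (hn : 2 ≤ A.n) {p : ℕ} [Fact p.Prime]
    (hS : S.Finite) (hstd : Std (chartA φ)) (hK : OC K) (hΦ : HypOff K (chartA φ))
    [CharP (IsLocalRing.ResidueField O) p]
    (m : Ideal (HeckeAlg A.n S O)) [m.IsMaximal] (k : Type) [Field k]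
    [Algebra (HeckeAlg A.n S O ⧸ m) k] (ε : ℤˣ) (ρ : GalF F →* GL (Fin A.n) k)
    (hopen : IsOpen (ρ.ker : Set (GalF F))) (hfrob : FrobEq (fun v j => eig m k (v, j)) ε ρ)
    (hne : NonEis ρ) {v₃ : Pl F} (hv₃ : ((p : ℕ) : 𝓞 F) ∉ v₃.asIdeal)
    (hram : ∀ Q : Ideal (Zbar F), Over v₃ Q → ∀ g : GalF F, IsInertia Q g → ρ g = 1)
    (hG : GenZ A v₃ K) :
    Dead K (triv K O (IsLocalRing.ResidueField O)) (unram_triv hΦ) T.C.n0 m := by
  by_contra hm
  have hp : p.Prime := Fact.out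
  have hc1 : CharP k p := char_of_not_dead hp hΦ T.C.n0 m hm k
  have hc2 : CharP (AlgebraicClosure k) p :=
    char_of_not_dead hp hΦ T.C.n0 m hm (AlgebraicClosure k)
  obtain ⟨E, y, hy⟩ := exists_top_fam (by omega) T hK hΦ m hm (AlgebraicClosure k)
  obtain ⟨L, iF, iN, iA, ι, e, hg⟩ := hG y
  have h1 : uA ι (1 : (𝓞 L)ˣ) = 1 := by
    rw [uA, map_one]
    exact map_one _
  obtain ⟨E', hE'⟩ : ∃ E' : EigFam K (chartA φ) (AlgebraicClosure k) T.ε (uA ι (1 : (𝓞 L)ˣ))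
      (fun v => dualL fun j => eig m (AlgebraicClosure k) (v, j)),
      ∀ y i, E'.h y i = E.h y := by
    rw [h1]
    exact E.exists_eig
  exact not_ne_of_eig hn (p := p) hS hK hΦ hstd (fun v j => eig m k (v, j))
    _ (Or.inr (agb_lr (by omega) hΦ T.C.n0 m hm k)) ε ρ hopen hfrob hv₃ hram y ι 1 e hg
    T.ε (fun _ h => eps_stab T h) hε E' (by rw [hE']; exact hy) hne

/-- One below the top degree. -/
theorem dead_sub [IsNoetherianRing O] [IsLocalRing O] (T : TSys K)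
    (hε : ∀ γ, (sysA A).sgn γ = 1 → T.ε γ = 1) (hn : 2 ≤ A.n) {p : ℕ} [Fact p.Prime]
    (hS : S.Finite) (hstd : Std (chartA φ)) (hK : OC K) (hTF : TorsionFree K)
    (hΦ : HypOff K (chartA φ)) [CharP (IsLocalRing.ResidueField O) p] (d : ℕ)
    (hd : d + 1 = T.C.n0)
    (m : Ideal (HeckeAlg A.n S O)) [m.IsMaximal] (k : Type) [Field k]
    [Algebra (HeckeAlg A.n S O ⧸ m) k] (ε : ℤˣ) (ρ : GalF F →* GL (Fin A.n) k)
    (hopen : IsOpen (ρ.ker : Set (GalF F))) (hfrob : FrobEq (fun v j => eig m k (v, j)) ε ρ)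
    (hne : NonEis ρ) {v₃ : Pl F} (hv₃ : ((p : ℕ) : 𝓞 F) ∉ v₃.asIdeal)
    (hram : ∀ Q : Ideal (Zbar F), Over v₃ Q → ∀ g : GalF F, IsInertia Q g → ρ g = 1)
    (hG : GenO A p v₃ K) :
    Dead K (triv K O (IsLocalRing.ResidueField O)) (unram_triv hΦ) d m := by
  by_contra hm
  have hp : p.Prime := Fact.out
  have hc1 : CharP k p := char_of_not_dead hp hΦ d m hm k
  have hc2 : CharP (AlgebraicClosure k) p := char_of_not_dead hp hΦ d m hm (AlgebraicClosure k)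
  obtain ⟨E, y, γ, hγ, hy⟩ := exists_sub_fam (by omega) T hK hTF hΦ d hd m hm (AlgebraicClosure k)
  obtain ⟨L, iF, iN, iA, ι, u, e, hg, hhu⟩ := hG y (AlgebraicClosure k) (E.h y)
      (fun a ha b hb => E.h_mul y a ha b hb) γ hγ hy
  obtain ⟨E', hE'⟩ := E.exists_eig hΦ (uA ι u)
  refine not_ne_of_eig hn (p := p) hS hK hΦ hstd (fun v j => eig m k (v, j))
    _ (Or.inr (agb_lr (by omega) hΦ d m hm k)) ε ρ hopen hfrob hv₃ hram y ι u e hg
    T.ε (fun _ h => eps_stab T h) hε E' ?_ hne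
  rw [hE' y 1 (by rw [pow_one]; exact hg.hu), pow_one]
  exact hhu

end Pool.Agent.CGN
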