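import Pool.Agent.CGN.CDev
import Pool.Agent.CGQ.CBase

/-!
# Devissage: the connecting homomorphisms commute with the Hecke operators
-/

noncomputable section

namespace Pool.Agent.CGN

open Pool.Agent.CGQ
open CategoryTheory NumberField IsDedekindDomain
open Pool.Agent.CG2 (Pl subRep quoRep)

variable {F : Type} [Field F] [NumberField F] {𝒟 : Sys F} {n : ℕ} {S : Set (Pl F)} {Φ : Chart n 𝒟 S}
variable {K : Subgroup 𝒟.A} {O : Type} [CommRing O]

/-- **CEA1.** The connecting homomorphism commutes with the Hecke algebra.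
PROOF. Induction on `t` exactly as in `hact_comm` (SysCoh.lean); for a generator use
`CG2.CellTower.delta_nat` with the endomorphism of the short exact sequence given by the three
`heckeHom` (`formsMap_heckeHom` gives the two commutative squares), `heckeCoh` is by definition
the map induced by `heckeHom`. -/
theorem delta_hecke {W' W W'' : Type} [AddCommGroup W] [Module O W]
    [AddCommGroup W'] [Module O W'] [AddCommGroup W''] [Module O W'']
    (τ' : Representation O K W') (τ : Representation O K W) (τ'' : Representation O K W'')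
    (hU' : UnramOff K τ' Φ) (hU : UnramOff K τ Φ) (hU'' : UnramOff K τ'' Φ)
    (ι : W' →ₗ[O] W) (hι : ∀ k w, ι (τ' k w) = τ k (ι w))
    (π : W →ₗ[O] W'') (hπ : ∀ k w, π (τ k w) = τ'' k (π w))
    (h0 : formsMap τ' τ ι hι ≫ formsMap τ τ'' π hπ = 0)
    (hS : (ShortComplex.mk (formsMap τ' τ ι hι) (formsMap τ τ'' π hπ) h0).ShortExact)
    (i : ℕ) (t : HeckeAlg n S O) (z : groupCohomology (coeff K τ'') i) :
    (groupCohomology.δ hS i (i + 1) rfl).hom (hact K τ'' hU'' i t z) =
      hact K τ' hU' (i + 1) t ((groupCohomology.δ hS i (i + 1) rfl).hom z) := by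
  induction t using MvPolynomial.induction_on generalizing z with
  | C a =>
    have h1 : hact K τ'' hU'' i (MvPolynomial.C a) = algebraMap O _ a := by
      have := (hact K τ'' hU'' i).commutes a
      rwa [MvPolynomial.algebraMap_eq] at this
    have h2 : hact K τ' hU' (i + 1) (MvPolynomial.C a) = algebraMap O _ a := by
      have := (hact K τ' hU' (i + 1)).commutes a
      rwa [MvPolynomial.algebraMap_eq] at this
    rw [h1, h2, Module.algebraMap_end_apply, Module.algebraMap_end_apply, map_smul]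
  | add a b ha hb =>
    rw [map_add, map_add, LinearMap.add_apply, LinearMap.add_apply, map_add, ha, hb]
  | mul_X a t ha =>
    rw [map_mul, map_mul, Module.End.mul_apply, Module.End.mul_apply, ha, hact_X, hact_X]
    congr 1
    exact (Pool.Agent.CG2.CellTower.delta_nat hS hS
      { τ₁ := heckeHom K τ' hU' t
        τ₂ := heckeHom K τ hU t
        τ₃ := heckeHom K τ'' hU'' t
        comm₁₂ := (formsMap_heckeHom τ' τ hU' hU ι hι t).symm
        comm₂₃ := (formsMap_heckeHom τ τ'' hU hU'' π hπ t).symm } i z).symm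

/-- **CEA2.** If the localisations of `Hⁱ` of the quotient and of `Hⁱ⁺¹` of the middle term are
zero, then also that of `Hⁱ⁺¹` of the sub.
PROOF. `z` in `Hⁱ⁺¹(W')`: `t • ι z = 0` with `t ∉ m`, so `ι (t z) = 0` (`cohMap_hecke`), so
`t z = δ x` (`groupCohomology.mapShortComplex₁_exact`), `t' x = 0`, so `t' t z = δ (t' x) = 0` by
`delta_hecke`; `t' * t ∉ m`. Compare `dead_ext` in CDev.lean. -/
theorem dead_left {W' W W'' : Type} [AddCommGroup W] [Module O W]
    [AddCommGroup W'] [Module O W'] [AddCommGroup W''] [Module O W'']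
    (τ' : Representation O K W') (τ : Representation O K W) (τ'' : Representation O K W'')
    (hU' : UnramOff K τ' Φ) (hU : UnramOff K τ Φ) (hU'' : UnramOff K τ'' Φ)
    (ι : W' →ₗ[O] W) (hι : ∀ k w, ι (τ' k w) = τ k (ι w)) (hinj : Function.Injective ι)
    (π : W →ₗ[O] W'') (hπ : ∀ k w, π (τ k w) = τ'' k (π w)) (hsurj : Function.Surjective π)
    (hex : LinearMap.range ι = LinearMap.ker π) (i : ℕ) (m : Ideal (HeckeAlg n S O)) [m.IsPrime]
    (h : Dead K τ hU (i + 1) m) (h'' : Dead K τ'' hU'' i m) : Dead K τ' hU' (i + 1) m := by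
  intro z
  obtain ⟨h0, hS⟩ := formsMap_shortExact τ' τ τ'' ι hι hinj π hπ hsurj hex
  obtain ⟨t, ht, ht0⟩ := h (cohMap τ' τ ι hι (i + 1) z)
  rw [← cohMap_hecke τ' τ hU' hU ι hι] at ht0
  have h1 := groupCohomology.mapShortComplex₁_exact hS (i := i) (j := i + 1) rfl
  rw [ShortComplex.moduleCat_exact_iff] at h1
  obtain ⟨x, hx⟩ := h1 _ ht0
  obtain ⟨t', ht', ht'0⟩ := h'' x
  refine ⟨t' * t, fun hmem => ?_, ?_⟩
  · rcases (Ideal.IsPrime.mem_or_mem ‹_› hmem) with h | h
    · exact ht' h
    · exact ht h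
  · rw [map_mul, Module.End.mul_apply]
    have h2 := delta_hecke τ' τ τ'' hU' hU hU'' ι hι π hπ h0 hS i t' x
    rw [ht'0, map_zero] at h2
    rw [h2]
    exact congrArg _ hx.symm

/-- **CEA3.** If the localisations of `Hⁱ` of the middle term and of `Hⁱ⁺¹` of the sub are
zero, then also that of `Hⁱ` of the quotient.
PROOF. `z` in `Hⁱ(W'')`: `t (δ z) = 0` with `t ∉ m`, so `δ (t z) = 0`, so `t z = π x`
(`groupCohomology.mapShortComplex₃_exact`), `t' x = 0`, so `t' t z = π (t' x) = 0`. -/
theorem dead_right {W' W W'' : Type} [AddCommGroup W] [Module O W]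
    [AddCommGroup W'] [Module O W'] [AddCommGroup W''] [Module O W'']
    (τ' : Representation O K W') (τ : Representation O K W) (τ'' : Representation O K W'')
    (hU' : UnramOff K τ' Φ) (hU : UnramOff K τ Φ) (hU'' : UnramOff K τ'' Φ)
    (ι : W' →ₗ[O] W) (hι : ∀ k w, ι (τ' k w) = τ k (ι w)) (hinj : Function.Injective ι)
    (π : W →ₗ[O] W'') (hπ : ∀ k w, π (τ k w) = τ'' k (π w)) (hsurj : Function.Surjective π)
    (hex : LinearMap.range ι = LinearMap.ker π) (i : ℕ) (m : Ideal (HeckeAlg n S O)) [m.IsPrime]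
    (h : Dead K τ hU i m) (h' : Dead K τ' hU' (i + 1) m) : Dead K τ'' hU'' i m := by
  intro z
  obtain ⟨h0, hS⟩ := formsMap_shortExact τ' τ τ'' ι hι hinj π hπ hsurj hex
  obtain ⟨t, ht, ht0⟩ := h' ((groupCohomology.δ hS i (i + 1) rfl).hom z)
  rw [← delta_hecke τ' τ τ'' hU' hU hU'' ι hι π hπ h0 hS i t z] at ht0
  have h1 := groupCohomology.mapShortComplex₃_exact hS (i := i) (j := i + 1) rfl
  rw [ShortComplex.moduleCat_exact_iff] at h1
  obtain ⟨x, hx⟩ := h1 _ ht0
  obtain ⟨t', ht', ht'0⟩ := h x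
  refine ⟨t' * t, fun hmem => ?_, ?_⟩
  · rcases (Ideal.IsPrime.mem_or_mem ‹_› hmem) with h | h
    · exact ht' h
    · exact ht h
  · rw [map_mul, Module.End.mul_apply]
    have hx' : cohMap τ τ'' π hπ i x = hact K τ'' hU'' i t z := hx
    rw [← hx', ← cohMap_hecke τ τ'' hU hU'' π hπ, ht'0, map_zero]

end Pool.Agent.CGN
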