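import Pool.Agent.CGN.CEA
import Pool.Agent.CGN.CEB
import Pool.Agent.CGN.CEC

/-!
# Devissage: from the trivial coefficients to all coefficients killed by the maximal ideal
-/

noncomputable section

namespace Pool.Agent.CGN

open Pool.Agent.CGQ
open CategoryTheory NumberField IsDedekindDomain
open Pool.Agent.CG2 (Pl subRep quoRep)

variable {F : Type} [Field F] [NumberField F] {𝒟 : Sys F} {n : ℕ} {S : Set (Pl F)} {Φ : Chart n 𝒟 S}
variable {K K₀ : Subgroup 𝒟.A} {O : Type} [CommRing O]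

/-- The localisation with trivial coefficients is zero for all small subgroups. -/
def TD [IsLocalRing O] (K K₀ : Subgroup 𝒟.A) (Φ : Chart n 𝒟 S) (i : ℕ)
    (m : Ideal (HeckeAlg n S O)) : Prop :=
  ∀ K' : Subgroup 𝒟.A, K' ≤ K → K' ≤ K₀ → OC K' → ∀ hK' : HypOff K' Φ,
    Dead K' (triv K' O (IsLocalRing.ResidueField O)) (unram_triv hK') i m

/-- The induced module is dead. -/
private theorem cedA [IsLocalRing O] {K' : Subgroup 𝒟.A}
    {W : Type} [AddCommGroup W] [Module O W] [Module.Finite O W] (τ : Representation O K W)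
    (hU : UnramOff K τ Φ) (hkill : ∀ a ∈ IsLocalRing.maximalIdeal O, ∀ w : W, a • w = 0)
    (hle : K' ≤ K) (hle0 : K' ≤ K₀) (hOC' : OC K') (hHyp' : HypOff K' Φ)
    (htriv : ∀ (k : K'), τ ⟨k.1, hle k.2⟩ = 1) (i : ℕ)
    (m : Ideal (HeckeAlg n S O)) [m.IsPrime] (h : TD K K₀ Φ i m) :
    Dead K (indRep K' τ) (unram_ind hle hU hHyp') i m := by
  have h1 := dead_const hkill hHyp' (resRep hle τ) (fun k v => by
    rw [resRep_apply, htriv k]
    rfl) (unram_res hle hU hHyp') i m (h K' hle hle0 hOC' hHyp')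
  exact dead_ind hle τ hU (unram_res hle hU hHyp') (unram_ind hle hU hHyp') i m h1

private theorem cedB [Fintype (Qt K K₀)] {W : Type} [AddCommGroup W] [Module O W] :
    Function.Surjective (sumMap (O := O) (K := K) (K' := K₀) W) := by
  classical
  intro w
  refine ⟨fun c => if c = ((1 : K) : Qt K K₀) then w else 0, ?_⟩
  change ∑ c, (if c = ((1 : K) : Qt K K₀) then w else 0) = w
  rw [Finset.sum_ite_eq' Finset.univ, if_pos (Finset.mem_univ _)]

/-- **CED1.** Degree zero.
PROOF. `K'` from `exists_ker`. The map `W → Ind` (`constMap`) is injective, so injective on `H⁰`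
(`mapCoh_injZero`) and commutes with the Hecke algebra (`cohMap_hecke`, `unram_ind`); `Ind` is dead by
`dead_ind` and `dead_const` (on `K'` the representation `resRep h τ` is trivial by the last property of
`exists_ker`, it is unramified by `unram_res`). -/
theorem kd_zero [IsLocalRing O] (hK : OC K) (hK₀ : OC K₀) (hΦ : HypOff K Φ)
    (h₀ : ∀ (v : {v : Pl F // v ∉ S}) (k : 𝒟.L v.1), Φ.e v k ∈ GZ n v.1 → single v.1 k ∈ K₀)
    (m : Ideal (HeckeAlg n S O)) [m.IsPrime] (h : TD K K₀ Φ 0 m) : KD K Φ 0 m := by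
  intro W _ _ _ τ hU hkill hsm
  obtain ⟨K', hle, hle0, hOC', hHyp', hnorm, htriv⟩ := exists_ker hK hK₀ hΦ h₀ τ hU hsm
  have dI := cedA (K₀ := K₀) τ hU hkill hle hle0 hOC' hHyp' htriv 0 m h
  intro z
  obtain ⟨t, ht, ht0⟩ := dI (cohMap τ (indRep K' τ) (constMap K K' O W) (constMap_eqv K' τ) 0 z)
  refine ⟨t, ht, ?_⟩
  rw [← cohMap_hecke τ (indRep K' τ) hU (unram_ind hle hU hHyp') (constMap K K' O W)
    (constMap_eqv K' τ)] at ht0
  have hinj : Function.Injective
      (mapCoh (formsMap τ (indRep K' τ) (constMap K K' O W) (constMap_eqv K' τ)) 0) := by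
    apply mapCoh_injZero
    intro f f' hff
    apply Subtype.ext
    funext y
    apply constMap_inj K K' O W
    exact congrArg (fun a : Forms K (indRep K' τ) => a.1 y) hff
  apply hinj
  rw [map_zero]
  exact ht0

/-- **CED2.** Degree one. PROOF. With `K'` from `exists_ker`: `dead_left` for
`0 → W → Ind → Q → 0`, `Q = Ind / range constMap` (`quoRep`), in degree `i = 0`: `Ind` is dead in
degree one by `dead_ind`, `dead_const`; `Q` is dead in degree zero by `kd_zero`: `Q` is a finite module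
(`finite_Qt`, `Module.Finite.pi`), killed by the maximal ideal, unramified (`unram_quo`), and smooth
by `smooth_of_ker`, `ind_ker`, `smooth_quo`. -/
theorem kd_one [IsLocalRing O] (hK : OC K) (hK₀ : OC K₀) (hΦ : HypOff K Φ)
    (h₀ : ∀ (v : {v : Pl F // v ∉ S}) (k : 𝒟.L v.1), Φ.e v k ∈ GZ n v.1 → single v.1 k ∈ K₀)
    (m : Ideal (HeckeAlg n S O)) [m.IsPrime] (h : TD K K₀ Φ 0 m) (h' : TD K K₀ Φ 1 m) :
    KD K Φ 1 m := by
  intro W _ _ _ τ hU hkill hsm
  obtain ⟨K', hle, hle0, hOC', hHyp', hnorm, htriv⟩ := exists_ker hK hK₀ hΦ h₀ τ hU hsm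
  have dI := cedA (K₀ := K₀) τ hU hkill hle hle0 hOC' hHyp' htriv 1 m h'
  have hfin : Finite (Qt K K') := finite_Qt hK hOC'
  have hWI : Module.Finite O (Qt K K' → W) := Module.Finite.pi
  let T : Submodule O (Qt K K' → W) := LinearMap.range (constMap K K' O W)
  have hT : ∀ k, ∀ w ∈ T, indRep K' τ k w ∈ T := by
    rintro k _ ⟨w, rfl⟩
    exact ⟨τ k w, rfl⟩
  have hUi := unram_ind hle hU hHyp'
  have hsmI : Smooth K (indRep K' τ) Φ :=
    smooth_of_ker hle hOC' hHyp' (indRep K' τ) (ind_ker hle τ hnorm htriv)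
  have hQ : Dead K (quoRep (indRep K' τ) T hT) (unram_quo hUi T hT) 0 m := by
    refine kd_zero hK hK₀ hΦ h₀ m h _ _ _ ?_ (smooth_quo hsmI T hT)
    intro a ha v
    obtain ⟨w, rfl⟩ := Submodule.Quotient.mk_surjective T v
    have h1 : a • w = 0 := by
      funext c
      exact hkill a ha (w c)
    rw [← Submodule.Quotient.mk_smul, h1, Submodule.Quotient.mk_zero]
  exact dead_left τ (indRep K' τ) (quoRep (indRep K' τ) T hT) hU hUi (unram_quo hUi T hT)
    (constMap K K' O W) (constMap_eqv K' τ) (constMap_inj K K' O W)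
    T.mkQ (fun k w => rfl) T.mkQ_surjective (by rw [Submodule.ker_mkQ]) 0 m dI hQ

/-- **CED3.** The top degree. PROOF. `dead_right` for `0 → N → Ind → W → 0` (the map `Ind → W` is
`sumMap`, `sumMap_eqv`; surjective as in `tr_surj`, `N` its kernel, `subRep`) in degree `d`:
`Ind` is dead by `dead_ind`, `dead_const`, and `Hᵈ⁺¹(N) = 0` by `hv`. -/
theorem kd_top [IsNoetherianRing O] [IsLocalRing O] (hK : OC K) (hK₀ : OC K₀) (hΦ : HypOff K Φ)
    (h₀ : ∀ (v : {v : Pl F // v ∉ S}) (k : 𝒟.L v.1), Φ.e v k ∈ GZ n v.1 → single v.1 k ∈ K₀)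
    (m : Ideal (HeckeAlg n S O)) [m.IsPrime] (d : ℕ)
    (hv : ∀ (W : Type) [AddCommGroup W] [Module O W] (τ : Representation O K W),
      Subsingleton (groupCohomology (coeff K τ) (d + 1)))
    (h : TD K K₀ Φ d m) : KD K Φ d m := by
  classical
  intro W _ _ _ τ hU hkill hsm
  obtain ⟨K', hle, hle0, hOC', hHyp', hnorm, htriv⟩ := exists_ker hK hK₀ hΦ h₀ τ hU hsm
  have dI := cedA (K₀ := K₀) τ hU hkill hle hle0 hOC' hHyp' htriv d m h
  have hfin : Finite (Qt K K') := finite_Qt hK hOC'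
  have hft : Fintype (Qt K K') := Fintype.ofFinite _
  let T : Submodule O (Qt K K' → W) := LinearMap.ker (sumMap (K := K) (K' := K') W)
  have hT : ∀ k, ∀ w ∈ T, indRep K' τ k w ∈ T := by
    intro k w hw
    rw [LinearMap.mem_ker] at hw ⊢
    rw [sumMap_eqv, hw, map_zero]
  have hUi := unram_ind hle hU hHyp'
  refine dead_right (subRep (indRep K' τ) T hT) (indRep K' τ) τ (unram_sub hUi T hT) hUi hU
    T.subtype (fun k w => rfl) T.injective_subtype (sumMap W) (sumMap_eqv τ) cedB (by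
      rw [Submodule.range_subtype]) d m dI ?_
  intro z
  have hs := hv _ (subRep (indRep K' τ) T hT)
  exact ⟨1, (Ideal.ne_top_iff_one m).1 Ideal.IsPrime.ne_top', Subsingleton.elim _ _⟩

/-- **CED4.** One below the top degree. PROOF. As `kd_top`, in degree `d`; now `Hᵈ⁺¹(N)` is dead
by `kd_top` in degree `d + 1` (`N` is finite since `O` is noetherian, killed by the maximal ideal,
unramified by `unram_sub`, smooth by `smooth_of_ker`, `ind_ker`, `smooth_sub`). -/
theorem kd_sub [IsNoetherianRing O] [IsLocalRing O] (hK : OC K) (hK₀ : OC K₀) (hΦ : HypOff K Φ)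
    (h₀ : ∀ (v : {v : Pl F // v ∉ S}) (k : 𝒟.L v.1), Φ.e v k ∈ GZ n v.1 → single v.1 k ∈ K₀)
    (m : Ideal (HeckeAlg n S O)) [m.IsPrime] (d : ℕ)
    (hv : ∀ (W : Type) [AddCommGroup W] [Module O W] (τ : Representation O K W),
      Subsingleton (groupCohomology (coeff K τ) (d + 1 + 1)))
    (h : TD K K₀ Φ d m) (h' : TD K K₀ Φ (d + 1) m) : KD K Φ d m := by
  classical
  intro W _ _ _ τ hU hkill hsm
  obtain ⟨K', hle, hle0, hOC', hHyp', hnorm, htriv⟩ := exists_ker hK hK₀ hΦ h₀ τ hU hsm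
  have dI := cedA (K₀ := K₀) τ hU hkill hle hle0 hOC' hHyp' htriv d m h
  have hfin : Finite (Qt K K') := finite_Qt hK hOC'
  have hft : Fintype (Qt K K') := Fintype.ofFinite _
  have hWI : Module.Finite O (Qt K K' → W) := Module.Finite.pi
  have hnoeth : IsNoetherian O (Qt K K' → W) := isNoetherian_of_isNoetherianRing_of_finite O _
  let T : Submodule O (Qt K K' → W) := LinearMap.ker (sumMap (K := K) (K' := K') W)
  have hT : ∀ k, ∀ w ∈ T, indRep K' τ k w ∈ T := by
    intro k w hw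
    rw [LinearMap.mem_ker] at hw ⊢
    rw [sumMap_eqv, hw, map_zero]
  have hUi := unram_ind hle hU hHyp'
  have hsmI : Smooth K (indRep K' τ) Φ :=
    smooth_of_ker hle hOC' hHyp' (indRep K' τ) (ind_ker hle τ hnorm htriv)
  have hTf : Module.Finite O T := Module.IsNoetherian.finite O T
  refine dead_right (subRep (indRep K' τ) T hT) (indRep K' τ) τ (unram_sub hUi T hT) hUi hU
    T.subtype (fun k w => rfl) T.injective_subtype (sumMap W) (sumMap_eqv τ) cedB (by
      rw [Submodule.range_subtype]) d m dI ?_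
  refine kd_top hK hK₀ hΦ h₀ m (d + 1) hv h' _ _ _ ?_ (smooth_sub hsmI T hT)
  rintro a ha ⟨w, hw⟩
  apply Subtype.ext
  funext c
  exact hkill a ha (w c)

end Pool.Agent.CGN
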