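import Pool.Agent.CGN.LCar
import Pool.Agent.CG3.HeckeComm

/-!
# The Hecke operators of `GL_n(F_v)` commute
-/

noncomputable section

namespace Pool.Agent.CGN

open NumberField IsDedekindDomain Matrix
open Pool.Agent.CG2 (Pl Fv Ov)

variable {F : Type} [Field F] [NumberField F] {n : ℕ}

private theorem mem_dcos_mk (v : Pl F) (a h : GQ n v) :
    ((h : GQ n v) : GQ n v ⧸ GZ n v) ∈ dcos v a ↔ ∃ k₁ ∈ GZ n v, ∃ k₂ ∈ GZ n v,
      h = k₁ * a * k₂ := by
  constructor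
  · rintro ⟨k, hk, hh⟩
    rw [eq_comm, QuotientGroup.eq] at hh
    exact ⟨k, hk, _, hh, by group⟩
  · rintro ⟨k₁, h₁, k₂, h₂, rfl⟩
    refine ⟨k₁, h₁, ?_⟩
    rw [eq_comm, QuotientGroup.eq, inv_mul_cancel_left]
    exact h₂

private theorem trn_dcos (v : Pl F) (a h : GQ n v)
    (hh : ((h : GQ n v) : GQ n v ⧸ GZ n v) ∈ dcos v a) :
    ((trn h : GQ n v) : GQ n v ⧸ GZ n v) ∈ dcos v a := by
  rw [mem_dcos_mk] at hh ⊢
  obtain ⟨k₁, h₁, k₂, h₂, rfl⟩ := hh
  obtain ⟨k₃, h₃, k₄, h₄, e⟩ := exists_trn v (k₁ * a * k₂)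
  rw [e]
  exact ⟨k₃ * k₁, (GZ n v).mul_mem h₃ h₁, k₂ * k₄, (GZ n v).mul_mem h₂ h₄, by group⟩

/-- Commutativity of the Hecke algebra of `GL_n(F_v)` with respect to `GL_n(O_v)`. -/
theorem dcos_comm (v : Pl F) (a b : GQ n v) {M : Type} [AddCommMonoid M] (f : GQ n v → M)
    (hf : ∀ g, ∀ k ∈ GZ n v, f (g * k) = f g) :
    ∑ c ∈ (dcos_finite v a).toFinset, ∑ c' ∈ (dcos_finite v b).toFinset,
        f (Quotient.out c * Quotient.out c') =
      ∑ c ∈ (dcos_finite v b).toFinset, ∑ c' ∈ (dcos_finite v a).toFinset,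
        f (Quotient.out c * Quotient.out c') := by
  let f' : GQ n v ⧸ GZ n v → M := Quotient.lift f (by
    intro x y hxy
    have h1 : x⁻¹ * y ∈ GZ n v := QuotientGroup.leftRel_apply.1 hxy
    have h2 := hf x _ h1
    rw [mul_inv_cancel_left] at h2
    exact h2.symm)
  have hF : ∀ c c' : GQ n v ⧸ GZ n v, f (Quotient.out c * Quotient.out c') =
      f' ((Quotient.out c : GQ n v) • c') := by
    intro c c'
    have h1 : (Quotient.out c : GQ n v) • c' =
        ((Quotient.out c * Quotient.out c' : GQ n v) : GQ n v ⧸ GZ n v) := by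
      rw [← CG3.HeckeComm.mk_smul, CG3.HeckeComm.out_eq]
    rw [h1]
    rfl
  have hst : ∀ a : GQ n v, CG3.HeckeComm.Stable (GZ n v) (dcos_finite v a).toFinset := by
    intro a k hk c hc
    rw [Set.Finite.mem_toFinset] at hc ⊢
    exact smul_mem_dcos hc hk
  have htr : ∀ a h : GQ n v, ((h : GQ n v) : GQ n v ⧸ GZ n v) ∈ (dcos_finite v a).toFinset →
      ((trn h : GQ n v) : GQ n v ⧸ GZ n v) ∈ (dcos_finite v a).toFinset := by
    intro a h hh
    rw [Set.Finite.mem_toFinset] at hh ⊢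
    exact trn_dcos v a h hh
  simp only [hF]
  exact CG3.HeckeComm.sum_comm' f' fun c => CG3.HeckeComm.m_symm (hst a) (hst b)
    (θ := trn) trn_mul trn_trn (fun k hk => trn_mem_GZ hk) (htr a) (htr b) (exists_trn v) c

end Pool.Agent.CGN
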