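import Pool.Agent.CGQ.Sys
import Pool.Agent.CGN.LHC

/-!
# Charts of an adelic system: isomorphisms of the local groups with `GL_n(F_v)`
-/

noncomputable section

namespace Pool.Agent.CGN

open CategoryTheory NumberField IsDedekindDomain
open scoped IsMulCommutative
open Pool.Agent.CG2 (Pl)
open Pool.Agent.CGQ (Sys diag single single_apply single_same single_ne single_comm single_comm'
  act rt lt act_rt rt_mul rt_one Forms formsRep coeff)

variable {F : Type} [Field F] [NumberField F] {𝒟 : Sys F} {n : ℕ}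
variable {O : Type} [CommRing O] {W : Type} [AddCommGroup W] [Module O W]

/-- Isomorphisms of the local groups with `GL_n(F_v)` outside `S`. -/
structure Chart (n : ℕ) (𝒟 : Sys F) (S : Set (Pl F)) where
  /-- the isomorphisms -/
  e : ∀ v : {v : Pl F // v ∉ S}, 𝒟.L v.1 ≃* GQ n v.1

variable {S : Set (Pl F)}

/-- The group `K` is the product of the maximal compact subgroup at `v` given by the chart and a
group without component at `v`. -/
structure Hyp (K : Subgroup 𝒟.A) (φ : Chart n 𝒟 S) (v : {v : Pl F // v ∉ S}) : Prop where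
  le : ∀ k ∈ K, φ.e v (k.1 v.1) ∈ GZ n v.1
  mem : ∀ k : 𝒟.L v.1, φ.e v k ∈ GZ n v.1 → single v.1 k ∈ K

/-- The same for all `v` outside `S`. -/
abbrev HypOff (K : Subgroup 𝒟.A) (φ : Chart n 𝒟 S) : Prop := ∀ v, Hyp K φ v

/-- The pair of a subgroup `K` and a `K`-module is unramified at `v`. -/
structure Unram (K : Subgroup 𝒟.A) (τ : Representation O K W) (φ : Chart n 𝒟 S)
    (v : {v : Pl F // v ∉ S}) : Prop where
  hyp : Hyp K φ v
  triv : ∀ (k : 𝒟.L v.1) (hk : φ.e v k ∈ GZ n v.1), τ ⟨single v.1 k, hyp.mem k hk⟩ = 1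

/-- The pair `(K, τ)` is unramified outside `S`. -/
abbrev UnramOff (K : Subgroup 𝒟.A) (τ : Representation O K W) (φ : Chart n 𝒟 S) : Prop :=
  ∀ v, Unram K τ φ v

end Pool.Agent.CGN
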