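import Pool.Agent.CGN.EDf

/-!
# Part E: weak approximation in `D`
-/

noncomputable section

set_option linter.unusedSectionVars false

namespace Pool.Agent.CGN

open NumberField IsDedekindDomain Matrix Polynomial
open Pool.Agent.CG2 (Pl Fv Ov GalF Fbar Zbar Over IsInertia IsFrob Nm IsRay InRay expo TotPos Lies)
open Pool.Agent.CG2.GalFinAux (below)
open Pool.Agent.CGQ

variable {F : Type} [Field F] [NumberField F] {A : AD F} {S : Set (Pl F)}

private theorem AA1_two : (1 : NNReal) < 2 := one_lt_two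

/-- The absolute values. -/
private def AA1_abv (v₂ v₃ : Pl F) {W : Type} (σ : W → F →+* ℝ) :
    Option (Option W) → AbsoluteValue F ℝ
  | none => v₂.adicAbv AA1_two
  | some none => v₃.adicAbv AA1_two
  | some (some w) => (InfinitePlace.mk (Complex.ofRealHom.comp (σ w))).1

private theorem AA1_inf (σ : F →+* ℝ) (x : F) :
    (InfinitePlace.mk (Complex.ofRealHom.comp σ)).1 x = |σ x| := by
  change ‖((σ x : ℝ) : ℂ)‖ = _
  rw [Complex.norm_real, Real.norm_eq_abs]

private theorem AA1_mk_inj {σ τ : F →+* ℝ}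
    (h : InfinitePlace.mk (Complex.ofRealHom.comp σ) = InfinitePlace.mk (Complex.ofRealHom.comp τ)) :
    σ = τ := by
  rcases InfinitePlace.mk_eq_iff.1 h with h2 | h2
  · ext x
    have h3 : ((σ x : ℝ) : ℂ) = ((τ x : ℝ) : ℂ) := RingHom.congr_fun h2 x
    exact_mod_cast h3
  · ext x
    have h3 := RingHom.congr_fun h2 x
    rw [ComplexEmbedding.conjugate_coe_eq] at h3
    have h4 : (starRingEnd ℂ) ((σ x : ℝ) : ℂ) = ((τ x : ℝ) : ℂ) := h3
    rw [Complex.conj_ofReal] at h4
    exact_mod_cast h4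

private theorem AA1_int (v : Pl F) (x : 𝓞 F) : v.adicAbv AA1_two (x : F) < 1 ↔ x ∈ v.asIdeal :=
  v.adicAbv_coe_lt_one_iff AA1_two x

/-- Natural numbers in the place. -/
private theorem AA1_nat (v : Pl F) : ∃ q : ℕ, 2 ≤ q ∧ v.adicAbv AA1_two (q : F) < 1 := by
  refine ⟨Ideal.absNorm v.asIdeal, ?_, ?_⟩
  · exact CG2.GalFinAux.two_le_N v
  · have h := (AA1_int v ((Ideal.absNorm v.asIdeal : ℕ) : 𝓞 F)).2 (Ideal.absNorm_mem v.asIdeal)
    simpa using h

private theorem AA1_not_le {v v' : Pl F} (h : v ≠ v') : ∃ x : 𝓞 F, x ∈ v.asIdeal ∧ x ∉ v'.asIdeal := by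
  by_contra hc
  push Not at hc
  apply h
  apply HeightOneSpectrum.ext
  exact v.isMaximal.eq_of_le v'.isPrime.ne_top hc

private theorem AA1_pair {v₂ v₃ : Pl F} (h : v₂ ≠ v₃) {W : Type} (σ : W → F →+* ℝ)
    (hσ : Function.Injective σ) :
    Pairwise fun i j => ¬ (AA1_abv v₂ v₃ σ i).IsEquiv (AA1_abv v₂ v₃ σ j) := by
  have hfin : ∀ v v' : Pl F, v ≠ v' → ¬ (v.adicAbv AA1_two : AbsoluteValue F ℝ).IsEquiv
      (v'.adicAbv AA1_two) := by
    intro v v' hv he
    obtain ⟨x, hx, hx'⟩ := AA1_not_le hv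
    exact hx' ((AA1_int v' x).1 ((he.lt_one_iff).1 ((AA1_int v x).2 hx)))
  have hmix : ∀ (v : Pl F) (w : F →+* ℝ), ¬ (v.adicAbv AA1_two : AbsoluteValue F ℝ).IsEquiv
      (InfinitePlace.mk (Complex.ofRealHom.comp w)).1 := by
    intro v w he
    obtain ⟨q, hq, hq'⟩ := AA1_nat v
    have h1 := (he.lt_one_iff).1 hq'
    rw [AA1_inf, map_natCast, Nat.abs_cast] at h1
    have : (2 : ℝ) ≤ q := by exact_mod_cast hq
    linarith
  have hinf : ∀ w w' : W, w ≠ w' → ¬ (InfinitePlace.mk (Complex.ofRealHom.comp (σ w))).1.IsEquiv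
      (InfinitePlace.mk (Complex.ofRealHom.comp (σ w'))).1 := by
    intro w w' hw he
    exact hw (hσ (AA1_mk_inj (InfinitePlace.eq_iff_isEquiv.2 he)))
  intro i j hij
  match i, j with
  | none, none => exact absurd rfl hij
  | none, some none => exact hfin _ _ h
  | none, some (some w) => exact hmix _ _
  | some none, none => exact hfin _ _ h.symm
  | some none, some none => exact absurd rfl hij
  | some none, some (some w) => exact hmix _ _
  | some (some w), none => exact fun he => hmix _ _ he.symm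
  | some (some w), some none => exact fun he => hmix _ _ he.symm
  | some (some w), some (some w') => exact hinf _ _ fun e => hij (by rw [e])

private theorem AA1_nontriv (v₂ v₃ : Pl F) {W : Type} (σ : W → F →+* ℝ) (i : Option (Option W)) :
    (AA1_abv v₂ v₃ σ i).IsNontrivial := by
  have hfin : ∀ v : Pl F, (v.adicAbv AA1_two : AbsoluteValue F ℝ).IsNontrivial := by
    intro v
    obtain ⟨q, hq, hq'⟩ := AA1_nat v
    exact ⟨q, by exact_mod_cast (by omega : q ≠ 0), hq'.ne⟩
  match i with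
  | none => exact hfin _
  | some none => exact hfin _
  | some (some w) => exact InfinitePlace.isNontrivial _

/-- Weak approximation inside `F`. -/
private theorem AA1_approx {v₂ v₃ : Pl F} (h : v₂ ≠ v₃) {W : Type} [Finite W] (σ : W → F →+* ℝ)
    (hσ : Function.Injective σ) (a : Option (Option W) → F) {ε : ℝ} (hε : 0 < ε) :
    ∃ x : F, ∀ i, AA1_abv v₂ v₃ σ i (x - a i) < ε := by
  have := Fintype.ofFinite W
  have hd := AbsoluteValue.denseRange_algebraMap_pi (AA1_nontriv v₂ v₃ σ) (AA1_pair h σ hσ)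
  obtain ⟨x, hx⟩ := Metric.denseRange_iff.1 hd
    (fun i => WithAbs.toAbs (AA1_abv v₂ v₃ σ i) (a i)) ε hε
  refine ⟨x, fun i => ?_⟩
  have h1 := (dist_pi_lt_iff hε).1 hx i
  rw [dist_comm, dist_eq_norm, WithAbs.norm_eq_apply_ofAbs] at h1
  exact h1

private theorem AA1_exp_lt (γ : WithZero (Multiplicative ℤ)) (hγ : γ ≠ 0) :
    ∃ n : ℕ, WithZero.exp (-(n : ℤ)) < γ := by
  obtain ⟨m, rfl⟩ : ∃ m : ℤ, γ = WithZero.exp m := ⟨WithZero.log γ, (WithZero.exp_log hγ).symm⟩
  refine ⟨(1 - m).toNat, WithZero.exp_lt_exp.2 ?_⟩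
  have := Int.self_le_toNat (1 - m)
  omega

/-- The neighbourhoods of a point of `F_v`. -/
private theorem AA1_nhds (v : Pl F) (x : Fv v) {V : Set (Fv v)} (hV : V ∈ nhds x) :
    ∃ n : ℕ, ∀ y : Fv v, Valued.v (y - x) ≤ WithZero.exp (-(n : ℤ)) → y ∈ V := by
  obtain ⟨γ, hγ⟩ := Valued.mem_nhds.1 hV
  have h0 : MonoidWithZeroHom.ValueGroup₀.embedding γ.1 ≠ 0 := by
    rw [map_ne_zero_iff _ (MonoidWithZeroHom.ValueGroup₀.embedding_strictMono.injective)]
    exact γ.ne_zero
  obtain ⟨n, hn⟩ := AA1_exp_lt _ h0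
  refine ⟨n, fun y hy => hγ ?_⟩
  change Valued.v.restrict (y - x) < γ.1
  rw [Valuation.restrict_lt_iff_lt_embedding]
  exact lt_of_le_of_lt hy hn

/-- A neighbourhood in `F_v` contains a ball around an element of `F`. -/
private theorem AA1_ball (v : Pl F) (x : Fv v) {V : Set (Fv v)} (hV : V ∈ nhds x) :
    ∃ (a : F) (ε : ℝ), 0 < ε ∧ ∀ z : F, v.adicAbv AA1_two (z - a) < ε → algebraMap F (Fv v) z ∈ V := by
  obtain ⟨n, hn⟩ := AA1_nhds v x hV
  have ho : IsOpen {y : Fv v | Valued.v (y - x) ≤ WithZero.exp (-(n : ℤ))} :=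
    (CG2.isOpen_val_le v _ WithZero.exp_ne_zero).preimage (continuous_id.sub continuous_const)
  obtain ⟨a, ha⟩ := (HeightOneSpectrum.denseRange_algebraMap (K := F) v).exists_mem_open ho
    ⟨x, by
      change Valued.v (x - x) ≤ _
      rw [sub_self, map_zero]
      exact zero_le⟩
  obtain ⟨c, hc0, hc⟩ : ∃ c : F, c ≠ 0 ∧ v.valuation F c ≤ WithZero.exp (-(n : ℤ)) := by
    obtain ⟨π, hπ⟩ := v.valuation_exists_uniformizer F
    refine ⟨π ^ n, pow_ne_zero _ ?_, ?_⟩
    · intro h0
      rw [h0, map_zero] at hπ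
      exact WithZero.exp_ne_zero hπ.symm
    · rw [map_pow, hπ, ← WithZero.exp_nsmul]
      apply le_of_eq
      congr 1
      simp
  refine ⟨a, v.adicAbv AA1_two c, (AbsoluteValue.pos_iff _).2 hc0, fun z hz => hn _ ?_⟩
  have h1 : v.valuation F (z - a) < v.valuation F c := by
    have h2 : v.adicAbvDef AA1_two (z - a) < v.adicAbvDef AA1_two c := by exact_mod_cast hz
    exact (WithZeroMulInt.toNNReal_strictMono AA1_two).lt_iff_lt.1 h2
  have h2 : Valued.v (algebraMap F (Fv v) z - algebraMap F (Fv v) a) ≤ WithZero.exp (-(n : ℤ)) := by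
    rw [← map_sub, val_F]
    exact h1.le.trans hc
  have h3 : algebraMap F (Fv v) z - x =
      (algebraMap F (Fv v) z - algebraMap F (Fv v) a) + (algebraMap F (Fv v) a - x) := by ring
  rw [h3]
  exact (Valuation.map_add _ _ _).trans (max_le h2 ha)

/-- **AA1.** Weak approximation for `F` at two finite places and finitely many real embeddings.
PROOF. `AbsoluteValue.denseRange_algebraMap_pi` for the family indexed by `Option (Option W)` (or `Bool ⊕ W`) of the absolute values
`v₂.adicAbv`, `v₃.adicAbv` (`HeightOneSpectrum.adicAbv F`, with `b = Nm v`) and `x ↦ |σ w x|`. They are nontrivial and pairwise not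
equivalent: a natural number `q ≥ 2` in `v₂.asIdeal` (the norm) has `|q|_{v₂} < 1` and `|q| > 1` at
the real embeddings; an element of `v₂.asIdeal` not in `v₃.asIdeal` (`h`: two different maximal ideals)
separates `v₂` and `v₃`; for two embeddings `w ≠ w'`: the places are different, `InfinitePlace`
(the statement is in the proof of `InfinitePlace.denseRange_algebraMap_pi`;
`InfinitePlace.mk` of the embeddings is injective on real embeddings). Then transport: given targets
`x₂ ∈ Fv v₂`, `x₃`, `r w` and neighbourhoods: the image of `F` is dense in `Fv v₂`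
(`HeightOneSpectrum.denseRange_algebraMap`) and `ℚ` (so `σ w F`) in `ℝ`, so one may suppose that the targets
are in `F`; the topology of `Fv v` on `F` is given by the valuation: `v.adicAbv (x - x₂) < ε` implies `Valued.v (x - x₂) ≤ exp (-m)`.
(A direct proof without absolute values is also possible.) -/
theorem dense_diag {v₂ v₃ : Pl F} (h : v₂ ≠ v₃) {W : Type} [Finite W] (σ : W → F →+* ℝ)
    (hσ : Function.Injective σ) :
    DenseRange fun z : F =>
      ((algebraMap F (Fv v₂) z, algebraMap F (Fv v₃) z), fun w => σ w z) := by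
  have := Fintype.ofFinite W
  rintro ⟨⟨x₂, x₃⟩, r⟩
  rw [mem_closure_iff_nhds]
  intro U hU
  rw [nhds_prod_eq, nhds_prod_eq] at hU
  obtain ⟨U₁, hU₁, V, hV, hUV⟩ := Filter.mem_prod_iff.1 hU
  obtain ⟨V₂, hV₂, V₃, hV₃, h23⟩ := Filter.mem_prod_iff.1 hU₁
  obtain ⟨ε, hε, hεV⟩ := Metric.mem_nhds_iff.1 hV
  obtain ⟨a₂, ε₂, hε₂, h₂⟩ := AA1_ball v₂ x₂ hV₂
  obtain ⟨a₃, ε₃, hε₃, h₃⟩ := AA1_ball v₃ x₃ hV₃
  have hq : ∀ w : W, ∃ q : ℚ, |(q : ℝ) - r w| < ε / 2 := by
    intro w
    obtain ⟨q, hq1, hq2⟩ := exists_rat_btwn (show r w - ε / 2 < r w + ε / 2 by linarith)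
    exact ⟨q, by rw [abs_lt]; constructor <;> linarith⟩
  choose q hq using hq
  let a : Option (Option W) → F := fun i => match i with
    | none => a₂
    | some none => a₃
    | some (some w) => (q w : F)
  obtain ⟨x, hx⟩ := AA1_approx h σ hσ a (ε := min (ε / 2) (min ε₂ ε₃))
    (lt_min (by linarith) (lt_min hε₂ hε₃))
  refine ⟨_, hUV ⟨h23 ⟨h₂ x ?_, h₃ x ?_⟩, hεV ?_⟩, ⟨x, rfl⟩⟩
  · exact (hx none).trans_le ((min_le_right _ _).trans (min_le_left _ _))
  · exact (hx (some none)).trans_le ((min_le_right _ _).trans (min_le_right _ _))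
  · rw [Metric.mem_ball, dist_pi_lt_iff hε]
    intro w
    have h1 := hx (some (some w))
    have h2 : AA1_abv v₂ v₃ σ (some (some w)) (x - a (some (some w))) = |σ w (x - (q w : F))| :=
      AA1_inf _ _
    rw [h2, map_sub, map_ratCast] at h1
    have h3 := h1.trans_le (min_le_left _ _)
    change dist (σ w x) (r w) < ε
    rw [Real.dist_eq]
    have h4 : σ w x - r w = (σ w x - (q w : ℝ)) + ((q w : ℝ) - r w) := by ring
    rw [h4]
    exact (abs_add_le _ _).trans_lt (by linarith [hq w])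

private theorem AA2_lin {E : Type} [Field E] [TopologicalSpace E] [IsTopologicalRing E]
    {ι : Type} [Fintype ι] [DecidableEq ι] (f : (ι → E) →ₗ[E] E) : Continuous f := by
  have h : ∀ x, f x = ∑ i, x i * f (Pi.single i 1) := by
    intro x
    conv_lhs => rw [pi_eq_sum_univ' x, map_sum]
    refine Finset.sum_congr rfl fun i _ => ?_
    rw [map_smul, smul_eq_mul]
  have h2 : (f : (ι → E) → E) = fun x => ∑ i, x i * f (Pi.single i 1) := funext h
  rw [h2]
  exact continuous_finsetSum _ fun i _ => (continuous_apply i).mul continuous_const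

/-- **AA2.** Isomorphisms with the matrix algebra are homeomorphisms.
PROOF. `χ` is `E`-linear and the topologies are the product topologies of the coordinates:
`χ x = ∑ i, x.co i • χ (e i)` (`e i` the basis; `continuous_co`, `continuous_matrix`, finite sums, `continuous_const_smul`-like: multiplication in the
topological ring `E`), and `χ.symm M = ∑ i j, M i j • χ.symm (Matrix.single i j 1)`, coordinates continuous
(`continuous_alg`). -/
theorem iso_cont {E : Type} [Field E] [TopologicalSpace E] [IsTopologicalRing E] (φ : F →+* E)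
    (χ : DE A φ ≃ₐ[E] Matrix (Fin A.n) (Fin A.n) E) : Continuous χ ∧ Continuous χ.symm := by
  constructor
  · refine continuous_matrix fun i j => ?_
    let f : (Fin A.n × Fin A.n → E) →ₗ[E] E :=
      ((Matrix.entryLinearMap E E i j).comp χ.toLinearMap).comp ((A.sF.map φ).lin.symm.toLinearMap)
    exact AA2_lin f
  · refine continuous_alg fun i => ?_
    let g : (Fin A.n × Fin A.n → E) →ₗ[E] Matrix (Fin A.n) (Fin A.n) E :=
      { toFun := fun x => Matrix.of fun a b => x (a, b)
        map_add' := fun _ _ => rfl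
        map_smul' := fun _ _ => rfl }
    let f : (Fin A.n × Fin A.n → E) →ₗ[E] E :=
      (((LinearMap.proj i).comp ((A.sF.map φ).lin.toLinearMap)).comp χ.symm.toLinearMap).comp g
    have h1 : Continuous f := AA2_lin f
    have h2 : Continuous fun M : Matrix (Fin A.n) (Fin A.n) E =>
        (fun p : Fin A.n × Fin A.n => M p.1 p.2) :=
      continuous_pi fun p => (continuous_apply_apply p.1 p.2)
    exact h1.comp h2

/-- **AA3.** Weak approximation for `D`.
PROOF. AA1 for each of the finitely many coordinates: the map `(ι → F) → (ι → (Fv v₂ × Fv v₃) × (SPl A → ℝ))`,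
`ι = Fin n × Fin n`, has dense range (`DenseRange.piMap` for `dense_diag`, `σ = SPl.emb`, injective by
`SPl.emb_injective`). The set of the points of the target such that the elements of `DV A v₂`, `DV A v₃`, `DE A w.emb`
with these coordinates are mapped by `φ v₂`, `φ v₃`, `w.iso` in `U₂`, `U₃`, `U w` is open
(AA2, finitely many `w`) and not empty (the coordinates of `(φ v₂).symm X₂`, ...): it contains the image of an element
`t` of `F ^ ι = DF A`. -/
theorem exists_approx (φ : Spl A S) {v₂ v₃ : {v : Pl F // v ∉ S}} (h : v₂.1 ≠ v₃.1)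
    {U₂ : Set (Matrix (Fin A.n) (Fin A.n) (Fv v₂.1))} (hU₂ : IsOpen U₂) (h₂ : U₂.Nonempty)
    {U₃ : Set (Matrix (Fin A.n) (Fin A.n) (Fv v₃.1))} (hU₃ : IsOpen U₃) (h₃ : U₃.Nonempty)
    {U : Set (Matrix (Fin A.n) (Fin A.n) ℝ)} (hU : IsOpen U) (hUn : U.Nonempty) :
    ∃ t : DF A, φ v₂ (dloc A v₂.1 t) ∈ U₂ ∧ φ v₃ (dloc A v₃.1 t) ∈ U₃ ∧
      ∀ w : SPl A, w.iso (dE A w.emb t) ∈ U := by
  have hd := dense_diag h (SPl.emb (A := A)) SPl.emb_injective
  have hd2 : DenseRange fun (x : Fin A.n × Fin A.n → F) (i : Fin A.n × Fin A.n) =>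
      (((algebraMap F (Fv v₂.1) (x i), algebraMap F (Fv v₃.1) (x i)), fun w : SPl A => w.emb (x i)) :
        (Fv v₂.1 × Fv v₃.1) × (SPl A → ℝ)) :=
    DenseRange.piMap fun _ => hd
  let X := Fin A.n × Fin A.n → (Fv v₂.1 × Fv v₃.1) × (SPl A → ℝ)
  let f₂ : X → DV A v₂.1 := fun y => SC.Alg.mk fun i => (y i).1.1
  let f₃ : X → DV A v₃.1 := fun y => SC.Alg.mk fun i => (y i).1.2
  let f : ∀ w : SPl A, X → DE A w.emb := fun w y => SC.Alg.mk fun i => (y i).2 w
  have c₂ : Continuous f₂ := continuous_alg fun i =>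
    continuous_fst.comp (continuous_fst.comp (continuous_apply i))
  have c₃ : Continuous f₃ := continuous_alg fun i =>
    continuous_snd.comp (continuous_fst.comp (continuous_apply i))
  have c : ∀ w, Continuous (f w) := fun w => continuous_alg fun i =>
    (continuous_apply w).comp (continuous_snd.comp (continuous_apply i))
  have e₂ := (iso_cont (algebraMap F (Fv v₂.1)) (φ v₂)).1
  have e₃ := (iso_cont (algebraMap F (Fv v₃.1)) (φ v₃)).1
  have e := fun w : SPl A => (iso_cont w.emb w.iso).1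
  have ho : IsOpen ({y : X | φ v₂ (f₂ y) ∈ U₂} ∩ {y : X | φ v₃ (f₃ y) ∈ U₃} ∩
      ⋂ w : SPl A, {y : X | w.iso (f w y) ∈ U}) := by
    refine ((hU₂.preimage (e₂.comp c₂)).inter (hU₃.preimage (e₃.comp c₃))).inter ?_
    exact isOpen_iInter_of_finite fun w => hU.preimage ((e w).comp (c w))
  obtain ⟨X₂, hX₂⟩ := h₂
  obtain ⟨X₃, hX₃⟩ := h₃
  obtain ⟨X₁, hX₁⟩ := hUn
  obtain ⟨t, ht⟩ := hd2.exists_mem_open ho ⟨fun i => ((((φ v₂).symm X₂).co i, ((φ v₃).symm X₃).co i),
    fun w => (w.iso.symm X₁).co i), by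
    refine ⟨⟨?_, ?_⟩, ?_⟩
    · change φ v₂ ((φ v₂).symm X₂) ∈ U₂
      rw [AlgEquiv.apply_symm_apply]
      exact hX₂
    · change φ v₃ ((φ v₃).symm X₃) ∈ U₃
      rw [AlgEquiv.apply_symm_apply]
      exact hX₃
    · rw [Set.mem_iInter]
      intro w
      change w.iso (w.iso.symm X₁) ∈ U
      rw [AlgEquiv.apply_symm_apply]
      exact hX₁⟩
  refine ⟨SC.Alg.mk t, ht.1.1, ht.1.2, fun w => ?_⟩
  exact Set.mem_iInter.1 ht.2 w

end Pool.Agent.CGN
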