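import Pool.Agent.CGN.IDefs

/-!
# The generic unit (part E): definitions
-/

noncomputable section

namespace Pool.Agent.CGN

open NumberField IsDedekindDomain Matrix Polynomial
open Pool.Agent.CG2 (Pl Fv Ov GalF Fbar Zbar Over IsInertia IsFrob Nm IsRay InRay expo TotPos Lies)
open Pool.Agent.CG2.GalFinAux (below)
open Pool.Agent.CGQ

variable {F : Type} [Field F] [NumberField F]

/-! ### Local types of polynomials -/

/-- The integers of `F` in `F_v`. -/
abbrev oF (v : Pl F) : 𝓞 F →+* Fv v := (algebraMap F (Fv v)).comp (algebraMap (𝓞 F) F)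

theorem val_oF (v : Pl F) (x : 𝓞 F) : Valued.v (oF v x) = v.valuation F (x : F) :=
  HeightOneSpectrum.adicCompletion.valued_coe ..

theorem val_F (v : Pl F) (x : F) : Valued.v (algebraMap F (Fv v) x) = v.valuation F x :=
  HeightOneSpectrum.adicCompletion.valued_coe ..

/-- The coefficients of `f` are congruent to those of `p` modulo the `m`-th power of the maximal
ideal. -/
def Cl (v : Pl F) (m : ℕ) (f : (Fv v)[X]) (p : (𝓞 F)[X]) : Prop :=
  ∀ i, Valued.v (f.coeff i - oF v (p.coeff i)) ≤ WithZero.exp (-(m : ℤ))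

/-- The polynomial `(X - a) g` modulo `v`: a simple root and an irreducible factor. -/
structure T2p (v : Pl F) (n : ℕ) (a : 𝓞 F) (g : (𝓞 F)[X]) : Prop where
  mo : g.Monic
  dg : g.natDegree + 1 = n
  irr : Irreducible (g.map (Ideal.Quotient.mk v.asIdeal))
  ne : g.eval a ∉ v.asIdeal

/-- The first local type: modulo `v` the polynomial is the product of a linear factor and of an
irreducible one prime to it. -/
def T2 (v : Pl F) (n : ℕ) (f : (Fv v)[X]) : Prop :=
  ∃ (a : 𝓞 F) (g : (𝓞 F)[X]), T2p v n a g ∧ Cl v 1 f ((X - C a) * g)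

/-- The polynomial `p` has modulo `v` one double root `a` and `n - 2` simple ones, and `p(a)` is
not in the square of `v`. -/
structure T3p (v : Pl F) (n : ℕ) (p : (𝓞 F)[X]) (a : 𝓞 F) (b : Fin (n - 2) → 𝓞 F) : Prop where
  mo : p.Monic
  dg : p.natDegree = n
  red : p.map (Ideal.Quotient.mk v.asIdeal) = (X - C (Ideal.Quotient.mk v.asIdeal a)) ^ 2 *
    ∏ i, (X - C (Ideal.Quotient.mk v.asIdeal (b i)))
  inj : Function.Injective fun i => Ideal.Quotient.mk v.asIdeal (b i)
  ne : ∀ i, Ideal.Quotient.mk v.asIdeal (b i) ≠ Ideal.Quotient.mk v.asIdeal a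
  nmem : p.eval a ∉ v.asIdeal ^ 2

/-- The second local type (ramified transposition). -/
def T3 (v : Pl F) (n : ℕ) (f : (Fv v)[X]) : Prop :=
  ∃ (p : (𝓞 F)[X]) (a : 𝓞 F) (b : Fin (n - 2) → 𝓞 F), T3p v n p a b ∧ Cl v 2 f p

/-- The real polynomial has `n` different real roots. -/
def RR (n : ℕ) (f : ℝ[X]) : Prop :=
  ∃ y : Fin n → ℝ, Function.Injective y ∧ ∀ i, f.IsRoot (y i)

variable {A : AD F} {S : Set (Pl F)}

/-- The local types of the characteristic polynomials of an element of `D` at `v₂` and `v₃`. -/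
structure TyL (φ : Spl A S) (v₂ v₃ : {v : Pl F // v ∉ S}) (x : DF A) : Prop where
  t2 : T2 v₂.1 A.n (φ v₂ (dloc A v₂.1 x)).charpoly
  t3 : T3 v₃.1 A.n (φ v₃ (dloc A v₃.1 x)).charpoly

/-- The characteristic polynomials of the element of `D` have real roots at the real places where
`D` splits. -/
def TyR (A : AD F) (x : DF A) : Prop := ∀ w : SPl A, RR A.n (w.iso (dE A w.emb x)).charpoly

/-! ### Algebraic integers -/

/-- The integers of `F` as algebraic integers. -/
def zF (F : Type) [Field F] [NumberField F] : 𝓞 F →+* Zbar F where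
  toFun x := ⟨algebraMap F (Fbar F) (x : F), by
    have h : IsIntegral ℤ (x : F) := x.2
    exact h.algebraMap⟩
  map_one' := by apply Subtype.ext; simp
  map_mul' x y := by apply Subtype.ext; simp
  map_zero' := by apply Subtype.ext; simp
  map_add' x y := by apply Subtype.ext; simp

theorem coe_zF (x : 𝓞 F) : ((zF F x : Zbar F) : Fbar F) = algebraMap F (Fbar F) (x : F) := rfl

/-- The integers of `L` as algebraic integers, for an embedding `j` of `L`. -/
def zL {L : Type} [Field L] [NumberField L] [Algebra F L] (j : L →ₐ[F] Fbar F) : 𝓞 L →+* Zbar F where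
  toFun x := ⟨j (x : L), by
    have h : IsIntegral ℤ (x : L) := x.2
    exact h.map (j.restrictScalars ℤ)⟩
  map_one' := by apply Subtype.ext; simp
  map_mul' x y := by apply Subtype.ext; simp
  map_zero' := by apply Subtype.ext; simp
  map_add' x y := by apply Subtype.ext; simp

theorem coe_zL {L : Type} [Field L] [NumberField L] [Algebra F L] (j : L →ₐ[F] Fbar F) (x : 𝓞 L) :
    ((zL j x : Zbar F) : Fbar F) = j (x : L) := rfl

theorem zL_alg {L : Type} [Field L] [NumberField L] [Algebra F L] (j : L →ₐ[F] Fbar F) (x : 𝓞 F) :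
    zL j (algebraMap (𝓞 F) (𝓞 L) x) = zF F x := by
  apply Subtype.ext
  rw [coe_zL, coe_zF]
  have h : ((algebraMap (𝓞 F) (𝓞 L) x : 𝓞 L) : L) = algebraMap F L (x : F) := rfl
  rw [h, AlgHom.commutes]

/-! ### The elements of `D` -/

/-- The smallest degree. -/
theorem two_le_n {A : AD F} (hr : 1 ≤ A.rk) : 2 ≤ A.n := by
  by_contra h
  have h1 : A.n - 1 = 0 := by omega
  have h2 : A.n / 2 - 1 = 0 := by omega
  rw [AD.rk, h1, h2, zero_mul, zero_mul] at hr
  omega

theorem SPl.emb_injective : Function.Injective (SPl.emb (A := A)) := by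
  intro w w' h
  apply Subtype.ext
  have h1 : ∀ w : SPl A, w.1 = InfinitePlace.mk (Complex.ofRealHom.comp w.emb) := by
    intro w
    apply InfinitePlace.ext
    intro x
    rw [InfinitePlace.apply]
    have h2 := InfinitePlace.embedding_of_isReal_apply w.2.choose x
    have h3 : (Complex.ofRealHom.comp w.emb) x = w.1.embedding x := h2
    rw [h3, InfinitePlace.norm_embedding_eq]
  rw [h1, h1 w', h]

end Pool.Agent.CGN
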