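import Pool.Agent.CGN.EDf

/-!
# Part E, Galois side: integral generators and the product over the embeddings
-/

noncomputable section

set_option linter.unusedSectionVars false

namespace Pool.Agent.CGN

open NumberField IsDedekindDomain Matrix Polynomial
open Pool.Agent.CG2 (Pl Fv Ov GalF Fbar Zbar Over IsInertia IsFrob Nm IsRay InRay expo TotPos Lies)
open Pool.Agent.CG2.GalFinAux (below)
open Pool.Agent.CGQ

variable {F : Type} [Field F] [NumberField F]

/-- **GA1.** A multiple `s θ`, `s` congruent to `1` modulo `v ^ m`, of a root `θ` of a polynomial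
with coefficients integral at `v` is an algebraic integer.
PROOF. `n = f.natDegree`. If `m = 0`, the same proof. For every `i` the coefficient
`f_i = f.coeff i` has `v.valuation F f_i ≤ 1`: `val_F`, `val_oF`, `hc i`
(`v (f_i - p_i) ≤ exp (-m) ≤ 1`, `v p_i ≤ 1`, ultrametric inequality). So there is `d_i ∈ 𝓞 F`,
`d_i ∉ v.asIdeal` with `d_i f_i ∈ 𝓞 F` (`HeightOneSpectrum.exists_primeCompl_mul_eq_of_integer`);
`d = ∏ i ∈ range n, d_i ∉ v.asIdeal` and `d f_i = a_i ∈ 𝓞 F` for all `i < n`. As `v.asIdeal` is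
maximal and `d ∉ v.asIdeal`, there is `d' ∈ 𝓞 F` with `d d' - 1 ∈ v.asIdeal ^ m` (for example
`Ideal.isCoprime_pow_..`, `IsCoprime (span {d}) (v ^ m)`, or: `d d₁ = 1 - x`, `x ∈ v`,
`d' = d₁ (1 + x + ... + x ^ (m-1))`, `d d' = 1 - x ^ m`). If moreover `d' = 0` then replace... it
is not needed: `s = d d'` must be nonzero: `s - 1 ∈ v ^ m`; if `m ≥ 1` this gives `s ∉ v`, so
`s ≠ 0` (this is the reason for `hm`). `h` = the polynomial `∑_{i ≤ n} h_i X ^ i`, `h_n = 1` and
`h_i = s ^ (n-1-i) d' a_i` for `i < n`; in `F` one has `h_i = s ^ (n-i) f_i` (also for `i = n`): it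
is `scaleRoots f s`, so `h (s θ) = s ^ n f θ = 0`. `s θ` is integral over `𝓞 F`, so over `ℤ`:
this gives `θ' : 𝓞 L` (`integral_trans`). Finally `h_i - p_i = (s ^ (n-i) - 1) f_i + (f_i - p_i)`
has valuation `≤ exp (-m)` (`s ^ k - 1` is in `v ^ m`: `sub_dvd_pow_sub_pow`), and it is in
`𝓞 F`: it is in `v.asIdeal ^ m` by `HeightOneSpectrum.intValuation_le_pow_iff_mem` and
`valuation_of_algebraMap`; for `i > n` both coefficients vanish. -/
theorem exists_twist (v : Pl F) {m : ℕ} (hm : 1 ≤ m) {f : F[X]} (hf : f.Monic) {p : (𝓞 F)[X]}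
    (hp : p.Monic) (hd : p.natDegree = f.natDegree) (hc : Cl v m (f.map (algebraMap F (Fv v))) p)
    {L : Type} [Field L] [NumberField L] [Algebra F L] {θ : L} (hθ : aeval θ f = 0) :
    ∃ (s : F) (θ' : 𝓞 L) (h : (𝓞 F)[X]), s ≠ 0 ∧ (θ' : L) = s • θ ∧ h.Monic ∧
      h.natDegree = f.natDegree ∧ aeval θ' h = 0 ∧
      ∀ i, h.coeff i - p.coeff i ∈ v.asIdeal ^ m := by
  classical
  obtain ⟨n, hn⟩ : ∃ n, n = f.natDegree := ⟨_, rfl⟩
  -- valuations
  have hv1 : ∀ i, v.valuation F (f.coeff i - ((p.coeff i : 𝓞 F) : F)) ≤ WithZero.exp (-(m : ℤ)) := by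
    intro i
    have h1 := hc i
    rw [coeff_map] at h1
    have h2 : algebraMap F (Fv v) (f.coeff i) - oF v (p.coeff i) =
        algebraMap F (Fv v) (f.coeff i - ((p.coeff i : 𝓞 F) : F)) := by
      rw [map_sub]
      rfl
    rw [h2, val_F] at h1
    exact h1
  have hexp : WithZero.exp (-(m : ℤ)) ≤ (1 : WithZero (Multiplicative ℤ)) := by
    rw [← WithZero.exp_zero, WithZero.exp_le_exp]
    omega
  have hv2 : ∀ i, v.valuation F (f.coeff i) ≤ 1 := by
    intro i
    have h1 : f.coeff i = (f.coeff i - ((p.coeff i : 𝓞 F) : F)) + ((p.coeff i : 𝓞 F) : F) := by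
      ring
    rw [h1]
    refine le_trans (Valuation.map_add _ _ _) (max_le ((hv1 i).trans hexp) ?_)
    exact v.valuation_le_one (p.coeff i)
  choose a0 d0 had using fun i => v.exists_primeCompl_mul_eq_of_integer (f.coeff i) (hv2 i)
  obtain ⟨d, hd1, a, ha⟩ : ∃ d : 𝓞 F, d ∉ v.asIdeal ∧ ∃ a : ℕ → 𝓞 F, ∀ i, i < n →
      algebraMap (𝓞 F) F d * f.coeff i = algebraMap (𝓞 F) F (a i) := by
    refine ⟨∏ i ∈ Finset.range n, (d0 i : 𝓞 F), ?_, ?_⟩
    · intro h
      have hpr := v.isPrime
      obtain ⟨i, _, hi⟩ := (Ideal.IsPrime.prod_mem_iff (p := v.asIdeal)).1 h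
      exact (d0 i).2 hi
    · refine ⟨fun i => (∏ j ∈ (Finset.range n).erase i, (d0 j : 𝓞 F)) * a0 i, fun i hi => ?_⟩
      rw [← Finset.prod_erase_mul _ _ (Finset.mem_range.2 hi), map_mul, map_mul, ← had i]
      ring
  obtain ⟨d', hd'⟩ : ∃ d' : 𝓞 F, d * d' - 1 ∈ v.asIdeal ^ m := by
    have h1 : v.asIdeal ⊔ Ideal.span {d} = ⊤ := by
      by_contra hne
      have h2 := v.isMaximal.eq_of_le hne le_sup_left
      apply hd1
      rw [h2]
      exact Ideal.mem_sup_right (Ideal.subset_span rfl)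
    have h2 : v.asIdeal ^ m ⊔ Ideal.span {d} = ⊤ := Ideal.pow_sup_eq_top h1
    have h3 : (1 : 𝓞 F) ∈ v.asIdeal ^ m ⊔ Ideal.span {d} := by rw [h2]; trivial
    obtain ⟨y, hy, z, hz, hyz⟩ := Submodule.mem_sup.1 h3
    obtain ⟨c, rfl⟩ := Ideal.mem_span_singleton'.1 hz
    refine ⟨c, ?_⟩
    have h4 : d * c - 1 = -y := by rw [← hyz]; ring
    rw [h4]
    exact neg_mem hy
  have hs0 : d * d' ≠ 0 := by
    intro h
    rw [h, zero_sub, neg_mem_iff] at hd'
    have h1 : (1 : 𝓞 F) ∈ v.asIdeal := Ideal.pow_le_self (by omega) hd'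
    exact v.isPrime.ne_top ((Ideal.eq_top_iff_one _).2 h1)
  obtain ⟨s, hs⟩ : ∃ s : F, s = algebraMap (𝓞 F) F (d * d') := ⟨_, rfl⟩
  have hsne : s ≠ 0 := by
    rw [hs]
    exact fun h => hs0 ((FaithfulSMul.algebraMap_injective (𝓞 F) F) (by rw [h, map_zero]))
  have hlift : scaleRoots f s ∈ lifts (algebraMap (𝓞 F) F) := by
    rw [lifts_iff_coeff_lifts]
    intro i
    rw [coeff_scaleRoots, ← hn]
    rcases lt_trichotomy i n with h1 | h1 | h1
    · refine ⟨a i * d' * (d * d') ^ (n - 1 - i), ?_⟩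
      rw [map_mul, map_mul, map_pow, ← hs, ← ha i h1]
      have h2 : n - i = (n - 1 - i) + 1 := by omega
      rw [h2, pow_succ, hs, map_mul]
      ring
    · refine ⟨1, ?_⟩
      rw [h1, hn]
      have h2 : f.coeff f.natDegree = 1 := hf
      rw [h2]
      simp
    · refine ⟨0, ?_⟩
      rw [coeff_eq_zero_of_natDegree_lt (by rw [← hn]; exact h1)]
      simp
  obtain ⟨h, hh1, hh2, hh3⟩ := lifts_and_natDegree_eq_and_monic hlift
    ((monic_scaleRoots_iff s).2 hf)
  rw [natDegree_scaleRoots] at hh2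
  have hroot : aeval (s • θ) (scaleRoots f s) = 0 := by
    rw [Algebra.smul_def]
    exact scaleRoots_aeval_eq_zero hθ
  have hroot2 : aeval (s • θ) h = 0 := by
    rw [← hh1, aeval_map_algebraMap] at hroot
    exact hroot
  have hint : IsIntegral ℤ (s • θ) := by
    have h1 : IsIntegral (𝓞 F) (s • θ) := ⟨h, hh3, hroot2⟩
    exact isIntegral_trans _ h1
  refine ⟨s, ⟨s • θ, hint⟩, h, hsne, rfl, hh3, hh2, ?_, ?_⟩
  · apply FaithfulSMul.algebraMap_injective (𝓞 L) L
    rw [← aeval_algebraMap_apply, map_zero]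
    exact hroot2
  · intro i
    rw [← HeightOneSpectrum.intValuation_le_pow_iff_mem, ← v.valuation_of_algebraMap (K := F)]
    change v.valuation F (algebraMap (𝓞 F) F (h.coeff i - p.coeff i)) ≤ _
    rw [map_sub]
    have hcoef : algebraMap (𝓞 F) F (h.coeff i) = f.coeff i * s ^ (n - i) := by
      rw [← coeff_map, hh1, coeff_scaleRoots, hn]
    have h1 : v.valuation F (s ^ (n - i) - 1) ≤ WithZero.exp (-(m : ℤ)) := by
      have h2 : s ^ (n - i) - 1 = algebraMap (𝓞 F) F ((d * d') ^ (n - i) - 1) := by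
        rw [hs, map_sub, map_pow, map_one]
      rw [h2, v.valuation_of_algebraMap, HeightOneSpectrum.intValuation_le_pow_iff_mem]
      have h3 := sub_dvd_pow_sub_pow (d * d') 1 (n - i)
      rw [one_pow] at h3
      exact Ideal.mem_of_dvd _ h3 hd'
    have h2 : algebraMap (𝓞 F) F (h.coeff i) - algebraMap (𝓞 F) F (p.coeff i) =
        (s ^ (n - i) - 1) * f.coeff i + (f.coeff i - ((p.coeff i : 𝓞 F) : F)) := by
      rw [hcoef]
      ring
    rw [h2]
    refine le_trans (Valuation.map_add _ _ _) (max_le ?_ (hv1 i))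
    rw [map_mul]
    exact mul_le_of_le_of_le_one h1 (hv2 i)

/-- **GA2.** The polynomial of an integral generator as a product over the embeddings of `L`.
PROOF. `n = [L : F]`. Both sides are polynomials over `Zbar F`; the map to `Fbar F` is injective
(`Polynomial.map_injective`, `Subtype.val_injective`), so it is enough to prove the identity in
`(Fbar F)[X]`: `h` mapped to `Fbar F` is monic of degree `n` and has the roots `j θ'`
(`aeval θ' h = 0` in `𝓞 L` mapped by `zL j`, `zL_alg`), which are `n` different ones: there are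
`n` embeddings (`AlgHom.card F L (Fbar F)`) and they have different values at `θ'` (`hinj`). A monic
polynomial of degree `n` with the `n` different roots `x_j` is `∏ (X - C x_j)`
(`Finset.prod_X_sub_C_dvd`-like lemma, `Multiset`, or `Polynomial.eq_of_monic_of_dvd_of_natDegree_le`). -/
theorem prod_embs {L : Type} [Field L] [NumberField L] [Algebra F L] {θ' : 𝓞 L} {h : (𝓞 F)[X]}
    (hm : h.Monic) (hd : h.natDegree = Module.finrank F L) (h0 : aeval θ' h = 0)
    (hinj : Function.Injective fun j : L →ₐ[F] Fbar F => j (θ' : L)) :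
    h.map (zF F) = ∏ j : L →ₐ[F] Fbar F, (X - C (zL j θ')) := by
  have hval : Function.Injective (algebraMap (Zbar F) (Fbar F)) := Subtype.val_injective
  apply Polynomial.map_injective (algebraMap (Zbar F) (Fbar F)) hval
  rw [Polynomial.map_prod]
  have h1 : ∀ j : L →ₐ[F] Fbar F, (X - C (zL j θ')).map (algebraMap (Zbar F) (Fbar F)) =
      X - C (j (θ' : L)) := by
    intro j
    rw [Polynomial.map_sub, map_X, map_C]
    rfl
  simp only [h1]
  apply Polynomial.eq_of_monic_of_dvd_of_natDegree_le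
  · exact monic_prod_of_monic _ _ fun j _ => monic_X_sub_C _
  · exact (hm.map _).map _
  · apply Finset.prod_dvd_of_coprime
    · intro j _ j' _ hne
      exact isCoprime_X_sub_C_of_isUnit_sub (sub_ne_zero.2 (fun h => hne (hinj h))).isUnit
    · intro j _
      rw [dvd_iff_isRoot, IsRoot.def, Polynomial.map_map, eval_map]
      have h2 : ((algebraMap (Zbar F) (Fbar F)).comp (zF F)) =
          (j.toRingHom.comp (algebraMap (𝓞 L) L)).comp (algebraMap (𝓞 F) (𝓞 L)) := by
        ext x
        have := congrArg (algebraMap (Zbar F) (Fbar F)) (zL_alg j x)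
        exact this.symm
      have h3 : eval₂ ((j.toRingHom.comp (algebraMap (𝓞 L) L)).comp (algebraMap (𝓞 F) (𝓞 L)))
          ((j.toRingHom.comp (algebraMap (𝓞 L) L)) θ') h =
          (j.toRingHom.comp (algebraMap (𝓞 L) L)) (eval₂ (algebraMap (𝓞 F) (𝓞 L)) θ' h) :=
        (hom_eval₂ h _ _ _).symm
      rw [h2]
      refine h3.trans ?_
      have h4 : eval₂ (algebraMap (𝓞 F) (𝓞 L)) θ' h = 0 := h0
      rw [h4, map_zero]
  · rw [natDegree_prod_of_monic _ _ fun j _ => monic_X_sub_C _]
    have h5 : ∀ j : L →ₐ[F] Fbar F, (X - C (j (θ' : L))).natDegree = 1 := fun j =>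
      natDegree_X_sub_C _
    simp only [h5]
    rw [Finset.sum_const, Finset.card_univ, AlgHom.card F L (Fbar F), smul_eq_mul, mul_one,
      (hm.map _).natDegree_map, hm.natDegree_map, hd]

/-- **GA3.** The embeddings of `L` have different values at an element of degree `[L : F]`.
PROOF. `j z = j' z`; `F(z) = L` (`IntermediateField.adjoin F {z}` has degree
`(minpoly F z).natDegree = [L : F]`: `IntermediateField.adjoin.finrank`, `IntermediateField.eq_of_le_of_finrank_eq`
or `Field.primitive_element_iff_minpoly_natDegree_eq`), so `j = j'`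
(`IntermediateField.algHom_ext_of_eq_adjoin` or through the power basis). The multiplication of
`z` with `s ≠ 0` in `F` does not change this. -/
theorem emb_inj {L : Type} [Field L] [NumberField L] [Algebra F L] {z : L}
    (hz : (minpoly F z).natDegree = Module.finrank F L) {s : F} (hs : s ≠ 0) :
    Function.Injective fun j : L →ₐ[F] Fbar F => j (s • z) := by
  have h1 : IntermediateField.adjoin F {z} = ⊤ :=
    (Field.primitive_element_iff_minpoly_natDegree_eq F z).2 hz
  have h2 : Algebra.adjoin F {z} = ⊤ := by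
    rw [← IntermediateField.adjoin_simple_toSubalgebra_of_isAlgebraic
      (Algebra.IsAlgebraic.isAlgebraic z), h1]
    rfl
  intro j j' h
  refine AlgHom.ext_of_adjoin_eq_top h2 ?_
  intro y hy
  obtain rfl : y = z := hy
  have h3 : j (s • y) = j' (s • y) := h
  rw [AlgHom.map_smul_of_tower, AlgHom.map_smul_of_tower] at h3
  exact smul_right_injective _ hs h3

end Pool.Agent.CGN
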