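import Pool.Agent.CGN.EDf

/-!
# Part E, Galois side: the Frobenius element at `v₂`
-/

noncomputable section

set_option linter.unusedSectionVars false

namespace Pool.Agent.CGN

open NumberField IsDedekindDomain Matrix Polynomial
open Pool.Agent.CG2 (Pl Fv Ov GalF Fbar Zbar Over IsInertia IsFrob Nm IsRay InRay expo TotPos Lies)
open Pool.Agent.CG2.GalFinAux (below)
open Pool.Agent.CGQ

variable {F : Type} [Field F] [NumberField F]

/-- **GB1.** The powers of the Frobenius permute transitively the roots of an irreducible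
polynomial over a finite field in a domain.
PROOF. Let `Ω` be an algebraic closure of the fraction field of `R` (an algebraically closed field
containing `R`, `κ → Ω`), `q = Nat.card κ`. `minpoly κ x` and `minpoly κ x'` (in `Ω`) are both the
polynomial `g` up to a unit, so equal. `κ(x)` is a finite field. The elements `x ^ (q ^ k)`,
`k < n = g.natDegree`, are roots of `g` (`g (x) ^ q = g (x ^ q)`: `FiniteField.expand_card` or
`frobenius`), and they are different: if `x ^ (q ^ a) = x ^ (q ^ b)`, `a < b < n`, then by injectivity of the Frobenius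
`x ^ (q ^ c) = x` with `0 < c = b - a < n`, all elements `y` of `κ(x)` satisfy `y ^ (q ^ c) = y`
(the set of these `y` is a subfield containing `κ` and `x`), but `κ(x)` has `q ^ n` elements and the
polynomial `Y ^ (q ^ c) - Y` has at most `q ^ c` roots. So these are all the `n` roots of `g` and `x'`
is one of them. (Alternative: `x' = σ x` for an automorphism `σ` of the algebraic closure of `κ`
in `Ω`, and on the finite field `κ(x)` every automorphism is a power of the Frobenius:
`FiniteField.bijective_frobeniusAlgEquivOfAlgebraic_pow` or similar.) -/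
theorem frob_trans {κ R : Type} [Field κ] [Finite κ] [CommRing R] [IsDomain R] [Algebra κ R]
    {g : κ[X]} (hg : Irreducible g) {x x' : R} (hx : aeval x g = 0) (hx' : aeval x' g = 0) :
    ∃ k : ℕ, x ^ Nat.card κ ^ k = x' := by
  classical
  let := Fintype.ofFinite κ
  have hinj : Function.Injective (algebraMap R (FractionRing R)) :=
    FaithfulSMul.algebraMap_injective R (FractionRing R)
  have hy : ∀ t : R, aeval t g = 0 → aeval (algebraMap R (FractionRing R) t) g = 0 := by
    intro t ht
    rw [aeval_algebraMap_apply, ht, map_zero]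
  have hint : ∀ t ∈ ({algebraMap R (FractionRing R) x, algebraMap R (FractionRing R) x'} :
      Set (FractionRing R)), IsIntegral κ t := by
    have h1 : ∀ t : R, aeval t g = 0 → IsIntegral κ (algebraMap R (FractionRing R) t) := by
      intro t ht
      have h2 : IsAlgebraic κ (algebraMap R (FractionRing R) t) := ⟨g, hg.ne_zero, hy t ht⟩
      exact h2.isIntegral
    rintro t (rfl | rfl)
    · exact h1 x hx
    · exact h1 x' hx'
  obtain ⟨K', hK'⟩ : ∃ K' : IntermediateField κ (FractionRing R),
    K' = IntermediateField.adjoin κ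
      {algebraMap R (FractionRing R) x, algebraMap R (FractionRing R) x'} := ⟨_, rfl⟩
  have hfd : FiniteDimensional κ K' := by
    rw [hK']
    have : Finite ({algebraMap R (FractionRing R) x, algebraMap R (FractionRing R) x'} :
      Set (FractionRing R)) := Set.Finite.to_subtype (by simp)
    exact IntermediateField.finiteDimensional_adjoin hint
  have hfin : Finite K' := Module.finite_of_finite κ
  obtain ⟨z, hz⟩ : ∃ z : K', (z : FractionRing R) = algebraMap R (FractionRing R) x :=
    ⟨⟨_, by rw [hK']; exact IntermediateField.subset_adjoin κ _ (Or.inl rfl)⟩, rfl⟩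
  obtain ⟨z', hz'⟩ : ∃ z : K', (z : FractionRing R) = algebraMap R (FractionRing R) x' :=
    ⟨⟨_, by rw [hK']; exact IntermediateField.subset_adjoin κ _ (Or.inr rfl)⟩, rfl⟩
  have hgz : ∀ (w : K') (t : R), (w : FractionRing R) = algebraMap R (FractionRing R) t →
      aeval t g = 0 → aeval w g = 0 := by
    intro w t hw ht
    have h1 : algebraMap K' (FractionRing R) (aeval w g) = 0 := by
      rw [← aeval_algebraMap_apply]
      have h2 : algebraMap K' (FractionRing R) w = algebraMap R (FractionRing R) t := hw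
      rw [h2]
      exact hy t ht
    exact (algebraMap K' (FractionRing R)).injective (by rw [h1, map_zero])
  have hmin : IsConjRoot κ z' z := by
    rw [isConjRoot_def, ← minpoly.eq_of_irreducible hg (hgz z x hz hx),
      ← minpoly.eq_of_irreducible hg (hgz z' x' hz' hx')]
  obtain ⟨σ, hσ⟩ := isConjRoot_iff_exists_algEquiv.1 hmin
  obtain ⟨k, hk⟩ := (FiniteField.bijective_frobeniusAlgEquivOfAlgebraic_pow κ K').2 σ
  refine ⟨k, hinj ?_⟩
  rw [map_pow, ← hz, ← hz', ← hσ, ← hk]
  dsimp only
  rw [AlgEquiv.coe_pow, FiniteField.coe_frobeniusAlgEquivOfAlgebraic_iterate,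
    Nat.card_eq_fintype_card]
  rfl

/-- **GB2.** The action of a Frobenius element at a place of the first type on the embeddings: one
fixed point and one orbit.
PROOF. `R = Zbar F ⧸ Q` is a domain (`hQ.1`), the residue field `κ = 𝓞 F ⧸ v.asIdeal` maps to it
(`Ideal.quotientMap` / `Ideal.Quotient.lift` of `zF F`; `hQ.2`); `κ` is a finite field with `Nm v`
elements (`Ideal.Quotient.field`, `CG2.GalFinAux.absNorm_eq_card`, `finite_quot`).
`x j = mk (zL j θ') ∈ R`. Mapping `hprod` to `R` and using `hred`: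
`∏ j, (X - C (x j)) = (X - C ā) * ḡ` where `ā`, `ḡ` are the images of `a`, `g`.
(1) `x` is injective: the polynomial `(X - a) g` over `κ` is separable (`g` is
irreducible over a perfect field, so separable; it is prime to `X - a` as `g(a) ≠ 0`:
`Polynomial.Separable.mul`), so its image in `R[X]`, and in the fraction field of `R`, is
separable, in particular squarefree / without multiple roots (`Polynomial.nodup_roots`, or
`Polynomial.Separable.inj_of_prod_X_sub_C`: `∏ (X - C (f i))` separable implies `f` injective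
— for a field or a commutative nontrivial ring `separable_prod_X_sub_C_iff'`).
(2) `σ` acts: `σ ∘ j` is again an embedding `j'` (`(σ : Fbar F →ₐ[F] Fbar F).comp j`) and
`zL j' θ' - (zL j θ') ^ Nm v ∈ Q` (`IsFrob`), i.e. `x (σ j) = x j ^ Nm v`.
(3) As `ā` is a root of the left side there is `j₀` with `x j₀ = ā`. `x (σ j₀) = ā ^ q = ā`
(`FiniteField.pow_card` in `κ`) `= x j₀`, so `σ j₀ = j₀` by (1).
(4) For `j ≠ j₀`: `x j ≠ ā`, so `x j` is a root of `ḡ`. For `j, j' ≠ j₀` GB1 gives `k` with
`x j ^ (q ^ k) = x j'`; by induction `x (σ ^ k j) = x j ^ (q ^ k)`, so `σ ^ k j = j'`. -/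
theorem frob_at {v : Pl F} {Q : Ideal (Zbar F)} (hQ : Over v Q) {σ : GalF F} (hσ : IsFrob v Q σ)
    {L : Type} [Field L] [NumberField L] [Algebra F L] {θ' : 𝓞 L} {h : (𝓞 F)[X]}
    (hprod : h.map (zF F) = ∏ j : L →ₐ[F] Fbar F, (X - C (zL j θ'))) {n : ℕ} {a : 𝓞 F}
    {g : (𝓞 F)[X]} (hg : T2p v n a g)
    (hred : ∀ i, h.coeff i - ((X - C a) * g).coeff i ∈ v.asIdeal) :
    ∃ j₀ : L →ₐ[F] Fbar F, (∀ x, σ (j₀ x) = j₀ x) ∧
      ∀ j j' : L →ₐ[F] Fbar F, j ≠ j₀ → j' ≠ j₀ → ∃ k : ℕ, ∀ x, (σ ^ k) (j x) = j' x := by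
  classical
  have hQp := hQ.1
  have hmax := v.isMaximal
  let := Ideal.Quotient.field v.asIdeal
  have hfin : Finite (𝓞 F ⧸ v.asIdeal) := Pool.Agent.CG2.GalFinAux.finite_quot v
  obtain ⟨ρ, hρ⟩ : ∃ ρ : (𝓞 F ⧸ v.asIdeal) →+* (Zbar F ⧸ Q),
      ∀ a : 𝓞 F, ρ (Ideal.Quotient.mk v.asIdeal a) = Ideal.Quotient.mk Q (zF F a) := by
    refine ⟨Ideal.Quotient.lift v.asIdeal ((Ideal.Quotient.mk Q).comp (zF F)) ?_, fun a => rfl⟩
    intro a ha
    exact Ideal.Quotient.eq_zero_iff_mem.2 (hQ.2 a ha _ rfl)
  obtain ⟨x, hx⟩ : ∃ x : (L →ₐ[F] Fbar F) → Zbar F ⧸ Q,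
      x = fun j => Ideal.Quotient.mk Q (zL j θ') := ⟨_, rfl⟩
  have hP : (((X - C a) * g).map (Ideal.Quotient.mk v.asIdeal)).map ρ =
      ∏ j : L →ₐ[F] Fbar F, (X - C (x j)) := by
    have h1 : h.map (Ideal.Quotient.mk v.asIdeal) =
        ((X - C a) * g).map (Ideal.Quotient.mk v.asIdeal) := by
      ext i
      rw [coeff_map, coeff_map, Ideal.Quotient.eq]
      exact hred i
    have h2 : ρ.comp (Ideal.Quotient.mk v.asIdeal) = (Ideal.Quotient.mk Q).comp (zF F) := by
      ext a
      exact hρ a
    rw [← h1, Polynomial.map_map, h2, ← Polynomial.map_map, hprod, Polynomial.map_prod, hx]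
    refine Finset.prod_congr rfl fun j _ => ?_
    rw [Polynomial.map_sub, map_X, map_C]
  have hP' : ((X - C a) * g).map (Ideal.Quotient.mk v.asIdeal) =
      (X - C (Ideal.Quotient.mk v.asIdeal a)) * g.map (Ideal.Quotient.mk v.asIdeal) := by
    rw [Polynomial.map_mul, Polynomial.map_sub, map_X, map_C]
  have hne : (g.map (Ideal.Quotient.mk v.asIdeal)).eval (Ideal.Quotient.mk v.asIdeal a) ≠ 0 := by
    rw [eval_map, eval₂_at_apply]
    exact fun h => hg.ne (Ideal.Quotient.eq_zero_iff_mem.1 h)
  have hsep : (((X - C a) * g).map (Ideal.Quotient.mk v.asIdeal)).Separable := by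
    rw [hP']
    refine Separable.mul (separable_X_sub_C) (PerfectField.separable_of_irreducible hg.irr) ?_
    rw [(irreducible_X_sub_C _).coprime_iff_not_dvd, dvd_iff_isRoot]
    exact hne
  have hinj : Function.Injective x := by
    have h1 := hsep.map (f := ρ)
    rw [hP] at h1
    exact h1.injective_of_prod_X_sub_C
  have hNm : Nm v = Nat.card (𝓞 F ⧸ v.asIdeal) := Pool.Agent.CG2.GalFinAux.absNorm_eq_card v
  -- the action
  have hact : ∀ (k : ℕ) (j : L →ₐ[F] Fbar F),
      x (((σ ^ k : GalF F) : Fbar F →ₐ[F] Fbar F).comp j) = x j ^ Nat.card (𝓞 F ⧸ v.asIdeal) ^ k := by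
    intro k
    induction k with
    | zero =>
      intro j
      rw [pow_zero, pow_zero, pow_one]
      rfl
    | succ k ih =>
      intro j
      have h1 := hσ (zL (((σ ^ k : GalF F) : Fbar F →ₐ[F] Fbar F).comp j) θ')
        (zL (((σ ^ (k + 1) : GalF F) : Fbar F →ₐ[F] Fbar F).comp j) θ') (by
          rw [coe_zL, coe_zL, pow_succ']
          rfl)
      rw [← Ideal.Quotient.eq, map_pow] at h1
      rw [hx] at ih ⊢
      dsimp only at ih ⊢
      rw [h1, ih, hNm, ← pow_mul, pow_succ]
  have hext : ∀ (k : ℕ) (j j' : L →ₐ[F] Fbar F),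
      x j ^ Nat.card (𝓞 F ⧸ v.asIdeal) ^ k = x j' → ∀ y, (σ ^ k) (j y) = j' y := by
    intro k j j' h1 y
    rw [← hact] at h1
    have h2 := hinj h1
    rw [← h2]
    rfl
  have hroot : ∃ j₀ : L →ₐ[F] Fbar F, x j₀ = ρ (Ideal.Quotient.mk v.asIdeal a) := by
    have h1 := congrArg (fun q => eval (ρ (Ideal.Quotient.mk v.asIdeal a)) q) hP
    rw [eval_prod, hP', Polynomial.map_mul, eval_mul, Polynomial.map_sub, map_X, map_C, eval_sub,
      eval_X, eval_C, sub_self, zero_mul] at h1
    obtain ⟨j, _, hj⟩ := Finset.prod_eq_zero_iff.1 h1.symm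
    refine ⟨j, ?_⟩
    rw [eval_sub, eval_X, eval_C, sub_eq_zero] at hj
    exact hj.symm
  obtain ⟨j₀, hj₀⟩ := hroot
  refine ⟨j₀, ?_, ?_⟩
  · have h1 := hext 1 j₀ j₀ (by
      rw [pow_one, hj₀, ← map_pow]
      let := Fintype.ofFinite (𝓞 F ⧸ v.asIdeal)
      rw [Nat.card_eq_fintype_card, FiniteField.pow_card])
    intro y
    have h2 := h1 y
    rw [pow_one] at h2
    exact h2
  · intro j j' hj hj'
    let : Algebra (𝓞 F ⧸ v.asIdeal) (Zbar F ⧸ Q) := ρ.toAlgebra
    have hr : ∀ i : L →ₐ[F] Fbar F, i ≠ j₀ →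
        aeval (x i) (g.map (Ideal.Quotient.mk v.asIdeal)) = 0 := by
      intro i hi
      have h1 := congrArg (fun q => eval (x i) q) hP
      rw [eval_prod, Finset.prod_eq_zero (Finset.mem_univ i) (by
        rw [eval_sub, eval_X, eval_C, sub_self]), hP', Polynomial.map_mul, eval_mul,
        Polynomial.map_sub, map_X, map_C, eval_sub, eval_X, eval_C] at h1
      rcases mul_eq_zero.1 h1 with h2 | h2
      · exact absurd (hinj ((sub_eq_zero.1 h2).trans hj₀.symm)) hi
      · rw [eval_map] at h2
        exact h2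
    obtain ⟨k, hk⟩ := frob_trans hg.irr (hr j hj) (hr j' hj')
    exact ⟨k, hext k j j' hk⟩

end Pool.Agent.CGN
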