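import Pool.Agent.CGN.EDf
import Pool.Agent.CG2.GalInf

/-!
# Part E, Galois side: the transposition in the inertia group at `v₃`
-/

noncomputable section

set_option linter.unusedSectionVars false

namespace Pool.Agent.CGN

open NumberField IsDedekindDomain Matrix Polynomial
open Pool.Agent.CG2 (Pl Fv Ov GalF Fbar Zbar Over IsInertia IsFrob Nm IsRay InRay expo TotPos Lies)
open Pool.Agent.CG2.GalFinAux (below)
open Pool.Agent.CGQ

variable {F : Type} [Field F] [NumberField F]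

/-- **GC1.** The reductions of the conjugates: one double value, the others are simple.
PROOF. `R = Zbar F ⧸ Q` is a domain (`hQ.1`); `x j = mk (zL j θ')`. Mapping `hprod` to `R` and using `hred`
(`v.asIdeal ^ 2 ≤ v.asIdeal` maps to `0` in `R` by `hQ.2`) and `hp.red` (mapped by
`𝓞 F ⧸ v.asIdeal → R`, injective as the source is a field): `∏ j, (X - C (x j)) = (X - C ā) ^ 2 * ∏ i, (X - C b̄_i)` in
`R[X]`. Take the multisets of roots (`Polynomial.roots_prod_X_sub_C`, `roots_mul`, `R` is a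
domain): the multiset of the `x j` is `{ā, ā}` plus the multiset of the `b̄_i`, which are
different and different from `ā` (`hp.inj`, `hp.ne`). So the number of `j` with `x j = ā`
is `2` (`Multiset.count` of `ā`, `Finset.card_eq_two`) and for every other value `c` the number of `j` with
`x j = c` is at most `1`. -/
theorem two_roots {v : Pl F} {Q : Ideal (Zbar F)} (hQ : Over v Q)
    {L : Type} [Field L] [NumberField L] [Algebra F L] {θ' : 𝓞 L} {h : (𝓞 F)[X]}
    (hprod : h.map (zF F) = ∏ j : L →ₐ[F] Fbar F, (X - C (zL j θ'))) {n : ℕ} {p : (𝓞 F)[X]}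
    {a : 𝓞 F} {b : Fin (n - 2) → 𝓞 F} (hp : T3p v n p a b)
    (hred : ∀ i, h.coeff i - p.coeff i ∈ v.asIdeal ^ 2) :
    ∃ j₁ j₂ : L →ₐ[F] Fbar F, j₁ ≠ j₂ ∧ zF F a - zL j₁ θ' ∈ Q ∧ zF F a - zL j₂ θ' ∈ Q ∧
      (∀ j : L →ₐ[F] Fbar F, zF F a - zL j θ' ∈ Q → j = j₁ ∨ j = j₂) ∧
      ∀ j j' : L →ₐ[F] Fbar F, zL j θ' - zL j' θ' ∈ Q → zF F a - zL j θ' ∉ Q → j = j' := by
  classical
  have hQp := hQ.1
  have hmax := v.isMaximal
  let := Ideal.Quotient.field v.asIdeal
  obtain ⟨ρ, hρ⟩ : ∃ ρ : (𝓞 F ⧸ v.asIdeal) →+* (Zbar F ⧸ Q),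
      ∀ a : 𝓞 F, ρ (Ideal.Quotient.mk v.asIdeal a) = Ideal.Quotient.mk Q (zF F a) := by
    refine ⟨Ideal.Quotient.lift v.asIdeal ((Ideal.Quotient.mk Q).comp (zF F)) ?_, fun a => rfl⟩
    intro a ha
    exact Ideal.Quotient.eq_zero_iff_mem.2 (hQ.2 a ha _ rfl)
  obtain ⟨x, hx⟩ : ∃ x : (L →ₐ[F] Fbar F) → Zbar F ⧸ Q,
      x = fun j => Ideal.Quotient.mk Q (zL j θ') := ⟨_, rfl⟩
  obtain ⟨c, hcdef⟩ : ∃ c : Zbar F ⧸ Q, c = ρ (Ideal.Quotient.mk v.asIdeal a) := ⟨_, rfl⟩
  obtain ⟨y, hy⟩ : ∃ y : Fin (n - 2) → Zbar F ⧸ Q,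
      y = fun i => ρ (Ideal.Quotient.mk v.asIdeal (b i)) := ⟨_, rfl⟩
  have hP : ∏ j : L →ₐ[F] Fbar F, (X - C (x j)) = (X - C c) ^ 2 * ∏ i, (X - C (y i)) := by
    have h1 : h.map (Ideal.Quotient.mk v.asIdeal) = p.map (Ideal.Quotient.mk v.asIdeal) := by
      ext i
      rw [coeff_map, coeff_map, Ideal.Quotient.eq]
      exact Ideal.pow_le_self two_ne_zero (hred i)
    have h2 : ρ.comp (Ideal.Quotient.mk v.asIdeal) = (Ideal.Quotient.mk Q).comp (zF F) := by
      ext a
      exact hρ a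
    have h3 : (h.map (zF F)).map (Ideal.Quotient.mk Q) = ∏ j : L →ₐ[F] Fbar F, (X - C (x j)) := by
      rw [hprod, Polynomial.map_prod, hx]
      refine Finset.prod_congr rfl fun j _ => ?_
      rw [Polynomial.map_sub, map_X, map_C]
    rw [← h3, Polynomial.map_map, ← h2, ← Polynomial.map_map, h1, hp.red, Polynomial.map_mul,
      Polynomial.map_pow, Polynomial.map_sub, map_X, map_C, ← hcdef, Polynomial.map_prod, hy]
    congr 1
    refine Finset.prod_congr rfl fun j _ => ?_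
    rw [Polynomial.map_sub, map_X, map_C]
  have hyinj : Function.Injective y := by
    intro i i' hii
    rw [hy] at hii
    exact hp.inj (ρ.injective hii)
  have hyne : ∀ i, y i ≠ c := by
    intro i hi
    rw [hy, hcdef] at hi
    exact hp.ne i (ρ.injective hi)
  have hM : Multiset.map x Finset.univ.val = c ::ₘ c ::ₘ Multiset.map y Finset.univ.val := by
    have h1 : ((Multiset.map x Finset.univ.val).map fun t => X - C t).prod =
        ((c ::ₘ c ::ₘ Multiset.map y Finset.univ.val).map fun t => X - C t).prod := by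
      rw [Multiset.map_cons, Multiset.map_cons, Multiset.prod_cons, Multiset.prod_cons,
        ← mul_assoc, ← pow_two, Multiset.map_map, Multiset.map_map]
      exact hP
    have h2 := congrArg roots h1
    rwa [roots_multiset_prod_X_sub_C, roots_multiset_prod_X_sub_C] at h2
  have hcount : ∀ t : Zbar F ⧸ Q, (Finset.univ.filter fun j => t = x j).card =
      Multiset.count t (c ::ₘ c ::ₘ Multiset.map y Finset.univ.val) := by
    intro t
    rw [← hM, Multiset.count_map]
    rfl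
  have hnot : c ∉ Multiset.map y Finset.univ.val := by
    intro h1
    obtain ⟨i, _, hi⟩ := Multiset.mem_map.1 h1
    exact hyne i hi
  have h2 : (Finset.univ.filter fun j => c = x j).card = 2 := by
    rw [hcount, Multiset.count_cons_self, Multiset.count_cons_self,
      Multiset.count_eq_zero_of_notMem hnot]
  have h1 : ∀ t, t ≠ c → (Finset.univ.filter fun j => t = x j).card ≤ 1 := by
    intro t ht
    rw [hcount, Multiset.count_cons_of_ne ht, Multiset.count_cons_of_ne ht]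
    exact Multiset.nodup_iff_count_le_one.1 (Finset.univ.nodup.map hyinj) t
  obtain ⟨j₁, j₂, hne, hj⟩ := Finset.card_eq_two.1 h2
  have hmem : ∀ j : L →ₐ[F] Fbar F, zF F a - zL j θ' ∈ Q ↔ c = x j := by
    intro j
    rw [← Ideal.Quotient.eq, ← hρ, ← hcdef, hx]
  have hset : ∀ j : L →ₐ[F] Fbar F, c = x j ↔ j = j₁ ∨ j = j₂ := by
    intro j
    have h3 : j ∈ (Finset.univ.filter fun j => c = x j) ↔ j ∈ ({j₁, j₂} : Finset _) := by rw [hj]
    rw [Finset.mem_filter, Finset.mem_insert, Finset.mem_singleton] at h3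
    rw [← h3]
    simp
  refine ⟨j₁, j₂, hne, (hmem _).2 ((hset _).2 (Or.inl rfl)), (hmem _).2 ((hset _).2 (Or.inr rfl)),
    fun j hjQ => (hset j).1 ((hmem j).1 hjQ), ?_⟩
  intro j j' hjj hjQ
  rw [hmem] at hjQ
  have h3 := h1 (x j) (fun h => hjQ h.symm)
  rw [Finset.card_le_one] at h3
  refine h3 j (by simp) j' ?_
  rw [Finset.mem_filter]
  refine ⟨Finset.mem_univ _, ?_⟩
  rw [hx]
  exact (Ideal.Quotient.eq).2 hjj

/-- **GC2.** A place with trivial inertia group is not ramified.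
PROOF. `R = 𝓞 F`, `S = 𝓞 E`, `G = Gal(E/F)` acts on `𝓞 E` with invariants `𝓞 F` (instances
`IsGaloisGroup`). The inertia group `P.asIdeal.inertia G` is trivial by `hin`, so
`Ideal.card_inertia_eq_ramificationIdxIn` (the residue fields are finite, so perfect) gives
`ramificationIdxIn = 1`, so the ramification index `e` of `P` over `v` is `1`
(`Ideal.ramificationIdxIn_eq_ramificationIdx`). So `v.asIdeal.map ≤ P.asIdeal` but not
`≤ P.asIdeal ^ 2`. Suppose `x ∈ 𝓞 F`, `x ∉ v ^ 2` and `x ∈ P ^ 2` (then `x ∈ v`, as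
`P` lies over `v`, and `x ≠ 0`). Then `span {x} = v.asIdeal * I` with `I` not
contained in `v.asIdeal` (otherwise `x ∈ v ^ 2`), so there is `y ∈ I`, `y ∉ v`, and
`y v ⊆ span {x}`: for every `z ∈ v.asIdeal`: `y z ∈ P ^ 2`, `y ∉ P`, so `z ∈ P ^ 2`
(`P ^ 2` is primary: `Ideal.IsPrime.mul_mem_pow`), so `v.asIdeal.map ≤ P ^ 2`, contradiction to `e = 1`. -/
theorem unram_of_inertia {E : Type} [Field E] [NumberField E] [Algebra F E] [IsGalois F E]
    {P : Pl E} {v : Pl F} (hP : Lies P v)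
    (hin : ∀ τ : Gal(E/F), (∀ x : 𝓞 E, τ • x - x ∈ P.asIdeal) → τ = 1) {x : 𝓞 F}
    (hx : algebraMap (𝓞 F) (𝓞 E) x ∈ P.asIdeal ^ 2) : x ∈ v.asIdeal ^ 2 := by
  have hG : IsGaloisGroup Gal(E/F) (𝓞 F) (𝓞 E) :=
    IsGaloisGroup.of_isFractionRing Gal(E/F) (𝓞 F) (𝓞 E) F E
  have := v.isPrime
  have := P.isPrime
  have hl : P.asIdeal.LiesOver v.asIdeal := Pool.Agent.CG2.GalFinAux.liesOver_of_lies hP
  have h1 := Ideal.card_inertia_eq_ramificationIdxIn (G := Gal(E/F)) v.asIdeal P.asIdeal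
  have h2 : P.asIdeal.inertia Gal(E/F) = ⊥ := by
    rw [eq_bot_iff]
    intro τ hτ
    exact hin τ hτ
  rw [h2, Subgroup.card_bot, Ideal.ramificationIdxIn_eq_ramificationIdx v.asIdeal P.asIdeal
    Gal(E/F), ← Ideal.ramificationIdx'_eq_ramificationIdx v.asIdeal P.asIdeal v.ne_bot] at h1
  have h3 := HeightOneSpectrum.intValuation_liesOver v P x
  rw [← h1, pow_one] at h3
  rw [← HeightOneSpectrum.intValuation_le_pow_iff_mem] at hx ⊢
  rw [h3]
  exact hx

/-- **GC3.** The transposition in the inertia group.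
PROOF. Choose `Q` over `v` (`CG2.GalInfAux.exists_over F F v.asIdeal`, or
`CG2.exists_frob`). GC1: `j₁`, `j₂`. For `g` in the inertia group at `Q` and an embedding `j` put
`g j = g.toAlgHom.comp j`: `zL (g j) θ' - zL j θ' ∈ Q`. So (last part of GC1) `g j = j` for
`j ≠ j₁, j₂` and `g j₁, g j₂ ∈ {j₁, j₂}`. If there is an inertia element `g` with `g j₁ = j₂`
then `g j₂ = j₁` (injectivity of `j ↦ g j`) and we are done. Suppose that every inertia
element fixes `j₁`; then it fixes also `j₂` and all `j`. Let `E : IntermediateField F (Fbar F)` be the normal closure: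
`E = ⨆ j, j.fieldRange` (finite, Galois: `normalClosure F L (Fbar F)`, instance
`normalClosure.normal`, finite dimensional, `NumberField E`). `P = Q ∩ 𝓞 E`: a place of `E`
over `v` (`P` is nonzero as it contains `v`; `CG2.GalInfAux` has `inc`, `over_of_comap` and
similar lemmas). If `τ` is in the inertia group of `P` in `Gal(E/F)` then
`CG2.GalInfAux.lift_inertia` gives an inertia element `σ` at `Q` with restriction `τ`;
`σ` fixes all `j(L)`, so `E`, so `τ = 1`. By GC2: `x ∈ 𝓞 F`, `x ∈ P ^ 2` implies `x ∈ v ^ 2`.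
Take `x = h.eval a`: evaluating `hprod` at `zF a`: `zF (h.eval a) = ∏ j, (zF a - zL j θ')`, all factors are in the image of `𝓞 E`
(`j θ' ∈ E`), two of them (`j₁`, `j₂`) are in `P`, so `h.eval a ∈ P ^ 2` (the map `𝓞 E → Zbar F` is injective and `P` is
the preimage of `Q`). So `h.eval a ∈ v ^ 2` and with `hred` (`h.eval a - p.eval a ∈ v ^ 2`:
`Polynomial.eval_eq_sum_range`) `p.eval a ∈ v ^ 2`: contradiction to `hp.nmem`. -/
theorem inertia_at {v : Pl F} {L : Type} [Field L] [NumberField L] [Algebra F L] {θ' : 𝓞 L}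
    {h : (𝓞 F)[X]} (hprod : h.map (zF F) = ∏ j : L →ₐ[F] Fbar F, (X - C (zL j θ'))) {n : ℕ}
    {p : (𝓞 F)[X]} {a : 𝓞 F} {b : Fin (n - 2) → 𝓞 F} (hp : T3p v n p a b)
    (hred : ∀ i, h.coeff i - p.coeff i ∈ v.asIdeal ^ 2) :
    ∃ (Q : Ideal (Zbar F)) (g : GalF F) (j₁ j₂ : L →ₐ[F] Fbar F), Over v Q ∧ IsInertia Q g ∧
      j₁ ≠ j₂ ∧ (∀ x, g (j₁ x) = j₂ x) ∧ (∀ x, g (j₂ x) = j₁ x) ∧
      ∀ j : L →ₐ[F] Fbar F, j ≠ j₁ → j ≠ j₂ → ∀ x, g (j x) = j x := by
  classical
  obtain ⟨Q, hQ, -⟩ := Pool.Agent.CG2.exists_frob v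
  obtain ⟨j₁, j₂, hne, ha1, ha2, honly, hinj⟩ := two_roots hQ hprod hp hred
  have hact : ∀ g : GalF F, IsInertia Q g → ∀ j : L →ₐ[F] Fbar F,
      zL ((g : Fbar F →ₐ[F] Fbar F).comp j) θ' - zL j θ' ∈ Q := by
    intro g hg j
    exact hg (zL j θ') _ rfl
  have hoth : ∀ g : GalF F, IsInertia Q g → ∀ j : L →ₐ[F] Fbar F, j ≠ j₁ → j ≠ j₂ →
      (g : Fbar F →ₐ[F] Fbar F).comp j = j := by
    intro g hg j h1 h2
    have h3 : zF F a - zL j θ' ∉ Q := fun h => (honly j h).elim h1 h2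
    have h4 := hact g hg j
    rw [← neg_mem_iff, neg_sub] at h4
    exact (hinj j _ h4 h3).symm
  have htwo : ∀ g : GalF F, IsInertia Q g → ∀ j : L →ₐ[F] Fbar F, zF F a - zL j θ' ∈ Q →
      (g : Fbar F →ₐ[F] Fbar F).comp j = j₁ ∨ (g : Fbar F →ₐ[F] Fbar F).comp j = j₂ := by
    intro g hg j h1
    apply honly
    have h2 := Q.sub_mem h1 (hact g hg j)
    rwa [sub_sub_sub_cancel_right] at h2
  have hcompinj : ∀ (g : GalF F) (j j' : L →ₐ[F] Fbar F),
      (g : Fbar F →ₐ[F] Fbar F).comp j = (g : Fbar F →ₐ[F] Fbar F).comp j' → j = j' := by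
    intro g j j' h1
    ext x
    exact g.injective (DFunLike.congr_fun h1 x)
  have happ : ∀ (g : GalF F) (j j' : L →ₐ[F] Fbar F),
      (g : Fbar F →ₐ[F] Fbar F).comp j = j' → ∀ x, g (j x) = j' x := by
    intro g j j' h1 x
    exact DFunLike.congr_fun h1 x
  by_cases hex : ∃ g : GalF F, IsInertia Q g ∧ (g : Fbar F →ₐ[F] Fbar F).comp j₁ = j₂
  · obtain ⟨g, hg, h1⟩ := hex
    have h2 : (g : Fbar F →ₐ[F] Fbar F).comp j₂ = j₁ := by
      rcases htwo g hg j₂ ha2 with h3 | h3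
      · exact h3
      · exact absurd (hcompinj g _ _ (h1.trans h3.symm)) hne
    exact ⟨Q, g, j₁, j₂, hQ, hg, hne, happ g _ _ h1, happ g _ _ h2,
      fun j hj1 hj2 => happ g _ _ (hoth g hg j hj1 hj2)⟩
  · exfalso
    have hall : ∀ g : GalF F, IsInertia Q g → ∀ j : L →ₐ[F] Fbar F,
        (g : Fbar F →ₐ[F] Fbar F).comp j = j := by
      intro g hg
      have e1 : (g : Fbar F →ₐ[F] Fbar F).comp j₁ = j₁ := by
        rcases htwo g hg j₁ ha1 with h3 | h3
        · exact h3
        · exact absurd ⟨g, hg, h3⟩ hex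
      have e2 : (g : Fbar F →ₐ[F] Fbar F).comp j₂ = j₂ := by
        rcases htwo g hg j₂ ha2 with h3 | h3
        · exact absurd (hcompinj g _ _ (e1.trans h3.symm)) hne
        · exact h3
      intro j
      by_cases h1 : j = j₁
      · rw [h1, e1]
      · by_cases h2 : j = j₂
        · rw [h2, e2]
        · exact hoth g hg j h1 h2
    obtain ⟨E, hE⟩ : ∃ E : IntermediateField F (Fbar F), E = IntermediateField.normalClosure F L (Fbar F) :=
      ⟨_, rfl⟩
    have hnorm : Normal F E := by rw [hE]; infer_instance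
    have hfd : FiniteDimensional F E := by rw [hE]; infer_instance
    have hNF : NumberField E :=
      { to_charZero := inferInstance
        to_finiteDimensional := FiniteDimensional.trans ℚ F E }
    have hGal : IsGalois F E := { }
    have hQp := hQ.1
    have hjE : ∀ (j : L →ₐ[F] Fbar F) (x : L), j x ∈ E := by
      intro j x
      rw [hE]
      exact (j.fieldRange_le_normalClosure) ⟨x, rfl⟩
    have hzinc : ∀ x : 𝓞 F, Pool.Agent.CG2.GalInfAux.inc F E (algebraMap (𝓞 F) (𝓞 E) x) = zF F x := by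
      intro x
      rw [Pool.Agent.CG2.GalInfAux.inc_inc]
      rfl
    let P : Pl E :=
      { asIdeal := Q.comap (Pool.Agent.CG2.GalInfAux.inc F E)
        isPrime := inferInstance
        ne_bot := by
          intro h0
          obtain ⟨x, hx, hx0⟩ := Submodule.exists_mem_ne_zero_of_ne_bot v.ne_bot
          have h1 : algebraMap (𝓞 F) (𝓞 E) x ∈ Q.comap (Pool.Agent.CG2.GalInfAux.inc F E) := by
            rw [Ideal.mem_comap, hzinc]
            exact hQ.2 x hx _ rfl
          rw [h0, Ideal.mem_bot] at h1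
          exact hx0 ((FaithfulSMul.algebraMap_injective (𝓞 F) (𝓞 E)) (by rw [h1, map_zero])) }
    have hPv : Lies P v := (Pool.Agent.CG2.GalInfAux.lies_iff E P v Q hQp rfl).2 hQ
    have hin : ∀ τ : Gal(E/F), (∀ x : 𝓞 E, τ • x - x ∈ P.asIdeal) → τ = 1 := by
      intro τ hτ
      obtain ⟨σ, h1, h2⟩ := Pool.Agent.CG2.GalInfAux.lift_inertia E P Q rfl τ hτ
      rw [← h2, Pool.Agent.CG2.GalInfAux.ker_restrict]
      have h3 := hall σ ((Pool.Agent.CG2.GalInfAux.isInertia_iff Q σ).2 h1)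
      have h4 : E ≤ IntermediateField.fixedField (Subgroup.zpowers σ) := by
        rw [hE]
        refine iSup_le fun j => ?_
        rintro _ ⟨x, rfl⟩
        rw [IntermediateField.mem_fixedField_iff]
        have h5 : Subgroup.zpowers σ ≤ MulAction.stabilizer (GalF F) (j x) := by
          rw [Subgroup.zpowers_le]
          exact happ σ _ _ (h3 j) x
        intro g hg
        exact h5 hg
      exact (IntermediateField.le_iff_le _ _).1 h4 (Subgroup.mem_zpowers σ)
    have hee : ∀ j : L →ₐ[F] Fbar F, ∃ e : 𝓞 E,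
        Pool.Agent.CG2.GalInfAux.inc F E e = zL j θ' := by
      intro j
      have h1 : IsIntegral ℤ (j (θ' : L)) := (zL j θ').2
      have h2 : algebraMap E (Fbar F) ⟨j (θ' : L), hjE j _⟩ = j (θ' : L) := rfl
      rw [← h2, isIntegral_algebraMap_iff (algebraMap E (Fbar F)).injective] at h1
      exact ⟨⟨_, h1⟩, rfl⟩
    choose e he using hee
    have hprodE : algebraMap (𝓞 F) (𝓞 E) (h.eval a) =
        ∏ j : L →ₐ[F] Fbar F, (algebraMap (𝓞 F) (𝓞 E) a - e j) := by
      apply Pool.Agent.CG2.GalInfAux.inc_injective F E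
      rw [hzinc, map_prod]
      have h1 := congrArg (fun q => eval (zF F a) q) hprod
      rw [eval_map, eval₂_at_apply, eval_prod] at h1
      rw [h1]
      refine Finset.prod_congr rfl fun j _ => ?_
      rw [map_sub, hzinc, he, eval_sub, eval_X, eval_C]
    have hfac : ∀ j : L →ₐ[F] Fbar F, zF F a - zL j θ' ∈ Q →
        algebraMap (𝓞 F) (𝓞 E) a - e j ∈ P.asIdeal := by
      intro j hj
      change Pool.Agent.CG2.GalInfAux.inc F E (algebraMap (𝓞 F) (𝓞 E) a - e j) ∈ Q
      rw [map_sub, hzinc, he]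
      exact hj
    have hP2 : algebraMap (𝓞 F) (𝓞 E) (h.eval a) ∈ P.asIdeal ^ 2 := by
      rw [hprodE, ← Finset.mul_prod_erase _ _ (Finset.mem_univ j₁),
        ← Finset.mul_prod_erase _ _ (Finset.mem_erase.2 ⟨hne.symm, Finset.mem_univ j₂⟩),
        ← mul_assoc, pow_two]
      exact Ideal.mul_mem_right _ _ (Ideal.mul_mem_mul (hfac j₁ ha1) (hfac j₂ ha2))
    have hv2 : h.eval a ∈ v.asIdeal ^ 2 := unram_of_inertia hPv hin hP2
    have hdiff : (h - p).eval a ∈ v.asIdeal ^ 2 := by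
      rw [eval_eq_sum_range]
      refine Ideal.sum_mem _ fun i _ => Ideal.mul_mem_right _ _ ?_
      rw [coeff_sub]
      exact hred i
    rw [eval_sub] at hdiff
    have h5 := Ideal.sub_mem _ hv2 hdiff
    rw [sub_sub_cancel] at h5
    exact hp.nmem h5

end Pool.Agent.CGN
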