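import Pool.Agent.CGN.EGa
import Pool.Agent.CGN.EGb
import Pool.Agent.CGN.EGc

/-!
# Part E, Galois side: all permutations
-/

noncomputable section

set_option linter.unusedSectionVars false

namespace Pool.Agent.CGN

open NumberField IsDedekindDomain Matrix Polynomial
open Pool.Agent.CG2 (Pl Fv Ov GalF Fbar Zbar Over IsInertia IsFrob Nm IsRay InRay expo TotPos Lies)
open Pool.Agent.CG2.GalFinAux (below)
open Pool.Agent.CGQ

variable {F : Type} [Field F] [NumberField F]

/-- **GD1.** A transitive group of permutations which contains an element with one fixed point,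
transitive on the other points, and a transposition, is the full symmetric group.
PROOF. `X` is doubly transitive: for `a ≠ b` and `c ≠ d` there is `x ∈ X` with `x c = a`, `x d = b`: choose `x₁ ∈ X` with
`x₁ c = a₀` and `x₂ ∈ X` with `x₂ a = a₀`; `x₁ d ≠ a₀`, `x₂ b ≠ a₀`, so there is `k` with
`(s ^ k) (x₁ d) = x₂ b`, and `x = x₂⁻¹ s ^ k x₁`. Then `x (swap c d) x⁻¹ = swap a b ∈ X`
(`Equiv.swap_apply_apply`, `Equiv.Perm.mul_swap_eq..`). All swaps are in `X`, so `X = ⊤`
(`Equiv.Perm.closure_isSwap`). -/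
theorem perm_top {α : Type} [Fintype α] [DecidableEq α] (X : Subgroup (Equiv.Perm α))
    (htr : ∀ a b : α, ∃ x ∈ X, x a = b) {s : Equiv.Perm α} (hs : s ∈ X) {a₀ : α} (h₀ : s a₀ = a₀)
    (hs' : ∀ a b : α, a ≠ a₀ → b ≠ a₀ → ∃ k : ℕ, (s ^ k) a = b) {c d : α} (hcd : c ≠ d)
    (ht : Equiv.swap c d ∈ X) : X = ⊤ := by
  have hpow : ∀ k : ℕ, (s ^ k) a₀ = a₀ := by
    intro k
    induction k with
    | zero => rfl
    | succ k ih => rw [pow_succ, Equiv.Perm.mul_apply, h₀, ih]
  have key : ∀ a b : α, a ≠ b → Equiv.swap a b ∈ X := by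
    intro a b hab
    obtain ⟨x₁, hx₁, h1⟩ := htr c a₀
    obtain ⟨x₂, hx₂, h2⟩ := htr a a₀
    have h3 : x₁ d ≠ a₀ := fun h => hcd (x₁.injective (h1.trans h.symm))
    have h4 : x₂ b ≠ a₀ := fun h => hab (x₂.injective (h2.trans h.symm))
    obtain ⟨k, hk⟩ := hs' _ _ h3 h4
    have hx : x₂⁻¹ * s ^ k * x₁ ∈ X := X.mul_mem (X.mul_mem (X.inv_mem hx₂) (X.pow_mem hs k)) hx₁
    have e1 : (x₂⁻¹ * s ^ k * x₁) c = a := by
      rw [Equiv.Perm.mul_apply, Equiv.Perm.mul_apply, h1, hpow, ← h2]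
      exact x₂.symm_apply_apply a
    have e2 : (x₂⁻¹ * s ^ k * x₁) d = b := by
      rw [Equiv.Perm.mul_apply, Equiv.Perm.mul_apply, hk]
      exact x₂.symm_apply_apply b
    have h5 : Equiv.swap a b = (x₂⁻¹ * s ^ k * x₁) * Equiv.swap c d * (x₂⁻¹ * s ^ k * x₁)⁻¹ := by
      rw [← Equiv.swap_apply_apply, e1, e2]
    rw [h5]
    exact X.mul_mem (X.mul_mem hx ht) (X.inv_mem hx)
  rw [eq_top_iff, ← Equiv.Perm.closure_isSwap, Subgroup.closure_le]
  rintro σ ⟨a, b, hab, rfl⟩
  exact key a b hab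

/-- **GD2.** The Galois group permutes transitively the embeddings of `L`.
PROOF. `Fbar F` is an algebraic closure of `F`, so normal over `F`. `j' ∘ j⁻¹ : j(L) → Fbar F` extends to
an automorphism (`IntermediateField`: `AlgEquiv.ofInjectiveField`, `AlgHom.liftNormal`,
`AlgEquiv.liftNormal`; or `IsAlgClosure.equiv..`: `Fbar F` is an algebraic closure of `L` through `j` and
through `j'`). -/
theorem exists_galE {L : Type} [Field L] [NumberField L] [Algebra F L] (j j' : L →ₐ[F] Fbar F) :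
    ∃ g : GalF F, ∀ x, g (j x) = j' x := by
  let := j.toRingHom.toAlgebra
  have : IsScalarTower F L (Fbar F) :=
    IsScalarTower.of_algebraMap_eq fun x => (j.commutes x).symm
  have : Algebra.IsAlgebraic F (Fbar F) := AlgebraicClosure.isAlgebraic F
  have : Normal F (Fbar F) := IsAlgClosure.normal F (Fbar F)
  let f : Fbar F →ₐ[F] Fbar F := j'.liftNormal (Fbar F)
  have hf : ∀ x : L, f (j x) = j' x := fun x => j'.liftNormal_commutes (Fbar F) x
  have hb : Function.Bijective f := Algebra.IsAlgebraic.algHom_bijective f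
  exact ⟨AlgEquiv.ofBijective f hb, hf⟩

/-- **GD3.** The Galois group of a field with a generator of the two local types.
PROOF. Let `f = minpoly F θ`, monic, `aeval θ f = 0`, `f.natDegree = n = [L : F]`.
(1) `T2`: `a`, `g` with `T2p v₂ n a g` and `Cl v₂ 1 (f.map _) ((X - C a) * g)`; the polynomial
`(X - C a) * g` is monic of degree `n`. `exists_twist` with `m = 1`: `s`, `θ'`, `h`; `prod_embs` (injectivity: `emb_inj`);
`CG2.exists_frob v₂`: `Q`, `σ`; `frob_at` (`pow_one`): `j₀`.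
(2) `T3`: `exists_twist` with `m = 2`, `prod_embs`, `inertia_at`: this is the second claim.
(3) `X` = the set of the permutations `π` of the embeddings such that there is `g` with `ActsAs g π`: a subgroup
(range of the action homomorphism; `g j = g.toAlgHom.comp j`). GD1 with `htr` from GD2, `s` = the action of
`σ`, `swap j₁ j₂` = the action of the inertia element. -/
theorem gal_ty {L : Type} [Field L] [NumberField L] [Algebra F L] {n : ℕ}
    (hL : Module.finrank F L = n) {θ : L} (hθ : (minpoly F θ).natDegree = n) {v₂ v₃ : Pl F}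
    (h2 : T2 v₂ n ((minpoly F θ).map (algebraMap F (Fv v₂))))
    (h3 : T3 v₃ n ((minpoly F θ).map (algebraMap F (Fv v₃)))) :
    (∀ π : Equiv.Perm (L →ₐ[F] Fbar F), ∃ g : GalF F, ActsAs g π) ∧
      ∃ (Q : Ideal (Zbar F)) (g : GalF F) (j₁ j₂ : L →ₐ[F] Fbar F), Over v₃ Q ∧ IsInertia Q g ∧
        j₁ ≠ j₂ ∧ (∀ x, g (j₁ x) = j₂ x) ∧ (∀ x, g (j₂ x) = j₁ x) ∧
        ∀ j : L →ₐ[F] Fbar F, j ≠ j₁ → j ≠ j₂ → ∀ x, g (j x) = j x := by
  classical
  have hmo : (minpoly F θ).Monic := minpoly.monic (Algebra.IsIntegral.isIntegral θ)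
  have h0 : aeval θ (minpoly F θ) = 0 := minpoly.aeval F θ
  have hθ' : (minpoly F θ).natDegree = Module.finrank F L := hθ.trans hL.symm
  -- the place `v₂`
  obtain ⟨a, g, hg, hcl⟩ := h2
  have hpm : ((X - C a) * g).Monic := (monic_X_sub_C a).mul hg.mo
  have hpd : ((X - C a) * g).natDegree = (minpoly F θ).natDegree := by
    rw [(monic_X_sub_C a).natDegree_mul hg.mo, natDegree_X_sub_C, hθ, ← hg.dg]
    ring
  obtain ⟨s, θ', h, hs, hsθ, hhm, hhd, hh0, hhc⟩ := exists_twist v₂ le_rfl hmo hpm hpd hcl h0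
  have hinj : Function.Injective fun j : L →ₐ[F] Fbar F => j (θ' : L) := by
    rw [hsθ]
    exact emb_inj hθ' hs
  have hprod := prod_embs hhm (hhd.trans hθ') hh0 hinj
  obtain ⟨Q, hQ, σ, hσ⟩ := CG2.exists_frob v₂
  obtain ⟨j₀, hj₀, hj⟩ := frob_at hQ hσ hprod hg (fun i => by
    have := hhc i
    rwa [pow_one] at this)
  -- the place `v₃`
  obtain ⟨p, a', b, hp, hcl'⟩ := h3
  obtain ⟨s', θ'', h', hs', hsθ', hhm', hhd', hh0', hhc'⟩ :=
    exists_twist v₃ one_le_two hmo hp.mo (hp.dg.trans hθ.symm) hcl' h0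
  have hinj' : Function.Injective fun j : L →ₐ[F] Fbar F => j (θ'' : L) := by
    rw [hsθ']
    exact emb_inj hθ' hs'
  have hprod' := prod_embs hhm' (hhd'.trans hθ') hh0' hinj'
  obtain ⟨Q', τ, j₁, j₂, hQ', hτ, hne, h12, h21, hfix⟩ := inertia_at hprod' hp hhc'
  refine ⟨?_, ⟨Q', τ, j₁, j₂, hQ', hτ, hne, h12, h21, hfix⟩⟩
  -- the action on the embeddings
  let act : GalF F →* Equiv.Perm (L →ₐ[F] Fbar F) :=
    { toFun := fun g =>
        { toFun := fun j => g.toAlgHom.comp j
          invFun := fun j => (g⁻¹ : GalF F).toAlgHom.comp j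
          left_inv := fun j => AlgHom.ext fun x => g.symm_apply_apply (j x)
          right_inv := fun j => AlgHom.ext fun x => g.apply_symm_apply (j x) }
      map_one' := rfl
      map_mul' := fun _ _ => rfl }
  have hact : ∀ (g : GalF F) (j : L →ₐ[F] Fbar F) (x : L), act g j x = g (j x) := fun _ _ _ => rfl
  have htop : act.range = ⊤ := by
    refine perm_top act.range ?_ ⟨σ, rfl⟩ (a₀ := j₀) ?_ ?_ hne ⟨τ, ?_⟩
    · intro j j'
      obtain ⟨g, hg⟩ := exists_galE j j'
      exact ⟨act g, ⟨g, rfl⟩, AlgHom.ext fun x => hg x⟩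
    · exact AlgHom.ext fun x => hj₀ x
    · intro j j' h1 h2
      obtain ⟨k, hk⟩ := hj j j' h1 h2
      refine ⟨k, ?_⟩
      rw [← map_pow]
      exact AlgHom.ext fun x => hk x
    · apply Equiv.ext
      intro j
      by_cases e1 : j = j₁
      · rw [e1, Equiv.swap_apply_left]
        exact AlgHom.ext fun x => h12 x
      · by_cases e2 : j = j₂
        · rw [e2, Equiv.swap_apply_right]
          exact AlgHom.ext fun x => h21 x
        · rw [Equiv.swap_apply_of_ne_of_ne e1 e2]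
          exact AlgHom.ext fun x => hfix j e1 e2 x
  intro π
  have hπ : π ∈ act.range := by
    rw [htop]
    exact Subgroup.mem_top π
  obtain ⟨g, hg⟩ := hπ
  refine ⟨g, fun j x => ?_⟩
  rw [← hg]
  rfl

end Pool.Agent.CGN
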