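import Pool.Agent.CGN.EDf

/-!
# Part E: real matrices
-/

noncomputable section

set_option linter.unusedSectionVars false

namespace Pool.Agent.CGN

open NumberField IsDedekindDomain Matrix Polynomial
open Pool.Agent.CG2 (Pl Fv Ov GalF Fbar Zbar Over IsInertia IsFrob Nm IsRay InRay expo TotPos Lies)
open Pool.Agent.CG2.GalFinAux (below)
open Pool.Agent.CGQ

/-- The diagonal idempotent of rank `k`. -/
def fk (n k : ℕ) : Matrix (Fin n) (Fin n) ℝ := diagonal fun i => if (i : ℕ) < k then 1 else 0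

private lemma RA1_prod {k m : ℕ} (u v : ℝ) :
    ∏ j : Fin (k + m), (if (j : ℕ) < k then u else v) = u ^ k * v ^ m := by
  rw [Fin.prod_univ_eq_prod_range (fun i => if i < k then u else v), Finset.prod_range_add]
  congr 1
  · rw [Finset.prod_congr rfl (fun i hi => if_pos (Finset.mem_range.1 hi))]
    simp
  · rw [Finset.prod_congr rfl (fun i _ => if_neg (by omega))]
    simp

private lemma RA1_prod' {n k : ℕ} (hk : k ≤ n) (u v : ℝ) :
    ∏ j : Fin n, (if (j : ℕ) < k then u else v) = u ^ k * v ^ (n - k) := by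
  obtain ⟨m, rfl⟩ := Nat.exists_eq_add_of_le hk
  rw [RA1_prod]
  simp

private lemma RA1_det {n k : ℕ} (a : Matrix (Fin n) (Fin n) ℝ) (hk : k ≤ n) :
    (Matrix.of fun i j : Fin n => if (j : ℕ) < k then - a i j else (1 : Matrix (Fin n) (Fin n) ℝ) i j).det =
      (-1) ^ k * (1 + (a - 1) * fk n k).det := by
  have h : (Matrix.of fun i j : Fin n => if (j : ℕ) < k then - a i j else
      (1 : Matrix (Fin n) (Fin n) ℝ) i j) = (1 + (a - 1) * fk n k) *
      diagonal (fun j : Fin n => if (j : ℕ) < k then (-1 : ℝ) else 1) := by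
    ext i j
    rw [Matrix.mul_diagonal, Matrix.add_apply, fk, Matrix.mul_diagonal, Matrix.sub_apply,
      Matrix.of_apply]
    by_cases hj : (j : ℕ) < k
    · rw [if_pos hj, if_pos hj, if_pos hj]; ring
    · rw [if_neg hj, if_neg hj, if_neg hj]; ring
  rw [h, Matrix.det_mul, Matrix.det_diagonal, RA1_prod' hk]
  ring

private lemma RA1_tends {n : ℕ} (a : Matrix (Fin n) (Fin n) ℝ) {l : Fin n → ℝ} (hpos : ∀ i, 0 < l i)
    {k : ℕ} {t : ℝ} (ht : 0 < t) (h1 : ∀ i : Fin n, (i : ℕ) < k → t < l i)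
    (h2 : ∀ i : Fin n, k ≤ (i : ℕ) → l i < t) {ε : ℝ} (hε : ε = 1 ∨ ε = -1) :
    Filter.Tendsto (fun N : ℕ => (Matrix.of fun i j : Fin n => if (j : ℕ) < k then
        (ε * t ^ N / l j ^ N) * (1 : Matrix (Fin n) (Fin n) ℝ) i j - a i j else
        (1 : Matrix (Fin n) (Fin n) ℝ) i j - (l j ^ N / (ε * t ^ N)) * a i j)) Filter.atTop
      (nhds (Matrix.of fun i j : Fin n => if (j : ℕ) < k then - a i j else
        (1 : Matrix (Fin n) (Fin n) ℝ) i j)) := by
  refine tendsto_pi_nhds.2 fun i => tendsto_pi_nhds.2 fun j => ?_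
  by_cases hj : (j : ℕ) < k
  · simp only [Matrix.of_apply, if_pos hj]
    have h0 : Filter.Tendsto (fun N : ℕ => ε * t ^ N / l j ^ N) Filter.atTop (nhds 0) := by
      have h := tendsto_pow_atTop_nhds_zero_of_lt_one (r := t / l j)
        (by have := hpos j; positivity) ((div_lt_one (hpos j)).2 (h1 j hj))
      have h' := h.const_mul ε
      rw [mul_zero] at h'
      refine h'.congr fun N => ?_
      rw [div_pow, mul_div_assoc]
    have h3 := (h0.mul_const ((1 : Matrix (Fin n) (Fin n) ℝ) i j)).sub_const (a i j)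
    rw [zero_mul, zero_sub] at h3
    exact h3
  · simp only [Matrix.of_apply, if_neg hj]
    have hε0 : ε ≠ 0 := by rcases hε with h | h <;> rw [h] <;> norm_num
    have h0 : Filter.Tendsto (fun N : ℕ => l j ^ N / (ε * t ^ N)) Filter.atTop (nhds 0) := by
      have h := tendsto_pow_atTop_nhds_zero_of_lt_one (r := l j / t)
        (by have := hpos j; positivity) ((div_lt_one ht).2 (h2 j (not_lt.1 hj)))
      have h' := h.const_mul ε⁻¹
      rw [mul_zero] at h'
      refine h'.congr fun N => ?_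
      have : t ^ N ≠ 0 := by positivity
      rw [div_pow]
      field_simp
    have h3 := (h0.mul_const (a i j)).const_sub ((1 : Matrix (Fin n) (Fin n) ℝ) i j)
    rw [zero_mul, sub_zero] at h3
    exact h3

/-- **RA1.** The limit of the characteristic polynomial.
PROOF. Put `Λ = diagonal (l ^ N)`, `y = ε t ^ N`. Let `D` be the diagonal matrix with the entries `l j ^ N` for `j < k` and
`y` for `j ≥ k`. Then `y • 1 - a * Λ = B N * D`, where the column `j` of `B N` is
`(y / l j ^ N) e_j - a_j` for `j < k` and `e_j - (l j ^ N / y) a_j` for `j ≥ k` (`a_j` the column of `a`). As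
`|y / l j ^ N| = (t / l j) ^ N → 0` for `j < k` and `|l j ^ N / y| → 0` for `j ≥ k`, `B N` tends to
`- a * fk n k + (1 - fk n k)`, with the determinant `(-1) ^ k * det (1 + (a - 1) * fk n k)` (it is `(1 + (a - 1) * fk n k)` times
the diagonal matrix with `-1` for `j < k` and `1` for `j ≥ k`:
`1 + (a - 1) * fk n k = a * fk n k + (1 - fk n k)`). So for large `N` the sign of
`(a * Λ).charpoly.eval y = det (B N) * det D` (`Matrix.eval_charpoly`: `det (scalar y - M)`) is that of
`(-1) ^ k * μ * ε ^ (n - k)`: the product with it is positive (`∏ l j ^ N > 0`, `y ^ (n - k) = ε ^ (n - k) * t ^ ..`). -/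
theorem sign_limit {n : ℕ} (a : Matrix (Fin n) (Fin n) ℝ) {l : Fin n → ℝ} (hpos : ∀ i, 0 < l i)
    {k : ℕ} (hk : k ≤ n) {t : ℝ} (ht : 0 < t) (h1 : ∀ i : Fin n, (i : ℕ) < k → t < l i)
    (h2 : ∀ i : Fin n, k ≤ (i : ℕ) → l i < t) {ε : ℝ} (hε : ε = 1 ∨ ε = -1)
    (hμ : (1 + (a - 1) * fk n k).det ≠ 0) :
    ∃ N₀ : ℕ, ∀ N ≥ N₀, 0 < (a * diagonal fun j => l j ^ N).charpoly.eval (ε * t ^ N) *
      ((-1) ^ k * (1 + (a - 1) * fk n k).det * ε ^ (n - k)) := by
  set c : ℝ := (-1) ^ k * (1 + (a - 1) * fk n k).det with hc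
  have hc0 : c ≠ 0 := mul_ne_zero (pow_ne_zero _ (by norm_num)) hμ
  have hε0 : ε ≠ 0 := by rcases hε with h | h <;> rw [h] <;> norm_num
  have hε2 : ε * ε = 1 := by rcases hε with h | h <;> rw [h] <;> norm_num
  have hT := RA1_tends a hpos ht h1 h2 hε
  have hD := ((continuous_id.matrix_det).tendsto _).comp hT
  have hD' := hD.mul_const c
  have hlim : (0 : ℝ) < (Matrix.of fun i j : Fin n => if (j : ℕ) < k then - a i j else
      (1 : Matrix (Fin n) (Fin n) ℝ) i j).det * c := by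
    rw [RA1_det a hk, ← hc]
    exact mul_self_pos.2 hc0
  obtain ⟨N₀, hN₀⟩ := Filter.eventually_atTop.1 (hD'.eventually (lt_mem_nhds hlim))
  refine ⟨N₀, fun N hN => ?_⟩
  have hpN := hN₀ N hN
  simp only [Function.comp_apply, id_eq] at hpN
  have htN : 0 < t ^ N := by positivity
  have hfac : Matrix.scalar (Fin n) (ε * t ^ N) - (a * diagonal fun j => l j ^ N) =
      (Matrix.of fun i j : Fin n => if (j : ℕ) < k then
        (ε * t ^ N / l j ^ N) * (1 : Matrix (Fin n) (Fin n) ℝ) i j - a i j else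
        (1 : Matrix (Fin n) (Fin n) ℝ) i j - (l j ^ N / (ε * t ^ N)) * a i j) *
      diagonal (fun j : Fin n => if (j : ℕ) < k then l j ^ N else ε * t ^ N) := by
    ext i j
    have hl0 : l j ^ N ≠ 0 := pow_ne_zero _ (hpos j).ne'
    rw [Matrix.sub_apply, Matrix.mul_diagonal, Matrix.mul_diagonal, Matrix.of_apply]
    have hs : Matrix.scalar (Fin n) (ε * t ^ N) i j =
        ε * t ^ N * (1 : Matrix (Fin n) (Fin n) ℝ) i j := by
      rw [Matrix.scalar_apply, ← Matrix.smul_one_eq_diagonal, Matrix.smul_apply, smul_eq_mul]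
    rw [hs]
    by_cases hj : (j : ℕ) < k
    · rw [if_pos hj, if_pos hj, sub_mul]
      have e : ∀ u : ℝ, ε * t ^ N / l j ^ N * u * l j ^ N = ε * t ^ N * u := by
        intro u; field_simp
      rw [e]
    · rw [if_neg hj, if_neg hj, sub_mul]
      have e : ∀ u : ℝ, l j ^ N / (ε * t ^ N) * u * (ε * t ^ N) = l j ^ N * u := by
        intro u; field_simp
      rw [e]
      ring
  rw [Matrix.eval_charpoly, hfac, Matrix.det_mul, Matrix.det_diagonal]
  have hprod : ∏ j : Fin n, (if (j : ℕ) < k then l j ^ N else ε * t ^ N) =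
      (∏ j : Fin n, (if (j : ℕ) < k then l j ^ N else t ^ N)) * ε ^ (n - k) := by
    have h := RA1_prod' hk 1 ε
    rw [one_pow, one_mul] at h
    rw [← h, ← Finset.prod_mul_distrib]
    refine Finset.prod_congr rfl fun j _ => ?_
    by_cases hj : (j : ℕ) < k
    · rw [if_pos hj, if_pos hj, if_pos hj, mul_one]
    · rw [if_neg hj, if_neg hj, if_neg hj, mul_comm]
  rw [hprod]
  have hP : 0 < ∏ j : Fin n, (if (j : ℕ) < k then l j ^ N else t ^ N) := by
    refine Finset.prod_pos fun j _ => ?_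
    split_ifs
    · exact pow_pos (hpos j) N
    · exact htN
  have hεp : ε ^ (n - k) * ε ^ (n - k) = 1 := by
    rw [← mul_pow, hε2, one_pow]
  calc (0 : ℝ) < ((Matrix.of fun i j : Fin n => if (j : ℕ) < k then
        (ε * t ^ N / l j ^ N) * (1 : Matrix (Fin n) (Fin n) ℝ) i j - a i j else
        (1 : Matrix (Fin n) (Fin n) ℝ) i j - (l j ^ N / (ε * t ^ N)) * a i j).det * c) *
        ∏ j : Fin n, (if (j : ℕ) < k then l j ^ N else t ^ N) := mul_pos hpN hP
    _ = ((Matrix.of fun i j : Fin n => if (j : ℕ) < k then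
        (ε * t ^ N / l j ^ N) * (1 : Matrix (Fin n) (Fin n) ℝ) i j - a i j else
        (1 : Matrix (Fin n) (Fin n) ℝ) i j - (l j ^ N / (ε * t ^ N)) * a i j).det * c) *
        (∏ j : Fin n, (if (j : ℕ) < k then l j ^ N else t ^ N)) *
        (ε ^ (n - k) * ε ^ (n - k)) := by rw [hεp, mul_one]
    _ = _ := by ring

private lemma RA2_sep {n : ℕ} {l : Fin n → ℝ} (hl : StrictAnti l) (hpos : ∀ i, 0 < l i) (k : ℕ) :
    ∃ t : ℝ, 0 < t ∧ (∀ i : Fin n, (i : ℕ) < k → t < l i) ∧
      (∀ i : Fin n, k ≤ (i : ℕ) → l i < t) := by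
  classical
  obtain ⟨t, h1, h2⟩ := Order.exists_between_finsets
    (insert 0 ((Finset.univ.filter fun i : Fin n => k ≤ (i : ℕ)).image l))
    ((Finset.univ.filter fun i : Fin n => (i : ℕ) < k).image l) (by
      intro x hx y hy
      rw [Finset.mem_image] at hy
      obtain ⟨j, hj, rfl⟩ := hy
      rcases Finset.mem_insert.1 hx with rfl | hx
      · exact hpos j
      · obtain ⟨i, hi, rfl⟩ := Finset.mem_image.1 hx
        refine hl ?_
        have e1 := (Finset.mem_filter.1 hi).2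
        have e2 := (Finset.mem_filter.1 hj).2
        rw [Fin.lt_def]
        omega)
  refine ⟨t, h1 0 (Finset.mem_insert_self _ _), fun i hi => h2 _ ?_, fun i hi => h1 _ ?_⟩
  · exact Finset.mem_image_of_mem _ (Finset.mem_filter.2 ⟨Finset.mem_univ _, hi⟩)
  · exact Finset.mem_insert_of_mem (Finset.mem_image_of_mem _
      (Finset.mem_filter.2 ⟨Finset.mem_univ _, hi⟩))

private lemma RA2_root {f : ℝ[X]} {s t ε : ℝ} (hs : 0 < s) (hst : s < t) (hε : ε = 1 ∨ ε = -1)
    (h : f.eval (ε * t) * f.eval (ε * s) < 0) : ∃ y : ℝ, f.IsRoot y ∧ s < |y| ∧ |y| < t := by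
  have hc : Continuous fun x : ℝ => f.eval (ε * x) :=
    f.continuous.comp (continuous_const.mul continuous_id)
  have h0 : (0 : ℝ) ∈ Set.uIcc (f.eval (ε * s)) (f.eval (ε * t)) := by
    rw [Set.mem_uIcc]
    rcases mul_neg_iff.1 h with ⟨h1, h2⟩ | ⟨h1, h2⟩
    · exact Or.inl ⟨h2.le, h1.le⟩
    · exact Or.inr ⟨h1.le, h2.le⟩
  obtain ⟨x, hx, hx0⟩ := intermediate_value_uIcc (f := fun x : ℝ => f.eval (ε * x))
    (a := s) (b := t) hc.continuousOn h0
  rw [Set.uIcc_of_le hst.le] at hx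
  simp only at hx0
  have hx1 : x ≠ s := by
    rintro rfl
    rw [hx0, mul_zero] at h
    exact lt_irrefl _ h
  have hx2 : x ≠ t := by
    rintro rfl
    rw [hx0, zero_mul] at h
    exact lt_irrefl _ h
  have hx3 : s < x := lt_of_le_of_ne hx.1 (Ne.symm hx1)
  have hx4 : x < t := lt_of_le_of_ne hx.2 hx2
  have habs : |ε * x| = x := by
    rw [abs_mul, abs_of_pos (hs.trans hx3)]
    rcases hε with h | h <;> rw [h] <;> simp
  exact ⟨ε * x, hx0, by rw [habs]; exact hx3, by rw [habs]; exact hx4⟩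

/-- **RA2.** Real roots.
PROOF. Choose real numbers `t 0 > l 0 > t 1 > l 1 > ... > l (n-1) > t n > 0`. Let `μ k = det (1 + (a - 1) * fk n k)`, nonzero. Let
`N` be larger than the bounds of RA1 for all `k ≤ n` and both signs, `χ` the characteristic polynomial. For `k < n` let `ε = 1` if
`μ k * μ (k + 1) > 0` and `ε = -1` otherwise. Then `χ (ε (t k) ^ N) * χ (ε (t (k+1)) ^ N) < 0`: its sign is that of
`(-1) ^ (2k+1) μ k μ (k+1) ε ^ (2(n-k)-1) = - ε μ k μ (k+1)`. By the intermediate value theorem there is a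
root `y k` with `t (k+1) ^ N < |y k| < t k ^ N`. The roots `y k`, `k < n`, are different (their absolute values are strictly
decreasing). -/
theorem real_roots {n : ℕ} (a : Matrix (Fin n) (Fin n) ℝ) {l : Fin n → ℝ} (hl : StrictAnti l)
    (hpos : ∀ i, 0 < l i) (ha : ∀ k : ℕ, k ≤ n → (1 + (a - 1) * fk n k).det ≠ 0) :
    ∃ N₀ : ℕ, ∀ N ≥ N₀, RR n (a * diagonal fun j => l j ^ N).charpoly := by
  choose t ht0 ht1 ht2 using RA2_sep hl hpos
  have hev : ∀ᶠ N : ℕ in Filter.atTop, ∀ k ∈ Finset.range (n + 1), ∀ ε ∈ ({1, -1} : Finset ℝ),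
      0 < (a * diagonal fun j => l j ^ N).charpoly.eval (ε * t k ^ N) *
        ((-1) ^ k * (1 + (a - 1) * fk n k).det * ε ^ (n - k)) := by
    refine (Finset.eventually_all _).2 fun k hk => (Finset.eventually_all _).2 fun ε hε => ?_
    have hk' : k ≤ n := Nat.lt_succ_iff.1 (Finset.mem_range.1 hk)
    refine Filter.eventually_atTop.2 (sign_limit a hpos hk' (ht0 k) (ht1 k) (ht2 k) ?_ (ha k hk'))
    rcases Finset.mem_insert.1 hε with h | h
    · exact Or.inl h
    · exact Or.inr (Finset.mem_singleton.1 h)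
  obtain ⟨N₀, hN₀⟩ := Filter.eventually_atTop.1 hev
  refine ⟨N₀ + 1, fun N hN => ?_⟩
  have hN0 : N ≠ 0 := by omega
  have hdec : ∀ k k' : ℕ, k < k' → k < n → t k' < t k := fun k k' hkk hkn =>
    (ht1 k' ⟨k, hkn⟩ hkk).trans (ht2 k ⟨k, hkn⟩ le_rfl)
  have key : ∀ k : Fin n, ∃ y : ℝ, (a * diagonal fun j => l j ^ N).charpoly.IsRoot y ∧
      t ((k : ℕ) + 1) ^ N < |y| ∧ |y| < t (k : ℕ) ^ N := by
    intro k
    have hlt : t ((k : ℕ) + 1) ^ N < t (k : ℕ) ^ N :=
      pow_lt_pow_left₀ (hdec k (k + 1) (Nat.lt_succ_self _) k.2) (ht0 _).le hN0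
    have hkn := k.2
    have hμ := mul_ne_zero (ha k hkn.le) (ha (k + 1) hkn)
    obtain ⟨ε, hε, hεμ⟩ : ∃ ε : ℝ, (ε = 1 ∨ ε = -1) ∧
        0 < ε * ((1 + (a - 1) * fk n k).det * (1 + (a - 1) * fk n (k + 1)).det) := by
      rcases lt_or_gt_of_ne hμ with h | h
      · exact ⟨-1, Or.inr rfl, by linarith⟩
      · exact ⟨1, Or.inl rfl, by linarith⟩
    have hmem : ε ∈ ({1, -1} : Finset ℝ) := by
      rcases hε with h | h <;> rw [h] <;> simp
    have h1 := hN₀ N (by omega) k (Finset.mem_range.2 (by omega)) ε hmem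
    have h2 := hN₀ N (by omega) (k + 1) (Finset.mem_range.2 (by omega)) ε hmem
    have h3 := mul_pos h1 h2
    have hε2 : ε * ε = 1 := by rcases hε with h | h <;> rw [h] <;> norm_num
    have hpe : ε ^ (n - (k : ℕ)) * ε ^ (n - ((k : ℕ) + 1)) = ε := by
      have : n - (k : ℕ) = (n - ((k : ℕ) + 1)) + 1 := by omega
      rw [this, pow_succ, mul_right_comm, ← mul_pow, hε2, one_pow, one_mul]
    have hm1 : ((-1 : ℝ)) ^ (k : ℕ) * (-1) ^ ((k : ℕ) + 1) = -1 := by
      rw [pow_succ, ← mul_assoc, ← mul_pow]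
      norm_num
    refine RA2_root (ε := ε) (pow_pos (ht0 _) N) hlt hε ?_
    by_contra hcon
    push Not at hcon
    have e : (a * diagonal fun j => l j ^ N).charpoly.eval (ε * t k ^ N) *
        ((-1) ^ (k : ℕ) * (1 + (a - 1) * fk n k).det * ε ^ (n - (k : ℕ))) *
        ((a * diagonal fun j => l j ^ N).charpoly.eval (ε * t (k + 1) ^ N) *
        ((-1) ^ ((k : ℕ) + 1) * (1 + (a - 1) * fk n (k + 1)).det * ε ^ (n - ((k : ℕ) + 1)))) =
        ((-1 : ℝ) ^ (k : ℕ) * (-1) ^ ((k : ℕ) + 1)) *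
        (((a * diagonal fun j => l j ^ N).charpoly.eval (ε * t k ^ N) *
          (a * diagonal fun j => l j ^ N).charpoly.eval (ε * t (k + 1) ^ N)) *
          ((ε ^ (n - (k : ℕ)) * ε ^ (n - ((k : ℕ) + 1))) * ((1 + (a - 1) * fk n k).det *
            (1 + (a - 1) * fk n (k + 1)).det))) := by ring
    rw [e, hm1, hpe] at h3
    have h4 := mul_nonneg hcon hεμ.le
    linarith
  choose y hy1 hy2 hy3 using key
  have hlt : ∀ k k' : Fin n, k < k' → |y k'| < |y k| := by
    intro k k' hkk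
    refine (hy3 k').trans_le (le_trans ?_ (hy2 k).le)
    refine pow_le_pow_left₀ (ht0 _).le ?_ N
    rcases Nat.lt_or_ge ((k : ℕ) + 1) k' with h | h
    · exact (hdec _ _ h (by have := k'.2; omega)).le
    · have : (k' : ℕ) = (k : ℕ) + 1 := le_antisymm h hkk
      rw [this]
  refine ⟨y, fun k k' hkk => ?_, hy1⟩
  rcases lt_trichotomy k k' with h | h | h
  · exact absurd (congrArg abs hkk) (hlt _ _ h).ne'
  · exact h
  · exact absurd (congrArg abs hkk) (hlt _ _ h).ne

/-- **RA3.** Diagonalisation with decreasing eigenvalues.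
PROOF. Let `l` be the decreasing enumeration of the values of `y` (`Finset.orderEmbOfFin` of the image, of cardinality `n`, composed
with `Fin.rev`); `l i` is some `y j`, so positive and a root. For every `i` there is an eigenvector `x i ≠ 0` of
`W` with the eigenvalue `l i` (`Matrix.exists_mulVec_eq_zero_iff`, `det (l i - W) = 0`; or `Module.End.hasEigenvalue`); eigenvectors for different
eigenvalues are independent (`Module.End.eigenvectors_linearIndependent`), so the matrix `V` with the columns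
`x i` is invertible and `W * V = V * diagonal l`. -/
theorem exists_diag {n : ℕ} (W : Matrix (Fin n) (Fin n) ℝ) {y : Fin n → ℝ}
    (hy : Function.Injective y) (hr : ∀ i, W.charpoly.IsRoot (y i)) (hpos : ∀ i, 0 < y i) :
    ∃ (V : (Matrix (Fin n) (Fin n) ℝ)ˣ) (l : Fin n → ℝ), StrictAnti l ∧ (∀ i, 0 < l i) ∧
      W = V.1 * diagonal l * (V⁻¹ : (Matrix (Fin n) (Fin n) ℝ)ˣ).1 := by
  classical
  set σ := Tuple.sort (fun i => - y i) with hσ
  have hmono : StrictMono ((fun i => - y i) ∘ σ) :=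
    (Tuple.monotone_sort (fun i => - y i)).strictMono_of_injective
      (fun i j h => σ.injective (hy (neg_injective h)))
  set l : Fin n → ℝ := fun i => y (σ i) with hl
  have hanti : StrictAnti l := fun i j hij => by
    have := hmono hij
    simp only [Function.comp_apply, neg_lt_neg_iff] at this
    exact this
  have hev : ∀ i, ∃ v : Fin n → ℝ, v ≠ 0 ∧ W *ᵥ v = l i • v := by
    intro i
    have h := hr (σ i)
    rw [Polynomial.IsRoot, Matrix.eval_charpoly] at h
    obtain ⟨v, hv, hv0⟩ := Matrix.exists_mulVec_eq_zero_iff.2 h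
    refine ⟨v, hv, ?_⟩
    rw [Matrix.sub_mulVec, sub_eq_zero] at hv0
    rw [← hv0, Matrix.scalar_apply, ← Matrix.smul_one_eq_diagonal, Matrix.smul_mulVec,
      Matrix.one_mulVec]
  choose v hv0 hv using hev
  have hli : LinearIndependent ℝ v := by
    refine Module.End.eigenvectors_linearIndependent' (Matrix.toLin' W) l hanti.injective v ?_
    intro i
    exact ⟨Module.End.mem_eigenspace_iff.2 (by rw [Matrix.toLin'_apply]; exact hv i), hv0 i⟩
  have hU : IsUnit (Matrix.of v)ᵀ := by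
    rw [← Matrix.linearIndependent_cols_iff_isUnit]
    exact hli
  obtain ⟨V, hV⟩ := hU
  refine ⟨V, l, hanti, fun i => hpos _, ?_⟩
  have hWV : W * V.1 = V.1 * diagonal l := by
    rw [hV]
    ext i j
    rw [Matrix.mul_diagonal]
    have := congrFun (hv j) i
    rw [Pi.smul_apply, smul_eq_mul] at this
    rw [Matrix.transpose_apply, Matrix.of_apply, mul_comm, ← this]
    rfl
  rw [← hWV, mul_assoc, Units.mul_inv, mul_one]

end Pool.Agent.CGN
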