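import Pool.Agent.CGN.SDefs

/-!
# Enlarging the set of the bad places
-/

noncomputable section

namespace Pool.Agent.CGN

open NumberField IsDedekindDomain Matrix
open Pool.Agent.CG2 (Pl Fv Ov GalF Zbar Over IsInertia IsFrob Nm r1 r2)
open Pool.Agent.CGQ

variable {F : Type} [Field F] [NumberField F] {n : ℕ} {𝒟 : Sys F} {S S' : Set (Pl F)}
variable {O : Type} [CommRing O] {W : Type} [AddCommGroup W] [Module O W]

/-- A place outside the larger set. -/
def Out (h : S ⊆ S') (v : {v : Pl F // v ∉ S'}) : {v : Pl F // v ∉ S} :=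
  ⟨v.1, fun hv => v.2 (h hv)⟩

/-- The restriction of a chart. -/
def Chart.res (φ : Chart n 𝒟 S) (h : S ⊆ S') : Chart n 𝒟 S' where
  e v := φ.e (Out h v)

theorem Hyp.res {K : Subgroup 𝒟.A} {φ : Chart n 𝒟 S} (h : S ⊆ S') {v : {v : Pl F // v ∉ S'}}
    (hK : Hyp K φ (Out h v)) : Hyp K (φ.res h) v := ⟨hK.le, hK.mem⟩

theorem Unram.res {K : Subgroup 𝒟.A} {τ : Representation O K W} {φ : Chart n 𝒟 S} (h : S ⊆ S')
    {v : {v : Pl F // v ∉ S'}} (hK : Unram K τ φ (Out h v)) : Unram K τ (φ.res h) v :=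
  ⟨hK.hyp.res h, hK.triv⟩

/-- The map of the indices. -/
def idxMap (h : S ⊆ S') (t : Idx n S') : Idx n S := (Out h t.1, t.2)

/-- The homomorphism of the Hecke algebras. -/
def algMap (n : ℕ) (h : S ⊆ S') (O : Type) [CommRing O] : HeckeAlg n S' O →ₐ[O] HeckeAlg n S O :=
  MvPolynomial.rename (idxMap h)

theorem hact_res {K : Subgroup 𝒟.A} {τ : Representation O K W} {φ : Chart n 𝒟 S}
    (hU : UnramOff K τ φ) (h : S ⊆ S') (hU' : UnramOff K τ (φ.res h)) (i : ℕ)
    (t : HeckeAlg n S' O) : hact K τ hU' i t = hact K τ hU i (algMap n h O t) := by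
  have h1 : hact K τ hU' i = (hact K τ hU i).comp (algMap n h O) := by
    apply MvPolynomial.algHom_ext
    intro t
    rw [AlgHom.comp_apply, algMap, MvPolynomial.rename_X, hact_X, hact_X]
    rfl
  rw [h1]
  rfl

theorem inSupport_res {K : Subgroup 𝒟.A} {τ : Representation O K W} {φ : Chart n 𝒟 S}
    {hU : UnramOff K τ φ} (h : S ⊆ S') (hU' : UnramOff K τ (φ.res h)) {i : ℕ}
    {m : Ideal (HeckeAlg n S O)} (hi : InSupport K τ hU i m) :
    InSupport K τ hU' i (m.comap (algMap n h O)) := by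
  obtain ⟨z, hz⟩ := hi
  refine ⟨z, fun t ht => ?_⟩
  rw [hact_res hU h hU']
  exact hz _ ht

/-- The quotients by the ideals in the support of a finitely generated module are integral. -/
theorem integral_quot {K : Subgroup 𝒟.A} {τ : Representation O K W} {φ : Chart n 𝒟 S}
    {hU : UnramOff K τ φ} {i : ℕ} (hfin : Module.Finite O (groupCohomology (coeff K τ) i))
    {m : Ideal (HeckeAlg n S O)} (hi : InSupport K τ hU i m) (x : HeckeAlg n S O ⧸ m) :
    IsIntegral O x := by
  obtain ⟨t, rfl⟩ := Ideal.Quotient.mk_surjective x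
  have h1 : IsIntegral O (hact K τ hU i t) := Algebra.IsIntegral.isIntegral _
  obtain ⟨P, hP, hP0⟩ := h1
  refine ⟨P, hP, ?_⟩
  have h2 : hact K τ hU i (Polynomial.aeval t P) = 0 := by
    rw [← Polynomial.aeval_algHom_apply]
    exact hP0
  have h3 : Polynomial.aeval t P ∈ m := by
    by_contra h4
    obtain ⟨z, hz⟩ := hi
    apply hz _ h4
    rw [h2]
    rfl
  have h4 : Polynomial.aeval (Ideal.Quotient.mkₐ O m t) P = Ideal.Quotient.mkₐ O m
      (Polynomial.aeval t P) := Polynomial.aeval_algHom_apply _ _ _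
  have h5 : Ideal.Quotient.mkₐ O m (Polynomial.aeval t P) = 0 := Ideal.Quotient.eq_zero_iff_mem.2 h3
  rw [h5] at h4
  exact h4

/-- The maximal ideals in the support of a finitely generated module stay maximal. -/
theorem isMaximal_res {K : Subgroup 𝒟.A} {τ : Representation O K W} {φ : Chart n 𝒟 S}
    {hU : UnramOff K τ φ} (h : S ⊆ S') {i : ℕ}
    (hfin : Module.Finite O (groupCohomology (coeff K τ) i))
    {m : Ideal (HeckeAlg n S O)} [hm : m.IsMaximal] (hi : InSupport K τ hU i m) :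
    (m.comap (algMap n h O)).IsMaximal := by
  let f : (HeckeAlg n S' O ⧸ m.comap (algMap n h O)) →+* (HeckeAlg n S O ⧸ m) :=
    Ideal.quotientMap m (algMap n h O : HeckeAlg n S' O →+* HeckeAlg n S O) le_rfl
  have hf : Function.Injective f := Ideal.quotientMap_injective
  let _ : Algebra (HeckeAlg n S' O ⧸ m.comap (algMap n h O)) (HeckeAlg n S O ⧸ m) := f.toAlgebra
  have htow : IsScalarTower O (HeckeAlg n S' O ⧸ m.comap (algMap n h O)) (HeckeAlg n S O ⧸ m) := by
    refine IsScalarTower.of_algebraMap_eq (R := O)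
      (S := HeckeAlg n S' O ⧸ m.comap (algMap n h O)) (A := HeckeAlg n S O ⧸ m) fun x => ?_
    change Ideal.Quotient.mk m (algebraMap O (HeckeAlg n S O) x) =
      Ideal.Quotient.mk m (algMap n h O (algebraMap O (HeckeAlg n S' O) x))
    rw [AlgHom.commutes]
  have hint : Algebra.IsIntegral (HeckeAlg n S' O ⧸ m.comap (algMap n h O)) (HeckeAlg n S O ⧸ m) :=
    ⟨fun x => (integral_quot hfin hi x).tower_top⟩
  have hp : (m.comap (algMap n h O)).IsPrime := Ideal.IsPrime.comap _
  have hfld : IsField (HeckeAlg n S O ⧸ m) := (Ideal.Quotient.maximal_ideal_iff_isField_quotient m).1 hm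
  exact (Ideal.Quotient.maximal_ideal_iff_isField_quotient _).2
    (isField_of_isIntegral_of_isField hf hfld)

/-- The residue field as an algebra. -/
@[reducible] def algRes (h : S ⊆ S') (m : Ideal (HeckeAlg n S O)) (k : Type) [Field k]
    [Algebra (HeckeAlg n S O ⧸ m) k] : Algebra (HeckeAlg n S' O ⧸ m.comap (algMap n h O)) k :=
  ((algebraMap (HeckeAlg n S O ⧸ m) k).comp (Ideal.quotientMap m
    (algMap n h O : HeckeAlg n S' O →+* HeckeAlg n S O) le_rfl)).toAlgebra

theorem eig_res (h : S ⊆ S') (m : Ideal (HeckeAlg n S O)) (k : Type) [Field k]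
    [Algebra (HeckeAlg n S O ⧸ m) k] (t : Idx n S') :
    @eig F _ _ n S' O _ (m.comap (algMap n h O)) k _ (algRes h m k) t = eig m k (idxMap h t) := by
  change algebraMap (HeckeAlg n S O ⧸ m) k (Ideal.Quotient.mk m
    (MvPolynomial.rename (idxMap h) (MvPolynomial.X t))) = _
  rw [MvPolynomial.rename_X]
  rfl

theorem attached_res (h : S ⊆ S') (m : Ideal (HeckeAlg n S O)) (k : Type) [Field k]
    [Algebra (HeckeAlg n S O ⧸ m) k] (ρ : GalF F →* GL (Fin n) k) (hA : AttachedN m k ρ) :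
    @AttachedN F _ _ n S' O _ (m.comap (algMap n h O)) k _ (algRes h m k) ρ := by
  obtain ⟨h1, e, ω, h2, h3⟩ := hA
  refine ⟨h1, e, ω, h2, fun v hv Q hQ => ?_⟩
  obtain ⟨h4, h5⟩ := h3 v (fun hv' => hv (h hv')) Q hQ
  refine ⟨h4, fun σ hσ => ?_⟩
  rw [h5 σ hσ]
  congr 1
  funext j
  exact (eig_res h m k (⟨v, hv⟩, j)).symm

/-- The set of the places outside `S` at which the chart does not map the base subgroup to the
standard one is finite. -/
theorem finite_nonstd {K : Subgroup 𝒟.A} (hK : OC K) {φ : Chart n 𝒟 S} (hΦ : HypOff K φ) :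
    {v : Pl F | ∃ h : v ∉ S, ¬ ∀ k, φ.e ⟨v, h⟩ k ∈ GZ n v ↔ k ∈ 𝒟.B v}.Finite := by
  obtain ⟨U, hU, hUS, hUK⟩ := hK.op
  obtain ⟨C, hC, hCS, hCK⟩ := hK.cp
  refine (hUS.union hCS).subset ?_
  rintro v ⟨hv, hne⟩
  by_contra h
  simp only [Set.mem_union, Set.mem_ofPred_eq, not_or, not_not] at h
  apply hne
  intro k
  constructor
  · intro hk
    have h1 := hCK _ ((hΦ ⟨v, hv⟩).mem k hk) v
    rw [single_same] at h1
    exact h.2 h1
  · intro hk
    have h1 : single v k ∈ K := by
      apply hUK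
      intro w
      by_cases hw : w = v
      · subst hw
        rw [single_same]
        exact h.1 hk
      · rw [single_ne hw]
        exact (U w).one_mem
    have h2 := (hΦ ⟨v, hv⟩).le _ h1
    rw [single_same] at h2
    exact h2

end Pool.Agent.CGN
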