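import Pool.Agent.CGN.HCoh
import Pool.Agent.CGQ.FFm

/-!
# The Hecke operators and the module `FF`
-/

noncomputable section

namespace Pool.Agent.CGN

open NumberField IsDedekindDomain Pool.Agent.CG3 CategoryTheory
open Pool.Agent.CG2 (Pl IsCoef res LocEq)
open Pool.Agent.CGQ

variable {F : Type} [Field F] [NumberField F] {𝒟 : Sys F} {n : ℕ} {S : Set (Pl F)}
  {Φ : Chart n 𝒟 S}
variable {O k : Type} [CommRing O] [AddCommGroup k] [Module O k]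

theorem FFmod_half {K : Subgroup 𝒟.A} {v : {v : Pl F // v ∉ S}} (hK : Hyp K Φ v)
    (a : GQ n v.1) (z x : 𝒟.Pt)
    (h : ∃ c ∈ dcos v.1 a, mkK K z = mkK K (rt x (sg Φ v (Quotient.out c)))) :
    ∃ c ∈ dcos v.1 a⁻¹, mkK K (rt z (sg Φ v (Quotient.out c))) = mkK K x := by
  obtain ⟨c, ⟨m, hm, rfl⟩, h1⟩ := h
  obtain ⟨u, hu⟩ := QuotientGroup.mk_out_eq_mul (GZ n v.1) (m * a)
  have hu' : Quotient.out (((m * a : GQ n v.1) : GQ n v.1 ⧸ GZ n v.1)) = m * a * u := hu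
  rw [hu'] at h1
  obtain ⟨κ, hκ, h2⟩ := mkK_eq.1 h1
  set b : GQ n v.1 := Φ.e v (κ.1 v.1) with hb
  have hbZ : b ∈ GZ n v.1 := hK.le _ hκ
  set κ₁ : 𝒟.A := (sg Φ v b)⁻¹ * κ with hκ₁
  have hκ₁v : κ₁.1 v.1 = 1 := by
    rw [hκ₁, Subgroup.coe_mul, Pi.mul_apply, Subgroup.coe_inv, Pi.inv_apply, sg_apply,
      single_same, hb, MulEquiv.symm_apply_apply, inv_mul_cancel]
  have hκ₁K : κ₁ ∈ K := K.mul_mem (K.inv_mem (hK.sg_mem hbZ)) hκ
  have hκe : κ = sg Φ v b * κ₁ := by rw [hκ₁, mul_inv_cancel_left]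
  have hcomm : ∀ g : GQ n v.1, κ₁ * sg Φ v g = sg Φ v g * κ₁ := fun g => single_comm' _ hκ₁v
  refine ⟨((b * (u : GQ n v.1)⁻¹ * a⁻¹ : GQ n v.1) : GQ n v.1 ⧸ GZ n v.1),
    ⟨b * (u : GQ n v.1)⁻¹, (GZ n v.1).mul_mem hbZ ((GZ n v.1).inv_mem u.2), rfl⟩, ?_⟩
  obtain ⟨w, hw⟩ := QuotientGroup.mk_out_eq_mul (GZ n v.1) (b * (u : GQ n v.1)⁻¹ * a⁻¹)
  have hw' : Quotient.out (((b * (u : GQ n v.1)⁻¹ * a⁻¹ : GQ n v.1) : GQ n v.1 ⧸ GZ n v.1)) =
    b * (u : GQ n v.1)⁻¹ * a⁻¹ * w := hw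
  rw [hw', eq_comm, mkK_eq]
  refine ⟨sg Φ v (m * w) * κ₁⁻¹, K.mul_mem (hK.sg_mem ((GZ n v.1).mul_mem hm w.2))
    (K.inv_mem hκ₁K), ?_⟩
  have h3 : z = rt x (sg Φ v (m * a * u) * κ⁻¹) := by
    rw [rt_mul, h2, ← rt_mul, mul_inv_cancel, rt_one]
  have hcomm' : ∀ g : GQ n v.1, κ₁⁻¹ * sg Φ v g = sg Φ v g * κ₁⁻¹ := by
    intro g
    rw [inv_mul_eq_iff_eq_mul, ← mul_assoc, hcomm, mul_assoc, mul_inv_cancel, mul_one]
  rw [h3, ← rt_mul]
  congr 1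
  rw [hκe, _root_.mul_inv_rev, ← map_inv]
  have h5 : sg Φ v (m * a * ↑u) * (κ₁⁻¹ * sg Φ v b⁻¹) * sg Φ v (b * (↑u)⁻¹ * a⁻¹ * ↑w) =
      sg Φ v (m * a * u) * κ₁⁻¹ * (sg Φ v b⁻¹ * sg Φ v (b * (↑u)⁻¹ * a⁻¹ * ↑w)) := by
    simp only [mul_assoc]
  rw [h5, ← map_mul, mul_assoc, hcomm', ← mul_assoc, ← map_mul]
  congr 2
  group

theorem FFmod_iff {K : Subgroup 𝒟.A} {v : {v : Pl F // v ∉ S}} (hK : Hyp K Φ v)
    (j : Option (Fin n)) (z x : 𝒟.Pt) :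
    (∃ c ∈ (cosets_finite v.1 j).toFinset, mkK K z = mkK K (rt x (sg Φ v (Quotient.out c)))) ↔
    ∃ c ∈ (cosetsInv_finite v.1 j).toFinset,
      mkK K (rt z (sg Φ v (Quotient.out c))) = mkK K x := by
  simp only [Set.Finite.mem_toFinset]
  constructor
  · intro h
    exact FFmod_half hK (alpha v.1 j) z x h
  · rintro ⟨c, hc, h⟩
    obtain ⟨c', hc', h'⟩ := FFmod_half hK (alpha v.1 j)⁻¹ x z ⟨c, hc, h.symm⟩
    rw [inv_inv] at hc'
    exact ⟨c', hc', h'.symm⟩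

theorem FFmod_uniq {K : Subgroup 𝒟.A} {v : {v : Pl F // v ∉ S}} (hK : Hyp K Φ v)
    (x : 𝒟.Pt) (c c' : GQ n v.1 ⧸ GZ n v.1)
    (h : mkK K (rt x (sg Φ v (Quotient.out c))) = mkK K (rt x (sg Φ v (Quotient.out c')))) :
    c = c' := by
  obtain ⟨κ, hκ, h1⟩ := mkK_eq.1 h
  rw [← rt_mul] at h1
  have h2 : x.2 * sg Φ v (Quotient.out c') = x.2 * (sg Φ v (Quotient.out c) * κ) :=
    congrArg Prod.snd h1
  have h3 := mul_left_cancel h2
  have h4 := congrArg (Φ.e v) (congrFun (congrArg Subtype.val h3) v.1)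
  rw [Subgroup.coe_mul, Pi.mul_apply, map_mul, sg_at, sg_at] at h4
  have h5 := hK.le _ hκ
  rw [← QuotientGroup.out_eq' c, ← QuotientGroup.out_eq' c', QuotientGroup.eq]
  have h6 : (Quotient.out c)⁻¹ * Quotient.out c' = Φ.e v (κ.1 v.1) := by
    rw [h4, inv_mul_cancel_left]
  rw [h6]
  exact h5

open Classical in
theorem FFmod_sum {k ι : Type} [AddCommGroup k] (s : Finset ι) (P : ι → Prop)
    (h : ∀ i ∈ s, ∀ j ∈ s, P i → P j → i = j) (a : k) :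
    (∑ i ∈ s, if P i then a else 0) = if ∃ i ∈ s, P i then a else 0 := by
  by_cases hex : ∃ i ∈ s, P i
  · rw [if_pos hex]
    obtain ⟨i, hi, hP⟩ := hex
    rw [Finset.sum_eq_single_of_mem i hi, if_pos hP]
    intro j hj hne
    exact if_neg fun hPj => hne (h j hj i hi hPj hP)
  · rw [if_neg hex]
    exact Finset.sum_eq_zero fun i hi => if_neg fun hP => hex ⟨i, hi, hP⟩

/-- The Hecke operators. -/
theorem piLin_hecke {K : Subgroup 𝒟.A} (hK : HypOff K Φ) (y : 𝒟.Pt)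
    (t : Idx n S) (f : FF K O k) : heckeLin K (triv K O k) (unram_triv hK) t (piLin K O k y f) =
      ∑ c ∈ (cosetsInv_finite t.1.1 t.2).toFinset,
        piLin K O k (rt y (sg Φ t.1 (Quotient.out c))) f := by
  classical
  obtain ⟨v, j⟩ := t
  apply Subtype.ext
  funext x
  have h1 : (heckeLin K (triv K O k) (unram_triv hK) (v, j) (piLin K O k y f)).1 x =
      ∑ c ∈ (cosets_finite v.1 j).toFinset,
        (piLin K O k y f).1 (rt x (sg Φ v (Quotient.out c))) := rfl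
  have h2 : (∑ c ∈ (cosetsInv_finite v.1 j).toFinset,
      piLin K O k (rt y (sg Φ v (Quotient.out c))) f).1 x =
      ∑ c ∈ (cosetsInv_finite v.1 j).toFinset,
        (piLin K O k (rt y (sg Φ v (Quotient.out c))) f).1 x := by
    rw [AddSubmonoidClass.coe_finset_sum, Finset.sum_apply]
  refine h1.trans (Eq.trans ?_ h2.symm)
  simp only [FFmod_pi_apply]
  have h5 := finsum_sum_comm (cosets_finite v.1 j).toFinset
    (fun (γ : 𝒟.G) c => if prF K y γ = mkK K (rt x (sg Φ v (Quotient.out c))) then f.1 γ else 0)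
    (fun c _ => FFmod_supp y (rt x (sg Φ v (Quotient.out c))) f)
  have h6 := finsum_sum_comm (cosetsInv_finite v.1 j).toFinset
    (fun (γ : 𝒟.G) c => if prF K (rt y (sg Φ v (Quotient.out c))) γ = mkK K x then f.1 γ else 0)
    (fun c _ => FFmod_supp (rt y (sg Φ v (Quotient.out c))) x f)
  refine h5.symm.trans (Eq.trans ?_ h6)
  refine finsum_congr fun γ => ?_
  rw [FFmod_sum, FFmod_sum]
  · have h3 := FFmod_iff (hK v) j (act γ y) x
    have h4 : (∃ c ∈ (cosets_finite v.1 j).toFinset,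
        prF K y γ = mkK K (rt x (sg Φ v (Quotient.out c)))) ↔
        ∃ c ∈ (cosetsInv_finite v.1 j).toFinset,
          prF K (rt y (sg Φ v (Quotient.out c))) γ = mkK K x := by
      simp only [prF, act_rt]
      exact h3
    by_cases h : ∃ c ∈ (cosets_finite v.1 j).toFinset,
        prF K y γ = mkK K (rt x (sg Φ v (Quotient.out c)))
    · rw [if_pos h, if_pos (h4.1 h)]
    · rw [if_neg h, if_neg fun h' => h (h4.2 h')]
  · intro c _ c' _ hc hc'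
    apply FFmod_uniq (hK v) (act γ y)
    rw [← act_rt, ← act_rt]
    exact hc.trans hc'.symm
  · intro c _ c' _ hc hc'
    exact FFmod_uniq (hK v) x c c' (hc.symm.trans hc')

end Pool.Agent.CGN
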