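import Pool.Agent.CGN.GalDef

/-!
# Matrices with one eigenvalue, commuting nilpotents
-/

noncomputable section

set_option linter.unusedSectionVars false

namespace Pool.Agent.CGN

open Matrix

variable {κ : Type} [Field κ] {G : Type} [Group G] {d : ℕ}

/- MODULE LS -/
/-- **LS**. An element of finite order prime to the characteristic with one eigenvalue is scalar.

PROOF. `A` is a root of `X ^ m - 1`, which is separable (`(m : κ) ≠ 0`,
`Polynomial.separable_X_pow_sub_C` or `X_pow_sub_one_separable_iff`), hence squarefree, and of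
`(X - C b) ^ d` (Cayley-Hamilton, `Matrix.aeval_self_charpoly`). The minimal polynomial of `A` divides
both (`minpoly.dvd`), so it is squarefree and divides a power of the irreducible `X - C b`: it divides
`X - C b` (`dvd_prime_pow`), so `A = b`. -/
theorem isScal_of_charpoly {p m : ℕ} [CharP κ p] (hp : p.Prime) (hpm : p.Coprime m)
    (A : GL (Fin d) κ) (hA : A ^ m = 1) (b : κ)
    (h : (A : Matrix (Fin d) (Fin d) κ).charpoly = (Polynomial.X - Polynomial.C b) ^ d) :
    IsScal A := by
  have : Fact p.Prime := ⟨hp⟩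
  have hm0 : (m : κ) ≠ 0 := by
    intro h0
    rw [CharP.cast_eq_zero_iff κ p] at h0
    have h1 := Nat.dvd_gcd dvd_rfl h0
    rw [hpm] at h1
    exact hp.one_lt.ne' (Nat.dvd_one.1 h1)
  set B : Matrix (Fin d) (Fin d) κ := (A : Matrix (Fin d) (Fin d) κ) with hB
  have hBm : B ^ m = 1 := by
    have h1 := congrArg (fun X : GL (Fin d) κ => (X : Matrix (Fin d) (Fin d) κ)) hA
    simpa using h1
  have hd1 : minpoly κ B ∣ (Polynomial.X ^ m - 1 : Polynomial κ) := by
    apply minpoly.dvd
    rw [map_sub, map_pow, Polynomial.aeval_X, map_one, hBm, sub_self]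
  have hd2 : minpoly κ B ∣ (Polynomial.X - Polynomial.C b) ^ d := by
    rw [← h]
    exact minpoly.dvd κ B (Matrix.aeval_self_charpoly B)
  have hsep : (Polynomial.X ^ m - 1 : Polynomial κ).Separable :=
    Polynomial.X_pow_sub_one_separable_iff.2 hm0
  have hsq : Squarefree (minpoly κ B) := (hsep.of_dvd hd1).squarefree
  obtain ⟨i, hi, hi'⟩ := (dvd_prime_pow (Polynomial.prime_X_sub_C b) d).1 hd2
  have hi1 : i ≤ 1 := by
    by_contra hc
    push Not at hc
    have h2 : (Polynomial.X - Polynomial.C b) * (Polynomial.X - Polynomial.C b)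
        ∣ minpoly κ B := by
      refine dvd_trans ?_ hi'.symm.dvd
      rw [← pow_two]
      exact pow_dvd_pow _ hc
    have h3 := hsq _ h2
    exact (Polynomial.prime_X_sub_C b).not_isUnit h3
  have h4 : minpoly κ B ∣ Polynomial.X - Polynomial.C b := by
    refine hi'.dvd.trans ?_
    rcases Nat.le_one_iff_eq_zero_or_eq_one.1 hi1 with rfl | rfl
    · rw [pow_zero]
      exact one_dvd _
    · rw [pow_one]
  have h5 : Polynomial.aeval B (Polynomial.X - Polynomial.C b) = 0 := by
    obtain ⟨c, hc⟩ := h4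
    rw [hc, map_mul, minpoly.aeval, zero_mul]
  rw [map_sub, Polynomial.aeval_X, Polynomial.aeval_C, sub_eq_zero] at h5
  exact ⟨b, h5⟩
/- END LS -/

/- MODULE LN -/
private theorem LN_aux {V : Type} [AddCommGroup V] [Module κ V] [FiniteDimensional κ V]
    (S : Set (Module.End κ V)) (hc : ∀ f ∈ S, ∀ g ∈ S, f * g = g * f)
    (hn : ∀ f ∈ S, IsNilpotent f) : ∀ (n : ℕ) (W : Submodule κ V), Module.finrank κ W = n → W ≠ ⊥ →
      (∀ f ∈ S, ∀ x ∈ W, f x ∈ W) → ∃ x ∈ W, x ≠ 0 ∧ ∀ f ∈ S, f x = 0 := by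
  intro n
  induction n using Nat.strong_induction_on with
  | _ n ih =>
    intro W hW hne hst
    by_cases hz : ∀ f ∈ S, ∀ x ∈ W, f x = 0
    · obtain ⟨x, hx, hx0⟩ := Submodule.exists_mem_ne_zero_of_ne_bot hne
      exact ⟨x, hx, hx0, fun f hf => hz f hf x hx⟩
    · push Not at hz
      obtain ⟨f, hf, y, hy, hfy⟩ := hz
      have hlt : W ⊓ LinearMap.ker f < W := by
        refine lt_of_le_of_ne inf_le_left fun h => hfy ?_
        rw [← h] at hy
        exact hy.2
      have hbot : W ⊓ LinearMap.ker f ≠ ⊥ := by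
        obtain ⟨x, hx, hx0⟩ := Submodule.exists_mem_ne_zero_of_ne_bot hne
        obtain ⟨k, hk⟩ := hn f hf
        have hex : ∃ k : ℕ, (f ^ k) x = 0 := ⟨k, by rw [hk]; rfl⟩
        classical
        have h1 := Nat.find_spec hex
        have h2 : Nat.find hex ≠ 0 := by
          intro h0
          rw [h0, pow_zero] at h1
          exact hx0 h1
        have h3 : (f ^ (Nat.find hex - 1)) x ≠ 0 := Nat.find_min hex (by omega)
        have hpw : ∀ m : ℕ, (f ^ m) x ∈ W := by
          intro m
          induction m with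
          | zero => exact hx
          | succ m ihm =>
            rw [pow_succ']
            exact hst f hf _ ihm
        intro hb
        apply h3
        rw [← Submodule.mem_bot κ, ← hb]
        refine ⟨hpw _, ?_⟩
        rw [SetLike.mem_coe, LinearMap.mem_ker]
        have h4 : f ((f ^ (Nat.find hex - 1)) x) = (f ^ (Nat.find hex - 1 + 1)) x := by
          rw [pow_succ']
          rfl
        rw [h4, Nat.sub_add_cancel (Nat.one_le_iff_ne_zero.2 h2), h1]
      obtain ⟨x, hx, hx0, hx1⟩ := ih _ (by rw [← hW]; exact Submodule.finrank_lt_finrank_of_lt hlt)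
        (W ⊓ LinearMap.ker f) rfl hbot (fun g hg x hx => by
          refine ⟨hst g hg x hx.1, ?_⟩
          rw [SetLike.mem_coe, LinearMap.mem_ker]
          have h1 : f (g x) = g (f x) := congrArg (fun h : Module.End κ V => h x) (hc f hf g hg)
          rw [h1, LinearMap.mem_ker.1 hx.2, map_zero])
      exact ⟨x, hx.1, hx0, hx1⟩

/-- **LN**. Pairwise commuting nilpotent endomorphisms have a common kernel vector.

PROOF. More generally, for every submodule `W ≠ ⊥` of the finite dimensional space `V`, stable under all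
`f ∈ S`, there is `x ∈ W`, `x ≠ 0`, killed by all `f ∈ S`: strong induction on `finrank W`. If all
`f ∈ S` are zero on `W` take any `x`. Otherwise let `f ∈ S` be not zero on `W`. `W' = W ⊓ ker f` is
stable under all `g ∈ S` (commute), `W' < W`, and `W' ≠ ⊥`: for `x ∈ W`, `x ≠ 0`, let `k` be minimal
with `(f ^ k) x = 0` (`Nat.find`), `k ≥ 1`, then `(f ^ (k - 1)) x ∈ W'` is not zero. -/
theorem common_kernel {V : Type} [AddCommGroup V] [Module κ V] [FiniteDimensional κ V]
    [Nontrivial V] (S : Set (Module.End κ V)) (hc : ∀ f ∈ S, ∀ g ∈ S, f * g = g * f)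
    (hn : ∀ f ∈ S, IsNilpotent f) : ∃ x : V, x ≠ 0 ∧ ∀ f ∈ S, f x = 0 := by
  obtain ⟨x, _, hx0, hx1⟩ := LN_aux S hc hn _ ⊤ rfl top_ne_bot fun _ _ _ _ => trivial
  exact ⟨x, hx0, hx1⟩
/- END LN -/

/- MODULE LC -/
/-- **LC**. Cyclic modulo scalars.

PROOF. (See `hasLine_of_cyclic` in CGQ/GalGD.lean.) `κ` is algebraically closed, `0 < d`: take an
eigenvector `x` of `ρ t` (`Module.End.exists_eigenvalue (Matrix.toLin' _)`), `V = span {x}`; for
`ρ g = ρ (t ^ i) * s`, `s` scalar. `V ≠ ⊤` because `finrank V = 1 < d`. -/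
theorem hasSub_of_cyclic [IsAlgClosed κ] (hd : 2 ≤ d) (ρ : G →* GL (Fin d) κ) (t : G)
    (h : ∀ g : G, ∃ i : ℤ, IsScal (ρ (t ^ i)⁻¹ * ρ g)) : HasSub ρ := by
  have : NeZero d := ⟨by omega⟩
  obtain ⟨μ, hμ⟩ := Module.End.exists_eigenvalue
    (Matrix.toLin' (ρ t : Matrix (Fin d) (Fin d) κ))
  obtain ⟨x, hx⟩ := hμ.exists_hasEigenvector
  have hx1 : (ρ t : Matrix (Fin d) (Fin d) κ).mulVec x = μ • x := by
    have h1 := hx.apply_eq_smul
    rwa [Matrix.toLin'_apply] at h1
  have hμ0 : μ ≠ 0 := by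
    rintro rfl
    rw [zero_smul] at hx1
    apply hx.2
    have h1 : ((ρ t)⁻¹ : Matrix (Fin d) (Fin d) κ).mulVec
        ((ρ t : Matrix (Fin d) (Fin d) κ).mulVec x) = x := by
      rw [Matrix.mulVec_mulVec, Matrix.inv_mul_of_invertible]
      exact Matrix.one_mulVec x
    rw [hx1, Matrix.mulVec_zero] at h1
    exact h1.symm
  have hti : ∀ i : ℤ, ∃ b : κ, (ρ (t ^ i) : Matrix (Fin d) (Fin d) κ).mulVec x = b • x := by
    have hn : ∀ n : ℕ, (ρ (t ^ n) : Matrix (Fin d) (Fin d) κ).mulVec x = μ ^ n • x := by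
      intro n
      induction n with
      | zero => simp
      | succ n ih =>
        rw [pow_succ, map_mul, GeneralLinearGroup.coe_mul, ← Matrix.mulVec_mulVec, hx1,
          Matrix.mulVec_smul, ih, smul_smul, pow_succ, mul_comm]
    intro i
    obtain ⟨n, rfl | rfl⟩ := i.eq_nat_or_neg
    · exact ⟨μ ^ n, by rw [zpow_natCast]; exact hn n⟩
    · refine ⟨(μ ^ n)⁻¹, ?_⟩
      have h1 : x = (μ ^ n)⁻¹ • (ρ (t ^ n) : Matrix (Fin d) (Fin d) κ).mulVec x := by
        rw [hn, smul_smul, inv_mul_cancel₀ (pow_ne_zero n hμ0), one_smul]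
      conv_lhs => rw [h1]
      rw [Matrix.mulVec_smul, Matrix.mulVec_mulVec, ← GeneralLinearGroup.coe_mul, ← map_mul,
        _root_.zpow_neg, zpow_natCast, inv_mul_cancel, map_one]
      simp
  refine ⟨Submodule.span κ {x}, ?_, ?_, ?_⟩
  · rw [Ne, Submodule.span_singleton_eq_bot]
    exact hx.2
  · intro htop
    have h1 := finrank_span_singleton (K := κ) hx.2
    rw [htop, finrank_top, Module.finrank_fintype_fun_eq_card, Fintype.card_fin] at h1
    omega
  · intro g y hy
    obtain ⟨a, rfl⟩ := Submodule.mem_span_singleton.1 hy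
    rw [Matrix.mulVec_smul]
    refine Submodule.smul_mem _ _ ?_
    obtain ⟨i, b, hb⟩ := h g
    obtain ⟨c, hc⟩ := hti i
    refine Submodule.mem_span_singleton.2 ⟨b * c, ?_⟩
    have h1 : (ρ g : Matrix (Fin d) (Fin d) κ) = (ρ (t ^ i) : Matrix (Fin d) (Fin d) κ) *
        Matrix.scalar (Fin d) b := by
      rw [← hb, ← GeneralLinearGroup.coe_mul]
      congr 1
      rw [← mul_assoc, ← map_mul, mul_inv_cancel, map_one, one_mul]
    rw [h1, ← Matrix.mulVec_mulVec, Matrix.scalar_apply]
    have h4 : (Matrix.diagonal fun _ : Fin d => b).mulVec x = b • x := by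
      ext i
      rw [Matrix.mulVec_diagonal]
      rfl
    rw [h4, Matrix.mulVec_smul, hc, smul_smul]
/- END LC -/

end Pool.Agent.CGN
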