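import Pool.Agent.CGN.GalKz
import Pool.Agent.CGQ.GalPR
import Pool.Agent.CGQ.GalUn

/-!
# Power residues and Frobenius elements, the embeddings of `L`
-/

noncomputable section

set_option linter.unusedSectionVars false

namespace Pool.Agent.CGN

open NumberField IsDedekindDomain Matrix Pool.Agent.CG2 Pool.Agent.CG2.GalFinAux
  Pool.Agent.CG2.GalInfAux Pool.Agent.CGQ

variable {F : Type} [Field F] [NumberField F] {L : Type} [Field L] [NumberField L] [Algebra F L]
  {κ : Type} [Field κ]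

/-- An embedding of `L` on the integers. -/
def incj (j : L →ₐ[F] Fbar F) : 𝓞 L →+* Zbar F where
  toFun x := ⟨j (x : L), by
    have h : IsIntegral ℤ (x : L) := x.2
    exact map_isIntegral_int j h⟩
  map_one' := by apply Subtype.ext; simp
  map_mul' x y := by apply Subtype.ext; simp
  map_zero' := by apply Subtype.ext; simp
  map_add' x y := by apply Subtype.ext; simp

theorem coe_incj (j : L →ₐ[F] Fbar F) (x : 𝓞 L) : ((incj j x : Zbar F) : Fbar F) = j (x : L) := rfl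

theorem incj_alg (j : L →ₐ[F] Fbar F) (x : 𝓞 F) :
    incj j (algebraMap (𝓞 F) (𝓞 L) x) = inc F F x := by
  apply Subtype.ext
  exact j.commutes (x : F)

/- MODULE RA -/
private theorem RA_range {k R : Type} [CommRing k] [Finite k] [CommRing R] [IsDomain R]
    (f : k →+* R) (hf : Function.Injective f) {N : ℕ} (hN : 1 < N) (hcard : Nat.card k = N)
    (hk : ∀ a : k, a ^ N = a) {x : R} (hx : x ^ N = x) : ∃ a, f a = x := by
  classical
  have := Fintype.ofFinite k
  let P : Polynomial R := Polynomial.X ^ N - Polynomial.X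
  have hdeg : P.natDegree = N := by
    rw [Polynomial.natDegree_sub_eq_left_of_natDegree_lt, Polynomial.natDegree_X_pow]
    rw [Polynomial.natDegree_X, Polynomial.natDegree_X_pow]
    exact hN
  have hP0 : P ≠ 0 := by
    intro h
    rw [h, Polynomial.natDegree_zero] at hdeg
    omega
  have hsub : Finset.univ.image f ⊆ P.roots.toFinset := by
    intro y hy
    obtain ⟨a, -, rfl⟩ := Finset.mem_image.1 hy
    rw [Multiset.mem_toFinset, Polynomial.mem_roots hP0]
    simp [P, ← map_pow, hk]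
  have hc1 : (Finset.univ.image f).card = N := by
    rw [Finset.card_image_of_injective _ hf, Finset.card_univ, ← Nat.card_eq_fintype_card, hcard]
  have hc2 : P.roots.toFinset.card ≤ N := by
    refine (Multiset.toFinset_card_le _).trans ((Polynomial.card_roots' P).trans ?_)
    rw [hdeg]
  have heq := Finset.eq_of_subset_of_card_le hsub (by rw [hc1]; exact hc2)
  have hxm : x ∈ Finset.univ.image f := by
    rw [heq, Multiset.mem_toFinset, Polynomial.mem_roots hP0]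
    simp [P, hx]
  obtain ⟨a, -, ha⟩ := Finset.mem_image.1 hxm
  exact ⟨a, ha⟩

private theorem RA_pow (v : Pl F) (a : 𝓞 F ⧸ v.asIdeal) : a ^ Nm v = a := by
  have := finite_quot v
  have hmax := v.isMaximal
  let _ := Ideal.Quotient.field v.asIdeal
  let _ := Fintype.ofFinite (𝓞 F ⧸ v.asIdeal)
  have h1 : Nm v = Fintype.card (𝓞 F ⧸ v.asIdeal) := by
    rw [← Nat.card_eq_fintype_card, ← absNorm_eq_card]
    rfl
  rw [h1]
  exact FiniteField.pow_card a

private def RA_f {v : Pl F} {Q : Ideal (Zbar F)} (hQ : Over v Q) :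
    (𝓞 F ⧸ v.asIdeal) →+* (Zbar F ⧸ Q) :=
  Ideal.quotientMap Q (inc F F) (comap_prime_eq hQ).ge

private theorem RA_f_inj {v : Pl F} {Q : Ideal (Zbar F)} (hQ : Over v Q) :
    Function.Injective (RA_f hQ) :=
  Ideal.quotientMap_injective' (comap_prime_eq hQ).le

private theorem RA_f_mk {v : Pl F} {Q : Ideal (Zbar F)} (hQ : Over v Q) (a : 𝓞 F) :
    RA_f hQ (Ideal.Quotient.mk _ a) = Ideal.Quotient.mk Q (inc F F a) := rfl

/-- **RA** (1). The elements of the residue field of `v`: an algebraic integer fixed by a Frobenius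
element at `Q` is congruent modulo `Q` to an integer of `F`.

PROOF. See `GalPR_range` (private) in CGQ/GalPR.lean and its use in `power_residues`: the polynomial
`X ^ Nm v - X` has at most `Nm v` roots in the domain `Zbar F ⧸ Q`, and the images of the `Nm v`
elements of `𝓞 F ⧸ v` (which embeds, `comap_prime_eq`) are roots. -/
theorem res_lift {v : Pl F} {Q : Ideal (Zbar F)} (hQ : Over v Q) {g : GalF F}
    (hg : IsFrob v Q g) {x : Zbar F} (hx : g (x : Fbar F) = x) :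
    ∃ a : 𝓞 F, inc F F a - x ∈ Q := by
  have hQp : Q.IsPrime := hQ.1
  have hfin := finite_quot v
  have h1 := hg x x hx.symm
  obtain ⟨b, hb⟩ := RA_range (RA_f hQ) (RA_f_inj hQ) (N := Nm v) (two_le_N v)
    (by rw [← absNorm_eq_card]; rfl) (RA_pow v) (x := Ideal.Quotient.mk Q x) (by
      rw [← map_pow, eq_comm, Ideal.Quotient.eq]
      exact h1)
  obtain ⟨a, rfl⟩ := Ideal.Quotient.mk_surjective b
  refine ⟨a, ?_⟩
  rw [← Ideal.Quotient.eq]
  exact hb

/-- **RA** (2). The residue map of an embedding.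

PROOF. `f : 𝓞 F ⧸ v → Zbar F ⧸ Q` is injective (`comap_prime_eq`), and by (1) the image of
`(Ideal.Quotient.mk Q).comp (incj j)` is contained in the range of `f`: compose with the inverse of
`f` on its range (`RingHom.codRestrict`, `RingEquiv.ofBijective`, or choose values and use
injectivity of `f` to prove additivity and multiplicativity). -/
theorem res_hom {v : Pl F} {Q : Ideal (Zbar F)} (hQ : Over v Q) {g : GalF F}
    (hg : IsFrob v Q g) (hgE : ∀ (j : L →ₐ[F] Fbar F) (x : L), g (j x) = j x)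
    (j : L →ₐ[F] Fbar F) :
    ∃ r : 𝓞 L →+* 𝓞 F ⧸ v.asIdeal,
      (∀ (x : 𝓞 L) (a : 𝓞 F), r x = Ideal.Quotient.mk _ a ↔ incj j x - inc F F a ∈ Q) ∧
      (∀ x : 𝓞 F, r (algebraMap (𝓞 F) (𝓞 L) x) = Ideal.Quotient.mk _ x) ∧
      RingHom.ker r = Q.comap (incj j) := by
  have hex : ∀ x : 𝓞 L, ∃ a : 𝓞 F, inc F F a - incj j x ∈ Q :=
    fun x => res_lift hQ hg (hgE j (x : L))
  choose A hA using hex
  have hfA : ∀ x : 𝓞 L, RA_f hQ (Ideal.Quotient.mk _ (A x)) = Ideal.Quotient.mk Q (incj j x) := by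
    intro x
    rw [RA_f_mk, Ideal.Quotient.eq]
    exact hA x
  let r : 𝓞 L →+* 𝓞 F ⧸ v.asIdeal :=
    { toFun := fun x => Ideal.Quotient.mk _ (A x)
      map_one' := by
        apply RA_f_inj hQ
        rw [hfA, map_one, map_one, map_one]
      map_mul' := by
        intro x y
        apply RA_f_inj hQ
        rw [hfA, map_mul (RA_f hQ), hfA, hfA, map_mul, map_mul]
      map_zero' := by
        apply RA_f_inj hQ
        rw [hfA, map_zero, map_zero, map_zero]
      map_add' := by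
        intro x y
        apply RA_f_inj hQ
        rw [hfA, map_add (RA_f hQ), hfA, hfA, map_add, map_add] }
  have hr : ∀ x, RA_f hQ (r x) = Ideal.Quotient.mk Q (incj j x) := hfA
  have h1 : ∀ (x : 𝓞 L) (a : 𝓞 F), r x = Ideal.Quotient.mk _ a ↔ incj j x - inc F F a ∈ Q := by
    intro x a
    rw [← (RA_f_inj hQ).eq_iff, hr, RA_f_mk, Ideal.Quotient.eq]
  refine ⟨r, h1, ?_, ?_⟩
  · intro x
    rw [h1, incj_alg, sub_self]
    exact Q.zero_mem
  · ext x
    rw [RingHom.mem_ker, Ideal.mem_comap]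
    have h2 := h1 x 0
    rw [map_zero, map_zero, sub_zero] at h2
    exact h2
/- END RA -/

/- MODULE RB -/
private theorem RB_fin (F : Type) [Field F] [NumberField F] {x : Zbar F} (hx : x ≠ 0) :
    {v : Pl F | ∃ Q : Ideal (Zbar F), Over v Q ∧ x ∈ Q}.Finite := by
  have h0 : IsIntegral ℤ x :=
    (isIntegral_algebraMap_iff
      (Subtype.val_injective : Function.Injective (algebraMap (Zbar F) (Fbar F)))).1 x.2
  obtain ⟨a, ha, hd⟩ := h0.isAlgebraic.exists_nonzero_dvd (mem_nonZeroDivisors_of_ne_zero hx)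
  have ha' : (Ideal.span {((a : ℤ) : 𝓞 F)}) ≠ ⊥ := by
    rw [Ne, Ideal.span_singleton_eq_bot]
    exact_mod_cast ha
  refine (Ideal.finite_factors ha').subset ?_
  rintro v ⟨Q, hQ, hxQ⟩
  change v.asIdeal ∣ _
  rw [Ideal.dvd_span_singleton, ← comap_prime_eq hQ, Ideal.mem_comap, map_intCast]
  obtain ⟨c, hc⟩ := hd
  have h1 : ((a : ℤ) : Zbar F) = x * c := by
    rw [← hc]
    rfl
  rw [h1]
  exact Q.mul_mem_right _ hxQ

private theorem RB_ne {j k : L →ₐ[F] Fbar F} (h : j ≠ k) : ∃ x : 𝓞 L, incj j x - incj k x ≠ 0 := by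
  by_contra hcon
  push Not at hcon
  apply h
  apply AlgHom.ext
  intro z
  obtain ⟨x, y, hy, rfl⟩ := IsFractionRing.div_surjective (A := 𝓞 L) z
  have h1 : ∀ x : 𝓞 L, j (x : L) = k (x : L) := by
    intro x
    have h2 := hcon x
    rw [sub_eq_zero] at h2
    exact congrArg (fun u : Zbar F => (u : Fbar F)) h2
  change j ((x : L) / (y : L)) = k ((x : L) / (y : L))
  rw [map_div₀, map_div₀, h1, h1]

/-- **RB**. Outside a finite set of places different embeddings are different modulo `Q`.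

PROOF. (1) For `x : Zbar F`, `x ≠ 0`, the set of the `v` such that `x ∈ Q` for some `Q` over `v` is
finite: `x` is integral over `𝓞 F` and satisfies a monic polynomial with coefficients in `𝓞 F` and a
non zero constant coefficient `a` (for instance the minimal polynomial of `(x : Fbar F)` over `F`,
which has integral coefficients: `minpoly.isIntegrallyClosed_eq_field_fractions` for `𝓞 F`, its
constant coefficient is not zero because it is irreducible and `x ≠ 0`; or divide a monic polynomial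
by the largest power of `X`). `x ∈ Q` implies `inc F F a ∈ Q`, so `a ∈ v` (`comap_prime_eq`): finitely many
`v` (`Ideal.finite_factors`, see the proof of `hyp_apply` in CGQ/GalHyp.lean).
(2) For each of the finitely many pairs `j ≠ k` choose `x : 𝓞 L` with `incj j x ≠ incj k x` (the
elements of `L` are fractions of elements of `𝓞 L`), and apply (1) to the difference. -/
theorem emb_separate (F L : Type) [Field F] [NumberField F] [Field L] [NumberField L]
    [Algebra F L] : ∃ T : Set (Pl F), T.Finite ∧ ∀ v : Pl F, v ∉ T → ∀ Q : Ideal (Zbar F),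
      Over v Q → ∀ j k : L →ₐ[F] Fbar F, j ≠ k → ∃ x : 𝓞 L, incj j x - incj k x ∉ Q := by
  have hfd : FiniteDimensional F L := FiniteDimensional.right ℚ F L
  have hex : ∀ jk : (L →ₐ[F] Fbar F) × (L →ₐ[F] Fbar F), jk.1 ≠ jk.2 →
      ∃ x : 𝓞 L, incj jk.1 x - incj jk.2 x ≠ 0 := fun jk h => RB_ne h
  choose! X hX using hex
  have hfin : Finite ((L →ₐ[F] Fbar F) × (L →ₐ[F] Fbar F)) := inferInstance
  refine ⟨⋃ jk ∈ {jk : (L →ₐ[F] Fbar F) × (L →ₐ[F] Fbar F) | jk.1 ≠ jk.2},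
    {v : Pl F | ∃ Q : Ideal (Zbar F), Over v Q ∧ incj jk.1 (X jk) - incj jk.2 (X jk) ∈ Q},
    (Set.toFinite _).biUnion fun jk hjk => RB_fin F (hX jk hjk), ?_⟩
  intro v hv Q hQ j k hjk
  refine ⟨X (j, k), fun h => hv ?_⟩
  rw [Set.mem_iUnion₂]
  exact ⟨(j, k), hjk, Q, hQ, h⟩
/- END RB -/

/- MODULE RC -/
private theorem RC_notin {n : ℕ} {v : Pl F} (hvn : ((n : ℕ) : 𝓞 F) ∉ v.asIdeal)
    {Q : Ideal (Zbar F)} (hQ : Over v Q) : ((n : ℕ) : Zbar F) ∉ Q := by
  intro h
  apply hvn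
  rw [← comap_prime_eq hQ, Ideal.mem_comap, map_natCast]
  exact h

private theorem RC_unit (u : (𝓞 L)ˣ) (j : L →ₐ[F] Fbar F) : j ((u : 𝓞 L) : L) ≠ 0 := by
  rw [map_ne_zero]
  have := u.ne_zero
  exact_mod_cast this

/-- The quotient of the roots is an algebraic integer. -/
private theorem RC_int {n : ℕ} (hn : 0 < n) (u : (𝓞 L)ˣ) (j k : L →ₐ[F] Fbar F) :
    IsIntegral ℤ (rt n (j ((u : 𝓞 L) : L)) / rt n (k ((u : 𝓞 L) : L))) := by
  apply IsIntegral.of_pow hn
  rw [div_pow, rt_pow hn, rt_pow hn, div_eq_mul_inv]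
  have h1 : (k ((u : 𝓞 L) : L))⁻¹ = k (((u⁻¹ : (𝓞 L)ˣ) : 𝓞 L) : L) := by
    apply inv_eq_of_mul_eq_one_right
    rw [← map_mul]
    have h2 : ((u : 𝓞 L) : L) * (((u⁻¹ : (𝓞 L)ˣ) : 𝓞 L) : L) = 1 := by
      have h3 : (u : 𝓞 L) * ((u⁻¹ : (𝓞 L)ˣ) : 𝓞 L) = 1 := Units.mul_inv u
      have h4 := congrArg (fun t : 𝓞 L => (t : L)) h3
      simpa using h4
    rw [h2, map_one]
  rw [h1]
  have h2 : ∀ (i : L →ₐ[F] Fbar F) (x : 𝓞 L), IsIntegral ℤ (i (x : L)) := fun i x => (incj i x).2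
  exact (h2 j _).mul (h2 k _)

/-- The action on the quotient of the roots. -/
private theorem RC_act {n : ℕ} (hn : 0 < n) {y z : Fbar F} (hy : y ≠ 0) (hz : z ≠ 0)
    (g : GalF F) : g (rt n y / rt n z) = kz n y g / kz n z g * (rt n y / rt n z) := by
  have h1 := rt_ne hn hy
  have h2 := rt_ne hn hz
  have h3 : g (rt n z) ≠ 0 := (map_ne_zero g).2 h2
  rw [map_div₀, kz, kz]
  field_simp

/-- **RC** (1). PROOF. Take a primitive `n`-th root of unity, see the beginning of the proof of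
`power_residues` (`hdvd`). -/
theorem dvd_of_mu {n : ℕ} (hn : 0 < n) {v : Pl F} (hvn : ((n : ℕ) : 𝓞 F) ∉ v.asIdeal)
    {Q : Ideal (Zbar F)} (hQ : Over v Q) {g : GalF F} (hg : IsFrob v Q g) (hgμ : TrivMu n g) :
    n ∣ Nm v - 1 := by
  have hQp : Q.IsPrime := hQ.1
  have hn0 : NeZero n := ⟨hn.ne'⟩
  have hnc : NeZero ((n : ℕ) : Fbar F) := ⟨by exact_mod_cast hn.ne'⟩
  have hnQ : ((n : ℕ) : Zbar F) ∉ Q := RC_notin hvn hQ
  have hNv : 1 < Nm v := two_le_N v
  obtain ⟨ζ, hζ⟩ := HasEnoughRootsOfUnity.exists_primitiveRoot (Fbar F) n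
  have hζi : IsIntegral ℤ ζ := by
    apply IsIntegral.of_pow hn
    rw [hζ.pow_eq_one]
    exact isIntegral_one
  have h1 := hg ⟨ζ, hζi⟩ ⟨ζ, hζi⟩ (hgμ ζ hζ.pow_eq_one).symm
  set z : Zbar F := ⟨ζ, hζi⟩ with hz
  have hzn : z ^ n = 1 := Subtype.ext hζ.pow_eq_one
  have h2 : z ^ (Nm v - 1) - 1 ∈ Q := by
    have h3 : z ^ (n - 1) * (z - z ^ Nm v) ∈ Q := Q.mul_mem_left _ h1
    have h4 : z ^ (n - 1) * (z - z ^ Nm v) = -(z ^ (Nm v - 1) - 1) := by
      have h5 : z ^ Nm v = z * z ^ (Nm v - 1) := by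
        rw [← pow_succ']
        congr 1
        omega
      have h6 : z ^ (n - 1) * z = 1 := by
        rw [← pow_succ, Nat.sub_add_cancel hn, hzn]
      rw [h5, mul_sub, ← mul_assoc, h6]
      ring
    rw [h4, neg_mem_iff] at h3
    exact h3
  have h3 := root_one hnQ (z := z ^ (Nm v - 1)) (by
    rw [← pow_mul, mul_comm, pow_mul, hzn, one_pow]) h2
  have h4 : ζ ^ (Nm v - 1) = 1 := congrArg Subtype.val h3
  exact hζ.dvd_of_pow_eq_one _ h4

/-- **RC** (2). If the Frobenius element multiplies the roots of `j u` and `k u` by the same factor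
then the residues of `j u` and `k u` differ by an `n`-th power.

PROOF. Let `α = rt n (j u)`, `β = rt n (k u)`, algebraic integers, units. `x = α / β` is an algebraic
integer (`β⁻¹` is a root of the unit `k u⁻¹`), fixed by `g` (`kz_apply`). By `res_lift` there is
`a : 𝓞 F` with `inc a - x ∈ Q`, so `inc a ^ n * incj k u - incj j u ∈ Q`. -/
theorem res_pow {n : ℕ} (hn : 0 < n) (u : (𝓞 L)ˣ) {v : Pl F} {Q : Ideal (Zbar F)}
    (hQ : Over v Q) {g : GalF F} (hg : IsFrob v Q g) (hgμ : TrivMu n g)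
    (j k : L →ₐ[F] Fbar F)
    (h : kz n (j ((u : 𝓞 L) : L)) g = kz n (k ((u : 𝓞 L) : L)) g) :
    ∃ a : 𝓞 F, incj j (u : 𝓞 L) - inc F F a ^ n * incj k (u : 𝓞 L) ∈ Q := by
  have hj0 := RC_unit u j
  have hk0 := RC_unit u k
  have hact := RC_act hn hj0 hk0 g
  rw [h, div_self (kz_ne hn hk0 g), one_mul] at hact
  have hint := RC_int hn u j k
  obtain ⟨a, ha⟩ := res_lift hQ hg (x := ⟨_, hint⟩) hact
  set x : Zbar F := ⟨_, hint⟩ with hx
  have hxn : x ^ n * incj k (u : 𝓞 L) = incj j (u : 𝓞 L) := by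
    apply Subtype.ext
    change (rt n (j ((u : 𝓞 L) : L)) / rt n (k ((u : 𝓞 L) : L))) ^ n * k ((u : 𝓞 L) : L)
      = j ((u : 𝓞 L) : L)
    rw [div_pow, rt_pow hn, rt_pow hn, div_mul_cancel₀ _ hk0]
  refine ⟨a, ?_⟩
  have h1 : incj j (u : 𝓞 L) - inc F F a ^ n * incj k (u : 𝓞 L) =
      -((inc F F a ^ n - x ^ n) * incj k (u : 𝓞 L)) := by
    rw [sub_mul, hxn, neg_sub]
  rw [h1, neg_mem_iff]
  refine Q.mul_mem_right _ ?_
  obtain ⟨c, hc⟩ := sub_dvd_pow_sub_pow (inc F F a) x n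
  rw [hc]
  exact Q.mul_mem_right _ ha

/-- **RC** (3). Conversely.

PROOF. Let `θ = rt n (j e)`, `η = rt n (k e)`, `x = θ / η`, `z = kz n (j e) g / kz n (k e) g`: `g x = z * x`,
`z ^ n = 1`; `x`, `x⁻¹`, `z` are algebraic integers. `x ^ n = j e / k e`. Let `N = Nm v`, `n * m = N - 1`.
`z x - x ^ N ∈ Q` (`hg`), so `z - x ^ (N - 1) ∈ Q`; and `x ^ (N - 1) = (x ^ n) ^ m` is congruent to
`(inc a ^ n) ^ m = inc a ^ (N - 1)`, which is congruent to 1 because `a ∉ v` (`incj j e` is a unit) and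
`a ^ N - a ∈ v` (finite field with `N` elements). So `z - 1 ∈ Q`, and `root_one` (CGQ/GalPR.lean) gives
`z = 1`. (Compare the last part of the proof of `power_residues`.) -/
theorem not_res_pow {n : ℕ} (hn : 0 < n) (e : (𝓞 L)ˣ) {v : Pl F}
    (hvn : ((n : ℕ) : 𝓞 F) ∉ v.asIdeal) {Q : Ideal (Zbar F)}
    (hQ : Over v Q) {g : GalF F} (hg : IsFrob v Q g) (hgE : g ∈ HE L n)
    (j k : L →ₐ[F] Fbar F) {a : 𝓞 F}
    (h : incj j (e : 𝓞 L) - inc F F a ^ n * incj k (e : 𝓞 L) ∈ Q) :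
    kz n (j ((e : 𝓞 L) : L)) g = kz n (k ((e : 𝓞 L) : L)) g := by
  have hQp : Q.IsPrime := hQ.1
  obtain ⟨hgL, hgμ⟩ := (mem_HE L).1 hgE
  have hnQ : ((n : ℕ) : Zbar F) ∉ Q := RC_notin hvn hQ
  have hNv : 1 < Nm v := two_le_N v
  obtain ⟨m, hm⟩ := dvd_of_mu hn hvn hQ hg hgμ
  have hj0 := RC_unit e j
  have hk0 := RC_unit e k
  have hact := RC_act hn hj0 hk0 g
  have hact' := RC_act hn hk0 hj0 g
  have hkzj := kz_ne hn hj0 g
  have hkzk := kz_ne hn hk0 g
  set z := kz n (j ((e : 𝓞 L) : L)) g / kz n (k ((e : 𝓞 L) : L)) g with hz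
  have hzn : z ^ n = 1 := by
    rw [hz, div_pow, kz_pow hn hj0 (hgL j _), kz_pow hn hk0 (hgL k _), div_one]
  have hzi : IsIntegral ℤ z := by
    apply IsIntegral.of_pow hn
    rw [hzn]
    exact isIntegral_one
  have hint := RC_int hn e j k
  have hint' := RC_int hn e k j
  set x : Zbar F := ⟨_, hint⟩ with hx
  set x' : Zbar F := ⟨_, hint'⟩ with hx'
  set z' : Zbar F := ⟨z, hzi⟩ with hz'
  have hrj := rt_ne hn hj0
  have hrk := rt_ne hn hk0
  have hxx : x' * x = 1 := by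
    apply Subtype.ext
    change (rt n (k ((e : 𝓞 L) : L)) / rt n (j ((e : 𝓞 L) : L))) *
      (rt n (j ((e : 𝓞 L) : L)) / rt n (k ((e : 𝓞 L) : L))) = 1
    field_simp
  have h1 : z' * x - x ^ Nm v ∈ Q := hg x (z' * x) hact.symm
  have h2 : z' - x ^ (Nm v - 1) ∈ Q := by
    have h3 := Q.mul_mem_left x' h1
    have h4 : x ^ Nm v = x * x ^ (Nm v - 1) := by
      rw [← pow_succ']
      congr 1
      omega
    have h5 : x' * (z' * x - x ^ Nm v) = z' - x ^ (Nm v - 1) := by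
      rw [h4]
      linear_combination (z' - x ^ (Nm v - 1)) * hxx
    rwa [h5] at h3
  have hxn : x ^ n * incj k (e : 𝓞 L) = incj j (e : 𝓞 L) := by
    apply Subtype.ext
    change (rt n (j ((e : 𝓞 L) : L)) / rt n (k ((e : 𝓞 L) : L))) ^ n * k ((e : 𝓞 L) : L)
      = j ((e : 𝓞 L) : L)
    rw [div_pow, rt_pow hn, rt_pow hn, div_mul_cancel₀ _ hk0]
  have hunit : ∀ i : L →ₐ[F] Fbar F, incj i (e : 𝓞 L) ∉ Q := by
    intro i hi
    exact hQp.ne_top (Ideal.eq_top_of_isUnit_mem _ hi (e.isUnit.map (incj i)))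
  have h6 : x ^ n - inc F F a ^ n ∈ Q := by
    have h7 : (x ^ n - inc F F a ^ n) * incj k (e : 𝓞 L) ∈ Q := by
      rw [sub_mul, hxn]
      exact h
    exact (hQp.mem_or_mem h7).resolve_right (hunit k)
  have h7 : (x ^ n) ^ m - (inc F F a ^ n) ^ m ∈ Q := by
    obtain ⟨c, hc⟩ := sub_dvd_pow_sub_pow (x ^ n) (inc F F a ^ n) m
    rw [hc]
    exact Q.mul_mem_right _ h6
  have hav : inc F F a ∉ Q := by
    intro hi
    apply hunit j
    have h8 := Q.add_mem h (Q.mul_mem_right (incj k (e : 𝓞 L)) (Q.pow_mem_of_mem hi n hn))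
    rwa [sub_add_cancel] at h8
  have haN : inc F F a ^ (Nm v - 1) - 1 ∈ Q := by
    have h3 := RA_pow v (Ideal.Quotient.mk _ a)
    rw [← map_pow, Ideal.Quotient.eq, ← comap_prime_eq hQ, Ideal.mem_comap, map_sub, map_pow] at h3
    have h4 : inc F F a ^ Nm v - inc F F a = inc F F a * (inc F F a ^ (Nm v - 1) - 1) := by
      rw [mul_sub, ← pow_succ', mul_one]
      congr 2
      omega
    rw [h4] at h3
    exact (hQp.mem_or_mem h3).resolve_left hav
  have h8 : z' - 1 ∈ Q := by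
    have h9 := Q.add_mem (Q.add_mem h2 h7) haN
    have h10 : z' - x ^ (Nm v - 1) + ((x ^ n) ^ m - (inc F F a ^ n) ^ m) +
        (inc F F a ^ (Nm v - 1) - 1) = z' - 1 := by
      rw [hm, pow_mul x, pow_mul (inc F F a)]
      ring
    rwa [h10] at h9
  have h11 := root_one hnQ (z := z') (Subtype.ext hzn) h8
  have h12 : z = 1 := congrArg Subtype.val h11
  rw [hz, div_eq_one_iff_eq hkzk] at h12
  exact h12
/- END RC -/

/- MODULE RH -/
/-- **RH**. The hypothesis in terms of Frobenius elements.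

PROOF. `T' = T ∪ {v | (p : 𝓞 F) ∈ v} ∪ T₀`, `T₀` from `emb_separate`. For `v ∉ T'`, `Q`, `g` as in the
statement let `r' j` be given by `res_hom`, `φ : Fin d ≃ (L →ₐ[F] Fbar F)` (`hL`, `AlgHom.card`), and apply
`hH` with `r i = r' (φ i)`, `W i = w (φ i)`. `r` is injective: if `r' j = r' k` with `j ≠ k` then
for the `x` of `emb_separate` choose `a` with `r' j x = mk a`: `incj j x - inc a ∈ Q` and
`incj k x - inc a ∈ Q`, contradiction. `p ^ M ∣ Nm v - 1`: `dvd_of_mu`. The conditions on `u` and `e`: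
`res_pow`, `not_res_pow` (every element of `𝓞 F ⧸ v` is `mk a`). `g ^ (1 : ℤ) = g`, and the product is
transformed by `φ` (`Equiv.prod_comp`). -/
theorem hyp_apply {p d : ℕ} (hp : p.Prime) (hL : Module.finrank F L = d)
    {ρ : GalF F →* GL (Fin d) κ} {u e : (𝓞 L)ˣ} {χ : Pl L → κ} {T : Set (Pl F)}
    (hT : T.Finite) (hH : HypN 1 p ρ u e χ T) :
    ∃ T' : Set (Pl F), T'.Finite ∧ T ⊆ T' ∧ ∀ (M : ℕ) (v : Pl F), v ∉ T' → (Nm v).Prime →
      ∀ Q : Ideal (Zbar F), Over v Q → ∀ g : GalF F, IsFrob v Q g → g ∈ HE L (p ^ M) →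
      (∀ j k : L →ₐ[F] Fbar F, kz (p ^ M) (j ((u : 𝓞 L) : L)) g =
        kz (p ^ M) (k ((u : 𝓞 L) : L)) g) →
      (∀ j k : L →ₐ[F] Fbar F, j ≠ k → kz (p ^ M) (j ((e : 𝓞 L) : L)) g ≠
        kz (p ^ M) (k ((e : 𝓞 L) : L)) g) →
      ∀ w : (L →ₐ[F] Fbar F) → Pl L, (∀ j, (w j).asIdeal = Q.comap (incj j)) →
      (ρ g : Matrix (Fin d) (Fin d) κ).charpoly =
        ∏ j, (Polynomial.X - Polynomial.C (χ (w j))) := by
  classical
  have hfd : FiniteDimensional F L := FiniteDimensional.right ℚ F L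
  have hcard : Fintype.card (L →ₐ[F] Fbar F) = d := by
    rw [AlgHom.card F L (Fbar F), hL]
  let φ : Fin d ≃ (L →ₐ[F] Fbar F) := (Fintype.equivFinOfCardEq hcard).symm
  have hp0 : (Ideal.span {((p : ℕ) : 𝓞 F)}) ≠ ⊥ := by
    rw [Ne, Ideal.span_singleton_eq_bot]
    exact_mod_cast hp.ne_zero
  have hpf : {v : Pl F | ((p : ℕ) : 𝓞 F) ∈ v.asIdeal}.Finite := by
    refine (Ideal.finite_factors hp0).subset fun w hw => ?_
    exact Ideal.dvd_span_singleton.2 hw
  obtain ⟨T0, hT0, hsep⟩ := emb_separate F L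
  refine ⟨T ∪ {v : Pl F | ((p : ℕ) : 𝓞 F) ∈ v.asIdeal} ∪ T0,
    (hT.union hpf).union hT0, fun v hv => Or.inl (Or.inl hv), ?_⟩
  intro M v hv hvp Q hQ g hg hgE hu he w hw
  have hvT : v ∉ T := fun h => hv (Or.inl (Or.inl h))
  have hvp' : ((p : ℕ) : 𝓞 F) ∉ v.asIdeal := fun h => hv (Or.inl (Or.inr h))
  have hvT0 : v ∉ T0 := fun h => hv (Or.inr h)
  obtain ⟨hgL, hgμ⟩ := (mem_HE L).1 hgE
  have hpM : ((p ^ M : ℕ) : 𝓞 F) ∉ v.asIdeal := by
    intro h
    rw [Nat.cast_pow] at h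
    exact hvp' (v.isPrime.mem_of_pow_mem _ h)
  have hpos : 0 < p ^ M := pow_pos hp.pos M
  choose r hr1 hr2 hr3 using fun j : L →ₐ[F] Fbar F => res_hom hQ hg hgL j
  have hinj : Function.Injective fun i => r (φ i) := by
    intro i i' hii
    by_contra hne
    have hne' : φ i ≠ φ i' := fun h => hne (φ.injective h)
    obtain ⟨x, hx⟩ := hsep v hvT0 Q hQ _ _ hne'
    obtain ⟨a, ha⟩ := Ideal.Quotient.mk_surjective (r (φ i) x)
    have h1 := (hr1 (φ i) x a).1 ha.symm
    have h2 := (hr1 (φ i') x a).1 (by rw [ha]; exact (DFunLike.congr_fun hii x).symm)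
    apply hx
    have h3 := Q.sub_mem h1 h2
    rwa [sub_sub_sub_cancel_right] at h3
  have key : ∀ (j k : L →ₐ[F] Fbar F) (s : (𝓞 L)ˣ) (a : 𝓞 F),
      r j s = (Ideal.Quotient.mk _ a) ^ (p ^ M) * r k s ↔
        incj j (s : 𝓞 L) - inc F F a ^ (p ^ M) * incj k (s : 𝓞 L) ∈ Q := by
    intro j k s a
    obtain ⟨b, hb⟩ := Ideal.Quotient.mk_surjective (r k s)
    have h1 := (hr1 k s b).1 hb.symm
    rw [← hb, ← map_pow, ← map_mul, hr1, map_mul, map_pow]
    have h2 : inc F F a ^ (p ^ M) * (incj k (s : 𝓞 L) - inc F F b) ∈ Q := Q.mul_mem_left _ h1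
    constructor
    · intro h3
      have h4 := Q.sub_mem h3 h2
      have h5 : incj j (s : 𝓞 L) - inc F F a ^ (p ^ M) * inc F F b -
          inc F F a ^ (p ^ M) * (incj k (s : 𝓞 L) - inc F F b) =
          incj j (s : 𝓞 L) - inc F F a ^ (p ^ M) * incj k (s : 𝓞 L) := by ring
      rwa [h5] at h4
    · intro h3
      have h4 := Q.add_mem h3 h2
      have h5 : incj j (s : 𝓞 L) - inc F F a ^ (p ^ M) * incj k (s : 𝓞 L) +
          inc F F a ^ (p ^ M) * (incj k (s : 𝓞 L) - inc F F b) =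
          incj j (s : 𝓞 L) - inc F F a ^ (p ^ M) * inc F F b := by ring
      rwa [h5] at h4
  have hmain := hH v hvT hvp (fun i => r (φ i)) (fun i x => hr2 (φ i) x) hinj (fun i => w (φ i))
    (fun i => by rw [hw, hr3]) M (dvd_of_mu hpos hpM hQ hg hgμ)
    (fun i i' => by
      obtain ⟨a, ha⟩ := res_pow hpos u hQ hg hgμ (φ i) (φ i') (hu _ _)
      exact ⟨Ideal.Quotient.mk _ a, (key _ _ _ _).2 ha⟩)
    (fun i i' hii => by
      rintro ⟨y, hy⟩
      obtain ⟨a, rfl⟩ := Ideal.Quotient.mk_surjective y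
      have h1 := (key _ _ _ _).1 hy
      exact he _ _ (fun h => hii (φ.injective h))
        (not_res_pow hpos e hpM hQ hg hgE (φ i) (φ i') h1)) Q hQ g hg
  rw [Units.val_one, zpow_one] at hmain
  rw [hmain]
  exact Equiv.prod_comp φ (fun j => Polynomial.X - Polynomial.C (χ (w j)))
/- END RH -/

end Pool.Agent.CGN
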