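import Pool.Agent.CGN.GalDef
import Pool.Agent.CGQ.GalSO

/-!
# Open normal subgroups
-/

noncomputable section

set_option linter.unusedSectionVars false

namespace Pool.Agent.CGN

open NumberField IsDedekindDomain Matrix Pool.Agent.CG2 Pool.Agent.CG2.GalFinAux
  Pool.Agent.CG2.GalInfAux Pool.Agent.CGQ

variable {F : Type} [Field F] [NumberField F]

/-- Any two embeddings differ by an automorphism. -/
theorem exists_gal {L : Type} [Field L] [NumberField L] [Algebra F L] (j k : L →ₐ[F] Fbar F) :
    ∃ g : GalF F, ∀ x : L, g (j x) = k x := by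
  let := j.toRingHom.toAlgebra
  have : IsScalarTower F L (Fbar F) :=
    IsScalarTower.of_algebraMap_eq fun x => (j.commutes x).symm
  let f : Fbar F →ₐ[F] Fbar F := k.liftNormal (Fbar F)
  have hf : ∀ x : L, f (j x) = k x := fun x => k.liftNormal_commutes (Fbar F) x
  have hb : Function.Bijective f := Algebra.IsAlgebraic.algHom_bijective f
  exact ⟨AlgEquiv.ofBijective f hb, hf⟩

/- MODULE ON -/
private theorem ON_roots {n : ℕ} (hn : 0 < n) (c : Fbar F) : {x : Fbar F | x ^ n = c}.Finite := by
  classical
  refine (Polynomial.nthRoots n c).toFinset.finite_toSet.subset fun x hx => ?_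
  rw [Finset.mem_coe, Multiset.mem_toFinset, Polynomial.mem_nthRoots hn]
  exact hx

private theorem ON_fix {s : Set (Fbar F)} (hs : s.Finite) :
    IsOpen ((IntermediateField.adjoin F s).fixingSubgroup : Set (GalF F)) := by
  have hs' : Finite s := hs.to_subtype
  have : FiniteDimensional F (IntermediateField.adjoin F s) :=
    IntermediateField.finiteDimensional_adjoin
      (fun x _ => (Algebra.IsAlgebraic.isAlgebraic (R := F) x).isIntegral)
  exact IntermediateField.fixingSubgroup_isOpen _

/-- **ON** (1). PROOF. `g⁻¹ z` is again an `n`-th root of unity. -/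
instance HMu_normal (n : ℕ) : (HMu F n).Normal := by
  refine ⟨fun h hh g => ?_⟩
  rw [mem_HMu] at hh ⊢
  intro z hz
  have h1 : (g⁻¹ z) ^ n = 1 := by rw [← map_pow, hz, map_one]
  rw [AlgEquiv.mul_apply, AlgEquiv.mul_apply, hh _ h1, ← AlgEquiv.mul_apply, mul_inv_cancel]
  rfl

/-- **ON** (2). PROOF. A kernel and `HMu`. -/
instance HE_normal (L : Type) [Field L] [NumberField L] [Algebra F L] (n : ℕ) :
    (HE (F := F) L n).Normal := by
  unfold HE
  exact Subgroup.normal_inf_normal _ _

/-- **ON** (3). PROOF. If `x ^ n = j t` then `(g⁻¹ x) ^ n = (g⁻¹ ∘ j) t`. -/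
instance HR_normal {L : Type} [Field L] [NumberField L] [Algebra F L] (n : ℕ) (t : L) :
    (HR F n t).Normal := by
  refine ⟨fun h hh g => ?_⟩
  rw [mem_HR] at hh ⊢
  intro j x hx
  have h1 : (g⁻¹ x) ^ n = eact L g⁻¹ j t := by rw [← map_pow, hx, eact_apply]
  rw [AlgEquiv.mul_apply, AlgEquiv.mul_apply, hh _ _ h1, ← AlgEquiv.mul_apply, mul_inv_cancel]
  rfl

/-- **ON** (4). PROOF. Intersection of normal subgroups. -/
instance HN_normal {L : Type} [Field L] [NumberField L] [Algebra F L] (n : ℕ) (u e : L) :
    (HN F n u e).Normal := by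
  unfold HN
  have : (HE (F := F) L n ⊓ HR F n u).Normal := Subgroup.normal_inf_normal _ _
  exact Subgroup.normal_inf_normal _ _

/-- **ON** (5). PROOF. See `HZ_open` in CGQ/GalSO.lean: it contains the fixing subgroup of the field
generated by a finite set (`so_fix` there is private, copy it): the `j b` for the finitely many `j`
and the elements `b` of a basis of `L`. -/
theorem ker_eact_open (L : Type) [Field L] [NumberField L] [Algebra F L] :
    IsOpen ((eact (F := F) L).ker : Set (GalF F)) := by
  classical
  have hfL : FiniteDimensional F L := Module.Finite.of_restrictScalars_finite ℚ F L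
  let b := Module.finBasis F L
  let s : Set (Fbar F) := ⋃ j : L →ₐ[F] Fbar F, Set.range (fun i => j (b i))
  have hs : s.Finite := Set.finite_iUnion fun j => Set.finite_range _
  refine Subgroup.isOpen_mono (H₁ := (IntermediateField.adjoin F s).fixingSubgroup) ?_ (ON_fix hs)
  intro g hg
  rw [IntermediateField.mem_fixingSubgroup_iff] at hg
  have hgs : ∀ x ∈ s, g x = x := fun x hx => hg x (IntermediateField.subset_adjoin F s hx)
  rw [mem_eact_ker]
  intro j x
  have h1 : j x = ∑ i, b.repr x i • j (b i) := by
    conv_lhs => rw [← b.sum_repr x]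
    rw [map_sum]
    refine Finset.sum_congr rfl fun i _ => ?_
    rw [Algebra.smul_def, map_mul, AlgHom.commutes, Algebra.smul_def]
  rw [h1, map_sum]
  refine Finset.sum_congr rfl fun i _ => ?_
  rw [Algebra.smul_def, map_mul, AlgEquiv.commutes, hgs _ (Set.mem_iUnion.2 ⟨j, i, rfl⟩)]

/-- **ON** (6). PROOF. The same for the finite set of all `n`-th roots of all `j t`. -/
theorem HR_open {L : Type} [Field L] [NumberField L] [Algebra F L] {n : ℕ} (hn : 0 < n) (t : L) :
    IsOpen (HR F n t : Set (GalF F)) := by
  classical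
  have hfL : FiniteDimensional F L := Module.Finite.of_restrictScalars_finite ℚ F L
  let s : Set (Fbar F) := ⋃ j : L →ₐ[F] Fbar F, {x : Fbar F | x ^ n = j t}
  have hs : s.Finite := Set.finite_iUnion fun j => ON_roots hn _
  refine Subgroup.isOpen_mono (H₁ := (IntermediateField.adjoin F s).fixingSubgroup) ?_ (ON_fix hs)
  intro g hg
  rw [IntermediateField.mem_fixingSubgroup_iff] at hg
  rw [mem_HR]
  intro j x hx
  exact hg x (IntermediateField.subset_adjoin F s (Set.mem_iUnion.2 ⟨j, hx⟩))

/-- **ON** (7). PROOF. Intersection (`HMu_open`). -/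
theorem HN_open {L : Type} [Field L] [NumberField L] [Algebra F L] {n : ℕ} (hn : 0 < n)
    (u e : L) : IsOpen (HN F n u e : Set (GalF F)) := by
  have h1 : ((HN F n u e : Subgroup (GalF F)) : Set (GalF F))
      = ((((eact (F := F) L).ker : Subgroup (GalF F)) : Set (GalF F)) ∩ (HMu F n : Set (GalF F)))
        ∩ (HR F n u : Set (GalF F)) ∩ (HR F n e : Set (GalF F)) := rfl
  rw [h1]
  exact (((ker_eact_open L).inter (HMu_open hn)).inter (HR_open hn u)).inter (HR_open hn e)
/- END ON -/

end Pool.Agent.CGN
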