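import Pool.Agent.CGN.GalKz
import Pool.Agent.CGN.GalOpen
import Pool.Agent.CGQ.GalLam
import Pool.Agent.CGQ.GalTau

/-!
# The element tau and the auxiliary prime
-/

noncomputable section

set_option linter.unusedSectionVars false

namespace Pool.Agent.CGN

open NumberField IsDedekindDomain Matrix Pool.Agent.CG2 Pool.Agent.CG2.GalFinAux
  Pool.Agent.CG2.GalInfAux Pool.Agent.CGQ

variable {F : Type} [Field F] [NumberField F] {L : Type} [Field L] [NumberField L] [Algebra F L]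

/- MODULE TA -/
private theorem TA_adj {q : ℕ} (hq : q.Prime) {ζ : Fbar F} (hζ : IsPrimitiveRoot ζ q)
    (H : Subgroup (GalF F)) (hlam : ∀ a : ℕ, a.Coprime q → ∃ h ∈ H, h ζ = ζ ^ a) (g : GalF F) :
    ∃ h ∈ H, (g * h) ζ = ζ := by
  have : Fact q.Prime := ⟨hq⟩
  have h1 : IsPrimitiveRoot (g ζ) q := hζ.map_of_injective (f := g.toRingHom) g.injective
  obtain ⟨b, hb, hb'⟩ := hζ.eq_pow_of_pow_eq_one h1.pow_eq_one
  have hbc : b.Coprime q := by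
    rw [← hb'] at h1
    exact (hζ.pow_iff_coprime hq.pos b).1 h1
  let b' : ℕ := ((ZMod.unitOfCoprime b hbc)⁻¹ : (ZMod q)ˣ).val.val
  have hb'c : b'.Coprime q := ZMod.val_coe_unit_coprime _
  obtain ⟨h, hh, hhζ⟩ := hlam b' hb'c
  refine ⟨h, hh, ?_⟩
  rw [AlgEquiv.mul_apply, hhζ, map_pow, ← hb', ← pow_mul]
  have h2 : b * b' ≡ 1 [MOD q] := by
    rw [← ZMod.natCast_eq_natCast_iff]
    push_cast
    simp only [b', ZMod.natCast_val, ZMod.cast_id', id_eq]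
    have := Units.mul_inv (ZMod.unitOfCoprime b hbc)
    rwa [ZMod.coe_unitOfCoprime] at this
  rw [pow_eq_pow_of_modEq h2 hζ.pow_eq_one, pow_one]

private theorem TA_mu {q : ℕ} {ζ : Fbar F} (hq : 0 < q) (hζ : IsPrimitiveRoot ζ q) {g : GalF F}
    (hg : g ζ = ζ) : TrivMu q g := by
  intro z hz
  have : NeZero q := ⟨hq.ne'⟩
  obtain ⟨b, hb, rfl⟩ := hζ.eq_pow_of_pow_eq_one hz
  rw [map_pow, hg]

private theorem TA_pow_zeta {a : GalF F} {ζ : Fbar F} {γ : ℕ} (h : a ζ = ζ ^ γ) (k : ℕ) :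
    (a ^ k) ζ = ζ ^ (γ ^ k) := by
  induction k with
  | zero => simp
  | succ k ih =>
    rw [pow_succ', AlgEquiv.mul_apply, ih, map_pow, h, ← pow_mul, pow_succ']

/-- **TA**. The elements `τ` and the auxiliary prime `q`.

PROOF. (Copy `exists_tau` of CGQ/GalTau.lean; its private lemmas `TAU_adj`, `TAU_mu`, `TAU_pow_zeta`
are needed, under new names.) Let `H = ρ.ker ⊓ HN F (p ^ M) u e`, open and normal (`HN_open`,
`HN_normal`), `N₁` its fixed field (`fixedField_open`). `exists_lam N₁ m 0` gives `q` with `m ∣ q - 1`. Let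
`ζ` be a primitive `q`-th root of unity, `γ : ℕ` prime to `q` whose class in `(ZMod q)ˣ` has order `m`,
and `lam ∈ H` with `lam ζ = ζ ^ γ`. (ADJ) for every `g : GalF F` there is `h ∈ H` with `(g * h) ζ = ζ`.
Take `h1, h2 ∈ H` for `σ₀` and `s` and put `τ = (σ₀ * h1) * (s * h2) * lam`. `ρ τ = ρ s`; `τ ∈ HE`;
`kz (p ^ M) y τ = kz (p ^ M) y σ₀` for `y = j u, j e` (`kz_mul`, and `kz_eq_one_iff`: the factor of `s` and of
the elements of `H` is 1). `τ ζ = ζ ^ γ`, so `(τ ^ i) ζ = ζ ^ (γ ^ i)` is `ζ` iff `m ∣ i`.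
Let `e0 ≡ 1` modulo `m`, `e0 ≡ 0` modulo `p ^ M` (`Nat.chineseRemainder`).
`kz (p ^ M) y (τ ^ e0) = kz (p ^ M) y σ₀ ^ e0 = 1` (`kz_npow`, `kz_pow`): `τ ^ e0 ∈ HN`.
Let `π` be given, `c₀` from `hS`, `c = c₀ * h3`, `h3 ∈ H`, `c ζ = ζ` (ADJ); `eact L c = π`, `ρ c = 1`.
`D = c * τ ^ e0 * c⁻¹ * (τ ^ e0)⁻¹`: `ρ D = 1` (`ρ c = 1`), `D ∈ HN` (normal), `D ζ = ζ` (`c` is trivial on the
`q`-th roots of unity, so `(c * τ ^ e0 * c⁻¹) ζ = (τ ^ e0) ζ`, the same for all `q`-th roots of unity). -/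
theorem exists_tau {p m M : ℕ} (hp : p.Prime) (hm : 0 < m) (hpm : p.Coprime m)
    {G : Type} [Group G] (ρ : GalF F →* G) (hρ : IsOpen (ρ.ker : Set (GalF F))) {u e : L}
    (hu : u ≠ 0) (he : e ≠ 0)
    (hS : ∀ π : Equiv.Perm (L →ₐ[F] Fbar F), ∃ c : GalF F, ρ c = 1 ∧ eact L c = π)
    {σ₀ s : GalF F} (hσ₀ : ρ σ₀ = 1) (hσE : σ₀ ∈ HE L (p ^ M))
    (hs : s ∈ HN F (p ^ M) u e) (hsm : ρ s ^ m = 1) :
    ∃ (q : ℕ) (ζ : Fbar F) (τ : GalF F) (e0 : ℕ), q.Prime ∧ IsPrimitiveRoot ζ q ∧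
      ρ τ = ρ s ∧ τ ∈ HE L (p ^ M) ∧
      (∀ j : L →ₐ[F] Fbar F, kz (p ^ M) (j u) τ = kz (p ^ M) (j u) σ₀) ∧
      (∀ j : L →ₐ[F] Fbar F, kz (p ^ M) (j e) τ = kz (p ^ M) (j e) σ₀) ∧
      (∀ i : ℕ, (τ ^ i) ζ = ζ ↔ m ∣ i) ∧
      ρ (τ ^ (p ^ M * m)) = 1 ∧ τ ^ (p ^ M * m) ∈ HN F (p ^ M) u e ∧
      (τ ^ (p ^ M * m)) ζ = ζ ∧ e0 ≡ 1 [MOD m] ∧
      ∀ π : Equiv.Perm (L →ₐ[F] Fbar F), ∃ c : GalF F, eact L c = π ∧
        ρ (c * τ ^ e0 * c⁻¹ * (τ ^ e0)⁻¹) = 1 ∧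
        c * τ ^ e0 * c⁻¹ * (τ ^ e0)⁻¹ ∈ HN F (p ^ M) u e ∧
        (c * τ ^ e0 * c⁻¹ * (τ ^ e0)⁻¹) ζ = ζ := by
  classical
  have hn : 0 < p ^ M := pow_pos hp.pos M
  set H : Subgroup (GalF F) := ρ.ker ⊓ HN F (p ^ M) u e with hHdef
  have hHn : H.Normal := inferInstance
  have hHo : IsOpen (H : Set (GalF F)) := by
    rw [hHdef, Subgroup.coe_inf]
    exact hρ.inter (HN_open hn u e)
  obtain ⟨hfd, hgal, hfix, hmemH⟩ := fixedField_open H hHo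
  obtain ⟨q, hq, hmq, -, hlam⟩ := exists_lam (IntermediateField.fixedField H) m 0 hm
  have : Fact q.Prime := ⟨hq⟩
  have : NeZero ((q : ℕ) : Fbar F) := ⟨by exact_mod_cast hq.ne_zero⟩
  obtain ⟨ζ, hζ⟩ := HasEnoughRootsOfUnity.exists_primitiveRoot (Fbar F) q
  have hlamH : ∀ a : ℕ, a.Coprime q → ∃ h ∈ H, h ζ = ζ ^ a := by
    intro a ha
    obtain ⟨g, hg, hgζ⟩ := hlam ζ hζ a ha
    exact ⟨g, (hmemH g).1 hg, hgζ⟩
  -- the unit of order m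
  obtain ⟨γu, hγu⟩ : ∃ γu : (ZMod q)ˣ, orderOf γu = m := by
    obtain ⟨g, hg⟩ := IsCyclic.exists_ofOrder_eq_natCard (α := (ZMod q)ˣ)
    have h1 : Nat.card (ZMod q)ˣ = q - 1 := by
      rw [Nat.card_eq_fintype_card, ZMod.card_units]
    rw [h1] at hg
    obtain ⟨k, hk⟩ := hmq
    refine ⟨g ^ k, ?_⟩
    have hq1 : 0 < q - 1 := by have := hq.two_le; omega
    have hk0 : k ≠ 0 := by
      rintro rfl
      omega
    rw [orderOf_pow_of_dvd hk0 (by rw [hg, hk]; exact Dvd.intro_left m rfl), hg, hk]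
    exact Nat.mul_div_cancel _ (Nat.pos_of_ne_zero hk0)
  set γ : ℕ := (γu : ZMod q).val with hγ
  have hγc : γ.Coprime q := ZMod.val_coe_unit_coprime _
  have hγcast : ((γ : ℕ) : ZMod q) = (γu : ZMod q) := by
    rw [hγ, ZMod.natCast_val, ZMod.cast_id', id_eq]
  obtain ⟨lam, hlamH', hlamζ⟩ := hlamH γ hγc
  obtain ⟨h1, hh1, h1ζ⟩ := TA_adj hq hζ H hlamH σ₀
  obtain ⟨h2, hh2, h2ζ⟩ := TA_adj hq hζ H hlamH s
  -- elements of H
  have hHρ : ∀ h ∈ H, ρ h = 1 := fun h hh => hh.1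
  have hHN : ∀ h ∈ H, h ∈ HN F (p ^ M) u e := fun h hh => hh.2
  have hHE : ∀ h ∈ H, h ∈ HE L (p ^ M) := fun h hh => (mem_HN.1 hh.2).1
  have hsE : s ∈ HE L (p ^ M) := (mem_HN.1 hs).1
  have hfixE : ∀ g ∈ HE (F := F) L (p ^ M), ∀ (j : L →ₐ[F] Fbar F) (x : L), g (j x) = j x :=
    fun g hg => ((mem_HE L).1 hg).1
  have hmuE : ∀ g ∈ HE (F := F) L (p ^ M), TrivMu (p ^ M) g := fun g hg => ((mem_HE L).1 hg).2
  -- the Kummer factors of elements of HN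
  have hkN : ∀ t : L, t ≠ 0 → ∀ g ∈ HE (F := F) L (p ^ M), g ∈ HR F (p ^ M) t → ∀ j : L →ₐ[F] Fbar F,
      kz (p ^ M) (j t) g = 1 := by
    intro t ht g hg hgt j
    have hjt : j t ≠ 0 := (map_ne_zero j).2 ht
    exact (kz_eq_one_iff hn hjt (hmuE g hg)).2 fun x hx => hgt j x hx
  set τ : GalF F := (σ₀ * h1) * (s * h2) * lam with hτ
  have hτE : τ ∈ HE L (p ^ M) :=
    (HE L (p ^ M)).mul_mem ((HE L (p ^ M)).mul_mem
      ((HE L (p ^ M)).mul_mem hσE (hHE _ hh1)) ((HE L (p ^ M)).mul_mem hsE (hHE _ hh2)))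
      (hHE _ hlamH')
  have hρτ : ρ τ = ρ s := by
    rw [hτ, map_mul, map_mul, map_mul, map_mul, hσ₀, hHρ _ hh1, hHρ _ hh2, hHρ _ hlamH']
    simp
  have hτζ : τ ζ = ζ ^ γ := by
    rw [hτ, AlgEquiv.mul_apply, hlamζ, map_pow, AlgEquiv.mul_apply, h2ζ, h1ζ]
  have hkτ : ∀ t : L, t ≠ 0 → (∀ h ∈ HN F (p ^ M) u e, h ∈ HR F (p ^ M) t) →
      ∀ j : L →ₐ[F] Fbar F, kz (p ^ M) (j t) τ = kz (p ^ M) (j t) σ₀ := by
    intro t ht hR j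
    have hjt : j t ≠ 0 := (map_ne_zero j).2 ht
    have hk : ∀ g ∈ HN F (p ^ M) u e, kz (p ^ M) (j t) g = 1 :=
      fun g hg => hkN t ht g (mem_HN.1 hg).1 (hR g hg) j
    have e1 : (σ₀ * h1) ∈ HE L (p ^ M) := (HE L (p ^ M)).mul_mem hσE (hHE _ hh1)
    have e2 : (s * h2) ∈ HE L (p ^ M) := (HE L (p ^ M)).mul_mem hsE (hHE _ hh2)
    rw [hτ, kz_mul hn hjt (hmuE _ ((HE L (p ^ M)).mul_mem e1 e2)) (hfixE _ (hHE _ hlamH') j t),
      kz_mul hn hjt (hmuE _ e1) (hfixE _ e2 j t), kz_mul hn hjt (hmuE _ hσE)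
      (hfixE _ (hHE _ hh1) j t), kz_mul hn hjt (hmuE _ hsE) (hfixE _ (hHE _ hh2) j t),
      hk _ (hHN _ hh1), hk _ hs, hk _ (hHN _ hh2), hk _ (hHN _ hlamH')]
    simp only [mul_one]
  have hRu : ∀ h ∈ HN F (p ^ M) u e, h ∈ HR F (p ^ M) u := fun h hh => (mem_HN.1 hh).2.1
  have hRe : ∀ h ∈ HN F (p ^ M) u e, h ∈ HR F (p ^ M) e := fun h hh => (mem_HN.1 hh).2.2
  have hτu := hkτ u hu hRu
  have hτe := hkτ e he hRe
  have hτζi : ∀ i : ℕ, (τ ^ i) ζ = ζ ↔ m ∣ i := by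
    intro i
    rw [TA_pow_zeta hτζ, ← hγu, orderOf_dvd_iff_pow_eq_one]
    have h5 : ζ ^ (γ ^ i) = ζ ↔ γ ^ i ≡ 1 [MOD q] := by
      constructor
      · intro h
        have h6 : ζ ^ (γ ^ i) = ζ ^ 1 := by rw [pow_one]; exact h
        rwa [hζ.eq_orderOf, ← IsOfFinOrder.pow_eq_pow_iff_modEq
          (orderOf_pos_iff.1 (by rw [← hζ.eq_orderOf]; exact hq.pos))]
      · intro h
        rw [pow_eq_pow_of_modEq h hζ.pow_eq_one, pow_one]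
    rw [h5, ← ZMod.natCast_eq_natCast_iff, Nat.cast_pow, hγcast, Nat.cast_one,
      ← Units.val_pow_eq_pow_val, Units.val_eq_one]
  -- powers of tau divisible by p ^ M are in HN
  have hτN : ∀ k : ℕ, p ^ M ∣ k → τ ^ k ∈ HN F (p ^ M) u e := by
    intro k hk
    have hE : τ ^ k ∈ HE L (p ^ M) := (HE L (p ^ M)).pow_mem hτE k
    have hR : ∀ t : L, t ≠ 0 → τ ^ k ∈ HR F (p ^ M) t := by
      intro t ht
      rw [mem_HR]
      intro j x hx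
      have hjt : j t ≠ 0 := (map_ne_zero j).2 ht
      refine (kz_eq_one_iff hn hjt (hmuE _ hE)).1 ?_ x hx
      obtain ⟨c, rfl⟩ := hk
      rw [kz_npow hn hjt (hmuE _ hτE) (hfixE _ hτE j t), pow_mul,
        kz_pow hn hjt (hfixE _ hτE j t), one_pow]
    exact mem_HN.2 ⟨hE, hR u hu, hR e he⟩
  have hpm' : (p ^ M).Coprime m := hpm.pow_left M
  obtain ⟨e0, he0p, he0m⟩ := Nat.chineseRemainder hpm' 0 1
  have hpe0 : p ^ M ∣ e0 := (Nat.modEq_zero_iff_dvd).1 he0p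
  refine ⟨q, ζ, τ, e0, hq, hζ, hρτ, hτE, hτu, hτe, hτζi, ?_, hτN _ (Dvd.intro m rfl), ?_, he0m, ?_⟩
  · rw [map_pow, hρτ, mul_comm (p ^ M) m, pow_mul, hsm, one_pow]
  · exact (hτζi _).2 (Dvd.intro_left (p ^ M) rfl)
  intro π
  obtain ⟨c₀, hc₀, hc₀π⟩ := hS π
  obtain ⟨h3, hh3, h3ζ⟩ := TA_adj hq hζ H hlamH c₀
  refine ⟨c₀ * h3, ?_, ?_, ?_, ?_⟩
  · have h4 : eact (F := F) L h3 = 1 := ((hHE _ hh3).1)
    rw [map_mul, hc₀π, h4, mul_one]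
  · have hcρ : ρ (c₀ * h3) = 1 := by rw [map_mul, hc₀, hHρ _ hh3, mul_one]
    rw [map_mul, map_mul, map_mul, map_inv, map_inv, hcρ]
    simp
  · have h4 := hτN e0 hpe0
    have hNn : (HN F (p ^ M) u e).Normal := inferInstance
    exact (HN F (p ^ M) u e).mul_mem (hNn.conj_mem _ h4 _) ((HN F (p ^ M) u e).inv_mem h4)
  · set c : GalF F := c₀ * h3 with hc
    have hcq : TrivMu q c := TA_mu hq.pos hζ h3ζ
    have hcqi : TrivMu q c⁻¹ := (HMu F q).inv_mem hcq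
    have h4 : ∀ (g : GalF F) (y : Fbar F), y ^ q = 1 → (g y) ^ q = 1 := by
      intro g y hy
      rw [← map_pow, hy, map_one]
    have h5 : ((τ ^ e0)⁻¹ ζ) ^ q = 1 := h4 _ _ hζ.pow_eq_one
    rw [AlgEquiv.mul_apply, AlgEquiv.mul_apply, AlgEquiv.mul_apply, hcqi _ h5,
      hcq _ (h4 _ _ h5), ← AlgEquiv.mul_apply, mul_inv_cancel]
    rfl
/- END TA -/

end Pool.Agent.CGN
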