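import Pool.Agent.CGN.GalOne
import Pool.Agent.CGN.GalTau
import Pool.Agent.CGN.GalRes
import Pool.Agent.CGN.GalLin
import Pool.Agent.CGQ.GalLift

/-!
# The core: elements of order prime to p which are trivial on Z act as scalars
-/

noncomputable section

set_option linter.unusedSectionVars false

namespace Pool.Agent.CGN

open NumberField IsDedekindDomain Matrix Pool.Agent.CG2 Pool.Agent.CG2.GalFinAux
  Pool.Agent.CG2.GalInfAux Pool.Agent.CGQ

variable {F : Type} [Field F] [NumberField F] {L : Type} [Field L] [NumberField L] [Algebra F L]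
  {κ : Type} [Field κ]

/- MODULE CO -/
/-- **CO**. Elements of `HN` of order prime to `p` under `ρ` act as scalars.

PROOF. (Compare `core_scalar` in CGQ/GalCore.lean, most of it can be copied.) Choose
`j₀ : L →ₐ[F] Fbar F` and make `L` a subfield of `Fbar F` (`Algebra L (Fbar F)`, `IsScalarTower`, beginning of
`galois_unit` in CGQ/GalMain.lean). Take `q, ζ, τ, e0` from `exists_tau` (`G = GL (Fin d) κ`), `T'` from
`hyp_apply`. Let `H = ρ.ker ⊓ HN F n u e ⊓ HMu F q`, `n = p ^ M`, open and normal, `N` its fixed field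
(`fixedField_open`): a number field, Galois over `F`, `restrictNormalHom N g = 1` iff `g ∈ H`. All `j x`,
`j : L →ₐ[F] Fbar F`, `x : L`, lie in `N`; make `N` an `L`-algebra through `j₀`. `ζ ∈ N`. For `x ∈ GalF F`:
`ρ x = 1`, `x ∈ HN`, `x ζ = ζ` imply `x ∈ H`. Put `τN = restrictNormalHom N τ`.
ORDER: `τN ^ (p ^ M * m) = 1`; if `τN ^ i = 1` then `τ ^ i ∈ H` fixes `ζ`, so `m ∣ i`. So
`orderOf τN = m * t` with `t ∣ p ^ M`, `t = p ^ a` (`Nat.dvd_prime_pow`). `0 < a`: otherwise `τ ^ m ∈ H`; but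
`2 ≤ d`, there are `j ≠ k`, and `kz n (j e) (τ ^ m) = kz n (j e) σ₀ ^ m` (`kz_npow`), different from
`kz n (k e) (τ ^ m)` by (D), while `kz n y h = 1` for `h ∈ HN`.
(D): if `¬ p ∣ i` and `j ≠ k` then `kz n (j e) σ₀ ^ i ≠ kz n (k e) σ₀ ^ i`: the quotient `z ≠ 1` satisfies
`z ^ n = 1`, so its order is a power of `p`, `≠ 1`; it does not divide `i`.
`hτL`: for `g ∈ Gal(N/F)` and `x : L`, `g x` is `j x` for some `j` (lift `g` to `GalF F`,
`AlgEquiv.restrictNormalHom_surjective`, compose with `j₀`), and `τ ∈ HE`.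
`hc`: for `g ∈ Gal(N/F)`, lifted to `g' ∈ GalF F`, take `c` from `exists_tau` for `π = eact L g'`; `c x = g' x`
for `x : L`, and `c * τ ^ e0 * c⁻¹ * (τ ^ e0)⁻¹ ∈ H`.
PLACES: for a place `P` of `N`, `Q` with `Q.comap (inc F N) = P.asIdeal`, `j : L →ₐ[F] Fbar F` and
`g ∈ GalF F` with `g (j₀ x) = j x` (`exists_gal` in GalOpen.lean), `gN = restrictNormalHom N g`:
`(below L (actP gN⁻¹ P)).asIdeal = Q.comap (incj j)` (`mem_actP`; `gN • algebraMap x` is `j x`).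
LIFT: let `v ∉ T'`, unramified in `N`, of prime norm, `FrobAt v P (τN ^ i)`, `¬ p ∣ i`. `lift_frob` gives
`Q` and `g'` with `IsFrob v Q g'` and `g' = τ ^ i * h`, `h ∈ H`. Then `g' ∈ HE L n`,
`kz n y g' = kz n y σ₀ ^ i` for `y = j u, j e` (`kz_mul`, `kz_npow`, `kz_eq_one_iff`), `ρ g' = ρ s ^ i`. By (D) and
`hσu` the conditions of `hyp_apply` hold: (L) `charpoly (ρ s ^ i) = ∏ j, (X - C (χ (w j)))` with
`w j = below L (actP (g j)⁻¹ P)`.
Apply `one_eig` with `T := T' ∪ {v | ¬ UnramAt N v}`. Its hypothesis `H`: let `m ∣ i`, `¬ p ∣ i`; `ρ s ^ i = 1`,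
whose characteristic polynomial is `(X - 1) ^ d` (`Matrix.charpoly_one`); compare the roots in (L):
`χ (w j) = 1` for all `j`; for `g ∈ Gal(N/F)`, `below L (actP g P)` is one of the `w j` (lift `g⁻¹` and
compose with `j₀`; `below L (actP g P)` depends only on `g⁻¹` on `L`).
Conclusion of `one_eig`: `b, P, v, i`, `i` prime to `p m`, and (L) gives `charpoly (ρ s ^ i) = (X - C b) ^ d`
(`hL`, `AlgHom.card`). `isScal_of_charpoly`: `ρ s ^ i` is scalar; `ρ s ^ m = 1` is scalar and `i` is prime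
to `m`: `ρ s` is scalar (`scalSub`, end of the proof of `core_scalar`). -/
theorem core_scalar {p m M d : ℕ} (hp : p.Prime) [CharP κ p] (hpm : p.Coprime m) (hd : 2 ≤ d)
    (hL : Module.finrank F L = d)
    {ρ : GalF F →* GL (Fin d) κ} (hρ : IsOpen (ρ.ker : Set (GalF F))) {u e : (𝓞 L)ˣ}
    {S : Set (Pl L)} (hS : S.Finite) {χ : Pl L → κ} (hχ : IsRay S χ)
    {T : Set (Pl F)} (hT : T.Finite) (hH : HypN 1 p ρ u e χ T) {σ₀ : GalF F} (hσ₀ : ρ σ₀ = 1)
    (hσE : σ₀ ∈ HE L (p ^ M))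
    (hσu : ∀ j k : L →ₐ[F] Fbar F, kz (p ^ M) (j ((u : 𝓞 L) : L)) σ₀ =
        kz (p ^ M) (k ((u : 𝓞 L) : L)) σ₀)
    (hσe : ∀ j k : L →ₐ[F] Fbar F, j ≠ k → kz (p ^ M) (j ((e : 𝓞 L) : L)) σ₀ ≠
        kz (p ^ M) (k ((e : 𝓞 L) : L)) σ₀)
    (hSur : ∀ π : Equiv.Perm (L →ₐ[F] Fbar F), ∃ c : GalF F, ρ c = 1 ∧ eact L c = π)
    {s : GalF F} (hs : s ∈ HN F (p ^ M) ((u : 𝓞 L) : L) ((e : 𝓞 L) : L))
    (hsm : ρ s ^ m = 1) : IsScal (ρ s) := by
  classical
  have hm : 0 < m := by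
    rcases Nat.eq_zero_or_pos m with rfl | h
    · exact absurd ((Nat.coprime_zero_right p).1 hpm) hp.ne_one
    · exact h
  obtain ⟨j₀⟩ : Nonempty (L →ₐ[F] Fbar F) := ⟨IsAlgClosed.lift⟩
  let : Algebra L (Fbar F) := j₀.toRingHom.toAlgebra
  have : IsScalarTower F L (Fbar F) := IsScalarTower.of_algebraMap_eq fun x => (j₀.commutes x).symm
  have hu0 : ((u : 𝓞 L) : L) ≠ 0 := RingOfIntegers.coe_ne_zero_iff.2 u.ne_zero
  have he0 : ((e : 𝓞 L) : L) ≠ 0 := RingOfIntegers.coe_ne_zero_iff.2 e.ne_zero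
  have hne : ∀ (t : L) (_ : t ≠ 0) (j : L →ₐ[F] Fbar F), j t ≠ 0 := by
    intro t ht j h
    exact ht ((map_eq_zero j).1 h)
  have hcard : Fintype.card (L →ₐ[F] Fbar F) = d := by
    rw [← hL]
    exact AlgHom.card F L (Fbar F)
  obtain ⟨T', hT'f, -, hyp⟩ := hyp_apply hp hL hT hH
  obtain ⟨q, ζ, τ, e0, hq, hζ, hτs, hτE, hτu, hτe, hτζ, h1, h2, h3, he0m, hcc⟩ :=
    exists_tau hp hm hpm ρ hρ hu0 he0 hSur hσ₀ hσE hs hsm
  have hn : 0 < p ^ M := pow_pos hp.pos _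
  have hq0 : NeZero q := ⟨hq.ne_zero⟩
  have hσE' := (mem_HE L).1 hσE
  have hτE' := (mem_HE L).1 hτE
  -- different factors
  have hD : ∀ i : ℕ, ¬ p ∣ i → ∀ j k : L →ₐ[F] Fbar F, j ≠ k →
      kz (p ^ M) (j ((e : 𝓞 L) : L)) σ₀ ^ i ≠ kz (p ^ M) (k ((e : 𝓞 L) : L)) σ₀ ^ i := by
    intro i hi j k hjk heq
    have hj0 := kz_ne hn (hne _ he0 j) σ₀
    have hk0 := kz_ne hn (hne _ he0 k) σ₀
    have hjn := kz_pow hn (hne _ he0 j) (hσE'.1 j _)
    have hkn := kz_pow hn (hne _ he0 k) (hσE'.1 k _)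
    apply hσe j k hjk
    have e1 : (kz (p ^ M) (j ((e : 𝓞 L) : L)) σ₀ / kz (p ^ M) (k ((e : 𝓞 L) : L)) σ₀) ^ i = 1 := by
      rw [div_pow, heq, div_self (pow_ne_zero _ hk0)]
    have e2 : (kz (p ^ M) (j ((e : 𝓞 L) : L)) σ₀ / kz (p ^ M) (k ((e : 𝓞 L) : L)) σ₀) ^ (p ^ M) = 1 := by
      rw [div_pow, hjn, hkn, div_one]
    have e3 := pow_gcd_eq_one.2 ⟨e1, e2⟩
    have e4 : i.gcd (p ^ M) = 1 :=
      (Nat.Coprime.pow_right M ((hp.coprime_iff_not_dvd.2 hi).symm))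
    rw [e4, pow_one] at e3
    exact (div_eq_one_iff_eq hk0).1 e3
  obtain ⟨H, hHdef⟩ : ∃ H : Subgroup (GalF F), H = ρ.ker ⊓
    HN F (p ^ M) ((u : 𝓞 L) : L) ((e : 𝓞 L) : L) ⊓ HMu F q := ⟨_, rfl⟩
  have hHn : H.Normal := by
    rw [hHdef]
    have : (ρ.ker ⊓ HN F (p ^ M) ((u : 𝓞 L) : L) ((e : 𝓞 L) : L)).Normal :=
      Subgroup.normal_inf_normal _ _
    exact Subgroup.normal_inf_normal _ _
  have hHo : IsOpen (H : Set (GalF F)) := by
    rw [hHdef]
    exact (hρ.inter (HN_open hn _ _)).inter (HMu_open (F := F) hq.pos)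
  have hHm : ∀ g : GalF F, g ∈ H ↔ (ρ g = 1 ∧ g ∈ HN F (p ^ M) ((u : 𝓞 L) : L) ((e : 𝓞 L) : L)) ∧
      TrivMu q g := by
    intro g
    rw [hHdef]
    rfl
  obtain ⟨hfd, hgal, hfix, hmem⟩ := fixedField_open H hHo
  obtain ⟨N, hN⟩ : ∃ N : IntermediateField F (Fbar F), N = IntermediateField.fixedField H := ⟨_, rfl⟩
  rw [← hN] at hfd hgal hfix hmem
  have hNF : NumberField N :=
    { to_charZero := inferInstance
      to_finiteDimensional := FiniteDimensional.trans ℚ F N }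
  have hnor : Normal F N := inferInstance
  have hHker : ∀ g : GalF F, AlgEquiv.restrictNormalHom N g = 1 ↔ g ∈ H := by
    intro g
    rw [ker_restrict, hfix]
  have hHmem : ∀ g : GalF F, ρ g = 1 → g ∈ HN F (p ^ M) ((u : 𝓞 L) : L) ((e : 𝓞 L) : L) →
      g ζ = ζ → g ∈ H := by
    intro g hg1 hg2 hg3
    rw [hHm]
    refine ⟨⟨hg1, hg2⟩, fun z hz => ?_⟩
    obtain ⟨k, -, rfl⟩ := hζ.eq_pow_of_pow_eq_one hz
    rw [map_pow, hg3]
  have hHN : ∀ g ∈ H, g ∈ HN F (p ^ M) ((u : 𝓞 L) : L) ((e : 𝓞 L) : L) := fun g hg =>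
    ((hHm g).1 hg).1.2
  have hHL : ∀ g ∈ H, ∀ (j : L →ₐ[F] Fbar F) (x : L), g (j x) = j x := fun g hg =>
    ((mem_HE L).1 (mem_HN.1 (hHN g hg)).1).1
  -- the algebra structure
  have hLN : ∀ x : L, j₀ x ∈ N := by
    intro x
    rw [hN, IntermediateField.mem_fixedField_iff]
    intro g hg
    exact hHL g hg j₀ x
  let iL : L →+* N :=
    { toFun := fun x => ⟨j₀ x, hLN x⟩
      map_one' := Subtype.ext (map_one _)
      map_mul' := fun x y => Subtype.ext (map_mul _ _ _)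
      map_zero' := Subtype.ext (map_zero _)
      map_add' := fun x y => Subtype.ext (map_add _ _ _) }
  let _ : Algebra L N := iL.toAlgebra
  have hiL : ∀ x : L, ((algebraMap L N x : N) : Fbar F) = j₀ x := fun x => rfl
  have hST : IsScalarTower F L N := IsScalarTower.of_algebraMap_eq fun x => by
    apply Subtype.ext
    rw [hiL]
    exact (j₀.commutes x).symm
  have hcoe : ∀ (g : GalF F) (x : N), ((AlgEquiv.restrictNormalHom N g x : N) : Fbar F) =
      g (x : Fbar F) := fun g x => AlgEquiv.restrictNormal_commutes g N x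
  have hsur : ∀ g : Gal(N/F), ∃ g' : GalF F, AlgEquiv.restrictNormalHom N g' = g :=
    AlgEquiv.restrictNormalHom_surjective (Fbar F)
  -- tau and zeta
  obtain ⟨τN, hτN⟩ : ∃ τN : Gal(N/F), τN = AlgEquiv.restrictNormalHom N τ := ⟨_, rfl⟩
  have hpow : ∀ i : ℕ, τN ^ i = AlgEquiv.restrictNormalHom N (τ ^ i) := by
    intro i
    rw [hτN]
    exact (map_pow _ _ _).symm
  obtain ⟨a, ha, hord⟩ : ∃ a, 0 < a ∧ orderOf τN = p ^ a * m := by
    have h7 : m ∣ orderOf τN := by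
      have h8 : τN ^ orderOf τN = 1 := pow_orderOf_eq_one _
      rw [hpow, hHker] at h8
      rw [← hτζ]
      exact ((hHm _).1 h8).2 ζ hζ.pow_eq_one
    have h9 : orderOf τN ∣ p ^ M * m := by
      rw [orderOf_dvd_iff_pow_eq_one, hpow, hHker]
      exact hHmem _ h1 h2 h3
    obtain ⟨t, ht⟩ := h7
    rw [ht, mul_comm m t] at h9
    obtain ⟨a, -, rfl⟩ := (Nat.dvd_prime_pow hp).1 (Nat.dvd_of_mul_dvd_mul_right hm h9)
    refine ⟨a, ?_, by rw [ht, mul_comm]⟩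
    rcases Nat.eq_zero_or_pos a with h10 | h10
    · exfalso
      rw [h10, pow_zero, mul_one] at ht
      have h11 : τN ^ m = 1 := by
        rw [← ht]
        exact pow_orderOf_eq_one _
      rw [hpow, hHker] at h11
      obtain ⟨j, k, hjk⟩ := Fintype.one_lt_card_iff.1 (show 1 < Fintype.card (L →ₐ[F] Fbar F) by
        rw [hcard]
        omega)
      have h12 := mem_HN.1 (hHN _ h11)
      have h13 : ∀ j : L →ₐ[F] Fbar F, kz (p ^ M) (j ((e : 𝓞 L) : L)) σ₀ ^ m = 1 := by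
        intro j
        rw [← hτe, ← kz_npow hn (hne _ he0 j) hτE'.2 (hτE'.1 j _),
          kz_eq_one_iff hn (hne _ he0 j) ((mem_HE L).1 h12.1).2]
        exact fun x hx => h12.2.2 j x hx
      exact hD m ((hp.coprime_iff_not_dvd).1 hpm) j k hjk (by rw [h13, h13])
    · exact h10
  have hζN : ζ ∈ N := by
    rw [hN, IntermediateField.mem_fixedField_iff]
    intro g hg
    exact ((hHm g).1 hg).2 ζ hζ.pow_eq_one
  have hζ' : IsPrimitiveRoot (⟨ζ, hζN⟩ : N) q :=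
    IsPrimitiveRoot.of_map_of_injective (f := algebraMap N (Fbar F)) (by exact hζ)
      (algebraMap N (Fbar F)).injective
  have hτζ' : ∀ i : ℕ, (τN ^ i) (⟨ζ, hζN⟩ : N) = ⟨ζ, hζN⟩ ↔ m ∣ i := by
    intro i
    rw [hpow, ← hτζ, Subtype.ext_iff, hcoe]
  have hτL' : ∀ (g : Gal(N/F)) (x : L), τN (g (algebraMap L N x)) = g (algebraMap L N x) := by
    intro g x
    obtain ⟨g', rfl⟩ := hsur g
    apply Subtype.ext
    rw [hτN, hcoe, hcoe, hiL]
    exact hτE'.1 (eact L g' j₀) x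
  have hconj : ∀ g : Gal(N/F), ∃ c : Gal(N/F),
      (∀ x : L, c (algebraMap L N x) = g (algebraMap L N x)) ∧ c * τN ^ e0 * c⁻¹ = τN ^ e0 := by
    intro g
    obtain ⟨g', rfl⟩ := hsur g
    obtain ⟨c, hc1, hc2, hc3, hc4⟩ := hcc (eact L g')
    refine ⟨AlgEquiv.restrictNormalHom N c, fun x => ?_, ?_⟩
    · apply Subtype.ext
      rw [hcoe, hcoe, hiL, ← eact_apply, hc1, eact_apply]
    · have h7 := (hHker _).2 (hHmem _ hc2 hc3 hc4)
      rw [map_mul, map_mul, map_mul, map_inv, map_inv, ← hpow] at h7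
      exact mul_inv_eq_one.1 h7
  -- the places
  choose gj hgj using fun j : L →ₐ[F] Fbar F => exists_gal j₀ j
  obtain ⟨w, hw⟩ : ∃ w : Pl N → (L →ₐ[F] Fbar F) → Pl L, ∀ P j,
      w P j = below L (actP (AlgEquiv.restrictNormalHom N (gj j))⁻¹ P) := ⟨_, fun P j => rfl⟩
  have hplace : ∀ (P : Pl N) (Q : Ideal (Zbar F)), Q.comap (inc F N) = P.asIdeal →
      ∀ j, (w P j).asIdeal = Q.comap (incj j) := by
    intro P Q hQ j
    rw [hw]
    ext x
    change algebraMap (𝓞 L) (𝓞 N) x ∈ (actP (AlgEquiv.restrictNormalHom N (gj j))⁻¹ P).asIdeal ↔ _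
    rw [mem_actP, inv_inv, ← hQ, Ideal.mem_comap, Ideal.mem_comap]
    have h7 : inc F N ((AlgEquiv.restrictNormalHom N (gj j)) • algebraMap (𝓞 L) (𝓞 N) x) =
        incj j x := by
      apply Subtype.ext
      rw [coe_incj]
      change (((AlgEquiv.restrictNormalHom N (gj j)) (algebraMap L N (x : L)) : N) : Fbar F) = _
      rw [hcoe, hiL, hgj]
    rw [h7]
  have hbel : ∀ (P : Pl N) (g : Gal(N/F)), ∃ j, below L (actP g P) = w P j := by
    intro P g
    obtain ⟨g', hg'⟩ := hsur g⁻¹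
    refine ⟨eact L g' j₀, ?_⟩
    rw [hw]
    apply HeightOneSpectrum.ext
    ext x
    change algebraMap (𝓞 L) (𝓞 N) x ∈ (actP g P).asIdeal ↔ algebraMap (𝓞 L) (𝓞 N) x ∈
      (actP (AlgEquiv.restrictNormalHom N (gj (eact L g' j₀)))⁻¹ P).asIdeal
    rw [mem_actP, mem_actP, inv_inv]
    have h7 : g⁻¹ • algebraMap (𝓞 L) (𝓞 N) x =
        (AlgEquiv.restrictNormalHom N (gj (eact L g' j₀))) • algebraMap (𝓞 L) (𝓞 N) x := by
      apply RingOfIntegers.ext
      apply Subtype.ext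
      change ((g⁻¹ (algebraMap L N (x : L)) : N) : Fbar F) =
        (((AlgEquiv.restrictNormalHom N (gj (eact L g' j₀))) (algebraMap L N (x : L)) : N) : Fbar F)
      rw [← hg', hcoe, hcoe, hiL, hgj, eact_apply]
    rw [h7]
  have hlift : ∀ (P : Pl N) (v : Pl F) (i : ℕ), v ∉ T' → UnramAt N v → (Nm v).Prime →
      FrobAt v P (τN ^ i) → ¬ p ∣ i →
      ((ρ s ^ i : GL (Fin d) κ) : Matrix (Fin d) (Fin d) κ).charpoly =
        ∏ j, (Polynomial.X - Polynomial.C (χ (w P j))) := by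
    intro P v i hv hun hvp hF hpi
    rw [hpow] at hF
    obtain ⟨Q, hQ, hQP, g, hg, hgr⟩ := lift_frob N hun hF
    have hgH : (τ ^ i)⁻¹ * g ∈ H := by
      rw [← hHker, map_mul, map_inv, hgr, inv_mul_cancel]
    have hgeq : g = τ ^ i * ((τ ^ i)⁻¹ * g) := by rw [mul_inv_cancel_left]
    obtain ⟨h, hh⟩ : ∃ h, h = (τ ^ i)⁻¹ * g := ⟨_, rfl⟩
    rw [← hh] at hgH hgeq
    have hτi : τ ^ i ∈ HE L (p ^ M) := (HE L (p ^ M)).pow_mem hτE i
    have hhN := mem_HN.1 (hHN h hgH)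
    have e1 : g ∈ HE L (p ^ M) := by
      rw [hgeq]
      exact (HE L (p ^ M)).mul_mem hτi hhN.1
    have hkz : ∀ (t : L) (_ : t ≠ 0) (j : L →ₐ[F] Fbar F), (∀ x : Fbar F, x ^ (p ^ M) = j t → h x = x) →
        kz (p ^ M) (j t) g = kz (p ^ M) (j t) τ ^ i := by
      intro t ht j hx
      rw [hgeq, kz_mul hn (hne t ht j) ((mem_HE L).1 hτi).2 (((mem_HE L).1 hhN.1).1 j t),
        kz_npow hn (hne t ht j) hτE'.2 (hτE'.1 j t),
        (kz_eq_one_iff hn (hne t ht j) ((mem_HE L).1 hhN.1).2).2 hx, mul_one]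
    have e2 : ∀ j k : L →ₐ[F] Fbar F, kz (p ^ M) (j ((u : 𝓞 L) : L)) g =
        kz (p ^ M) (k ((u : 𝓞 L) : L)) g := by
      intro j k
      rw [hkz _ hu0 j (fun x hx => hhN.2.1 j x hx), hkz _ hu0 k (fun x hx => hhN.2.1 k x hx),
        hτu, hτu, hσu j k]
    have e3 : ∀ j k : L →ₐ[F] Fbar F, j ≠ k → kz (p ^ M) (j ((e : 𝓞 L) : L)) g ≠
        kz (p ^ M) (k ((e : 𝓞 L) : L)) g := by
      intro j k hjk
      rw [hkz _ he0 j (fun x hx => hhN.2.2 j x hx), hkz _ he0 k (fun x hx => hhN.2.2 k x hx),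
        hτe, hτe]
      exact hD i hpi j k hjk
    have e5 : ρ g = ρ s ^ i := by
      rw [hgeq, map_mul, map_pow, hτs, ((hHm h).1 hgH).1.1, mul_one]
    have e6 := hyp M v hv hvp Q hQ g hg e1 e2 e3 (w P) (hplace P Q hQP)
    rw [e5] at e6
    exact e6
  obtain ⟨b, P, v, i, hv, hun, hvp, hi, hF, heq⟩ := one_eig (L := L) (κ := κ) hp ha hq hm
    τN hτL' hord hpm hζ' hτζ' e0 he0m hconj hS χ hχ (T := T' ∪ {v | ¬ UnramAt N v})
    (hT'f.union (unram_cofinite F N)) (by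
      intro P v i hv hvp hF hmi hpi g
      have hv1 : v ∉ T' := fun h => hv (Or.inl h)
      have hv2 : UnramAt N v := by
        by_contra h
        exact hv (Or.inr h)
      have a1 := hlift P v i hv1 hv2 hvp hF hpi
      obtain ⟨k, rfl⟩ := hmi
      rw [pow_mul, hsm, one_pow, Units.val_one, Matrix.charpoly_one, Fintype.card_fin] at a1
      obtain ⟨j, hj⟩ := hbel P g
      have a2 := congrArg (Polynomial.eval (χ (w P j))) a1
      rw [Polynomial.eval_prod, Finset.prod_eq_zero (Finset.mem_univ j) (by simp),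
        Polynomial.eval_pow] at a2
      have a3 := (pow_eq_zero_iff (by omega)).1 a2
      rw [Polynomial.eval_sub, Polynomial.eval_X, Polynomial.eval_one] at a3
      rw [hj]
      exact sub_eq_zero.1 a3)
  have hip : i.Coprime p := Nat.Coprime.coprime_mul_right_right hi
  have him : i.Coprime m := Nat.Coprime.coprime_mul_left_right hi
  have hpi : ¬ p ∣ i := by
    intro h
    have := Nat.dvd_gcd h (dvd_refl p)
    rw [hip] at this
    exact hp.one_lt.ne' (Nat.dvd_one.1 this)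
  have hv1 : v ∉ T' := fun h => hv (Or.inl h)
  have a1 := hlift P v i hv1 hun hvp hF hpi
  have a2 : ∀ j, χ (w P j) = b := by
    intro j
    rw [hw]
    exact heq _
  simp only [a2] at a1
  rw [Finset.prod_const, Finset.card_univ, hcard] at a1
  have hsi : IsScal (ρ s ^ i) :=
    isScal_of_charpoly hp hpm (ρ s ^ i) (by rw [← pow_mul, mul_comm, pow_mul, hsm, one_pow]) b a1
  have hsm' : ρ s ^ m ∈ scalSub d κ := by
    rw [hsm]
    exact one_mem _
  have hsi' : ρ s ^ i ∈ scalSub d κ := hsi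
  have hbez : (1 : ℤ) = i * Nat.gcdA i m + m * Nat.gcdB i m := by
    have := Nat.gcd_eq_gcd_ab i m
    rw [him] at this
    exact_mod_cast this
  have hfin : ρ s = (ρ s ^ i) ^ (Nat.gcdA i m) * (ρ s ^ m) ^ (Nat.gcdB i m) := by
    rw [← _root_.zpow_natCast, ← _root_.zpow_natCast, ← _root_.zpow_mul, ← _root_.zpow_mul,
      ← _root_.zpow_add, ← hbez, _root_.zpow_one]
  rw [← mem_scalSub, hfin]
  exact mul_mem (zpow_mem hsi' _) (zpow_mem hsm' _)
/- END CO -/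

end Pool.Agent.CGN
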