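import Pool.Agent.CGQ.GalDefs

/-!
# Definitions for the Galois side of the unit trick in degree `d`
-/

noncomputable section

set_option linter.unusedSectionVars false

namespace Pool.Agent.CGN

open NumberField IsDedekindDomain Matrix Pool.Agent.CG2 Pool.Agent.CG2.GalFinAux
  Pool.Agent.CG2.GalInfAux Pool.Agent.CGQ

section Emb

variable {F : Type} [Field F] [NumberField F] (L : Type) [Field L] [NumberField L] [Algebra F L]

/-- The action of the Galois group on the embeddings of `L`. -/
def eact : GalF F →* Equiv.Perm (L →ₐ[F] Fbar F) where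
  toFun g :=
    { toFun := fun j => g.toAlgHom.comp j
      invFun := fun j => (g⁻¹ : GalF F).toAlgHom.comp j
      left_inv := fun j => AlgHom.ext fun x => g.symm_apply_apply (j x)
      right_inv := fun j => AlgHom.ext fun x => g.apply_symm_apply (j x) }
  map_one' := rfl
  map_mul' _ _ := rfl

variable {L} in
theorem eact_apply (g : GalF F) (j : L →ₐ[F] Fbar F) (x : L) : eact L g j x = g (j x) := rfl

theorem mem_eact_ker {g : GalF F} : g ∈ (eact L).ker ↔ ∀ (j : L →ₐ[F] Fbar F) (x : L),
    g (j x) = j x := by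
  rw [MonoidHom.mem_ker]
  constructor
  · intro h j x
    rw [← eact_apply, h]
    rfl
  · intro h
    apply Equiv.ext
    intro j
    apply AlgHom.ext
    intro x
    rw [eact_apply, h]
    rfl

/-- The elements trivial on all conjugates of `L` and on the `n`-th roots of unity. -/
def HE (n : ℕ) : Subgroup (GalF F) := (eact L).ker ⊓ HMu F n

theorem mem_HE {n : ℕ} {g : GalF F} : g ∈ HE L n ↔
    (∀ (j : L →ₐ[F] Fbar F) (x : L), g (j x) = j x) ∧ TrivMu n g := by
  rw [HE, Subgroup.mem_inf, mem_eact_ker]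
  rfl

variable {L} in
/-- The elements trivial on the `n`-th roots of all conjugates of `t`. -/
def HR (F : Type) [Field F] [NumberField F] {L : Type} [Field L] [NumberField L] [Algebra F L]
    (n : ℕ) (t : L) : Subgroup (GalF F) where
  carrier := {g | ∀ (j : L →ₐ[F] Fbar F) (x : Fbar F), x ^ n = j t → g x = x}
  one_mem' := fun _ _ _ => rfl
  mul_mem' := by
    intro a b ha hb j x hx
    change a (b x) = x
    rw [hb j x hx, ha j x hx]
  inv_mem' := by
    intro a ha j x hx
    change a.symm x = x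
    rw [AlgEquiv.symm_apply_eq, ha j x hx]

theorem mem_HR {L : Type} [Field L] [NumberField L] [Algebra F L] {n : ℕ} {t : L} {g : GalF F} :
    g ∈ HR F n t ↔ ∀ (j : L →ₐ[F] Fbar F) (x : Fbar F), x ^ n = j t → g x = x := Iff.rfl

/-- The elements trivial on all conjugates of `L`, on the `n`-th roots of unity and on the
`n`-th roots of the conjugates of `u` and `e`: the Galois group of `Z`. -/
def HN (F : Type) [Field F] [NumberField F] {L : Type} [Field L] [NumberField L] [Algebra F L]
    (n : ℕ) (u e : L) : Subgroup (GalF F) := HE L n ⊓ HR F n u ⊓ HR F n e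

theorem mem_HN {L : Type} [Field L] [NumberField L] [Algebra F L] {n : ℕ} {u e : L}
    {g : GalF F} : g ∈ HN F n u e ↔ g ∈ HE L n ∧ g ∈ HR F n u ∧ g ∈ HR F n e := by
  rw [HN, Subgroup.mem_inf, Subgroup.mem_inf, and_assoc]

end Emb

section Kummer

variable {F : Type} [Field F] [NumberField F]

open scoped Classical in
/-- A chosen `n`-th root of `y` (`1` if there is none). -/
def rt (n : ℕ) (y : Fbar F) : Fbar F := if h : ∃ x, x ^ n = y then h.choose else 1

/-- The factor by which `g` acts on the `n`-th roots of `y`. -/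
def kz (n : ℕ) (y : Fbar F) (g : GalF F) : Fbar F := g (rt n y) / rt n y

end Kummer

section Mat

variable {κ : Type} [Field κ] {G : Type} [Group G] {d : ℕ}

/-- The matrix `A` is scalar. -/
def IsScal (A : GL (Fin d) κ) : Prop := ∃ b : κ, (A : Matrix (Fin d) (Fin d) κ) = Matrix.scalar (Fin d) b

/-- There is a proper non zero subspace stable under all `ρ g`. -/
def HasSub (ρ : G →* GL (Fin d) κ) : Prop :=
  ∃ V : Submodule κ (Fin d → κ), V ≠ ⊥ ∧ V ≠ ⊤ ∧ ∀ g : G, ∀ x ∈ V,
    (ρ g : Matrix (Fin d) (Fin d) κ).mulVec x ∈ V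

/-- Scalar matrices form a subgroup. -/
def scalSub (d : ℕ) (κ : Type) [Field κ] : Subgroup (GL (Fin d) κ) where
  carrier := {A | IsScal A}
  one_mem' := ⟨1, by simp⟩
  mul_mem' := by
    rintro A B ⟨a, ha⟩ ⟨b, hb⟩
    exact ⟨a * b, by rw [GeneralLinearGroup.coe_mul, ha, hb, map_mul]⟩
  inv_mem' := by
    rintro A ⟨a, ha⟩
    rcases Nat.eq_zero_or_pos d with rfl | hd
    · exact ⟨1, Subsingleton.elim _ _⟩
    have : Nonempty (Fin d) := ⟨⟨0, hd⟩⟩
    have ha0 : a ≠ 0 := by
      rintro rfl
      have h1 := A.isUnit.ne_zero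
      rw [ha, map_zero] at h1
      exact h1 rfl
    refine ⟨a⁻¹, ?_⟩
    rw [GeneralLinearGroup.coe_inv, ha]
    apply Matrix.inv_eq_left_inv
    rw [← map_mul, inv_mul_cancel₀ ha0, map_one]

theorem mem_scalSub (A : GL (Fin d) κ) : A ∈ scalSub d κ ↔ IsScal A := Iff.rfl

end Mat

section Hyp

variable {F : Type} [Field F] [NumberField F] {L : Type} [Field L] [NumberField L] [Algebra F L]
  {κ : Type} [Field κ] {d : ℕ}

/-- The hypothesis on the Frobenius elements (produced by the unit trick). `χ` is a function on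
the places of the extension `L` of `F` of degree `d`. Let `v ∉ T` be a place of `F` (of prime norm)
with `d` different places `W i` of `L` over `v`, of degree one: `r i` is the map from the integers of
`L` to the residue field of `v` with kernel `W i`. If `Nm v ≡ 1` modulo `p ^ M`, all ratios of the
residues `r i u` are `p ^ M`-th powers and no ratio `r i e / r j e`, `i ≠ j`, is a `p ^ M`-th power,
then the Frobenius elements at `v` have the characteristic polynomial with the roots `χ (W i)`.
Arithmetic (`ε = 1`) or geometric (`ε = -1`) Frobenius elements. -/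
def HypN (ε : ℤˣ) (p : ℕ) (ρ : GalF F →* GL (Fin d) κ) (u e : (𝓞 L)ˣ) (χ : Pl L → κ)
    (T : Set (Pl F)) : Prop :=
  ∀ v : Pl F, v ∉ T → (Nm v).Prime →
    ∀ r : Fin d → (𝓞 L →+* 𝓞 F ⧸ v.asIdeal),
      (∀ (i : Fin d) (x : 𝓞 F), r i (algebraMap (𝓞 F) (𝓞 L) x) = Ideal.Quotient.mk _ x) →
      Function.Injective r →
    ∀ W : Fin d → Pl L, (∀ i, (W i).asIdeal = RingHom.ker (r i)) →
    ∀ M : ℕ, p ^ M ∣ Nm v - 1 →
      (∀ i j, ∃ y, r i u = y ^ (p ^ M) * r j u) →
      (∀ i j, i ≠ j → ¬ ∃ y, r i e = y ^ (p ^ M) * r j e) →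
    ∀ Q : Ideal (Zbar F), Over v Q → ∀ g : GalF F, IsFrob v Q g →
      (ρ (g ^ (ε : ℤ)) : Matrix (Fin d) (Fin d) κ).charpoly =
        ∏ i, (Polynomial.X - Polynomial.C (χ (W i)))

end Hyp

end Pool.Agent.CGN
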