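import Pool.Agent.CGN.GalDef
import Pool.Agent.CGQ.GalFirst
import Pool.Agent.CGQ.GalRFa
import Pool.Agent.CGQ.GalRFb
import Pool.Agent.CGQ.GalRFc
import Pool.Agent.CGQ.GalUn
import Pool.Agent.CGQ.GalGr
import Pool.Agent.CGQ.GalFZ

/-!
# The key lemma
-/

noncomputable section

set_option linter.unusedSectionVars false

namespace Pool.Agent.CGN

open NumberField IsDedekindDomain Pool.Agent.CG2 Pool.Agent.CG2.GalFinAux
  Pool.Agent.CG2.GalInfAux Pool.Agent.CGQ

variable {L N : Type} [Field L] [NumberField L] [Field N] [NumberField N] [Algebra L N]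

/-- **KY**. The key lemma: `χ` at the places with the Frobenius element `τ ^ i` is `b ^ i`. The order
of `τ` is `p ^ a * m`. See CGQ/GalKey.lean for the case `a = 1`: the places `u` of the fixed field `K` of
`τ` with a Frobenius element in `⟨τ ^ m⟩` outside `⟨τ ^ (m p)⟩` have the density
`(p ^ a - p ^ (a - 1)) / (p ^ a m) = (p - 1) / (p m)`. -/
theorem key [IsGalois L N] {κ : Type} [Field κ] {p a m q : ℕ} [CharP κ p] (hp : p.Prime)
    (ha : 0 < a) (hq : q.Prime) (hm : 0 < m) (τ : Gal(N/L)) (hτ : orderOf τ = p ^ a * m)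
    (hpm : p.Coprime m) {ζ : N} (hζ : IsPrimitiveRoot ζ q)
    (hτζ : ∀ i : ℕ, (τ ^ i) ζ = ζ ↔ m ∣ i) {S T : Set (Pl L)} (hS : S.Finite) (χ : Pl L → κ)
    (hχ : IsRay S χ) (hT : T.Finite)
    (H : ∀ w : Pl L, w ∉ T → (Nm w).Prime → ∀ (P : Pl N) (i : ℕ), FrobAt w P (τ ^ i) →
      m ∣ i → ¬ p ∣ i → χ w = 1) :
    ∃ (b : κ) (T' : Set (Pl L)), b ^ m = 1 ∧ T'.Finite ∧ ∀ w : Pl L, w ∉ T' →
      ∀ (P : Pl N) (i : ℕ), FrobAt w P (τ ^ i) → χ w = b ^ i := by
  classical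
  have hqF : Fact q.Prime := ⟨hq⟩
  have hq0 : NeZero q := ⟨hq.ne_zero⟩
  have hpa : 0 < p ^ a := pow_pos hp.pos a
  have hpm0 : 0 < p ^ a * m := Nat.mul_pos hpa hm
  -- the exponent `γ`
  obtain ⟨γ0, -, hγ0⟩ := hζ.eq_pow_of_pow_eq_one (ξ := τ ζ) (by rw [← map_pow, hζ.pow_eq_one, map_one])
  have hτi : ∀ i : ℕ, (τ ^ i) ζ = ζ ^ (γ0 ^ i) := by
    intro i
    induction i with
    | zero => simp
    | succ i ih =>
      rw [pow_succ]
      change (τ ^ i) (τ ζ) = _
      rw [← hγ0, map_pow, ih, ← pow_mul, pow_succ]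
  have hζfin : IsOfFinOrder ζ := isOfFinOrder_iff_pow_eq_one.2 ⟨q, hq.pos, hζ.pow_eq_one⟩
  have hζeq : ∀ a b : ℕ, ζ ^ a = ζ ^ b → ((a : ℕ) : ZMod q) = ((b : ℕ) : ZMod q) := by
    intro a b h
    rw [hζfin.pow_eq_pow_iff_modEq, ← hζ.eq_orderOf] at h
    exact (ZMod.natCast_eq_natCast_iff a b q).2 h
  have hζeq' : ∀ a b : ℕ, ((a : ℕ) : ZMod q) = ((b : ℕ) : ZMod q) → ζ ^ a = ζ ^ b := by
    intro a b h
    rw [hζfin.pow_eq_pow_iff_modEq, ← hζ.eq_orderOf]
    exact (ZMod.natCast_eq_natCast_iff a b q).1 h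
  have hγne : ((γ0 : ℕ) : ZMod q) ≠ 0 := by
    intro h
    have h1 : ζ ^ γ0 = ζ ^ 0 := hζeq' _ _ (by rw [h, Nat.cast_zero])
    rw [pow_zero, hγ0] at h1
    have h2 : ζ = 1 := τ.injective (by rw [h1, map_one])
    exact hζ.ne_one hq.one_lt h2
  set γ : (ZMod q)ˣ := Units.mk0 _ hγne with hγ
  have hγi : ∀ i : ℕ, ((γ ^ i : (ZMod q)ˣ) : ZMod q) = ((γ0 ^ i : ℕ) : ZMod q) := by
    intro i
    rw [Units.val_pow_eq_pow_val, hγ, Units.val_mk0, Nat.cast_pow]
  have hγ1 : ∀ i : ℕ, γ ^ i = 1 ↔ m ∣ i := by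
    intro i
    rw [← hτζ, hτi]
    constructor
    · intro h
      have h1 : ζ ^ (γ0 ^ i) = ζ ^ 1 := by
        apply hζeq'
        rw [← hγi, h, Units.val_one, Nat.cast_one]
      rw [h1, pow_one]
    · intro h
      have h1 : ((γ0 ^ i : ℕ) : ZMod q) = ((1 : ℕ) : ZMod q) := hζeq _ _ (by rw [h, pow_one])
      apply Units.ext
      rw [hγi, h1, Nat.cast_one, Units.val_one]
  have hγord : orderOf γ = m := by
    apply Nat.dvd_antisymm
    · exact orderOf_dvd_of_pow_eq_one ((hγ1 m).2 (dvd_refl m))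
    · exact (hγ1 _).1 (pow_orderOf_eq_one γ)
  -- the field `K`
  set K : IntermediateField L N := IntermediateField.fixedField (Subgroup.zpowers τ) with hK
  have hfixK : K.fixingSubgroup = Subgroup.zpowers τ :=
    IntermediateField.fixingSubgroup_fixedField _
  have hτK : τ ∈ K.fixingSubgroup := by rw [hfixK]; exact Subgroup.mem_zpowers τ
  let φ₀ : Gal(N/K) := IntermediateField.fixingSubgroupEquiv K ⟨τ, hτK⟩
  have hφ₀ : ∀ (i : ℕ) (x : N), (φ₀ ^ i) x = (τ ^ i) x := by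
    intro i
    induction i with
    | zero => intro x; rfl
    | succ i ih =>
      intro x
      rw [pow_succ, pow_succ]
      exact ih (τ x)
  have hφ₀' : ∀ (i : ℕ) (x : 𝓞 N), (φ₀ ^ i) • x = (τ ^ i) • x := by
    intro i x
    apply RingOfIntegers.ext
    exact hφ₀ i (x : N)
  have hφpow : ∀ i : ℕ, φ₀ ^ i = 1 ↔ τ ^ i = 1 := by
    intro i
    constructor
    · intro h
      apply AlgEquiv.ext
      intro x
      rw [← hφ₀, h]
      rfl
    · intro h
      apply AlgEquiv.ext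
      intro x
      rw [hφ₀, h]
      rfl
  have hφord : orderOf φ₀ = p ^ a * m := by
    rw [← hτ]
    apply Nat.dvd_antisymm
    · exact orderOf_dvd_of_pow_eq_one ((hφpow _).2 (pow_orderOf_eq_one τ))
    · exact orderOf_dvd_of_pow_eq_one ((hφpow _).1 (pow_orderOf_eq_one φ₀))
  have hφtop : ∀ φ : Gal(N/K), ∃ i : ℕ, φ = φ₀ ^ i := by
    intro φ
    have h1 : φ.restrictScalars L ∈ K.fixingSubgroup := by
      intro x
      exact φ.commutes x
    rw [hfixK, mem_zpowers_iff_mem_range_orderOf, Finset.mem_image] at h1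
    obtain ⟨i, -, hi⟩ := h1
    refine ⟨i, ?_⟩
    apply AlgEquiv.ext
    intro x
    rw [hφ₀, hi]
    rfl
  have hφz : Subgroup.zpowers φ₀ = ⊤ := by
    rw [eq_top_iff]
    intro φ _
    obtain ⟨i, rfl⟩ := hφtop φ
    exact Subgroup.pow_mem _ (Subgroup.mem_zpowers φ₀) i
  have hcardG : Nat.card Gal(N/K) = p ^ a * m := by
    rw [← hφord, ← Nat.card_zpowers, hφz, Subgroup.card_top]
  have hcomm : ∀ x g : Gal(N/K), x * g * x⁻¹ = g := by
    intro x g
    obtain ⟨i, rfl⟩ := hφtop x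
    obtain ⟨j, rfl⟩ := hφtop g
    rw [← pow_add, add_comm, pow_add, mul_inv_cancel_right]
  -- the ray class function
  let χ' : Pl L → κˣ := fun w => Units.mk0 (χ w) (hχ.1 w)
  let Ψ : Pl K → (ZMod q)ˣ × κˣ := fun u => (nq q u, cn L χ' u)
  set TL : Set (Pl L) := T ∪ {w | ¬ UnramAt N w} ∪ {w | Above q w} with hTL
  have hqfin : ∀ (E : Type) [Field E] [NumberField E], {w : Pl E | Above q w}.Finite := by
    intro E _ _
    have h1 : (Ideal.span {((q : ℕ) : 𝓞 E)}) ≠ ⊥ := by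
      rw [Ne, Ideal.span_singleton_eq_bot]
      exact_mod_cast hq.ne_zero
    refine (Ideal.finite_factors h1).subset fun w hw => ?_
    exact Ideal.dvd_span_singleton.2 hw
  have hTLf : TL.Finite := (hT.union (unram_cofinite L N)).union (hqfin L)
  have hTKf : ({u : Pl K | below L u ∈ TL} ∪ {u | ¬ UnramAt N u} : Set (Pl K)).Finite := by
    refine Set.Finite.union ?_ (unram_cofinite K N)
    refine (hTLf.biUnion (t := fun v => {w : Pl K | Lies w v}) fun v _ => GalFin2Aux.finite_above v).subset ?_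
    intro u hu
    simp only [Set.mem_iUnion, exists_prop]
    exact ⟨below L u, hu, lies_below u⟩
  have R4 := ((rayFn_nq (K := K) q).prod ((rayFn_of_isRay hχ).cn (K := K))).enlarge hTKf
  obtain ⟨m₀, hm₀, hbad, hray⟩ := R4
  have hBf : {u : Pl K | m₀ ≤ u.asIdeal}.Finite :=
    (Ideal.finite_factors (R := 𝓞 K) hm₀).subset fun v hv => Ideal.dvd_iff_le.2 hv
  have hbadK : ∀ u : Pl K, ¬ m₀ ≤ u.asIdeal → below L u ∉ TL ∧ UnramAt N u ∧ ¬ Above q u := by
    intro u hu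
    refine ⟨fun h => hu (hbad u (Or.inr (Or.inl h))), ?_, fun h => hu (hbad u (Or.inl (Or.inl h)))⟩
    by_contra h
    exact hu (hbad u (Or.inr (Or.inr h)))
  have hun : ∀ u : Pl K, u ∉ {u : Pl K | m₀ ≤ u.asIdeal} → UnramAt N u :=
    fun u hu => (hbadK u hu).2.1
  -- (a)
  have hnq : ∀ u : Pl K, ¬ m₀ ≤ u.asIdeal → ∀ (P : Pl N) (i : ℕ), FrobAt u P (φ₀ ^ i) →
      nq q u = γ ^ i := by
    intro u hu P i hF
    have h1 := frob_zeta hq hζ hF (hbadK u hu).2.2
    rw [hφ₀, hτi] at h1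
    have h2 := hζeq _ _ h1
    rw [← hγi] at h2
    unfold nq
    rw [dif_neg]
    · apply Units.ext
      rw [Units.val_mk0, ← h2]
    · rw [← h2]
      exact Units.ne_zero _
  set V0 := Subgroup.closure {x : (ZMod q)ˣ × κˣ | ∃ v : Pl K, ¬ m₀ ≤ v.asIdeal ∧ x = Ψ v} with hV0
  have hV0f : Finite V0 := fin_closure Ψ m₀ hm₀ hray
  have hmap : V0.map (MonoidHom.fst (ZMod q)ˣ κˣ) = Subgroup.zpowers γ := by
    apply le_antisymm
    · rw [hV0, MonoidHom.map_closure, Subgroup.closure_le]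
      rintro _ ⟨_, ⟨u, hu, rfl⟩, rfl⟩
      obtain ⟨P, hP⟩ := exists_above (L := N) u
      obtain ⟨φ, hφ⟩ := exists_frob_above hP
      obtain ⟨i, rfl⟩ := hφtop φ
      change nq q u ∈ _
      rw [hnq u hu P i hφ]
      exact Subgroup.pow_mem _ (Subgroup.mem_zpowers γ) i
    · rw [Subgroup.zpowers_le]
      have hden := frob_density_fin (F := K) (L := N) {u : Pl K | m₀ ≤ u.asIdeal} hBf hun
        {φ | Subgroup.zpowers φ = ⊤} (fun g hg g' hg' => by
          change Subgroup.zpowers g' = ⊤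
          rw [hg']; exact hg) (fun g hg x => by
          rw [hcomm]; exact hg)
      obtain ⟨u, ⟨hu, P, σ, hσ, hF⟩, -⟩ := exists_of_hasDen (by
        have h1 : Nonempty {φ : Gal(N/K) | Subgroup.zpowers φ = ⊤} := ⟨⟨φ₀, hφz⟩⟩
        have h2 : 0 < Nat.card {φ : Gal(N/K) | Subgroup.zpowers φ = ⊤} := Nat.card_pos
        have h3 : 0 < Nat.card Gal(N/K) := Nat.card_pos
        positivity) hden Set.finite_empty
      obtain ⟨i, rfl⟩ := hφtop σ
      have h1 : orderOf (φ₀ ^ i) = p ^ a * m := by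
        rw [← Nat.card_zpowers, hσ, Subgroup.card_top, hcardG]
      have h2 : (p ^ a * m).Coprime i := by
        have h3 := orderOf_pow φ₀ (n := i)
        rw [h1, hφord] at h3
        have h4 : (p ^ a * m).gcd i ∣ p ^ a * m := Nat.gcd_dvd_left _ _
        have h5 := Nat.div_mul_cancel h4
        rw [← h3] at h5
        exact Nat.eq_of_mul_eq_mul_left hpm0 (by rw [h5, mul_one])
      have h6 : (orderOf γ).Coprime i := by
        rw [hγord]
        exact Nat.Coprime.coprime_mul_left h2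
      have h7 : γ ^ i ∈ V0.map (MonoidHom.fst (ZMod q)ˣ κˣ) := by
        rw [← hnq u hu P i hF]
        exact ⟨Ψ u, Subgroup.subset_closure ⟨u, hu, rfl⟩, rfl⟩
      obtain ⟨k, hk⟩ := exists_pow_eq_self_of_coprime h6.symm
      rw [← hk]
      exact Subgroup.pow_mem _ h7 k
  have hcardmap : Nat.card (V0.map (MonoidHom.fst (ZMod q)ˣ κˣ)) = m := by
    rw [hmap, Nat.card_zpowers, hγord]
  -- (b)
  have hordm : ∀ k : ℕ, orderOf (φ₀ ^ (m * k)) = p ^ a / (p ^ a).gcd k := by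
    intro k
    rw [orderOf_pow, hφord, mul_comm (p ^ a) m, Nat.gcd_mul_left, Nat.mul_div_mul_left _ _ hm]
  let A0 : Set Gal(N/K) := {σ | σ ∈ Subgroup.zpowers (φ₀ ^ m) ∧ σ ∉ Subgroup.zpowers (φ₀ ^ (m * p))}
  have hle0 : Subgroup.zpowers (φ₀ ^ (m * p)) ≤ Subgroup.zpowers (φ₀ ^ m) := by
    rw [Subgroup.zpowers_le, pow_mul]
    exact Subgroup.pow_mem _ (Subgroup.mem_zpowers _) p
  have hA0card : Nat.card A0 = p ^ a - p ^ (a - 1) := by
    have h1 : orderOf (φ₀ ^ m) = p ^ a := by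
      have := hordm 1
      rwa [mul_one, Nat.gcd_one_right, Nat.div_one] at this
    have h1' : orderOf (φ₀ ^ (m * p)) = p ^ (a - 1) := by
      rw [hordm p, Nat.gcd_eq_right (dvd_pow_self p ha.ne')]
      obtain ⟨a', rfl⟩ : ∃ a', a = a' + 1 := ⟨a - 1, by omega⟩
      rw [pow_succ, Nat.mul_div_cancel _ hp.pos, Nat.add_sub_cancel]
    have h2 : A0 = ((Subgroup.zpowers (φ₀ ^ m) : Subgroup Gal(N/K)) : Set Gal(N/K)) \
        ((Subgroup.zpowers (φ₀ ^ (m * p)) : Subgroup Gal(N/K)) : Set Gal(N/K)) := by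
      ext σ
      simp [A0]
    rw [h2, Nat.card_coe_set_eq, Set.ncard_sdiff hle0]
    congr 1
    · rw [← Nat.card_coe_set_eq]
      exact (Nat.card_zpowers _).trans h1
    · rw [← Nat.card_coe_set_eq]
      exact (Nat.card_zpowers _).trans h1'
  have hdenA := frob_density_fin (F := K) (L := N) {u : Pl K | m₀ ≤ u.asIdeal} hBf hun A0
    (fun g hg g' hg' => by
      constructor
      · have h1 : g' ∈ Subgroup.zpowers g := by
          rw [← hg']
          exact Subgroup.mem_zpowers g'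
        exact (Subgroup.zpowers_le.2 hg.1) h1
      · intro h
        apply hg.2
        have h1 : g ∈ Subgroup.zpowers g' := by
          rw [hg']
          exact Subgroup.mem_zpowers g
        exact (Subgroup.zpowers_le.2 h) h1)
    (fun g hg x => by rw [hcomm]; exact hg)
  have hineq := first_ineq' Ψ m₀ hm₀ hray (A := _) ?_ (HasDen.prime_norm hdenA)
  swap
  · rintro u ⟨⟨hu, P, σ, ⟨hσ1, hσ2⟩, hF⟩, hpr⟩
    refine ⟨hu, ?_⟩
    have h1 : σ ∈ Submonoid.powers (φ₀ ^ m) := by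
      rw [mem_powers_iff_mem_zpowers]
      exact hσ1
    obtain ⟨k, hk0⟩ := h1
    change (φ₀ ^ m) ^ k = σ at hk0
    subst hk0
    rw [← pow_mul] at hσ2 hF
    have hk : ¬ p ∣ m * k := by
      intro h
      have h2 : p ∣ k := hpm.dvd_of_dvd_mul_left h
      apply hσ2
      obtain ⟨k', rfl⟩ := h2
      have h3 : φ₀ ^ (m * (p * k')) = (φ₀ ^ (m * p)) ^ k' := by rw [← mul_assoc, pow_mul]
      rw [h3]
      exact Subgroup.pow_mem _ (Subgroup.mem_zpowers _) k'
    have hNw := GalFin2Aux.absNorm_eq_of_prime (lies_below (F := L) u) hpr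
    have hbu : below K P = u := GalFinAux.lies_iff.1 hF.1
    have hF' : FrobAt (below L u) P (τ ^ (m * k)) := by
      refine ⟨?_, fun x => ?_⟩
      · rw [GalFinAux.lies_iff, ← hbu, below_below]
      · rw [← hφ₀', ← hNw]
        exact hF.2 x
    have hw1 : χ (below L u) = 1 := by
      refine H (below L u) (fun h => (hbadK u hu).1 (Or.inl (Or.inl h))) ?_ P (m * k) hF'
        (dvd_mul_right m k) hk
      change (Ideal.absNorm (below L u).asIdeal).Prime
      rw [← hNw]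
      exact hpr
    have hw2 : χ' (below L u) = 1 := Units.ext hw1
    have h3 : nq q u = 1 := by
      rw [hnq u hu P (m * k) hF, hγ1]
      exact dvd_mul_right m k
    change (nq q u, cn L χ' u) = 1
    rw [h3]
    unfold cn
    rw [hw2, one_pow]
    rfl
  have hnat : (p - 1) * Nat.card V0 ≤ p * m := by
    obtain ⟨a', rfl⟩ : ∃ a', a = a' + 1 := ⟨a - 1, by omega⟩
    have e1 : p ^ (a' + 1) - p ^ (a' + 1 - 1) = p ^ a' * (p - 1) := by
      rw [Nat.add_sub_cancel, pow_succ, Nat.mul_sub, mul_one]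
    rw [hA0card, hcardG, e1, div_mul_eq_mul_div, div_le_one (by exact_mod_cast hpm0)] at hineq
    have h1 : p ^ a' * (p - 1) * Nat.card V0 ≤ p ^ (a' + 1) * m := by exact_mod_cast hineq
    have h2 : p ^ a' * ((p - 1) * Nat.card V0) ≤ p ^ a' * (p * m) := by
      calc p ^ a' * ((p - 1) * Nat.card V0) = p ^ a' * (p - 1) * Nat.card V0 := by ring
        _ ≤ p ^ (a' + 1) * m := h1
        _ = p ^ a' * (p * m) := by ring
    exact Nat.le_of_mul_le_mul_left h2 (pow_pos hp.pos a')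
  -- (c)
  have hgraph := graph_of_card hp hm V0 hcardmap hnat
  obtain ⟨⟨γ', b⟩, hb, hγ'⟩ : γ ∈ V0.map (MonoidHom.fst (ZMod q)ˣ κˣ) := by
    rw [hmap]
    exact Subgroup.mem_zpowers γ
  change γ' = γ at hγ'
  replace hb : ((γ, b) : (ZMod q)ˣ × κˣ) ∈ V0 := by rw [← hγ']; exact hb
  clear hγ'
  have hγm : γ ^ m = 1 := (hγ1 m).2 (dvd_refl m)
  refine ⟨b, TL ∪ below L '' {u : Pl K | m₀ ≤ u.asIdeal}, ?_, hTLf.union (hBf.image _), ?_⟩
  · have h1 : ((γ, b) : (ZMod q)ˣ × κˣ) ^ m ∈ V0 := Subgroup.pow_mem _ hb m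
    have h2 : ((γ, b) : (ZMod q)ˣ × κˣ) ^ m = (1, b ^ m) := by rw [Prod.pow_mk, hγm]
    rw [h2] at h1
    have h3 := hgraph _ h1
    rw [← Units.val_pow_eq_pow_val, h3, Units.val_one]
  intro w hw P i hF
  have hbw : below L (below K P) = w := by
    rw [below_below]
    exact GalFinAux.lies_iff.1 hF.1
  have h1 : Nm (below K P) = Nm w := by
    refine absNorm_eq_of_frob hF fun y => ?_
    rw [← hφ₀']
    exact smul_alg (φ₀ ^ i) y
  have h2 : ¬ m₀ ≤ (below K P).asIdeal := fun h => hw (Or.inr ⟨below K P, h, hbw⟩)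
  have h3 : cn L χ' (below K P) = χ' w := by
    unfold cn
    rw [rdeg_eq_one (by rw [h1, hbw]), pow_one, hbw]
  have hFK : FrobAt (below K P) P (φ₀ ^ i) := by
    refine ⟨lies_below P, fun x => ?_⟩
    have h4 : Ideal.absNorm (below K P).asIdeal = Ideal.absNorm w.asIdeal := h1
    rw [hφ₀', h4]
    exact hF.2 x
  have h4 : nq q (below K P) = γ ^ i := hnq _ h2 P i hFK
  have hmemV : Ψ (below K P) * ((γ, b) ^ i)⁻¹ ∈ V0 :=
    mul_mem (Subgroup.subset_closure ⟨_, h2, rfl⟩) (inv_mem (Subgroup.pow_mem _ hb i))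
  have hval : Ψ (below K P) * ((γ, b) ^ i)⁻¹ = (1, χ' w * (b ^ i)⁻¹) := by
    change (nq q (below K P) * (γ ^ i)⁻¹, cn L χ' (below K P) * (b ^ i)⁻¹) = _
    rw [h4, mul_inv_cancel, h3]
  rw [hval] at hmemV
  have hfin := hgraph _ hmemV
  have h5 : χ' w = b ^ i := mul_inv_eq_one.1 hfin
  rw [← Units.val_pow_eq_pow_val, ← h5]
  rfl

end Pool.Agent.CGN
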