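import Pool.Agent.CGN.GalDef

/-!
# The Kummer factors
-/

noncomputable section

set_option linter.unusedSectionVars false

namespace Pool.Agent.CGN

open NumberField IsDedekindDomain Matrix Pool.Agent.CG2 Pool.Agent.CG2.GalFinAux
  Pool.Agent.CG2.GalInfAux Pool.Agent.CGQ

variable {F : Type} [Field F] [NumberField F]

theorem rt_pow {n : ℕ} (hn : 0 < n) (y : Fbar F) : rt n y ^ n = y := by
  have h : ∃ x : Fbar F, x ^ n = y := IsAlgClosed.exists_pow_nat_eq y hn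
  rw [rt, dif_pos h]
  exact h.choose_spec

theorem rt_ne {n : ℕ} (hn : 0 < n) {y : Fbar F} (hy : y ≠ 0) : rt n y ≠ 0 := by
  intro h
  apply hy
  rw [← rt_pow hn y, h, zero_pow hn.ne']

/-- The action on an arbitrary root. -/
theorem kz_apply {n : ℕ} (hn : 0 < n) {y : Fbar F} (hy : y ≠ 0) {g : GalF F} (hg : TrivMu n g)
    {x : Fbar F} (hx : x ^ n = y) : g x = kz n y g * x := by
  have h0 := rt_ne hn hy
  have h1 : (x / rt n y) ^ n = 1 := by rw [div_pow, hx, rt_pow hn, div_self hy]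
  have h2 := hg _ h1
  rw [map_div₀] at h2
  have h3 : g (rt n y) ≠ 0 := (map_ne_zero g).2 h0
  rw [div_eq_div_iff h3 h0] at h2
  rw [kz, div_mul_eq_mul_div, eq_div_iff h0, h2, mul_comm]

theorem kz_ne {n : ℕ} (hn : 0 < n) {y : Fbar F} (hy : y ≠ 0) (g : GalF F) : kz n y g ≠ 0 :=
  div_ne_zero ((map_ne_zero g).2 (rt_ne hn hy)) (rt_ne hn hy)

theorem kz_pow {n : ℕ} (hn : 0 < n) {y : Fbar F} (hy : y ≠ 0) {g : GalF F} (hgy : g y = y) :
    kz n y g ^ n = 1 := by
  rw [kz, div_pow, ← map_pow, rt_pow hn, hgy, div_self hy]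

theorem kz_one {n : ℕ} (hn : 0 < n) {y : Fbar F} (hy : y ≠ 0) : kz n y (1 : GalF F) = 1 :=
  div_self (rt_ne hn hy)

theorem kz_mul {n : ℕ} (hn : 0 < n) {y : Fbar F} (hy : y ≠ 0) {a b : GalF F} (ha : TrivMu n a)
    (hb : b y = y) : kz n y (a * b) = kz n y a * kz n y b := by
  have h0 := rt_ne hn hy
  have h1 : b (rt n y) = kz n y b * rt n y := by rw [kz, div_mul_cancel₀ _ h0]
  have h2 : a (kz n y b) = kz n y b := ha _ (kz_pow hn hy hb)
  have h3 : (a * b) (rt n y) = kz n y b * a (rt n y) := by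
    rw [AlgEquiv.mul_apply, h1, map_mul, h2]
  rw [kz, h3, mul_div_assoc, mul_comm]
  rfl

theorem kz_npow {n : ℕ} (hn : 0 < n) {y : Fbar F} (hy : y ≠ 0) {a : GalF F} (ha : TrivMu n a)
    (hay : a y = y) (k : ℕ) : kz n y (a ^ k) = kz n y a ^ k := by
  induction k with
  | zero => rw [pow_zero, pow_zero, kz_one hn hy]
  | succ k ih =>
    have h1 : TrivMu n (a ^ k) := (HMu F n).pow_mem ha k
    rw [pow_succ, kz_mul hn hy h1 hay, ih, pow_succ]

theorem kz_inv {n : ℕ} (hn : 0 < n) {y : Fbar F} (hy : y ≠ 0) {a : GalF F} (ha : TrivMu n a)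
    (hay : a y = y) : kz n y a⁻¹ = (kz n y a)⁻¹ := by
  have h1 := kz_mul hn hy ((HMu F n).inv_mem ha) hay
  rw [inv_mul_cancel, kz_one hn hy] at h1
  exact eq_inv_of_mul_eq_one_left h1.symm

theorem kz_eq_one_iff {n : ℕ} (hn : 0 < n) {y : Fbar F} (hy : y ≠ 0) {g : GalF F}
    (hg : TrivMu n g) : kz n y g = 1 ↔ ∀ x : Fbar F, x ^ n = y → g x = x := by
  constructor
  · intro h x hx
    rw [kz_apply hn hy hg hx, h, one_mul]
  · intro h
    rw [kz, h _ (rt_pow hn y), div_self (rt_ne hn hy)]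

/-- Conjugation. -/
theorem kz_conj {n : ℕ} (hn : 0 < n) {y : Fbar F} (hy : y ≠ 0) (c : GalF F) {g : GalF F}
    (hg : TrivMu n g) : kz n (c y) (c * g * c⁻¹) = c (kz n y g) := by
  have hcy : c y ≠ 0 := (map_ne_zero c).2 hy
  have h1 : (c⁻¹ (rt n (c y))) ^ n = y := by
    rw [← map_pow, rt_pow hn]
    exact c.symm_apply_apply y
  have h2 : (c * g * c⁻¹) (rt n (c y)) = c (kz n y g) * rt n (c y) := by
    rw [AlgEquiv.mul_apply, AlgEquiv.mul_apply, kz_apply hn hy hg h1, map_mul]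
    congr 1
    exact c.apply_symm_apply _
  rw [kz, h2, mul_div_cancel_right₀ _ (rt_ne hn hcy)]

theorem kz_mul_left {n : ℕ} (hn : 0 < n) {y y' : Fbar F} (hy : y ≠ 0) (hy' : y' ≠ 0)
    {g : GalF F} (hg : TrivMu n g) : kz n (y * y') g = kz n y g * kz n y' g := by
  have h0 := rt_ne hn hy
  have h0' := rt_ne hn hy'
  have h1 : (rt n y * rt n y') ^ n = y * y' := by rw [mul_pow, rt_pow hn, rt_pow hn]
  have h2 := kz_apply hn (mul_ne_zero hy hy') hg h1
  rw [map_mul, kz_apply hn hy hg (rt_pow hn y), kz_apply hn hy' hg (rt_pow hn y')] at h2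
  apply mul_right_cancel₀ (mul_ne_zero h0 h0')
  rw [← h2]
  ring

theorem kz_one_left {n : ℕ} (hn : 0 < n) {g : GalF F} (hg : TrivMu n g) :
    kz n (1 : Fbar F) g = 1 :=
  (kz_eq_one_iff hn one_ne_zero hg).2 fun x hx => hg x hx

theorem kz_pow_left {n : ℕ} (hn : 0 < n) {y : Fbar F} (hy : y ≠ 0) {g : GalF F}
    (hg : TrivMu n g) (k : ℕ) : kz n (y ^ k) g = kz n y g ^ k := by
  induction k with
  | zero => rw [pow_zero, pow_zero, kz_one_left hn hg]
  | succ k ih => rw [pow_succ, kz_mul_left hn (pow_ne_zero k hy) hy hg, ih, pow_succ]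

theorem kz_inv_left {n : ℕ} (hn : 0 < n) {y : Fbar F} (hy : y ≠ 0) {g : GalF F}
    (hg : TrivMu n g) : kz n y⁻¹ g = (kz n y g)⁻¹ := by
  have h1 := kz_mul_left hn (inv_ne_zero hy) hy hg
  rw [inv_mul_cancel₀ hy, kz_one_left hn hg] at h1
  exact eq_inv_of_mul_eq_one_left h1.symm

theorem kz_prod_left {n : ℕ} (hn : 0 < n) {ι : Type} (s : Finset ι) (y : ι → Fbar F)
    (hy : ∀ i, y i ≠ 0) {g : GalF F} (hg : TrivMu n g) :
    kz n (∏ i ∈ s, y i) g = ∏ i ∈ s, kz n (y i) g := by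
  classical
  induction s using Finset.induction_on with
  | empty => rw [Finset.prod_empty, Finset.prod_empty, kz_one_left hn hg]
  | insert a s ha ih =>
    rw [Finset.prod_insert ha, Finset.prod_insert ha,
      kz_mul_left hn (hy a) (Finset.prod_ne_zero_iff.2 fun i _ => hy i) hg, ih]

end Pool.Agent.CGN
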