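import Pool.Agent.CGN.GalKey

/-!
# One eigenvalue
-/

noncomputable section

set_option linter.unusedSectionVars false

namespace Pool.Agent.CGN

open NumberField IsDedekindDomain Pool.Agent.CG2 Pool.Agent.CG2.GalFinAux
  Pool.Agent.CG2.GalInfAux Pool.Agent.CGQ

/- MODULE OE -/
section aux

variable {F L N : Type} [Field F] [NumberField F] [Field L] [NumberField L] [Field N]
    [NumberField N] [Algebra F L] [Algebra F N] [Algebra L N] [IsScalarTower F L N]

/-- An automorphism trivial on `L`, over `L`. -/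
private def OE_lift (τ : Gal(N/F)) (hτL : ∀ x : L, τ (algebraMap L N x) = algebraMap L N x) :
    Gal(N/L) :=
  AlgEquiv.ofRingEquiv (f := τ.toRingEquiv) hτL

private theorem OE_lift_apply (τ : Gal(N/F))
    (hτL : ∀ x : L, τ (algebraMap L N x) = algebraMap L N x) (x : N) :
    OE_lift τ hτL x = τ x := rfl

private theorem OE_pow (τ : Gal(N/F))
    (hτL : ∀ x : L, τ (algebraMap L N x) = algebraMap L N x) (i : ℕ) (x : N) :
    (OE_lift τ hτL ^ i) x = (τ ^ i) x := by
  induction i generalizing x with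
  | zero => rfl
  | succ i ih =>
    rw [pow_succ, pow_succ, AlgEquiv.mul_apply, AlgEquiv.mul_apply, ih]
    rfl

private theorem OE_smul (τ : Gal(N/F))
    (hτL : ∀ x : L, τ (algebraMap L N x) = algebraMap L N x) (i : ℕ) (x : 𝓞 N) :
    (OE_lift τ hτL ^ i) • x = (τ ^ i) • x := by
  apply RingOfIntegers.ext
  exact OE_pow τ hτL i (x : N)

private theorem OE_order (τ : Gal(N/F))
    (hτL : ∀ x : L, τ (algebraMap L N x) = algebraMap L N x) :
    orderOf (OE_lift τ hτL) = orderOf τ := by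
  rw [orderOf_eq_orderOf_iff]
  intro n
  constructor
  · intro h
    ext x
    rw [← OE_pow τ hτL, h]
    rfl
  · intro h
    ext x
    rw [OE_pow τ hτL, h]
    rfl

private theorem OE_frob_iff (τ : Gal(N/F))
    (hτL : ∀ x : L, τ (algebraMap L N x) = algebraMap L N x) (i : ℕ) {v : Pl F} {P : Pl N}
    (hP : Lies P v) (hN : Nm (below L P) = Nm v) :
    FrobAt (below L P) P (OE_lift τ hτL ^ i) ↔ FrobAt v P (τ ^ i) := by
  have hN' : Ideal.absNorm (below L P).asIdeal = Ideal.absNorm v.asIdeal := hN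
  constructor
  · rintro ⟨_, h⟩
    refine ⟨hP, fun x => ?_⟩
    have h1 := h x
    rw [OE_smul, hN'] at h1
    exact h1
  · rintro ⟨_, h⟩
    refine ⟨lies_below P, fun x => ?_⟩
    rw [OE_smul, hN']
    exact h x

private theorem OE_pow_fix (τ : Gal(N/F))
    (hτL : ∀ x : L, τ (algebraMap L N x) = algebraMap L N x) (i : ℕ) (y : 𝓞 L) :
    (τ ^ i) • algebraMap (𝓞 L) (𝓞 N) y = algebraMap (𝓞 L) (𝓞 N) y := by
  apply RingOfIntegers.ext
  change (τ ^ i) (algebraMap L N (y : L)) = algebraMap L N (y : L)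
  induction i with
  | zero => rfl
  | succ i ih =>
    rw [pow_succ, AlgEquiv.mul_apply, hτL, ih]

end aux

/-- The exponent of another generator is prime to the order. -/
private theorem OE_coprime {G : Type*} [Group G] {τ : G} {n : ℕ} (hn : 0 < n)
    (hτ : orderOf τ = n) {k : ℕ} (hk : orderOf (τ ^ k) = n) : k.Coprime n := by
  have hτ0 : IsOfFinOrder τ := by
    rw [← orderOf_pos_iff, hτ]
    exact hn
  rw [hτ0.orderOf_pow, hτ] at hk
  have h1 : n.gcd k ∣ n := Nat.gcd_dvd_left _ _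
  have h2 : 0 < n.gcd k := Nat.gcd_pos_of_pos_left _ hn
  have h3 : n = n.gcd k * (n / n.gcd k) := (Nat.mul_div_cancel' h1).symm
  rw [hk] at h3
  have h4 : n.gcd k = 1 := Nat.eq_of_mul_eq_mul_right hn (by rw [one_mul]; exact h3.symm)
  rw [Nat.Coprime, Nat.gcd_comm]
  exact h4

/-- **OE**. There is a place with a Frobenius element generating the cyclic group of `τ`, at which
`χ` has the same value for all embeddings of `L`.

PROOF. (Compare `one_eig` in CGQ/GalOne.lean, its private lemmas on `gone_lift` are needed.) For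
`g ∈ Gal(N/F)` put `τ_g = g * τ * g⁻¹`, trivial on `L` (`hτL g⁻¹`), of order `p ^ a * m`, and
`(τ_g ^ i) (g ζ) = g ζ ↔ m ∣ i`. `key` for `gone_lift τ_g` and the root of unity `g ζ` gives `b g` and
`T' g`: if `v ∉ T''` (`T'' = T ∪ ramified ∪ ⋃ g, below F '' T' g`) and `FrobAt v P (τ ^ i)`, then
`FrobAt v (actP g P) (τ_g ^ i)` (`frob_conj`), `Nm (below L (actP g P)) = Nm v` (`absNorm_eq_of_frob`), so
(`gone_frob_iff`) (*) `χ (below L (actP g P)) = b g ^ i`. The hypothesis of `key` is `H` for the place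
`actP g⁻¹ P'` (for `w` of prime norm, `Nm (below F w) = Nm w`).
(1) If `c * τ ^ e0 * c⁻¹ = τ ^ e0` then `b (g * c) = b g`: by `frob_density_fin` (with `T''`) and
`exists_of_hasDen` for the set of all `x y x⁻¹`, `zpowers y = zpowers (τ ^ e0)`, there are `v ∉ T''`, `P`, `y`
with `FrobAt v P y`, `y = τ ^ (e0 k)`, `τ ^ e0 = y ^ l` (`k, l : ℕ`, the group is finite). `c` commutes with
`y`, so `FrobAt v (actP c P) y`; (*) for `P` and `g * c`, and for `actP c P` and `g` (`actP_mul`):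
`b (g * c) ^ (e0 k) = b g ^ (e0 k)`; raise to the power `l`: `e0 k l ≡ e0 ≡ 1` modulo `m`
(`τ ^ (e0 k l) = τ ^ e0` applied to `ζ`, or the orders) and `b ^ m = 1` give `b (g * c) = b g`.
(2) `frob_density_fin`, `HasDen.prime_norm` and `exists_of_hasDen` for the set of all `x τ ^ i x⁻¹`,
`i.Coprime (p m)`, as in `one_eig` (`gone_coprime`, there `p ^ a * m` instead of `p * m`), give `v ∉ T''` of
prime norm, `P`, `i` prime to `p m` with `FrobAt v P (τ ^ i)`.
(3) If `h` is trivial on `L` then `below L (actP h P) = below L P`, so `b h ^ i = b 1 ^ i` by (*), and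
`b h = b 1` (`i` prime to `m`). For an arbitrary `g` take `c` from `hc g⁻¹`: `h = g * c` is trivial on `L`,
`b g = b (g * c) = b 1` by (1). So `χ (below L (actP g P)) = b 1 ^ i` for all `g`. -/
theorem one_eig {F L N : Type} [Field F] [NumberField F] [Field L] [NumberField L] [Field N]
    [NumberField N] [Algebra F L] [Algebra F N] [Algebra L N] [IsScalarTower F L N]
    [IsGalois F N] {κ : Type} [Field κ] {p a m q : ℕ} [CharP κ p] (hp : p.Prime) (ha : 0 < a)
    (hq : q.Prime) (hm : 0 < m) (τ : Gal(N/F))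
    (hτL : ∀ (g : Gal(N/F)) (x : L), τ (g (algebraMap L N x)) = g (algebraMap L N x))
    (hτ : orderOf τ = p ^ a * m) (hpm : p.Coprime m) {ζ : N} (hζ : IsPrimitiveRoot ζ q)
    (hτζ : ∀ i : ℕ, (τ ^ i) ζ = ζ ↔ m ∣ i) (e0 : ℕ) (he0 : e0 ≡ 1 [MOD m])
    (hc : ∀ g : Gal(N/F), ∃ c : Gal(N/F), (∀ x : L, c (algebraMap L N x) = g (algebraMap L N x)) ∧
      c * τ ^ e0 * c⁻¹ = τ ^ e0)
    {S : Set (Pl L)} (hS : S.Finite) (χ : Pl L → κ)
    (hχ : IsRay S χ) {T : Set (Pl F)} (hT : T.Finite)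
    (H : ∀ (P : Pl N) (v : Pl F) (i : ℕ), v ∉ T → (Nm v).Prime → FrobAt v P (τ ^ i) → m ∣ i →
      ¬ p ∣ i → ∀ g : Gal(N/F), χ (below L (actP g P)) = 1) :
    ∃ (b : κ) (P : Pl N) (v : Pl F) (i : ℕ), v ∉ T ∧ UnramAt N v ∧ (Nm v).Prime ∧
      i.Coprime (p * m) ∧ FrobAt v P (τ ^ i) ∧ ∀ g : Gal(N/F), χ (below L (actP g P)) = b := by
  classical
  have hGal : IsGalois L N := IsGalois.tower_top_of_isGalois F L N
  have hpm0 : 0 < p ^ a * m := Nat.mul_pos (pow_pos hp.pos a) hm
  -- the places of `L` over `T`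
  have hTL : {w : Pl L | below F w ∈ T}.Finite := by
    refine (hT.biUnion fun v _ => GalFin2Aux.finite_above (K := L) v).subset fun w hw => ?_
    exact Set.mem_biUnion hw (lies_below w)
  have hτi : ∀ (i : ℕ) (g : Gal(N/F)) (x : L), (τ ^ i) (g (algebraMap L N x)) =
      g (algebraMap L N x) := by
    intro i g x
    induction i with
    | zero => rfl
    | succ i ih => rw [pow_succ, AlgEquiv.mul_apply, hτL, ih]
  have hgg : ∀ (g : Gal(N/F)) (x : N), g (g⁻¹ x) = x := fun g x => g.apply_symm_apply x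
  have hgg' : ∀ (g : Gal(N/F)) (x : N), g⁻¹ (g x) = x := fun g x => g.symm_apply_apply x
  have hcL : ∀ (g : Gal(N/F)) (x : L), (g * τ * g⁻¹) (algebraMap L N x) = algebraMap L N x := by
    intro g x
    rw [AlgEquiv.mul_apply, AlgEquiv.mul_apply, hτL, hgg]
  have hcpow : ∀ (g : Gal(N/F)) (i : ℕ), (g * τ * g⁻¹) ^ i = g * τ ^ i * g⁻¹ := fun g i => conj_pow
  have hcord : ∀ g : Gal(N/F), orderOf (g * τ * g⁻¹) = p ^ a * m := by
    intro g
    rw [← hτ]
    exact orderOf_injective (MulAut.conj g).toMonoidHom (MulAut.conj g).injective τ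
  -- the key lemma for every conjugate
  have hkey : ∀ g : Gal(N/F), ∃ (b : κ) (T' : Set (Pl L)), b ^ m = 1 ∧ T'.Finite ∧
      ∀ w : Pl L, w ∉ T' → ∀ (P : Pl N) (i : ℕ),
        FrobAt w P (OE_lift (g * τ * g⁻¹) (hcL g) ^ i) → χ w = b ^ i := by
    intro g
    refine key (L := L) (N := N) hp ha hq hm (OE_lift (g * τ * g⁻¹) (hcL g))
      ((OE_order _ (hcL g)).trans (hcord g)) hpm
      (ζ := g ζ) (hζ.map_of_injective (f := g) g.injective) (fun i => ?_) hS χ hχ hTL ?_
    · rw [OE_pow, hcpow, AlgEquiv.mul_apply, AlgEquiv.mul_apply, hgg', ← hτζ]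
      exact g.injective.eq_iff
    · intro w hw hwp P i hP hmi hpi
      have h1 : below L P = w := lies_iff.1 hP.1
      subst h1
      have h2 : Nm (below L P) = Nm (below F P) := by
        have h3 := GalFin2Aux.absNorm_eq_of_prime (lies_below (F := F) (below L P)) hwp
        rw [below_below] at h3
        exact h3
      have h4 := (OE_frob_iff (g * τ * g⁻¹) (hcL g) i (lies_below P) h2).1 hP
      rw [hcpow] at h4
      have h5 := frob_conj h4 g⁻¹
      have h6 : g⁻¹ * (g * τ ^ i * g⁻¹) * g⁻¹⁻¹ = τ ^ i := by group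
      rw [h6] at h5
      have h7 := H (actP g⁻¹ P) (below F P) i (by
        intro h8
        apply hw
        change below F (below L P) ∈ T
        rw [below_below]
        exact h8) (by rw [← h2]; exact hwp) h5 hmi hpi g
      rw [← actP_mul, mul_inv_cancel, actP_one] at h7
      exact h7
  choose b T' hbm hT' hb using hkey
  set T'' : Set (Pl F) := T ∪ {v | ¬ UnramAt N v} ∪ ⋃ g : Gal(N/F), (below F) '' T' g with hT''def
  have hT'' : T''.Finite := (hT.union (unram_cofinite F N)).union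
    (Set.finite_iUnion fun g => (hT' g).image _)
  have hun'' : ∀ v : Pl F, v ∉ T'' → UnramAt N v := fun v hv => by
    by_contra h
    exact hv (Or.inl (Or.inr h))
  -- (*)
  have hstar : ∀ (v : Pl F) (P : Pl N) (i : ℕ), v ∉ T'' → FrobAt v P (τ ^ i) →
      ∀ g : Gal(N/F), χ (below L (actP g P)) = b g ^ i := by
    intro v P i hv hF g
    have h1 := frob_conj hF g
    rw [← hcpow] at h1
    have h2 : Nm (below L (actP g P)) = Nm v :=
      absNorm_eq_of_frob h1 (OE_pow_fix (g * τ * g⁻¹) (hcL g) i)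
    refine hb g (below L (actP g P)) ?_ (actP g P) i
      ((OE_frob_iff (g * τ * g⁻¹) (hcL g) i h1.1 h2).2 h1)
    intro h3
    apply hv
    refine Or.inr (Set.mem_iUnion.2 ⟨g, below L (actP g P), h3, ?_⟩)
    rw [below_below]
    exact lies_iff.1 h1.1
  have hpos : ∀ (A : Set Gal(N/F)) (g : Gal(N/F)), g ∈ A →
      (0 : ℝ) < (Nat.card A : ℝ) / Nat.card Gal(N/F) := by
    intro A g hg
    have h1 : Nonempty A := ⟨⟨g, hg⟩⟩
    have h2 : 0 < Nat.card A := Nat.card_pos
    have h3 : 0 < Nat.card Gal(N/F) := Nat.card_pos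
    positivity
  -- (1)
  have hcomm : ∀ c : Gal(N/F), c * τ ^ e0 * c⁻¹ = τ ^ e0 → ∀ g : Gal(N/F), b (g * c) = b g := by
    intro c hc1 g
    let A : Set Gal(N/F) := {z | ∃ (y x : Gal(N/F)), Subgroup.zpowers y =
      Subgroup.zpowers (τ ^ e0) ∧ z = x * y * x⁻¹}
    have hmapz : ∀ x y : Gal(N/F), Subgroup.zpowers (x * y * x⁻¹) =
        (Subgroup.zpowers y).map (MulAut.conj x).toMonoidHom := by
      intro x y
      rw [MonoidHom.map_zpowers]
      rfl
    have hden := frob_density_fin (L := N) T'' hT'' hun'' A (by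
      rintro z ⟨y, x, hy, rfl⟩ z' hz'
      refine ⟨x⁻¹ * z' * x, x, ?_, by group⟩
      have h1 := hmapz x⁻¹ z'
      rw [inv_inv, hz', ← hmapz] at h1
      rw [h1, ← hy]
      congr 1
      group) (by
      rintro z ⟨y, x, hy, rfl⟩ x'
      exact ⟨y, x' * x, hy, by group⟩)
    obtain ⟨v, ⟨hv, P', z, ⟨y, x, hy, rfl⟩, hfr⟩, -⟩ := exists_of_hasDen
      (hpos A (τ ^ e0) ⟨τ ^ e0, 1, rfl, by simp⟩) hden Set.finite_empty
    have hP : FrobAt v (actP x⁻¹ P') y := by
      have h1 := frob_conj hfr x⁻¹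
      have h2 : x⁻¹ * (x * y * x⁻¹) * x⁻¹⁻¹ = y := by group
      rwa [h2] at h1
    set P : Pl N := actP x⁻¹ P' with hPdef
    obtain ⟨k, hk⟩ : ∃ k : ℕ, (τ ^ e0) ^ k = y := by
      have h1 : y ∈ Subgroup.zpowers (τ ^ e0) := by
        rw [← hy]
        exact Subgroup.mem_zpowers y
      rw [← mem_powers_iff_mem_zpowers] at h1
      exact h1
    obtain ⟨l, hl⟩ : ∃ l : ℕ, y ^ l = τ ^ e0 := by
      have h1 : τ ^ e0 ∈ Subgroup.zpowers y := by
        rw [hy]
        exact Subgroup.mem_zpowers (τ ^ e0)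
      rw [← mem_powers_iff_mem_zpowers] at h1
      exact h1
    have hyk : y = τ ^ (e0 * k) := by rw [pow_mul, hk]
    have hcy : c * y * c⁻¹ = y := by
      rw [← hk, ← conj_pow, hc1]
    have hP2 : FrobAt v (actP c P) (τ ^ (e0 * k)) := by
      have h1 := frob_conj hP c
      rwa [hcy, hyk] at h1
    rw [hyk] at hP
    have e1 := hstar v P _ hv hP (g * c)
    have e2 := hstar v (actP c P) _ hv hP2 g
    rw [actP_mul] at e1
    rw [e1] at e2
    have hmod : e0 * k * l ≡ 1 [MOD m] := by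
      have h1 : τ ^ (e0 * k * l) = τ ^ e0 := by rw [pow_mul, ← hyk, hl]
      have h2 : e0 * k * l ≡ e0 [MOD p ^ a * m] := by
        rw [← hτ]
        exact (isOfFinOrder_of_finite τ).pow_eq_pow_iff_modEq.1 h1
      exact (h2.of_mul_left (p ^ a)).trans he0
    have hfin : ∀ y : κ, y ^ m = 1 → y ^ (e0 * k * l) = y := by
      intro y hy1
      rw [pow_eq_pow_of_modEq hmod hy1, pow_one]
    have e3 := congrArg (fun y => y ^ l) e2
    simp only [← pow_mul] at e3
    rw [hfin _ (hbm _), hfin _ (hbm _)] at e3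
    exact e3
  -- (2)
  let A : Set Gal(N/F) := {g | ∃ (i : ℕ) (x : Gal(N/F)), i.Coprime (p ^ a * m) ∧
    g = x * τ ^ i * x⁻¹}
  have hA : ∀ g ∈ A, ∀ g' : Gal(N/F), Subgroup.zpowers g' = Subgroup.zpowers g → g' ∈ A := by
    rintro g ⟨i, x, hi, rfl⟩ g' hg'
    have h1 : g' ∈ Subgroup.zpowers (x * τ ^ i * x⁻¹) := by
      rw [← hg']
      exact Subgroup.mem_zpowers g'
    rw [← mem_powers_iff_mem_zpowers] at h1
    obtain ⟨k, hk⟩ := h1
    have hk' : g' = x * τ ^ (i * k) * x⁻¹ := by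
      rw [← hk]
      change (x * τ ^ i * x⁻¹) ^ k = _
      rw [conj_pow, pow_mul]
    refine ⟨i * k, x, ?_, hk'⟩
    apply OE_coprime hpm0 hτ
    have h2 : orderOf g' = orderOf (x * τ ^ i * x⁻¹) := by
      rw [← Nat.card_zpowers, ← Nat.card_zpowers, hg']
    have h3 : ∀ y : Gal(N/F), orderOf (x * y * x⁻¹) = orderOf y := fun y =>
      orderOf_injective (MulAut.conj x).toMonoidHom (MulAut.conj x).injective y
    rw [hk', h3, h3] at h2
    rw [h2, (isOfFinOrder_of_finite τ).orderOf_pow, hτ, Nat.gcd_comm, hi, Nat.div_one]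
  have hA' : ∀ g ∈ A, ∀ x : Gal(N/F), x * g * x⁻¹ ∈ A := by
    rintro g ⟨i, y, hi, rfl⟩ x
    exact ⟨i, x * y, hi, by group⟩
  have hden := HasDen.prime_norm (frob_density_fin (L := N) T'' hT'' hun'' A hA hA')
  obtain ⟨v, ⟨⟨hv, P', σ, ⟨i, x, hi, rfl⟩, hfr⟩, hvp⟩, -⟩ := exists_of_hasDen
    (hpos A τ ⟨1, 1, Nat.coprime_one_left _, by simp⟩) hden Set.finite_empty
  have hP : FrobAt v (actP x⁻¹ P') (τ ^ i) := by
    have h1 := frob_conj hfr x⁻¹
    have h2 : x⁻¹ * (x * τ ^ i * x⁻¹) * x⁻¹⁻¹ = τ ^ i := by group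
    rwa [h2] at h1
  set P : Pl N := actP x⁻¹ P' with hPdef
  have him : i.Coprime m := Nat.Coprime.coprime_mul_left_right hi
  have hipa : i.Coprime (p ^ a) := Nat.Coprime.coprime_mul_right_right hi
  have hip : i.Coprime p := Nat.Coprime.coprime_dvd_right (dvd_pow_self p ha.ne') hipa
  -- (3)
  have htriv : ∀ h : Gal(N/F), (∀ x : L, h (algebraMap L N x) = algebraMap L N x) →
      b h = b 1 := by
    intro h hh
    have h1 : below L (actP h P) = below L (actP (1 : Gal(N/F)) P) := by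
      rw [actP_one]
      apply HeightOneSpectrum.ext
      ext x
      change algebraMap (𝓞 L) (𝓞 N) x ∈ (actP h P).asIdeal ↔
        algebraMap (𝓞 L) (𝓞 N) x ∈ P.asIdeal
      rw [mem_actP]
      have h2 : h⁻¹ • algebraMap (𝓞 L) (𝓞 N) x = algebraMap (𝓞 L) (𝓞 N) x := by
        rw [inv_smul_eq_iff]
        apply RingOfIntegers.ext
        exact (hh (x : L)).symm
      rw [h2]
    have h2 := hstar v P i hv hP h
    have h3 := hstar v P i hv hP 1
    rw [h1, h3] at h2
    -- `b 1 ^ i = b h ^ i`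
    have hbez : (1 : ℤ) = i * Nat.gcdA i m + m * Nat.gcdB i m := by
      have := Nat.gcd_eq_gcd_ab i m
      rw [him] at this
      exact_mod_cast this
    have hmne : m ≠ 0 := hm.ne'
    have hne : ∀ g, b g ≠ 0 := by
      intro g h4
      have h5 := hbm g
      rw [h4, zero_pow hmne] at h5
      exact zero_ne_one h5
    have hfin : ∀ g, b g = (b g ^ i) ^ (Nat.gcdA i m) * (b g ^ m) ^ (Nat.gcdB i m) := by
      intro g
      rw [← _root_.zpow_natCast, ← _root_.zpow_natCast, ← _root_.zpow_mul, ← _root_.zpow_mul,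
        ← zpow_add₀ (hne g), ← hbez, _root_.zpow_one]
    rw [hfin h, hfin 1, hbm, hbm, h2]
  refine ⟨b 1 ^ i, P, v, i, fun h => hv (Or.inl (Or.inl h)), hun'' v hv, hvp,
    Nat.Coprime.mul_right hip him, hP, fun g => ?_⟩
  obtain ⟨c, hcL', hcc⟩ := hc g⁻¹
  have h1 : b (g * c) = b 1 := by
    apply htriv
    intro x
    rw [AlgEquiv.mul_apply, hcL', hgg]
  rw [hstar v P i hv hP g, ← hcomm c hcc g, h1]
/- END OE -/

end Pool.Agent.CGN
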