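import Pool.Agent.CGN.Hecke
import Pool.Agent.CGQ.SysCoh
import Pool.Agent.CGQ.SysTrace

/-!
# Equivariant maps of the coefficients and the Hecke operators
-/

noncomputable section

namespace Pool.Agent.CGN

open CategoryTheory NumberField IsDedekindDomain
open Pool.Agent.CG2 (Pl subRep quoRep)
open Pool.Agent.CGQ (Sys diag single single_apply single_same single_ne single_comm single_comm'
  act rt lt act_rt rt_mul rt_one Forms formsRep coeff formsMap mapCoh mapCoh_comp mapCoh_id cohMap
  resRep Qt trTerm trTerm_mk trHom trHom_apply exists_rep)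

variable {F : Type} [Field F] [NumberField F] {𝒟 : Sys F} {n : ℕ} {S : Set (Pl F)}
  {Φ : Chart n 𝒟 S} {O : Type} [CommRing O] {K K' : Subgroup 𝒟.A}

theorem formsMap_heckeHom {W W' : Type} [AddCommGroup W] [Module O W]
    [AddCommGroup W'] [Module O W'] (τ : Representation O K W)
    (τ' : Representation O K W') (hU : UnramOff K τ Φ) (hU' : UnramOff K τ' Φ)
    (φ : W →ₗ[O] W') (hφ : ∀ k w, φ (τ k w) = τ' k (φ w)) (t : Idx n S) :
    formsMap τ τ' φ hφ ≫ heckeHom K τ' hU' t = heckeHom K τ hU t ≫ formsMap τ τ' φ hφ := by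
  apply Rep.hom_ext
  apply Representation.IntertwiningMap.ext
  apply LinearMap.ext
  intro f
  apply Subtype.ext
  funext y
  exact (map_sum φ _ _).symm

/-- A map of representations which commutes with the Hecke operators commutes with the Hecke
algebra on cohomology. -/
theorem hact_comm {K K' : Subgroup 𝒟.A} {W W' : Type} [AddCommGroup W] [Module O W]
    [AddCommGroup W'] [Module O W'] (τ : Representation O K W)
    (τ' : Representation O K' W') (hU : UnramOff K τ Φ) (hU' : UnramOff K' τ' Φ)
    (f : coeff K τ ⟶ coeff K' τ')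
    (hf : ∀ t : Idx n S, f ≫ heckeHom K' τ' hU' t = heckeHom K τ hU t ≫ f)
    (i : ℕ) (t : HeckeAlg n S O) (z : groupCohomology (coeff K τ) i) :
    mapCoh f i (hact K τ hU i t z) = hact K' τ' hU' i t (mapCoh f i z) := by
  induction t using MvPolynomial.induction_on generalizing z with
  | C a =>
    have h1 : hact K τ hU i (MvPolynomial.C a) = algebraMap O _ a := by
      have := (hact K τ hU i).commutes a
      rwa [MvPolynomial.algebraMap_eq] at this
    have h2 : hact K' τ' hU' i (MvPolynomial.C a) = algebraMap O _ a := by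
      have := (hact K' τ' hU' i).commutes a
      rwa [MvPolynomial.algebraMap_eq] at this
    rw [h1, h2, Module.algebraMap_end_apply, Module.algebraMap_end_apply, map_smul]
  | add a b ha hb =>
    rw [map_add, map_add, LinearMap.add_apply, LinearMap.add_apply, map_add, ha, hb]
  | mul_X a t ha =>
    rw [map_mul, map_mul, Module.End.mul_apply, Module.End.mul_apply, ha, hact_X, hact_X]
    congr 1
    have h1 := mapCoh_comp f (heckeHom K' τ' hU' t) i z
    rw [hf t, mapCoh_comp] at h1
    exact h1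

/-- **E1** -/
theorem cohMap_hecke {W W' : Type} [AddCommGroup W] [Module O W]
    [AddCommGroup W'] [Module O W'] (τ : Representation O K W)
    (τ' : Representation O K W') (hU : UnramOff K τ Φ) (hU' : UnramOff K τ' Φ)
    (φ : W →ₗ[O] W') (hφ : ∀ k w, φ (τ k w) = τ' k (φ w))
    (i : ℕ) (t : HeckeAlg n S O) (z : groupCohomology (coeff K τ) i) :
    cohMap τ τ' φ hφ i (hact K τ hU i t z) = hact K τ' hU' i t (cohMap τ τ' φ hφ i z) :=
  hact_comm τ τ' hU hU' _ (formsMap_heckeHom τ τ' hU hU' φ hφ) i t z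

theorem unram_sub {W : Type} [AddCommGroup W] [Module O W] {τ : Representation O K W}
    (hU : UnramOff K τ Φ) (T : Submodule O W) (hT : ∀ k, ∀ w ∈ T, τ k w ∈ T) :
    UnramOff K (subRep τ T hT) Φ := by
  intro v
  refine ⟨(hU v).hyp, fun k hk => ?_⟩
  apply LinearMap.ext
  intro w
  apply Subtype.ext
  change τ _ w.1 = w.1
  rw [(hU v).triv k hk]
  rfl

theorem unram_quo {W : Type} [AddCommGroup W] [Module O W] {τ : Representation O K W}
    (hU : UnramOff K τ Φ) (T : Submodule O W) (hT : ∀ k, ∀ w ∈ T, τ k w ∈ T) :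
    UnramOff K (quoRep τ T hT) Φ := by
  intro v
  refine ⟨(hU v).hyp, fun k hk => ?_⟩
  apply LinearMap.ext
  intro w
  obtain ⟨w, rfl⟩ := Submodule.Quotient.mk_surjective T w
  change Submodule.Quotient.mk (τ _ w) = _
  rw [(hU v).triv k hk]
  rfl

theorem tr_hecke {W : Type} [AddCommGroup W] [Module O W] [Fintype (Qt K K')] (h : K' ≤ K) (τ : Representation O K W)
    (hU : UnramOff K τ Φ) (hU' : UnramOff K' (resRep h τ) Φ) (t : Idx n S) :
    trHom h τ ≫ heckeHom K τ hU t = heckeHom K' (resRep h τ) hU' t ≫ trHom h τ := by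
  apply Rep.hom_ext
  apply Representation.IntertwiningMap.ext
  apply LinearMap.ext
  intro f
  apply Subtype.ext
  funext y
  change ∑ a ∈ (cosets_finite t.1.1 t.2).toFinset, ∑ c : Qt K K',
      trTerm h τ f (rt y (sg Φ t.1 (Quotient.out a))) c =
    ∑ c : Qt K K', trTerm h τ (heckeLin K' (resRep h τ) hU' t f) y c
  rw [Finset.sum_comm]
  refine Finset.sum_congr rfl fun c _ => ?_
  obtain ⟨κ, rfl, hκ⟩ := exists_rep (K := K) (K' := K') (v := t.1.1)
    (fun k hk => (hU' t.1).hyp.mem _ ((hU t.1).hyp.le k hk)) h c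
  rw [trTerm_mk]
  change _ = τ κ (∑ a ∈ (cosets_finite t.1.1 t.2).toFinset,
    (f : Forms K' (resRep h τ)).1 (rt (rt y κ.1) (sg Φ t.1 (Quotient.out a))))
  rw [map_sum]
  refine Finset.sum_congr rfl fun a _ => ?_
  refine (trTerm_mk h τ (f : Forms K' (resRep h τ)) _ κ).trans ?_
  rw [← rt_mul, ← rt_mul, sg_apply, single_comm' _ hκ]

theorem unram_res {W : Type} [AddCommGroup W] [Module O W] (h : K' ≤ K) {τ : Representation O K W} (hU : UnramOff K τ Φ)
    (hK' : HypOff K' Φ) : UnramOff K' (resRep h τ) Φ := by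
  intro v
  refine ⟨hK' v, fun k hk => ?_⟩
  exact (hU v).triv k hk

end Pool.Agent.CGN
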