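import Pool.Agent.CGN.AD
import Pool.Agent.CGN.Fam
import Pool.Agent.CG2.GalFin
import Pool.Agent.CG2.GalL

/-!
# The interface of the parts U (unit trick), G (Galois side) and E (generic unit)
-/

noncomputable section

namespace Pool.Agent.CGN

open NumberField IsDedekindDomain Matrix
open Pool.Agent.CG2 (Pl Fv Ov GalF Fbar Zbar Over IsInertia IsFrob Nm IsRay InRay expo TotPos Lies)
open Pool.Agent.CG2.GalFinAux (below)
open Pool.Agent.CGQ

variable {F : Type} [Field F] [NumberField F]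

/-! ### Charts of `sysA A` -/

/-- Isomorphisms of the algebras `D_v` with the matrix algebra, for the places outside `S`. -/
abbrev Spl (A : AD F) (S : Set (Pl F)) :=
  ∀ v : {v : Pl F // v ∉ S}, DV A v.1 ≃ₐ[Fv v.1] Matrix (Fin A.n) (Fin A.n) (Fv v.1)

/-- The chart attached to such isomorphisms. -/
def chartA {A : AD F} {S : Set (Pl F)} (φ : Spl A S) : Chart A.n (sysA A) S where
  e v := Units.mapEquiv (φ v).toMulEquiv

/-- The homomorphism `x ↦ φ (g⁻¹ x g)` from `D` to the matrices. -/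
def psi {A : AD F} {S : Set (Pl F)} (φ : Spl A S) (v : {v : Pl F // v ∉ S}) (g : (DV A v.1)ˣ) :
    DF A →+* Matrix (Fin A.n) (Fin A.n) (Fv v.1) where
  toFun x := φ v ((g⁻¹ : (DV A v.1)ˣ).1 * dloc A v.1 x * g.1)
  map_one' := by rw [map_one, mul_one, Units.inv_mul, map_one]
  map_zero' := by rw [map_zero, mul_zero, zero_mul, map_zero]
  map_add' x y := by rw [map_add, mul_add, add_mul, map_add]
  map_mul' x y := by
    have h : g.1 * (g⁻¹ : (DV A v.1)ˣ).1 = 1 := Units.mul_inv g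
    have h2 : (g⁻¹ : (DV A v.1)ˣ).1 * dloc A v.1 (x * y) * g.1 =
        ((g⁻¹ : (DV A v.1)ˣ).1 * dloc A v.1 x * g.1) *
          ((g⁻¹ : (DV A v.1)ˣ).1 * dloc A v.1 y * g.1) := by
      rw [map_mul]
      simp only [mul_assoc]
      rw [← mul_assoc g.1 (g⁻¹ : (DV A v.1)ˣ).1, h, one_mul]
    rw [h2, map_mul]

section L

variable {L : Type} [Field L] [NumberField L] [Algebra F L] {A : AD F}

/-- A nonzero element of `L` as an element of `Dˣ`, for an embedding of `L` in `D`. -/
def uL (ι : L →ₐ[F] DF A) : Lˣ →* (sysA A).G := (Units.map (ι : L →* DF A) : Lˣ →* (DF A)ˣ)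

/-- A unit of `𝓞 L` as an element of `Dˣ`. -/
def uA (ι : L →ₐ[F] DF A) (u : (𝓞 L)ˣ) : (sysA A).G :=
  uL ι (Units.map (algebraMap (𝓞 L) L : 𝓞 L →* L) u)

theorem uA_mul (ι : L →ₐ[F] DF A) (u v : (𝓞 L)ˣ) : uA ι (u * v) = uA ι u * uA ι v := by
  rw [uA, map_mul, map_mul]
  rfl

theorem uA_val (ι : L →ₐ[F] DF A) (u : (𝓞 L)ˣ) :
    (show (DF A)ˣ from uA ι u).1 = ι ((u : 𝓞 L) : L) := rfl

/-! ### Places of `L` -/

theorem finite_aboveL (L : Type) [Field L] [NumberField L] [Algebra F L] (v : Pl F) :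
    {w : Pl L | below F w = v}.Finite := by
  have hinj : Function.Injective (algebraMap (𝓞 F) (𝓞 L)) :=
    FaithfulSMul.algebraMap_injective _ _
  have h2 : v.asIdeal.map (algebraMap (𝓞 F) (𝓞 L)) ≠ ⊥ := by
    rw [Ne, Ideal.map_eq_bot_iff_of_injective hinj]
    exact v.ne_bot
  refine (Ideal.finite_factors (I := v.asIdeal.map (algebraMap (𝓞 F) (𝓞 L)))
    (by rw [Ideal.zero_eq_bot]; exact h2)).subset ?_
  intro w hw
  apply Ideal.dvd_iff_le.2
  have h3 : below F w = v := hw
  rw [← h3, Ideal.map_le_iff_le_comap]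
  exact le_rfl

/-- The places of `L` above `v`. -/
def abv (L : Type) [Field L] [NumberField L] [Algebra F L] (v : Pl F) : Finset (Pl L) :=
  (finite_aboveL L v).toFinset

theorem mem_abv {v : Pl F} {w : Pl L} : w ∈ abv L v ↔ below F w = v := by
  rw [abv, Set.Finite.mem_toFinset]
  rfl

/-- The place `v` splits completely in `L`. -/
def Split (L : Type) [Field L] [NumberField L] [Algebra F L] (v : Pl F) : Prop :=
  (abv L v).card = Module.finrank F L

/-- The quotient of the residues of `u` at `w` and at `w'` (places above the completely split place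
`v`) is an `m`-th power in the residue field of `v`. -/
def PPow (v : Pl F) (m : ℕ) (w w' : Pl L) (u : 𝓞 L) : Prop :=
  ∃ a b x : 𝓞 F, algebraMap (𝓞 F) (𝓞 L) a - u ∈ w.asIdeal ∧
    algebraMap (𝓞 F) (𝓞 L) b - u ∈ w'.asIdeal ∧ a - x ^ m * b ∈ v.asIdeal

/-- The place `v` is selected by the unit trick: it splits completely in `L`, all quotients of the
residues of `u` are `m`-th powers and no quotient of two residues of `e` is. -/
structure Sel (L : Type) [Field L] [NumberField L] [Algebra F L] (u e : (𝓞 L)ˣ) (m : ℕ)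
    (v : Pl F) : Prop where
  split : Split L v
  pw : ∀ w ∈ abv L v, ∀ w' ∈ abv L v, PPow v m w w' (u : 𝓞 L)
  np : ∀ w ∈ abv L v, ∀ w' ∈ abv L v, w ≠ w' → ¬ PPow v m w w' (e : 𝓞 L)

/-! ### The generic unit -/

/-- `g` acts on the embeddings of `L` in `Fbar` as the permutation `π`. -/
def ActsAs (g : GalF F) (π : Equiv.Perm (L →ₐ[F] Fbar F)) : Prop :=
  ∀ (j : L →ₐ[F] Fbar F) (x : L), g (j x) = π j x

/-- The properties of the generic unit `u` and of the second unit `e` of `L = F(u)`; `v₃` is a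
place where the inertia group contains a transposition. -/
structure Gen (A : AD F) (K : Subgroup (sysA A).A) (y : (sysA A).Pt) (v₃ : Pl F)
    {L : Type} [Field L] [NumberField L] [Algebra F L] (ι : L →ₐ[F] DF A) (u e : (𝓞 L)ˣ) :
    Prop where
  deg : Module.finrank F L = A.n
  hu : uA ι u ∈ Stab K y
  he : uA ι e ∈ Stab K y
  ind : ∀ (a b : ℤ) (f : F), ((e : 𝓞 L) : L) ^ a = ((u : 𝓞 L) : L) ^ b * algebraMap F L f → a = 0
  sn : ∀ π : Equiv.Perm (L →ₐ[F] Fbar F), ∃ g : GalF F, ActsAs g π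
  tr : ∃ (Q : Ideal (Zbar F)) (g : GalF F) (j₁ j₂ : L →ₐ[F] Fbar F), Over v₃ Q ∧ IsInertia Q g ∧
    j₁ ≠ j₂ ∧ (∀ x, g (j₁ x) = j₂ x) ∧ (∀ x, g (j₂ x) = j₁ x) ∧
    ∀ j : L →ₐ[F] Fbar F, j ≠ j₁ → j ≠ j₂ → ∀ x, g (j x) = j x

end L

/-- The group `K` is contained in the principal congruence subgroup at the place `v`. -/
def SmallAt {A : AD F} {S : Set (Pl F)} (φ : Spl A S) (v : {v : Pl F // v ∉ S})
    (K : Subgroup (sysA A).A) : Prop :=
  ∀ k ∈ K, ∀ a b, Valued.v ((φ v (show (DV A v.1)ˣ from k.1 v.1).1 - 1) a b) < 1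

/-! ### The Galois side -/

/-- `ρ` does not factor through a proper parabolic subgroup of `GL_n`, after any finite extension
of the field `k`: over no finite extension is there a stable subspace other than `0` and the
whole space. -/
def NonEis {n : ℕ} {k : Type} [Field k] (ρ : GalF F →* GL (Fin n) k) : Prop :=
  ∀ (k' : Type) [Field k'] [Algebra k k'], Module.Finite k k' →
    ∀ V : Submodule k' (Fin n → k'),
      (∀ (g : GalF F), ∀ v ∈ V,
        ((ρ g : Matrix (Fin n) (Fin n) k).map (algebraMap k k')).mulVec v ∈ V) →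
      V = ⊥ ∨ V = ⊤

/-- The representation over the algebraic closure. -/
def rhobar {n : ℕ} {k : Type} [Field k] (ρ : GalF F →* GL (Fin n) k) :
    GalF F →* GL (Fin n) (AlgebraicClosure k) :=
  (GeneralLinearGroup.map (n := Fin n) (algebraMap k (AlgebraicClosure k))).comp ρ

/-- The hypothesis on the Frobenius elements (produced by the unit trick): at the selected places
`v ∉ T` with `N v ≡ 1` modulo `p ^ M` the (arithmetic, `ε = 1`, or geometric, `ε = -1`) Frobenius
elements have the eigenvalues `χ w`, `w` above `v`. -/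
def HypE {n : ℕ} {κ : Type} [Field κ] (ε : ℤˣ) (p : ℕ) (ρ : GalF F →* GL (Fin n) κ) {L : Type}
    [Field L] [NumberField L] [Algebra F L] (u e : (𝓞 L)ˣ) (χ : Pl L → κ) (T : Set (Pl F)) :
    Prop :=
  ∀ v : Pl F, v ∉ T → ∀ M : ℕ, 0 < M → p ^ M ∣ Nm v - 1 → Sel L u e (p ^ M) v →
    ∀ Q : Ideal (Zbar F), Over v Q → ∀ g : GalF F, IsFrob v Q g →
      (ρ (g ^ (ε : ℤ)) : Matrix (Fin n) (Fin n) κ).charpoly =
        ∏ w ∈ abv L v, (Polynomial.X - Polynomial.C (χ w))

end Pool.Agent.CGN
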