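import Pool.Agent.CGN.KSys
import Pool.Agent.CGN.KNA
import Pool.Agent.CGN.KND

/-!
# Finitely many orbits of cells
-/

noncomputable section

set_option linter.unusedSectionVars false
set_option linter.unusedVariables false

namespace Pool.Agent.CGN

open NumberField IsDedekindDomain Pool.Agent.CGQ Pool.Agent.CG3
open Pool.Agent.CG2 (Pl Fv Ov PolySys CellSys Asc)

open SC.Alg (co)

variable {F : Type} [Field F] [NumberField F] {A : AD F} [DivAlg A]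

/-- **KNE.** PROOF. `one_bound`, `DMA_local`, `fin_cover` (`SysOC`). -/
theorem one_fin {K : Subgroup (sysA A).A} (hK : OC K) :
    ∃ Φ : Set (sysA A).Pt, Φ.Finite ∧ ∀ y : (sysA A).Pt,
      (∃ h : (PAI A).V, (∀ e ∈ LatE y.2, 1 ≤ qe A e h) ∧ qe A 1 h ≤ 9 / 8) →
      (1 : DF A) ∈ Lat y.2 → ∃ y₀ ∈ Φ, ∃ κ ∈ K, y = rt y₀ κ := by
  obtain ⟨M, hM, hM2⟩ := one_bound (A := A)
  obtain ⟨Φ, hΦ, h⟩ := fin_cover (𝒟 := sysA A) (fun v => DMA A M v)
    (fun v => DMA_compact M hM.ne' v) (DMA_fin M hM.ne') hK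
  refine ⟨(Set.univ : Set (sysA A).Sg) ×ˢ Φ, Set.finite_univ.prod hΦ, ?_⟩
  rintro ⟨s, g⟩ hh h1
  obtain ⟨φ, hφ, κ, hκ, hg⟩ := h g fun v => DMA_local g M h1 (hM2 g hh h1) v
  refine ⟨(s, φ), ⟨Set.mem_univ _, hφ⟩, κ, hκ, ?_⟩
  rw [rt, hg]

variable (N : ℕ) (hN : 3 ≤ N) (C : Cls A N → ℝ) (hC : GoodA A N C)

/-- **KNF.** PROOF. Port of `CG2.KoeCell_faces`, with the positive functional `qe A e`. -/
theorem koeA_faces (g : (sysA A).A) (e : (sysA A).G) :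
    {R : Finset (sysA A).G | (koeA N hN C hC g).Face R ∧ e ∈ R}.Finite := by
  classical
  have hK := (koeA N hN C hC g).comp (qe A e) (qe_pos e) (9 / 8)
  have hB := PolySys.PolyA_tight_compact (P := koeA N hN C hC g) _ hK (fun h hh => hh.1)
  refine (hB.toFinset.powerset.finite_toSet).subset ?_
  rintro R ⟨⟨hA, h, hh, hR⟩, he⟩
  rw [Finset.mem_coe, Finset.mem_powerset]
  intro x hx
  rw [Set.Finite.mem_toFinset]
  refine ⟨hA x hx, h, ⟨hh, ?_⟩, (hR x hx).le⟩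
  have h1 : qe A e h = cA N C g e := hR e he
  change qe A e h ≤ _
  rw [h1]
  exact (cA_lt N C hC g e).2.le

private theorem kfin_one (g : (sysA A).A) (h : (1 : (sysA A).G) ∈ LatE g) : (1 : DF A) ∈ Lat g := by
  have h2 : (uK (1 : (sysA A).G)).1 ∈ Lat g := h
  have h3 : (uK (1 : (sysA A).G)).1 = (1 : DF A) := Units.val_one
  rwa [h3] at h2

/-- **KNG.** PROOF. `cs_cell`-form of the cells at `b = mkK K y` (`mkK_surj`): if `R` is a cell of `koeA y.2` which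
contains `1` then `one_fin` (the point `h` of the face `R`; `cA_lt`) gives `y = rt y₀ κ` with `y₀` in a finite
set, `b = mkK K y₀`, and `R` is one of the finitely many faces of `koeA y₀.2` which contain `1`
(`koeA_faces`, `koeA_face_mul`). -/
theorem orbA {K : Subgroup (sysA A).A} (hK : K ≤ KNA A N) (hO : OC K) :
    {p : PtK K × Finset (sysA A).G | (((famA N hN C hC).cs hK).X p.1).cell p.2 ∧
      (1 : (sysA A).G) ∈ p.2}.Finite := by
  classical
  obtain ⟨Φ, hΦ, hcov⟩ := one_fin hO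
  have hfin : (⋃ y₀ ∈ Φ, (fun R => (mkK K y₀, R)) '' {R : Finset (sysA A).G |
      (koeA N hN C hC y₀.2).Face R ∧ (1 : (sysA A).G) ∈ R}).Finite :=
    hΦ.biUnion fun y₀ _ => (koeA_faces N hN C hC y₀.2 1).image _
  refine hfin.subset ?_
  rintro ⟨b, R⟩ ⟨hR, h1⟩
  obtain ⟨y, rfl⟩ := mkK_surj b
  have hcell : (koeA N hN C hC y.2).Cell R := by
    have h2 := congrFun (PFam.cs_cell (famA N hN C hC) hK y) R
    change (((famA N hN C hC).cs hK).X (mkK K y)).cell R at hR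
    rw [h2] at hR
    exact hR
  obtain ⟨hA, h, hh, hT⟩ := hcell.1
  have hq1 : qe A 1 h = cA N C y.2 1 := hT _ h1
  have hh' : ∀ z ∈ LatE y.2, 1 ≤ qe A z h := fun z hz =>
    (cA_lt N C hC y.2 z).1.le.trans (hh z hz)
  have hq2 : qe A 1 h ≤ 9 / 8 := by
    rw [hq1]
    exact (cA_lt N C hC y.2 1).2.le
  have hL : (1 : DF A) ∈ Lat y.2 := kfin_one y.2 (hA 1 h1)
  obtain ⟨y₀, hy₀, κ, hκ, hyκ⟩ := hcov y ⟨h, hh', hq2⟩ hL
  simp only [Set.mem_iUnion]
  refine ⟨y₀, hy₀, R, ⟨?_, h1⟩, ?_⟩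
  · have h2 := hcell.1
    rw [hyκ] at h2
    exact (koeA_face_mul N hN C hC y₀.2 (hK hκ) R).1 h2
  · change (mkK K y₀, R) = (mkK K y, R)
    rw [hyκ, mkK_rt y₀ hκ]

end Pool.Agent.CGN
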