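import Mathlib

/-!
# Frobenius' theorem: the real division algebras of finite dimension
-/

noncomputable section

namespace Pool.Agent.CGN

open Quaternion

/-! MODULE KX_A -/

/-- **KX_A.** PROOF. `x` is integral over `ℝ`, its minimal polynomial `p` is irreducible (`Δ` has no zero
divisors) and monic of degree `≤ 2` (`Irreducible.degree_le_two`); if the degree is `1` then `x` is real and
`t = 2 x`, `s = x²` do. -/
theorem exists_quad {Δ : Type} [DivisionRing Δ] [Algebra ℝ Δ] [FiniteDimensional ℝ Δ] (x : Δ) :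
    ∃ t s : ℝ, x * x = t • x - algebraMap ℝ Δ s := by
  have hx : IsIntegral ℝ x := Algebra.IsIntegral.isIntegral x
  have hirr := minpoly.irreducible hx
  have hdeg : (minpoly ℝ x).natDegree ≤ 2 := Polynomial.natDegree_le_of_degree_le hirr.degree_le_two
  have hmon := minpoly.monic hx
  have h0 := minpoly.aeval ℝ x
  rw [Polynomial.aeval_eq_sum_range' (show (minpoly ℝ x).natDegree < 3 by omega), Finset.sum_range_succ,
    Finset.sum_range_succ, Finset.sum_range_one, pow_zero, pow_one, pow_two, ← Algebra.algebraMap_eq_smul_one] at h0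
  rcases Nat.lt_or_ge (minpoly ℝ x).natDegree 2 with h2 | h2
  · have hpos := hirr.natDegree_pos
    have h1 : (minpoly ℝ x).natDegree = 1 := by omega
    have hc2 : (minpoly ℝ x).coeff 2 = 0 := Polynomial.coeff_eq_zero_of_natDegree_lt (by omega)
    have hc1 : (minpoly ℝ x).coeff 1 = 1 := by
      have := hmon.coeff_natDegree
      rwa [h1] at this
    rw [hc2, hc1, zero_smul, add_zero, one_smul] at h0
    set c := (minpoly ℝ x).coeff 0 with hc
    have h3 : x = algebraMap ℝ Δ (-c) := by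
      rw [map_neg]
      exact eq_neg_of_add_eq_zero_right h0
    refine ⟨-(2 * c), c * c, ?_⟩
    rw [h3, ← map_mul, Algebra.smul_def, ← map_mul, ← map_sub]
    congr 1
    ring
  · have h1 : (minpoly ℝ x).natDegree = 2 := by omega
    have hc2 : (minpoly ℝ x).coeff 2 = 1 := by
      have := hmon.coeff_natDegree
      rwa [h1] at this
    rw [hc2, one_smul] at h0
    refine ⟨-(minpoly ℝ x).coeff 1, (minpoly ℝ x).coeff 0, ?_⟩
    rw [neg_smul]
    have h3 := eq_neg_of_add_eq_zero_right h0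
    rw [h3]
    abel

/-! MODULE KX_B -/

/-- **KX_B.** PROOF. `exists_quad`: `y = x - t / 2` satisfies `y² = r` with `r` real. If `r ≥ 0` then
`(y - √r)(y + √r) = 0`, so `x` is real. If `r < 0` then `i = y / √(-r)`. -/
theorem real_or_i {Δ : Type} [DivisionRing Δ] [Algebra ℝ Δ] [FiniteDimensional ℝ Δ] (x : Δ) :
    (∃ a : ℝ, x = algebraMap ℝ Δ a) ∨ ∃ (a b : ℝ) (i : Δ), i * i = -1 ∧ x = algebraMap ℝ Δ a + b • i := by
  obtain ⟨t, s, h⟩ := exists_quad x
  have hy : (x - algebraMap ℝ Δ (t / 2)) * (x - algebraMap ℝ Δ (t / 2)) = algebraMap ℝ Δ (t ^ 2 / 4 - s) := by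
    have h1 : x * algebraMap ℝ Δ (t / 2) = algebraMap ℝ Δ (t / 2) * x := (Algebra.commutes _ _).symm
    have h2 : t • x = algebraMap ℝ Δ (t / 2) * x + algebraMap ℝ Δ (t / 2) * x := by
      rw [← add_mul, ← map_add, Algebra.smul_def, add_halves]
    have h3 : algebraMap ℝ Δ (t / 2) * algebraMap ℝ Δ (t / 2) = algebraMap ℝ Δ (t ^ 2 / 4) := by
      rw [← map_mul]
      congr 1
      ring
    rw [sub_mul, mul_sub, mul_sub, h, h1, h3, h2, map_sub]
    abel
  rcases le_or_gt 0 (t ^ 2 / 4 - s) with hr | hr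
  · left
    set w := Real.sqrt (t ^ 2 / 4 - s) with hw
    have hww : w * w = t ^ 2 / 4 - s := Real.mul_self_sqrt hr
    rw [← hww, map_mul] at hy
    have hcomm : Commute (x - algebraMap ℝ Δ (t / 2)) (algebraMap ℝ Δ w) := (Algebra.commutes w _).symm
    rcases hcomm.mul_self_eq_mul_self_iff.1 hy with h1 | h1
    · refine ⟨t / 2 + w, ?_⟩
      rw [map_add, ← h1]
      abel
    · refine ⟨t / 2 - w, ?_⟩
      rw [map_sub, sub_eq_add_neg, ← h1]
      abel
  · right
    set w := Real.sqrt (-(t ^ 2 / 4 - s)) with hw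
    have hww : w * w = -(t ^ 2 / 4 - s) := Real.mul_self_sqrt (by linarith)
    have hw0 : w ≠ 0 := by
      intro h0
      rw [h0, mul_zero] at hww
      linarith
    refine ⟨t / 2, w, w⁻¹ • (x - algebraMap ℝ Δ (t / 2)), ?_, ?_⟩
    · rw [smul_mul_smul_comm, hy, ← mul_inv, hww, Algebra.smul_def, ← map_mul]
      have h1 : (-(t ^ 2 / 4 - s))⁻¹ * (t ^ 2 / 4 - s) = -1 := by
        have h2 : t ^ 2 / 4 - s ≠ 0 := ne_of_lt hr
        rw [inv_neg, neg_mul, inv_mul_cancel₀ h2]
      rw [h1, map_neg, map_one]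
    · rw [smul_smul, mul_inv_cancel₀ hw0, one_smul]
      abel

/-! MODULE KX_C -/

/-- **KX_C.** PROOF. `real_or_i x`: if `x = a + b j`, `j² = -1`, `b ≠ 0`, then `j` commutes with `i` and
`(j - i)(j + i) = j² - i² = 0`, so `j = ± i`. -/
theorem comm_i {Δ : Type} [DivisionRing Δ] [Algebra ℝ Δ] [FiniteDimensional ℝ Δ] (i : Δ)
    (hi : i * i = -1) (x : Δ) (hx : x * i = i * x) : ∃ a b : ℝ, x = algebraMap ℝ Δ a + b • i := by
  rcases real_or_i x with ⟨a, ha⟩ | ⟨a, b, j, hj, hxj⟩
  · exact ⟨a, 0, by rw [ha, zero_smul, add_zero]⟩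
  · rcases eq_or_ne b 0 with hb | hb
    · exact ⟨a, 0, by rw [hxj, hb, zero_smul, zero_smul]⟩
    · have hc : j * i = i * j := by
        rw [hxj, add_mul, mul_add, Algebra.commutes a i] at hx
        have h1 := add_left_cancel hx
        rw [smul_mul_assoc, mul_smul_comm] at h1
        exact smul_right_injective Δ hb h1
      have h0 : (j - i) * (j + i) = 0 := by
        rw [sub_mul, mul_add, mul_add, hj, hi, hc]
        abel
      rcases mul_eq_zero.mp h0 with h | h
      · exact ⟨a, b, by rw [hxj, sub_eq_zero.mp h]⟩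
      · refine ⟨a, -b, ?_⟩
        rw [hxj, eq_neg_of_add_eq_zero_left h, smul_neg, neg_smul]

/-! MODULE KX_D -/

/-- **KX_D.** PROOF. `x² = t x - s` (`exists_quad`); `x²` commutes with `i` and `t x` anticommutes with `i`,
so `t x = 0`, `t = 0`, `x² = -s`. If `s ≤ 0` then `(x - √(-s)) (x + √(-s)) = 0` and `x` is real, which
commutes with `i`, so `x = 0`. So `s > 0` and `j = x / √s`. -/
theorem anti_j {Δ : Type} [DivisionRing Δ] [Algebra ℝ Δ] [FiniteDimensional ℝ Δ] (i : Δ)
    (hi : i * i = -1) (x : Δ) (hx : x * i = -(i * x)) (h0 : x ≠ 0) :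
    ∃ j : Δ, j * j = -1 ∧ j * i = -(i * j) := by
  have hi0 : i ≠ 0 := by
    rintro rfl
    rw [zero_mul] at hi
    exact one_ne_zero (neg_eq_zero.mp hi.symm)
  obtain ⟨t, s, hts⟩ := exists_quad x
  have h1 : x * x * i = i * (x * x) := by
    rw [mul_assoc, hx, mul_neg, ← mul_assoc, hx, neg_mul, neg_neg, mul_assoc]
  have h2 : t • (x * i) = t • (i * x) := by
    rw [hts, sub_mul, mul_sub, Algebra.commutes s i, smul_mul_assoc, mul_smul_comm] at h1
    exact sub_left_injective h1
  have h3 : t = 0 := by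
    by_contra ht
    have h4 : x * i = i * x := smul_right_injective Δ ht h2
    rw [hx] at h4
    have h5 : i * x = 0 := by
      have h6 : (2 : ℝ) • (i * x) = 0 := by
        rw [two_smul]
        nth_rewrite 1 [← h4]
        rw [neg_add_cancel]
      exact (smul_eq_zero.mp h6).resolve_left two_ne_zero
    rcases mul_eq_zero.mp h5 with h | h
    · exact hi0 h
    · exact h0 h
  rw [h3, zero_smul, zero_sub] at hts
  have hs : 0 < s := by
    by_contra hs
    push Not at hs
    obtain ⟨r, hr⟩ : ∃ r : ℝ, r * r = -s := ⟨Real.sqrt (-s), Real.mul_self_sqrt (by linarith)⟩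
    have h4 : (x - algebraMap ℝ Δ r) * (x + algebraMap ℝ Δ r) = 0 := by
      rw [sub_mul, mul_add, mul_add, hts, ← map_mul, hr, Algebra.commutes r x, map_neg]
      abel
    have h5 : ∃ a : ℝ, x = algebraMap ℝ Δ a := by
      rcases mul_eq_zero.mp h4 with h | h
      · exact ⟨r, sub_eq_zero.mp h⟩
      · exact ⟨-r, by rw [map_neg]; exact eq_neg_of_add_eq_zero_left h⟩
    obtain ⟨a, ha⟩ := h5
    have h6 : x * i = i * x := by rw [ha, Algebra.commutes a i]
    rw [hx] at h6
    have h7 : i * x = 0 := by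
      have h6 : (2 : ℝ) • (i * x) = 0 := by
        rw [two_smul]
        nth_rewrite 1 [← h6]
        rw [neg_add_cancel]
      exact (smul_eq_zero.mp h6).resolve_left two_ne_zero
    rcases mul_eq_zero.mp h7 with h | h
    · exact hi0 h
    · exact h0 h
  obtain ⟨r, hr0, hr⟩ : ∃ r : ℝ, r ≠ 0 ∧ r * r = s :=
    ⟨Real.sqrt s, (Real.sqrt_pos.mpr hs).ne', Real.mul_self_sqrt hs.le⟩
  refine ⟨r⁻¹ • x, ?_, ?_⟩
  · rw [smul_mul_assoc, mul_smul_comm, smul_smul, hts, ← hr, smul_neg, Algebra.algebraMap_eq_smul_one,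
      smul_smul]
    rw [show r⁻¹ * r⁻¹ * (r * r) = 1 by field_simp, one_smul]
  · rw [smul_mul_assoc, hx, mul_smul_comm, smul_neg]

/-! MODULE KX_E -/

private theorem KXE_inj {R Δ : Type} [DivisionRing R] [Algebra ℝ R] [DivisionRing Δ] [Algebra ℝ Δ] (f : R →ₐ[ℝ] Δ)
    (h : Function.Surjective f) : Nonempty (R ≃ₐ[ℝ] Δ) :=
  ⟨AlgEquiv.ofBijective f ⟨f.toRingHom.injective, h⟩⟩

/-- **KX_E.** PROOF. If all elements are real the algebra map is an isomorphism. Otherwise `real_or_i` gives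
`i` with `i² = -1`. Every `x` is `x₁ + x₂`, `x₁ = (x - i x i) / 2` commutes with `i`, `x₂ = (x + i x i) / 2`
anticommutes with `i`. If always `x₂ = 0` then by `comm_i` the homomorphism `Complex.liftAux i hi` from `ℂ`
is onto (and injective, `ℂ` is a field). Otherwise take `j` by `anti_j`; `x₂ j` commutes with `i`, so
`x₂ j = a + b i` and `x₂ = -(a + b i) j`; with `k = i j` the homomorphism
`QuaternionAlgebra.Basis.liftHom` from `ℍ[ℝ]` is onto (and injective, `ℍ[ℝ]` is a division ring). -/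
theorem real_div {Δ : Type} [DivisionRing Δ] [Algebra ℝ Δ] [FiniteDimensional ℝ Δ] :
    Nonempty (ℝ ≃ₐ[ℝ] Δ) ∨ Nonempty (ℂ ≃ₐ[ℝ] Δ) ∨ Nonempty (ℍ[ℝ] ≃ₐ[ℝ] Δ) := by
  by_cases hall : ∀ x : Δ, ∃ a : ℝ, x = algebraMap ℝ Δ a
  · left
    refine KXE_inj (Algebra.ofId ℝ Δ) fun x => ?_
    obtain ⟨a, ha⟩ := hall x
    exact ⟨a, ha.symm⟩
  · right
    push Not at hall
    obtain ⟨x0, hx0⟩ := hall
    obtain ⟨i, hi⟩ : ∃ i : Δ, i * i = -1 := by
      rcases real_or_i x0 with ⟨a, ha⟩ | ⟨a, b, i, hi, _⟩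
      · exact absurd ha (hx0 a)
      · exact ⟨i, hi⟩
    have h2 : (2 : ℝ) ≠ 0 := two_ne_zero
    -- anticommuting part
    have hanti : ∀ x : Δ, (x + i * x * i) * i = -(i * (x + i * x * i)) := by
      intro x
      have e1 : (x + i * x * i) * i = x * i - i * x := by
        rw [add_mul, mul_assoc (i * x), hi, mul_neg, mul_one, sub_eq_add_neg]
      have e2 : i * (x + i * x * i) = i * x - x * i := by
        rw [mul_add, mul_assoc i x i, ← mul_assoc i i, hi, neg_mul, one_mul, sub_eq_add_neg]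
      rw [e1, e2, neg_sub]
    have hcomm : ∀ x : Δ, (x - i * x * i) * i = i * (x - i * x * i) := by
      intro x
      have e1 : (x - i * x * i) * i = x * i + i * x := by
        rw [sub_mul, mul_assoc (i * x), hi, mul_neg, mul_one, sub_neg_eq_add]
      have e2 : i * (x - i * x * i) = i * x + x * i := by
        rw [mul_sub, mul_assoc i x i, ← mul_assoc i i, hi, neg_mul, one_mul, sub_neg_eq_add]
      rw [e1, e2, add_comm]
    have hsplit : ∀ x : Δ, x = (1 / 2 : ℝ) • (x - i * x * i) + (1 / 2 : ℝ) • (x + i * x * i) := by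
      intro x
      rw [← smul_add]
      have e1 : x - i * x * i + (x + i * x * i) = (2 : ℝ) • x := by
        rw [two_smul]
        abel
      rw [e1, smul_smul]
      norm_num
    by_cases hz : ∀ x : Δ, x + i * x * i = 0
    · left
      refine KXE_inj (Complex.liftAux i hi) fun x => ?_
      obtain ⟨a, b, hab⟩ := comm_i i hi _ (hcomm x)
      refine ⟨⟨1 / 2 * a, 1 / 2 * b⟩, ?_⟩
      rw [Complex.liftAux_apply]
      refine Eq.trans ?_ (hsplit x).symm
      rw [hz x, smul_zero, add_zero, hab, smul_add, smul_smul, Algebra.smul_def (1 / 2 : ℝ) (algebraMap ℝ Δ a), ← map_mul]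
    · right
      push Not at hz
      obtain ⟨x1, hx1⟩ := hz
      obtain ⟨j, hj, hji⟩ := anti_j i hi _ (hanti x1) hx1
      let q : QuaternionAlgebra.Basis Δ (-1 : ℝ) (0 : ℝ) (-1 : ℝ) :=
        { i := i
          j := j
          k := i * j
          i_mul_i := by rw [hi, zero_smul, add_zero, neg_smul, one_smul]
          j_mul_j := by rw [hj, neg_smul, one_smul]
          i_mul_j := rfl
          j_mul_i := by rw [hji, zero_smul, zero_sub] }
      refine KXE_inj (R := ℍ[ℝ]) q.liftHom fun x => ?_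
      obtain ⟨a, b, hab⟩ := comm_i i hi _ (hcomm x)
      have hc2 : (x + i * x * i) * j * i = i * ((x + i * x * i) * j) := by
        rw [mul_assoc, hji, mul_neg, ← mul_assoc, hanti, neg_mul, neg_neg, mul_assoc]
      obtain ⟨c, d, hcd⟩ := comm_i i hi _ hc2
      have h3 : x + i * x * i = -(c • j) - d • (i * j) := by
        have e1 : (x + i * x * i) * j * j = (algebraMap ℝ Δ c + d • i) * j := by rw [hcd]
        rw [mul_assoc, hj, mul_neg, mul_one, add_mul, smul_mul_assoc, ← Algebra.smul_def] at e1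
        rw [← neg_neg (x + i * x * i), e1, neg_add, sub_eq_add_neg]
      refine ⟨⟨1 / 2 * a, 1 / 2 * b, -(1 / 2 * c), -(1 / 2 * d)⟩, ?_⟩
      change algebraMap ℝ Δ (1 / 2 * a) + (1 / 2 * b) • i + (-(1 / 2 * c)) • j + (-(1 / 2 * d)) • (i * j) = x
      refine Eq.trans ?_ (hsplit x).symm
      rw [hab, h3, smul_add, smul_sub, smul_neg, smul_smul, smul_smul, smul_smul,
        Algebra.smul_def (1 / 2 : ℝ) (algebraMap ℝ Δ a), ← map_mul, neg_smul, neg_smul, sub_eq_add_neg, add_assoc]

end Pool.Agent.CGN
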