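import Mathlib

/-!
# Generation of the general linear group of a division ring
-/

noncomputable section

namespace Pool.Agent.CGN

/-- The diagonal matrix with entries `d, 1, …, 1`. -/
def dg1 {K : Type} [Ring K] (m : ℕ) (d : Kˣ) : (Matrix (Fin (m + 1)) (Fin (m + 1)) K)ˣ where
  val := Matrix.diagonal (Fin.cons (d : K) fun _ => 1)
  inv := Matrix.diagonal (Fin.cons ((d⁻¹ : Kˣ) : K) fun _ => 1)
  val_inv := by
    rw [Matrix.diagonal_mul_diagonal, ← Matrix.diagonal_one]
    congr 1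
    funext i
    refine Fin.cases ?_ (fun i => ?_) i
    · simp
    · simp
  inv_val := by
    rw [Matrix.diagonal_mul_diagonal, ← Matrix.diagonal_one]
    congr 1
    funext i
    refine Fin.cases ?_ (fun i => ?_) i
    · simp
    · simp

/-! MODULE KX_F -/

private theorem KXF_mul {K : Type} [Ring K] (m : ℕ) (d e : Kˣ) :
    dg1 m (d * e) = dg1 m d * dg1 m e := by
  apply Units.ext
  change Matrix.diagonal _ = Matrix.diagonal _ * Matrix.diagonal _
  rw [Matrix.diagonal_mul_diagonal]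
  congr 1
  funext i
  refine Fin.cases ?_ (fun i => ?_) i
  · simp
  · simp

/-- **KX_F.** PROOF. `dg1 m (d * e) = dg1 m d * dg1 m e`, `f (x * x) = 1` in `ℤˣ`. -/
theorem dg1_sq {K : Type} [DivisionRing K] (m : ℕ) (c : Kˣ)
    (f : (Matrix (Fin (m + 1)) (Fin (m + 1)) K)ˣ →* ℤˣ) (d : Kˣ) :
    f (dg1 m (c * c * d)) = f (dg1 m d) := by
  rw [KXF_mul, KXF_mul, map_mul, map_mul, Int.units_mul_self, one_mul]

/-! MODULE KX_G -/

section KXG

variable {K : Type} [DivisionRing K] {m : ℕ}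

private def KXG_N (l : Fin (m + 1)) (a : Fin (m + 1) → K) :
    Matrix (Fin (m + 1)) (Fin (m + 1)) K := fun i j => if j = l then a i else 0

private theorem KXG_N_mul (l : Fin (m + 1)) (a : Fin (m + 1) → K)
    (u : Matrix (Fin (m + 1)) (Fin (m + 1)) K) (i j : Fin (m + 1)) :
    (KXG_N l a * u) i j = a i * u l j := by
  rw [Matrix.mul_apply, Finset.sum_eq_single l]
  · simp [KXG_N]
  · intro b _ hb
    simp [KXG_N, hb]
  · intro h
    exact absurd (Finset.mem_univ l) h

private theorem KXG_NN (l : Fin (m + 1)) (a b : Fin (m + 1) → K) (hb : b l = 0) :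
    (1 + KXG_N l a) * (1 + KXG_N l b) = 1 + KXG_N l (a + b) := by
  have h0 : KXG_N l a * KXG_N l b = 0 := by
    ext i j
    rw [KXG_N_mul]
    by_cases hj : j = l
    · simp [KXG_N, hj, hb]
    · simp [KXG_N, hj]
  have h1 : KXG_N l (a + b) = KXG_N l a + KXG_N l b := by
    ext i j
    by_cases hj : j = l
    · simp [KXG_N, hj]
    · simp [KXG_N, hj]
  rw [add_mul, one_mul, mul_add, mul_one, h0, h1]
  abel

private theorem KXG_N0 (l : Fin (m + 1)) : (KXG_N l (0 : Fin (m + 1) → K)) = 0 := by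
  ext i j
  simp [KXG_N]

private def KXG_U (l : Fin (m + 1)) (a : Fin (m + 1) → K) (ha : a l = 0) :
    (Matrix (Fin (m + 1)) (Fin (m + 1)) K)ˣ where
  val := 1 + KXG_N l a
  inv := 1 + KXG_N l (-a)
  val_inv := by
    rw [KXG_NN l a (-a) (by simp [ha]), add_neg_cancel, KXG_N0, add_zero]
  inv_val := by
    rw [KXG_NN l (-a) a ha, neg_add_cancel, KXG_N0, add_zero]

private theorem KXG_fU (h2 : (2 : K) ≠ 0) (l : Fin (m + 1)) (a : Fin (m + 1) → K) (ha : a l = 0)
    (f : (Matrix (Fin (m + 1)) (Fin (m + 1)) K)ˣ →* ℤˣ) : f (KXG_U l a ha) = 1 := by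
  have hb : (fun i => (2 : K)⁻¹ * a i) l = 0 := by simp [ha]
  have : KXG_U l a ha = KXG_U l (fun i => (2 : K)⁻¹ * a i) hb * KXG_U l (fun i => (2 : K)⁻¹ * a i) hb := by
    apply Units.ext
    change 1 + KXG_N l a = (1 + KXG_N l _) * (1 + KXG_N l _)
    rw [KXG_NN l _ _ hb]
    congr 2
    funext i
    simp only [Pi.add_apply]
    rw [← add_mul, ← two_mul, mul_inv_cancel₀ h2, one_mul]
  rw [this, map_mul, Int.units_mul_self]

private theorem KXG_Umul (l : Fin (m + 1)) (a : Fin (m + 1) → K) (ha : a l = 0)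
    (u : (Matrix (Fin (m + 1)) (Fin (m + 1)) K)ˣ) (i j : Fin (m + 1)) :
    ((KXG_U l a ha * u : (Matrix (Fin (m + 1)) (Fin (m + 1)) K)ˣ) :
      Matrix (Fin (m + 1)) (Fin (m + 1)) K) i j
      = (u : Matrix (Fin (m + 1)) (Fin (m + 1)) K) i j
        + a i * (u : Matrix (Fin (m + 1)) (Fin (m + 1)) K) l j := by
  rw [Units.val_mul]
  change ((1 + KXG_N l a) * (u : Matrix (Fin (m + 1)) (Fin (m + 1)) K)) i j = _
  rw [add_mul, one_mul, Matrix.add_apply, KXG_N_mul]

private def KXG_Std (l : Fin (m + 1)) (u : (Matrix (Fin (m + 1)) (Fin (m + 1)) K)ˣ) : Prop :=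
  ∀ j, l < j → ∀ i, (u : Matrix (Fin (m + 1)) (Fin (m + 1)) K) i j = if i = j then 1 else 0

private theorem KXG_ne (l : Fin (m + 1)) (u : (Matrix (Fin (m + 1)) (Fin (m + 1)) K)ˣ)
    (hu : KXG_Std l u) : ∃ i, i ≤ l ∧ (u : Matrix (Fin (m + 1)) (Fin (m + 1)) K) i l ≠ 0 := by
  by_contra hcon
  push Not at hcon
  set v : Matrix (Fin (m + 1)) (Fin (m + 1)) K := ((u⁻¹ : (Matrix (Fin (m + 1)) (Fin (m + 1)) K)ˣ) :
    Matrix (Fin (m + 1)) (Fin (m + 1)) K) with hv
  have hvu : v * (u : Matrix (Fin (m + 1)) (Fin (m + 1)) K) = 1 := by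
    rw [hv, ← Units.val_mul, inv_mul_cancel, Units.val_one]
  have h1 : ∀ j, l < j → v l j = 0 := by
    intro j hj
    have := congrFun (congrFun hvu l) j
    rw [Matrix.mul_apply, Finset.sum_eq_single j] at this
    · rw [hu j hj j, if_pos rfl, mul_one] at this
      rw [this, Matrix.one_apply_ne (ne_of_lt hj)]
    · intro b _ hb
      rw [hu j hj b, if_neg hb, mul_zero]
    · intro h
      exact absurd (Finset.mem_univ j) h
  have h2 := congrFun (congrFun hvu l) l
  rw [Matrix.mul_apply, Finset.sum_eq_zero, Matrix.one_apply_eq] at h2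
  · exact zero_ne_one h2
  · intro i _
    rcases le_or_gt i l with hi | hi
    · rw [hcon i hi, mul_zero]
    · rw [h1 i hi, zero_mul]

private theorem KXG_StdU (l s : Fin (m + 1)) (hs : s ≤ l) (a : Fin (m + 1) → K) (ha : a s = 0)
    (u : (Matrix (Fin (m + 1)) (Fin (m + 1)) K)ˣ) (hu : KXG_Std l u) :
    KXG_Std l (KXG_U s a ha * u) := by
  intro j hj i
  rw [KXG_Umul, hu j hj i, hu j hj s, if_neg (ne_of_lt (lt_of_le_of_lt hs hj)), mul_zero, add_zero]

private theorem KXG_main (h2 : (2 : K) ≠ 0) (k : ℕ) : ∀ (hk : k < m + 1)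
    (u : (Matrix (Fin (m + 1)) (Fin (m + 1)) K)ˣ), KXG_Std ⟨k, hk⟩ u →
    ∃ d : Kˣ, ∀ f : (Matrix (Fin (m + 1)) (Fin (m + 1)) K)ˣ →* ℤˣ, f u = f (dg1 m d) := by
  induction k with
  | zero =>
    intro hk u hu
    obtain ⟨i, hi, hne⟩ := KXG_ne _ u hu
    have hi0 : i = 0 := by
      apply Fin.le_zero_iff.mp
      exact hi
    subst hi0
    have h00 : (⟨0, hk⟩ : Fin (m + 1)) = 0 := rfl
    rw [h00] at hne hu
    set c : K := (u : Matrix (Fin (m + 1)) (Fin (m + 1)) K) 0 0 with hc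
    let a : Fin (m + 1) → K := fun i => if i = 0 then 0 else
      -((u : Matrix (Fin (m + 1)) (Fin (m + 1)) K) i 0 * c⁻¹)
    have ha : a 0 = 0 := by simp [a]
    refine ⟨Units.mk0 c hne, fun f => ?_⟩
    have key : KXG_U 0 a ha * u = dg1 m (Units.mk0 c hne) := by
      apply Units.ext
      ext i j
      rw [KXG_Umul]
      change _ = Matrix.diagonal (Fin.cons ((Units.mk0 c hne : Kˣ) : K) fun _ => 1) i j
      refine Fin.cases ?_ (fun j => ?_) j
      · refine Fin.cases ?_ (fun i => ?_) i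
        · rw [ha, zero_mul, add_zero, Matrix.diagonal_apply_eq]
          simp [hc]
        · rw [Matrix.diagonal_apply_ne _ (Fin.succ_ne_zero i)]
          simp only [a, if_neg (Fin.succ_ne_zero i)]
          rw [← hc, neg_mul, mul_assoc, inv_mul_cancel₀ hne, mul_one, add_neg_cancel]
      · have hj := hu j.succ (Fin.succ_pos j)
        rw [hj i, hj 0, if_neg (Fin.succ_ne_zero j).symm, mul_zero, add_zero]
        by_cases hij : i = j.succ
        · rw [if_pos hij, hij, Matrix.diagonal_apply_eq]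
          simp
        · rw [if_neg hij, Matrix.diagonal_apply_ne _ hij]
    rw [← key, map_mul, KXG_fU h2, one_mul]
  | succ k ih =>
    intro hk u hu
    have hk' : k < m + 1 := Nat.lt_of_succ_lt hk
    set l : Fin (m + 1) := ⟨k + 1, hk⟩ with hl
    have hl0 : (0 : Fin (m + 1)) ≠ l := by
      intro h
      have := congrArg Fin.val h
      simp [hl] at this
    have h0l : (0 : Fin (m + 1)) ≤ l := Fin.zero_le l
    -- step 3 and the end: if the entry is one
    have step3 : ∀ w : (Matrix (Fin (m + 1)) (Fin (m + 1)) K)ˣ, KXG_Std l w →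
        (w : Matrix (Fin (m + 1)) (Fin (m + 1)) K) l l = 1 →
        ∃ d : Kˣ, ∀ f : (Matrix (Fin (m + 1)) (Fin (m + 1)) K)ˣ →* ℤˣ, f w = f (dg1 m d) := by
      intro w hw h1
      let a : Fin (m + 1) → K := fun i => if i = l then 0 else
        -(w : Matrix (Fin (m + 1)) (Fin (m + 1)) K) i l
      have ha : a l = 0 := by simp [a]
      obtain ⟨d, hd⟩ := ih hk' (KXG_U l a ha * w) (by
        intro j hj i
        rcases lt_or_eq_of_le (show l ≤ j from by
          rw [Fin.le_def]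
          exact hj) with hlj | hlj
        · exact KXG_StdU l l le_rfl a ha w hw j hlj i
        · subst hlj
          rw [KXG_Umul, h1, mul_one]
          by_cases hi : i = l
          · rw [if_pos hi, hi, ha, add_zero, h1]
          · rw [if_neg hi]
            simp only [a, if_neg hi]
            rw [add_neg_cancel])
      refine ⟨d, fun f => ?_⟩
      rw [← hd f, map_mul, KXG_fU h2, one_mul]
    -- step 2
    have step2 : ∀ w : (Matrix (Fin (m + 1)) (Fin (m + 1)) K)ˣ, KXG_Std l w →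
        (∃ i, i < l ∧ (w : Matrix (Fin (m + 1)) (Fin (m + 1)) K) i l ≠ 0) →
        ∃ d : Kˣ, ∀ f : (Matrix (Fin (m + 1)) (Fin (m + 1)) K)ˣ →* ℤˣ, f w = f (dg1 m d) := by
      rintro w hw ⟨i, hi, hne⟩
      let a : Fin (m + 1) → K := fun j => if j = l then
        (1 - (w : Matrix (Fin (m + 1)) (Fin (m + 1)) K) l l) *
          ((w : Matrix (Fin (m + 1)) (Fin (m + 1)) K) i l)⁻¹ else 0
      have ha : a i = 0 := by simp [a, ne_of_lt hi]
      obtain ⟨d, hd⟩ := step3 (KXG_U i a ha * w) (KXG_StdU l i hi.le a ha w hw) (by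
        rw [KXG_Umul]
        simp only [a, if_true]
        rw [mul_assoc, inv_mul_cancel₀ hne, mul_one, add_sub_cancel])
      refine ⟨d, fun f => ?_⟩
      rw [← hd f, map_mul, KXG_fU h2, one_mul]
    -- step 1
    obtain ⟨i, hi, hne⟩ := KXG_ne l u hu
    rcases lt_or_eq_of_le hi with hil | hil
    · exact step2 u hu ⟨i, hil, hne⟩
    · subst hil
      by_cases h0 : (u : Matrix (Fin (m + 1)) (Fin (m + 1)) K) 0 l = 0
      · let a : Fin (m + 1) → K := fun j => if j = 0 then 1 else 0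
        have ha : a l = 0 := by simp [a, hl0.symm]
        obtain ⟨d, hd⟩ := step2 (KXG_U l a ha * u) (KXG_StdU l l le_rfl a ha u hu)
          ⟨0, lt_of_le_of_ne h0l hl0, by
            rw [KXG_Umul, h0, zero_add]
            simpa [a] using hne⟩
        refine ⟨d, fun f => ?_⟩
        rw [← hd f, map_mul, KXG_fU h2, one_mul]
      · exact step2 u hu ⟨0, lt_of_le_of_ne h0l hl0, h0⟩

end KXG

/-- **KX_G.** PROOF. Induction on `m`. A homomorphism `f` to `ℤˣ` is trivial on the squares, in particular on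
`1 + a E_ij = (1 + (a/2) E_ij)²` (`i ≠ j`), and constant on conjugacy classes. `m = 0`: `u = dg1 0 d`. Let
`m ≥ 1` and let `c` be the first column of `u`, not zero. By a left multiplication by `1 + E_10` we may assume
`c_i ≠ 0` for some `i ≥ 1` (if all these are `0` then `c_0 ≠ 0`), then by `1 + (1 - c_0) c_i⁻¹ E_0i` that
`c_0 = 1`, then by the `1 - c_i E_i0` that `c = e_0`; then `u = [1 b; 0 u']`, `u = [1 0; 0 u'] [1 b; 0 1]`
and the last factor is a square. By induction for the homomorphism `v ↦ f [1 0; 0 v]` (the matrix `d` does not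
depend on `f`) we get `f u = f (diag (1, d, 1, …))`, conjugate to `dg1 m d` by a permutation matrix. -/
theorem exists_dg1 {K : Type} [DivisionRing K] (h2 : (2 : K) ≠ 0) (m : ℕ)
    (u : (Matrix (Fin (m + 1)) (Fin (m + 1)) K)ˣ) :
    ∃ d : Kˣ, ∀ f : (Matrix (Fin (m + 1)) (Fin (m + 1)) K)ˣ →* ℤˣ, f u = f (dg1 m d) := by
  refine KXG_main h2 m (Nat.lt_succ_self m) u ?_
  intro j hj i
  exact absurd (Nat.le_of_lt_succ j.2) (not_le.mpr hj)

end Pool.Agent.CGN
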