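import Mathlib

/-!
# Extension of scalars of central division algebras
-/

noncomputable section

namespace Pool.Agent.CGN

open scoped TensorProduct Quaternion

/-! MODULE KX_H -/

private theorem KXH_left {F K D ι : Type} [Field F] [Field K] [Algebra F K] [DivisionRing D]
    [Algebra F D] (φ : K ⊗[F] D ≃ₗ[F] ι →₀ D) (r : ι → K → F)
    (hφ : ∀ k d i, φ (k ⊗ₜ d) i = r i k • d) (d : D) (z : K ⊗[F] D) (i : ι) :
    φ (((1 : K) ⊗ₜ[F] d) * z) i = d * φ z i := by
  induction z using TensorProduct.induction_on with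
  | zero => rw [mul_zero, map_zero, Finsupp.zero_apply, mul_zero]
  | tmul k x =>
    rw [Algebra.TensorProduct.tmul_mul_tmul, one_mul, hφ, hφ, mul_smul_comm]
  | add x y hx hy =>
    rw [mul_add, map_add, map_add, Finsupp.add_apply, Finsupp.add_apply, hx, hy, mul_add]

private theorem KXH_right {F K D ι : Type} [Field F] [Field K] [Algebra F K] [DivisionRing D]
    [Algebra F D] (φ : K ⊗[F] D ≃ₗ[F] ι →₀ D) (r : ι → K → F)
    (hφ : ∀ k d i, φ (k ⊗ₜ d) i = r i k • d) (d : D) (z : K ⊗[F] D) (i : ι) :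
    φ (z * ((1 : K) ⊗ₜ[F] d)) i = φ z i * d := by
  induction z using TensorProduct.induction_on with
  | zero => rw [zero_mul, map_zero, Finsupp.zero_apply, zero_mul]
  | tmul k x =>
    rw [Algebra.TensorProduct.tmul_mul_tmul, mul_one, hφ, hφ, smul_mul_assoc]
  | add x y hx hy =>
    rw [add_mul, map_add, map_add, Finsupp.add_apply, Finsupp.add_apply, hx, hy, add_mul]

/-- **KX_H.** PROOF. Let `κ` be a basis of `K` over `F`, so that `K ⊗ D` is `ι →₀ D`
(`TensorProduct.equivFinsuppOfBasisLeft`), where `1 ⊗ d` acts on the components on the left and on the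
right. Let `I ≠ 0` be a two-sided ideal and `z ≠ 0` in `I` with a support of minimal size; multiply by
`1 ⊗ d` such that one component is `1`. For every `d` the element `(1 ⊗ d) z - z (1 ⊗ d)` is in `I` and has a
smaller support, so it is `0`: all components of `z` commute with all `d`, so they are in `F`
(`Algebra.IsCentral`), `z = k ⊗ 1` with `k ≠ 0`, a unit. -/
theorem isSimpleRing_tensor (F K D : Type) [Field F] [Field K] [Algebra F K] [DivisionRing D]
    [Algebra F D] [Algebra.IsCentral F D] : IsSimpleRing (K ⊗[F] D) := by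
  classical
  let B := Module.Basis.ofVectorSpace F K
  obtain ⟨φ, hφ⟩ : ∃ φ : K ⊗[F] D ≃ₗ[F] Module.Basis.ofVectorSpaceIndex F K →₀ D,
      ∀ k d i, φ (k ⊗ₜ d) i = B.repr k i • d :=
    ⟨TensorProduct.equivFinsuppOfBasisLeft B, fun k d i =>
      TensorProduct.equivFinsuppOfBasisLeft_apply_tmul_apply B k d i⟩
  have hL := KXH_left φ (fun i k => B.repr k i) (fun k d i => hφ k d i)
  have hR := KXH_right φ (fun i k => B.repr k i) (fun k d i => hφ k d i)
  have hnt : Nontrivial (K ⊗[F] D) := by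
    refine ⟨⟨1, 0, fun h => ?_⟩⟩
    have h1 : B.repr 1 ≠ 0 := fun h0 => one_ne_zero (B.repr.map_eq_zero_iff.1 h0)
    obtain ⟨i, hi⟩ := Finsupp.ne_iff.1 h1
    have h2 := hφ 1 1 i
    have h3 : ((1 : K) ⊗ₜ[F] (1 : D)) = 0 := h
    rw [h3, map_zero, Finsupp.zero_apply] at h2
    rcases smul_eq_zero.1 h2.symm with h4 | h4
    · exact hi h4
    · exact one_ne_zero h4
  refine IsSimpleRing.of_eq_bot_or_eq_top fun I => ?_
  by_cases hI : I = ⊥
  · exact Or.inl hI
  right
  rw [← I.one_mem_iff]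
  obtain ⟨z₀, hz₀, hz₀' : z₀ ≠ 0⟩ := SetLike.exists_of_lt (bot_lt_iff_ne_bot.mpr hI : ⊥ < I)
  have hex : ∃ n : ℕ, ∃ z ∈ I, z ≠ 0 ∧ (φ z).support.card = n := ⟨_, z₀, hz₀, hz₀', rfl⟩
  obtain ⟨z, hz, hz', hn⟩ := Nat.find_spec hex
  have hmin : ∀ w ∈ I, w ≠ 0 → (φ z).support.card ≤ (φ w).support.card := by
    intro w hw hw'
    rw [hn]
    exact Nat.find_min' hex ⟨w, hw, hw', rfl⟩
  have hφz : φ z ≠ 0 := fun h0 => hz' (φ.map_eq_zero_iff.1 h0)
  obtain ⟨i₀, hi₀⟩ := Finsupp.ne_iff.1 hφz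
  rw [Finsupp.zero_apply] at hi₀
  -- one component is `1`
  obtain ⟨y, hy, hyi⟩ : ∃ y ∈ I, ∀ i, φ y i = (φ z i₀)⁻¹ * φ z i :=
    ⟨_, I.mul_mem_left ((1 : K) ⊗ₜ[F] (φ z i₀)⁻¹) z hz, fun i => hL _ z i⟩
  have hy1 : φ y i₀ = 1 := by
    rw [hyi, inv_mul_cancel₀ hi₀]
  have hys : ∀ i, φ y i ≠ 0 → φ z i ≠ 0 := by
    intro i h h0
    apply h
    rw [hyi, h0, mul_zero]
  have hcomm : ∀ (d : D) i, φ y i * d = d * φ y i := by
    intro d
    have hw : ((1 : K) ⊗ₜ[F] d) * y - y * ((1 : K) ⊗ₜ[F] d) ∈ I :=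
      I.sub_mem (I.mul_mem_left _ _ hy) (I.mul_mem_right _ _ hy)
    have hwi : ∀ i, φ (((1 : K) ⊗ₜ[F] d) * y - y * ((1 : K) ⊗ₜ[F] d)) i =
        d * φ y i - φ y i * d := by
      intro i
      rw [map_sub, Finsupp.sub_apply, hL, hR]
    have hw0 : ((1 : K) ⊗ₜ[F] d) * y - y * ((1 : K) ⊗ₜ[F] d) = 0 := by
      by_contra hne
      have h1 := hmin _ hw hne
      have h2 : (φ (((1 : K) ⊗ₜ[F] d) * y - y * ((1 : K) ⊗ₜ[F] d))).support ⊂
          (φ z).support := by
        rw [Finset.ssubset_iff_of_subset]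
        · refine ⟨i₀, Finsupp.mem_support_iff.2 hi₀, ?_⟩
          rw [Finsupp.notMem_support_iff, hwi, hy1, mul_one, one_mul, sub_self]
        · intro i hi
          rw [Finsupp.mem_support_iff, hwi] at hi
          rw [Finsupp.mem_support_iff]
          refine hys i fun h0 => hi ?_
          rw [h0, mul_zero, zero_mul, sub_self]
      exact absurd (Finset.card_lt_card h2) (not_lt.2 h1)
    intro i
    have h1 := hwi i
    rw [hw0, map_zero, Finsupp.zero_apply] at h1
    exact (sub_eq_zero.1 h1.symm).symm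
  have hcen : ∀ i, ∃ a : F, algebraMap F D a = φ y i := by
    intro i
    have h1 : φ y i ∈ Subalgebra.center F D := by
      rw [Subalgebra.mem_center_iff]
      intro d
      exact (hcomm d i).symm
    rw [Algebra.IsCentral.center_eq_bot, Algebra.mem_bot] at h1
    exact h1
  choose a ha using hcen
  have hinj : Function.Injective (algebraMap F D) := (algebraMap F D).injective
  let f : Module.Basis.ofVectorSpaceIndex F K →₀ F := Finsupp.onFinset (φ y).support a (by
    intro i hi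
    rw [Finsupp.mem_support_iff, ← ha]
    intro h0
    exact hi (hinj (by rw [h0, map_zero])))
  have hk : y = (B.repr.symm f) ⊗ₜ[F] (1 : D) := by
    apply φ.injective
    ext i
    rw [hφ, LinearEquiv.apply_symm_apply, Algebra.smul_def, mul_one]
    exact (ha i).symm
  have hk0 : B.repr.symm f ≠ 0 := by
    intro h0
    rw [h0, TensorProduct.zero_tmul] at hk
    rw [hk, map_zero, Finsupp.zero_apply] at hy1
    exact zero_ne_one hy1
  have h1 : ((B.repr.symm f)⁻¹ ⊗ₜ[F] (1 : D)) * y = 1 := by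
    rw [hk, Algebra.TensorProduct.tmul_mul_tmul, inv_mul_cancel₀ hk0, mul_one,
      ← Algebra.TensorProduct.one_def]
  rw [← h1]
  exact I.mul_mem_left _ _ hy

/-! MODULE KX_I -/

/-- **KX_I.** PROOF. `IsSimpleRing.exists_algEquiv_matrix_of_isAlgClosed`, the dimensions give `k = n`. -/
theorem complex_case {A : Type} [Ring A] [Algebra ℂ A] [FiniteDimensional ℂ A] [IsSimpleRing A]
    {n : ℕ} (hn : Module.finrank ℂ A = n ^ 2) : Nonempty (A ≃ₐ[ℂ] Matrix (Fin n) (Fin n) ℂ) := by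
  obtain ⟨k, -, ⟨e⟩⟩ := IsSimpleRing.exists_algEquiv_matrix_of_isAlgClosed ℂ A
  have h1 := e.toLinearEquiv.finrank_eq
  rw [hn, Module.finrank_matrix, Module.finrank_self, Fintype.card_fin, mul_one, ← sq] at h1
  have h2 : n = k := Nat.pow_left_injective (by norm_num : 2 ≠ 0) h1
  subst h2
  exact ⟨e⟩

end Pool.Agent.CGN
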