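import Pool.Agent.CGN.KFrob
import Pool.Agent.CGN.KSim

/-!
# Real simple algebras of square dimension
-/

noncomputable section

namespace Pool.Agent.CGN

open scoped TensorProduct Quaternion

/-! MODULE KX_J -/

private theorem KXJ_two (n k : ℕ) (hk : k ≠ 0) (h : n ^ 2 = k * k * 2) : False := by
  have hn : n ≠ 0 := by
    rintro rfl
    have : 0 < k * k * 2 := by positivity
    omega
  have h1 := congrArg (padicValNat 2) h
  rw [padicValNat.pow, padicValNat.mul (mul_ne_zero hk hk) two_ne_zero, padicValNat.mul hk hk,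
    padicValNat.self one_lt_two] at h1
  omega

/-- **KX_J.** PROOF. `IsSimpleRing.exists_algEquiv_matrix_divisionRing_finite` (`IsArtinianRing.of_finite`) and
`real_div`: `A` is `M_k(Δ)` with `Δ = ℝ`, `ℂ` or `ℍ`, `n² = k²`, `2 k²` or `4 k²`; the second is impossible
(`k > 0`). -/
theorem real_case {A : Type} [Ring A] [Algebra ℝ A] [FiniteDimensional ℝ A] [IsSimpleRing A]
    {n : ℕ} (hn : Module.finrank ℝ A = n ^ 2) :
    Nonempty (A ≃ₐ[ℝ] Matrix (Fin n) (Fin n) ℝ) ∨
      ∃ m : ℕ, n = 2 * m ∧ Nonempty (A ≃ₐ[ℝ] Matrix (Fin m) (Fin m) ℍ[ℝ]) := by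
  have hart : IsArtinianRing A := IsArtinianRing.of_finite ℝ A
  obtain ⟨k, hk, D, _, _, _, ⟨e⟩⟩ := IsSimpleRing.exists_algEquiv_matrix_divisionRing_finite ℝ A
  have hk0 : k ≠ 0 := hk.out
  have h1 : Module.finrank ℝ A = k * k * Module.finrank ℝ D := by
    rw [e.toLinearEquiv.finrank_eq, Module.finrank_matrix, Fintype.card_fin]
  rw [hn] at h1
  rcases real_div (Δ := D) with ⟨⟨f⟩⟩ | ⟨⟨f⟩⟩ | ⟨⟨f⟩⟩
  · left
    rw [← f.toLinearEquiv.finrank_eq, Module.finrank_self, mul_one, ← sq] at h1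
    have h2 : n = k := Nat.pow_left_injective (n := 2) (by norm_num) h1
    subst h2
    exact ⟨e.trans f.symm.mapMatrix⟩
  · exfalso
    rw [← f.toLinearEquiv.finrank_eq, Complex.finrank_real_complex] at h1
    exact KXJ_two n k hk0 h1
  · right
    rw [← f.toLinearEquiv.finrank_eq, Quaternion.finrank_eq_four] at h1
    have h2 : n = 2 * k := by
      have h3 : n ^ 2 = (2 * k) ^ 2 := by
        rw [h1]
        ring
      exact Nat.pow_left_injective (n := 2) (by norm_num) h3
    exact ⟨k, h2, ⟨e.trans f.symm.mapMatrix⟩⟩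

end Pool.Agent.CGN
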