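import Pool.Agent.CGN.KPY
import Pool.Agent.CGN.KWed
import Pool.Agent.CGN.AD

/-!
# The real algebra attached to `D` and its positive involution
-/

noncomputable section

namespace Pool.Agent.CGN

open NumberField IsDedekindDomain
open Pool.Agent.CG2 (Pl Fv Ov)
open Pool.Agent.CGQ (Sys PA)
open scoped Quaternion TensorProduct

variable {F : Type} [Field F] [NumberField F]

/-- `D` is a central division algebra of positive degree. -/
class DivAlg (A : AD F) : Prop where
  div : IsDiv A
  cen : IsCen A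
  pos : 1 ≤ A.n

/-- The indices of the coordinates. -/
abbrev Ix (A : AD F) : Type := Fin A.n × Fin A.n

/-- The real algebra `F ⊗ ℝ`. -/
abbrev Rinf (F : Type) [Field F] [NumberField F] : Type := mixedEmbedding.mixedSpace F

/-- The real places. -/
abbrev RPl (F : Type) [Field F] [NumberField F] : Type := {w : InfinitePlace F // w.IsReal}

/-- The complex places. -/
abbrev CPl (F : Type) [Field F] [NumberField F] : Type := {w : InfinitePlace F // w.IsComplex}

/-- The embedding of a real place. -/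
def embR (w : RPl F) : F →+* ℝ := InfinitePlace.embedding_of_isReal w.2

/-- The real algebra `D ⊗ ℝ`. -/
def AInf (A : AD F) : Type := DE A (mixedEmbedding F)

instance (A : AD F) : Ring (AInf A) := inferInstanceAs (Ring (DE A (mixedEmbedding F)))

/-- The coordinates of an element of `D ⊗ ℝ`. -/
def AInf.co {A : AD F} (x : AInf A) (i : Ix A) : Rinf F := SC.Alg.co (show DE A (mixedEmbedding F) from x) i

/-- The element with given coordinates. -/
def AInf.mk {A : AD F} (x : Ix A → Rinf F) : AInf A := x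

theorem AInf.ext {A : AD F} {x y : AInf A} (h : ∀ i, x.co i = y.co i) : x = y := funext h

@[simp] theorem AInf.co_mk {A : AD F} (x : Ix A → Rinf F) (i : Ix A) : (AInf.mk x : AInf A).co i = x i := rfl

@[simp] theorem AInf.co_add {A : AD F} (x y : AInf A) (i : Ix A) : (x + y).co i = x.co i + y.co i := rfl

@[simp] theorem AInf.co_sub {A : AD F} (x y : AInf A) (i : Ix A) : (x - y).co i = x.co i - y.co i := rfl

@[simp] theorem AInf.co_zero {A : AD F} (i : Ix A) : (0 : AInf A).co i = 0 := rfl

@[simp] theorem AInf.co_one {A : AD F} (i : Ix A) : (1 : AInf A).co i = mixedEmbedding F (A.sF.u i) := rfl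

@[simp] theorem AInf.co_mul {A : AD F} (x y : AInf A) (k : Ix A) :
    (x * y).co k = ∑ i, ∑ j, x.co i * y.co j * mixedEmbedding F (A.sF.c i j k) := rfl

instance (A : AD F) : Module ℝ (AInf A) := inferInstanceAs (Module ℝ (Ix A → Rinf F))

@[simp] theorem AInf.co_smul {A : AD F} (r : ℝ) (x : AInf A) (i : Ix A) : (r • x).co i = r • x.co i := rfl

instance (A : AD F) : Algebra ℝ (AInf A) := Algebra.ofModule
  (by
    intro r x y
    apply AInf.ext
    intro k
    simp only [AInf.co_mul, AInf.co_smul, Finset.smul_sum, smul_mul_assoc])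
  (by
    intro r x y
    apply AInf.ext
    intro k
    simp only [AInf.co_mul, AInf.co_smul, Finset.smul_sum, smul_mul_assoc, mul_smul_comm])

instance (A : AD F) : FiniteDimensional ℝ (AInf A) :=
  inferInstanceAs (FiniteDimensional ℝ (Ix A → Rinf F))

/-- The coordinates as a linear equivalence. -/
def AInf.lin (A : AD F) : AInf A ≃ₗ[ℝ] (Ix A → Rinf F) := LinearEquiv.refl ℝ (Ix A → Rinf F)

/-- The embedding of `D` in `D ⊗ ℝ`. -/
def theta (A : AD F) : DF A →+* AInf A := dE A (mixedEmbedding F)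

@[simp] theorem theta_co (A : AD F) (x : DF A) (i : Ix A) :
    (theta A x).co i = mixedEmbedding F (x.co i) := rfl

theorem theta_inj (A : AD F) : Function.Injective (theta A) := by
  intro x y h
  apply SC.Alg.ext
  intro i
  exact mixedEmbedding_injective F (congrArg (fun z : AInf A => z.co i) h)

/-- The action of `D^×`. -/
def thU (A : AD F) : (DF A)ˣ →* (AInf A)ˣ := Units.map (theta A : DF A →* AInf A)

/-- The projection to a real place. -/
def prR {A : AD F} (w : RPl F) : AInf A →ₐ[ℝ] DE A (embR w) where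
  toFun x := SC.Alg.mk fun i => (x.co i).1 w
  map_one' := rfl
  map_zero' := rfl
  map_add' _ _ := rfl
  map_mul' x y := by
    apply SC.Alg.ext
    intro k
    change (∑ i, ∑ j, x.co i * y.co j * mixedEmbedding F (A.sF.c i j k) : Rinf F).1 w =
      ∑ i, ∑ j, (x.co i).1 w * (y.co j).1 w * embR w (A.sF.c i j k)
    simp only [Prod.fst_sum, Finset.sum_apply]
    rfl
  commutes' r := by
    apply SC.Alg.ext
    intro i
    change (r • (1 : AInf A).co i).1 w = r * (embR w (A.sF.u i))
    rfl

/-- The projection to a complex place. -/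
def prC {A : AD F} (w : CPl F) : AInf A →ₐ[ℝ] DE A w.1.embedding where
  toFun x := SC.Alg.mk fun i => (x.co i).2 w
  map_one' := rfl
  map_zero' := rfl
  map_add' _ _ := rfl
  map_mul' x y := by
    apply SC.Alg.ext
    intro k
    change (∑ i, ∑ j, x.co i * y.co j * mixedEmbedding F (A.sF.c i j k) : Rinf F).2 w =
      ∑ i, ∑ j, (x.co i).2 w * (y.co j).2 w * w.1.embedding (A.sF.c i j k)
    simp only [Prod.snd_sum, Finset.sum_apply]
    rfl
  commutes' r := by
    apply SC.Alg.ext
    intro i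
    change (r • (1 : AInf A).co i).2 w = (r : ℂ) * (w.1.embedding (A.sF.u i))
    rw [Prod.smul_snd, Pi.smul_apply, Complex.real_smul]
    rfl

/-- The real places where `D` is not split. -/
def NPl (A : AD F) : Type := {w : RPl F //
  ¬ Nonempty (DE A (embR w) ≃ₐ[ℝ] Matrix (Fin A.n) (Fin A.n) ℝ)}

instance (A : AD F) : Finite (NPl A) := Subtype.finite

instance (A : AD F) : Fintype (SPl A) := Fintype.ofFinite _

instance (A : AD F) : Fintype (NPl A) := Fintype.ofFinite _

instance instFintypeCPl : Fintype (CPl F) := Fintype.ofFinite _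

/-- A real place where `D` is split as a real place. -/
def SPl.r {A : AD F} (w : SPl A) : RPl F := ⟨w.1, w.2.choose⟩

/-- The isomorphism at a real place where `D` is split. -/
def isoS {A : AD F} (w : SPl A) :
    DE A (embR w.r) ≃ₐ[ℝ] Matrix (Fin A.n) (Fin A.n) ℝ := w.iso

/-! MODULE KY_A -/

private theorem KYA_tensor (F K D : Type) [Field F] [Field K] [Algebra F K] [Ring D] [Nontrivial D]
    [Algebra F D] (hdiv : ∀ x : D, x ≠ 0 → IsUnit x) [Algebra.IsCentral F D] : IsSimpleRing (K ⊗[F] D) := by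
  let _ : DivisionRing D := DivisionRing.ofIsUnitOrEqZero fun a => by
    by_cases h : a = 0
    · exact Or.inr h
    · exact Or.inl (hdiv a h)
  exact isSimpleRing_tensor F K D

private theorem KYA_gen {ι F E D D' : Type} [Field F] [Field E] (φ : F →+* E)
    [Ring D] [Nontrivial D] [Algebra F D] [Ring D'] [Algebra E D'] (b : Module.Basis ι F D)
    (b' : Module.Basis ι E D') (g : D →+* D')
    (hg : ∀ r : F, g (algebraMap F D r) = algebraMap E D' (φ r)) (hb : ∀ i, g (b i) = b' i)
    (hdiv : ∀ x : D, x ≠ 0 → IsUnit x)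
    (hcen : ∀ x : D, (∀ y, x * y = y * x) → ∃ r : F, x = algebraMap F D r) : IsSimpleRing D' := by
  let _ : Algebra F E := φ.toAlgebra
  let _ : Algebra F D' := Algebra.compHom _ (algebraMap F E)
  have : IsScalarTower F E D' := IsScalarTower.of_algebraMap_eq fun _ => rfl
  have : Algebra.IsCentral F D := by
    constructor
    intro x hx
    obtain ⟨r, hr⟩ := hcen x fun y => (Subalgebra.mem_center_iff.1 hx y).symm
    rw [Algebra.mem_bot]
    exact ⟨r, hr.symm⟩
  have hs := KYA_tensor F E D hdiv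
  let g' : D →ₐ[F] D' := { g with commutes' := hg }
  let f : E ⊗[F] D →ₐ[E] D' :=
    Algebra.TensorProduct.lift (Algebra.ofId E _) g' fun x y => Algebra.commutes x (g y)
  have hf : f.toLinearMap = ((Algebra.TensorProduct.basis E b).equiv b' (Equiv.refl ι)).toLinearMap := by
    apply (Algebra.TensorProduct.basis E b).ext
    intro i
    rw [LinearEquiv.coe_coe, Module.Basis.equiv_apply, Algebra.TensorProduct.basis_apply]
    change f ((1 : E) ⊗ₜ[F] b i) = b' i
    rw [Algebra.TensorProduct.lift_tmul, map_one, one_mul]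
    exact hb i
  have hbij : Function.Bijective f := by
    have h1 : (f : E ⊗[F] D → D') =
        ((Algebra.TensorProduct.basis E b).equiv b' (Equiv.refl ι)) := by
      funext x
      exact congrArg (fun h : E ⊗[F] D →ₗ[E] D' => h x) hf
    rw [h1]
    exact LinearEquiv.bijective _
  exact IsSimpleRing.of_ringEquiv (RingEquiv.ofBijective f hbij) hs

private theorem KYA_simple {ι F E : Type} [Fintype ι] [DecidableEq ι] [Nonempty ι] [Field F] [Field E]
    (s : SC ι F) (φ : F →+* E) (hdiv : ∀ x : s.Alg, x ≠ 0 → IsUnit x)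
    (hcen : ∀ x : s.Alg, (∀ y, x * y = y * x) → ∃ r : F, x = r • 1) : IsSimpleRing (s.map φ).Alg := by
  have : Nontrivial s.Alg := inferInstanceAs (Nontrivial (ι → F))
  refine KYA_gen φ (D := s.Alg) (D' := (s.map φ).Alg) (Module.Basis.ofEquivFun s.lin)
    (Module.Basis.ofEquivFun (s.map φ).lin) (s.hom φ) ?_ ?_ hdiv ?_
  · intro r
    apply SC.Alg.ext
    intro i
    exact map_mul φ r (s.u i)
  · intro i
    have h1 : (Module.Basis.ofEquivFun s.lin) i = (Pi.single i (1 : F) : ι → F) :=
      congrFun (Module.Basis.coe_ofEquivFun s.lin) i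
    have h2 : (Module.Basis.ofEquivFun (s.map φ).lin) i = (Pi.single i (1 : E) : ι → E) :=
      congrFun (Module.Basis.coe_ofEquivFun (s.map φ).lin) i
    refine ((congrArg (s.hom φ) h1).trans ?_).trans h2.symm
    apply SC.Alg.ext
    intro j
    change φ ((Pi.single i (1 : F) : ι → F) j) = (Pi.single i (1 : E) : ι → E) j
    rw [Pi.single_apply, Pi.single_apply]
    split_ifs
    · exact map_one φ
    · exact map_zero φ
  · exact hcen

/-- **KY_A.** PROOF. `DF A` is a division ring (`DivisionRing.ofIsUnitOrEqZero`, `DivAlg.div`; it is not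
trivial: its dimension over `F` is `n²`), central over `F` (`DivAlg.cen`). With `E` as an `F`-algebra by `φ`
(`φ.toAlgebra`) the map `E ⊗[F] DF A → DE A φ`, `e ⊗ x ↦ e • dE A φ x` is an isomorphism (both sides are free
over `E` with bases of `n²` elements: the basis vectors `e_i` of `DF A`), and `isSimpleRing_tensor`. -/
theorem simple_DE (A : AD F) [DivAlg A] {E : Type} [Field E] (φ : F →+* E) :
    IsSimpleRing (DE A φ) := by
  have h2 : 1 ≤ A.n := DivAlg.pos
  have : Nonempty (Fin A.n × Fin A.n) := ⟨(⟨0, by omega⟩, ⟨0, by omega⟩)⟩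
  exact KYA_simple A.sF φ DivAlg.div DivAlg.cen

/-! MODULE KY_B -/

private theorem KYB_finrank (A : AD F) {E : Type} [Field E] (φ : F →+* E) :
    Module.finrank E (DE A φ) = A.n ^ 2 := by
  have h : Module.finrank E (Fin A.n × Fin A.n → E) = A.n ^ 2 := by
    rw [Module.finrank_fintype_fun_eq_card, Fintype.card_prod, Fintype.card_fin, sq]
  exact h

private theorem KYB_fin (A : AD F) {E : Type} [Field E] (φ : F →+* E) : FiniteDimensional E (DE A φ) :=
  inferInstanceAs (Module.Finite E (Fin A.n × Fin A.n → E))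

/-- **KY_B.** PROOF. `real_case`, `simple_DE`, `finrank = n²`; the number `m` in `real_case` is `n / 2`. -/
theorem nonsplit_iso (A : AD F) [DivAlg A] (w : NPl A) : A.n = 2 * (A.n / 2) ∧
    Nonempty (DE A (embR w.1) ≃ₐ[ℝ] Matrix (Fin (A.n / 2)) (Fin (A.n / 2)) ℍ[ℝ]) := by
  have := simple_DE A (embR w.1)
  have h0 := @real_case (DE A (embR w.1)) _ _ (KYB_fin A (embR w.1)) _ _ (KYB_finrank A (embR w.1))
  rcases h0 with h | ⟨m, hm, h⟩
  · exact absurd h w.2
  · have h1 : A.n / 2 = m := by omega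
    rw [h1]
    exact ⟨hm, h⟩

/-- **KY_B.** PROOF. `complex_case`, `simple_DE`, `finrank = n²`. -/
theorem complex_iso (A : AD F) [DivAlg A] (w : CPl F) :
    Nonempty (DE A w.1.embedding ≃ₐ[ℂ] Matrix (Fin A.n) (Fin A.n) ℂ) := by
  have := simple_DE A w.1.embedding
  exact @complex_case (DE A w.1.embedding) _ _ (KYB_fin A w.1.embedding) _ _ (KYB_finrank A w.1.embedding)

/-- The isomorphism at a real place where `D` is not split. -/
def isoN {A : AD F} [DivAlg A] (w : NPl A) :
    DE A (embR w.1) ≃ₐ[ℝ] Matrix (Fin (A.n / 2)) (Fin (A.n / 2)) ℍ[ℝ] := (nonsplit_iso A w).2.some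

/-- The isomorphism at a complex place. -/
def isoC (A : AD F) [DivAlg A] (w : CPl F) :
    DE A w.1.embedding ≃ₐ[ℂ] Matrix (Fin A.n) (Fin A.n) ℂ := (complex_iso A w).some

/-- The real algebra `D ⊗ ℝ` as a product of matrix algebras. -/
abbrev TInf (A : AD F) : Type := (SPl A → Matrix (Fin A.n) (Fin A.n) ℝ) ×
  ((NPl A → Matrix (Fin (A.n / 2)) (Fin (A.n / 2)) ℍ[ℝ]) × (CPl F → Matrix (Fin A.n) (Fin A.n) ℂ))

/-- The map from `D ⊗ ℝ` to the product. -/
def homT (A : AD F) [DivAlg A] : AInf A →ₐ[ℝ] TInf A :=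
  AlgHom.prod (AlgHom.pi fun w => (isoS w).toAlgHom.comp (prR w.r))
    (AlgHom.prod (AlgHom.pi fun w => (isoN w).toAlgHom.comp (prR w.1))
      (AlgHom.pi fun w => ((isoC A w).toAlgHom.restrictScalars ℝ).comp (prC w)))

theorem homT_fst (A : AD F) [DivAlg A] (x : DF A) (w : SPl A) :
    (homT A (theta A x)).1 w = w.iso (dE A w.emb x) := rfl

/-! MODULE KY_C -/

/-- **KY_C.** PROOF. Injective: if `homT x = 0` then all `prR w x`, `prC w x` are `0` (every real place is the
place of an element of `SPl A` or of `NPl A`), so all coordinates are `0`. Onto: given `(a, b, c)` the element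
with coordinates `(((iso w).symm (a w)).co i or ((isoN w).symm (b w)).co i at the real place w,
((isoC w).symm (c w)).co i at the complex place w)` is mapped to it. -/
theorem homT_bij (A : AD F) [DivAlg A] : Function.Bijective (homT A) := by
  classical
  constructor
  · rw [injective_iff_map_eq_zero]
    intro x hx
    have hS : ∀ w : SPl A, prR w.r x = 0 := by
      intro w
      have h1 : isoS w (prR w.r x) = 0 := congrFun (congrArg Prod.fst hx) w
      exact (map_eq_zero_iff _ (isoS w).injective).1 h1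
    have hN : ∀ w : NPl A, prR w.1 x = 0 := by
      intro w
      have h1 : isoN w (prR w.1 x) = 0 := congrFun (congrArg (fun z => z.2.1) hx) w
      exact (map_eq_zero_iff _ (isoN w).injective).1 h1
    have hC : ∀ w : CPl F, prC w x = 0 := by
      intro w
      have h1 : isoC A w (prC w x) = 0 := congrFun (congrArg (fun z => z.2.2) hx) w
      exact (map_eq_zero_iff _ (isoC A w).injective).1 h1
    apply AInf.ext
    intro i
    apply Prod.ext
    · funext w
      by_cases h : Nonempty (DE A (embR w) ≃ₐ[ℝ] Matrix (Fin A.n) (Fin A.n) ℝ)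
      · exact congrArg (fun z => SC.Alg.co z i) (hS ⟨w.1, w.2, h⟩)
      · exact congrArg (fun z => SC.Alg.co z i) (hN ⟨w, h⟩)
    · funext w
      exact congrArg (fun z => SC.Alg.co z i) (hC w)
  · rintro ⟨a, b, c⟩
    let x : AInf A := AInf.mk fun i =>
      ((fun w => if h : Nonempty (DE A (embR w) ≃ₐ[ℝ] Matrix (Fin A.n) (Fin A.n) ℝ) then
          ((isoS (⟨w.1, w.2, h⟩ : SPl A)).symm (a ⟨w.1, w.2, h⟩)).co i
        else ((isoN (⟨w, h⟩ : NPl A)).symm (b ⟨w, h⟩)).co i),
        fun w => ((isoC A w).symm (c w)).co i)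
    refine ⟨x, ?_⟩
    apply Prod.ext
    · funext w
      change isoS w (prR w.r x) = a w
      rw [← AlgEquiv.eq_symm_apply]
      apply SC.Alg.ext
      intro i
      change (if h : Nonempty (DE A (embR w.r) ≃ₐ[ℝ] Matrix (Fin A.n) (Fin A.n) ℝ) then
          ((isoS (⟨w.r.1, w.r.2, h⟩ : SPl A)).symm (a ⟨w.r.1, w.r.2, h⟩)).co i
        else ((isoN (⟨w.r, h⟩ : NPl A)).symm (b ⟨w.r, h⟩)).co i) = _
      have h : Nonempty (DE A (embR w.r) ≃ₐ[ℝ] Matrix (Fin A.n) (Fin A.n) ℝ) :=
        w.2.choose_spec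
      rw [dif_pos h]
      rfl
    · apply Prod.ext
      · funext w
        change isoN w (prR w.1 x) = b w
        rw [← AlgEquiv.eq_symm_apply]
        apply SC.Alg.ext
        intro i
        change (if h : Nonempty (DE A (embR w.1) ≃ₐ[ℝ] Matrix (Fin A.n) (Fin A.n) ℝ) then
            ((isoS (⟨w.1.1, w.1.2, h⟩ : SPl A)).symm (a ⟨w.1.1, w.1.2, h⟩)).co i
          else ((isoN (⟨w.1, h⟩ : NPl A)).symm (b ⟨w.1, h⟩)).co i) = _
        rw [dif_neg w.2]
        rfl
      · funext w
        change isoC A w (prC w x) = c w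
        rw [← AlgEquiv.eq_symm_apply]
        apply SC.Alg.ext
        intro i
        rfl

/-- The isomorphism with the product. -/
def isoT (A : AD F) [DivAlg A] : AInf A ≃ₐ[ℝ] TInf A := AlgEquiv.ofBijective (homT A) (homT_bij A)

/-- The positive involution of the product. -/
def paT (A : AD F) : PA (TInf A) :=
  paProd (paPi (paMat paR A.n) (SPl A))
    (paProd (paPi (paMat paH (A.n / 2)) (NPl A)) (paPi (paMat paC A.n) (CPl F)))

/-- The positive involution of `D ⊗ ℝ`. -/
def PAI (A : AD F) [DivAlg A] : PA (AInf A) := paCongr (isoT A) (paT A)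

/-! MODULE KY_D -/

/-- **KY_D.** PROOF. `finrank_paCongr`, `finrank_paProd`, `finrank_paPi`, `finrank_paMat`, `finrank_sym_R`, ...;
`Complex.finrank_real_complex`, `Quaternion.finrank_eq_four`. The number of the real places is
`card (SPl A) + card (NPl A)`; if `NPl A` is not empty then `n = 2 m`, `m + 4 (m choose 2) = n (n - 1) / 2`;
`n + (n choose 2) = n (n + 1) / 2`, `n + 2 (n choose 2) = n ^ 2`. There is an archimedean place, so the sum is
positive. -/
theorem finrank_sym (A : AD F) [DivAlg A] : Module.finrank ℝ (PAI A).sym = A.dim + 1 := by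
  classical
  have h2n : 1 ≤ A.n := DivAlg.pos
  have hcard : Fintype.card (SPl A) + Fintype.card (NPl A) = InfinitePlace.nrRealPlaces F := by
    have e : SPl A ⊕ NPl A ≃ RPl F :=
      { toFun := fun z => Sum.elim (fun w => w.r) (fun w => w.1) z
        invFun := fun w => if h : Nonempty (DE A (embR w) ≃ₐ[ℝ] Matrix (Fin A.n) (Fin A.n) ℝ) then
          Sum.inl ⟨w.1, w.2, h⟩ else Sum.inr ⟨w, h⟩
        left_inv := by
          rintro (w | w)
          · have h : Nonempty (DE A (embR w.r) ≃ₐ[ℝ] Matrix (Fin A.n) (Fin A.n) ℝ) :=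
              w.2.choose_spec
            change (if h : Nonempty (DE A (embR w.r) ≃ₐ[ℝ] Matrix (Fin A.n) (Fin A.n) ℝ) then
              (Sum.inl (⟨w.r.1, w.r.2, h⟩ : SPl A) : SPl A ⊕ NPl A) else Sum.inr ⟨w.r, h⟩) = _
            rw [dif_pos h]
            rfl
          · change (if h : Nonempty (DE A (embR w.1) ≃ₐ[ℝ] Matrix (Fin A.n) (Fin A.n) ℝ) then
              (Sum.inl (⟨w.1.1, w.1.2, h⟩ : SPl A) : SPl A ⊕ NPl A) else Sum.inr ⟨w.1, h⟩) = _
            rw [dif_neg w.2]
            rfl
        right_inv := by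
          intro w
          by_cases h : Nonempty (DE A (embR w) ≃ₐ[ℝ] Matrix (Fin A.n) (Fin A.n) ℝ)
          · simp only [dif_pos h]
            rfl
          · simp only [dif_neg h]
            rfl }
    rw [← Fintype.card_sum, InfinitePlace.nrRealPlaces, Fintype.card_congr e]
  have hsp : A.sp = Fintype.card (SPl A) := Nat.card_eq_fintype_card
  have hcx : Fintype.card (CPl F) = InfinitePlace.nrComplexPlaces F := by
    rw [InfinitePlace.nrComplexPlaces]
    exact congrArg (fun i => @Fintype.card (CPl F) i) (Subsingleton.elim _ _)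
  have hr : Module.finrank ℝ (PAI A).sym =
      Fintype.card (SPl A) * (A.n * 1 + A.n.choose 2 * 1) +
        (Fintype.card (NPl A) * (A.n / 2 * 1 + (A.n / 2).choose 2 * 4) +
          Fintype.card (CPl F) * (A.n * 1 + A.n.choose 2 * 2)) := by
    rw [PAI, finrank_paCongr, paT, finrank_paProd, finrank_paProd, finrank_paPi, finrank_paPi,
      finrank_paPi, finrank_paMat, finrank_paMat, finrank_paMat, finrank_sym_R, finrank_sym_C,
      finrank_sym_H, Module.finrank_self, Complex.finrank_real_complex, Quaternion.finrank_eq_four]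
  rw [hr, AD.dim, hsp, hcx]
  have hsub : InfinitePlace.nrRealPlaces F - Fintype.card (SPl A) = Fintype.card (NPl A) := by
    omega
  rw [hsub]
  have e1 : A.n * 1 + A.n.choose 2 * 1 = A.n * (A.n + 1) / 2 := by
    have h1 := Nat.choose_two_right (A.n + 1)
    have h3 : (A.n + 1).choose 2 = A.n.choose 1 + A.n.choose 2 := rfl
    rw [Nat.choose_one_right] at h3
    rw [mul_one, mul_one, ← h3, h1, Nat.add_sub_cancel, mul_comm]
  have e2 : A.n * 1 + A.n.choose 2 * 2 = A.n ^ 2 := by
    rw [Nat.choose_two_right, Nat.div_mul_cancel (Nat.even_mul_pred_self A.n).two_dvd]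
    obtain ⟨k, hk⟩ : ∃ k, A.n = k + 1 := ⟨A.n - 1, by omega⟩
    rw [hk, Nat.add_sub_cancel]
    ring
  have e3 : Fintype.card (NPl A) * (A.n / 2 * 1 + (A.n / 2).choose 2 * 4) =
      Fintype.card (NPl A) * (A.n * (A.n - 1) / 2) := by
    rcases Nat.eq_zero_or_pos (Fintype.card (NPl A)) with h0 | h0
    · rw [h0, zero_mul, zero_mul]
    · obtain ⟨w⟩ := Fintype.card_pos_iff.1 h0
      have h1 := (nonsplit_iso A w).1
      congr 1
      obtain ⟨k, hk⟩ : ∃ k, A.n / 2 = k + 1 := ⟨A.n / 2 - 1, by omega⟩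
      rw [hk] at h1 ⊢
      have h4 : (k + 1).choose 2 * 2 = (k + 1) * k := by
        rw [Nat.choose_two_right, Nat.div_mul_cancel (Nat.even_mul_pred_self (k + 1)).two_dvd,
          Nat.add_sub_cancel]
      have h5 : A.n * (A.n - 1) = 2 * ((k + 1) * (2 * k + 1)) := by
        rw [h1]
        have : 2 * (k + 1) - 1 = 2 * k + 1 := by omega
        rw [this]
        ring
      rw [h5, Nat.mul_div_cancel_left _ two_pos]
      calc (k + 1) * 1 + (k + 1).choose 2 * 4 = (k + 1) + 2 * ((k + 1).choose 2 * 2) := by ring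
        _ = (k + 1) * (2 * k + 1) := by
          rw [h4]
          ring
  rw [e1, e2, e3]
  have hpos : 1 ≤ Fintype.card (SPl A) * (A.n * (A.n + 1) / 2) +
      (Fintype.card (NPl A) * (A.n * (A.n - 1) / 2) +
        InfinitePlace.nrComplexPlaces F * A.n ^ 2) := by
    have hplace : 0 < InfinitePlace.nrRealPlaces F + InfinitePlace.nrComplexPlaces F := by
      rw [← InfinitePlace.card_eq_nrRealPlaces_add_nrComplexPlaces]
      exact Fintype.card_pos
    have p1 : 1 ≤ A.n * (A.n + 1) / 2 := by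
      rw [Nat.le_div_iff_mul_le two_pos]
      nlinarith
    have p2 : 1 ≤ Fintype.card (NPl A) → 1 ≤ A.n * (A.n - 1) / 2 := by
      intro hN
      obtain ⟨w⟩ := Fintype.card_pos_iff.1 hN
      have hw := (nonsplit_iso A w).1
      rw [Nat.le_div_iff_mul_le two_pos]
      obtain ⟨k, hk⟩ : ∃ k, A.n = k + 2 := ⟨A.n - 2, by omega⟩
      rw [hk]
      have : k + 2 - 1 = k + 1 := by omega
      rw [this]
      nlinarith
    have p3 : 1 ≤ A.n ^ 2 := Nat.one_le_pow _ _ (by omega)
    rcases Nat.eq_zero_or_pos (InfinitePlace.nrComplexPlaces F) with h0 | h0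
    · rcases Nat.eq_zero_or_pos (Fintype.card (SPl A)) with h3 | h3
      · have h4 : 1 ≤ Fintype.card (NPl A) := by omega
        have := Nat.mul_le_mul h4 (p2 h4)
        omega
      · have := Nat.mul_le_mul h3 p1
        omega
    · have := Nat.mul_le_mul h0 p3
      omega
  omega

/-- The orientation character. -/
def epsA (A : AD F) : (sysA A).Sg →* ℤˣ where
  toFun s := (∏ᶠ w : SPl A, (show SPl A → ℤˣ from s) w) ^ (A.n + 1)
  map_one' := by
    have h : ∏ᶠ w : SPl A, (show SPl A → ℤˣ from (1 : (sysA A).Sg)) w = 1 := finprod_one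
    rw [h, one_pow]
  map_mul' s t := by
    have h : ∏ᶠ w : SPl A, (show SPl A → ℤˣ from (s * t)) w =
        (∏ᶠ w : SPl A, (show SPl A → ℤˣ from s) w) *
          ∏ᶠ w : SPl A, (show SPl A → ℤˣ from t) w :=
      finprod_mul_distrib (Set.toFinite _) (Set.toFinite _)
    rw [h, mul_pow]

/-! MODULE KY_E -/

/-- **KY_E.** PROOF. `dt_paCongr`, `dt_paProd`, `dt_paPi`, `dt_R` (`det = w.det γ` by `homT_fst`), `dt_pos_H`,
`dt_pos_C`: the determinant has the sign of the product of the `(w.det γ) ^ (n + 1)`, `w` in `SPl A`. -/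
theorem dt_sign {A : AD F} [DivAlg A] (γ : (DF A)ˣ) :
    0 < (PAI A).dt (thU A γ) * (((epsA A (dsgn A γ) : ℤˣ) : ℤ) : ℝ) := by
  classical
  set u : (TInf A)ˣ := Units.map (isoT A : AInf A →* TInf A) (thU A γ) with hu
  have h1 : (PAI A).dt (thU A γ) = (paT A).dt u := by
    rw [PAI, dt_paCongr]
  obtain ⟨u1, u2, u3, h2, hu1⟩ : ∃ (u1 : (SPl A → Matrix (Fin A.n) (Fin A.n) ℝ)ˣ)
      (u2 : (NPl A → Matrix (Fin (A.n / 2)) (Fin (A.n / 2)) ℍ[ℝ])ˣ)
      (u3 : (CPl F → Matrix (Fin A.n) (Fin A.n) ℂ)ˣ),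
      (paT A).dt u = (paPi (paMat paR A.n) (SPl A)).dt u1 *
        ((paPi (paMat paH (A.n / 2)) (NPl A)).dt u2 * (paPi (paMat paC A.n) (CPl F)).dt u3) ∧
      u1.1 = u.1.1 :=
    ⟨_, _, _, (dt_paProd _ _ _).trans (congrArg (_ * ·) (dt_paProd _ _ _)), rfl⟩
  have p2 : 0 < (paPi (paMat paH (A.n / 2)) (NPl A)).dt u2 := by
    rw [dt_paPi]
    exact Finset.prod_pos fun w _ => dt_pos_H _ _
  have p3 : 0 < (paPi (paMat paC A.n) (CPl F)).dt u3 := by
    rw [dt_paPi]
    exact Finset.prod_pos fun w _ => dt_pos_C _ _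
  have heps : (((epsA A (dsgn A γ) : ℤˣ) : ℤ) : ℝ) =
      ∏ w : SPl A, (((dsgn A γ w : ℤˣ) : ℤ) : ℝ) ^ (A.n + 1) := by
    have h3 : epsA A (dsgn A γ) = (∏ w : SPl A, dsgn A γ w) ^ (A.n + 1) := by
      change (∏ᶠ w : SPl A, dsgn A γ w) ^ (A.n + 1) = _
      rw [finprod_eq_prod_of_fintype]
    rw [h3, ← Finset.prod_pow, Units.coe_prod, Int.cast_prod]
    refine Finset.prod_congr rfl fun w _ => ?_
    rw [Units.val_pow_eq_pow_val, Int.cast_pow]
  have p1 : 0 < (paPi (paMat paR A.n) (SPl A)).dt u1 *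
      (((epsA A (dsgn A γ) : ℤˣ) : ℤ) : ℝ) := by
    rw [heps, dt_paPi, ← Finset.prod_mul_distrib]
    refine Finset.prod_pos fun w _ => ?_
    set g := Units.map (Pi.evalRingHom (fun _ : SPl A => Matrix (Fin A.n) (Fin A.n) ℝ) w :
      (SPl A → Matrix (Fin A.n) (Fin A.n) ℝ) →* Matrix (Fin A.n) (Fin A.n) ℝ) u1 with hg
    have h4 : g.1.det = w.det γ.1 := by
      change (u1.1 w).det = _
      rw [hu1]
      rfl
    have h5 := dt_R A.n g DivAlg.pos
    rw [h4] at h5
    have h6 : dsgn A γ w = if 0 < w.det γ.1 then 1 else -1 := rfl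
    rw [h6]
    rcases lt_or_gt_of_ne (w.det_ne γ) with h7 | h7
    · rw [if_neg (not_lt.2 h7.le)]
      have h8 : w.det γ.1 ^ (A.n + 1) = (-1) ^ (A.n + 1) * (-(w.det γ.1)) ^ (A.n + 1) := by
        rw [← mul_pow]
        congr 1
        ring
      rw [h8, ← mul_assoc] at h5
      have h9 : 0 < (-(w.det γ.1)) ^ (A.n + 1) := pow_pos (by linarith) _
      have h10 := (mul_pos_iff_of_pos_right h9).1 h5
      simpa using h10
    · rw [if_pos h7]
      have h9 : 0 < (w.det γ.1) ^ (A.n + 1) := pow_pos h7 _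
      have h10 := (mul_pos_iff_of_pos_right h9).1 h5
      simpa using h10
  rw [h1, h2]
  have h11 := mul_pos p1 (mul_pos p2 p3)
  calc (0 : ℝ) < _ := h11
    _ = _ := by ring

end Pool.Agent.CGN
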