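import Pool.Agent.CGN.KLat
import Pool.Agent.CGQ.SysOC

/-!
# The principal congruence subgroups
-/

noncomputable section

set_option linter.unusedSectionVars false
set_option linter.unusedVariables false

namespace Pool.Agent.CGN

open NumberField IsDedekindDomain Pool.Agent.CGQ
open Pool.Agent.CG2 (Pl Fv Ov)

open SC.Alg (co)

variable {F : Type} [Field F] [NumberField F] {A : AD F}

/-- The local component of `KNA`. -/
private def KLI_U (A : AD F) (N : ℕ) (v : Pl F) : Subgroup (DV A v)ˣ where
  carrier := {k | k ∈ BZ A v ∧ DivN A N v (k.1 - 1)}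
  mul_mem' := by
    intro a b ha hb
    refine ⟨(BZ A v).mul_mem ha.1 hb.1, ?_⟩
    have h : (a * b).1 - 1 = a.1 * (b.1 - 1) + (a.1 - 1) := by
      rw [Units.val_mul, mul_sub, mul_one]
      abel
    rw [h]
    exact divN_add (divN_mul_left ((mem_BZ_iff A v _).1 ha.1).1 hb.2) ha.2
  one_mem' := by
    refine ⟨(BZ A v).one_mem, ?_⟩
    rw [Units.val_one, sub_self]
    exact divN_zero
  inv_mem' := by
    intro a ha
    refine ⟨(BZ A v).inv_mem ha.1, ?_⟩
    have h : (a⁻¹).1 - 1 = (a⁻¹ : (DV A v)ˣ).1 * (-(a.1 - 1)) := by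
      rw [neg_sub, mul_sub, mul_one, Units.inv_mul]
    rw [h]
    exact divN_mul_left ((mem_BZ_iff A v _).1 ha.1).2 (divN_neg ha.2)

/-- **KLI.** PROOF. Port of `CG2.oc_KN` (file `Iface`?); `B = BZ` is compact, `KNA` is open:
`U v = {g in BZ, g - 1 divisible by N}` equals `BZ A v` for almost all `v` (`CG2.KoeCls_fin`). -/
theorem oc_KNA (N : ℕ) (hN : N ≠ 0) : OC (KNA A N) := by
  constructor
  · refine ⟨KLI_U A N, ?_, ?_, ?_⟩
    · intro v
      have hb : IsOpen {x : Fv v | Valued.v x ≤ Valued.v ((N : ℕ) : Fv v)} :=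
        CG2.isOpen_val_le v _ (CG2.KoeLat_val_natCast_ne v hN)
      have hU : (KLI_U A N v : Set (DV A v)ˣ) = (BZ A v : Set (DV A v)ˣ) ∩
          ⋂ i : Ix A, (fun g : (DV A v)ˣ => g.1.co i - (1 : DV A v).co i) ⁻¹'
            {x | Valued.v x ≤ Valued.v ((N : ℕ) : Fv v)} := by
        ext g
        simp only [Set.mem_inter_iff, Set.mem_iInter, Set.mem_preimage, Set.mem_ofPred_eq]
        exact Iff.rfl
      have hop : IsOpen (KLI_U A N v : Set (DV A v)ˣ) := by
        rw [hU]
        exact (isOpen_BZ A v).inter (isOpen_iInter_of_finite fun i =>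
          hb.preimage (((continuous_co i).comp Units.continuous_val).sub continuous_const))
      exact hop
    · refine (CG2.KoeCls_fin F N hN).subset ?_
      intro v hv h1
      apply hv
      intro g hg
      refine ⟨hg, fun i => ?_⟩
      rw [h1]
      have hg1 : IntA A v (g.1 - 1) := by
        rw [sub_eq_add_neg]
        refine intA_add ((mem_BZ_iff A v _).1 hg).1 (intA_neg ?_)
        have h2 := ((mem_BZ_iff A v _).1 (BZ A v).one_mem).1
        rwa [Units.val_one] at h2
      exact (intA_iff_co A v _).1 hg1 i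
    · intro k hk v
      exact hk v
  · refine ⟨fun v => (BZ A v : Set (DV A v)ˣ), fun v => isCompact_BZ A v, ?_, ?_⟩
    · refine Set.finite_empty.subset ?_
      intro v hv
      exact hv (Set.Subset.refl _)
    · intro k hk v
      exact (hk v).1

end Pool.Agent.CGN
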