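import Pool.Agent.CGN.KLL

/-!
# Lattices are cocompact
-/

noncomputable section

set_option linter.unusedSectionVars false

namespace Pool.Agent.CGN

open NumberField IsDedekindDomain Pool.Agent.CGQ
open Pool.Agent.CG2 (Pl Fv Ov)
open scoped Classical

variable {F : Type} [Field F] [NumberField F] {A : AD F} [DivAlg A]

private theorem KLM_near (F : Type) [Field F] [NumberField F] : ∃ R : ℝ, 0 ≤ R ∧
    ∀ m : Rinf F, ∃ a : 𝓞 F, ‖m - mixedEmbedding F (a : F)‖ ≤ R := by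
  classical
  let b := mixedEmbedding.latticeBasis F
  refine ⟨∑ i, ‖b i‖, Finset.sum_nonneg fun _ _ => norm_nonneg _, fun m => ?_⟩
  have h1 := ZSpan.norm_fract_le b m
  have h2 : ((ZSpan.floor b m : Submodule.span ℤ (Set.range b)) : mixedEmbedding.mixedSpace F) ∈
      mixedEmbedding.integerLattice F :=
    (mixedEmbedding.mem_span_latticeBasis F).1 (ZSpan.floor b m).2
  obtain ⟨a, ha⟩ := h2
  have ha' : mixedEmbedding F (a : F) =
      ((ZSpan.floor b m : Submodule.span ℤ (Set.range b)) : mixedEmbedding.mixedSpace F) := ha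
  refine ⟨a, ?_⟩
  rwa [ZSpan.fract_apply, ← ha'] at h1

/-- **KLM.** Lattices are cocompact. -/
theorem lat_coc (g : (sysA A).A) : ∃ R : ℝ, ∀ z : AInf A, ∃ x ∈ LatI g,
    (PAI A).sz (z - x) ≤ R := by
  classical
  obtain ⟨N, hN, h1, -⟩ := Lat_bounds g
  obtain ⟨R, hR0, hR⟩ := KLM_near F
  obtain ⟨c, C, hc, hC, h⟩ := sz_co A
  have hN' : (0 : ℝ) < N := Nat.cast_pos.2 hN
  refine ⟨C * (N * R) ^ 2, fun z => ?_⟩
  have key : ∀ i : Ix A, ∃ a : 𝓞 F,
      ‖z.co i - mixedEmbedding F (((N : ℕ) : F) * (a : F))‖ ≤ N * R := by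
    intro i
    obtain ⟨a, ha⟩ := hR ((N : ℝ)⁻¹ • z.co i)
    refine ⟨a, ?_⟩
    have h2 : z.co i - mixedEmbedding F (((N : ℕ) : F) * (a : F)) =
        (N : ℝ) • ((N : ℝ)⁻¹ • z.co i - mixedEmbedding F (a : F)) := by
      rw [smul_sub, smul_smul, mul_inv_cancel₀ hN'.ne', one_smul, map_mul, map_natCast]
      congr 1
    rw [h2, norm_smul, Real.norm_natCast]
    exact mul_le_mul_of_nonneg_left ha hN'.le
  choose a ha using key
  refine ⟨_, ⟨_, h1 a, rfl⟩, ?_⟩
  refine (h _).2.trans (mul_le_mul_of_nonneg_left ?_ hC)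
  refine pow_le_pow_left₀ (norm_nonneg _) ?_ 2
  refine (pi_norm_le_iff_of_nonneg (by positivity)).2 fun i => ?_
  have h3 : AInf.lin A (z - (theta A).toAddMonoidHom (((N : ℕ) : DF A) *
      mkD A (fun i => ((a i : 𝓞 F) : F)))) i =
      z.co i - mixedEmbedding F (((N : ℕ) : F) * ((a i : 𝓞 F) : F)) := by
    have h4 : (((N : ℕ) : DF A) * mkD A (fun i => ((a i : 𝓞 F) : F))).co i =
        ((N : ℕ) : F) * ((a i : 𝓞 F) : F) := co_nat N _ i
    rw [← h4]
    rfl
  rw [h3]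
  exact ha i

theorem isLat (g : (sysA A).A) : (PAI A).IsLat (LatI g) := ⟨lat_disc g, lat_coc g⟩

end Pool.Agent.CGN
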