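import Pool.Agent.CGN.KLC
import Pool.Agent.CGN.KLE
import Pool.Agent.CGN.KLI
import Pool.Agent.CGN.KLJ
import Pool.Agent.CGN.KLM
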