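import Pool.Agent.CGQ.KMA

/-!
# The size and norms
-/

noncomputable section

namespace Pool.Agent.CGN

open Pool.Agent.CGQ (PA)

variable {B : Type} [Ring B] [Algebra ℝ B] (P : PA B) {E : Type} [NormedAddCommGroup E]
  [NormedSpace ℝ E] [FiniteDimensional ℝ E]

/-- The size is equivalent to the square of every norm. -/
theorem sz_equiv (e : E ≃ₗ[ℝ] B) : ∃ c C : ℝ, 0 < c ∧ 0 ≤ C ∧
    ∀ x, c * ‖x‖ ^ 2 ≤ P.sz (e x) ∧ P.sz (e x) ≤ C * ‖x‖ ^ 2 := by
  let B0 : E →ₗ[ℝ] E →ₗ[ℝ] ℝ :=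
    LinearMap.mk₂ ℝ (fun x y => P.tau (e x * P.inv (e y)))
      (by intro x x' y; rw [map_add, add_mul, map_add])
      (by intro c x y; rw [map_smul, smul_mul_assoc, map_smul])
      (by intro x y y'; rw [map_add, map_add, mul_add, map_add])
      (by intro c x y; rw [map_smul, map_smul, mul_smul_comm, map_smul])
  let Q : E →L[ℝ] E →L[ℝ] ℝ := LinearMap.toContinuousLinearMap
    ((LinearMap.toContinuousLinearMap : (E →ₗ[ℝ] ℝ) ≃ₗ[ℝ] (E →L[ℝ] ℝ)).toLinearMap ∘ₗ B0)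
  have hsz : ∀ x, P.sz (e x) = Q x x := fun x => rfl
  have hcont : Continuous fun x : E => Q x x := Q.continuous.clm_apply continuous_id
  have hup : ∀ x, P.sz (e x) ≤ ‖Q‖ * ‖x‖ ^ 2 := by
    intro x
    rw [hsz]
    calc Q x x ≤ ‖Q x x‖ := le_abs_self _
      _ ≤ ‖Q x‖ * ‖x‖ := (Q x).le_opNorm x
      _ ≤ (‖Q‖ * ‖x‖) * ‖x‖ := mul_le_mul_of_nonneg_right (Q.le_opNorm x) (norm_nonneg _)
      _ = ‖Q‖ * ‖x‖ ^ 2 := by ring
  have : ProperSpace E := FiniteDimensional.proper_real E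
  by_cases hne : (Metric.sphere (0 : E) 1).Nonempty
  · obtain ⟨x0, hx0, hmin⟩ := (isCompact_sphere (0 : E) 1).exists_isMinOn hne hcont.continuousOn
    refine ⟨Q x0 x0, ‖Q‖, ?_, norm_nonneg Q, fun x => ⟨?_, hup x⟩⟩
    · rw [← hsz]
      apply P.sz_pos
      intro h
      rw [LinearEquiv.map_eq_zero_iff] at h
      rw [h, mem_sphere_zero_iff_norm, norm_zero] at hx0
      exact zero_ne_one hx0
    · rw [hsz]
      by_cases hx : x = 0
      · rw [hx, norm_zero, map_zero]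
        simp
      · have hn : ‖x‖ ≠ 0 := norm_ne_zero_iff.2 hx
        have h1 : x = ‖x‖ • (‖x‖⁻¹ • x) := by
          rw [smul_smul, mul_inv_cancel₀ hn, one_smul]
        have h2 : ‖x‖⁻¹ • x ∈ Metric.sphere (0 : E) 1 := by
          rw [mem_sphere_zero_iff_norm, norm_smul, norm_inv, norm_norm, inv_mul_cancel₀ hn]
        have h3 : Q x0 x0 ≤ Q (‖x‖⁻¹ • x) (‖x‖⁻¹ • x) := hmin h2
        have h4 : Q x x = ‖x‖ ^ 2 * Q (‖x‖⁻¹ • x) (‖x‖⁻¹ • x) := by
          have h5 : ∀ (c : ℝ) (z : E), Q (c • z) (c • z) = c ^ 2 * Q z z := by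
            intro c z
            simp only [map_smul, smul_apply, smul_eq_mul]
            ring
          rw [← h5, ← h1]
        rw [h4, mul_comm]
        exact mul_le_mul_of_nonneg_left h3 (sq_nonneg _)
  · refine ⟨1, ‖Q‖, one_pos, norm_nonneg Q, fun x => ⟨?_, hup x⟩⟩
    have hx : x = 0 := by
      by_contra hx
      apply hne
      have hn : ‖x‖ ≠ 0 := norm_ne_zero_iff.2 hx
      refine ⟨‖x‖⁻¹ • x, ?_⟩
      rw [mem_sphere_zero_iff_norm, norm_smul, norm_inv, norm_norm, inv_mul_cancel₀ hn]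
    rw [hx, norm_zero]
    have := P.sz_nonneg (e 0)
    simpa using this

end Pool.Agent.CGN
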