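import Pool.Agent.CGN.KLB
import Pool.Agent.CGN.KNm

/-!
# Lattices are discrete
-/

noncomputable section

set_option linter.unusedSectionVars false

namespace Pool.Agent.CGN

open NumberField IsDedekindDomain Pool.Agent.CGQ
open Pool.Agent.CG2 (Pl Fv Ov)
open scoped Classical

variable {F : Type} [Field F] [NumberField F] {A : AD F} [DivAlg A]

/-- The image of the lattice in `D ⊗ ℝ`. -/
def LatI (g : (sysA A).A) : AddSubgroup (AInf A) := (Lat g).map (theta A).toAddMonoidHom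

theorem mem_LatI {g : (sysA A).A} {z : AInf A} : z ∈ LatI g ↔ ∃ x ∈ Lat g, theta A x = z :=
  Iff.rfl

/-- The size is equivalent to the square of the norm of the coordinates. -/
theorem sz_co (A : AD F) [DivAlg A] : ∃ c C : ℝ, 0 < c ∧ 0 ≤ C ∧ ∀ x : AInf A,
    c * ‖AInf.lin A x‖ ^ 2 ≤ (PAI A).sz x ∧ (PAI A).sz x ≤ C * ‖AInf.lin A x‖ ^ 2 := by
  obtain ⟨c, C, hc, hC, h⟩ := sz_equiv (PAI A) (AInf.lin A).symm
  refine ⟨c, C, hc, hC, fun x => ?_⟩
  have h1 := h (AInf.lin A x)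
  rwa [LinearEquiv.symm_apply_apply] at h1

theorem normAtPlace_le (w : InfinitePlace F) (u : Rinf F) : mixedEmbedding.normAtPlace w u ≤ ‖u‖ := by
  rcases w.isReal_or_isComplex with hw | hw
  · rw [mixedEmbedding.normAtPlace_apply_of_isReal hw]
    exact (norm_le_pi_norm u.1 ⟨w, hw⟩).trans (norm_fst_le u)
  · rw [mixedEmbedding.normAtPlace_apply_of_isComplex hw]
    exact (norm_le_pi_norm u.2 ⟨w, hw⟩).trans (norm_snd_le u)

/-- The coordinates are bounded by the size. -/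
theorem KLL_bd (A : AD F) [DivAlg A] (C : ℝ) : ∃ D : ℝ, ∀ x : DF A, (PAI A).sz (theta A x) ≤ C →
    ∀ (w : InfinitePlace F) (i : Ix A), w (x.co i) ≤ D := by
  obtain ⟨c, C', hc, _, h⟩ := sz_co A
  refine ⟨Real.sqrt (|C| / c), fun x hx w i => ?_⟩
  have h1 := (h (theta A x)).1
  have h2 : ‖AInf.lin A (theta A x)‖ ^ 2 ≤ |C| / c := by
    rw [le_div_iff₀ hc, mul_comm]
    exact h1.trans (hx.trans (le_abs_self C))
  have h3 := Real.le_sqrt_of_sq_le h2
  have h4 : w (x.co i) = mixedEmbedding.normAtPlace w ((theta A x).co i) := by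
    rw [theta_co, mixedEmbedding.normAtPlace_apply]
  rw [h4]
  exact (normAtPlace_le w _).trans ((norm_le_pi_norm (AInf.lin A (theta A x)) i).trans h3)

/-- **KLL.** Lattices are discrete. -/
theorem lat_disc (g : (sysA A).A) (C : ℝ) :
    {x | x ∈ LatI g ∧ (PAI A).sz x ≤ C}.Finite := by
  obtain ⟨D, hD⟩ := KLL_bd A C
  obtain ⟨N, hN, -, h2⟩ := Lat_bounds g
  have hfin := Embeddings.finite_of_norm_le F ℂ ((N : ℝ) * D)
  have hfin2 : (Set.pi (Set.univ : Set (Ix A))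
      fun _ => {x : F | IsIntegral ℤ x ∧ ∀ φ : F →+* ℂ, ‖φ x‖ ≤ (N : ℝ) * D}).Finite :=
    Set.Finite.pi fun _ => hfin
  have hN0 : ((N : ℕ) : F) ≠ 0 := Nat.cast_ne_zero.2 hN.ne'
  have hfin3 : {x : DF A | x ∈ Lat g ∧ (PAI A).sz (theta A x) ≤ C}.Finite := by
    refine Set.Finite.of_finite_image (f := fun x : DF A => (fun i => ((N : ℕ) : F) * x.co i :
      Ix A → F)) (hfin2.subset ?_) ?_
    · rintro _ ⟨x, ⟨hx1, hx2⟩, rfl⟩ i _
      obtain ⟨a, ha⟩ := h2 x hx1 i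
      refine ⟨?_, fun φ => ?_⟩
      · change IsIntegral ℤ (((N : ℕ) : F) * x.co i)
        rw [ha]
        exact a.isIntegral_coe
      · change ‖φ (((N : ℕ) : F) * x.co i)‖ ≤ _
        rw [map_mul, map_natCast, norm_mul, Complex.norm_natCast]
        refine mul_le_mul_of_nonneg_left ?_ (Nat.cast_nonneg N)
        have := hD x hx2 (InfinitePlace.mk φ) i
        rwa [InfinitePlace.apply] at this
    · intro x _ y _ hxy
      exact SC.Alg.ext fun i => mul_left_cancel₀ hN0 (congrFun hxy i)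
  refine (hfin3.image (theta A)).subset ?_
  rintro _ ⟨⟨x, hx, rfl⟩, hs⟩
  exact ⟨x, ⟨hx, hs⟩, rfl⟩

end Pool.Agent.CGN
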