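import Pool.Agent.CGN.KInf
import Pool.Agent.CG2.KoeCls

/-!
# Lattices in `D` and the principal congruence subgroups
-/

noncomputable section

namespace Pool.Agent.CGN

open NumberField IsDedekindDomain
open Pool.Agent.CG2 (Pl Fv Ov)
open Pool.Agent.CGQ (Sys PA diag)

variable {F : Type} [Field F] [NumberField F]

/-- The element of `D` with given coordinates. -/
def mkD (A : AD F) (r : Ix A → F) : DF A := SC.Alg.mk r

@[simp] theorem co_mkD (A : AD F) (r : Ix A → F) (i : Ix A) : (mkD A r).co i = r i := rfl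

theorem intA_iff_co (A : AD F) (v : Pl F) (x : DV A v) :
    IntA A v x ↔ ∀ i, Valued.v (x.co i) ≤ 1 := Iff.rfl

theorem co_dloc (A : AD F) (v : Pl F) (x : DF A) (i : Ix A) :
    (dloc A v x).co i = ((x.co i : F) : Fv v) := rfl

/-- The coordinates of a multiple. -/
theorem co_nat {ι R : Type} [Fintype ι] [DecidableEq ι] [CommRing R] {s : SC ι R} (N : ℕ)
    (x : s.Alg) (i : ι) : (((N : ℕ) : s.Alg) * x).co i = ((N : ℕ) : R) * x.co i := by
  have h1 : ((N : ℕ) : s.Alg) * x = ((N : ℕ) : R) • x := by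
    rw [← nsmul_eq_mul, Nat.cast_smul_eq_nsmul]
  rw [h1, SC.Alg.co_smul]

/-- The component at `v`. -/
def gv {A : AD F} (g : (sysA A).A) (v : Pl F) : (DV A v)ˣ := g.1 v

theorem gv_mul {A : AD F} (g k : (sysA A).A) (v : Pl F) : gv (g * k) v = gv g v * gv k v := rfl

theorem gv_one {A : AD F} (v : Pl F) : gv (1 : (sysA A).A) v = 1 := rfl

theorem gv_inv {A : AD F} (g : (sysA A).A) (v : Pl F) : gv g⁻¹ v = (gv g v)⁻¹ := rfl

/-- An element of the group of the rational points as a unit of `D`. -/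
def uK {A : AD F} (γ : (sysA A).G) : (DF A)ˣ := γ

theorem gv_diag {A : AD F} (γ : (sysA A).G) (v : Pl F) :
    (gv (diag γ) v).1 = dloc A v (uK γ).1 := rfl

/-- The component at `v` of the element `g⁻¹ x`. -/
def iq {A : AD F} (g : (sysA A).A) (x : DF A) (v : Pl F) : DV A v :=
  ((gv g v)⁻¹ : (DV A v)ˣ).1 * dloc A v x

theorem iq_add {A : AD F} (g : (sysA A).A) (x y : DF A) (v : Pl F) :
    iq g (x + y) v = iq g x v + iq g y v := by
  rw [iq, map_add, mul_add]
  rfl

theorem iq_neg {A : AD F} (g : (sysA A).A) (x : DF A) (v : Pl F) :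
    iq g (-x) v = - iq g x v := by
  rw [iq, map_neg, mul_neg]
  rfl

theorem iq_zero {A : AD F} (g : (sysA A).A) (v : Pl F) : iq g (0 : DF A) v = 0 := by
  rw [iq, map_zero, mul_zero]

theorem intA_add {A : AD F} {v : Pl F} {x y : DV A v} (hx : IntA A v x) (hy : IntA A v y) :
    IntA A v (x + y) := by
  obtain ⟨a, rfl⟩ := (intA_iff A v x).1 hx
  obtain ⟨b, rfl⟩ := (intA_iff A v y).1 hy
  exact (intA_iff A v _).2 ⟨a + b, map_add _ _ _⟩

theorem intA_mul {A : AD F} {v : Pl F} {x y : DV A v} (hx : IntA A v x) (hy : IntA A v y) :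
    IntA A v (x * y) := by
  obtain ⟨a, rfl⟩ := (intA_iff A v x).1 hx
  obtain ⟨b, rfl⟩ := (intA_iff A v y).1 hy
  exact (intA_iff A v _).2 ⟨a * b, map_mul _ _ _⟩

theorem intA_neg {A : AD F} {v : Pl F} {x : DV A v} (hx : IntA A v x) : IntA A v (-x) := by
  obtain ⟨a, rfl⟩ := (intA_iff A v x).1 hx
  exact (intA_iff A v _).2 ⟨-a, map_neg _ _⟩

theorem intA_zero {A : AD F} {v : Pl F} : IntA A v (0 : DV A v) :=
  (intA_iff A v _).2 ⟨0, map_zero _⟩

theorem intA_one {A : AD F} {v : Pl F} : IntA A v (1 : DV A v) :=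
  (intA_iff A v _).2 ⟨1, map_one _⟩

/-- The lattice of the elements `x` of `D` with `g⁻¹ x` integral. -/
def Lat {A : AD F} (g : (sysA A).A) : AddSubgroup (DF A) where
  carrier := {x | ∀ v, IntA A v (iq g x v)}
  add_mem' := by
    intro a b ha hb v
    rw [iq_add]
    exact intA_add (ha v) (hb v)
  zero_mem' := by
    intro v
    rw [iq_zero]
    exact intA_zero
  neg_mem' := by
    intro a ha v
    rw [iq_neg]
    exact intA_neg (ha v)

theorem mem_Lat {A : AD F} {g : (sysA A).A} {x : DF A} :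
    x ∈ Lat g ↔ ∀ v, IntA A v (iq g x v) := Iff.rfl

/-- The finite set of the classes of coordinates modulo `N`. -/
abbrev Cls (A : AD F) (N : ℕ) : Type :=
  Ix A → (𝓞 F ⧸ Ideal.span {((N : ℕ) : 𝓞 F)})

/-- `g⁻¹ x` is congruent to `r` modulo `N`. -/
def IsCls {A : AD F} (N : ℕ) (g : (sysA A).A) (x : DF A) (r : Ix A → 𝓞 F) : Prop :=
  ∀ v i, Valued.v ((iq g x v).co i - (((r i : 𝓞 F) : F) : Fv v)) ≤ Valued.v ((N : ℕ) : Fv v)

open Classical in
/-- The class of `g⁻¹ x` modulo `N`. -/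
def cls {A : AD F} (N : ℕ) (g : (sysA A).A) (x : DF A) : Cls A N :=
  if h : ∃ r, IsCls N g x r then fun i => Ideal.Quotient.mk _ (h.choose i) else 0

/-- `x` is divisible by `N`. -/
def DivN (A : AD F) (N : ℕ) (v : Pl F) (x : DV A v) : Prop :=
  ∀ i, Valued.v (x.co i) ≤ Valued.v ((N : ℕ) : Fv v)

/-- `x` is divisible by `N` iff `x = N y` with `y` integral. -/
theorem divN_iff {A : AD F} {N : ℕ} {v : Pl F} (x : DV A v) :
    DivN A N v x ↔ ∃ y, IntA A v y ∧ x = ((N : ℕ) : DV A v) * y := by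
  constructor
  · intro h
    by_cases hN : N = 0
    · subst hN
      refine ⟨0, intA_zero, ?_⟩
      have h0 : ∀ i, x.co i = 0 := by
        intro i
        have h1 := h i
        rw [Nat.cast_zero, map_zero, le_zero_iff] at h1
        exact (Valuation.zero_iff _).1 h1
      rw [mul_zero]
      exact SC.Alg.ext h0
    · have hv := CG2.KoeLat_val_natCast_ne v hN
      have hN0 : ((N : ℕ) : Fv v) ≠ 0 := by
        intro h1
        rw [h1, map_zero] at hv
        exact hv rfl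
      refine ⟨((N : ℕ) : Fv v)⁻¹ • x, ?_, ?_⟩
      · intro i
        rw [SC.Alg.co_smul, map_mul, map_inv₀, inv_mul_le_one₀ (zero_lt_iff.2 hv)]
        exact h i
      · apply SC.Alg.ext
        intro i
        rw [co_nat, SC.Alg.co_smul, mul_inv_cancel_left₀ hN0]
  · rintro ⟨y, hy, rfl⟩ i
    rw [co_nat, map_mul]
    calc _ ≤ Valued.v ((N : ℕ) : Fv v) * 1 := mul_le_mul' le_rfl (hy i)
      _ = _ := mul_one _

theorem divN_add {A : AD F} {N : ℕ} {v : Pl F} {x y : DV A v} (hx : DivN A N v x)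
    (hy : DivN A N v y) : DivN A N v (x + y) := by
  rw [divN_iff] at hx hy ⊢
  obtain ⟨a, ha, rfl⟩ := hx
  obtain ⟨b, hb, rfl⟩ := hy
  exact ⟨a + b, intA_add ha hb, by rw [mul_add]⟩

theorem divN_neg {A : AD F} {N : ℕ} {v : Pl F} {x : DV A v} (hx : DivN A N v x) :
    DivN A N v (-x) := by
  rw [divN_iff] at hx ⊢
  obtain ⟨a, ha, rfl⟩ := hx
  exact ⟨-a, intA_neg ha, by rw [mul_neg]⟩

theorem divN_zero {A : AD F} {N : ℕ} {v : Pl F} : DivN A N v (0 : DV A v) := by
  rw [divN_iff]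
  exact ⟨0, intA_zero, by rw [mul_zero]⟩

theorem divN_mul_left {A : AD F} {N : ℕ} {v : Pl F} {x y : DV A v} (hx : IntA A v x)
    (hy : DivN A N v y) : DivN A N v (x * y) := by
  rw [divN_iff] at hy ⊢
  obtain ⟨a, ha, rfl⟩ := hy
  refine ⟨x * a, intA_mul hx ha, ?_⟩
  rw [← mul_assoc, ← mul_assoc, (Nat.cast_commute N x).eq]

theorem divN_mul_right {A : AD F} {N : ℕ} {v : Pl F} {x y : DV A v} (hx : DivN A N v x)
    (hy : IntA A v y) : DivN A N v (x * y) := by
  rw [divN_iff] at hx ⊢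
  obtain ⟨a, ha, rfl⟩ := hx
  exact ⟨a * y, intA_mul ha hy, by rw [mul_assoc]⟩

/-- The principal congruence subgroup of level `N`. -/
def KNA (A : AD F) (N : ℕ) : Subgroup (sysA A).A where
  carrier := {k | ∀ v, gv k v ∈ BZ A v ∧ DivN A N v ((gv k v).1 - 1)}
  mul_mem' := by
    intro a b ha hb v
    refine ⟨(BZ A v).mul_mem (ha v).1 (hb v).1, ?_⟩
    have h : (gv (a * b) v).1 - 1 = (gv a v).1 * ((gv b v).1 - 1) + ((gv a v).1 - 1) := by
      rw [gv_mul, Units.val_mul, mul_sub, mul_one]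
      abel
    rw [h]
    exact divN_add (divN_mul_left ((mem_BZ_iff A v _).1 (ha v).1).1 (hb v).2) (ha v).2
  one_mem' := by
    intro v
    refine ⟨(BZ A v).one_mem, ?_⟩
    rw [gv_one, Units.val_one, sub_self]
    exact divN_zero
  inv_mem' := by
    intro a ha v
    refine ⟨(BZ A v).inv_mem (ha v).1, ?_⟩
    have h : (gv a⁻¹ v).1 - 1 = ((gv a v)⁻¹ : (DV A v)ˣ).1 * (-((gv a v).1 - 1)) := by
      rw [gv_inv, neg_sub, mul_sub, mul_one, Units.inv_mul]
    rw [h]
    exact divN_mul_left ((mem_BZ_iff A v _).1 (ha v).1).2 (divN_neg (ha v).2)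

/-- The functional attached to an element of `D^×`. -/
def qe (A : AD F) [DivAlg A] (e : (sysA A).G) : (PAI A).V →L[ℝ] ℝ := (PAI A).q (theta A (uK e).1)

/-- The weights `C` are between `1` and `9/8` and generic. -/
def GoodA (A : AD F) [DivAlg A] (N : ℕ) (C : Cls A N → ℝ) : Prop :=
  (∀ κ, 1 < C κ ∧ C κ < 9 / 8) ∧
  ∀ (S : Finset (sysA A).G) (f : (sysA A).G → Cls A N), Set.InjOn f S → ∀ h : (PAI A).V,
    (∀ x ∈ S, qe A x h = C (f x)) → LinearIndependent ℝ fun x : S => qe A x.1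

/-- Every non-zero element of `D` is a unit. -/
theorem isUnit_of_ne {A : AD F} [h : DivAlg A] (x : DF A) (hx : x ≠ 0) : IsUnit x := h.div x hx

instance (A : AD F) [h : DivAlg A] : Nonempty (Ix A) :=
  have := h.pos
  ⟨(⟨0, by omega⟩, ⟨0, by omega⟩)⟩

instance (A : AD F) [DivAlg A] : Nontrivial (DF A) := inferInstanceAs (Nontrivial (Ix A → F))

instance (A : AD F) [DivAlg A] : Nontrivial (AInf A) := (theta_inj A).nontrivial

end Pool.Agent.CGN
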