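import Pool.Agent.CGN.KOr

/-!
# The data of the top degrees and the systems of cells
-/

noncomputable section

set_option linter.unusedSectionVars false
set_option linter.unusedVariables false

namespace Pool.Agent.CGN

open NumberField IsDedekindDomain Pool.Agent.CGQ Pool.Agent.CG3
open Pool.Agent.CG2 (Pl Fv Ov PolySys CellSys Asc)

variable {F : Type} [Field F] [NumberField F] {A : AD F} [DivAlg A]

instance : Countable (sysA A).G := countable_G A

/-- An element of `V` on which all functionals are positive. -/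
theorem exists_hone (A : AD F) [DivAlg A] : ∃ h : (PAI A).V, ∀ e : (sysA A).G, 0 < qe A e h := by
  obtain ⟨h, hh⟩ := (PAI A).exists_el 1 (PAI A).inv_one
  refine ⟨h, fun e => ?_⟩
  rw [qe, PA.q_one _ _ _ hh]
  exact (PAI A).sz_pos (thU A (uK e)).ne_zero

/-- The representative of `γ b`. -/
theorem outK_smul {𝒟 : Sys F} {K : Subgroup 𝒟.A} (γ : 𝒟.G) (b : PtK K) :
    ∃ κ ∈ K, outK (γ • b) = rt (act γ (outK b)) κ := by
  have h1 : mkK K (outK (γ • b)) = mkK K (act γ (outK b)) := by
    rw [mkK_outK]
    conv_lhs => rw [← mkK_outK b]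
    rfl
  exact mkK_eq.1 h1.symm

/-- The data of the top degrees. -/
theorem exists_tsys (hd : 2 ≤ A.dim) {N : ℕ} (hN : 3 ≤ N)
    {K : Subgroup (sysA A).A} (hK : K ≤ KNA A N) (hO : OC K) :
    ∃ X : TSys K, X.C.n0 = A.dim ∧ (∀ γ, X.ε γ = epsA A ((sysA A).sgn γ)) ∧
      ∀ y : (sysA A).Pt, X.sg (mkK K y) = epsA A y.1 := by
  obtain ⟨C, hC⟩ := exists_goodA A N (by omega)
  obtain ⟨b, hb⟩ := (famA N hN C hC).exists_genF
  obtain ⟨h, hh⟩ := exists_hone A
  refine ⟨{ C := (famA N hN C hC).cs hK
            two := hd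
            min := (famA N hN C hC).cs_min hK
            orb := orbA N hN C hC hK hO
            asc := (famA N hN C hC).cs_asc hK
            om := (famA N hN C hC).om b
            om_cyc := (famA N hN C hC).om_cocycle b hb h hh
            om_fin := fun w x y => om_fin N hN C hC hK b hb y x w
            sg := fun x => epsA A (outK x).1
            ε := (epsA A).comp (sysA A).sgn
            sg_smul := ?_
            fan := (famA N hN C hC).om_fan hK b hb }, rfl, fun γ => rfl, ?_⟩
  · intro γ x
    obtain ⟨κ, -, hκ⟩ := outK_smul γ x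
    have h1 : (outK (γ • x)).1 = (sysA A).sgn γ * (outK x).1 := by rw [hκ]; rfl
    change epsA A (outK (γ • x)).1 = epsA A ((sysA A).sgn γ) * epsA A (outK x).1
    rw [h1, map_mul]
  · intro y
    have h1 := mkK_outK (mkK K y)
    obtain ⟨κ, -, hκ⟩ := mkK_eq.1 h1.symm
    change epsA A (outK (mkK K y)).1 = epsA A y.1
    rw [hκ]
    rfl

/-- The systems of cells of torsion free groups. -/
theorem exists_prodA {K : Subgroup (sysA A).A} (hO : OC K)
    (hTF : TorsionFree K) : ∃ (E : Type) (_ : MulAction (sysA A).G E) (_ : DecidableEq E),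
      Nonempty (CellSys (sysA A).G (PtK K) E) := by
  obtain ⟨C, hC⟩ := exists_goodA A 3 (by omega)
  exact (famA 3 le_rfl C hC).exists_prodCell (oc_KNA 3 (by omega)) hO hTF

end Pool.Agent.CGN
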