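import Pool.Agent.CGN.KFin
import Pool.Agent.CGQ.KRD

/-!
# The orientation cocycle: finiteness
-/

noncomputable section

set_option linter.unusedSectionVars false
set_option linter.unusedVariables false

namespace Pool.Agent.CGN

open NumberField IsDedekindDomain Pool.Agent.CGQ Pool.Agent.CG3
open Pool.Agent.CG2 (Pl Fv Ov PolySys CellSys Asc)

open SC.Alg (co)

variable {F : Type} [Field F] [NumberField F]

variable {A : AD F} [DivAlg A]

private theorem KOr_den (c : F) : ∃ d : ℕ, 0 < d ∧ ∃ a : 𝓞 F, (d : F) * c = a := by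
  have h1 : IsAlgebraic ℤ c :=
    (IsFractionRing.isAlgebraic_iff ℤ ℚ F).2 (Algebra.IsAlgebraic.isAlgebraic c)
  obtain ⟨d, hd, hint⟩ := h1.exists_integral_multiple
  have h2 : IsIntegral ℤ ((d.natAbs : F) * c) := by
    rcases Int.natAbs_eq d with h | h
    · have h3 : (d.natAbs : F) * c = d • c := by
        rw [zsmul_eq_mul]
        congr 1
        conv_rhs => rw [h]
        rw [Int.cast_natCast]
      rw [h3]
      exact hint
    · have h3 : (d.natAbs : F) * c = -(d • c) := by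
        rw [zsmul_eq_mul, ← neg_mul]
        congr 1
        conv_rhs => rw [h]
        rw [Int.cast_neg, neg_neg, Int.cast_natCast]
      rw [h3]
      exact hint.neg
  exact ⟨d.natAbs, Int.natAbs_pos.2 hd, ⟨_, h2⟩, rfl⟩

private theorem KOr_den4 (c : Ix A → F) : ∃ d : ℕ, 0 < d ∧ ∀ i, ∃ a : 𝓞 F,
    (d : F) * c i = a := by
  choose d hd a ha using fun i => KOr_den (c i)
  refine ⟨∏ i, d i, Finset.prod_pos fun i _ => hd i, fun i => ?_⟩
  refine ⟨(∏ j ∈ Finset.univ.erase i, (d j : 𝓞 F)) * a i, ?_⟩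
  have h := ha i
  rw [← Finset.mul_prod_erase Finset.univ d (Finset.mem_univ i)]
  push_cast
  linear_combination (∏ j ∈ Finset.univ.erase i, (d j : F)) * h

private theorem KOr_mul (e : (sysA A).G) (g : (sysA A).A) :
    ∃ n : ℕ, 0 < n ∧ ∃ e' ∈ LatE g, (uK e').1 = (n : DF A) * (uK e).1 := by
  obtain ⟨N, hN, h1, -⟩ := Lat_bounds g
  obtain ⟨d, hd, h2⟩ := KOr_den4 (co (uK e).1)
  choose a ha using h2
  have h3 : ((N * d : ℕ) : DF A) * (uK e).1 ∈ Lat g := by
    have h4 : ((N * d : ℕ) : DF A) * (uK e).1 =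
        ((N : ℕ) : DF A) * mkD A (fun i => ((a i : 𝓞 F) : F)) := by
      rw [Nat.cast_mul, mul_assoc]
      congr 1
      apply SC.Alg.ext
      intro i
      rw [co_nat, co_mkD]
      exact ha i
    rw [h4]
    exact h1 a
  have hne : ((N * d : ℕ) : DF A) * (uK e).1 ≠ 0 := by
    intro h
    have h5 := (uK e).isUnit.mul_left_eq_zero.1 h
    have h6 : ((N * d : ℕ) : F) = 0 := (algebraMap F (DF A)).injective (by
      rw [map_natCast, map_zero]
      exact h5)
    rw [Nat.cast_eq_zero] at h6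
    exact absurd h6 (Nat.mul_pos hN hd).ne'
  obtain ⟨u, hu⟩ := isUnit_of_ne _ hne
  exact ⟨N * d, Nat.mul_pos hN hd, u, by
    change u.1 ∈ Lat g
    rw [hu]
    exact h3, hu⟩

private theorem KOr_uD_mul (a b : (sysA A).G) : (uK (a * b)).1 = (uK a).1 * (uK b).1 := rfl

private theorem KOr_qe_nat (n : ℕ) (e e' : (sysA A).G) (h : (uK e').1 = (n : DF A) * (uK e).1)
    (x : (PAI A).V) : qe A e' x = (n : ℝ) ^ 2 * qe A e x := by
  rw [qe, qe, h, map_mul, map_natCast, PA.q_natCast]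

variable (N : ℕ) (hN : 3 ≤ N) (C : Cls A N → ℝ) (hC : GoodA A N C)

/-- **KRF.** PROOF. Let `δ y = y' κ`. Then `δ (Lat y.2) =
Lat (y'.2 κ) = Lat y'.2` (`mem_Lat_diag`, `Lat_mul`). Fix `n > 0` with `n w_i` in `Lat y'.2`
(`Lat_bounds`), so `δ⁻¹ n w_i` is in `Lat y.2`, fix `h₁` with `1 ≤ qe` on `Lat y.2` (`ks_large`), `h'` positive
definite with `1 ≤ qe` on `Lat y'.2`, and a unit `z` of `D` in `Lat y.2`. If `om ≠ 0` then `b = ∑ x_i qe (δ⁻¹ w_i)`,
`x_i > 0`, so `b h₁ ≥ ∑ x_i / n²`. As `b` is in the open set `KPos` there is `ε > 0` (not depending on `δ`) with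
`b - ε qe z` in `KPos`, so `b h ≥ ε qe z h` for semidefinite `h`; for `h = (actQ δ)⁻¹ h'` this is
`∑ x_i qe w_i h' ≥ ε qe (δ z) h'`. So `qe (δ z) h'` is bounded, `δ z` is in `Lat y'.2`, so there are
finitely many `δ z` (`PD.lower`, `lat_disc`, `theta_inj`). -/
theorem om_fin {K : Subgroup (sysA A).A} (hK : K ≤ KNA A N) (b : (PAI A).V →L[ℝ] ℝ)
    (hb : (famA N hN C hC).GenF b) (y y' : (sysA A).Pt)
    (w : Fin ((famA N hN C hC).n0 + 1) → (sysA A).G) :
    {δ : (sysA A).G | mkK K (act δ y) = mkK K y' ∧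
      (famA N hN C hC).om b (fun i => δ⁻¹ * w i) ≠ 0}.Finite := by
  classical
  -- the lattice points
  obtain ⟨nz, -, z, hz, -⟩ := KOr_mul 1 y.2
  choose n hn e he hew using fun i => KOr_mul (w i) y'.2
  obtain ⟨h₁, hh₁, hL₁⟩ := ks_large (A := A) y.2
  obtain ⟨h', hh', -⟩ := ks_large (A := A) y'.2
  obtain ⟨ε, hε, hle⟩ := PA.kpos_eps hb.1
  obtain ⟨C', hC', hq⟩ := (PAI A).q_le
  obtain ⟨ε', U, hε', hU, hlow⟩ := hh'.lower
  have hlow' := hlow h' (mem_of_mem_nhds hU)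
  set c : Fin ((famA N hN C hC).n0 + 1) → ℝ := fun i => 2 / (n i : ℝ) ^ 2 with hc
  have hcpos : ∀ i, 0 < c i := fun i => by
    have := hn i
    have h1 : (0 : ℝ) < n i := by exact_mod_cast this
    exact div_pos two_pos (pow_pos h1 2)
  set B1 : ℝ := ∑ i, b h₁ / c i * qe A (w i) h' with hB1
  set B : ℝ := C' * (B1 / ε) * (PAI A).sz (theta A (uK z).1) with hB
  refine Set.Finite.subset (Set.Finite.preimage (f := fun δ : (sysA A).G =>
    theta A (uK (δ * z)).1) (Function.Injective.injOn ?_) (lat_disc y'.2 (B / ε'))) ?_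
  · intro δ δ' hδ
    have h1 : (uK (δ * z)).1 = (uK (δ' * z)).1 := theta_inj A hδ
    have h2 : δ * z = δ' * z := Units.ext h1
    exact mul_right_cancel h2
  rintro δ ⟨hδ, hom⟩
  obtain ⟨κ, hκ, hy'⟩ := mkK_eq.1 hδ
  have hLat : Lat y'.2 = Lat (diag δ * y.2) := by
    rw [hy']
    change Lat (diag δ * y.2 * κ) = _
    exact Lat_mul _ fun v => (hK hκ v).1
  -- the coefficients
  have hcone : InCone b (fun i => (famA N hN C hC).q (δ⁻¹ * w i)) := by
    by_contra h
    exact hom (if_neg h)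
  obtain ⟨x, hx, hbx⟩ := hcone
  have hbx' : ∀ v, b v = ∑ i, x i * qe A (δ⁻¹ * w i) v := by
    intro v
    rw [hbx, _root_.sum_apply]
    rfl
  have hw1 : ∀ i, c i ≤ qe A (δ⁻¹ * w i) h₁ := by
    intro i
    have h1 : δ⁻¹ * e i ∈ LatE y.2 := by
      change (uK (δ⁻¹ * e i)).1 ∈ Lat y.2
      rw [← mem_Lat_diag δ, ← hLat, ← KOr_uD_mul, mul_inv_cancel_left]
      exact he i
    have h2 := hL₁ _ h1
    have h3 : (uK (δ⁻¹ * e i)).1 = ((n i : ℕ) : DF A) * (uK (δ⁻¹ * w i)).1 := by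
      rw [KOr_uD_mul, hew i, KOr_uD_mul, ← mul_assoc, ← mul_assoc,
        (Nat.cast_commute (n i) (uK δ⁻¹).1).eq]
    rw [KOr_qe_nat (n i) _ _ h3] at h2
    have h4 : (0 : ℝ) < n i := by exact_mod_cast hn i
    change 2 / (n i : ℝ) ^ 2 ≤ _
    rw [div_le_iff₀ (pow_pos h4 2), mul_comm]
    exact h2
  have hxi : ∀ i, x i ≤ b h₁ / c i := by
    intro i
    rw [le_div_iff₀ (hcpos i), hbx' h₁]
    refine (mul_le_mul_of_nonneg_left (hw1 i) (hx i).le).trans ?_
    exact Finset.single_le_sum (f := fun i => x i * qe A (δ⁻¹ * w i) h₁)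
      (fun j _ => mul_nonneg (hx j).le ((hcpos j).le.trans (hw1 j))) (Finset.mem_univ i)
  -- the form `h`
  set h : (PAI A).V := (actA A δ).symm h' with hh
  have hact : actA A δ h = h' := LinearEquiv.apply_symm_apply _ _
  have hpsd : (PAI A).PSD h := by
    have h1 : (PAI A).PSD (actA A δ h) := by
      rw [hact]
      exact hh'.psd
    exact ((PAI A).hA_psd (thU A (uK δ)) h).2 h1
  have hqe : ∀ a : (sysA A).G, qe A (δ * a) h' = qe A a h := by
    intro a
    rw [← hact]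
    exact actA_q δ a h
  have hbh : b h ≤ B1 := by
    rw [hbx' h]
    refine Finset.sum_le_sum fun i _ => ?_
    have h1 : qe A (δ⁻¹ * w i) h = qe A (w i) h' := by
      rw [← hqe, mul_inv_cancel_left]
    rw [h1]
    exact mul_le_mul_of_nonneg_right (hxi i) (hh'.psd _)
  have hzB : qe A (δ * z) h' ≤ B := by
    rw [hqe]
    refine (le_abs_self _).trans ((hq h (theta A (uK z).1)).trans ?_)
    refine mul_le_mul_of_nonneg_right (mul_le_mul_of_nonneg_left ?_ hC') ((PAI A).sz_nonneg _)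
    rw [le_div_iff₀ hε, mul_comm]
    exact (hle h hpsd).trans hbh
  refine ⟨?_, ?_⟩
  · refine mem_LatI.2 ⟨_, ?_, rfl⟩
    rw [hLat, KOr_uD_mul, mem_Lat_diag]
    exact hz
  · have h5 : ε' * (PAI A).sz (theta A (uK (δ * z)).1) ≤ qe A (δ * z) h' := hlow' _
    have h6 := h5.trans hzB
    change (PAI A).sz (theta A (uK (δ * z)).1) ≤ B / ε'
    rw [le_div_iff₀ hε', mul_comm]
    exact h6

end Pool.Agent.CGN
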