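import Pool.Agent.CGQ.KPA

/-!
# Constructions of real algebras with a positive involution
-/

noncomputable section

set_option linter.unusedVariables false

namespace Pool.Agent.CGN

open Pool.Agent.CGQ (PA)
open scoped Quaternion

section constructions

variable {A B : Type} [Ring A] [Algebra ℝ A] [Ring B] [Algebra ℝ B]

/-- The algebra of matrices. -/
def paMat (P : PA A) (m : ℕ) : PA (Matrix (Fin m) (Fin m) A) where
  inv :=
    { toFun := fun M => Matrix.of fun i j => P.inv (M j i)
      map_add' := fun M N => by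
        ext i j
        exact map_add P.inv _ _
      map_smul' := fun c M => by
        ext i j
        exact map_smul P.inv c _ }
  inv_mul M N := by
    ext i j
    change P.inv ((M * N) j i) = (∑ k, P.inv (N k i) * P.inv (M j k))
    rw [Matrix.mul_apply, map_sum]
    exact Finset.sum_congr rfl fun k _ => P.inv_mul _ _
  inv_inv M := by
    ext i j
    exact P.inv_inv _
  tau :=
    { toFun := fun M => ∑ i, P.tau (M i i)
      map_add' := fun M N => by
        rw [← Finset.sum_add_distrib]
        exact Finset.sum_congr rfl fun i _ => map_add P.tau _ _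
      map_smul' := fun c M => by
        rw [RingHom.id_apply, Finset.smul_sum]
        exact Finset.sum_congr rfl fun i _ => map_smul P.tau c _ }
  tau_comm M N := by
    change ∑ i, P.tau ((M * N) i i) = ∑ i, P.tau ((N * M) i i)
    simp only [Matrix.mul_apply, map_sum]
    rw [Finset.sum_comm]
    exact Finset.sum_congr rfl fun i _ => Finset.sum_congr rfl fun j _ => P.tau_comm _ _
  tau_inv M := by
    change ∑ i, P.tau (P.inv (M i i)) = ∑ i, P.tau (M i i)
    exact Finset.sum_congr rfl fun i _ => P.tau_inv _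
  tau_pos M hM := by
    change 0 < ∑ i, P.tau (∑ k, M i k * P.inv (M i k))
    simp only [map_sum]
    have h0 : ∀ i k, 0 ≤ P.tau (M i k * P.inv (M i k)) := fun i k => P.sz_nonneg (M i k)
    have h1 : ∃ i k, M i k ≠ 0 := by
      by_contra h
      push Not at h
      exact hM (Matrix.ext h)
    obtain ⟨i, k, hik⟩ := h1
    refine Finset.sum_pos' (fun i _ => Finset.sum_nonneg fun k _ => h0 i k) ⟨i, Finset.mem_univ _, ?_⟩
    exact Finset.sum_pos' (fun k _ => h0 i k) ⟨k, Finset.mem_univ _, P.tau_pos _ hik⟩

/-- The product. -/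
def paProd (P : PA A) (Q : PA B) : PA (A × B) where
  inv := P.inv.prodMap Q.inv
  inv_mul x y := Prod.ext (P.inv_mul _ _) (Q.inv_mul _ _)
  inv_inv x := Prod.ext (P.inv_inv _) (Q.inv_inv _)
  tau := P.tau.coprod Q.tau
  tau_comm x y := by
    change P.tau (x.1 * y.1) + Q.tau (x.2 * y.2) = P.tau (y.1 * x.1) + Q.tau (y.2 * x.2)
    rw [P.tau_comm, Q.tau_comm]
  tau_inv x := by
    change P.tau (P.inv x.1) + Q.tau (Q.inv x.2) = P.tau x.1 + Q.tau x.2
    rw [P.tau_inv, Q.tau_inv]
  tau_pos x hx := by
    change 0 < P.tau (x.1 * P.inv x.1) + Q.tau (x.2 * Q.inv x.2)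
    by_cases h : x.1 = 0
    · have h2 : x.2 ≠ 0 := fun h2 => hx (Prod.ext h h2)
      exact add_pos_of_nonneg_of_pos (P.sz_nonneg _) (Q.tau_pos _ h2)
    · exact add_pos_of_pos_of_nonneg (P.tau_pos _ h) (Q.sz_nonneg _)

/-- The power. -/
def paPi (P : PA A) (ι : Type) [Fintype ι] : PA (ι → A) where
  inv := LinearMap.pi fun i => P.inv.comp (LinearMap.proj i)
  inv_mul x y := funext fun i => P.inv_mul _ _
  inv_inv x := funext fun i => P.inv_inv _
  tau := ∑ i, P.tau.comp (LinearMap.proj i)
  tau_comm x y := by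
    simp only [LinearMap.sum_apply]
    exact Finset.sum_congr rfl fun i _ => P.tau_comm _ _
  tau_inv x := by
    simp only [LinearMap.sum_apply]
    exact Finset.sum_congr rfl fun i _ => P.tau_inv _
  tau_pos x hx := by
    simp only [LinearMap.sum_apply]
    have h0 : ∀ i, 0 ≤ P.tau (x i * P.inv (x i)) := fun i => P.sz_nonneg (x i)
    obtain ⟨i, hi⟩ := Function.ne_iff.1 hx
    exact Finset.sum_pos' (fun i _ => h0 i) ⟨i, Finset.mem_univ _, P.tau_pos _ hi⟩

/-- Transport along an isomorphism. -/
def paCongr (e : A ≃ₐ[ℝ] B) (Q : PA B) : PA A where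
  inv := e.symm.toLinearMap ∘ₗ Q.inv ∘ₗ e.toLinearMap
  inv_mul x y := by
    change e.symm (Q.inv (e (x * y))) = e.symm (Q.inv (e y)) * e.symm (Q.inv (e x))
    rw [map_mul, Q.inv_mul, map_mul]
  inv_inv x := by
    change e.symm (Q.inv (e (e.symm (Q.inv (e x))))) = x
    rw [AlgEquiv.apply_symm_apply, Q.inv_inv, AlgEquiv.symm_apply_apply]
  tau := Q.tau ∘ₗ e.toLinearMap
  tau_comm x y := by
    change Q.tau (e (x * y)) = Q.tau (e (y * x))
    rw [map_mul e, map_mul e, Q.tau_comm]
  tau_inv x := by
    change Q.tau (e (e.symm (Q.inv (e x)))) = Q.tau (e x)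
    rw [AlgEquiv.apply_symm_apply, Q.tau_inv]
  tau_pos x hx := by
    change 0 < Q.tau (e (x * e.symm (Q.inv (e x))))
    rw [map_mul e, AlgEquiv.apply_symm_apply]
    exact Q.tau_pos _ fun h => hx ((map_eq_zero_iff e e.injective).1 h)

end constructions

/-- The real numbers. -/
def paR : PA ℝ where
  inv := LinearMap.id
  inv_mul _ _ := mul_comm _ _
  inv_inv _ := rfl
  tau := LinearMap.id
  tau_comm _ _ := mul_comm _ _
  tau_inv _ := rfl
  tau_pos _ hx := mul_self_pos.2 hx

/-- The complex numbers. -/
def paC : PA ℂ where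
  inv := Complex.conjAe.toLinearMap
  inv_mul x y := by
    change (starRingEnd ℂ) (x * y) = (starRingEnd ℂ) y * (starRingEnd ℂ) x
    rw [map_mul, mul_comm]
  inv_inv x := Complex.conj_conj x
  tau := Complex.reLm
  tau_comm x y := by
    change (x * y).re = (y * x).re
    rw [mul_comm]
  tau_inv x := Complex.conj_re x
  tau_pos x hx := by
    change 0 < (x * (starRingEnd ℂ) x).re
    rw [Complex.mul_conj, Complex.ofReal_re]
    exact Complex.normSq_pos.2 hx

/-- The quaternions. -/
def paH : PA ℍ[ℝ] where
  inv :=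
    { toFun := star
      map_add' := star_add
      map_smul' := fun c x => by
        ext <;> simp }
  inv_mul x y := star_mul x y
  inv_inv x := star_star x
  tau :=
    { toFun := fun x => x.re
      map_add' := fun _ _ => rfl
      map_smul' := fun _ _ => rfl }
  tau_comm x y := by
    change (x * y).re = (y * x).re
    simp only [Quaternion.re_mul]
    ring
  tau_inv x := Quaternion.re_star x
  tau_pos x hx := by
    change 0 < (x * star x).re
    rw [Quaternion.self_mul_star, Quaternion.re_coe]
    exact lt_of_le_of_ne Quaternion.normSq_nonneg (Ne.symm (Quaternion.normSq_ne_zero.2 hx))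

end Pool.Agent.CGN
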