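import Pool.Agent.CGN.KPX
import Pool.Agent.CGN.KGen

/-!
# Dimensions and determinants for the constructions of `KPX`
-/

noncomputable section

set_option linter.unusedSectionVars false

namespace Pool.Agent.CGN

open Pool.Agent.CGQ (PA)
open scoped Quaternion

section general

variable {A B : Type} [Ring A] [Algebra ℝ A] [Ring B] [Algebra ℝ B] [FiniteDimensional ℝ A]
  [FiniteDimensional ℝ B]

/-! MODULE KX_K -/

private theorem KXK_inv (P : PA A) (m : ℕ) (M : Matrix (Fin m) (Fin m) A) (i j : Fin m) :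
    (paMat P m).inv M i j = P.inv (M j i) := rfl

private theorem KXK_mem (P : PA A) (m : ℕ) (M : Matrix (Fin m) (Fin m) A) :
    M ∈ (paMat P m).sym ↔ ∀ i j, P.inv (M j i) = M i j :=
  ⟨fun h i j => congrFun (congrFun h i) j, fun h => Matrix.ext h⟩

private def KXK_e (P : PA A) (m : ℕ) : (paMat P m).sym ≃ₗ[ℝ]
    (Fin m → P.sym) × ({x : Fin m × Fin m // x.1 < x.2} → A) where
  toFun M := (fun i => ⟨M.1 i i, (KXK_mem P m M.1).1 M.2 i i⟩, fun x => M.1 x.1.1 x.1.2)
  map_add' _ _ := rfl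
  map_smul' _ _ := rfl
  invFun f := ⟨Matrix.of fun i j => if h : i < j then f.2 ⟨(i, j), h⟩ else
      if h : j < i then P.inv (f.2 ⟨(j, i), h⟩) else (f.1 i : A), by
    rw [KXK_mem]
    intro i j
    simp only [Matrix.of_apply]
    rcases lt_trichotomy i j with h | h | h
    · rw [dif_neg h.not_gt, dif_pos h, dif_pos h, P.inv_inv]
    · subst h
      rw [dif_neg (lt_irrefl _), dif_neg (lt_irrefl _)]
      exact (f.1 i).2
    · rw [dif_pos h, dif_neg h.not_gt, dif_pos h]⟩
  left_inv M := by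
    apply Subtype.ext
    ext i j
    simp only [Matrix.of_apply]
    rcases lt_trichotomy i j with h | h | h
    · rw [dif_pos h]
    · subst h
      rw [dif_neg (lt_irrefl _), dif_neg (lt_irrefl _)]
    · rw [dif_neg h.not_gt, dif_pos h]
      exact (KXK_mem P m M.1).1 M.2 i j
  right_inv f := by
    refine Prod.ext (funext fun i => ?_) (funext fun x => ?_)
    · apply Subtype.ext
      simp only [Matrix.of_apply]
      rw [dif_neg (lt_irrefl _), dif_neg (lt_irrefl _)]
    · simp only [Matrix.of_apply]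
      rw [dif_pos x.2]

private theorem KXK_card (m : ℕ) :
    Fintype.card {x : Fin m × Fin m // x.1 < x.2} = m.choose 2 := by
  rw [Fintype.card_subtype]
  have h1 : (Finset.univ.filter fun x : Fin m × Fin m => x.1 < x.2).card +
      (Finset.univ.filter fun x : Fin m × Fin m => x.1 < x.2).card + m = m * m := by
    have h2 : (Finset.univ.filter fun x : Fin m × Fin m => x.1 < x.2).card =
        (Finset.univ.filter fun x : Fin m × Fin m => x.2 < x.1).card := by
      refine Finset.card_bij (fun x _ => (x.2, x.1)) ?_ ?_ ?_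
      · intro x hx
        simpa using hx
      · intro x _ y _ h
        simp only [Prod.mk.injEq] at h
        exact Prod.ext h.2 h.1
      · intro x hx
        exact ⟨(x.2, x.1), by simpa using hx, rfl⟩
    have h3 : (Finset.univ.filter fun x : Fin m × Fin m => x.1 = x.2).card = m := by
      have : (Finset.univ.filter fun x : Fin m × Fin m => x.1 = x.2) =
          Finset.univ.image (fun i : Fin m => (i, i)) := by
        ext x
        simp only [Finset.mem_filter, Finset.mem_univ, true_and, Finset.mem_image]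
        constructor
        · intro h
          exact ⟨x.1, Prod.ext rfl h⟩
        · rintro ⟨i, rfl⟩
          rfl
      rw [this, Finset.card_image_of_injective _ (fun i j h => congrArg Prod.fst h),
        Finset.card_univ, Fintype.card_fin]
    have h4 : (Finset.univ : Finset (Fin m × Fin m)) =
        (Finset.univ.filter fun x : Fin m × Fin m => x.1 < x.2) ∪
          ((Finset.univ.filter fun x : Fin m × Fin m => x.2 < x.1) ∪
            (Finset.univ.filter fun x : Fin m × Fin m => x.1 = x.2)) := by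
      ext x
      simp only [Finset.mem_univ, Finset.mem_union, Finset.mem_filter, true_and, true_iff]
      rcases lt_trichotomy x.1 x.2 with h | h | h
      · exact Or.inl h
      · exact Or.inr (Or.inr h)
      · exact Or.inr (Or.inl h)
    have h5 : (Finset.univ : Finset (Fin m × Fin m)).card = m * m := by
      rw [Finset.card_univ, Fintype.card_prod, Fintype.card_fin]
    rw [h4, Finset.card_union_of_disjoint, Finset.card_union_of_disjoint, ← h2, h3] at h5
    · omega
    · rw [Finset.disjoint_left]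
      intro x hx hx'
      simp only [Finset.mem_filter, Finset.mem_univ, true_and] at hx hx'
      exact absurd hx' hx.ne'
    · rw [Finset.disjoint_left]
      intro x hx hx'
      simp only [Finset.mem_union, Finset.mem_filter, Finset.mem_univ, true_and] at hx hx'
      rcases hx' with h | h
      · exact absurd hx h.not_gt
      · exact absurd h hx.ne
  rw [Nat.choose_two_right]
  have h6 : m * (m - 1) = 2 * (Finset.univ.filter fun x : Fin m × Fin m => x.1 < x.2).card := by
    rw [Nat.mul_sub, mul_one]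
    omega
  rw [h6, Nat.mul_div_cancel_left _ two_pos]

/-- **KX_K.** PROOF. `sym` is the space of the matrices with `M i i` in `P.sym`, `M j i = P.inv (M i j)` for
`i < j`: it is isomorphic to `(Fin m → P.sym) × ({x : Fin m × Fin m // x.1 < x.2} → A)`. -/
theorem finrank_paMat (P : PA A) (m : ℕ) : Module.finrank ℝ (paMat P m).sym =
    m * Module.finrank ℝ P.sym + m.choose 2 * Module.finrank ℝ A := by
  rw [LinearEquiv.finrank_eq (KXK_e P m), Module.finrank_prod, Module.finrank_pi_fintype,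
    Module.finrank_pi_fintype, Finset.sum_const, Finset.sum_const, smul_eq_mul, smul_eq_mul,
    Finset.card_univ, Finset.card_univ, Fintype.card_fin, KXK_card]

/-! MODULE KX_L -/

private def KXL_prod (P : PA A) (Q : PA B) : (paProd P Q).sym ≃ₗ[ℝ] P.sym × Q.sym where
  toFun x := (⟨x.1.1, congrArg Prod.fst x.2⟩, ⟨x.1.2, congrArg Prod.snd x.2⟩)
  map_add' _ _ := rfl
  map_smul' _ _ := rfl
  invFun y := ⟨(y.1.1, y.2.1), Prod.ext y.1.2 y.2.2⟩
  left_inv _ := rfl
  right_inv _ := rfl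

theorem finrank_paProd (P : PA A) (Q : PA B) : Module.finrank ℝ (paProd P Q).sym =
    Module.finrank ℝ P.sym + Module.finrank ℝ Q.sym := by
  rw [LinearEquiv.finrank_eq (KXL_prod P Q), Module.finrank_prod]

private def KXL_pi (P : PA A) (ι : Type) [Fintype ι] : (paPi P ι).sym ≃ₗ[ℝ] (ι → P.sym) where
  toFun x := fun i => ⟨x.1 i, congrFun x.2 i⟩
  map_add' _ _ := rfl
  map_smul' _ _ := rfl
  invFun y := ⟨fun i => (y i).1, funext fun i => (y i).2⟩
  left_inv _ := rfl
  right_inv _ := rfl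

theorem finrank_paPi (P : PA A) (ι : Type) [Fintype ι] : Module.finrank ℝ (paPi P ι).sym =
    Fintype.card ι * Module.finrank ℝ P.sym := by
  rw [LinearEquiv.finrank_eq (KXL_pi P ι), Module.finrank_pi_fintype, Finset.sum_const,
    smul_eq_mul, Finset.card_univ]

private def KXL_congr (e : A ≃ₐ[ℝ] B) (Q : PA B) : (paCongr e Q).sym ≃ₗ[ℝ] Q.sym where
  toFun x := ⟨e x.1, by
    have h : e.symm (Q.inv (e x.1)) = x.1 := x.2
    change Q.inv (e x.1) = e x.1
    exact (AlgEquiv.symm_apply_eq e).1 h⟩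
  map_add' x y := Subtype.ext (map_add e _ _)
  map_smul' c x := Subtype.ext (map_smul e c x.1)
  invFun y := ⟨e.symm y.1, by
    have h : Q.inv y.1 = y.1 := y.2
    change e.symm (Q.inv (e (e.symm y.1))) = e.symm y.1
    rw [AlgEquiv.apply_symm_apply, h]⟩
  left_inv x := Subtype.ext (e.symm_apply_apply _)
  right_inv y := Subtype.ext (e.apply_symm_apply _)

theorem finrank_paCongr (e : A ≃ₐ[ℝ] B) (Q : PA B) : Module.finrank ℝ (paCongr e Q).sym =
    Module.finrank ℝ Q.sym := LinearEquiv.finrank_eq (KXL_congr e Q)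

theorem finrank_sym_R : Module.finrank ℝ paR.sym = 1 := by
  have h : paR.sym = ⊤ := by
    ext x
    exact ⟨fun _ => trivial, fun _ => rfl⟩
  rw [h, finrank_top, Module.finrank_self]

private def KXL_C : paC.sym ≃ₗ[ℝ] ℝ where
  toFun x := x.1.re
  map_add' _ _ := rfl
  map_smul' c x := Complex.smul_re c x.1
  invFun r := ⟨(r : ℂ), Complex.conj_ofReal r⟩
  left_inv x := Subtype.ext (Complex.conj_eq_iff_re.1 x.2)
  right_inv r := Complex.ofReal_re r

theorem finrank_sym_C : Module.finrank ℝ paC.sym = 1 := by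
  rw [LinearEquiv.finrank_eq KXL_C, Module.finrank_self]

private def KXL_H : paH.sym ≃ₗ[ℝ] ℝ where
  toFun x := x.1.re
  map_add' _ _ := rfl
  map_smul' _ _ := rfl
  invFun r := ⟨(r : ℍ[ℝ]), Quaternion.star_coe r⟩
  left_inv x := Subtype.ext (Quaternion.star_eq_self.1 x.2).symm
  right_inv r := Quaternion.re_coe r

theorem finrank_sym_H : Module.finrank ℝ paH.sym = 1 := by
  rw [LinearEquiv.finrank_eq KXL_H, Module.finrank_self]

/-! MODULE KX_M -/

/-- **KX_M.** PROOF. `P.hA u` is conjugate (by `P.el`) to the map `P.cjE u` of `P.sym`; `LinearMap.det_conj`. -/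
theorem dt_eq (P : PA A) (u : Aˣ) :
    P.dt u = LinearMap.det (P.cjE u : P.sym →ₗ[ℝ] P.sym) := by
  have h : (P.hA u : P.V →ₗ[ℝ] P.V) = (P.el.symm : P.sym →ₗ[ℝ] P.V) ∘ₗ (P.cjE u : P.sym →ₗ[ℝ] P.sym) ∘ₗ
      (P.el.symm.symm : P.V →ₗ[ℝ] P.sym) := rfl
  rw [PA.dt, h, LinearMap.det_conj]

private theorem KXM_det (P : PA A) (u : Aˣ) {M : Type} [AddCommGroup M] [Module ℝ M] (E : P.sym ≃ₗ[ℝ] M)
    (g : M →ₗ[ℝ] M) (h : ∀ x, E (P.cjE u x) = g (E x)) : P.dt u = LinearMap.det g := by
  have h1 : g = (E : P.sym →ₗ[ℝ] M) ∘ₗ (P.cjE u : P.sym →ₗ[ℝ] P.sym) ∘ₗ (E.symm : M →ₗ[ℝ] P.sym) := by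
    apply LinearMap.ext
    intro y
    change g y = E (P.cjE u (E.symm y))
    rw [h, LinearEquiv.apply_symm_apply]
  rw [dt_eq, h1, LinearMap.det_conj]

/-- the symmetric elements of the product -/
private def KXM_prod (P : PA A) (Q : PA B) : (paProd P Q).sym ≃ₗ[ℝ] P.sym × Q.sym where
  toFun h := (⟨h.1.1, congrArg Prod.fst h.2⟩, ⟨h.1.2, congrArg Prod.snd h.2⟩)
  map_add' _ _ := rfl
  map_smul' _ _ := rfl
  invFun p := ⟨(p.1.1, p.2.1), Prod.ext p.1.2 p.2.2⟩
  left_inv _ := rfl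
  right_inv _ := rfl

/-- the symmetric elements of the power -/
private def KXM_pi (P : PA A) (ι : Type) [Fintype ι] : (paPi P ι).sym ≃ₗ[ℝ] (ι → P.sym) where
  toFun h := fun i => ⟨h.1 i, congrFun h.2 i⟩
  map_add' _ _ := rfl
  map_smul' _ _ := rfl
  invFun p := ⟨fun i => (p i).1, funext fun i => (p i).2⟩
  left_inv _ := rfl
  right_inv _ := rfl

/-- the symmetric elements of an isomorphic algebra -/
private def KXM_congr (e : A ≃ₐ[ℝ] B) (Q : PA B) : (paCongr e Q).sym ≃ₗ[ℝ] Q.sym where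
  toFun h := ⟨e h.1, by
    have h1 : e.symm (Q.inv (e h.1)) = h.1 := h.2
    exact (AlgEquiv.symm_apply_eq e).1 h1⟩
  map_add' x y := Subtype.ext (map_add e _ _)
  map_smul' c x := Subtype.ext (map_smul e _ _)
  invFun p := ⟨e.symm p.1, by
    have h1 : Q.inv p.1 = p.1 := p.2
    change e.symm (Q.inv (e (e.symm p.1))) = e.symm p.1
    rw [AlgEquiv.apply_symm_apply, h1]⟩
  left_inv x := Subtype.ext (e.symm_apply_apply _)
  right_inv x := Subtype.ext (e.apply_symm_apply _)

/-- **KX_M.** PROOF. `dt_eq`; `sym` of the product is the product of the `sym` and the map is the product;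
`LinearMap.det_conj`, `LinearMap.det_prodMap`. -/
theorem dt_paProd (P : PA A) (Q : PA B) (u : (A × B)ˣ) : (paProd P Q).dt u =
    P.dt (Units.map (RingHom.fst A B : A × B →* A) u) *
      Q.dt (Units.map (RingHom.snd A B : A × B →* B) u) := by
  rw [KXM_det (paProd P Q) u (KXM_prod P Q) (LinearMap.prodMap
    (P.cjE (Units.map (RingHom.fst A B : A × B →* A) u) : P.sym →ₗ[ℝ] P.sym)
    (Q.cjE (Units.map (RingHom.snd A B : A × B →* B) u) : Q.sym →ₗ[ℝ] Q.sym)) (fun x => rfl),
    LinearMap.det_prodMap, dt_eq, dt_eq]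

/-- **KX_M.** PROOF. The same, `LinearMap.det_pi`. -/
theorem dt_paPi (P : PA A) (ι : Type) [Fintype ι] (u : (ι → A)ˣ) : (paPi P ι).dt u =
    ∏ i, P.dt (Units.map (Pi.evalRingHom (fun _ : ι => A) i : (ι → A) →* A) u) := by
  rw [KXM_det (paPi P ι) u (KXM_pi P ι) (LinearMap.pi fun i =>
    (P.cjE (Units.map (Pi.evalRingHom (fun _ : ι => A) i : (ι → A) →* A) u) : P.sym →ₗ[ℝ] P.sym).comp
      (LinearMap.proj i)) (fun x => rfl), LinearMap.det_pi]
  exact Finset.prod_congr rfl fun i _ => (dt_eq _ _).symm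

/-- **KX_M.** PROOF. The same, `LinearMap.det_conj`. -/
theorem dt_paCongr (e : A ≃ₐ[ℝ] B) (Q : PA B) (u : Aˣ) : (paCongr e Q).dt u =
    Q.dt (Units.map (e : A →* B) u) := by
  rw [KXM_det (paCongr e Q) u (KXM_congr e Q)
    (Q.cjE (Units.map (e : A →* B) u) : Q.sym →ₗ[ℝ] Q.sym), dt_eq]
  intro x
  apply Subtype.ext
  change e (e.symm (Q.inv (e (u⁻¹ : Aˣ).1)) * (x.1 * (u⁻¹ : Aˣ).1)) =
    Q.inv (Units.map (e : A →* B) u)⁻¹.1 * (e x.1 * (Units.map (e : A →* B) u)⁻¹.1)
  rw [map_mul, map_mul, AlgEquiv.apply_symm_apply, ← map_inv]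
  rfl

/-- The sign of the determinant. -/
def sgnDt (P : PA A) : Aˣ →* ℤˣ where
  toFun u := if 0 < P.dt u then 1 else -1
  map_one' := by
    rw [P.dt_of_fix P.hA_one, if_pos one_pos]
  map_mul' u v := by
    have hu := P.dt_ne u
    have hv := P.dt_ne v
    rw [P.dt_mul]
    rcases lt_or_gt_of_ne hu with h1 | h1 <;> rcases lt_or_gt_of_ne hv with h2 | h2
    · rw [if_pos (mul_pos_of_neg_of_neg h1 h2), if_neg (not_lt.2 h1.le), if_neg (not_lt.2 h2.le)]
      simp
    · rw [if_neg (not_lt.2 (mul_nonpos_of_nonpos_of_nonneg h1.le h2.le)), if_neg (not_lt.2 h1.le),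
        if_pos h2]
      simp
    · rw [if_neg (not_lt.2 (mul_nonpos_of_nonneg_of_nonpos h1.le h2.le)), if_pos h1,
        if_neg (not_lt.2 h2.le)]
      simp
    · rw [if_pos (mul_pos h1 h2), if_pos h1, if_pos h2]
      simp

theorem sgnDt_eq_one (P : PA A) (u : Aˣ) : sgnDt P u = 1 ↔ 0 < P.dt u := by
  change (if 0 < P.dt u then (1 : ℤˣ) else -1) = 1 ↔ _
  split_ifs with h
  · exact ⟨fun _ => h, fun _ => rfl⟩
  · exact ⟨fun h1 => absurd h1 (by decide), fun h1 => absurd h1 h⟩

end general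

/-! MODULE KX_N -/

private theorem KXN_dg1_one {K : Type} [Ring K] (m : ℕ) : dg1 m (1 : Kˣ) = 1 := by
  apply Units.ext
  change Matrix.diagonal (Fin.cons ((1 : Kˣ) : K) fun _ => 1) = 1
  rw [← Matrix.diagonal_one]
  congr 1
  funext i
  refine Fin.cases ?_ (fun i => ?_) i
  · simp
  · simp

private theorem KXN_sq {K : Type} [DivisionRing K] (h2 : (2 : K) ≠ 0) (hsq : ∀ d : Kˣ, ∃ c, c * c = d)
    {m : ℕ} (f : (Matrix (Fin (m + 1)) (Fin (m + 1)) K)ˣ →* ℤˣ)
    (u : (Matrix (Fin (m + 1)) (Fin (m + 1)) K)ˣ) : f u = 1 := by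
  obtain ⟨d, hd⟩ := exists_dg1 h2 m u
  obtain ⟨c, hc⟩ := hsq d
  rw [hd f, ← hc, ← mul_one (c * c), dg1_sq, KXN_dg1_one, map_one]

private theorem KXN_quat (d : ℍ[ℝ]) : ∃ c : ℍ[ℝ], c * c = d := by
  obtain ⟨a, x, y, z⟩ := d
  have h0 : 0 ≤ a ^ 2 + x ^ 2 + y ^ 2 + z ^ 2 := by positivity
  obtain ⟨r, hr0, hr⟩ : ∃ r : ℝ, 0 ≤ r ∧ r ^ 2 = a ^ 2 + x ^ 2 + y ^ 2 + z ^ 2 :=
    ⟨Real.sqrt _, Real.sqrt_nonneg _, Real.sq_sqrt h0⟩
  have har : -r ≤ a := by
    apply neg_le_of_abs_le
    apply abs_le_of_sq_le_sq _ hr0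
    rw [hr]
    nlinarith [sq_nonneg x, sq_nonneg y, sq_nonneg z]
  rcases eq_or_lt_of_le har with h1 | h1
  · -- a = -r
    have h2 : x ^ 2 + y ^ 2 + z ^ 2 = 0 := by
      rw [← h1] at hr
      nlinarith
    have hx : x = 0 := by nlinarith [sq_nonneg x, sq_nonneg y, sq_nonneg z]
    have hy : y = 0 := by nlinarith [sq_nonneg x, sq_nonneg y, sq_nonneg z]
    have hz : z = 0 := by nlinarith [sq_nonneg x, sq_nonneg y, sq_nonneg z]
    refine ⟨⟨0, Real.sqrt r, 0, 0⟩, ?_⟩
    have h3 := Real.mul_self_sqrt hr0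
    apply Quaternion.ext
    · rw [Quaternion.re_mul]
      change 0 * 0 - Real.sqrt r * Real.sqrt r - 0 * 0 - 0 * 0 = a
      rw [h3, ← h1]
      ring
    · rw [Quaternion.imI_mul]
      change 0 * Real.sqrt r + Real.sqrt r * 0 + 0 * 0 - 0 * 0 = x
      rw [hx]
      ring
    · rw [Quaternion.imJ_mul]
      change 0 * 0 - Real.sqrt r * 0 + 0 * 0 + 0 * Real.sqrt r = y
      rw [hy]
      ring
    · rw [Quaternion.imK_mul]
      change 0 * 0 + Real.sqrt r * 0 - 0 * Real.sqrt r + 0 * 0 = z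
      rw [hz]
      ring
  · obtain ⟨s, hs0, hs⟩ : ∃ s : ℝ, 0 < s ∧ s ^ 2 = 2 * a + 2 * r :=
      ⟨Real.sqrt (2 * a + 2 * r), Real.sqrt_pos.2 (by linarith), Real.sq_sqrt (by linarith)⟩
    have hs1 : s ≠ 0 := hs0.ne'
    refine ⟨⟨(a + r) / s, x / s, y / s, z / s⟩, ?_⟩
    apply Quaternion.ext
    · rw [Quaternion.re_mul]
      change (a + r) / s * ((a + r) / s) - x / s * (x / s) - y / s * (y / s) - z / s * (z / s) = a
      field_simp
      rw [hs]
      nlinarith
    · rw [Quaternion.imI_mul]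
      change (a + r) / s * (x / s) + x / s * ((a + r) / s) + y / s * (z / s) - z / s * (y / s) = x
      field_simp
      rw [hs]
      ring
    · rw [Quaternion.imJ_mul]
      change (a + r) / s * (y / s) - x / s * (z / s) + y / s * ((a + r) / s) + z / s * (x / s) = y
      field_simp
      rw [hs]
      ring
    · rw [Quaternion.imK_mul]
      change (a + r) / s * (z / s) + x / s * (y / s) - y / s * (x / s) + z / s * ((a + r) / s) = z
      field_simp
      rw [hs]
      ring

/-- **KX_N.** PROOF. `m = k + 1` (for `m = 0` the space is trivial and the determinant is `1`); `exists_dg1` for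
`f = sgnDt`, `dg1_sq`: every `d ≠ 0` in `ℂ` is a square; `dg1 k 1 = 1`. -/
theorem dt_pos_C (m : ℕ) (u : (Matrix (Fin m) (Fin m) ℂ)ˣ) : 0 < (paMat paC m).dt u := by
  rcases m with _ | k
  · have h1 : ∀ h, (paMat paC 0).hA u h = h := fun h =>
      (paMat paC 0).el_inj (Subsingleton.elim _ _)
    rw [PA.dt_of_fix _ h1]
    exact one_pos
  · rw [← sgnDt_eq_one]
    have h2 : (2 : ℂ) ≠ 0 := two_ne_zero
    refine KXN_sq (K := ℂ) h2 (fun d => ?_) _ _
    obtain ⟨c, hc⟩ := IsAlgClosed.exists_pow_nat_eq (d : ℂ) (n := 2) two_pos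
    have hc0 : c ≠ 0 := by
      rintro rfl
      rw [zero_pow two_ne_zero] at hc
      exact d.ne_zero hc.symm
    exact ⟨Units.mk0 c hc0, Units.ext (by rw [Units.val_mul, Units.val_mk0, ← hc, sq])⟩

/-- **KX_N.** PROOF. The same: every `d ≠ 0` in `ℍ` is a square: `d = a + v`, `v` purely imaginary; if `v ≠ 0`
or `a > 0` then `r = |d|`, `d + r ≠ 0`, `(d + r)² = d² + 2 r d + r² = (2 a + 2 r) d` because `d² = 2 a d - r²`,
and `2 a + 2 r > 0`; if `v = 0` and `a < 0` then `d = (√(-a) i)²`. -/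
theorem dt_pos_H (m : ℕ) (u : (Matrix (Fin m) (Fin m) ℍ[ℝ])ˣ) : 0 < (paMat paH m).dt u := by
  rcases m with _ | k
  · have h1 : ∀ h, (paMat paH 0).hA u h = h := fun h =>
      (paMat paH 0).el_inj (Subsingleton.elim _ _)
    rw [PA.dt_of_fix _ h1]
    exact one_pos
  · rw [← sgnDt_eq_one]
    have h2 : (2 : ℍ[ℝ]) ≠ 0 := by
      intro h
      have h3 : (1 + 1 : ℍ[ℝ]).re = (0 : ℍ[ℝ]).re := by
        rw [one_add_one_eq_two, h]
      rw [Quaternion.re_add, Quaternion.re_one, Quaternion.re_zero] at h3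
      norm_num at h3
    refine KXN_sq h2 (fun d => ?_) _ _
    obtain ⟨c, hc⟩ := KXN_quat (d : ℍ[ℝ])
    have hc0 : c ≠ 0 := by
      rintro rfl
      rw [mul_zero] at hc
      exact d.ne_zero hc.symm
    exact ⟨Units.mk0 c hc0, Units.ext (by rw [Units.val_mul, Units.val_mk0, ← hc])⟩

/-! MODULE KX_O -/

/-- the diagonal entries of the reflection -/
private def KXO_s (k : ℕ) : Fin (k + 1) → ℝ := Fin.cons (-1) fun _ => 1

/-- the coordinates of a symmetric matrix -/
private def KXO_eq (m : ℕ) : (paMat paR m).sym ≃ₗ[ℝ] ({x : Fin m × Fin m // x.1 ≤ x.2} → ℝ) where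
  toFun h x := h.1 x.1.1 x.1.2
  map_add' _ _ := rfl
  map_smul' _ _ := rfl
  invFun f := ⟨Matrix.of fun i j => if h : i ≤ j then f ⟨(i, j), h⟩ else
      f ⟨(j, i), (le_of_not_ge h)⟩, by
    apply Matrix.ext
    intro i j
    change (if h : j ≤ i then f ⟨(j, i), h⟩ else f ⟨(i, j), (le_of_not_ge h)⟩) =
      (if h : i ≤ j then f ⟨(i, j), h⟩ else f ⟨(j, i), (le_of_not_ge h)⟩)
    rcases lt_trichotomy i j with h | h | h
    · rw [dif_neg (not_le.2 h), dif_pos h.le]
    · subst h
      rw [dif_pos le_rfl]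
    · rw [dif_pos h.le, dif_neg (not_le.2 h)]⟩
  left_inv h := by
    apply Subtype.ext
    apply Matrix.ext
    intro i j
    have h1 : h.1 j i = h.1 i j := congrFun (congrFun h.2 i) j
    change (if _ : i ≤ j then h.1 i j else h.1 j i) = h.1 i j
    split_ifs
    · rfl
    · exact h1
  right_inv f := by
    funext x
    exact dif_pos x.2

/-- **KX_O.** PROOF. `dt_eq`. The map `h ↦ e h e`, `e = diag (-1, 1, …, 1)`, of the symmetric matrices of size
`k + 1` is diagonal in the coordinates `h i j`, `i ≤ j`: the product of the `s_i s_j` over `i ≤ j` with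
`s = (-1, 1, …, 1)` is `(-1)^k`. (Or: it is the product of the `k` commuting transvections
`h ↦ h - 2 h_{0j} (E_{0j} + E_{j0})`, `j = 1, …, k`, of determinant `-1`, `LinearMap.transvection.det`.) -/
theorem dt_R_refl (k : ℕ) : (paMat paR (k + 1)).dt (dg1 k (-1)) = (-1) ^ k := by
  rw [dt_eq]
  have h1 : LinearMap.det ((paMat paR (k + 1)).cjE (dg1 k (-1)) :
      (paMat paR (k + 1)).sym →ₗ[ℝ] (paMat paR (k + 1)).sym) =
      LinearMap.det (Matrix.toLin' (Matrix.diagonal
        (fun x : {x : Fin (k + 1) × Fin (k + 1) // x.1 ≤ x.2} =>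
          KXO_s k x.1.1 * KXO_s k x.1.2))) := by
    rw [← LinearMap.det_conj _ (KXO_eq (k + 1))]
    congr 1
    apply LinearMap.ext
    intro f
    funext x
    rw [Matrix.toLin'_apply, Matrix.mulVec_diagonal]
    obtain ⟨h, rfl⟩ := (KXO_eq (k + 1)).surjective f
    rw [LinearMap.comp_apply, LinearMap.comp_apply]
    change KXO_eq (k + 1) ((paMat paR (k + 1)).cjE (dg1 k (-1))
      ((KXO_eq (k + 1)).symm (KXO_eq (k + 1) h))) x = _
    rw [LinearEquiv.symm_apply_apply]
    change ((paMat paR (k + 1)).inv ((dg1 k (-1))⁻¹ : (Matrix (Fin (k + 1)) (Fin (k + 1)) ℝ)ˣ).1 *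
      (h.1 * ((dg1 k (-1))⁻¹ : (Matrix (Fin (k + 1)) (Fin (k + 1)) ℝ)ˣ).1)) x.1.1 x.1.2 =
      KXO_s k x.1.1 * KXO_s k x.1.2 * h.1 x.1.1 x.1.2
    have hE : ((dg1 k (-1))⁻¹ : (Matrix (Fin (k + 1)) (Fin (k + 1)) ℝ)ˣ).1 =
        Matrix.diagonal (KXO_s k) := by
      change Matrix.diagonal (Fin.cons (((-1)⁻¹ : ℝˣ) : ℝ) fun _ => 1) = Matrix.diagonal (KXO_s k)
      refine congrArg Matrix.diagonal (funext fun i => ?_)
      refine Fin.cases ?_ (fun i => ?_) i
      · simp [KXO_s]
      · simp [KXO_s]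
    have hE2 : (paMat paR (k + 1)).inv (Matrix.diagonal (KXO_s k)) = Matrix.diagonal (KXO_s k) := by
      apply Matrix.ext
      intro i j
      change Matrix.diagonal (KXO_s k) j i = Matrix.diagonal (KXO_s k) i j
      by_cases hij : i = j
      · rw [hij]
      · rw [Matrix.diagonal_apply_ne _ hij, Matrix.diagonal_apply_ne _ (Ne.symm hij)]
    rw [hE, hE2, Matrix.diagonal_mul, Matrix.mul_diagonal]
    ring
  rw [h1, LinearMap.det_toLin', Matrix.det_diagonal]
  have h2 : ∏ x : {x : Fin (k + 1) × Fin (k + 1) // x.1 ≤ x.2}, KXO_s k x.1.1 * KXO_s k x.1.2 =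
      ∏ x : Fin (k + 1) × Fin (k + 1), if x.1 ≤ x.2 then KXO_s k x.1 * KXO_s k x.2 else 1 := by
    rw [← Finset.prod_filter]
    exact (Finset.prod_subtype (Finset.univ.filter fun x : Fin (k + 1) × Fin (k + 1) =>
      x.1 ≤ x.2) (fun x => by simp) (fun x => KXO_s k x.1 * KXO_s k x.2)).symm
  rw [h2, Fintype.prod_prod_type, Fin.prod_univ_succ]
  have h3 : ∏ j : Fin (k + 1), (if (0 : Fin (k + 1)) ≤ j then KXO_s k 0 * KXO_s k j else 1) =
      (-1) ^ k := by
    rw [Fin.prod_univ_succ, if_pos le_rfl]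
    have h4 : ∀ j : Fin k, (if (0 : Fin (k + 1)) ≤ j.succ then KXO_s k 0 * KXO_s k j.succ else 1) =
        -1 := by
      intro j
      rw [if_pos (Fin.zero_le _)]
      simp [KXO_s]
    rw [Finset.prod_congr rfl fun j _ => h4 j, Finset.prod_const, Finset.card_univ,
      Fintype.card_fin]
    simp [KXO_s]
  have h5 : ∀ i : Fin k, ∏ j : Fin (k + 1),
      (if i.succ ≤ j then KXO_s k i.succ * KXO_s k j else 1) = 1 := by
    intro i
    refine Finset.prod_eq_one fun j _ => ?_
    refine Fin.cases ?_ (fun j => ?_) j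
    · rw [if_neg (not_le.2 (Fin.succ_pos i))]
    · split_ifs
      · simp [KXO_s]
      · rfl
  rw [h3, Finset.prod_congr rfl fun i _ => h5 i, Finset.prod_const_one, mul_one]

/-! MODULE KX_P -/

private theorem KXP_ne {m : ℕ} (u : (Matrix (Fin m) (Fin m) ℝ)ˣ) : u.1.det ≠ 0 := by
  intro h
  have h1 := congrArg Matrix.det u.mul_inv
  rw [Matrix.det_mul, Matrix.det_one, h, zero_mul] at h1
  exact zero_ne_one h1

/-- the sign of the determinant of a matrix -/
private def KXP_sg (m : ℕ) : (Matrix (Fin m) (Fin m) ℝ)ˣ →* ℤˣ where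
  toFun u := if 0 < u.1.det then 1 else -1
  map_one' := by
    rw [Units.val_one, Matrix.det_one, if_pos one_pos]
  map_mul' u v := by
    have hu := KXP_ne u
    have hv := KXP_ne v
    rw [Units.val_mul, Matrix.det_mul]
    rcases lt_or_gt_of_ne hu with h1 | h1 <;> rcases lt_or_gt_of_ne hv with h2 | h2
    · rw [if_pos (mul_pos_of_neg_of_neg h1 h2), if_neg (not_lt.2 h1.le), if_neg (not_lt.2 h2.le)]
      simp
    · rw [if_neg (not_lt.2 (mul_nonpos_of_nonpos_of_nonneg h1.le h2.le)), if_neg (not_lt.2 h1.le),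
        if_pos h2]
      simp
    · rw [if_neg (not_lt.2 (mul_nonpos_of_nonneg_of_nonpos h1.le h2.le)), if_pos h1,
        if_neg (not_lt.2 h2.le)]
      simp
    · rw [if_pos (mul_pos h1 h2), if_pos h1, if_pos h2]
      simp

/-- **KX_P.** PROOF. `m = k + 1`. `exists_dg1` gives one `d` for the two homomorphisms `sgnDt` and the sign of
the determinant (of matrices). `dg1_sq`: if `d > 0` it is a square, both are trivial. If `d < 0` then
`d = (√(-d))² (-1)`, `det (dg1 k (-1)) = -1`, and `dt_R_refl`. -/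
theorem dt_R (m : ℕ) (u : (Matrix (Fin m) (Fin m) ℝ)ˣ) (hm : 0 < m) :
    0 < (paMat paR m).dt u * u.1.det ^ (m + 1) := by
  obtain ⟨k, rfl⟩ : ∃ k, m = k + 1 := ⟨m - 1, by omega⟩
  obtain ⟨d, hd⟩ := exists_dg1 (K := ℝ) two_ne_zero k u
  have h1 := hd (sgnDt (paMat paR (k + 1)))
  have h2 := hd (KXP_sg (k + 1))
  have hdt := (paMat paR (k + 1)).dt_ne u
  have hdet : u.1.det ≠ 0 := KXP_ne u
  rcases lt_or_gt_of_ne d.ne_zero with hd0 | hd0
  · -- d < 0
    have hc0 : Real.sqrt (-(d : ℝ)) ≠ 0 := (Real.sqrt_pos.2 (by linarith)).ne'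
    have e1 : d = Units.mk0 _ hc0 * Units.mk0 _ hc0 * (-1) := by
      apply Units.ext
      rw [Units.val_mul, Units.val_mul, Units.val_mk0, Real.mul_self_sqrt (by linarith),
        Units.val_neg, Units.val_one]
      ring
    rw [e1, dg1_sq] at h1 h2
    have h3 : (dg1 k (-1 : ℝˣ)).1.det = -1 := by
      change (Matrix.diagonal (Fin.cons ((-1 : ℝˣ) : ℝ) fun _ => 1)).det = -1
      rw [Matrix.det_diagonal, Fin.prod_univ_succ]
      simp
    have h4 : ¬ 0 < u.1.det := by
      intro h4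
      have h5 : KXP_sg (k + 1) u = 1 := if_pos h4
      rw [h5] at h2
      have h6 : KXP_sg (k + 1) (dg1 k (-1)) = -1 := if_neg (by rw [h3]; norm_num)
      rw [h6] at h2
      exact absurd h2 (by decide)
    have h4' : u.1.det < 0 := lt_of_le_of_ne (not_lt.1 h4) hdet
    rcases Nat.even_or_odd k with hk | hk
    · have h5 : 0 < (paMat paR (k + 1)).dt u := by
        rw [← sgnDt_eq_one, h1, sgnDt_eq_one, dt_R_refl, hk.neg_one_pow]
        exact one_pos
      exact mul_pos h5 ((hk.add (by decide : Even 2)).pow_pos hdet)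
    · have h5 : (paMat paR (k + 1)).dt u < 0 := by
        refine lt_of_le_of_ne (not_lt.1 fun h5 => ?_) hdt
        rw [← sgnDt_eq_one, h1, sgnDt_eq_one, dt_R_refl, hk.neg_one_pow] at h5
        linarith
      exact mul_pos_of_neg_of_neg h5 ((hk.add_even (by decide : Even 2)).pow_neg h4')
  · have hc0 : Real.sqrt (d : ℝ) ≠ 0 := (Real.sqrt_pos.2 hd0).ne'
    have e1 : d = Units.mk0 _ hc0 * Units.mk0 _ hc0 * 1 := by
      apply Units.ext
      rw [Units.val_mul, Units.val_mul, Units.val_mk0, Real.mul_self_sqrt hd0.le, Units.val_one]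
      ring
    rw [e1, dg1_sq, KXN_dg1_one, map_one] at h1 h2
    have h3 : 0 < u.1.det := by
      by_contra h4
      have h5 : KXP_sg (k + 1) u = -1 := if_neg h4
      rw [h5] at h2
      exact absurd h2 (by decide)
    exact mul_pos ((sgnDt_eq_one _ _).1 h1) (pow_pos h3 _)

end Pool.Agent.CGN
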