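import Pool.Agent.CGN.KYF
import Pool.Agent.CGQ.KFam
import Pool.Agent.CGQ.KFP
import Pool.Agent.CGQ.TDefs

/-!
# The Koecher polyhedron of a quaternion division algebra
-/

noncomputable section

set_option linter.unusedSectionVars false
set_option linter.unusedVariables false

namespace Pool.Agent.CGN

open NumberField IsDedekindDomain Pool.Agent.CGQ Pool.Agent.CG3
open Pool.Agent.CG2 (Pl Fv Ov PolySys)

open SC.Alg (co)

variable {F : Type} [Field F] [NumberField F] {A : AD F} [DivAlg A]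

section fields

variable (N : ℕ) (hN : 3 ≤ N) (C : Cls A N → ℝ) (hC : GoodA A N C)
  (g : (sysA A).A)

/-- The Koecher polyhedron of the lattice `Lat g`, with weights given by the classes modulo
`N`. -/
def koeA : PolySys (sysA A).G (PAI A).V where
  A := LatE g
  q := qe A
  c := cA N C g
  Pos := (PAI A).KPos
  ctbl := ks_ctbl g
  ne := ks_ne N C hC g
  pos_ne := ⟨qe A 1, qe_pos 1⟩
  comp := ks_comp N C hC g
  locfin := ks_locfin N C hC g
  indep := ks_indep N hN C hC g
  pos_open := PA.kpos_open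
  pos_add := fun _ hl _ _ _ ha => PA.kpos_add hl _ ha
  pos_smul := fun _ hl _ ha => PA.kpos_smul hl ha
  unb := ks_unb N C hC g

/-- **KYJ.** PROOF. Every `qe A e` is in `KPos` (`qe_pos`), and `0` is not (take `h` with
`el h = 1`, which is semidefinite and not `0`). -/
theorem koeA_cell_iff (R : Finset (sysA A).G) : (koeA N hN C hC g).Cell R ↔
    (koeA N hN C hC g).Face R ∧ R.Nonempty := by
  refine and_congr_right fun _ => ?_
  change (∑ e ∈ R, qe A e) ∈ (PAI A).KPos ↔ _
  constructor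
  · intro h
    rw [Finset.nonempty_iff_ne_empty]
    rintro rfl
    obtain ⟨h1, hh1⟩ := (PAI A).exists_el 1 (PAI A).inv_one
    have hne : h1 ≠ 0 := by
      rintro rfl
      rw [map_zero, Submodule.coe_zero] at hh1
      have h3 := (PAI A).sz_pos (x := (thU A 1).1) (thU A 1).ne_zero
      rw [map_one, Units.val_one, ← hh1, PA.sz_zero] at h3
      exact lt_irrefl _ h3
    have h2 := h h1 (fun x => by rw [PA.q_one _ _ _ hh1]; exact (PAI A).sz_nonneg x) hne
    rw [Finset.sum_empty] at h2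
    exact lt_irrefl _ h2
  · rintro ⟨e, he⟩ h hh h0
    rw [_root_.sum_apply]
    exact Finset.sum_pos (fun e _ => qe_pos e h hh h0) ⟨e, he⟩

end fields

/-- A basis of `V`. -/
def basA (A : AD F) [DivAlg A] : Module.Basis (Fin (A.dim + 1)) ℝ (PAI A).V :=
  Module.finBasisOfFinrankEq ℝ (PAI A).V (by
    rw [Module.finrank_fin_fun, finrank_sym])

section act

variable (N : ℕ) (hN : 3 ≤ N) (C : Cls A N → ℝ) (hC : GoodA A N C)

/-- The action of `G` on `V`. -/
def actA (A : AD F) [DivAlg A] (γ : (sysA A).G) : (PAI A).V ≃ₗ[ℝ] (PAI A).V := (PAI A).hA (thU A (uK γ))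

/-- **KYK.** PROOF. `hA_q`; `γ • e` is `γ * e`. -/
theorem actA_q (γ e : (sysA A).G) (h : (PAI A).V) : qe A (γ • e) (actA A γ h) = qe A e h := by
  have h1 : theta A (uK (γ • e)).1 = (thU A (uK γ)).1 * theta A (uK e).1 :=
    map_mul (theta A) (uK γ).1 (uK e).1
  rw [qe, h1]
  exact (PAI A).hA_q _ _ _

private theorem kyj_mem (γ : (sysA A).G) (g : (sysA A).A) (x : (sysA A).G) :
    γ • x ∈ LatE (diag γ * g) ↔ x ∈ LatE g := mem_Lat_diag γ g (uK x).1

private theorem kyj_c (N : ℕ) (C : Cls A N → ℝ) (γ : (sysA A).G) (g : (sysA A).A)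
    (x : (sysA A).G) : cA N C (diag γ * g) (γ • x) = cA N C g x :=
  congrArg C (cls_diag N γ g (uK x).1)

private theorem kyj_face (g : (sysA A).A) (R : Finset (sysA A).G) :
    (koeA N hN C hC g).Face R ↔ (∀ x ∈ R, x ∈ LatE g) ∧ ∃ h : (PAI A).V,
      (∀ x ∈ LatE g, cA N C g x ≤ qe A x h) ∧ ∀ x ∈ R, qe A x h = cA N C g x := by
  constructor
  · rintro ⟨h1, h, h2, h3⟩
    exact ⟨h1, h, h2, h3⟩
  · rintro ⟨h1, h, h2, h3⟩
    exact ⟨h1, h, h2, h3⟩

private theorem kyj_le (γ : (sysA A).G) (g : (sysA A).A) (R : Finset (sysA A).G)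
    (hR : (koeA N hN C hC g).Face R) :
    (koeA N hN C hC (diag γ * g)).Face (Sel.mp (MulAction.toPerm γ) R) := by
  rw [kyj_face] at hR ⊢
  obtain ⟨h1, h, h2, h3⟩ := hR
  have hmem : ∀ x ∈ Sel.mp (MulAction.toPerm γ) R, γ⁻¹ • x ∈ R := by
    intro x hx
    rw [Sel.mem_mp] at hx
    exact hx
  refine ⟨fun x hx => ?_, actA A γ h, fun x hx => ?_, fun x hx => ?_⟩
  · have h5 := (kyj_mem γ g (γ⁻¹ • x)).2 (h1 _ (hmem x hx))
    rwa [smul_inv_smul] at h5
  · have h5 : γ⁻¹ • x ∈ LatE g := by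
      rw [← kyj_mem γ g, smul_inv_smul]
      exact hx
    have h7 := h2 _ h5
    rwa [← kyj_c N C γ g, ← actA_q γ, smul_inv_smul] at h7
  · have h7 := h3 _ (hmem x hx)
    rwa [← kyj_c N C γ g, ← actA_q γ, smul_inv_smul] at h7

/-- **KYL.** PROOF. Port of `CG2.koe_face_smul` (`mem_Lat_diag`, `cls_diag`, `actA_q`). -/
theorem koeA_face_smul (γ : (sysA A).G) (g : (sysA A).A) (R : Finset (sysA A).G) :
    (koeA N hN C hC (diag γ * g)).Face (Sel.mp (MulAction.toPerm γ) R) ↔
      (koeA N hN C hC g).Face R := by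
  refine ⟨fun h => ?_, kyj_le N hN C hC γ g R⟩
  have h1 := kyj_le N hN C hC γ⁻¹ _ _ h
  have h2 : diag γ⁻¹ * (diag γ * g) = g := by
    rw [← mul_assoc, ← map_mul, inv_mul_cancel, map_one, one_mul]
  have h3 : Sel.mp (MulAction.toPerm γ⁻¹) (Sel.mp (MulAction.toPerm γ) R) = R := by
    ext x
    rw [Sel.mem_mp, Sel.mem_mp]
    change γ⁻¹ • ((γ⁻¹)⁻¹ • x) ∈ R ↔ x ∈ R
    rw [inv_inv, inv_smul_smul]
  rwa [h2, h3] at h1

/-- **KYM.** PROOF. Port of `CG2.koe_mul` (`Lat_mul`, `cls_mul`). -/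
theorem koeA_face_mul (g : (sysA A).A) {k : (sysA A).A} (hk : k ∈ KNA A N)
    (R : Finset (sysA A).G) :
    (koeA N hN C hC (g * k)).Face R ↔ (koeA N hN C hC g).Face R := by
  have hL : Lat (g * k) = Lat g := Lat_mul g fun v => (hk v).1
  have hLE : LatE (g * k) = LatE g := by
    ext x
    change (uK x).1 ∈ Lat (g * k) ↔ (uK x).1 ∈ Lat g
    rw [hL]
  have hc : ∀ x ∈ LatE g, cA N C (g * k) x = cA N C g x := fun x hx =>
    congrArg C (cls_mul N (by omega) g hk hx)
  rw [kyj_face, kyj_face, hLE]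
  refine and_congr_right fun h1 => exists_congr fun h => and_congr ?_ ?_
  · refine forall_congr' fun x => ⟨fun H hx => ?_, fun H hx => ?_⟩
    · rw [← hc x hx]
      exact H hx
    · rw [hc x hx]
      exact H hx
  · refine forall_congr' fun x => ⟨fun H hx => ?_, fun H hx => ?_⟩
    · rw [← hc x (h1 x hx)]
      exact H hx
    · rw [hc x (h1 x hx)]
      exact H hx

/-- **KYN.** PROOF. Port of `CG2.koe_free`: for `x` in `R` the elements `γ x` and `x` have the same
class, so `γ x = x` (`ks_inj`). -/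
theorem koeA_free (γ : (sysA A).G) (g k : (sysA A).A) (hk : k ∈ KNA A N)
    (hγ : diag γ * g = g * k) (R : Finset (sysA A).G) (hR : (koeA N hN C hC g).Cell R)
    (hf : Sel.mp (MulAction.toPerm γ) R = R) : γ = 1 := by
  obtain ⟨hF, x, hx⟩ := (koeA_cell_iff N hN C hC g R).1 hR
  obtain ⟨hA, h, hh, ht⟩ := (kyj_face N hN C hC g R).1 hF
  have hγx : γ • x ∈ R := by
    rw [← hf, Sel.mem_mp]
    change γ⁻¹ • (γ • x) ∈ R
    rw [inv_smul_smul]
    exact hx
  have h1 : cls N g (uK (γ • x)).1 = cls N g (uK x).1 := by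
    rw [← cls_mul N (by omega) g hk (hA _ hγx), ← hγ]
    exact cls_diag N γ g (uK x).1
  have h2 := ks_inj N hN C hC g h hh (hA _ hγx) (hA _ hx) (ht _ hγx) (ht _ hx) h1
  have h3 : γ * x = x := h2
  exact mul_eq_right.1 h3

/-- The equivariant family of polyhedra attached to `D`. -/
def famA : PFam (sysA A) (KNA A N) (sysA A).G (PAI A).V where
  P g := koeA N hN C hC g
  q := qe A
  hq _ := rfl
  Pos := (PAI A).KPos
  hPos _ := rfl
  n0 := A.dim
  bas := basA A
  act := actA A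
  act_q := actA_q
  sg := epsA A
  act_det := dt_sign
  cell_iff g R := koeA_cell_iff N hN C hC g R
  face_smul := koeA_face_smul N hN C hC
  face_mul := fun g _ hk R => koeA_face_mul N hN C hC g hk R
  free := fun γ g k hk h R hR hf => koeA_free N hN C hC γ g k hk h R hR hf

end act

end Pool.Agent.CGN
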