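import Pool.Agent.CGN.KL1
import Pool.Agent.CGQ.KM1

/-!
# The Koecher polyhedron: first properties
-/

noncomputable section

set_option linter.unusedSectionVars false
set_option linter.unusedVariables false

namespace Pool.Agent.CGN

open NumberField IsDedekindDomain Pool.Agent.CGQ Pool.Agent.CG3
open Pool.Agent.CG2 (Pl Fv Ov PolySys)

open SC.Alg (co)

variable {F : Type} [Field F] [NumberField F] {A : AD F} [DivAlg A]

private theorem kya_unit (e : (sysA A).G) : IsUnit (theta A (uK e).1) :=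
  (uK e).isUnit.map (theta A)

section fields

variable (N : ℕ) (hN : 3 ≤ N) (C : Cls A N → ℝ) (hC : GoodA A N C)
  (g : (sysA A).A)

/-- The non-zero elements of the lattice. -/
def LatE (g : (sysA A).A) : Set (sysA A).G := {e | (uK e).1 ∈ Lat g}

/-- The constants. -/
def cA (g : (sysA A).A) (e : (sysA A).G) : ℝ := C (cls N g (uK e).1)

include hC in
theorem cA_lt (e : (sysA A).G) : 1 < cA N C g e ∧ cA N C g e < 9 / 8 := hC.1 _

theorem qe_pos (e : (sysA A).G) : qe A e ∈ (PAI A).KPos := (PAI A).unit_kpos (thU A (uK e))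

/-- **KYA.** PROOF. `pd_of_lat`, `isLat`; a non-zero element of `LatI g` is `theta A x`, `x` in `Lat g`
not zero, a unit by `hD`. -/
theorem ks_pd (h : (PAI A).V) (hh : ∀ e ∈ LatE g, 1 ≤ qe A e h) :
    (PAI A).PD h := by
  refine (PAI A).pd_of_lat (isLat g) h fun z hz hz0 => ?_
  obtain ⟨x, hx, rfl⟩ := mem_LatI.1 hz
  have hx0 : x ≠ 0 := by
    rintro rfl
    exact hz0 (map_zero _)
  obtain ⟨u, rfl⟩ := isUnit_of_ne x hx0
  exact hh (u : (sysA A).G) hx

/-- **KYB.** PROOF. `exists_large`, `isLat`. -/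
theorem ks_large : ∃ h : (PAI A).V, (PAI A).PD h ∧ ∀ e ∈ LatE g, 2 ≤ qe A e h := by
  obtain ⟨h, h1, h2⟩ := (PAI A).exists_large (isLat g)
  refine ⟨h, h1, fun e he => h2 _ (mem_LatI.2 ⟨_, he, rfl⟩) ?_⟩
  exact (kya_unit e).ne_zero

include hN hC in
/-- **KYC.** PROOF. Port of `CG2.KoeSys_inj`. -/
theorem ks_inj (h : (PAI A).V) (hh : ∀ e ∈ LatE g, cA N C g e ≤ qe A e h)
    {x y : (sysA A).G} (hx : x ∈ LatE g) (hy : y ∈ LatE g) (hqx : qe A x h = cA N C g x)
    (hqy : qe A y h = cA N C g y)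
    (hxy : cls N g (uK x).1 = cls N g (uK y).1) : x = y := by
  obtain ⟨u, hu, hxyu⟩ := cls_eq N (by omega) g _ _ hx hy hxy
  by_contra hne
  have hu0 : u ≠ 0 := by
    rintro rfl
    apply hne
    rw [mul_zero, sub_eq_zero] at hxyu
    exact Units.ext hxyu
  obtain ⟨v, rfl⟩ := isUnit_of_ne u hu0
  have h1 : 1 ≤ qe A (v : (sysA A).G) h := (hC.1 _).1.le.trans (hh (v : (sysA A).G) hu)
  have hpd : (PAI A).PD h := ks_pd g h fun e he => (hC.1 _).1.le.trans (hh e he)
  have hpsd : 0 ≤ (PAI A).q (theta A (uK x).1 + theta A (uK y).1) h := hpd.psd _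
  have h2 := (PAI A).q_par (theta A (uK x).1) (theta A (uK y).1) h
  have h3 : (PAI A).q (theta A (uK x).1 - theta A (uK y).1) h = (N : ℝ) ^ 2 * qe A (v : (sysA A).G) h := by
    rw [← map_sub, hxyu, map_mul, map_natCast, PA.q_natCast]
    rfl
  have hqx' : (PAI A).q (theta A (uK x).1) h = cA N C g x := hqx
  have hqy' : (PAI A).q (theta A (uK y).1) h = cA N C g y := hqy
  rw [h3, hqx', hqy'] at h2
  have h4 := (cA_lt N C hC g x).2
  have h5 := (cA_lt N C hC g y).2
  have h6 : (3 : ℝ) ≤ N := by exact_mod_cast hN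
  have h7 : (9 : ℝ) ≤ (N : ℝ) ^ 2 := by nlinarith
  nlinarith

/-- **KYD.** PROOF. As the field `ctbl` of `CG2.koe`. -/
theorem ks_ctbl : (LatE g).Countable := by
  have h3 := countable_G A
  exact Set.to_countable _

include hC in
/-- **KYE.** PROOF. As the field `ne` of `CG2.koe`. -/
theorem ks_ne : {h : (PAI A).V | ∀ e ∈ LatE g, cA N C g e ≤ qe A e h}.Nonempty := by
  obtain ⟨h, _, h2⟩ := ks_large g
  refine ⟨h, fun e he => ?_⟩
  have h3 := (cA_lt N C hC g e).2
  have h4 := h2 e he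
  linarith

end fields

end Pool.Agent.CGN
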