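import Pool.Agent.CGN.Loc
import Mathlib.NumberTheory.NumberField.FinitePlaces

/-!
# The Cartan decomposition of `GL_n(F_v)` and transposition
-/

noncomputable section

namespace Pool.Agent.CGN

open NumberField IsDedekindDomain Matrix
open Pool.Agent.CG2 (Pl Fv Ov)

variable {F : Type} [Field F] [NumberField F] {n : ℕ}

/-- Smith normal form of a matrix with non-zero determinant over a principal ideal domain. -/
theorem smith {R : Type*} [CommRing R] [IsDomain R] [IsPrincipalIdealRing R]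
    (A : Matrix (Fin n) (Fin n) R) (hA : A.det ≠ 0) :
    ∃ (U V : GL (Fin n) R) (a : Fin n → R),
      A = (U : Matrix (Fin n) (Fin n) R) * Matrix.diagonal a * (V : Matrix (Fin n) (Fin n) R) := by
  have hinj : Function.Injective A.mulVecLin := by
    rw [← LinearMap.ker_eq_bot, LinearMap.ker_eq_bot']
    intro v hv
    by_contra hne
    exact hA ((Matrix.exists_mulVec_eq_zero_iff (M := A)).1 ⟨v, hne, hv⟩)
  let e : (Fin n → R) ≃ₗ[R] (LinearMap.range A.mulVecLin) := LinearEquiv.ofInjective _ hinj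
  have hrank : Module.finrank R (LinearMap.range A.mulVecLin) = Module.finrank R (Fin n → R) :=
    (LinearEquiv.finrank_eq e).symm
  obtain ⟨b', a, ab', hab⟩ := Submodule.exists_smith_normal_form_of_rank_eq
    (Pi.basisFun R (Fin n)) hrank
  let b0 : Module.Basis (Fin n) R (LinearMap.range A.mulVecLin) := (Pi.basisFun R (Fin n)).map e
  let U : GL (Fin n) R := ⟨(Pi.basisFun R (Fin n)).toMatrix b', b'.toMatrix (Pi.basisFun R (Fin n)),
    Module.Basis.toMatrix_mul_toMatrix_flip _ _, Module.Basis.toMatrix_mul_toMatrix_flip _ _⟩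
  let V : GL (Fin n) R := ⟨ab'.toMatrix b0, b0.toMatrix ab',
    Module.Basis.toMatrix_mul_toMatrix_flip _ _, Module.Basis.toMatrix_mul_toMatrix_flip _ _⟩
  refine ⟨U, V, a, ?_⟩
  ext i j
  have h1 : (b0 j : Fin n → R) = fun i => A i j := by
    have : (b0 j : Fin n → R) = A.mulVecLin (Pi.basisFun R (Fin n) j) := by
      simp [b0, e, LinearEquiv.ofInjective_apply]
    rw [this]
    funext i
    simp
  have h2 : b0 j = ∑ k, (ab'.toMatrix b0) k j • ab' k := by
    have := ab'.sum_repr (b0 j)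
    rw [← this]
    rfl
  have h3 : (b0 j : Fin n → R) = ∑ k, (ab'.toMatrix b0) k j • (a k • b' k) := by
    rw [h2]
    simp only [AddSubmonoidClass.coe_finsetSum, Submodule.coe_smul, hab]
  have h4 := congrFun (h1.symm.trans h3) i
  rw [h4]
  simp only [Finset.sum_apply, Pi.smul_apply, smul_eq_mul]
  rw [Matrix.mul_apply]
  apply Finset.sum_congr rfl
  intro k _
  rw [Matrix.mul_diagonal]
  have hU : (U : Matrix (Fin n) (Fin n) R) i k = b' k i := by
    have h5 : (U : Matrix (Fin n) (Fin n) R) i k = (Pi.basisFun R (Fin n)).repr (b' k) i := rfl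
    rw [h5, Pi.basisFun_repr]
  have hV : (V : Matrix (Fin n) (Fin n) R) k j = ab'.toMatrix b0 k j := rfl
  rw [hU, hV]
  ring

/-- The transposed element of `GL_n`. -/
def trn {R : Type*} [CommRing R] (U : GL (Fin n) R) : GL (Fin n) R :=
  ⟨(U : Matrix (Fin n) (Fin n) R)ᵀ, ((U⁻¹ : GL (Fin n) R) : Matrix (Fin n) (Fin n) R)ᵀ, by
    rw [← Matrix.transpose_mul, ← Units.val_mul, inv_mul_cancel, Units.val_one,
      Matrix.transpose_one], by
    rw [← Matrix.transpose_mul, ← Units.val_mul, mul_inv_cancel, Units.val_one,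
      Matrix.transpose_one]⟩

@[simp] theorem coe_trn {R : Type*} [CommRing R] (U : GL (Fin n) R) :
    ((trn U : GL (Fin n) R) : Matrix (Fin n) (Fin n) R) = (U : Matrix (Fin n) (Fin n) R)ᵀ := rfl

theorem trn_mul {R : Type*} [CommRing R] (U V : GL (Fin n) R) :
    trn (U * V) = trn V * trn U := by
  apply Units.ext
  simp [Units.val_mul, Matrix.transpose_mul]

theorem trn_trn {R : Type*} [CommRing R] (U : GL (Fin n) R) : trn (trn U) = U := by
  apply Units.ext
  simp

theorem trn_one {R : Type*} [CommRing R] : trn (1 : GL (Fin n) R) = 1 := by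
  apply Units.ext
  simp

theorem trn_inv {R : Type*} [CommRing R] (U : GL (Fin n) R) : trn U⁻¹ = (trn U)⁻¹ := by
  rw [eq_inv_iff_mul_eq_one, ← trn_mul, mul_inv_cancel, trn_one]

theorem trn_mem_GZ {v : Pl F} {k : GQ n v} (hk : k ∈ GZ n v) : trn k ∈ GZ n v := by
  rw [mem_GZ_iff] at hk ⊢
  refine ⟨fun i j => ?_, fun i j => ?_⟩
  · simpa using hk.1 j i
  · rw [← trn_inv]
    simpa using hk.2 j i

/-- The Cartan decomposition. -/
theorem cartan (v : Pl F) (h : GQ n v) : ∃ k₁ ∈ GZ n v, ∃ k₂ ∈ GZ n v, ∃ d : GQ n v, trn d = d ∧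
    h = k₁ * d * k₂ := by
  have hdvr : IsPrincipalIdealRing (Ov v) := inferInstance
  -- scale `h` to be integral
  obtain ⟨c, hc0, hn⟩ : ∃ c : Fv v, c ≠ 0 ∧ ∀ i j, Valued.v (c *
      (h : Matrix (Fin n) (Fin n) (Fv v)) i j) ≤ 1 := by
    obtain ⟨c, hc⟩ := IsLocalization.exist_integer_multiples_of_finite (nonZeroDivisors (Ov v))
      (fun ij : Fin n × Fin n => (h : Matrix (Fin n) (Fin n) (Fv v)) ij.1 ij.2)
    refine ⟨((c : Ov v) : Fv v), ?_, fun i j => ?_⟩
    · have h1 := nonZeroDivisors.ne_zero c.2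
      intro h2
      exact h1 (Subtype.ext h2)
    · obtain ⟨z, hz⟩ := hc (i, j)
      have h1 : ((c : Ov v) : Fv v) * (h : Matrix (Fin n) (Fin n) (Fv v)) i j = (z : Fv v) :=
        hz.symm
      rw [h1]
      exact z.2
  let A : Matrix (Fin n) (Fin n) (Ov v) := fun i j => ⟨_, hn i j⟩
  have hA : A.map (algebraMap (Ov v) (Fv v)) = c • (h : Matrix (Fin n) (Fin n) _) := by
    ext i j; rfl
  have hdet : A.det ≠ 0 := by
    intro h0
    have h1 : (A.map (algebraMap (Ov v) (Fv v))).det = 0 := by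
      have h2 := RingHom.map_det (algebraMap (Ov v) (Fv v)) A
      rw [h0, map_zero] at h2
      exact h2.symm
    rw [hA, Matrix.det_smul] at h1
    have h2 : (h : Matrix (Fin n) (Fin n) (Fv v)).det ≠ 0 :=
      (h.isUnit.map (Matrix.detMonoidHom (R := Fv v) (n := Fin n))).ne_zero
    exact (mul_ne_zero (pow_ne_zero _ hc0) h2) h1
  obtain ⟨U, V, a, hUV⟩ := smith A hdet
  let k₁ : GQ n v := GeneralLinearGroup.map (algebraMap (Ov v) (Fv v)) U
  let k₂ : GQ n v := GeneralLinearGroup.map (algebraMap (Ov v) (Fv v)) V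
  have hk₁ : k₁ ∈ GZ n v := ⟨U, rfl⟩
  have hk₂ : k₂ ∈ GZ n v := ⟨V, rfl⟩
  refine ⟨k₁, hk₁, k₂, hk₂, k₁⁻¹ * h * k₂⁻¹, ?_, by group⟩
  -- the middle factor is diagonal
  have h5 : c • (h : Matrix (Fin n) (Fin n) (Fv v)) =
      (k₁ : Matrix (Fin n) (Fin n) (Fv v)) *
        Matrix.diagonal (fun i => ((a i : Ov v) : Fv v)) *
        (k₂ : Matrix (Fin n) (Fin n) (Fv v)) := by
    rw [← hA, hUV, Matrix.map_mul, Matrix.map_mul, Matrix.diagonal_map (map_zero _)]
    rfl
  have h6 : ((k₁⁻¹ * h * k₂⁻¹ : GQ n v) : Matrix (Fin n) (Fin n) (Fv v)) =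
      c⁻¹ • Matrix.diagonal (fun i => ((a i : Ov v) : Fv v)) := by
    have h7 : (h : Matrix (Fin n) (Fin n) (Fv v)) =
      c⁻¹ • ((k₁ : Matrix (Fin n) (Fin n) (Fv v)) *
        Matrix.diagonal (fun i => ((a i : Ov v) : Fv v)) *
        (k₂ : Matrix (Fin n) (Fin n) (Fv v))) := by
      rw [← h5, smul_smul, inv_mul_cancel₀ hc0, one_smul]
    have h8 : ((k₁⁻¹ : GQ n v) : Matrix (Fin n) (Fin n) (Fv v)) *
        (k₁ : Matrix (Fin n) (Fin n) (Fv v)) = 1 := by
      rw [← Units.val_mul, inv_mul_cancel, Units.val_one]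
    have h9 : (k₂ : Matrix (Fin n) (Fin n) (Fv v)) *
        ((k₂⁻¹ : GQ n v) : Matrix (Fin n) (Fin n) (Fv v)) = 1 := by
      rw [← Units.val_mul, mul_inv_cancel, Units.val_one]
    rw [Units.val_mul, Units.val_mul, h7]
    rw [Matrix.mul_smul, Matrix.smul_mul]
    congr 1
    calc _ = (((k₁⁻¹ : GQ n v) : Matrix (Fin n) (Fin n) (Fv v)) *
        (k₁ : Matrix (Fin n) (Fin n) (Fv v))) *
        Matrix.diagonal (fun i => ((a i : Ov v) : Fv v)) *
        ((k₂ : Matrix (Fin n) (Fin n) (Fv v)) *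
        ((k₂⁻¹ : GQ n v) : Matrix (Fin n) (Fin n) (Fv v))) := by
          simp only [Matrix.mul_assoc]
      _ = _ := by rw [h8, h9, one_mul, mul_one]
  apply Units.ext
  rw [coe_trn, h6]
  rw [Matrix.transpose_smul, Matrix.diagonal_transpose]

theorem exists_trn (v : Pl F) (h : GQ n v) : ∃ k₁ ∈ GZ n v, ∃ k₂ ∈ GZ n v,
    trn h = k₁ * h * k₂ := by
  obtain ⟨k₁, h₁, k₂, h₂, d, hd, rfl⟩ := cartan v h
  refine ⟨trn k₂ * k₁⁻¹, (GZ n v).mul_mem (trn_mem_GZ h₂) ((GZ n v).inv_mem h₁),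
    k₂⁻¹ * trn k₁, (GZ n v).mul_mem ((GZ n v).inv_mem h₂) (trn_mem_GZ h₁), ?_⟩
  rw [trn_mul, trn_mul, hd]
  group

end Pool.Agent.CGN
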