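import Pool.Agent.CGN.LED

/-!
# Degree one: the values of the classes
-/

noncomputable section

namespace Pool.Agent.CGN

open NumberField IsDedekindDomain CategoryTheory
open Pool.Agent.CG2 (Pl)
open Pool.Agent.CGQ

variable {F : Type} [Field F] [NumberField F] {n : ℕ} {𝒟 : Sys F} {n : ℕ} {S : Set (Pl F)}
  {Φ : Chart n 𝒟 S}
variable {K : Subgroup 𝒟.A} {O : Type} [CommRing O] {k : Type} [AddCommGroup k] [Module O k]

/-- The submodule of the cocycles in the sense of `IsZ1`. -/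
private def lee_Z (K : Subgroup 𝒟.A) (O k : Type) [CommRing O] [AddCommGroup k] [Module O k] :
    Submodule O (𝒟.G → 𝒟.Pt → k) where
  carrier := {c | IsZ1 K c}
  add_mem' := by
    intro a b ha hb
    refine ⟨fun γ y κ hκ => ?_, fun γ γ' y => ?_⟩
    · change a γ (rt y κ) + b γ (rt y κ) = a γ y + b γ y
      rw [ha.h_rt γ y κ hκ, hb.h_rt γ y κ hκ]
    · change a (γ * γ') y + b (γ * γ') y = a γ y + b γ y + (a γ' (act γ⁻¹ y) + b γ' (act γ⁻¹ y))
      rw [ha.h_mul, hb.h_mul]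
      abel
  zero_mem' := ⟨fun γ y κ hκ => rfl, fun γ γ' y => by simp⟩
  smul_mem' := by
    intro r a ha
    refine ⟨fun γ y κ hκ => ?_, fun γ γ' y => ?_⟩
    · change r • a γ (rt y κ) = r • a γ y
      rw [ha.h_rt γ y κ hκ]
    · change r • a (γ * γ') y = r • a γ y + r • a γ' (act γ⁻¹ y)
      rw [ha.h_mul, smul_add]

/-- The cocycle with values in `Forms`. -/
private def lee_toC (K : Subgroup 𝒟.A) (O k : Type) [CommRing O] [AddCommGroup k] [Module O k] :
    lee_Z K O k →ₗ[O] groupCohomology.cocycles₁ (coeff K (triv K O k)) where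
  toFun c := ⟨fun γ => (⟨c.1 γ, fun y κ => c.2.h_rt γ y κ κ.2⟩ : Forms K (triv K O k)), by
    rw [groupCohomology.mem_cocycles₁_iff]
    intro g h
    apply Subtype.ext
    funext y
    exact (c.2.h_mul g h y).trans (add_comm _ _)⟩
  map_add' a b := rfl
  map_smul' r a := rfl

private theorem lee_hecke (hU : UnramOff K (triv K O k) Φ)
    (t : Idx n S) (c : groupCohomology.cocycles₁ (coeff K (triv K O k))) :
    heckeCoh K (triv K O k) hU 1 t (groupCohomology.H1π (coeff K (triv K O k)) c) =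
      groupCohomology.H1π (coeff K (triv K O k)) (groupCohomology.mapCocycles₁ (MonoidHom.id 𝒟.G)
        (heckeHom K (triv K O k) hU t) c) :=
  congrArg (fun a => a.hom c)
    (groupCohomology.H1π_comp_map (A := coeff K (triv K O k)) (B := coeff K (triv K O k))
      (MonoidHom.id 𝒟.G) (heckeHom K (triv K O k) hU t))

/-- **LEE1.** The classes in degree one are the classes of the cocycles in the sense of `IsZ1`:
there is a linear map `cl` from the `IsZ1` (as a submodule of `𝒟.G → 𝒟.Pt → k`) onto `H¹`, with kernel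
the coboundaries, and compatible with the Hecke operators.
PROOF. `groupCohomology.cocycles₁`, `groupCohomology.H1π`, `groupCohomology.H1π_eq_zero_iff`
(mathlib, Mathlib/RepresentationTheory/Homological/GroupCohomology/LowDegree.lean),
`groupCohomology.H1π_comp_map` for the functoriality; see how CG2/Lower.lean and CG2/Iface.lean pass
from classes in `H¹` to cocycles. -/
theorem exists_clN (n : ℕ) (K : Subgroup 𝒟.A) (O k : Type) [CommRing O] [AddCommGroup k] [Module O k] :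
    ∃ (Z : Submodule O (𝒟.G → 𝒟.Pt → k)) (_ : ∀ c, c ∈ Z ↔ IsZ1 K c)
      (cl : Z →ₗ[O] groupCohomology (coeff K (triv K O k)) 1),
      Function.Surjective cl ∧
      (∀ c : Z, cl c = 0 ↔ ∃ f : 𝒟.Pt → k, (∀ y, ∀ κ ∈ K, f (rt y κ) = f y) ∧
        ∀ γ y, c.1 γ y = f (act γ⁻¹ y) - f y) ∧
      ∀ {S : Set (Pl F)} {Φ : Chart n 𝒟 S} (hU : UnramOff K (triv K O k) Φ) (t : Idx n S)
        (c c' : Z), (∀ γ y, c'.1 γ y = heckeSum Φ t.1 t.2 (c.1 γ) y) →
        heckeCoh K (triv K O k) hU 1 t (cl c) = cl c' := by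
  refine ⟨lee_Z K O k, fun c => Iff.rfl,
    (groupCohomology.H1π (coeff K (triv K O k))).hom ∘ₗ lee_toC K O k, ?_, ?_, ?_⟩
  · intro z
    induction z using groupCohomology.H1_induction_on with
    | h c =>
    have hc : IsZ1 K (fun (γ : 𝒟.G) => (c γ : Forms K (triv K O k)).1) := by
      refine ⟨fun γ y κ hκ => (c γ : Forms K (triv K O k)).2 y ⟨κ, hκ⟩, fun γ γ' y => ?_⟩
      have h := (groupCohomology.mem_cocycles₁_iff (A := coeff K (triv K O k)) c).1 c.2 γ γ'
      have h1 : (c (γ * γ') : Forms K (triv K O k)).1 y =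
          (c γ' : Forms K (triv K O k)).1 (act γ⁻¹ y) + (c γ : Forms K (triv K O k)).1 y :=
        congrArg (fun f : Forms K (triv K O k) => f.1 y) h
      exact h1.trans (add_comm _ _)
    exact ⟨⟨_, hc⟩, rfl⟩
  · intro c
    have h0 : ((groupCohomology.H1π (coeff K (triv K O k))).hom ∘ₗ lee_toC K O k) c =
      groupCohomology.H1π (coeff K (triv K O k)) (lee_toC K O k c) := rfl
    rw [h0, groupCohomology.H1π_eq_zero_iff]
    constructor
    · rintro ⟨f, hf⟩
      refine ⟨(f : Forms K (triv K O k)).1, fun y κ hκ => (f : Forms K (triv K O k)).2 y ⟨κ, hκ⟩,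
        fun γ y => ?_⟩
      have h1 := congrArg (fun g : Forms K (triv K O k) => g.1 y) (congrFun hf γ)
      exact h1.symm
    · rintro ⟨f, hf, hc⟩
      refine ⟨(⟨f, fun y κ => hf y κ κ.2⟩ : Forms K (triv K O k)), ?_⟩
      funext γ
      apply Subtype.ext
      funext y
      exact (hc γ y).symm
  · intro S Φ hU t c c' h
    have h0 : ∀ c, ((groupCohomology.H1π (coeff K (triv K O k))).hom ∘ₗ lee_toC K O k) c =
      groupCohomology.H1π (coeff K (triv K O k)) (lee_toC K O k c) := fun _ => rfl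
    rw [h0, h0, lee_hecke hU t]
    congr 1
    apply Subtype.ext
    funext γ
    apply Subtype.ext
    funext y
    exact (h γ y).symm

/-- The Hecke operators preserve the cocycles. -/
private theorem lee_hs (hU : UnramOff K (triv K O k) Φ) {c : 𝒟.G → 𝒟.Pt → k} (hc : IsZ1 K c)
    (v : {v : Pl F // v ∉ S}) (j : Option (Fin n)) : IsZ1 K (fun γ => heckeSum Φ v j (c γ)) := by
  refine ⟨fun γ y κ hκ => ?_, fun γ γ' y => ?_⟩
  · exact heckeSum_mem (K := K) (τ := triv K O k) ⟨c γ, fun y κ => hc.h_rt γ y κ κ.2⟩ (hU v) j y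
      ⟨κ, hκ⟩
  · unfold heckeSum
    rw [← Finset.sum_add_distrib]
    refine Finset.sum_congr rfl fun a _ => ?_
    rw [hc.h_mul, act_rt]

private theorem lee_stab_act {y : 𝒟.Pt} {γ : 𝒟.G} (hγ : γ ∈ Stab K y) (δ : 𝒟.G) :
    δ * γ * δ⁻¹ ∈ Stab K (act δ y) := by
  obtain ⟨κ, hκ, h⟩ := mem_Stab'.1 hγ
  refine mem_Stab'.2 ⟨κ, hκ, ?_⟩
  rw [← act_mul, inv_mul_cancel_right, act_mul, h, act_rt]

private theorem lee_stab_nb (hK : HypOff K Φ) {y : 𝒟.Pt} {γ : 𝒟.G} (hγ : γ ∈ Stab K y)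
    (v : {v : Pl F // v ∉ S}) (c : GQ n v.1 ⧸ GZ n v.1) (m : ℕ) :
    mkK K (act (γ ^ m) (nb Φ v y c)) =
      mkK K (nb Φ v y ((fun c => locZ Φ v y γ • c)^[m] c)) := by
  induction m with
  | zero => rw [pow_zero, act_one]; rfl
  | succ m ih =>
    rw [pow_succ', act_mul, Function.iterate_succ_apply']
    have h1 : mkK K (act γ (act (γ ^ m) (nb Φ v y c))) = γ • mkK K (act (γ ^ m) (nb Φ v y c)) :=
      rfl
    rw [h1, ih]
    exact act_nb (hK v) hγ _

private theorem lee_stab_per (hK : HypOff K Φ) {y : 𝒟.Pt} {γ : 𝒟.G} (hγ : γ ∈ Stab K y)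
    (v : {v : Pl F // v ∉ S}) (c : GQ n v.1 ⧸ GZ n v.1) :
    γ ^ Function.minimalPeriod (fun c => locZ Φ v y γ • c) c ∈ Stab K (nb Φ v y c) := by
  rw [mem_Stab, lee_stab_nb hK hγ v c, Function.iterate_minimalPeriod]

/-- **LEE2.** The evaluations at `(y, γ)`, `γ ∈ Stab K y` (and `0` for the other `γ`).
PROOF. `E y γ (cl c) = c γ y`, well defined since coboundaries vanish on the stabilisers (use
`exists_cl`, a section of `cl`, or `Submodule.liftQ`). The properties are `IsZ1.h_rt`, `conj`, `add`,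
`orbit`, `cob`; for `E_R`: `HeckeComm_sum`; for `h_act`, `h_mul`, `h_r` note the behaviour of the
stabilisers (`Stab_rt`; `sg Φ v (alpha v.1 1)` commutes with `𝒟.A`; `nb`: `act_nb` iterated). -/
theorem exists_ev1 (hK : HypOff K Φ) (hU : UnramOff K (triv K O k) Φ) :
    ∃ E : 𝒟.Pt → 𝒟.G → (groupCohomology (coeff K (triv K O k)) 1 →ₗ[O] k),
      (∀ y, ∀ κ ∈ K, ∀ γ, E (rt y κ) γ = E y γ) ∧
      (∀ y (δ γ : 𝒟.G), γ ∈ Stab K y → E (act δ y) (δ * γ * δ⁻¹) = E y γ) ∧
      (∀ y, ∀ γ ∈ Stab K y, ∀ γ' ∈ Stab K y, E y (γ * γ') = E y γ + E y γ') ∧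
      (∀ v j y, ∀ γ ∈ Stab K y, ∀ R : Finset (GQ n v.1 ⧸ GZ n v.1),
        Reps (fun c => locZ Φ v y γ • c) (cosets_finite v.1 j).toFinset R →
        E y γ ∘ₗ heckeCoh K (triv K O k) hU 1 (v, j) =
          ∑ c ∈ R, E (nb Φ v y c)
            (γ ^ Function.minimalPeriod (fun c => locZ Φ v y γ • c) c)) ∧
      ∀ z, (∀ y, ∀ γ ∈ Stab K y, E y γ z = 0) → z = 0 := by
  classical
  obtain ⟨Z, hZ, cl, hsurj, hker, hhecke⟩ := exists_clN n K O k
  -- the evaluation on the cocycles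
  have hev0 : ∀ (y : 𝒟.Pt) (γ : 𝒟.G), γ ∈ Stab K y → ∀ c : Z, cl c = 0 → c.1 γ y = 0 := by
    intro y γ hγ c hc
    obtain ⟨f, hf, hcf⟩ := (hker c).1 hc
    obtain ⟨κ, hκ, h⟩ := mem_Stab'.1 ((Stab K y).inv_mem hγ)
    rw [hcf, h, hf y κ hκ, sub_self]
  have hev : ∀ (y : 𝒟.Pt) (γ : 𝒟.G), γ ∈ Stab K y → ∀ c c' : Z, cl c = cl c' →
      c.1 γ y = c'.1 γ y := by
    intro y γ hγ c c' hcc
    have h1 := hev0 y γ hγ (c - c') (by rw [map_sub, hcc, sub_self])
    have h2 : (c - c').1 γ y = c.1 γ y - c'.1 γ y := rfl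
    rw [h2, sub_eq_zero] at h1
    exact h1
  choose s hs using hsurj
  let E : 𝒟.Pt → 𝒟.G → (groupCohomology (coeff K (triv K O k)) 1 →ₗ[O] k) := fun y γ =>
    if hγ : γ ∈ Stab K y then
      { toFun := fun z => (s z).1 γ y
        map_add' := fun z w => by
          have h1 := hev y γ hγ (s (z + w)) (s z + s w) (by rw [map_add, hs, hs, hs])
          exact h1
        map_smul' := fun r z => by
          have h1 := hev y γ hγ (s (r • z)) (r • s z) (by rw [map_smul, hs, hs])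
          exact h1 }
    else 0
  have hE : ∀ (y : 𝒟.Pt) (γ : 𝒟.G), γ ∈ Stab K y → ∀ c : Z, E y γ (cl c) = c.1 γ y := by
    intro y γ hγ c
    have h1 : E y γ (cl c) = (s (cl c)).1 γ y := by
      change (if hγ : γ ∈ Stab K y then _ else _ :
        groupCohomology (coeff K (triv K O k)) 1 →ₗ[O] k) (cl c) = _
      rw [dif_pos hγ]
      rfl
    rw [h1]
    exact hev y γ hγ _ _ (hs _)
  have hE0 : ∀ (y : 𝒟.Pt) (γ : 𝒟.G), γ ∉ Stab K y → E y γ = 0 := by
    intro y γ hγ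
    exact dif_neg hγ
  refine ⟨E, ?_, ?_, ?_, ?_, ?_⟩
  · intro y κ hκ γ
    by_cases hγ : γ ∈ Stab K y
    · apply LinearMap.ext
      intro z
      rw [← hs z, hE y γ hγ, hE _ γ (by rw [Stab_rt y hκ]; exact hγ)]
      exact ((hZ _).1 (s z).2).h_rt γ y κ hκ
    · rw [hE0 y γ hγ, hE0 _ γ (by rw [Stab_rt y hκ]; exact hγ)]
  · intro y δ γ hγ
    apply LinearMap.ext
    intro z
    rw [← hs z, hE y γ hγ, hE _ _ (lee_stab_act hγ δ)]
    exact ((hZ _).1 (s z).2).conj y δ γ hγ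
  · intro y γ hγ γ' hγ'
    apply LinearMap.ext
    intro z
    rw [LinearMap.add_apply, ← hs z, hE y γ hγ, hE y γ' hγ', hE y _ ((Stab K y).mul_mem hγ hγ')]
    exact ((hZ _).1 (s z).2).add y γ γ' hγ
  · intro v j y γ hγ R hR
    apply LinearMap.ext
    intro z
    have hcz := (hZ _).1 (s z).2
    have h1 := hhecke hU (v, j) (s z) ⟨_, (hZ _).2 (lee_hs hU hcz v j)⟩ (fun _ _ => rfl)
    rw [LinearMap.comp_apply, LinearMap.sum_apply, ← hs z, h1, hE y γ hγ]
    have h2 : ∀ a ∈ R, E (nb Φ v y a)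
        (γ ^ Function.minimalPeriod (fun c => locZ Φ v y γ • c) a) (cl (s z)) =
        (s z).1 (γ ^ Function.minimalPeriod (fun c => locZ Φ v y γ • c) a) (nb Φ v y a) := by
      intro a _
      exact hE _ _ (lee_stab_per hK hγ v a) _
    rw [Finset.sum_congr rfl h2, led_orbit hK hcz v j y γ hγ R hR]
    rfl
  · intro z hz
    have hcz := (hZ _).1 (s z).2
    obtain ⟨f, hf, hcf⟩ := hcz.cob (fun γ y hγ => by
      have h1 := hz y γ hγ
      rw [← hs z, hE y γ hγ] at h1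
      exact h1)
    rw [← hs z]
    exact (hker _).2 ⟨f, hf, hcf⟩

end Pool.Agent.CGN
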