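import Pool.Agent.CGN.Loc
import Pool.Agent.CGQ.CBase
import Pool.Agent.CGQ.Fam

/-!
# The double cosets of the inverses
-/

noncomputable section

namespace Pool.Agent.CGN

open NumberField IsDedekindDomain Matrix
open Pool.Agent.CG2 (Pl Fv Ov)
open Pool.Agent.CGQ

variable {F : Type} [Field F] [NumberField F] {n : ℕ}

theorem dgk_zero (v : Pl F) : dgk n v 0 = 1 := by
  apply Units.ext
  rw [dgk_val]
  simp

theorem dgk_comm (v : Pl F) (a : GQ n v) : a * dgk n v n = dgk n v n * a := by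
  apply Units.ext
  rw [Units.val_mul, Units.val_mul, dgk_val]
  have h : (Matrix.diagonal fun i : Fin n => if (i : ℕ) < n then ((CG2.pi v : F) : Fv v) else 1) =
      ((CG2.pi v : F) : Fv v) • (1 : Matrix (Fin n) (Fin n) (Fv v)) := by
    ext i j
    by_cases hij : i = j
    · subst hij
      simp [i.2]
    · simp [Matrix.diagonal_apply_ne _ hij, Matrix.one_apply_ne hij]
  rw [h]
  simp

theorem dgk_comm_inv (v : Pl F) (a : GQ n v) : a * (dgk n v n)⁻¹ = (dgk n v n)⁻¹ * a :=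
  ((show Commute a (dgk n v n) from dgk_comm v a).inv_right).eq

/-- The permutation matrix of the reversal. -/
private def rvm (n : ℕ) (v : Pl F) : GQ n v where
  val := (Fin.revPerm (n := n)).permMatrix (Fv v)
  inv := (Fin.revPerm (n := n)).permMatrix (Fv v)
  val_inv := by
    rw [← Matrix.permMatrix_mul]
    have h : (Fin.revPerm : Equiv.Perm (Fin n)) * Fin.revPerm = 1 := by
      ext i
      simp
    rw [h, Matrix.permMatrix_one]
  inv_val := by
    rw [← Matrix.permMatrix_mul]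
    have h : (Fin.revPerm : Equiv.Perm (Fin n)) * Fin.revPerm = 1 := by
      ext i
      simp
    rw [h, Matrix.permMatrix_one]

private theorem rvm_inv (v : Pl F) : (rvm n v)⁻¹ = rvm n v := rfl

private theorem rvm_val (v : Pl F) : (rvm n v : Matrix (Fin n) (Fin n) (Fv v)) =
    (Fin.revPerm (n := n)).permMatrix (Fv v) := rfl

private theorem rvm_mem (v : Pl F) : rvm n v ∈ GZ n v := by
  rw [mem_GZ_iff, rvm_inv, rvm_val]
  have h : ∀ i j : Fin n, Valued.v (((Fin.revPerm (n := n)).permMatrix (Fv v)) i j) ≤ 1 := by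
    intro i j
    rw [Equiv.Perm.permMatrix, Equiv.toPEquiv, PEquiv.toMatrix_apply]
    split_ifs
    · rw [map_one]
    · rw [map_zero]
      exact zero_le_one
  exact ⟨h, h⟩

private theorem dgk_rvm (v : Pl F) {k m : ℕ} (h : m + k = n) :
    (dgk n v k)⁻¹ = (dgk n v n)⁻¹ * (rvm n v * dgk n v m * (rvm n v)⁻¹) := by
  have key : dgk n v n = dgk n v k * (rvm n v * dgk n v m * (rvm n v)⁻¹) := by
    apply Units.ext
    rw [rvm_inv, Units.val_mul, Units.val_mul, Units.val_mul, rvm_val, dgk_val, dgk_val, dgk_val,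
      Equiv.Perm.permMatrix, PEquiv.toMatrix_toPEquiv_mul, PEquiv.mul_toMatrix_toPEquiv]
    ext i j
    rw [Matrix.diagonal_mul, Matrix.submatrix_apply, Matrix.submatrix_apply]
    have h2 : (Fin.revPerm.symm : Equiv.Perm (Fin n)) j = Fin.rev j := rfl
    have h3 : (Fin.revPerm : Equiv.Perm (Fin n)) i = Fin.rev i := rfl
    simp only [id_eq, h2, h3]
    by_cases hij : i = j
    · subst hij
      rw [Matrix.diagonal_apply_eq, Matrix.diagonal_apply_eq, if_pos i.2]
      have h1 : ((Fin.rev i : Fin n) : ℕ) = n - (i + 1) := Fin.val_rev i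
      rw [h1]
      have hi := i.2
      by_cases hk : (i : ℕ) < k
      · rw [if_pos hk, if_neg (by omega), mul_one]
      · rw [if_neg hk, if_pos (by omega), one_mul]
    · rw [Matrix.diagonal_apply_ne _ hij, Matrix.diagonal_apply_ne _
        (fun hh => hij (Fin.rev_injective hh)), mul_zero]
  have h2 : rvm n v * dgk n v m * (rvm n v)⁻¹ = (dgk n v k)⁻¹ * dgk n v n := by
    rw [key, inv_mul_cancel_left]
  rw [h2, dgk_comm, inv_mul_cancel_left]

/-- The double coset of the inverse. -/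
theorem dcos_inv {v : Pl F} {k m : ℕ} (h : m + k = n) {c : GQ n v ⧸ GZ n v}
    (hc : c ∈ dcos v (dgk n v m)) : (dgk n v n)⁻¹ • c ∈ dcos v (dgk n v k)⁻¹ := by
  obtain ⟨u, hu, rfl⟩ := hc
  refine ⟨u * (rvm n v)⁻¹, (GZ n v).mul_mem hu ((GZ n v).inv_mem (rvm_mem v)), ?_⟩
  rw [dgk_rvm v h]
  change (((dgk n v n)⁻¹ * (u * dgk n v m) : GQ n v) : GQ n v ⧸ GZ n v) = _
  rw [QuotientGroup.eq]
  have e : ((dgk n v n)⁻¹ * (u * dgk n v m))⁻¹ * (u * (rvm n v)⁻¹ * ((dgk n v n)⁻¹ *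
      (rvm n v * dgk n v m * (rvm n v)⁻¹))) = (rvm n v)⁻¹ := by
    have e1 : u * (rvm n v)⁻¹ * ((dgk n v n)⁻¹ * (rvm n v * dgk n v m * (rvm n v)⁻¹)) =
        (dgk n v n)⁻¹ * (u * dgk n v m) * (rvm n v)⁻¹ := by
      rw [← mul_assoc (u * (rvm n v)⁻¹), dgk_comm_inv]
      group
    rw [e1, inv_mul_cancel_left]
  rw [e]
  exact (GZ n v).inv_mem (rvm_mem v)

theorem dcos_inv' {v : Pl F} {k m : ℕ} (h : m + k = n) {c : GQ n v ⧸ GZ n v}
    (hc : c ∈ dcos v (dgk n v k)⁻¹) : (dgk n v n) • c ∈ dcos v (dgk n v m) := by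
  obtain ⟨u, hu, rfl⟩ := hc
  refine ⟨u * rvm n v, (GZ n v).mul_mem hu (rvm_mem v), ?_⟩
  rw [dgk_rvm v h]
  change ((dgk n v n * (u * ((dgk n v n)⁻¹ * (rvm n v * dgk n v m * (rvm n v)⁻¹))) : GQ n v) :
    GQ n v ⧸ GZ n v) = _
  rw [eq_comm, QuotientGroup.eq]
  have e1 : dgk n v n * (u * ((dgk n v n)⁻¹ * (rvm n v * dgk n v m * (rvm n v)⁻¹))) =
      u * rvm n v * dgk n v m * (rvm n v)⁻¹ := by
    rw [← mul_assoc u, dgk_comm_inv]
    group
  rw [e1, inv_mul_cancel_left]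
  exact (GZ n v).inv_mem (rvm_mem v)

theorem dcos_one (v : Pl F) : dcos v (1 : GQ n v) = {((1 : GQ n v) : GQ n v ⧸ GZ n v)} := by
  ext c
  simp only [dcos, Set.mem_ofPred_eq, Set.mem_singleton_iff, mul_one]
  constructor
  · rintro ⟨k, hk, rfl⟩
    rw [eq_comm, QuotientGroup.eq, inv_one, one_mul]
    exact hk
  · rintro rfl
    exact ⟨1, (GZ n v).one_mem, rfl⟩

/-- The orbits on the neighbours and on the inverse neighbours. -/
theorem reps_inv {v : Pl F} {k m : ℕ} (h : m + k = n) (g : GQ n v)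
    (R : Finset (GQ n v ⧸ GZ n v))
    (hR : Reps (fun c => g • c) (dcos_finite v (dgk n v m)).toFinset R) :
    Reps (fun c => g • c) (dcos_finite v (dgk n v k)⁻¹).toFinset
      (R.map ⟨fun c => (dgk n v n)⁻¹ • c, MulAction.injective _⟩) ∧
    ∀ c : GQ n v ⧸ GZ n v, Function.minimalPeriod (fun c => g • c) ((dgk n v n)⁻¹ • c) =
      Function.minimalPeriod (fun c => g • c) c := by
  have hit : ∀ (i : ℕ) (c : GQ n v ⧸ GZ n v), (fun c => g • c)^[i] ((dgk n v n)⁻¹ • c) =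
      (dgk n v n)⁻¹ • (fun c => g • c)^[i] c := by
    intro i c
    rw [smul_iterate]
    change g ^ i • ((dgk n v n)⁻¹ • c) = (dgk n v n)⁻¹ • (g ^ i • c)
    rw [smul_smul, smul_smul, dgk_comm_inv]
  refine ⟨⟨?_, ?_, ?_⟩, ?_⟩
  · intro c' hc'
    rw [Finset.mem_map] at hc'
    obtain ⟨c, hc, rfl⟩ := hc'
    have h1 := hR.sub hc
    rw [Set.Finite.mem_toFinset] at h1 ⊢
    exact dcos_inv h h1
  · intro c' hc'
    rw [Set.Finite.mem_toFinset] at hc'
    have h1 := dcos_inv' h hc'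
    obtain ⟨r, hr, i, hi⟩ := hR.ex _ ((Set.Finite.mem_toFinset _).2 h1)
    refine ⟨(dgk n v n)⁻¹ • r, Finset.mem_map.2 ⟨r, hr, rfl⟩, i, ?_⟩
    rw [hit, hi, inv_smul_smul]
  · intro r hr r' hr' i hi
    rw [Finset.mem_map] at hr hr'
    obtain ⟨a, ha, rfl⟩ := hr
    obtain ⟨a', ha', rfl⟩ := hr'
    change (fun c => g • c)^[i] ((dgk n v n)⁻¹ • a) = (dgk n v n)⁻¹ • a' at hi
    rw [hit] at hi
    have h1 := hR.inj a ha a' ha' i (MulAction.injective _ hi)
    rw [h1]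
  · intro c
    rw [Function.minimalPeriod_eq_minimalPeriod_iff]
    intro i
    change (fun c => g • c)^[i] ((dgk n v n)⁻¹ • c) = (dgk n v n)⁻¹ • c ↔
      (fun c => g • c)^[i] c = c
    rw [hit]
    exact (MulAction.injective (dgk n v n)⁻¹).eq_iff

end Pool.Agent.CGN
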