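import Pool.Agent.CGN.CDev
import Pool.Agent.CGN.IDefs
import Pool.Agent.CG2.LevelOC

/-!
# The levels of the main theorem
-/

noncomputable section

namespace Pool.Agent.CGN

open NumberField IsDedekindDomain Matrix
open Pool.Agent.CGQ
open Pool.Agent.CG2 (Pl Fv Ov Pr Above ab exists_above above_unique LevelOC_fin
  LevelOC_finite LevelOC_pr LevelOC_pr_spec)

variable {F : Type} [Field F] [NumberField F]

/-- The group `(D ⊗ ℚ_ℓ)ˣ`, the product of the groups `D_vˣ` over the places `v` above the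
rational prime `ℓ`, with the product topology. -/
abbrev DL (A : AD F) (ℓ : Pr) : Type := ∀ v : {v : Pl F // Above (ℓ : ℕ) v}, (DV A v.1)ˣ

/-- A level. -/
structure LevelA (A : AD F) (p : Pr) (S : Finset Pr) where
  /-- the local groups -/
  K : ∀ ℓ : Pr, Subgroup (DL A ℓ)
  isOpen : ∀ ℓ, IsOpen (K ℓ : Set (DL A ℓ))
  isCompact : ∀ ℓ, IsCompact (K ℓ : Set (DL A ℓ))
  fin : {ℓ : Pr | ¬ ∀ g : DL A ℓ, g ∈ K ℓ ↔ ∀ v, g v ∈ BZ A v.1}.Finite
  /-- the isomorphisms -/
  φ : Spl A (ab F S)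
  off : ∀ ℓ, ℓ ∉ S → ∀ g : DL A ℓ, g ∈ K ℓ ↔
    ∀ (v : {v : Pl F // Above (ℓ : ℕ) v}) (hv : v.1 ∉ ab F S),
      (chartA φ).e ⟨v.1, hv⟩ (g v) ∈ GZ A.n v.1
  mem : p ∈ S

variable {A : AD F} {p : Pr} {S : Finset Pr}

/-- The component at the rational prime `ℓ`. -/
def atA (g : (sysA A).A) (ℓ : Pr) : DL A ℓ := fun v => g.1 v.1

/-- The group `K_f`. -/
def LevelA.Kf (L : LevelA A p S) : Subgroup (sysA A).A where
  carrier := {k | ∀ ℓ, atA k ℓ ∈ L.K ℓ}
  mul_mem' ha hb ℓ := (L.K ℓ).mul_mem (ha ℓ) (hb ℓ)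
  one_mem' ℓ := (L.K ℓ).one_mem
  inv_mem' ha ℓ := (L.K ℓ).inv_mem (ha ℓ)

/-- The group `K_p`. -/
abbrev LevelA.Kp (L : LevelA A p S) : Type := L.K p

/-- The projection from `K_f` to `K_p`. -/
def LevelA.toKp (L : LevelA A p S) : L.Kf →* L.Kp where
  toFun k := ⟨atA k.1 p, k.2 p⟩
  map_one' := rfl
  map_mul' _ _ := rfl

variable {O : Type} [CommRing O] {W : Type} [AddCommGroup W] [Module O W]

/-- The `K_f`-module given by a `K_p`-module. -/
def LevelA.rep (L : LevelA A p S) (σ : Representation O L.Kp W) : Representation O L.Kf W :=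
  σ.comp L.toKp

theorem atA_single_ne {v : Pl F} {ℓ : Pr} (h : ¬ Above (ℓ : ℕ) v) (k : (DV A v)ˣ) :
    atA (A := A) (single (𝒟 := sysA A) v k) ℓ = 1 := by
  funext w
  have h1 : w.1 ≠ v := by
    intro h'
    apply h
    rw [← h']
    exact w.2
  exact single_ne (𝒟 := sysA A) h1 k

theorem LevelA.unram (L : LevelA A p S) (σ : Representation O L.Kp W) :
    UnramOff L.Kf (L.rep σ) (chartA L.φ) := by
  rintro ⟨v, hv⟩
  have hmem : ∀ k : (sysA A).L v, (chartA L.φ).e ⟨v, hv⟩ k ∈ GZ A.n v → single v k ∈ L.Kf := by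
    intro k hk ℓ
    by_cases h : Above (ℓ : ℕ) v
    · have hℓ : ℓ ∉ S := fun h' => hv ⟨ℓ, h', h⟩
      rw [L.off ℓ hℓ]
      intro w hw0
      change (chartA L.φ).e ⟨w.1, hw0⟩ ((single v k).1 w.1) ∈ GZ A.n w.1
      by_cases hw : w.1 = v
      · obtain ⟨w, hw'⟩ := w
        simp only at hw
        subst hw
        rw [single_same]
        exact hk
      · rw [single_ne hw, map_one]
        exact (GZ A.n w.1).one_mem
    · have h1 : atA (single v k) ℓ = 1 := atA_single_ne h k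
      rw [h1]
      exact (L.K ℓ).one_mem
  refine ⟨⟨?_, hmem⟩, ?_⟩
  · intro k hk
    obtain ⟨ℓ, hℓ⟩ := exists_above v
    have h1 : ℓ ∉ S := fun h' => hv ⟨ℓ, h', hℓ⟩
    exact (L.off ℓ h1 _).1 (hk ℓ) ⟨v, hℓ⟩ hv
  · intro k hk
    have h0 : ¬ Above (p : ℕ) v := fun h => hv ⟨p, L.mem, h⟩
    have h1 : L.toKp ⟨single v k, hmem k hk⟩ = 1 := Subtype.ext (atA_single_ne h0 k)
    change σ (L.toKp _) = 1
    rw [h1, map_one]

theorem LevelA.hyp (L : LevelA A p S) : HypOff L.Kf (chartA L.φ) := fun v =>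
  (L.unram (O := ℤ) (W := ℤ) 1 v).hyp

/-- The action of `K_p` on `W` is continuous for the `𝔪`-adic topology of `W`. -/
def IsContinuousRepA [IsLocalRing O] (L : LevelA A p S) (σ : Representation O L.Kp W) : Prop :=
  ∀ n : ℕ, ∃ U : Set (DL A p), IsOpen U ∧ 1 ∈ U ∧ ∀ k : L.Kp, (k : DL A p) ∈ U →
    ∀ w : W, σ k w - w ∈ (IsLocalRing.maximalIdeal O ^ n • ⊤ : Submodule O W)

open Classical in
/-- The local component of a subgroup. -/
def compU (ℓ : Pr) (H : Subgroup (DL A ℓ)) (v : {v : Pl F // Above (ℓ : ℕ) v}) :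
    Subgroup (DV A v.1)ˣ :=
  H.comap (MonoidHom.mulSingle (fun w : {v : Pl F // Above (ℓ : ℕ) v} => (DV A w.1)ˣ) v)

theorem compU_open (ℓ : Pr) (H : Subgroup (DL A ℓ)) (hH : IsOpen (H : Set (DL A ℓ)))
    (v : {v : Pl F // Above (ℓ : ℕ) v}) : IsOpen (compU ℓ H v : Set (DV A v.1)ˣ) := by
  classical
  exact hH.preimage (continuous_mulSingle v)

theorem compU_mem (ℓ : Pr) (H : Subgroup (DL A ℓ)) (g : DL A ℓ)
    (hg : ∀ v, g v ∈ compU ℓ H v) : g ∈ H := by
  classical
  exact Subgroup.pi_mem_of_mulSingle_mem g fun v => hg v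

theorem LevelA.fin_places (L : LevelA A p S) :
    {v : Pl F | ¬ ∀ g : DL A (LevelOC_pr v), g ∈ L.K (LevelOC_pr v) ↔
      ∀ w, g w ∈ BZ A w.1}.Finite := by
  refine (L.fin.biUnion (t := fun ℓ => {v : Pl F | Above (ℓ : ℕ) v}) fun ℓ _ =>
    LevelOC_fin ℓ).subset ?_
  intro v hv
  simp only [Set.mem_iUnion, exists_prop]
  exact ⟨LevelOC_pr v, hv, LevelOC_pr_spec v⟩

/-- The projection of the local group to the component at `v`. -/
def LevelA.cpt (L : LevelA A p S) (v : Pl F) : Set (DV A v)ˣ :=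
  (fun g : DL A (LevelOC_pr v) => g ⟨v, LevelOC_pr_spec v⟩) '' (L.K (LevelOC_pr v) : Set _)

theorem LevelA.cpt_compact (L : LevelA A p S) (v : Pl F) : IsCompact (L.cpt v) :=
  (L.isCompact _).image (continuous_apply _)

theorem LevelA.oc (L : LevelA A p S) : OC L.Kf := by
  classical
  refine ⟨⟨fun v => compU (LevelOC_pr v) (L.K _) ⟨v, LevelOC_pr_spec v⟩,
    fun v => compU_open _ _ (L.isOpen _) _, ?_, ?_⟩,
    ⟨fun v => L.cpt v, fun v => L.cpt_compact v, ?_, ?_⟩⟩
  · refine L.fin_places.subset ?_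
    intro v hv
    by_contra hall
    simp only [Set.mem_ofPred_eq, not_not] at hall
    apply hv
    intro k hk
    change Pi.mulSingle (M := fun w : {w : Pl F // Above (LevelOC_pr v : ℕ) w} => (DV A w.1)ˣ)
      ⟨v, LevelOC_pr_spec v⟩ k ∈ L.K (LevelOC_pr v)
    rw [hall]
    intro w
    by_cases hw : w = ⟨v, LevelOC_pr_spec v⟩
    · subst hw
      rw [Pi.mulSingle_eq_same]
      exact hk
    · rw [Pi.mulSingle_eq_of_ne hw]
      exact (BZ A w.1).one_mem
  · intro k hk ℓ
    apply compU_mem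
    rintro ⟨v, hv⟩
    have h1 : LevelOC_pr v = ℓ := above_unique (LevelOC_pr_spec v) hv
    subst h1
    exact hk v
  · refine L.fin_places.subset ?_
    intro v hv
    by_contra hall
    simp only [Set.mem_ofPred_eq, not_not] at hall
    apply hv
    rintro _ ⟨g, hg, rfl⟩
    rw [SetLike.mem_coe, hall] at hg
    exact hg ⟨v, LevelOC_pr_spec v⟩
  · intro k hk v
    exact ⟨atA k (LevelOC_pr v), hk _, rfl⟩

/-- The subgroup acting trivially modulo a submodule. -/
def trivMod (L : LevelA A p S) (σ : Representation O L.Kp W) (I : Ideal O) :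
    Subgroup L.Kp where
  carrier := {k | ∀ w : W, σ k w - w ∈ (I • ⊤ : Submodule O W)}
  one_mem' w := by
    rw [map_one]
    simp
  mul_mem' := by
    intro a b ha hb w
    have h1 : σ (a * b) w - w = σ a (σ b w - w) + (σ a w - w) := by
      rw [map_mul, Module.End.mul_apply, map_sub]; abel
    rw [h1]
    refine add_mem ?_ (ha w)
    have h2 : (I • ⊤ : Submodule O W) ≤ (I • ⊤ : Submodule O W).comap (σ a) := by
      rw [Submodule.smul_le]
      intro r hr n _
      rw [Submodule.mem_comap, map_smul]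
      exact Submodule.smul_mem_smul hr trivial
    exact h2 (hb w)
  inv_mem' := by
    intro a ha w
    have h2 : (I • ⊤ : Submodule O W) ≤ (I • ⊤ : Submodule O W).comap (σ a⁻¹) := by
      rw [Submodule.smul_le]
      intro r hr n _
      rw [Submodule.mem_comap, map_smul]
      exact Submodule.smul_mem_smul hr trivial
    have h3 := h2 (ha w)
    rw [Submodule.mem_comap, map_sub, ← Module.End.mul_apply, ← map_mul, inv_mul_cancel, map_one,
      Module.End.one_apply] at h3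
    rw [← neg_mem_iff, neg_sub]
    exact h3

theorem LevelA.cont [IsLocalRing O] (L : LevelA A p S) (σ : Representation O L.Kp W)
    (hσ : IsContinuousRepA L σ) : Cont L.Kf (L.rep σ) (chartA L.φ) := by
  classical
  intro n
  obtain ⟨N, hN, hN1, hNσ⟩ := hσ n
  set I := IsLocalRing.maximalIdeal O ^ n with hI
  let H : Subgroup (DL A p) := (trivMod L σ I).map (L.K p).subtype
  have hH : IsOpen (H : Set (DL A p)) := by
    apply Subgroup.isOpen_of_mem_nhds (g := 1)
    refine Filter.mem_of_superset ((hN.inter (L.isOpen p)).mem_nhds ⟨hN1, (L.K p).one_mem⟩) ?_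
    rintro g ⟨hg1, hg2⟩
    exact ⟨⟨g, hg2⟩, hNσ ⟨g, hg2⟩ hg1, rfl⟩
  refine ⟨fun v => if h : Above (p : ℕ) v then compU p H ⟨v, h⟩ else ⊤, ?_, ?_, ?_, ?_⟩
  · intro v
    by_cases h : Above (p : ℕ) v
    · simp only [dif_pos h]
      exact compU_open _ _ hH _
    · simp only [dif_neg h]
      exact isOpen_univ
  · refine (LevelOC_fin p).subset ?_
    intro v hv
    by_contra h
    apply hv
    have h' : ¬ Above (p : ℕ) v := h
    simp only [dif_neg h']
    exact le_top
  · rintro ⟨v, hv⟩ k -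
    have h : ¬ Above (p : ℕ) v := fun h => hv ⟨p, L.mem, h⟩
    simp only [dif_neg h]
    trivial
  · intro k hk
    have h1 : atA k.1 p ∈ H := by
      apply compU_mem
      rintro ⟨v, hv⟩
      have := hk v
      simp only [dif_pos hv] at this
      exact this
    obtain ⟨g, hg, hgk⟩ := h1
    intro w
    have h2 : L.toKp k = g := Subtype.ext hgk.symm
    change σ (L.toKp k) w - w ∈ _
    rw [h2]
    exact hg w

end Pool.Agent.CGN
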