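import Pool.Agent.CG2.Hecke

/-!
# The groups `GL_n(F_v)` and the double cosets of the Hecke operators
-/

noncomputable section

namespace Pool.Agent.CGN

open NumberField IsDedekindDomain Matrix
open Pool.Agent.CG2 (Pl Fv Ov)

variable {F : Type} [Field F] [NumberField F]

/-- The group `GL_n(F_v)`. -/
abbrev GQ (n : ℕ) (v : Pl F) := GL (Fin n) (Fv v)

/-- The subgroup `GL_n(O_v)` of `GL_n(F_v)`. -/
def GZ (n : ℕ) (v : Pl F) : Subgroup (GQ n v) :=
  (GeneralLinearGroup.map (n := Fin n) (algebraMap (Ov v) (Fv v))).range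

variable {n : ℕ}

theorem mem_GZ_iff (v : Pl F) (g : GQ n v) :
    g ∈ GZ n v ↔ (∀ i j, Valued.v ((g : Matrix (Fin n) (Fin n) (Fv v)) i j) ≤ 1) ∧
      (∀ i j, Valued.v (((g⁻¹ : GQ n v) : Matrix (Fin n) (Fin n) (Fv v)) i j) ≤ 1) := by
  constructor
  · rintro ⟨u, rfl⟩
    constructor
    · intro i j
      exact ((u : Matrix (Fin n) (Fin n) (Ov v)) i j).2
    · intro i j
      rw [← map_inv]
      exact (((u⁻¹ : GL (Fin n) (Ov v)) : Matrix (Fin n) (Fin n) (Ov v)) i j).2
  · rintro ⟨h1, h2⟩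
    let A : Matrix (Fin n) (Fin n) (Ov v) := fun i j => ⟨_, h1 i j⟩
    let B : Matrix (Fin n) (Fin n) (Ov v) := fun i j => ⟨_, h2 i j⟩
    have hA : A.map (algebraMap (Ov v) (Fv v)) = (g : Matrix (Fin n) (Fin n) _) := by
      ext i j; rfl
    have hB : B.map (algebraMap (Ov v) (Fv v))
        = ((g⁻¹ : GQ n v) : Matrix (Fin n) (Fin n) _) := by
      ext i j; rfl
    have hinj : ∀ M N : Matrix (Fin n) (Fin n) (Ov v),
        M.map (algebraMap (Ov v) (Fv v)) = N.map (algebraMap (Ov v) (Fv v)) → M = N := by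
      intro M N h
      ext i j
      have := congrFun (congrFun h i) j
      exact congrArg _ this
    have hAB : A * B = 1 := by
      apply hinj
      rw [Matrix.map_mul, hA, hB, Matrix.map_one _ (map_zero _) (map_one _)]
      exact congrArg Units.val (mul_inv_cancel g)
    have hBA : B * A = 1 := by
      apply hinj
      rw [Matrix.map_mul, hA, hB, Matrix.map_one _ (map_zero _) (map_one _)]
      exact congrArg Units.val (inv_mul_cancel g)
    refine ⟨⟨A, B, hAB, hBA⟩, ?_⟩
    apply Units.ext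
    exact hA

/-- The element `diag(π, …, π, 1, …, 1)` of `GL_n(F_v)` with `k` entries `π`; `π` is a uniformiser
of `F_v`. -/
def dgk (n : ℕ) (v : Pl F) (k : ℕ) : GQ n v :=
  GeneralLinearGroup.mkOfDetNeZero
    (Matrix.diagonal fun i : Fin n => if (i : ℕ) < k then ((CG2.pi v : F) : Fv v) else 1) (by
      rw [Matrix.det_diagonal, Finset.prod_ne_zero_iff]
      intro i _
      split_ifs
      · exact (map_ne_zero (algebraMap F (Fv v))).2 (CG2.pi_ne v)
      · exact one_ne_zero)

theorem dgk_val (v : Pl F) (k : ℕ) : (dgk n v k : Matrix (Fin n) (Fin n) (Fv v)) =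
    Matrix.diagonal fun i : Fin n => if (i : ℕ) < k then ((CG2.pi v : F) : Fv v) else 1 := rfl

/-- The elements `diag(π, …, π, 1, …, 1)` with `j + 1` entries `π` for `some j`, and
`diag(π, …, π)⁻¹` for `none`. -/
def alpha (v : Pl F) (j : Option (Fin n)) : GQ n v :=
  Option.elim j (dgk n v n)⁻¹ fun i => dgk n v (i + 1)

/-- The set of the cosets `h GL_n(O_v)` contained in the double coset
`GL_n(O_v) a GL_n(O_v)`. -/
def dcos (v : Pl F) (a : GQ n v) : Set (GQ n v ⧸ GZ n v) :=
  {c | ∃ k ∈ GZ n v, c = ((k * a : GQ n v) : GQ n v ⧸ GZ n v)}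

/-- The set of the cosets `h GL_n(O_v)` contained in the double coset of `alpha v j`. -/
abbrev cosets (v : Pl F) (j : Option (Fin n)) : Set (GQ n v ⧸ GZ n v) := dcos v (alpha v j)

/-- The set of the cosets `h GL_n(O_v)` contained in the double coset of `(alpha v j)⁻¹`. -/
abbrev cosetsInv (v : Pl F) (j : Option (Fin n)) : Set (GQ n v ⧸ GZ n v) := dcos v (alpha v j)⁻¹

theorem isOpen_GZ (v : Pl F) : IsOpen (GZ n v : Set (GQ n v)) := by
  have h : (GZ n v : Set (GQ n v)) =
      (⋂ i, ⋂ j, {g : GQ n v | Valued.v ((g : Matrix (Fin n) (Fin n) (Fv v)) i j) ≤ 1}) ∩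
        (⋂ i, ⋂ j, {g : GQ n v |
          Valued.v (((g⁻¹ : GQ n v) : Matrix (Fin n) (Fin n) (Fv v)) i j) ≤ 1}) := by
    ext g
    simp only [SetLike.mem_coe, mem_GZ_iff, Set.mem_iInter, Set.mem_inter_iff,
      Set.mem_ofPred_eq]
  rw [h]
  have hb : IsOpen {x : Fv v | Valued.v x ≤ 1} := CG2.isOpen_val_le v 1 one_ne_zero
  refine IsOpen.inter ?_ ?_
  · refine isOpen_iInter_of_finite fun i => isOpen_iInter_of_finite fun j => ?_
    exact hb.preimage ((Units.continuous_val.matrix_elem i j))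
  · refine isOpen_iInter_of_finite fun i => isOpen_iInter_of_finite fun j => ?_
    exact hb.preimage ((Units.continuous_val.comp continuous_inv).matrix_elem i j)

theorem isCompact_GZ (v : Pl F) : IsCompact (GZ n v : Set (GQ n v)) := by
  have : (GZ n v : Set (GQ n v)) = Set.range
      (GeneralLinearGroup.map (n := Fin n) (algebraMap (Ov v) (Fv v))) := rfl
  rw [this]
  have h0 : CompactSpace (Ov v) := inferInstance
  have hc : CompactSpace (Matrix (Fin n) (Fin n) (Ov v)) :=
    inferInstanceAs (CompactSpace (Fin n → Fin n → Ov v))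
  have hc' : CompactSpace (GL (Fin n) (Ov v)) :=
    inferInstanceAs (CompactSpace (Matrix (Fin n) (Fin n) (Ov v))ˣ)
  apply isCompact_range
  have hcast : Continuous (fun x : Ov v => (x : Fv v)) := continuous_subtype_val
  refine Units.continuous_iff.2 ⟨?_, ?_⟩
  · refine continuous_matrix fun i j => ?_
    have h1 : Continuous (fun u : GL (Fin n) (Ov v) =>
        (u : Matrix (Fin n) (Fin n) (Ov v)) i j) := Units.continuous_val.matrix_elem i j
    exact hcast.comp h1
  · refine continuous_matrix fun i j => ?_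
    have h1 : Continuous (fun u : GL (Fin n) (Ov v) =>
        ((u⁻¹ : GL (Fin n) (Ov v)) : Matrix (Fin n) (Fin n) (Ov v)) i j) :=
      (Units.continuous_val.comp continuous_inv).matrix_elem i j
    exact hcast.comp h1

theorem dcos_finite (v : Pl F) (a : GQ n v) : (dcos v a).Finite := by
  have h1 : dcos v a = (fun k : GQ n v => ((k * a : GQ n v) : GQ n v ⧸ GZ n v)) ''
      (GZ n v : Set (GQ n v)) := by
    ext c
    simp only [dcos, Set.mem_ofPred_eq, Set.mem_image, SetLike.mem_coe]
    constructor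
    · rintro ⟨k, hk, rfl⟩
      exact ⟨k, hk, rfl⟩
    · rintro ⟨k, hk, rfl⟩
      exact ⟨k, hk, rfl⟩
  rw [h1]
  have : DiscreteTopology (GQ n v ⧸ GZ n v) :=
    QuotientGroup.discreteTopology (isOpen_GZ v)
  apply IsCompact.finite_of_discrete
  apply (isCompact_GZ v).image
  exact (QuotientGroup.continuous_mk).comp (continuous_mul_const _)

theorem cosets_finite (v : Pl F) (j : Option (Fin n)) : (cosets v j).Finite := dcos_finite v _

theorem cosetsInv_finite (v : Pl F) (j : Option (Fin n)) : (cosetsInv v j).Finite :=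
  dcos_finite v _

/-- Left multiplication by an element of `GL_n(O_v)` permutes the cosets. -/
theorem smul_mem_dcos {v : Pl F} {a : GQ n v} {c : GQ n v ⧸ GZ n v} (hc : c ∈ dcos v a)
    {k : GQ n v} (hk : k ∈ GZ n v) : k • c ∈ dcos v a := by
  obtain ⟨u, hu, rfl⟩ := hc
  refine ⟨k * u, (GZ n v).mul_mem hk hu, ?_⟩
  rw [mul_assoc]
  rfl

theorem smul_mem_cosets {v : Pl F} {j : Option (Fin n)} {c : GQ n v ⧸ GZ n v}
    (hc : c ∈ cosets v j) {k : GQ n v} (hk : k ∈ GZ n v) : k • c ∈ cosets v j :=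
  smul_mem_dcos hc hk

end Pool.Agent.CGN
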