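import Pool.Agent.CGN.IDefs

/-!
# Positivity of the reduced norm

At a real place `w` of `F` where `D` is split, an element `x` of a field `L` embedded in `D` which
is positive at all real places of `L` is a square in `ℝ ⊗ L` (a product of copies of `ℝ` and `ℂ`),
so its reduced norm at `w` is the square of a nonzero real number.
-/

noncomputable section

namespace Pool.Agent.CGN

open NumberField IsDedekindDomain Matrix
open Pool.Agent.CG2 (Pl Fv Ov TotPos)

/-- An element of `L` positive under all the real embeddings over `F` is a square in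
`ℝ ⊗ L`. -/
private theorem np_sq {F L : Type} [Field F] [Field L] [CharZero F] [Algebra F L]
    [FiniteDimensional F L] [Algebra F ℝ] (x : L) (hx : ∀ τ : L →ₐ[F] ℝ, 0 < τ x) :
    ∃ s : TensorProduct F ℝ L, s ^ 2 = Algebra.TensorProduct.includeRight x := by
  have hsep : Algebra.IsSeparable F L := inferInstance
  have hU : Algebra.FormallyUnramified F L := by
    have : Algebra.FormallyEtale F L := Algebra.FormallyEtale.of_isSeparable F L
    infer_instance
  have hU' : Algebra.FormallyUnramified ℝ (TensorProduct F ℝ L) := inferInstance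
  have hfin : Module.Finite ℝ (TensorProduct F ℝ L) := inferInstance
  have hred : IsReduced (TensorProduct F ℝ L) :=
    Algebra.FormallyUnramified.isReduced_of_field ℝ (TensorProduct F ℝ L)
  have hart : IsArtinianRing (TensorProduct F ℝ L) := IsArtinianRing.of_finite ℝ _
  have key : ∀ I : MaximalSpectrum (TensorProduct F ℝ L),
      ∃ s : TensorProduct F ℝ L ⧸ I.asIdeal,
        s ^ 2 = Ideal.Quotient.mk I.asIdeal (Algebra.TensorProduct.includeRight x) := by
    intro I
    have hmax : I.asIdeal.IsMaximal := I.isMaximal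
    let _ : Field (TensorProduct F ℝ L ⧸ I.asIdeal) := Ideal.Quotient.field I.asIdeal
    have hf2 : Module.Finite ℝ (TensorProduct F ℝ L ⧸ I.asIdeal) := inferInstance
    have halg : Algebra.IsAlgebraic ℝ (TensorProduct F ℝ L ⧸ I.asIdeal) := inferInstance
    rcases Real.nonempty_algEquiv_or (TensorProduct F ℝ L ⧸ I.asIdeal) with ⟨⟨e⟩⟩ | ⟨⟨e⟩⟩
    · -- a real embedding
      let τ : L →ₐ[F] ℝ :=
        { toRingHom := (e : (TensorProduct F ℝ L ⧸ I.asIdeal) →+* ℝ).comp
            ((Ideal.Quotient.mk I.asIdeal).comp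
              (Algebra.TensorProduct.includeRight : L →ₐ[F] TensorProduct F ℝ L).toRingHom)
          commutes' := by
            intro r
            have h1 : (Algebra.TensorProduct.includeRight : L →ₐ[F] TensorProduct F ℝ L)
                (algebraMap F L r) = algebraMap ℝ (TensorProduct F ℝ L) (algebraMap F ℝ r) := by
              rw [AlgHom.commutes]
              exact IsScalarTower.algebraMap_apply F ℝ (TensorProduct F ℝ L) r
            change e (Ideal.Quotient.mk I.asIdeal
              ((Algebra.TensorProduct.includeRight : L →ₐ[F] TensorProduct F ℝ L)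
                (algebraMap F L r))) = _
            rw [h1]
            exact e.commutes (algebraMap F ℝ r) }
      have h2 : 0 < e (Ideal.Quotient.mk I.asIdeal
          ((Algebra.TensorProduct.includeRight : L →ₐ[F] TensorProduct F ℝ L) x)) := hx τ
      refine ⟨e.symm (Real.sqrt (e (Ideal.Quotient.mk I.asIdeal
          ((Algebra.TensorProduct.includeRight : L →ₐ[F] TensorProduct F ℝ L) x)))), ?_⟩
      apply e.injective
      rw [map_pow, AlgEquiv.apply_symm_apply, Real.sq_sqrt h2.le]
    · -- the complex numbers are algebraically closed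
      obtain ⟨z, hz⟩ := IsAlgClosed.exists_pow_nat_eq (e (Ideal.Quotient.mk I.asIdeal
          ((Algebra.TensorProduct.includeRight : L →ₐ[F] TensorProduct F ℝ L) x)))
          (n := 2) (by norm_num)
      refine ⟨e.symm z, ?_⟩
      apply e.injective
      rw [map_pow, AlgEquiv.apply_symm_apply, hz]
  choose s hs using key
  refine ⟨(IsArtinianRing.equivPi _).symm s, ?_⟩
  apply (IsArtinianRing.equivPi (TensorProduct F ℝ L)).injective
  rw [map_pow, AlgEquiv.apply_symm_apply]
  funext I
  rw [Pi.pow_apply, hs, IsArtinianRing.equivPi_apply]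

/-- The image of a totally positive element under a homomorphism of `L` in a matrix algebra over
`ℝ` has a nonnegative determinant. -/
private theorem np_det {F L : Type} [Field F] [Field L] [CharZero F] [Algebra F L]
    [FiniteDimensional F L] (σ : F →+* ℝ) {n : ℕ} (ψ : L →+* Matrix (Fin n) (Fin n) ℝ)
    (hψ : ∀ r : F, ψ (algebraMap F L r) = algebraMap ℝ _ (σ r)) (x : L)
    (hx : ∀ τ : L →+* ℝ, 0 < τ x) : 0 ≤ (ψ x).det := by
  let _ : Algebra F ℝ := σ.toAlgebra
  obtain ⟨s, hs⟩ := np_sq (F := F) x fun τ => hx (τ : L →+* ℝ)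
  let ψ' : L →ₐ[F] Matrix (Fin n) (Fin n) ℝ := { toRingHom := ψ, commutes' := hψ }
  let Ψ : TensorProduct F ℝ L →ₐ[ℝ] Matrix (Fin n) (Fin n) ℝ :=
    Algebra.TensorProduct.lift (Algebra.ofId ℝ _) ψ' fun a b => Algebra.commutes a (ψ' b)
  have h1 : Ψ (Algebra.TensorProduct.includeRight x) = ψ x := by
    change Ψ (1 ⊗ₜ[F] x) = ψ x
    rw [Algebra.TensorProduct.lift_tmul, map_one, one_mul]
    rfl
  rw [← h1, ← hs, map_pow, Matrix.det_pow]
  exact sq_nonneg _

variable {F : Type} [Field F] [NumberField F]

/-- **NP.** The reduced norm of a totally positive element of `L` is positive. -/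
theorem det_pos {A : AD F} {L : Type} [Field L] [NumberField L] [Algebra F L]
    (ι : L →ₐ[F] DF A) {x : 𝓞 L} (hx : x ≠ 0) (hpos : TotPos x) (w : SPl A) :
    0 < w.det (ι (x : L)) := by
  have hx0 : (x : L) ≠ 0 := fun h => hx (RingOfIntegers.ext h)
  have hne : w.det (ι (x : L)) ≠ 0 := w.det_ne (uL ι (Units.mk0 (x : L) hx0))
  have hreal : ∀ τ : L →+* ℝ, 0 < τ (x : L) := by
    intro τ
    have h1 : ComplexEmbedding.IsReal (Complex.ofRealHom.comp τ) := by
      refine RingHom.ext fun y => ?_
      exact Complex.conj_ofReal (τ y)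
    have h2 : (InfinitePlace.mk (Complex.ofRealHom.comp τ)).IsReal := ⟨_, h1, rfl⟩
    have h3 := hpos ⟨_, h2⟩
    have h4 : ((InfinitePlace.embedding_of_isReal h2 (x : L) : ℝ) : ℂ) = ((τ (x : L) : ℝ) : ℂ) := by
      rw [InfinitePlace.embedding_of_isReal_apply, InfinitePlace.embedding_mk_eq_of_isReal h1]
      rfl
    rw [Complex.ofReal_injective h4] at h3
    exact h3
  have h5 : 0 ≤ ((w.iso : DE A w.emb →+* Matrix (Fin A.n) (Fin A.n) ℝ).comp
      ((dE A w.emb).comp (ι : L →+* DF A)) (x : L)).det := by
    refine np_det (F := F) w.emb _ (fun r => ?_) (x : L) hreal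
    change w.iso (dE A w.emb (ι (algebraMap F L r))) = _
    rw [AlgHom.commutes, ← w.iso.commutes]
    refine congrArg w.iso (SC.Alg.ext fun i => ?_)
    rw [dE_co, Algebra.algebraMap_eq_smul_one, Algebra.algebraMap_eq_smul_one]
    exact map_mul w.emb r _
  exact lt_of_le_of_ne h5 (Ne.symm hne)

end Pool.Agent.CGN
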