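import Pool.Agent.CG2.Hecke

/-!
# Algebras given by structure constants
-/

noncomputable section

namespace Pool.Agent.CGN

/-- Structure constants of an algebra over `R` with basis `e i`, `i : ι`:
`e i * e j = ∑ k, c i j k • e k`, with the unit element `∑ i, u i • e i`. -/
structure SC (ι R : Type) [Fintype ι] [DecidableEq ι] [CommRing R] where
  /-- the products of the elements of the basis -/
  c : ι → ι → ι → R
  /-- the coordinates of the unit element -/
  u : ι → R
  assoc : ∀ i j k l, ∑ m, c i j m * c m k l = ∑ m, c j k m * c i m l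
  one_mul : ∀ j k, ∑ i, u i * c i j k = if j = k then 1 else 0
  mul_one : ∀ i k, ∑ j, u j * c i j k = if i = k then 1 else 0

variable {ι : Type} [Fintype ι] [DecidableEq ι] {R : Type} [CommRing R]

/-- The image of the structure constants under a homomorphism. -/
def SC.map (s : SC ι R) {S : Type} [CommRing S] (f : R →+* S) : SC ι S where
  c i j k := f (s.c i j k)
  u i := f (s.u i)
  assoc i j k l := by
    have h := congrArg f (s.assoc i j k l)
    simpa only [map_sum, map_mul] using h
  one_mul j k := by
    have h := congrArg f (s.one_mul j k)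
    rw [map_sum] at h
    simp only [map_mul] at h
    rw [h, apply_ite f, map_one, map_zero]
  mul_one i k := by
    have h := congrArg f (s.mul_one i k)
    rw [map_sum] at h
    simp only [map_mul] at h
    rw [h, apply_ite f, map_one, map_zero]

/-- The algebra with the structure constants `s`: the free module with basis indexed by `ι`. -/
def SC.Alg (_ : SC ι R) : Type := ι → R

variable {s : SC ι R}

instance : AddCommGroup s.Alg := (inferInstance : AddCommGroup (ι → R))

instance : Module R s.Alg := (inferInstance : Module R (ι → R))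

/-- The coordinates of an element. -/
def SC.Alg.co (x : s.Alg) (i : ι) : R := x i

/-- The element with the given coordinates. -/
def SC.Alg.mk (x : ι → R) : s.Alg := x

theorem SC.Alg.ext {x y : s.Alg} (h : ∀ i, x.co i = y.co i) : x = y := funext h

theorem SC.Alg.ext_iff' {x y : s.Alg} : x = y ↔ ∀ i, x.co i = y.co i :=
  ⟨fun h _ => by rw [h], SC.Alg.ext⟩

@[simp] theorem SC.Alg.co_mk (x : ι → R) (i : ι) : (SC.Alg.mk x : s.Alg).co i = x i := rfl

@[simp] theorem SC.Alg.co_add (x y : s.Alg) (i : ι) : (x + y).co i = x.co i + y.co i := rfl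

@[simp] theorem SC.Alg.co_zero (i : ι) : (0 : s.Alg).co i = 0 := rfl

@[simp] theorem SC.Alg.co_neg (x : s.Alg) (i : ι) : (-x).co i = -x.co i := rfl

@[simp] theorem SC.Alg.co_sub (x y : s.Alg) (i : ι) : (x - y).co i = x.co i - y.co i := rfl

@[simp] theorem SC.Alg.co_smul (r : R) (x : s.Alg) (i : ι) : (r • x).co i = r * x.co i := rfl

/-- The product. -/
def SC.Alg.mul' (x y : s.Alg) : s.Alg := fun k => ∑ i, ∑ j, x.co i * y.co j * s.c i j k

instance : Mul s.Alg := ⟨SC.Alg.mul'⟩

instance : One s.Alg := ⟨fun i => s.u i⟩

@[simp] theorem SC.Alg.co_mul (x y : s.Alg) (k : ι) :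
    (x * y).co k = ∑ i, ∑ j, x.co i * y.co j * s.c i j k := rfl

@[simp] theorem SC.Alg.co_one (i : ι) : (1 : s.Alg).co i = s.u i := rfl

private theorem alg_one_mul (x : s.Alg) : 1 * x = x := by
  apply SC.Alg.ext
  intro k
  rw [SC.Alg.co_mul, Finset.sum_comm]
  have h : ∀ j, ∑ i, (1 : s.Alg).co i * x.co j * s.c i j k =
      x.co j * (if j = k then 1 else 0) := by
    intro j
    rw [← s.one_mul j k, Finset.mul_sum]
    refine Finset.sum_congr rfl fun i _ => ?_
    rw [SC.Alg.co_one]
    ring
  rw [Finset.sum_congr rfl fun j _ => h j]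
  simp

private theorem alg_mul_one (x : s.Alg) : x * 1 = x := by
  apply SC.Alg.ext
  intro k
  rw [SC.Alg.co_mul]
  have h : ∀ i, ∑ j, x.co i * (1 : s.Alg).co j * s.c i j k =
      x.co i * (if i = k then 1 else 0) := by
    intro i
    rw [← s.mul_one i k, Finset.mul_sum]
    refine Finset.sum_congr rfl fun j _ => ?_
    rw [SC.Alg.co_one]
    ring
  rw [Finset.sum_congr rfl fun i _ => h i]
  simp

private theorem alg_mul_assoc (x y z : s.Alg) : x * y * z = x * (y * z) := by
  apply SC.Alg.ext
  intro l
  simp only [SC.Alg.co_mul]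
  have h1 : ∀ m k, (∑ i, ∑ j, x.co i * y.co j * s.c i j m) * z.co k * s.c m k l =
      ∑ i, ∑ j, x.co i * y.co j * z.co k * (s.c i j m * s.c m k l) := by
    intro m k
    rw [Finset.sum_mul, Finset.sum_mul]
    refine Finset.sum_congr rfl fun i _ => ?_
    rw [Finset.sum_mul, Finset.sum_mul]
    refine Finset.sum_congr rfl fun j _ => ?_
    ring
  have h2 : ∀ i m, x.co i * (∑ j, ∑ k, y.co j * z.co k * s.c j k m) * s.c i m l =
      ∑ j, ∑ k, x.co i * y.co j * z.co k * (s.c j k m * s.c i m l) := by
    intro i m
    rw [Finset.mul_sum, Finset.sum_mul]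
    refine Finset.sum_congr rfl fun j _ => ?_
    rw [Finset.mul_sum, Finset.sum_mul]
    refine Finset.sum_congr rfl fun k _ => ?_
    ring
  simp only [h1, h2]
  -- left: ∑ m k i j; right: ∑ i m j k
  have e1 : ∑ m, ∑ k, ∑ i, ∑ j, x.co i * y.co j * z.co k * (s.c i j m * s.c m k l) =
      ∑ i, ∑ j, ∑ k, ∑ m, x.co i * y.co j * z.co k * (s.c i j m * s.c m k l) := by
    rw [Finset.sum_comm]
    rw [Finset.sum_congr rfl fun k _ => Finset.sum_comm]
    rw [Finset.sum_comm]
    refine Finset.sum_congr rfl fun i _ => ?_
    rw [Finset.sum_congr rfl fun k _ => Finset.sum_comm]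
    rw [Finset.sum_comm]
  have e2 : ∑ i, ∑ m, ∑ j, ∑ k, x.co i * y.co j * z.co k * (s.c j k m * s.c i m l) =
      ∑ i, ∑ j, ∑ k, ∑ m, x.co i * y.co j * z.co k * (s.c j k m * s.c i m l) := by
    refine Finset.sum_congr rfl fun i _ => ?_
    rw [Finset.sum_comm]
    refine Finset.sum_congr rfl fun j _ => ?_
    rw [Finset.sum_comm]
  rw [e1, e2]
  refine Finset.sum_congr rfl fun i _ => Finset.sum_congr rfl fun j _ =>
    Finset.sum_congr rfl fun k _ => ?_
  rw [← Finset.mul_sum, ← Finset.mul_sum, s.assoc]

instance : Ring s.Alg :=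
  { (inferInstance : AddCommGroup s.Alg) with
    mul := (· * ·)
    one := 1
    mul_assoc := alg_mul_assoc
    one_mul := alg_one_mul
    mul_one := alg_mul_one
    left_distrib := by
      intro x y z
      apply SC.Alg.ext
      intro k
      simp only [SC.Alg.co_mul, SC.Alg.co_add, mul_add, add_mul, Finset.sum_add_distrib]
    right_distrib := by
      intro x y z
      apply SC.Alg.ext
      intro k
      simp only [SC.Alg.co_mul, SC.Alg.co_add, add_mul, Finset.sum_add_distrib]
    zero_mul := by
      intro x
      apply SC.Alg.ext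
      intro k
      simp
    mul_zero := by
      intro x
      apply SC.Alg.ext
      intro k
      simp }

theorem SC.Alg.smul_mul' (r : R) (x y : s.Alg) : r • x * y = r • (x * y) := by
  apply SC.Alg.ext
  intro k
  simp only [SC.Alg.co_mul, SC.Alg.co_smul, Finset.mul_sum, mul_assoc]

theorem SC.Alg.mul_smul' (r : R) (x y : s.Alg) : x * r • y = r • (x * y) := by
  apply SC.Alg.ext
  intro k
  simp only [SC.Alg.co_mul, SC.Alg.co_smul, Finset.mul_sum]
  refine Finset.sum_congr rfl fun i _ => Finset.sum_congr rfl fun j _ => ?_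
  ring

instance : Algebra R s.Alg := Algebra.ofModule SC.Alg.smul_mul' SC.Alg.mul_smul'

/-- The coordinates as a linear equivalence. -/
def SC.lin (s : SC ι R) : s.Alg ≃ₗ[R] (ι → R) := LinearEquiv.refl R (ι → R)

@[simp] theorem SC.lin_apply (x : s.Alg) (i : ι) : s.lin x i = x.co i := rfl

instance : Module.Finite R s.Alg := (inferInstance : Module.Finite R (ι → R))

instance : Module.Free R s.Alg := (inferInstance : Module.Free R (ι → R))

/-- The homomorphism given by a homomorphism of the rings of scalars. -/
def SC.hom (s : SC ι R) {S : Type} [CommRing S] (f : R →+* S) : s.Alg →+* (s.map f).Alg where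
  toFun x := fun i => f (x.co i)
  map_one' := rfl
  map_zero' := by
    apply SC.Alg.ext
    intro i
    exact map_zero f
  map_add' x y := by
    apply SC.Alg.ext
    intro i
    exact map_add f _ _
  map_mul' x y := by
    apply SC.Alg.ext
    intro k
    change f (∑ i, ∑ j, x.co i * y.co j * s.c i j k) =
      ∑ i, ∑ j, f (x.co i) * f (y.co j) * f (s.c i j k)
    simp only [map_sum, map_mul]

@[simp] theorem SC.hom_co {S : Type} [CommRing S] (f : R →+* S) (x : s.Alg) (i : ι) :
    (s.hom f x).co i = f (x.co i) := rfl

section top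

variable [TopologicalSpace R]

/-- The topology given by the coordinates. -/
instance topAlg : TopologicalSpace s.Alg := (inferInstance : TopologicalSpace (ι → R))

theorem continuous_co (i : ι) : Continuous fun x : s.Alg => x.co i := continuous_apply i

theorem continuous_alg {X : Type} [TopologicalSpace X] {f : X → s.Alg}
    (h : ∀ i, Continuous fun x => (f x).co i) : Continuous f := continuous_pi h

instance [T2Space R] : T2Space s.Alg := (inferInstance : T2Space (ι → R))

instance [CompactSpace R] : CompactSpace s.Alg := (inferInstance : CompactSpace (ι → R))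

instance [IsTopologicalRing R] : ContinuousMul s.Alg where
  continuous_mul := by
    refine continuous_alg fun k => ?_
    have h : ∀ i : ι, Continuous fun x : s.Alg × s.Alg => x.1.co i :=
      fun i => (continuous_co i).comp continuous_fst
    have h' : ∀ i : ι, Continuous fun x : s.Alg × s.Alg => x.2.co i :=
      fun i => (continuous_co i).comp continuous_snd
    simp only [SC.Alg.co_mul]
    exact continuous_finset_sum _ fun i _ => continuous_finset_sum _ fun j _ =>
      ((h i).mul (h' j)).mul continuous_const

end top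

end Pool.Agent.CGN
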