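import Pool.Agent.CGN.TBE
import Pool.Agent.CGN.LInv
import Pool.Agent.CGQ.LEB

/-!
# The families of the eigenclasses in the top degrees
-/

noncomputable section

namespace Pool.Agent.CGN

open NumberField IsDedekindDomain CategoryTheory
open Pool.Agent.CG2 (Pl)
open Pool.Agent.CGQ

variable {F : Type} [Field F] [NumberField F] {n : ℕ} {𝒟 : Sys F} {S : Set (Pl F)}
  {Φ : Chart n 𝒟 S}
variable {K : Subgroup 𝒟.A} {O : Type} [CommRing O]

/-- The eigenvalue of the operator with `k` entries `π`, `k = 0, …, n`. -/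
def lk {κ : Type} [Field κ] (a : Option (Fin n) → κ) (k : ℕ) : κ :=
  if h : 0 < k ∧ k ≤ n then a (some ⟨k - 1, by omega⟩) else 1

theorem lk_zero {κ : Type} [Field κ] (a : Option (Fin n) → κ) : lk a 0 = 1 :=
  dif_neg (by omega)

theorem lk_succ {κ : Type} [Field κ] (a : Option (Fin n) → κ) (j : Fin n) :
    lk a ((j : ℕ) + 1) = a (some j) := by
  rw [lk, dif_pos ⟨Nat.succ_pos _, j.2⟩]
  rfl

theorem lk_eq {κ : Type} [Field κ] (a : Option (Fin n) → κ) (j : Fin n) {k : ℕ}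
    (h : (j : ℕ) + 1 = k) : lk a k = a (some j) := by
  subst h
  exact lk_succ a j

/-- The eigenvalues of the dual family. -/
def dualL {κ : Type} [Field κ] (a : Option (Fin n) → κ) : Option (Fin n) → κ
  | none => lk a n
  | some j => lk a (n - (j + 1)) * a none

theorem dcos_dgk_zero (v : Pl F) :
    dcos v (dgk n v 0)⁻¹ = {((1 : GQ n v) : GQ n v ⧸ GZ n v)} := by
  rw [dgk_zero, inv_one, dcos_one]

theorem dcos_scalar (v : Pl F) :
    dcos v (dgk n v n) = {((dgk n v n : GQ n v) : GQ n v ⧸ GZ n v)} := by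
  ext c
  simp only [dcos, Set.mem_ofPred_eq, Set.mem_singleton_iff]
  constructor
  · rintro ⟨k, hk, rfl⟩
    rw [dgk_comm, eq_comm, QuotientGroup.eq, inv_mul_cancel_left]
    exact hk
  · rintro rfl
    exact ⟨1, (GZ n v).one_mem, by rw [one_mul]⟩

theorem dcos_scalar_inv (v : Pl F) :
    dcos v (dgk n v n)⁻¹ = {(((dgk n v n)⁻¹ : GQ n v) : GQ n v ⧸ GZ n v)} := by
  ext c
  simp only [dcos, Set.mem_ofPred_eq, Set.mem_singleton_iff]
  constructor
  · rintro ⟨k, hk, rfl⟩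
    rw [dgk_comm_inv, eq_comm, QuotientGroup.eq, inv_mul_cancel_left]
    exact hk
  · rintro rfl
    exact ⟨1, (GZ n v).one_mem, by rw [one_mul]⟩

/-- The representative of the coset of `a`. -/
private theorem TCA_out {v : Pl F} (a : GQ n v) (c : GQ n v ⧸ GZ n v)
    (hc : c = ((a : GQ n v) : GQ n v ⧸ GZ n v)) : ∃ k ∈ GZ n v, Quotient.out c = a * k := by
  have h1 : ((Quotient.out c : GQ n v) : GQ n v ⧸ GZ n v) = ((a : GQ n v) : GQ n v ⧸ GZ n v) := by
    rw [← hc]
    exact Quotient.out_eq' _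
  exact ⟨a⁻¹ * Quotient.out c, QuotientGroup.eq.1 h1.symm, (mul_inv_cancel_left _ _).symm⟩

/-- `R_v` is invertible. -/
theorem eig_none_mul (hn : 0 < n) {W : Type} [AddCommGroup W] [Module O W]
    {τ : Representation O K W}
    (hU : UnramOff K τ Φ) (i : ℕ) (m : Ideal (HeckeAlg n S O)) (hm : ¬ Dead K τ hU i m)
    (κ : Type) [Field κ] [Algebra (HeckeAlg n S O ⧸ m) κ] (v : {v : Pl F // v ∉ S}) :
    lk (fun j => eig m κ (v, j)) n * eig m κ (v, none) = 1 := by
  obtain ⟨l, hl⟩ : ∃ l : Fin n, (l : ℕ) + 1 = n := ⟨⟨n - 1, by omega⟩, by simp; omega⟩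
  have hlk : lk (fun j => eig m κ (v, j)) n = eig m κ (v, some l) := lk_eq _ l hl
  rw [hlk]
  have h1 : heckeCoh K τ hU i (v, some l) * heckeCoh K τ hU i (v, none) = 1 := by
    have h2 : heckeHom K τ hU (v, none) ≫ heckeHom K τ hU (v, some l) = 𝟙 (coeff K τ) := by
      apply rep_hom_ext
      intro f
      apply Subtype.ext
      funext y
      have e0 : ∀ (a : GQ n v.1) (s : Finset (GQ n v.1 ⧸ GZ n v.1)),
          s = {((a : GQ n v.1) : GQ n v.1 ⧸ GZ n v.1)} → ∀ (g : Forms K τ) (y : 𝒟.Pt),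
          ∑ c ∈ s, g.1 (rt y (sg Φ v (Quotient.out c))) = g.1 (rt y (sg Φ v a)) := by
        intro a s hs g y
        rw [hs, Finset.sum_singleton]
        apply forms_congr_coset g (hU v)
        exact Quotient.out_eq' _
      have e1 : ∀ (g : Forms K τ) (y : 𝒟.Pt), (heckeLin K τ hU (v, some l) g).1 y =
          g.1 (rt y (sg Φ v (dgk n v.1 n))) := by
        intro g y
        refine e0 _ _ ?_ g y
        ext c
        rw [Set.Finite.mem_toFinset, cosets, alpha, Option.elim_some, hl, dcos_scalar]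
        simp
      have e2 : ∀ (g : Forms K τ) (y : 𝒟.Pt), (heckeLin K τ hU (v, none) g).1 y =
          g.1 (rt y (sg Φ v (dgk n v.1 n)⁻¹)) := by
        intro g y
        refine e0 _ _ ?_ g y
        ext c
        rw [Set.Finite.mem_toFinset, cosets, alpha, Option.elim_none, dcos_scalar_inv]
        simp
      change (heckeLin K τ hU (v, some l) (heckeLin K τ hU (v, none) f)).1 y = f.1 y
      rw [e1, e2, ← rt_mul, ← map_mul, mul_inv_cancel, map_one, rt_one]
    have h3 := congrArg (fun a => ((groupCohomology.functor O 𝒟.G i).map a).hom) h2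
    simp only [CategoryTheory.Functor.map_comp, ModuleCat.hom_comp,
      CategoryTheory.Functor.map_id] at h3
    exact h3
  have h4 : hact K τ hU i (MvPolynomial.X (v, some l) * MvPolynomial.X (v, none) - 1) = 0 := by
    rw [map_sub, map_mul, hact_X, hact_X, h1, map_one, sub_self]
  have h5 : MvPolynomial.X (v, some l) * MvPolynomial.X (v, none) - 1 ∈ m := by
    by_contra h6
    apply hm
    intro z
    exact ⟨_, h6, by rw [h4]; rfl⟩
  have h7 := Ideal.Quotient.eq_zero_iff_mem.2 h5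
  rw [map_sub, map_mul, map_one, sub_eq_zero] at h7
  have h8 := congrArg (algebraMap (HeckeAlg n S O ⧸ m) κ) h7
  rw [map_mul, map_one] at h8
  exact h8

/-- The characteristic. -/
theorem char_of_not_dead [IsLocalRing O] {p : ℕ} (hp : p.Prime)
    [CharP (IsLocalRing.ResidueField O) p] (hΦ : HypOff K Φ) (i : ℕ)
    (m : Ideal (HeckeAlg n S O))
    (hm : ¬ Dead K (triv K O (IsLocalRing.ResidueField O)) (unram_triv hΦ) i m)
    (κ : Type) [Field κ] [Algebra (HeckeAlg n S O ⧸ m) κ] : CharP κ p := by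
  have hpm : (p : O) ∈ IsLocalRing.maximalIdeal O := by
    rw [← IsLocalRing.residue_eq_zero_iff, map_natCast]
    exact CharP.cast_eq_zero _ p
  have h4 : ∀ z, hact K (triv K O (IsLocalRing.ResidueField O)) (unram_triv hΦ) i
      (algebraMap O (HeckeAlg n S O) (p : O)) z = 0 := by
    intro z
    rw [AlgHom.commutes, Module.algebraMap_end_apply]
    exact coh_killed K i _ hpm z
  have h5 : algebraMap O (HeckeAlg n S O) (p : O) ∈ m := by
    by_contra h6
    apply hm
    intro z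
    exact ⟨_, h6, h4 z⟩
  have h7 := Ideal.Quotient.eq_zero_iff_mem.2 h5
  have h8 := congrArg (algebraMap (HeckeAlg n S O ⧸ m) κ) h7
  rw [map_natCast, map_natCast, map_natCast, map_zero] at h8
  exact (CharP.charP_iff_prime_eq_zero hp).2 h8

/-- The eigenfunctional. -/
private theorem TCA_phi [IsNoetherianRing O] [IsLocalRing O] (T : TSys K)
    (hΦ : HypOff K Φ) (d : ℕ) (m : Ideal (HeckeAlg n S O)) [m.IsMaximal]
    (hm : ¬ Dead K (triv K O (IsLocalRing.ResidueField O)) (unram_triv hΦ) d m)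
    (κ : Type) [Field κ] [Algebra (HeckeAlg n S O ⧸ m) κ] :
    ∃ φ : groupCohomology (coeff K (triv K O (IsLocalRing.ResidueField O))) d →+ κ,
      (∃ z, φ z ≠ 0) ∧
      (∀ (c : O) z, φ z = 0 → φ (c • z) = 0) ∧
      ∀ (t : Idx n S) z, φ (heckeCoh K (triv K O (IsLocalRing.ResidueField O))
        (unram_triv hΦ) d t z) = eig m κ t * φ z := by
  have iO : Module.Finite O (IsLocalRing.ResidueField O) :=
    Module.Finite.of_surjective (Algebra.linearMap O (IsLocalRing.ResidueField O))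
      IsLocalRing.residue_surjective
  have iH : Module.Finite O (groupCohomology
      (coeff K (triv K O (IsLocalRing.ResidueField O))) d) :=
    coeff_fg T d (IsLocalRing.ResidueField O) (triv K O (IsLocalRing.ResidueField O))
  have hm' : ∃ z, ∀ t ∉ m, hact K (triv K O (IsLocalRing.ResidueField O))
      (unram_triv hΦ) d t z ≠ 0 := by
    by_contra hc
    push Not at hc
    exact hm hc
  obtain ⟨φ₀, hφ₀, hφt⟩ := Pool.Agent.CG2.exists_eigf _ m hm'
  let iFd : Field (HeckeAlg n S O ⧸ m) := Ideal.Quotient.field m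
  have hinj : Function.Injective (algebraMap (HeckeAlg n S O ⧸ m) κ) :=
    (algebraMap (HeckeAlg n S O ⧸ m) κ).injective
  refine ⟨(algebraMap (HeckeAlg n S O ⧸ m) κ).toAddMonoidHom.comp φ₀, ?_, ?_, ?_⟩
  · by_contra hc
    push Not at hc
    apply hφ₀
    apply AddMonoidHom.ext
    intro z
    apply hinj
    exact (hc z).trans (map_zero _).symm
  · intro c z hz
    have h1 : c • z = hact K (triv K O (IsLocalRing.ResidueField O))
        (unram_triv hΦ) d (algebraMap O (HeckeAlg n S O) c) z := by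
      rw [AlgHom.commutes, Module.algebraMap_end_apply]
    change algebraMap (HeckeAlg n S O ⧸ m) κ (φ₀ (c • z)) = 0
    rw [h1, hφt, map_mul]
    rw [show algebraMap (HeckeAlg n S O ⧸ m) κ (φ₀ z) = 0 from hz, mul_zero]
  · intro t z
    change algebraMap (HeckeAlg n S O ⧸ m) κ (φ₀ _) = _ * algebraMap (HeckeAlg n S O ⧸ m) κ (φ₀ z)
    rw [← hact_X, hφt, map_mul]
    rfl

/-- a functional which vanishes on a spanning set is zero -/
private theorem TCA_span {M κ : Type} [AddCommGroup M] [Module O M] [Field κ] (φ : M →+ κ)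
    (h : ∀ (c : O) z, φ z = 0 → φ (c • z) = 0) (X : Set M) (hX : ∀ x ∈ X, φ x = 0) (z : M)
    (hz : z ∈ Submodule.span O X) : φ z = 0 := by
  induction hz using Submodule.span_induction with
  | mem x hx => exact hX x hx
  | zero => exact map_zero φ
  | add x y _ _ hx hy => rw [map_add, hx, hy, add_zero]
  | smul c x _ hx => exact h c x hx

private theorem TCA_locZ_pow (Φ : Chart n 𝒟 S) (v : {v : Pl F // v ∉ S}) (y : 𝒟.Pt) (γ : 𝒟.G)
    (i : ℕ) : locZ Φ v y (γ ^ i) = locZ Φ v y γ ^ i := by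
  induction i with
  | zero => rw [pow_zero, pow_zero, locZ, map_one, mul_one, inv_mul_cancel, map_one]
  | succ i ih =>
    rw [pow_succ, pow_succ, ← ih, locZ, locZ, locZ, ← map_mul, map_mul (𝒟.loc v.1)]
    congr 1
    simp only [mul_assoc, mul_inv_cancel_left]

private theorem TCA_stab_nb (hΦ : HypOff K Φ) (v : {v : Pl F // v ∉ S}) {y : 𝒟.Pt} {γ : 𝒟.G}
    (hγ : γ ∈ Stab K y) (c : GQ n v.1 ⧸ GZ n v.1) :
    γ ^ Function.minimalPeriod (fun c => locZ Φ v y γ • c) c ∈ Stab K (nb Φ v y c) := by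
  obtain ⟨i, hn⟩ : ∃ i, i = Function.minimalPeriod (fun c => locZ Φ v y γ • c) c := ⟨_, rfl⟩
  rw [← hn, mem_Stab, act_nb (hΦ v) (Subgroup.pow_mem _ hγ i), TCA_locZ_pow]
  have h2 : locZ Φ v y γ ^ i • c = c := by
    have h3 := Function.iterate_minimalPeriod (f := fun c => locZ Φ v y γ • c) (x := c)
    rw [← hn, smul_iterate] at h3
    exact h3
  rw [h2]

/-- A function of the points (and of `γ`) with the Hecke relations for the inverse cosets satisfies
those for the cosets with the dual eigenvalues. -/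
private theorem TCA_conv (hn : 0 < n) (hΦ : HypOff K Φ) {κ : Type} [Field κ]
    (v : {v : Pl F // v ∉ S}) (a : Option (Fin n) → κ) (ha : lk a n * a none = 1)
    (h : 𝒟.Pt → 𝒟.G → κ) (h_rt : ∀ y, ∀ k ∈ K, ∀ γ, h (rt y k) γ = h y γ)
    (P : 𝒟.G → Prop) (hP : ∀ γ, P γ → ∀ i : ℕ, P (γ ^ i))
    (hhecke : ∀ (j : Option (Fin n)) y γ, P γ → γ ∈ Stab K y →
      ∀ R : Finset (GQ n v.1 ⧸ GZ n v.1),
      Reps (fun c => locZ Φ v y γ • c) (cosetsInv_finite v.1 j).toFinset R →
      a j * h y γ = ∑ c ∈ R, h (nb Φ v y c)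
        (γ ^ Function.minimalPeriod (fun c => locZ Φ v y γ • c) c))
    (j : Option (Fin n)) (y : 𝒟.Pt) (γ : 𝒟.G) (hPγ : P γ) (hγ : γ ∈ Stab K y)
    (R : Finset (GQ n v.1 ⧸ GZ n v.1))
    (hR : Reps (fun c => locZ Φ v y γ • c) (cosets_finite v.1 j).toFinset R) :
    ∑ c ∈ R, h (nb Φ v y c) (γ ^ Function.minimalPeriod (fun c => locZ Φ v y γ • c) c) =
      dualL a j * h y γ := by
  have hGZ : ∀ (y : 𝒟.Pt) (γ : 𝒟.G) (k : GQ n v.1), k ∈ GZ n v.1 →
      h (rt y (sg Φ v k)) γ = h y γ := fun y γ k hk => h_rt y _ ((hΦ v).sg_mem hk) γ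
  -- the relations with the `lk`
  have key : ∀ (k : ℕ), k ≤ n → ∀ y γ, P γ → γ ∈ Stab K y → ∀ R : Finset (GQ n v.1 ⧸ GZ n v.1),
      Reps (fun c => locZ Φ v y γ • c) (dcos_finite v.1 (dgk n v.1 k)⁻¹).toFinset R →
      lk a k * h y γ = ∑ c ∈ R, h (nb Φ v y c)
        (γ ^ Function.minimalPeriod (fun c => locZ Φ v y γ • c) c) := by
    intro k hk y γ hPγ hγ R hR
    rcases Nat.eq_zero_or_pos k with h0 | h0
    · subst h0
      obtain ⟨c0, hc0⟩ : ∃ c0 : GQ n v.1 ⧸ GZ n v.1,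
        c0 = (((1 : GQ n v.1) : GQ n v.1 ⧸ GZ n v.1)) := ⟨_, rfl⟩
      have e2 : (dcos_finite v.1 (dgk n v.1 0)⁻¹).toFinset = {c0} := by
        ext c
        rw [Set.Finite.mem_toFinset, dcos_dgk_zero, ← hc0]
        simp
      rw [e2] at hR
      have e3 : R = {c0} := by
        apply Finset.Subset.antisymm hR.sub
        intro c hc
        obtain ⟨r, hr, -, -⟩ := hR.ex c hc
        have h1 := hR.sub hr
        rw [Finset.mem_singleton] at h1 hc
        rw [hc, ← h1]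
        exact hr
      have e6 : Function.minimalPeriod (fun c => locZ Φ v y γ • c) c0 = 1 := by
        rw [Function.minimalPeriod_eq_one_iff_isFixedPt]
        change locZ Φ v y γ • c0 = c0
        rw [hc0]
        change ((locZ Φ v y γ * 1 : GQ n v.1) : GQ n v.1 ⧸ GZ n v.1) = _
        rw [mul_one, eq_comm, QuotientGroup.eq, inv_one, one_mul]
        exact locZ_mem (hΦ v) hγ
      obtain ⟨k, hk, hout⟩ := TCA_out (1 : GQ n v.1) c0 hc0
      rw [e3, Finset.sum_singleton, e6, pow_one, lk_zero, one_mul, nb, hout, one_mul,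
        hGZ _ γ k hk]
    · obtain ⟨l, hl⟩ : ∃ l : Fin n, (l : ℕ) + 1 = k := ⟨⟨k - 1, by omega⟩, by simp; omega⟩
      subst hl
      rw [lk_succ]
      exact hhecke (some l) y γ hPγ hγ R hR
  have hrinv : ∀ y γ, P γ → γ ∈ Stab K y →
      h (rt y (sg Φ v (dgk n v.1 n)⁻¹)) γ = lk a n * h y γ := by
    intro y γ hPγ hγ
    obtain ⟨c0, hc0⟩ : ∃ c0 : GQ n v.1 ⧸ GZ n v.1,
      c0 = (((dgk n v.1 n)⁻¹ : GQ n v.1) : GQ n v.1 ⧸ GZ n v.1) := ⟨_, rfl⟩
    have e2 : (dcos_finite v.1 (dgk n v.1 n)⁻¹).toFinset = {c0} := by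
      ext c
      rw [Set.Finite.mem_toFinset, dcos_scalar_inv, ← hc0]
      simp
    have e3 : locZ Φ v y γ • c0 = c0 := by
      have e4 := locZ_mem (hΦ v) hγ
      rw [hc0]
      change ((locZ Φ v y γ * (dgk n v.1 n)⁻¹ : GQ n v.1) : GQ n v.1 ⧸ GZ n v.1) = _
      rw [dgk_comm_inv, eq_comm, QuotientGroup.eq, inv_mul_cancel_left]
      exact e4
    have hR : Reps (fun c => locZ Φ v y γ • c)
        (dcos_finite v.1 (dgk n v.1 n)⁻¹).toFinset {c0} := by
      rw [e2]
      refine ⟨subset_rfl, fun c hc => ⟨c, hc, 0, rfl⟩, ?_⟩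
      intro r hr r' hr' _ _
      rw [Finset.mem_singleton] at hr hr'
      rw [hr, hr']
    have e1 := key n le_rfl y γ hPγ hγ {c0} hR
    have e6 : Function.minimalPeriod (fun c => locZ Φ v y γ • c) c0 = 1 := by
      rw [Function.minimalPeriod_eq_one_iff_isFixedPt]
      exact e3
    rw [e1, Finset.sum_singleton, e6, pow_one]
    obtain ⟨k, hk, hout⟩ := TCA_out (dgk n v.1 n)⁻¹ c0 hc0
    rw [nb, hout, map_mul, rt_mul, hGZ _ γ k hk]
  cases j with
  | none => exact (key n le_rfl y γ hPγ hγ R hR).symm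
  | some j =>
    have hj := j.2
    have hkm : (j : ℕ) + 1 + (n - (j + 1)) = n := by omega
    obtain ⟨hR', hmp⟩ := reps_inv hkm (locZ Φ v y γ) R hR
    have e1 := key (n - (j + 1)) (Nat.sub_le _ _) y γ hPγ hγ _ hR'
    rw [Finset.sum_map] at e1
    have e3 : ∀ c : GQ n v.1 ⧸ GZ n v.1,
        h (nb Φ v y ((dgk n v.1 n)⁻¹ • c))
          (γ ^ Function.minimalPeriod (fun c => locZ Φ v y γ • c) ((dgk n v.1 n)⁻¹ • c)) =
        lk a n * h (nb Φ v y c)
          (γ ^ Function.minimalPeriod (fun c => locZ Φ v y γ • c) c) := by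
      intro c
      rw [hmp c, ← hrinv _ _ (hP γ hPγ _) (TCA_stab_nb hΦ v hγ c)]
      have e4 : ((dgk n v.1 n)⁻¹ • c : GQ n v.1 ⧸ GZ n v.1) =
          ((Quotient.out c * (dgk n v.1 n)⁻¹ : GQ n v.1) : GQ n v.1 ⧸ GZ n v.1) := by
        have e5 : ((Quotient.out c : GQ n v.1) : GQ n v.1 ⧸ GZ n v.1) = c := Quotient.out_eq' _
        rw [dgk_comm_inv]
        conv_lhs => rw [← e5]
        rfl
      obtain ⟨k, hk, hout⟩ := TCA_out _ _ e4
      rw [nb, hout, map_mul, rt_mul, hGZ _ _ k hk, map_mul, rt_mul]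
      rfl
    change _ = ∑ c ∈ R, h (nb Φ v y ((dgk n v.1 n)⁻¹ • c))
          (γ ^ Function.minimalPeriod (fun c => locZ Φ v y γ • c) ((dgk n v.1 n)⁻¹ • c)) at e1
    simp only [e3] at e1
    rw [← Finset.mul_sum] at e1
    change _ = lk a (n - (j + 1)) * a none * h y γ
    rw [mul_right_comm, e1, mul_right_comm, ha, one_mul]

/-- The family in the top degree. -/
theorem exists_top_fam (hn : 0 < n) [IsNoetherianRing O] [IsLocalRing O] (T : TSys K)
    (hK : OC K) (hΦ : HypOff K Φ) (m : Ideal (HeckeAlg n S O)) [m.IsMaximal]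
    (hm : ¬ Dead K (triv K O (IsLocalRing.ResidueField O)) (unram_triv hΦ) T.C.n0 m)
    (κ : Type) [Field κ] [Algebra (HeckeAlg n S O ⧸ m) κ] :
    ∃ E : PtFam K Φ κ T.ε (fun v => dualL fun j => eig m κ (v, j)), ∃ y, E.h y ≠ 0 := by
  obtain ⟨ω, hω⟩ := exists_gen (k := IsLocalRing.ResidueField O) T hK
    IsLocalRing.residue_surjective
  obtain ⟨φ, hφ0, hφs, hφt⟩ := TCA_phi T hΦ T.C.n0 m hm κ
  obtain ⟨h, hh⟩ : ∃ h : 𝒟.Pt → κ, h = fun y =>
      φ (mapCoh (piHom hK O (IsLocalRing.ResidueField O) y) T.C.n0 ω) := ⟨_, rfl⟩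
  have h_rt : ∀ y, ∀ k ∈ K, h (rt y k) = h y := by
    intro y k hk
    rw [hh]
    simp only
    rw [piHom_rt hK y hk]
  have h_act : ∀ y (δ : 𝒟.G), h (act δ y) = (((T.ε δ : ℤˣ) : ℤ) : κ) * h y := by
    intro y δ
    have e1 : h y = (((T.ε δ : ℤˣ) : ℤ) : κ) * h (act δ y) := by
      rw [hh]
      simp only
      rw [← rho_pi hK δ y, mapCoh_comp, hω.rho δ, map_zsmul, map_zsmul, zsmul_eq_mul]
    rw [e1, ← mul_assoc, ← Int.cast_mul, ← Units.val_mul, Int.units_mul_self, Units.val_one,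
      Int.cast_one, one_mul]
  have hhecke : ∀ (t : Idx n S) y, eig m κ t * h y =
      ∑ c ∈ (cosetsInv_finite t.1.1 t.2).toFinset, h (rt y (sg Φ t.1 (Quotient.out c))) := by
    intro t y
    rw [hh]
    simp only
    rw [← hφt, piHom_hecke hK hΦ, map_sum]
  refine ⟨⟨h, h_rt, h_act, ?_⟩, ?_⟩
  · intro v j y
    have hreps : ∀ (s R : Finset (GQ n v.1 ⧸ GZ n v.1)) (y : 𝒟.Pt),
        Reps (fun c => locZ Φ v y (1 : 𝒟.G) • c) s R → R = s := by
      intro s R y hR
      have hid : (fun c : GQ n v.1 ⧸ GZ n v.1 => locZ Φ v y 1 • c) = id := by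
        funext c
        have h1 := TCA_locZ_pow Φ v y (1 : 𝒟.G) 0
        rw [pow_zero, pow_zero] at h1
        rw [h1, one_smul]
        rfl
      apply Finset.Subset.antisymm hR.sub
      intro c hc
      obtain ⟨r', hr', i, hi⟩ := hR.ex c hc
      rw [hid, Function.iterate_id] at hi
      rwa [← hi]
    have hreps' : ∀ (s : Finset (GQ n v.1 ⧸ GZ n v.1)),
        Reps (fun c => locZ Φ v y (1 : 𝒟.G) • c) s s :=
      fun s => ⟨subset_rfl, fun c hc => ⟨c, hc, 0, rfl⟩, fun r hr r' hr' i hi => by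
        have hid : (fun c : GQ n v.1 ⧸ GZ n v.1 => locZ Φ v y 1 • c) = id := by
          funext c
          have h1 := TCA_locZ_pow Φ v y (1 : 𝒟.G) 0
          rw [pow_zero, pow_zero] at h1
          rw [h1, one_smul]
          rfl
        rw [hid, Function.iterate_id] at hi
        exact hi⟩
    refine TCA_conv (𝒟 := 𝒟) (Φ := Φ) hn hΦ v (fun j => eig m κ (v, j))
      (eig_none_mul hn (unram_triv hΦ) T.C.n0 m hm κ v)
      (fun y _ => h y) (fun y k hk _ => h_rt y k hk) (fun γ => γ = 1)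
      (fun γ h1 i => by rw [h1, one_pow]) ?_ j y 1 rfl (Stab K y).one_mem _ (hreps' _)
    rintro j y γ rfl hγ R hR
    have h1 := hhecke (v, j) y
    rw [hreps _ R y hR]
    exact h1
  · by_contra hc
    push Not at hc
    obtain ⟨z, hz⟩ := hφ0
    apply hz
    refine TCA_span φ hφs _ ?_ z (top_span T hK ω hω z)
    rintro _ ⟨y, rfl⟩
    have := hc y
    simp only at this
    rw [hh] at this
    exact this

/-- The family one below the top degree. -/
theorem exists_sub_fam (hn0 : 0 < n) [IsNoetherianRing O] [IsLocalRing O] (T : TSys K)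
    (hK : OC K) (hTF : TorsionFree K) (hΦ : HypOff K Φ) (d : ℕ) (hn : d + 1 = T.C.n0)
    (m : Ideal (HeckeAlg n S O)) [m.IsMaximal]
    (hm : ¬ Dead K (triv K O (IsLocalRing.ResidueField O)) (unram_triv hΦ) d m)
    (κ : Type) [Field κ] [Algebra (HeckeAlg n S O ⧸ m) κ] :
    ∃ E : BigFam K Φ κ T.ε (fun v => dualL fun j => eig m κ (v, j)),
      ∃ y, ∃ γ ∈ Stab K y, E.h y γ ≠ 0 := by
  obtain ⟨ω, hω⟩ := exists_gen (k := IsLocalRing.ResidueField O) T hK
    IsLocalRing.residue_surjective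
  obtain ⟨φ, hφ0, hφs, hφt⟩ := TCA_phi T hΦ d m hm κ
  obtain ⟨h, hh⟩ : ∃ h : 𝒟.Pt → 𝒟.G → κ, h = fun y γ => φ (Br T hK ω hω d hn y γ) := ⟨_, rfl⟩
  have h_rt : ∀ y, ∀ k ∈ K, ∀ γ, h (rt y k) γ = h y γ := by
    intro y k hk γ
    rw [hh]
    simp only
    rw [Br_rt T hK hTF ω hω d hn y k hk γ]
  refine ⟨⟨h, h_rt, ?_, ?_, ?_⟩, ?_⟩
  · intro y δ γ hγ
    rw [hh]
    simp only
    rw [Br_act T hK hTF ω hω d hn y δ γ hγ, map_zsmul, zsmul_eq_mul]
  · intro y γ hγ γ' hγ'
    rw [hh]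
    simp only
    rw [Br_mul T hK ω hω d hn hγ hγ', map_add]
  · intro v j y γ hγ R hR
    refine TCA_conv hn0 hΦ v (fun j => eig m κ (v, j))
      (eig_none_mul hn0 (unram_triv hΦ) d m hm κ v) h h_rt (fun _ => True)
      (fun _ _ _ => trivial) ?_ j y γ trivial hγ R hR
    intro j y γ _ hγ R hR
    rw [hh]
    simp only
    rw [← hφt, Br_hecke T hK hTF hΦ ω hω d hn v y γ hγ j R hR, map_sum]
  · by_contra hc
    push Not at hc
    obtain ⟨z, hz⟩ := hφ0
    apply hz
    refine TCA_span φ hφs _ ?_ z (Br_span T hK ω hω d hn z)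
    rintro _ ⟨y, γ, hγ, rfl⟩
    have := hc y γ hγ
    simp only at this
    rw [hh] at this
    exact this

end Pool.Agent.CGN
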