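import Pool.Agent.CGN.IDefs
import Pool.Agent.CGN.CDev
import Pool.Agent.CGN.TCA

/-!
# The statement of the vanishing theorem for division algebras: definitions
-/

noncomputable section

namespace Pool.Agent.CGN

open NumberField IsDedekindDomain Matrix
open Pool.Agent.CG2 (Pl Fv Ov GalF Zbar Over IsInertia IsFrob Nm r1 r2)
open Pool.Agent.CGQ

variable {F : Type} [Field F] [NumberField F] {n : ℕ}

/-- The Hecke polynomial with the eigenvalues `λ_k`, twisted by `w`, at a place of norm `N`: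
`∑ (-1)^k w^k N^(k(k-1)/2) λ_k X^(n-k)`. -/
def heckePol {k : Type} [Field k] (lam : Option (Fin n) → k) (w N : k) : Polynomial k :=
  ∑ j ∈ Finset.range (n + 1),
    Polynomial.C ((-1) ^ j * w ^ j * N ^ (j * (j - 1) / 2) * lk lam j) * Polynomial.X ^ (n - j)

/-- The representation `ρ` of the absolute Galois group of `F` is attached to the maximal
ideal `m` of the Hecke algebra: it is continuous, unramified outside `S`, and for a continuous
character `ω` the characteristic polynomial of `ρ(σ^e)`, `σ` a Frobenius element at `v ∉ S`, is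
`∑ (-1)^k ω(σ)^k N(v)^(k(k-1)/2) T_(v,k) X^(n-k)`. -/
def AttachedN {S : Set (Pl F)} {O : Type} [CommRing O] (m : Ideal (HeckeAlg n S O)) (k : Type)
    [Field k] [Algebra (HeckeAlg n S O ⧸ m) k] (ρ : GalF F →* GL (Fin n) k) : Prop :=
  IsOpen (ρ.ker : Set (GalF F)) ∧
  ∃ (e : ℤˣ) (ω : GalF F →* kˣ), IsOpen (ω.ker : Set (GalF F)) ∧
    ∀ (v : Pl F) (hv : v ∉ S) (Q : Ideal (Zbar F)), Over v Q →
      (∀ σ : GalF F, IsInertia Q σ → ρ σ = 1) ∧
      (∀ σ : GalF F, IsFrob v Q σ →
        (ρ (σ ^ (e : ℤ)) : Matrix (Fin n) (Fin n) k).charpoly =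
          heckePol (fun j => eig m k (⟨v, hv⟩, j)) (ω σ : k) ((Nm v : ℕ) : k))

end Pool.Agent.CGN
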