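import Pool.Agent.CGN.IDefs
import Pool.Agent.CGQ.SysOC

/-!
# Small groups at given places
-/

noncomputable section

namespace Pool.Agent.CGN

open NumberField IsDedekindDomain Matrix
open Pool.Agent.CG2 (Pl Fv Ov)
open Pool.Agent.CGQ

variable {F : Type} [Field F] [NumberField F]

/-- The component at `v`. -/
def evA {𝒟 : Sys F} (v : Pl F) : 𝒟.A →* 𝒟.L v := (Pi.evalMonoidHom _ v).comp 𝒟.A.subtype

theorem evA_apply {𝒟 : Sys F} (v : Pl F) (k : 𝒟.A) : evA v k = k.1 v := rfl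

theorem oc_small {𝒟 : Sys F} {K : Subgroup 𝒟.A} (hK : OC K) (v : Pl F) (V : Subgroup (𝒟.L v))
    (hV : IsOpen (V : Set (𝒟.L v))) : OC (K ⊓ V.comap (evA v)) := by
  classical
  obtain ⟨U, hU, hUS, hUK⟩ := hK.op
  obtain ⟨C, hC, hCS, hCK⟩ := hK.cp
  refine ⟨⟨Function.update U v (U v ⊓ V), fun w => ?_, ?_, fun k hk => ⟨hUK k fun w => ?_, ?_⟩⟩,
    ⟨C, hC, hCS, fun k hk => hCK k hk.1⟩⟩
  · by_cases hw : w = v
    · subst hw
      rw [Function.update_self, Subgroup.coe_inf]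
      exact (hU w).inter hV
    · rw [Function.update_of_ne hw]
      exact hU w
  · refine (hUS.union (Set.finite_singleton v)).subset ?_
    intro w hw
    by_contra h
    simp only [Set.mem_union, Set.mem_ofPred_eq, Set.mem_singleton_iff, not_or, not_not] at h
    apply hw
    rw [Function.update_of_ne h.2]
    exact h.1
  · have h1 := hk w
    by_cases hw : w = v
    · subst hw
      rw [Function.update_self] at h1
      exact h1.1
    · rwa [Function.update_of_ne hw] at h1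
  · have h1 := hk v
    rw [Function.update_self] at h1
    exact h1.2

variable {A : AD F} {S : Set (Pl F)}

/-- The matrix has entries of absolute value `< 1`. -/
private def Sm {n : ℕ} (v : Pl F) (M : Matrix (Fin n) (Fin n) (Fv v)) : Prop :=
  ∀ a b, Valued.v (M a b) < 1

private theorem sm_add {n : ℕ} {v : Pl F} {M N : Matrix (Fin n) (Fin n) (Fv v)} (hM : Sm v M)
    (hN : Sm v N) : Sm v (M + N) := fun a b =>
  lt_of_le_of_lt (Valuation.map_add _ _ _) (max_lt (hM a b) (hN a b))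

private theorem sm_mul {n : ℕ} {v : Pl F} {M N : Matrix (Fin n) (Fin n) (Fv v)} (hM : Sm v M)
    (hN : Sm v N) : Sm v (M * N) := by
  intro a b
  rw [Matrix.mul_apply]
  refine Valuation.map_sum_lt _ one_ne_zero fun j _ => ?_
  rw [map_mul]
  exact mul_lt_one_of_nonneg_of_lt_one_left zero_le (hM a j) (hN j b).le

private theorem sm_one {n : ℕ} {v : Pl F} {M N : Matrix (Fin n) (Fin n) (Fv v)}
    (hM : Sm v (M - 1)) (hN : Sm v (N - 1)) : Sm v (M * N - 1) := by
  have h : M * N - 1 = (M - 1) * (N - 1) + ((M - 1) + (N - 1)) := by noncomm_ring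
  rw [h]
  exact sm_add (sm_mul hM hN) (sm_add hM hN)

/-- The principal congruence subgroup at `v`. -/
def smU (φ : Spl A S) (v : {v : Pl F // v ∉ S}) : Subgroup (DV A v.1)ˣ where
  carrier := {g | Sm v.1 (φ v g.1 - 1) ∧ Sm v.1 (φ v (g⁻¹ : (DV A v.1)ˣ).1 - 1)}
  one_mem' := by
    have h : Sm v.1 (φ v (1 : (DV A v.1)ˣ).1 - 1) := by
      intro a b
      rw [Units.val_one, map_one, sub_self, Matrix.zero_apply, map_zero]
      exact zero_lt_one
    refine ⟨h, ?_⟩
    rw [inv_one]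
    exact h
  mul_mem' := by
    rintro g h ⟨h1, h2⟩ ⟨h3, h4⟩
    refine ⟨?_, ?_⟩
    · rw [Units.val_mul, map_mul]
      exact sm_one h1 h3
    · rw [_root_.mul_inv_rev, Units.val_mul, map_mul]
      exact sm_one h4 h2
  inv_mem' := by
    rintro g ⟨h1, h2⟩
    refine ⟨h2, ?_⟩
    rw [inv_inv]
    exact h1

theorem continuous_spl (φ : Spl A S) (v : {v : Pl F // v ∉ S}) : Continuous (φ v) := by
  let f : (Fin A.n × Fin A.n → Fv v.1) →ₗ[Fv v.1] Matrix (Fin A.n) (Fin A.n) (Fv v.1) :=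
    (φ v).toLinearMap
  exact LinearMap.continuous_on_pi f

theorem isOpen_smU (φ : Spl A S) (v : {v : Pl F // v ∉ S}) :
    IsOpen (smU φ v : Set (DV A v.1)ˣ) := by
  have hb : IsOpen {x : Fv v.1 | Valued.v x < 1} := CG2.isOpen_val_lt v.1 1 one_ne_zero
  have h1 : IsOpen {M : Matrix (Fin A.n) (Fin A.n) (Fv v.1) | Sm v.1 (M - 1)} := by
    have h2 : {M : Matrix (Fin A.n) (Fin A.n) (Fv v.1) | Sm v.1 (M - 1)} =
        ⋂ a, ⋂ b, {M | Valued.v ((M - 1) a b) < 1} := by
      ext M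
      simp [Sm]
    rw [h2]
    refine isOpen_iInter_of_finite fun a => isOpen_iInter_of_finite fun b => ?_
    exact hb.preimage ((continuous_id.sub continuous_const).matrix_elem a b)
  have h3 : (smU φ v : Set (DV A v.1)ˣ) =
      (fun g : (DV A v.1)ˣ => φ v g.1) ⁻¹' {M | Sm v.1 (M - 1)} ∩
      (fun g : (DV A v.1)ˣ => φ v (g⁻¹ : (DV A v.1)ˣ).1) ⁻¹' {M | Sm v.1 (M - 1)} := rfl
  rw [h3]
  exact (h1.preimage ((continuous_spl φ v).comp Units.continuous_val)).inter
    (h1.preimage ((continuous_spl φ v).comp (Units.continuous_val.comp continuous_inv)))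

/-- The elements of `K` which are in the principal congruence subgroups at the three places. -/
def smK (φ : Spl A S) (v : Fin 3 → {v : Pl F // v ∉ S}) (K : Subgroup (sysA A).A) :
    Subgroup (sysA A).A :=
  ((K ⊓ (smU φ (v 0)).comap (evA (𝒟 := sysA A) (v 0).1)) ⊓
    (smU φ (v 1)).comap (evA (𝒟 := sysA A) (v 1).1)) ⊓
      (smU φ (v 2)).comap (evA (𝒟 := sysA A) (v 2).1)

theorem oc_smK (φ : Spl A S) (v : Fin 3 → {v : Pl F // v ∉ S}) {K : Subgroup (sysA A).A}
    (hK : OC K) : OC (smK φ v K) :=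
  oc_small (oc_small (oc_small hK _ _ (isOpen_smU φ (v 0))) _ _ (isOpen_smU φ (v 1))) _ _
    (isOpen_smU φ (v 2))

theorem smK_le (φ : Spl A S) (v : Fin 3 → {v : Pl F // v ∉ S}) (K : Subgroup (sysA A).A) :
    smK φ v K ≤ K := fun _ h => h.1.1.1

theorem smallAt_smK (φ : Spl A S) (v : Fin 3 → {v : Pl F // v ∉ S}) {K K' : Subgroup (sysA A).A}
    (h : K' ≤ smK φ v K) (i : Fin 3) : SmallAt φ (v i) K' := by
  intro k hk a b
  have h1 := h hk
  fin_cases i
  · exact h1.1.1.2.1 a b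
  · exact h1.1.2.1 a b
  · exact h1.2.1 a b

theorem single_mem_smK (φ : Spl A S) (v : Fin 3 → {v : Pl F // v ∉ S}) {K : Subgroup (sysA A).A}
    {w : Pl F} (hw : ∀ i, (v i).1 ≠ w) (k : (sysA A).L w) (hk : single w k ∈ K) :
    (single w k : (sysA A).A) ∈ smK φ v K := by
  have h : ∀ i, (single w k : (sysA A).A) ∈ (smU φ (v i)).comap (evA (𝒟 := sysA A) (v i).1) := by
    intro i
    rw [Subgroup.mem_comap, evA_apply, single_ne (hw i)]
    exact (smU φ (v i)).one_mem
  exact ⟨⟨⟨hk, h 0⟩, h 1⟩, h 2⟩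

end Pool.Agent.CGN
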