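import Pool.Agent.CGN.AGB
import Pool.Agent.CGN.CED
import Pool.Agent.CGN.Enl
import Pool.Agent.CGN.Sm
import Pool.Agent.CGQ.CEE

/-!
# The vanishing theorem for division algebras
-/

noncomputable section

namespace Pool.Agent.CGN

open NumberField IsDedekindDomain Matrix
open Pool.Agent.CG2 (Pl Fv Ov GalF Zbar Over IsInertia IsFrob Nm r1 r2)
open Pool.Agent.CGQ

variable {F : Type} [Field F] [NumberField F]

/-- Vanishing above the dimension and finiteness, for all open compact torsion-free subgroups. -/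
theorem van_fin (A : AD F) (hdiv : IsDiv A) (hcen : IsCen A) (hr : 1 ≤ A.rk) (p : ℕ)
    [Fact p.Prime] (K : Subgroup (sysA A).A) (hK : OC K) (hTF : TorsionFree K) (O : Type)
    [CommRing O] :
    (∀ (W : Type) [AddCommGroup W] [Module O W] (τ : Representation O K W) (i : ℕ),
      A.dim < i → Subsingleton (groupCohomology (coeff K τ) i)) ∧
    (IsNoetherianRing O → ∀ i, FinH K O i) := by
  obtain ⟨K₀, hK₀, -, hT⟩ := exists_ksys A hdiv hcen hr p
  obtain ⟨N₀, hN⟩ := crude_bound A hdiv hcen (one_le_two.trans (two_le_n hr)) K hK hTF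
  have hs : ∀ K' : Subgroup (sysA A).A, OC K' → K' ≤ K₀ → ∀ (O : Type) [CommRing O] (W : Type)
      [AddCommGroup W] [Module O W] (τ : Representation O K' W) (i : ℕ), A.dim < i →
      Subsingleton (groupCohomology (coeff K' τ) i) := by
    intro K' hK' hle O _ W _ _ τ i hi
    obtain ⟨T, hd, -⟩ := hT K' hle hK'
    exact coeff_van T τ i (by omega)
  have hv := fun (W : Type) [AddCommGroup W] [Module O W] (τ : Representation O K W) (i : ℕ)
    (hi : A.dim < i) => upper_all hK hK₀ A.dim N₀ hN hs O W τ i hi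
  refine ⟨hv, fun _ i => fin_all O hK hK₀ A.dim hv (fun K' hK' hle i => ?_) i⟩
  obtain ⟨T, -, -⟩ := hT K' hle hK'
  exact coeff_fg T i

theorem torsionFree_le {A : AD F} {K K' : Subgroup (sysA A).A} (hTF : TorsionFree K)
    (h : K' ≤ K) : TorsionFree K' := fun g γ n hn hg h1 => hTF g γ n hn (h hg) h1

/-- The theorem when the standard order is maximal and the group `K` is maximal outside `S`; the
place `v₃` and the group `K₀` are given by the part about the generic unit. -/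
theorem main_std (A : AD F) (hn : 2 ≤ A.n) {p : ℕ} [Fact p.Prime] {S : Set (Pl F)}
    (hS : S.Finite) (φ : Spl A S) (hstd : Std (chartA φ)) (K : Subgroup (sysA A).A) (hK : OC K)
    (hTF : TorsionFree K) (hΦ : HypOff K (chartA φ)) {O : Type} [CommRing O] [IsDomain O]
    [IsDiscreteValuationRing O] [CharP (IsLocalRing.ResidueField O) p]
    (hv : ∀ (W : Type) [AddCommGroup W] [Module O W] (τ : Representation O K W) (i : ℕ),
      A.dim < i → Subsingleton (groupCohomology (coeff K τ) i)) (hfin : ∀ i, FinH K O i)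
    {W : Type} [AddCommGroup W] [Module O W]
    [Module.Finite O W] (τ : Representation O K W) (hU : UnramOff K τ (chartA φ))
    (hτ : Cont K τ (chartA φ)) (m : Ideal (HeckeAlg A.n S O)) [m.IsMaximal] (k : Type) [Field k]
    [Algebra (HeckeAlg A.n S O ⧸ m) k] (e : ℤˣ) (ρ : GalF F →* GL (Fin A.n) k)
    (hopen : IsOpen (ρ.ker : Set (GalF F))) (hfrob : FrobEq (fun v j => eig m k (v, j)) e ρ)
    (hne : NonEis ρ) {v₃ : Pl F} (hv₃ : ((p : ℕ) : 𝓞 F) ∉ v₃.asIdeal)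
    (hram : ∀ Q : Ideal (Zbar F), Over v₃ Q → ∀ g : GalF F, IsInertia Q g → ρ g = 1)
    (K₀ : Subgroup (sysA A).A) (hK₀ : OC K₀)
    (h₀ : ∀ (v : {v : Pl F // v ∉ S}) (k : (sysA A).L v.1), (chartA φ).e v k ∈ GZ A.n v.1 →
      single v.1 k ∈ K₀)
    (hT : ∀ K' : Subgroup (sysA A).A, K' ≤ K₀ → OC K' →
      ∃ T : TSys K', T.C.n0 = A.dim ∧ ∀ γ, (sysA A).sgn γ = 1 → T.ε γ = 1)
    (hG0 : ∀ K' : Subgroup (sysA A).A, K' ≤ K₀ → OC K' → GenZ A v₃ K')
    (hG1 : 2 ≤ A.rk → ∀ K' : Subgroup (sysA A).A, K' ≤ K₀ → OC K' → GenO A p v₃ K')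
    (i : ℕ) (hi : InSupport K τ hU i m) :
    min 2 A.rk ≤ i ∧ i + min 2 A.rk ≤ A.dim := by
  classical
  have hTK : ∀ K' : Subgroup (sysA A).A, K' ≤ K → K' ≤ K₀ → OC K' →
      (∃ T : TSys K', T.C.n0 = A.dim ∧ ∀ γ, (sysA A).sgn γ = 1 → T.ε γ = 1) ∧
        TorsionFree K' := fun K' h h' hOC => ⟨hT K' h' hOC, torsionFree_le hTF h⟩
  have t0 : TD K K₀ (chartA φ) 0 m := by
    intro K' h h' hOC hΦ'
    obtain ⟨⟨T, hd, hε⟩, hTF'⟩ := hTK K' h h' hOC
    exact dead_zero hn hS hstd hOC hΦ' (coeff_fg T 0 _ _) m k e ρ hopen hfrob hne hv₃ hram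
      (hG0 K' h' hOC)
  have t1 : 2 ≤ A.rk → TD K K₀ (chartA φ) 1 m := by
    intro hr2 K' h h' hOC hΦ'
    obtain ⟨⟨T, hd, hε⟩, hTF'⟩ := hTK K' h h' hOC
    exact dead_one hn hS hstd hOC hΦ' (coeff_fg T 1 _ _) m k e ρ hopen hfrob hne hv₃ hram
      (hG1 hr2 K' h' hOC)
  have td : TD K K₀ (chartA φ) A.dim m := by
    intro K' h h' hOC hΦ'
    obtain ⟨⟨T, hd, hε⟩, hTF'⟩ := hTK K' h h' hOC
    rw [← hd]
    exact dead_top T hε hn hS hstd hOC hΦ' m k e ρ hopen hfrob hne hv₃ hram (hG0 K' h' hOC)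
  have hd2 : 2 ≤ A.dim := by
    obtain ⟨⟨T, hd, hε⟩, hTF'⟩ := hTK (K ⊓ K₀) inf_le_left inf_le_right (hK.inter hK₀)
    rw [← hd]
    exact T.two
  obtain ⟨n, hn'⟩ : ∃ n, n + 1 = A.dim := ⟨A.dim - 1, by omega⟩
  have ts : 2 ≤ A.rk → TD K K₀ (chartA φ) n m := by
    intro hr2 K' h h' hOC hΦ'
    obtain ⟨⟨T, hd, hε⟩, hTF'⟩ := hTK K' h h' hOC
    exact dead_sub T hε hn hS hstd hOC hTF' hΦ' n (by rw [hd, hn']) m k e ρ hopen hfrob hne hv₃
      hram (hG1 hr2 K' h' hOC)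
  obtain ⟨z, hz⟩ := hi
  have dead : Dead K τ hU i m → False := fun hd => by
    obtain ⟨t, ht, h0⟩ := hd z
    exact hz t ht h0
  have all : ∀ i, KD K (chartA φ) i m → Dead K τ hU i m := fun i hkd =>
    dead_all i (hfin i) τ hU hτ m hkd
  by_contra hcon
  have hcases : i = 0 ∨ (i = 1 ∧ 2 ≤ A.rk) ∨ (i = n ∧ 2 ≤ A.rk) ∨ i = A.dim ∨ A.dim < i := by
    omega
  rcases hcases with rfl | ⟨rfl, hr2⟩ | ⟨rfl, hr2⟩ | rfl | hgt
  · exact dead (all 0 (kd_zero hK hK₀ hΦ h₀ m t0))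
  · exact dead (all 1 (kd_one hK hK₀ hΦ h₀ m t0 (t1 hr2)))
  · refine dead (all _ (kd_sub hK hK₀ hΦ h₀ m _ (fun W _ _ τ => hv W τ _ (by omega)) (ts hr2) ?_))
    rw [hn']
    exact td
  · exact dead (all _ (kd_top hK hK₀ hΦ h₀ m _ (fun W _ _ τ => hv W τ _ (by omega)) td))
  · have hsub := hv W τ i hgt
    exact hz 1 (fun h => Ideal.IsPrime.ne_top' ((Ideal.eq_top_iff_one m).2 h))
      (Subsingleton.elim _ _)

/-- The restriction of the isomorphisms of the algebras. -/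
def Spl.res {A : AD F} {S S' : Set (Pl F)} (φ : Spl A S) (h : S ⊆ S') : Spl A S' :=
  fun v => φ (Out h v)

theorem cont_res {𝒟 : Sys F} {n : ℕ} {S S' : Set (Pl F)} {O : Type} [CommRing O] [IsLocalRing O]
    {W : Type} [AddCommGroup W] [Module O W] {K : Subgroup 𝒟.A} {τ : Representation O K W}
    {φ : Chart n 𝒟 S} (h : S ⊆ S') (hτ : Cont K τ φ) : Cont K τ (φ.res h) := by
  intro n
  obtain ⟨U, h1, h2, h3, h4⟩ := hτ n
  exact ⟨U, h1, h2, fun v k hk => h3 (Out h v) k hk, h4⟩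

/-- **MAIN.** -/
theorem main_all (A : AD F) (hdiv : IsDiv A) (hcen : IsCen A) (hr : 1 ≤ A.rk) {p : ℕ}
    [Fact p.Prime] {S : Set (Pl F)} (hS : S.Finite)
    (hSp : ∀ v : Pl F, ((p : ℕ) : 𝓞 F) ∈ v.asIdeal → v ∈ S) (φ : Spl A S)
    (K : Subgroup (sysA A).A) (hK : OC K) (hTF : TorsionFree K)
    (hΦ : HypOff K (chartA φ)) {O : Type} [CommRing O] [IsDomain O] [IsDiscreteValuationRing O]
    [CharP (IsLocalRing.ResidueField O) p] {W : Type} [AddCommGroup W] [Module O W]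
    [Module.Finite O W] (τ : Representation O K W) (hU : UnramOff K τ (chartA φ))
    (hτ : Cont K τ (chartA φ)) (m : Ideal (HeckeAlg A.n S O)) [m.IsMaximal] (k : Type) [Field k]
    [Algebra (HeckeAlg A.n S O ⧸ m) k] (ρ : GalF F →* GL (Fin A.n) k) (hA : AttachedN m k ρ)
    (hne : NonEis ρ) (i : ℕ) (hi : InSupport K τ hU i m) :
    min 2 A.rk ≤ i ∧ i + min 2 A.rk ≤ A.dim := by
  classical
  have hn : 2 ≤ A.n := by
    by_contra hcon
    have h1 : A.n - 1 = 0 := by omega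
    have h2 : A.n / 2 - 1 = 0 := by omega
    rw [AD.rk, h1, h2, zero_mul, zero_mul] at hr
    omega
  obtain ⟨hv, hf⟩ := van_fin A hdiv hcen hr p K hK hTF O
  have hfin : ∀ i, FinH K O i := hf inferInstance
  obtain ⟨ks, hks, hksv, hT⟩ := exists_ksys A hdiv hcen hr p
  set N : Set (Pl F) := {v : Pl F | ∃ h : v ∉ S, ¬ ∀ k, (chartA φ).e ⟨v, h⟩ k ∈ GZ A.n v ↔
    k ∈ (sysA A).B v} with hN
  have hNf : N.Finite := finite_nonstd hK hΦ
  -- the representation without the twist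
  obtain ⟨e, ρ', T, hopen, hne', hfrob, hTf, hTu⟩ := exists_twistA hA
  -- the three places
  obtain ⟨v, hv0, hgen⟩ := exists_gen hdiv hcen hr p hS φ (T ∪ N) (hTf.union hNf)
  set S' : Set (Pl F) := S ∪ (N ∪ Set.range fun i => (v i).1) with hS'
  have h : S ⊆ S' := Set.subset_union_left
  have hres : (chartA φ).res h = chartA (φ.res h) := rfl
  have hU' : UnramOff K τ ((chartA φ).res h) := fun v => (hU (Out h v)).res h
  have hmax := isMaximal_res h (hfin i W τ) hi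
  have hv₃ : ((p : ℕ) : 𝓞 F) ∉ (v 2).1.asIdeal := fun hp => (v 2).2 (hSp _ hp)
  have hstd : Std (chartA (φ.res h)) := by
    intro w k
    by_contra hne
    exact w.2 (Or.inr (Or.inl ⟨(Out h w).2, fun hall => hne (hall k)⟩))
  refine @main_std F _ _ A hn p _ S' (hS.union (hNf.union (Set.finite_range _)))
    (φ.res h) hstd K hK hTF (fun v => (hΦ (Out h v)).res h) O _ _ _ _ hv hfin
    W _ _ _ τ hU' (cont_res h hτ) (m.comap (algMap A.n h O)) hmax k _ (algRes h m k) e ρ' hopen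
    ?_ (hne' hne) (v 2).1 hv₃ (hTu _ (v 2).2 fun hh => hv0 2 (Or.inl hh)) (smK φ v ks)
    (oc_smK φ v hks) ?_ ?_ ?_ ?_ i (inSupport_res h hU' hi)
  · intro w Q hQ σ hσ
    have h1 := hfrob (Out h w) Q hQ σ hσ
    have h2 : (fun j => @eig F _ _ A.n S' O _ (m.comap (algMap A.n h O)) k _ (algRes h m k)
        (w, j)) = fun j => eig m k (Out h w, j) := by
      funext j
      exact eig_res h m k (w, j)
    change _ = heckePol (fun j => @eig F _ _ A.n S' O _ (m.comap (algMap A.n h O)) k _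
      (algRes h m k) (w, j)) 1 _
    rw [h2]
    exact h1
  · intro w k hk
    refine single_mem_smK φ v (fun i hi => w.2 (Or.inr (Or.inr ⟨i, hi⟩))) k ?_
    exact hksv w.1 (fun hp => w.2 (Or.inl (hSp w.1 hp))) k ((hstd w k).1 hk)
  · intro K' hle hOC
    exact hT K' (hle.trans (smK_le φ v ks)) hOC
  · intro K' hle hOC y
    exact (hgen K' hOC (fun i => smallAt_smK φ v hle i) y).1
  · intro hr2 K' hle hOC y k _ _ f hf c₀ hc₀ hne0
    exact (hgen K' hOC (fun i => smallAt_smK φ v hle i) y).2 hr2 k f hf c₀ hc₀ hne0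

end Pool.Agent.CGN
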