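import Mathlib

/-!
# Cancellation of the terms which are not fixed
-/

noncomputable section

namespace Pool.Agent.CGN

private theorem UCan_perm {Y κ : Type} [Fintype Y] [DecidableEq Y] [Field κ] {p : ℕ}
    [hp : Fact p.Prime] [CharP κ p] (σ : Equiv.Perm Y) (hσ : ∀ (y : Y) (j : ℕ), (σ ^ j) y = y → p ∣ j)
    (H : Y → κ) (hH : ∀ y, H (σ y) = H y) : ∑ y, H y = 0 := by
  classical
  obtain ⟨a, m, hm, hn⟩ := Nat.exists_eq_pow_mul_and_not_dvd (orderOf_pos σ).ne' p hp.out.ne_one
  have hHj : ∀ (j : ℕ) y, H ((σ ^ j) y) = H y := by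
    intro j
    induction j with
    | zero => intro y; rfl
    | succ j ih => intro y; rw [pow_succ, Equiv.Perm.mul_apply, ih, hH]
  have h1 := Finset.sum_comp (s := (Finset.univ : Finset Y)) (fun x : κ => x) H
  rw [h1]
  refine Finset.sum_eq_zero fun x _ => ?_
  have h2 : p ∣ ((Finset.univ : Finset Y).filter fun y => H y = x).card := by
    let f : Function.End {y : Y // H y = x} := fun y => ⟨(σ ^ m) y.1, by rw [hHj, y.2]⟩
    have hf : ∀ (j : ℕ) y, ((f ^ j) y).1 = ((σ ^ m) ^ j) y.1 := by
      intro j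
      induction j with
      | zero => intro y; rfl
      | succ j ih =>
        intro y
        rw [pow_succ, pow_succ, Equiv.Perm.mul_apply]
        exact ih (f y)
    have hf1 : f ^ p ^ a = 1 := by
      funext y
      apply Subtype.ext
      rw [hf, ← pow_mul, mul_comm, ← hn, pow_orderOf_eq_one]
      rfl
    have h3 := Equiv.Perm.card_fixedPoints_modEq hf1
    have h4 : Fintype.card (Function.fixedPoints f) = 0 := by
      rw [Fintype.card_eq_zero_iff]
      refine ⟨fun y => hm (hσ y.1.1 m ?_)⟩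
      exact congrArg Subtype.val y.2
    rw [h4] at h3
    have h5 := (Nat.modEq_zero_iff_dvd).1 h3
    rwa [Fintype.card_subtype] at h5
  rw [nsmul_eq_mul, (CharP.cast_eq_zero_iff κ p _).2 h2, zero_mul]

/-- **UCan.** Cancellation. The sum over representatives of the `f`-orbits of a function which is
invariant under the commuting bijections `f`, `g` of a finite set `N` is the sum over the set `Z`
of the common fixed points, if outside `Z` no power of `g` with exponent prime to the
characteristic `p` maps an `f`-orbit to itself.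
PROOF. `g` acts on the set of the `f`-orbits outside `Z`; the part of `p`-power order of this
permutation has no fixed points, so the fibres of `H` have cardinalities divisible by `p`. -/
theorem sum_reps {X κ : Type} [DecidableEq X] [Field κ] {p : ℕ} [hp : Fact p.Prime] [CharP κ p]
    (f g : X → X) (hf : Function.Injective f) (hg : Function.Injective g)
    (hfg : ∀ c, f (g c) = g (f c)) (N Z R : Finset X)
    (hgN : ∀ c ∈ N, g c ∈ N) (hZN : Z ⊆ N) (hZf : ∀ c ∈ Z, f c = c) (hZg : ∀ c ∈ Z, g c = c)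
    (H : X → κ) (hHf : ∀ c, H (f c) = H c) (hHg : ∀ c, H (g c) = H c)
    (hno : ∀ c ∈ N, c ∉ Z → ∀ j i : ℕ, g^[j] c = f^[i] c → p ∣ j)
    (hR1 : R ⊆ N) (hR2 : ∀ c ∈ N, ∃ r ∈ R, ∃ n : ℕ, f^[n] r = c)
    (hR3 : ∀ r ∈ R, ∀ r' ∈ R, ∀ n : ℕ, f^[n] r = r' → r = r') :
    ∑ c ∈ R, H c = ∑ c ∈ Z, H c := by
  classical
  have hfi : ∀ n : ℕ, Function.Injective f^[n] := fun n => hf.iterate n
  have hHfn : ∀ (n : ℕ) c, H (f^[n] c) = H c := by
    intro n
    induction n with
    | zero => intro c; rfl
    | succ n ih => intro c; rw [Function.iterate_succ_apply, ih, hHf]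
  have hZR : Z ⊆ R := by
    intro c hc
    obtain ⟨r, hr, n, hn⟩ := hR2 c (hZN hc)
    have h1 : f^[n] c = c := Function.iterate_fixed (hZf c hc) n
    have h2 : r = c := hfi n (hn.trans h1.symm)
    rwa [← h2]
  have hcomm : ∀ (n : ℕ) c, g (f^[n] c) = f^[n] (g c) := by
    intro n
    induction n with
    | zero => intro c; rfl
    | succ n ih =>
      intro c
      rw [Function.iterate_succ_apply, Function.iterate_succ_apply, ih, hfg]
  -- the permutation of the representatives
  have hex : ∀ r : {r // r ∈ R \ Z}, ∃ s : {r // r ∈ R \ Z}, ∃ n : ℕ, f^[n] s.1 = g r.1 := by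
    rintro ⟨r, hr⟩
    obtain ⟨hrR, hrZ⟩ := Finset.mem_sdiff.1 hr
    obtain ⟨s, hs, n, hn⟩ := hR2 (g r) (hgN r (hR1 hrR))
    refine ⟨⟨s, Finset.mem_sdiff.2 ⟨hs, fun hsZ => hrZ ?_⟩⟩, n, hn⟩
    have h1 : f^[n] s = s := Function.iterate_fixed (hZf s hsZ) n
    have h2 : g s = g r := by rw [hZg s hsZ, ← hn, h1]
    rwa [← hg h2]
  choose σ n hσ using hex
  have hinj : Function.Injective σ := by
    have key : ∀ r r', σ r = σ r' → n r ≤ n r' → r = r' := by
      intro r r' h hle
      have h1 : g r'.1 = g (f^[n r' - n r] r.1) := by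
        rw [hcomm, ← hσ r, ← hσ r', ← h, ← Function.iterate_add_apply]
        congr 2
        omega
      have h2 := hR3 r.1 (Finset.mem_sdiff.1 r.2).1 r'.1 (Finset.mem_sdiff.1 r'.2).1 _ (hg h1).symm
      exact Subtype.ext h2
    intro r r' h
    rcases le_total (n r) (n r') with hle | hle
    · exact key r r' h hle
    · exact (key r' r h.symm hle).symm
  let τ : Equiv.Perm {r // r ∈ R \ Z} := Equiv.ofBijective σ (Finite.injective_iff_bijective.1 hinj)
  have hτ : ∀ r, τ r = σ r := fun r => rfl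
  have hpow : ∀ (j : ℕ) r, ∃ k : ℕ, f^[k] ((τ ^ j) r).1 = g^[j] r.1 := by
    intro j
    induction j with
    | zero => intro r; exact ⟨0, rfl⟩
    | succ j ih =>
      intro r
      obtain ⟨k, hk⟩ := ih r
      refine ⟨k + n ((τ ^ j) r), ?_⟩
      rw [Function.iterate_add_apply, pow_succ', Equiv.Perm.mul_apply, hτ, hσ, ← hcomm, hk,
        Function.iterate_succ_apply']
  have hzero : ∑ r : {r // r ∈ R \ Z}, H r.1 = 0 := by
    refine UCan_perm (p := p) τ ?_ (fun r => H r.1) ?_
    · intro r j hj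
      obtain ⟨k, hk⟩ := hpow j r
      rw [hj] at hk
      exact hno r.1 (hR1 (Finset.mem_sdiff.1 r.2).1) (Finset.mem_sdiff.1 r.2).2 j k hk.symm
    · intro r
      change H (σ r).1 = H r.1
      rw [← hHfn (n r), hσ, hHg]
  rw [← Finset.sum_sdiff hZR, ← Finset.sum_coe_sort (R \ Z), hzero, zero_add]

end Pool.Agent.CGN
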