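import Pool.Agent.CG2.GalL

/-!
# Characters of the ray class group from functions on the ray classes
-/

noncomputable section

namespace Pool.Agent.CGN

open NumberField IsDedekindDomain
open Pool.Agent.CG2 (Pl expo InRay IsRay TotPos)

variable {L : Type} [Field L] [NumberField L] {κ : Type} [Field κ] [IsAlgClosed κ]

/-! ### Auxiliary definitions and lemmas -/

/-- Commuting endomorphisms have a common eigenvector in every non-zero space. -/
private theorem UCN_common {κ Q : Type} {ι : Type*} [Field κ] [IsAlgClosed κ] [AddCommGroup Q]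
    [Module κ Q] [FiniteDimensional κ Q] (A : ι → Module.End κ Q)
    (hA : ∀ s t x, A s (A t x) = A t (A s x)) (E : Submodule κ Q) (hE : E ≠ ⊥)
    (hEA : ∀ t, ∀ x ∈ E, A t x ∈ E) :
    ∃ x ∈ E, x ≠ 0 ∧ ∀ t, ∃ c : κ, A t x = c • x := by
  obtain ⟨W, ⟨hW0, hWA, hWE⟩, hmin⟩ := IsArtinian.set_has_minimal (R := κ) (M := Q)
    {W : Submodule κ Q | W ≠ ⊥ ∧ (∀ t, ∀ x ∈ W, A t x ∈ W) ∧ W ≤ E} ⟨E, hE, hEA, le_refl E⟩
  obtain ⟨x, hx, hx0⟩ := (Submodule.ne_bot_iff W).1 hW0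
  refine ⟨x, hWE hx, hx0, fun t => ?_⟩
  have hnt : Nontrivial W := (Submodule.nontrivial_iff_ne_bot).2 hW0
  obtain ⟨c, hc⟩ := Module.End.exists_eigenvalue ((A t).restrict (hWA t) : Module.End κ W)
  obtain ⟨w, hw⟩ := hc.exists_hasEigenvector
  have hw1 : A t w.1 = c • w.1 := by
    have h1 := hw.apply_eq_smul
    exact congrArg Subtype.val h1
  have hw0 : w.1 ≠ 0 := fun h => hw.2 (Subtype.ext h)
  let W' : Submodule κ Q :=
    { carrier := {z | z ∈ W ∧ A t z = c • z}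
      add_mem' := by
        rintro a b ⟨ha, ha'⟩ ⟨hb, hb'⟩
        exact ⟨W.add_mem ha hb, by rw [map_add, ha', hb', smul_add]⟩
      zero_mem' := ⟨W.zero_mem, by simp⟩
      smul_mem' := by
        rintro d a ⟨ha, ha'⟩
        exact ⟨W.smul_mem d ha, by rw [map_smul, ha', smul_comm]⟩ }
  have hW' : W' ∈ {W : Submodule κ Q | W ≠ ⊥ ∧ (∀ t, ∀ x ∈ W, A t x ∈ W) ∧ W ≤ E} := by
    refine ⟨(Submodule.ne_bot_iff W').2 ⟨w.1, ⟨w.2, hw1⟩, hw0⟩, ?_, fun z hz => hWE hz.1⟩
    rintro s z ⟨hz, hz'⟩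
    exact ⟨hWA s z hz, by rw [hA, hz', map_smul]⟩
  have h2 : W' ≤ W := fun z hz => hz.1
  have h3 : W' = W := by
    by_contra hne
    exact hmin W' hW' (lt_of_le_of_ne h2 hne)
  have h4 : x ∈ W' := by
    rw [h3]
    exact hx
  exact ⟨c, h4.2⟩

/-- The non-zero ideals prime to `m₀`. -/
private def UCN_X (m₀ : Ideal (𝓞 L)) : Type := {I : Ideal (𝓞 L) // CG2.GalL_X m₀ I}

private def UCN_mul {m₀ : Ideal (𝓞 L)} (I J : UCN_X m₀) : UCN_X m₀ :=
  ⟨I.1 * J.1, CG2.GalL_X_mul I.2 J.2⟩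

/-- The translation operators. -/
private def UCN_T {m₀ : Ideal (𝓞 L)} (κ : Type) [Field κ] (J : UCN_X m₀) :
    Module.End κ (UCN_X m₀ → κ) where
  toFun f I := f (UCN_mul I J)
  map_add' _ _ := rfl
  map_smul' _ _ := rfl

private theorem UCN_mul_assoc {m₀ : Ideal (𝓞 L)} (I J K : UCN_X m₀) :
    UCN_mul (UCN_mul I J) K = UCN_mul I (UCN_mul J K) := Subtype.ext (mul_assoc _ _ _)

private theorem UCN_mul_comm {m₀ : Ideal (𝓞 L)} (I J : UCN_X m₀) :
    UCN_mul I J = UCN_mul J I := Subtype.ext (mul_comm _ _)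

omit [IsAlgClosed κ] in
private theorem UCN_finite (χ : Pl L → κ) {I : Ideal (𝓞 L)} (hI : I ≠ ⊥) :
    (Function.mulSupport fun v : Pl L => χ v ^ expo v I).Finite := by
  refine (Ideal.finite_factors hI).subset ?_
  intro v hv
  by_contra hcon
  have h1 : expo v I = 0 := by
    by_contra h2
    exact hcon ((CG2.GalL_expo_ne_zero v hI).1 h2)
  apply hv
  change χ v ^ expo v I = 1
  rw [h1, pow_zero]

omit [IsAlgClosed κ] in
private theorem UCN_ext_mul (χ : Pl L → κ) {I J : Ideal (𝓞 L)} (hI : I ≠ ⊥) (hJ : J ≠ ⊥) :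
    ∏ᶠ v : Pl L, χ v ^ expo v (I * J) =
      (∏ᶠ v : Pl L, χ v ^ expo v I) * ∏ᶠ v : Pl L, χ v ^ expo v J := by
  rw [← finprod_mul_distrib (UCN_finite χ hI) (UCN_finite χ hJ)]
  refine finprod_congr fun v => ?_
  rw [CG2.GalL_expo_mul v hI hJ, pow_add]

omit [IsAlgClosed κ] in
private theorem UCN_ext_top (χ : Pl L → κ) :
    ∏ᶠ v : Pl L, χ v ^ expo v (⊤ : Ideal (𝓞 L)) = 1 := by
  rw [← finprod_one (α := Pl L)]
  refine finprod_congr fun v => ?_
  rw [CG2.GalL_expo_top, pow_zero]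

omit [IsAlgClosed κ] in
private theorem UCN_ext_prime (χ : Pl L → κ) (v : Pl L) :
    ∏ᶠ w : Pl L, χ w ^ expo w v.asIdeal = χ v := by
  rw [finprod_eq_single _ v]
  · rw [CG2.GalL_expo_self, pow_one]
  · intro w hw
    rw [CG2.GalL_expo_other hw, pow_zero]

private theorem UCN_X_prime {m₀ : Ideal (𝓞 L)} (w : Pl L) (h : ¬ m₀ ≤ w.asIdeal) :
    CG2.GalL_X m₀ w.asIdeal := by
  refine ⟨w.ne_bot, ?_⟩
  rw [Ideal.isCoprime_iff_sup_eq]
  by_contra hne
  have h1 : w.asIdeal ⊔ m₀ = w.asIdeal :=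
    (w.isMaximal.eq_of_le hne le_sup_left).symm
  exact h (h1 ▸ le_sup_right)

private theorem UCN_not_le {m₀ : Ideal (𝓞 L)} (w : Pl L) (h : CG2.GalL_X m₀ w.asIdeal) :
    ¬ m₀ ≤ w.asIdeal := by
  intro h1
  have h2 := Ideal.isCoprime_iff_sup_eq.1 h.2
  rw [sup_eq_left.2 h1] at h2
  exact w.isPrime.ne_top h2

/-- **UCN.** A non-zero function `a` on the ideals prime to `m₀`, which is constant on the narrow
ray classes modulo `m₀`, yields a character `χ` of the ray class group which satisfies all linear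
relations between the translates of `a`: the version with sums over a finite set of finite sets of
places. PROOF. As `CGQ exists_ray_char` (UChar.lean of CGQ); the relation for the translation operators
`T_J`, `J = ∏ w ∈ J, w`, and `X (∏ w ∈ J, w) = ∏ w ∈ J, χ w`. -/
theorem exists_ray_chi (m₀ : Ideal (𝓞 L)) (hm : m₀ ≠ ⊥) (a : Ideal (𝓞 L) → κ)
    (h0 : ∃ I, I ≠ ⊥ ∧ IsCoprime I m₀ ∧ a I ≠ 0)
    (hray : ∀ I J, I ≠ ⊥ → IsCoprime I m₀ → InRay m₀ J → a (I * J) = a I) :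
    ∃ χ : Pl L → κ, (∀ w, χ w ≠ 0) ∧
      (∀ J, InRay m₀ J → ∏ᶠ w : Pl L, χ w ^ expo w J = 1) ∧
      (∀ (s : Finset (Finset (Pl L))) (l : κ), (∀ J ∈ s, ∀ w ∈ J, ¬ m₀ ≤ w.asIdeal) →
        (∀ I, I ≠ ⊥ → IsCoprime I m₀ → ∑ J ∈ s, a (I * ∏ w ∈ J, w.asIdeal) = l * a I) →
        ∑ J ∈ s, ∏ w ∈ J, χ w = l) := by
  classical
  let a' : UCN_X m₀ → κ := fun I => a I.1
  let tr : UCN_X m₀ → (UCN_X m₀ → κ) := fun J => UCN_T κ J a'
  have htr : ∀ J J' : UCN_X m₀, CG2.GalL_rel m₀ J.1 J'.1 → tr J = tr J' := by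
    rintro J J' ⟨K, hK, hK'⟩
    funext I
    have hIJ := CG2.GalL_X_mul I.2 J.2
    have hIJ' := CG2.GalL_X_mul I.2 J'.2
    have e1 : a (I.1 * J.1 * (K * J'.1)) = a (I.1 * J.1) := hray _ _ hIJ.1 hIJ.2 hK'
    have e2 : a (I.1 * J'.1 * (K * J.1)) = a (I.1 * J'.1) := hray _ _ hIJ'.1 hIJ'.2 hK
    have e3 : I.1 * J.1 * (K * J'.1) = I.1 * J'.1 * (K * J.1) := by ring
    change a (I.1 * J.1) = a (I.1 * J'.1)
    rw [← e1, ← e2, e3]
  have hfin : (Set.range tr).Finite := by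
    obtain ⟨Ψ, hΨ⟩ := CG2.GalL_invariant hm
    have : Finite (𝓞 L ⧸ m₀) := Ideal.finiteQuotientOfFreeOfNeBot m₀ hm
    have hf1 : (Set.range Ψ).Finite := Set.toFinite _
    refine (hf1.image (fun c => if h : ∃ J, Ψ J = c then tr h.choose else 0)).subset ?_
    rintro _ ⟨J, rfl⟩
    refine ⟨Ψ J, ⟨J, rfl⟩, ?_⟩
    have hex : ∃ J', Ψ J' = Ψ J := ⟨J, rfl⟩
    change (if h : ∃ J', Ψ J' = Ψ J then tr h.choose else 0) = tr J
    rw [dif_pos hex]
    exact htr _ _ (hΨ _ _ hex.choose_spec)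
  let V : Submodule κ (UCN_X m₀ → κ) := Submodule.span κ (Set.range tr)
  have hVfin : FiniteDimensional κ V := FiniteDimensional.span_of_finite κ hfin
  have hstab : ∀ (J : UCN_X m₀), ∀ f ∈ V, UCN_T κ J f ∈ V := by
    intro J f hf
    have h1 : V ≤ V.comap (UCN_T κ J) := by
      refine Submodule.span_le.2 ?_
      rintro _ ⟨J', rfl⟩
      refine Submodule.subset_span ⟨UCN_mul J J', ?_⟩
      funext I
      change a' (UCN_mul I (UCN_mul J J')) = a' (UCN_mul (UCN_mul I J) J')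
      rw [UCN_mul_assoc]
    exact h1 hf
  let A : UCN_X m₀ → Module.End κ V := fun J => (UCN_T κ J).restrict (hstab J)
  have hA : ∀ s t x, A s (A t x) = A t (A s x) := by
    intro s t x
    refine Subtype.ext (funext fun I => ?_)
    change x.1 (UCN_mul (UCN_mul I s) t) = x.1 (UCN_mul (UCN_mul I t) s)
    rw [UCN_mul_assoc, UCN_mul_assoc, UCN_mul_comm s t]
  have hX1 : CG2.GalL_X m₀ ⊤ := CG2.GalL_X_top m₀
  let one : UCN_X m₀ := ⟨⊤, hX1⟩
  have hmul1 : ∀ I : UCN_X m₀, UCN_mul I one = I := fun I =>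
    Subtype.ext (by change I.1 * ⊤ = I.1; rw [Ideal.mul_top])
  have h1mul : ∀ I : UCN_X m₀, UCN_mul one I = I := fun I => by
    rw [UCN_mul_comm, hmul1]
  have htop : (⊤ : Submodule κ V) ≠ ⊥ := by
    obtain ⟨I, hI0, hI1, hI2⟩ := h0
    intro hbot
    have hmem : tr one ∈ V := Submodule.subset_span ⟨one, rfl⟩
    have h2 : (⟨tr one, hmem⟩ : V) ∈ (⊤ : Submodule κ V) := Submodule.mem_top
    rw [hbot, Submodule.mem_bot] at h2
    have h3 : tr one = 0 := congrArg Subtype.val h2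
    have hIX : CG2.GalL_X m₀ I := ⟨hI0, hI1⟩
    let I' : UCN_X m₀ := ⟨I, hIX⟩
    have h4 : a' (UCN_mul I' one) = 0 := congrFun h3 I'
    apply hI2
    rw [hmul1] at h4
    exact h4
  obtain ⟨f, -, hf0, hfe⟩ := UCN_common A hA ⊤ htop (fun _ _ _ => Submodule.mem_top)
  choose X hX using hfe
  have hfX : ∀ I J : UCN_X m₀, f.1 (UCN_mul I J) = X J * f.1 I := by
    intro I J
    have h2 := congrArg Subtype.val (hX J)
    have h3 := congrFun h2 I
    exact h3
  have hf1 : f.1 one ≠ 0 := by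
    intro h2
    apply hf0
    refine Subtype.ext (funext fun I => ?_)
    have h3 := hfX one I
    rw [h1mul, h2, mul_zero] at h3
    exact h3
  have hXmul : ∀ I J : UCN_X m₀, X (UCN_mul I J) = X I * X J := by
    intro I J
    have h2 : f.1 (UCN_mul I J) = X J * f.1 I := hfX I J
    have h3 : f.1 (UCN_mul one (UCN_mul I J)) = X (UCN_mul I J) * f.1 one := hfX _ _
    have h4 : f.1 (UCN_mul one I) = X I * f.1 one := hfX _ _
    rw [h1mul] at h3 h4
    rw [h3, h4] at h2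
    refine mul_right_cancel₀ hf1 ?_
    rw [h2]; ring
  have hXone : X one = 1 := by
    have h2 := hfX one one
    rw [hmul1] at h2
    refine mul_right_cancel₀ hf1 ?_
    rw [← h2, one_mul]
  -- relations
  have hrel : ∀ R : Submodule κ (UCN_X m₀ → κ), (∀ J, tr J ∈ R) → f.1 ∈ R := by
    intro R hR
    have h2 : V ≤ R := Submodule.span_le.2 (by rintro _ ⟨J, rfl⟩; exact hR J)
    exact h2 f.2
  have hXray : ∀ J : UCN_X m₀, InRay m₀ J.1 → X J = 1 := by
    intro J hJ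
    let R : Submodule κ (UCN_X m₀ → κ) :=
      { carrier := {g | ∀ I, g (UCN_mul I J) = g I}
        add_mem' := by
          intro g g' hg hg' I
          rw [Pi.add_apply, Pi.add_apply, hg, hg']
        zero_mem' := fun I => rfl
        smul_mem' := by
          intro c g hg I
          rw [Pi.smul_apply, Pi.smul_apply, hg] }
    have h2 : f.1 ∈ R := by
      refine hrel R fun K I => ?_
      change a (I.1 * J.1 * K.1) = a (I.1 * K.1)
      have hIK := CG2.GalL_X_mul I.2 K.2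
      have h3 : I.1 * J.1 * K.1 = I.1 * K.1 * J.1 := by ring
      rw [h3]
      exact hray _ _ hIK.1 hIK.2 hJ
    have h3 := h2 one
    rw [hfX] at h3
    refine mul_right_cancel₀ hf1 ?_
    rw [h3, one_mul]
  have hXne : ∀ J : UCN_X m₀, X J ≠ 0 := by
    intro J hJ
    obtain ⟨I, hI, hIJ⟩ := CG2.GalL_inv hm J.2
    have h2 := hXmul ⟨I, hI⟩ J
    rw [hJ, mul_zero, hXray (UCN_mul ⟨I, hI⟩ J) hIJ] at h2
    exact one_ne_zero h2
  let χ : Pl L → κ := fun w => if h : CG2.GalL_X m₀ w.asIdeal then X ⟨w.asIdeal, h⟩ else 1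
  have hχ : ∀ (w : Pl L) (h : CG2.GalL_X m₀ w.asIdeal), χ w = X ⟨w.asIdeal, h⟩ :=
    fun w h => dif_pos h
  have hext : ∀ J : Ideal (𝓞 L), ∀ hJ : CG2.GalL_X m₀ J,
      ∏ᶠ w : Pl L, χ w ^ expo w J = X ⟨J, hJ⟩ := by
    intro J
    induction J using UniqueFactorizationMonoid.induction_on_prime with
    | h₁ => intro hJ; exact absurd rfl hJ.1
    | h₂ I hI =>
      intro hJ
      have h2 : I = ⊤ := by rwa [Ideal.isUnit_iff] at hI
      subst h2
      rw [UCN_ext_top]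
      exact hXone.symm
    | h₃ I P hI hP ih =>
      intro hJ
      have hPX : CG2.GalL_X m₀ P := CG2.GalL_X_left hJ
      have hIX : CG2.GalL_X m₀ I := CG2.GalL_X_right hJ
      have hPp : P.IsPrime := Ideal.isPrime_of_prime hP
      let v : Pl L := ⟨P, hPp, hPX.1⟩
      have h2 := UCN_ext_mul χ (I := P) (J := I) hPX.1 hIX.1
      have h3 : ∏ᶠ w : Pl L, χ w ^ expo w P = χ v := UCN_ext_prime χ v
      rw [h2, ih hIX, h3, hχ v hPX]
      exact (hXmul ⟨P, hPX⟩ ⟨I, hIX⟩).symm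
  refine ⟨χ, ?_, ?_, ?_⟩
  · intro w
    by_cases h : CG2.GalL_X m₀ w.asIdeal
    · rw [hχ w h]; exact hXne _
    · have h2 : χ w = 1 := dif_neg h
      rw [h2]; exact one_ne_zero
  · intro J hJ
    have hJX := CG2.GalL_X_of_ray hJ
    rw [hext J hJX]
    exact hXray ⟨J, hJX⟩ hJ
  · intro s l hs h
    -- the products
    have hprod : ∀ J : Finset (Pl L), (∀ w ∈ J, ¬ m₀ ≤ w.asIdeal) →
        ∃ W : UCN_X m₀, W.1 = ∏ w ∈ J, w.asIdeal ∧ X W = ∏ w ∈ J, χ w := by
      intro J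
      induction J using Finset.induction_on with
      | empty =>
        intro _
        refine ⟨one, ?_, ?_⟩
        · rw [Finset.prod_empty, Ideal.one_eq_top]
        · rw [Finset.prod_empty, hXone]
      | insert w J hw ih =>
        intro hJ
        obtain ⟨W, hW1, hW2⟩ := ih fun w' hw' => hJ w' (Finset.mem_insert_of_mem hw')
        have hwX := UCN_X_prime w (hJ w (Finset.mem_insert_self _ _))
        refine ⟨UCN_mul ⟨w.asIdeal, hwX⟩ W, ?_, ?_⟩
        · rw [Finset.prod_insert hw, ← hW1]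
          rfl
        · rw [Finset.prod_insert hw, hXmul, hW2, hχ w hwX]
    have hex : ∀ J ∈ s, ∃ W : UCN_X m₀, W.1 = ∏ w ∈ J, w.asIdeal ∧ X W = ∏ w ∈ J, χ w :=
      fun J hJ => hprod J (hs J hJ)
    have hne : Nonempty (UCN_X m₀) := ⟨one⟩
    choose! W hW1 hW2 using hex
    let R : Submodule κ (UCN_X m₀ → κ) :=
      { carrier := {g | ∀ I, ∑ J ∈ s, g (UCN_mul I (W J)) = l * g I}
        add_mem' := by
          intro g g' hg hg' I
          have e1 := hg I
          have e2 := hg' I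
          simp only [Pi.add_apply, Finset.sum_add_distrib]
          linear_combination e1 + e2
        zero_mem' := fun I => by simp
        smul_mem' := by
          intro c g hg I
          have e1 := hg I
          simp only [Pi.smul_apply, smul_eq_mul, ← Finset.mul_sum]
          linear_combination c * e1 }
    have h2 : f.1 ∈ R := by
      refine hrel R fun K I => ?_
      have hIK := CG2.GalL_X_mul I.2 K.2
      have h3 := h (I.1 * K.1) hIK.1 hIK.2
      change ∑ J ∈ s, a (I.1 * (W J).1 * K.1) = l * a (I.1 * K.1)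
      rw [← h3]
      refine Finset.sum_congr rfl fun J hJ => ?_
      rw [mul_right_comm, hW1 J hJ]
    have h3 : ∑ J ∈ s, f.1 (UCN_mul one (W J)) = l * f.1 one := h2 one
    have h4 : ∑ J ∈ s, f.1 (UCN_mul one (W J)) = (∑ J ∈ s, ∏ w ∈ J, χ w) * f.1 one := by
      rw [Finset.sum_mul]
      refine Finset.sum_congr rfl fun J hJ => ?_
      rw [hfX, hW2 J hJ]
    refine mul_right_cancel₀ hf1 ?_
    rw [← h4, h3]

end Pool.Agent.CGN
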