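import Mathlib

/-!
# Subspaces which are stable under diagonal matrices
-/

noncomputable section

namespace Pool.Agent.CGN

/-- **UCrd.** A subspace `W` of `k^ι` is a coordinate subspace or there are two different indices
`a`, `b` such that all diagonal matrices which map `W` to itself have the same entries at `a` and
`b`.
PROOF. The diagonal matrices which map `W` to itself are a subalgebra of `k^ι`; if it separates the
indices it contains all idempotents. -/
theorem coord_or_pair {k ι : Type} [Field k] [Fintype ι] [DecidableEq ι]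
    (W : Submodule k (ι → k)) :
    (∃ J : Finset ι, ∀ x, x ∈ W ↔ ∀ i ∈ J, x i = 0) ∨
      ∃ a b : ι, a ≠ b ∧ ∀ t : ι → k, (∀ x ∈ W, t * x ∈ W) → t a = t b := by
  classical
  by_cases h : ∃ a b : ι, a ≠ b ∧ ∀ t : ι → k, (∀ x ∈ W, t * x ∈ W) → t a = t b
  · exact Or.inr h
  left
  push Not at h
  -- the idempotents
  have hs : ∀ a b : ι, a ≠ b → ∃ s : ι → k, (∀ x ∈ W, s * x ∈ W) ∧ s a = 1 ∧ s b = 0 := by
    intro a b hab
    obtain ⟨t, ht, hne⟩ := h a b hab
    have hd : t a - t b ≠ 0 := sub_ne_zero.2 hne
    refine ⟨fun i => (t a - t b)⁻¹ * (t i - t b), ?_, ?_, ?_⟩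
    · intro x hx
      have h1 : (fun i => (t a - t b)⁻¹ * (t i - t b)) * x =
          (t a - t b)⁻¹ • (t * x - t b • x) := by
        funext i
        simp only [Pi.mul_apply, Pi.smul_apply, Pi.sub_apply, smul_eq_mul]
        ring
      rw [h1]
      exact W.smul_mem _ (W.sub_mem (ht x hx) (W.smul_mem _ hx))
    · exact inv_mul_cancel₀ hd
    · simp
  choose! s hs1 hs2 hs3 using hs
  have he : ∀ a : ι, ∀ x ∈ W, Pi.single a (x a) ∈ W := by
    intro a x hx
    have h1 : ∀ B : Finset ι, a ∉ B → (∏ b ∈ B, s a b) * x ∈ W := by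
      intro B
      induction B using Finset.induction_on with
      | empty =>
        intro _
        rw [Finset.prod_empty, one_mul]
        exact hx
      | insert b B hb ih =>
        intro ha
        rw [Finset.prod_insert hb, mul_assoc]
        exact hs1 a b (fun h => ha (by rw [h]; exact Finset.mem_insert_self _ _)) _
          (ih fun h => ha (Finset.mem_insert_of_mem h))
    have h2 := h1 (Finset.univ.erase a) (Finset.notMem_erase _ _)
    have h3 : (∏ b ∈ Finset.univ.erase a, s a b) * x = Pi.single a (x a) := by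
      funext i
      rw [Pi.mul_apply, Finset.prod_apply]
      by_cases hi : i = a
      · subst hi
        rw [Pi.single_eq_same, Finset.prod_eq_one, one_mul]
        intro b hb
        exact hs2 i b (Finset.ne_of_mem_erase hb).symm
      · have h4 : ∏ b ∈ Finset.univ.erase a, s a b i = 0 :=
          Finset.prod_eq_zero (Finset.mem_erase.2 ⟨hi, Finset.mem_univ i⟩) (hs3 a i (Ne.symm hi))
        rw [Pi.single_eq_of_ne hi, h4, zero_mul]
    rwa [h3] at h2
  refine ⟨Finset.univ.filter fun a => ∀ x ∈ W, x a = 0, fun x => ⟨fun hx i hi => ?_, fun hx => ?_⟩⟩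
  · exact (Finset.mem_filter.1 hi).2 x hx
  · have h1 : x = ∑ a, Pi.single a (x a) := by
      funext i
      rw [Finset.sum_apply, Finset.sum_eq_single i]
      · rw [Pi.single_eq_same]
      · intro b _ hb
        rw [Pi.single_eq_of_ne (Ne.symm hb)]
      · intro hi
        exact absurd (Finset.mem_univ i) hi
    rw [h1]
    refine W.sum_mem fun a _ => ?_
    by_cases ha : ∀ y ∈ W, y a = 0
    · rw [hx a (Finset.mem_filter.2 ⟨Finset.mem_univ a, ha⟩), Pi.single_zero]
      exact W.zero_mem
    · push Not at ha
      obtain ⟨y, hy, hya⟩ := ha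
      have h2 : Pi.single a (x a) = (x a * (y a)⁻¹) • (Pi.single a (y a) : ι → k) := by
        rw [← Pi.single_smul, smul_eq_mul, inv_mul_cancel_right₀ hya]
      rw [h2]
      exact W.smul_mem _ (he a y hy)

end Pool.Agent.CGN
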