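import Pool.Agent.CGN.URes
import Pool.Agent.CG2.GalFin

/-!
# Integral matrices come from integral elements
-/

noncomputable section

namespace Pool.Agent.CGN

open NumberField IsDedekindDomain Matrix Polynomial
open Pool.Agent.CG2 (Pl Fv Ov)
open Pool.Agent.CG2.GalFinAux (below)

/-- A root of a monic polynomial with coefficients of valuation `≤ 1`. -/
theorem val_le_of_root {K : Type} [Field K] {Γ : Type} [LinearOrderedCommGroupWithZero Γ]
    (w : Valuation K Γ) (Q : K[X]) (hQ : Q.Monic) (hc : ∀ j, w (Q.coeff j) ≤ 1) {x : K}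
    (hx : Q.eval x = 0) : w x ≤ 1 := by
  by_contra h
  push Not at h
  have h0 : x ^ Q.natDegree = -∑ j ∈ Finset.range Q.natDegree, Q.coeff j * x ^ j := by
    have h1 := hx
    rw [Polynomial.eval_eq_sum_range, Finset.sum_range_succ, hQ.coeff_natDegree, one_mul] at h1
    linear_combination h1
  have hx0 : w x ≠ 0 := (zero_lt_one.trans h).ne'
  have h2 : w (x ^ Q.natDegree) < w x ^ Q.natDegree := by
    rw [h0, Valuation.map_neg]
    refine Valuation.map_sum_lt _ (pow_ne_zero _ hx0) fun j hj => ?_
    rw [map_mul, map_pow]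
    calc w (Q.coeff j) * w x ^ j ≤ 1 * w x ^ j := mul_le_mul_left (hc j) _
      _ = w x ^ j := one_mul _
      _ < w x ^ Q.natDegree := pow_lt_pow_right₀ h (Finset.mem_range.1 hj)
  rw [map_pow] at h2
  exact lt_irrefl _ h2

variable {F : Type} [Field F] [NumberField F] {L : Type} [Field L] [NumberField L] [Algebra F L]
variable {ι : Type} [Fintype ι] [DecidableEq ι]

/-- **UInt.** If the matrix of `x` is integral at `v` then `x` is integral above `v`.
PROOF. The minimal polynomial `Q` of `x` over `F` divides the characteristic polynomial of the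
matrix over `F_v`, because the powers of the matrix with exponents smaller than the degree of `Q` are
linearly independent over `F_v`. So its coefficients are integral at `v` by the lemma of Gauss. -/
theorem val_le_of_int {v : Pl F} {w : Pl L} (hw : below F w = v) (ψ : L →+* Matrix ι ι (Fv v))
    (hF : ∀ a : F, ψ (algebraMap F L a) = ((a : F) : Fv v) • (1 : Matrix ι ι (Fv v))) (x : L)
    (hLI : ∀ d : ℕ, LinearIndependent F (fun i : Fin d => x ^ (i : ℕ)) →
      LinearIndependent (Fv v) (fun i : Fin d => ψ x ^ (i : ℕ)))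
    (hx : ∀ i j, Valued.v (ψ x i j) ≤ 1) : w.valuation L x ≤ 1 := by
  classical
  have hfd : FiniteDimensional F L := Module.Finite.of_restrictScalars_finite ℚ F L
  have hxi : IsIntegral F x := Algebra.IsIntegral.isIntegral x
  set Q : F[X] := minpoly F x with hQdef
  have hQm : Q.Monic := minpoly.monic hxi
  set Qv : (Fv v)[X] := Q.map (algebraMap F (Fv v)) with hQv
  have hQvm : Qv.Monic := hQm.map _
  have hdeg : Qv.natDegree = Q.natDegree := Polynomial.natDegree_map _
  -- `Q (ψ x) = 0`
  have hQψ : aeval (ψ x) Qv = 0 := by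
    have h1 : aeval (ψ x) Qv = ψ (aeval x Q) := by
      rw [aeval_def, aeval_def, hQv, eval₂_map, Polynomial.hom_eval₂]
      congr 1
      apply RingHom.ext
      intro a
      change algebraMap (Fv v) (Matrix ι ι (Fv v)) ((a : F) : Fv v) = ψ (algebraMap F L a)
      rw [hF, Algebra.algebraMap_eq_smul_one]
    rw [h1, minpoly.aeval, map_zero]
  -- `Qv` divides the characteristic polynomial
  have hdvd : Qv ∣ (ψ x).charpoly := by
    have h1 := Polynomial.modByMonic_add_div (ψ x).charpoly Qv
    have h2 : aeval (ψ x) ((ψ x).charpoly %ₘ Qv) = 0 := by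
      have h3 := congrArg (aeval (ψ x)) h1
      rw [map_add, map_mul, hQψ, zero_mul, add_zero, Matrix.aeval_self_charpoly] at h3
      exact h3
    have h3 : (ψ x).charpoly %ₘ Qv = 0 := by
      have h4 := hLI Q.natDegree (linearIndependent_pow x)
      have hlt : ((ψ x).charpoly %ₘ Qv).natDegree < Q.natDegree ∨ (ψ x).charpoly %ₘ Qv = 0 := by
        by_cases h0 : (ψ x).charpoly %ₘ Qv = 0
        · exact Or.inr h0
        · left
          rw [← hdeg]
          exact Polynomial.natDegree_lt_natDegree h0 (Polynomial.degree_modByMonic_lt _ hQvm)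
      rcases hlt with hlt | h0
      · rw [Polynomial.aeval_eq_sum_range' hlt] at h2
        have h5 := Fintype.linearIndependent_iff.1 h4
          (fun i => ((ψ x).charpoly %ₘ Qv).coeff (i : ℕ)) (by
            rw [← h2, Finset.sum_range])
        refine Polynomial.ext fun j => ?_
        rw [Polynomial.coeff_zero]
        by_cases hj : j < Q.natDegree
        · exact h5 ⟨j, hj⟩
        · exact Polynomial.coeff_eq_zero_of_natDegree_lt (by omega)
      · exact h0
    rw [h3, zero_add] at h1
    exact ⟨_, h1.symm⟩
  -- the characteristic polynomial is integral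
  let X : Matrix ι ι (Ov v) := Matrix.of fun i j => ⟨ψ x i j, hx i j⟩
  have hX : X.map (algebraMap (Ov v) (Fv v)) = ψ x := rfl
  have hchar : (ψ x).charpoly = X.charpoly.map (algebraMap (Ov v) (Fv v)) := by
    rw [← Matrix.charpoly_map]
    rfl
  have hcoef : ∀ j, v.valuation F (Q.coeff j) ≤ 1 := by
    intro j
    rw [hchar] at hdvd
    obtain ⟨g', hg'⟩ := IsIntegrallyClosed.eq_map_mul_C_of_dvd (Fv v) (Matrix.charpoly_monic X) hdvd
    rw [hQvm.leadingCoeff, map_one, mul_one] at hg'
    have h1 := congrArg (fun q : (Fv v)[X] => q.coeff j) hg'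
    simp only [Polynomial.coeff_map, hQv] at h1
    have h2 : Valued.v ((Q.coeff j : F) : Fv v) ≤ 1 := by
      change Valued.v (algebraMap F (Fv v) (Q.coeff j)) ≤ 1
      rw [← h1]
      exact (g'.coeff j).2
    rwa [HeightOneSpectrum.valuedAdicCompletion_eq_valuation'] at h2
  -- conclusion
  have hlo : w.asIdeal.LiesOver v.asIdeal :=
    CG2.GalFinAux.liesOver_of_lies (CG2.GalFinAux.lies_iff.2 hw)
  refine val_le_of_root (w.valuation L) (Q.map (algebraMap F L)) (hQm.map _) (fun j => ?_) ?_
  · rw [Polynomial.coeff_map, ← HeightOneSpectrum.valuation_liesOver L v w]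
    exact pow_le_one₀ zero_le (hcoef j)
  · rw [Polynomial.eval_map, ← aeval_def]
    exact minpoly.aeval F x

end Pool.Agent.CGN
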