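import Pool.Agent.CGN.UPer
import Pool.Agent.CGN.UCan

/-!
# The sum over the cosets: only the diagonal cosets remain
-/

noncomputable section

namespace Pool.Agent.CGN

open Matrix

variable {R k ι E : Type} [CommRing R] [Field k] [Fintype ι] [DecidableEq ι] (res : R →+* k)
variable [Field E] [Algebra R E]

omit [Field E] [Algebra R E] in
private theorem ulsum_conj {π : R} (hker : ∀ x, res x = 0 → ∃ y, x = π * y) (a : Matrix ι ι R)
    {t : ι → k} (ha : a.map res = diagonal t) (J : Finset ι) :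
    ∃ U : Matrix ι ι R, a * DJ π J = DJ π J * U := by
  classical
  have h1 : ∀ i j, i ≠ j → ∃ y, a i j = π * y := by
    intro i j hij
    refine hker _ ?_
    have h2 := congrFun (congrFun ha i) j
    rwa [Matrix.map_apply, diagonal_apply_ne _ hij] at h2
  choose! y hy using h1
  refine ⟨Matrix.of fun i j => if i = j then a i j else if i ∈ J then
    y i j * (if j ∈ J then π else 1) else a i j * (if j ∈ J then π else 1), ?_⟩
  ext i j
  rw [DJ, mul_diagonal, diagonal_mul, Matrix.of_apply]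
  by_cases hij : i = j
  · subst hij
    rw [if_pos rfl, mul_comm]
  · rw [if_neg hij]
    by_cases hi : i ∈ J
    · rw [if_pos hi, if_pos hi, hy i j hij, mul_assoc]
    · rw [if_neg hi, if_neg hi, one_mul]

/-- **ULSumA.** Integral matrices which are diagonal modulo `π` fix the diagonal cosets. -/
theorem diag_fix (hinj : Function.Injective (algebraMap R E)) {π : R}
    (hπ : algebraMap R E π ≠ 0) (hker : ∀ x, res x = 0 → ∃ y, x = π * y) (a : GL ι R)
    (t : ι → kˣ) (ha : (a : Matrix ι ι R).map res = diagonal fun i => (t i : k)) (J : Finset ι) :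
    GeneralLinearGroup.map (algebraMap R E) a •
      ((DJu (algebraMap R E π) hπ J : GL ι E) : GL ι E ⧸ GZg R ι E) =
      ((DJu (algebraMap R E π) hπ J : GL ι E) : GL ι E ⧸ GZg R ι E) := by
  have ha' : ((a⁻¹ : GL ι R) : Matrix ι ι R).map res = diagonal fun i => (((t i)⁻¹ : kˣ) : k) := by
    have h1 : GeneralLinearGroup.map res a =
        Units.map (Matrix.diagonalRingHom ι k : (ι → k) →* Matrix ι ι k)
          (MulEquiv.piUnits.symm t) := Units.ext ha
    have h2 : GeneralLinearGroup.map res a⁻¹ =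
        Units.map (Matrix.diagonalRingHom ι k : (ι → k) →* Matrix ι ι k)
          (MulEquiv.piUnits.symm t⁻¹) := by
      rw [map_inv, h1, map_inv, map_inv]
    exact congrArg Units.val h2
  obtain ⟨U, hU⟩ := ulsum_conj res hker (a : Matrix ι ι R) ha J
  obtain ⟨V, hV⟩ := ulsum_conj res hker ((a⁻¹ : GL ι R) : Matrix ι ι R) ha' J
  change ((GeneralLinearGroup.map (algebraMap R E) a * DJu (algebraMap R E π) hπ J : GL ι E) :
    GL ι E ⧸ GZg R ι E) = _
  refine coset_eq hinj (U := U) (V := V) ?_ ?_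
  · rw [Units.val_mul, DJu_val, ← DJ_map, ← Matrix.map_mul, ← hU, Matrix.map_mul]
    rfl
  · rw [Units.val_mul, DJu_val, mul_assoc, ← DJ_map, ← Matrix.map_mul, ← hV, Matrix.map_mul,
      ← mul_assoc]
    have h3 : ((GeneralLinearGroup.map (algebraMap R E) a : GL ι E) : Matrix ι ι E) *
        (((a⁻¹ : GL ι R) : Matrix ι ι R).map (algebraMap R E)) = 1 := by
      have h4 : (GeneralLinearGroup.map (algebraMap R E) a *
          GeneralLinearGroup.map (algebraMap R E) a⁻¹ : GL ι E) = 1 := by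
        rw [← map_mul, mul_inv_cancel, map_one]
      exact congrArg Units.val h4
    rw [h3, one_mul]

private theorem ulsum_pow {G : Type} [Group G] (m A : G) (i : ℕ) :
    (m⁻¹ * A * m) ^ i = m⁻¹ * A ^ i * m := by
  induction i with
  | zero => simp
  | succ i ih => rw [pow_succ, ih, pow_succ]; group

theorem smul_cosg {π : E} (hπ : π ≠ 0) {J : Finset ι} {m : GL ι E} (hm : m ∈ GZg R ι E)
    {c : GL ι E ⧸ GZg R ι E} (hc : c ∈ cosg R π hπ J) : m • c ∈ cosg R π hπ J := by
  obtain ⟨u, hu, rfl⟩ := hc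
  exact ⟨m * u, (GZg R ι E).mul_mem hm hu, by rw [mul_assoc]; rfl⟩

/-- **ULSumB.** The sum over representatives of the orbits of `A` on the cosets of a double coset is
the sum over the diagonal cosets.
PROOF. `sum_reps` with `Z` the set of the `m • [DJu J]`; `coset_return`, `diag_fix`, `mem_cosg`,
`DJu_inj`. -/
theorem local_sum (hinj : Function.Injective (algebraMap R E)) (hres : Function.Surjective res)
    {π : R} (hπ : algebraMap R E π ≠ 0) (hker : ∀ x, res x = 0 → ∃ y, x = π * y) (hπ0 : res π = 0)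
    (hnu : ¬ IsUnit π) {κ : Type} [Field κ] {p : ℕ} [hp : Fact p.Prime] [CharP κ p] (M : ℕ)
    {m A B : GL ι E} (hm : m ∈ GZg R ι E) (hAB : A * B = B * A) (a b : GL ι R)
    (hA : m⁻¹ * A * m = GeneralLinearGroup.map (algebraMap R E) a)
    (hB : m⁻¹ * B * m = GeneralLinearGroup.map (algebraMap R E) b) (ta tb : ι → kˣ)
    (ha : (a : Matrix ι ι R).map res = diagonal fun i => (ta i : k))
    (hb : (b : Matrix ι ι R).map res = diagonal fun i => (tb i : k))
    (hpow : ∀ x y, x ≠ y → ∃ z : kˣ, z ^ p ^ M = ta x / ta y)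
    (hnpow : ∀ x y, x ≠ y → ¬ ∃ z : kˣ, z ^ p ^ M = tb x / tb y) (J₀ : Finset ι)
    (N : Finset (GL ι E ⧸ GZg R ι E)) (hN : ∀ c, c ∈ N ↔ c ∈ cosg R (algebraMap R E π) hπ J₀)
    (H : GL ι E ⧸ GZg R ι E → κ) (hHA : ∀ c, H (A • c) = H c) (hHB : ∀ c, H (B • c) = H c)
    (Rr : Finset (GL ι E ⧸ GZg R ι E)) (hR1 : Rr ⊆ N)
    (hR2 : ∀ c ∈ N, ∃ r ∈ Rr, ∃ n : ℕ, (fun c => A • c)^[n] r = c)
    (hR3 : ∀ r ∈ Rr, ∀ r' ∈ Rr, ∀ n : ℕ, (fun c => A • c)^[n] r = r' → r = r') :
    ∑ c ∈ Rr, H c = ∑ J ∈ Finset.powersetCard J₀.card (Finset.univ : Finset ι),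
      H (m • ((DJu (algebraMap R E π) hπ J : GL ι E) : GL ι E ⧸ GZg R ι E)) := by
  classical
  set D : Finset ι → GL ι E ⧸ GZg R ι E := fun J =>
    ((DJu (algebraMap R E π) hπ J : GL ι E) : GL ι E ⧸ GZg R ι E) with hD
  have hAe : A = m * GeneralLinearGroup.map (algebraMap R E) a * m⁻¹ := by rw [← hA]; group
  have hBe : B = m * GeneralLinearGroup.map (algebraMap R E) b * m⁻¹ := by rw [← hB]; group
  have hBm : B ∈ GZg R ι E := by
    rw [hBe]
    exact (GZg R ι E).mul_mem ((GZg R ι E).mul_mem hm ⟨b, rfl⟩) ((GZg R ι E).inv_mem hm)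
  have hpowA : ∀ (i : ℕ) (c : GL ι E ⧸ GZg R ι E), A ^ i • (m • c) =
      m • ((GeneralLinearGroup.map (algebraMap R E) a) ^ i • c) := by
    intro i c
    rw [smul_smul, smul_smul, ← hA, ulsum_pow]
    congr 1
    group
  have hpowB : ∀ (i : ℕ) (c : GL ι E ⧸ GZg R ι E), B ^ i • (m • c) =
      m • ((GeneralLinearGroup.map (algebraMap R E) b) ^ i • c) := by
    intro i c
    rw [smul_smul, smul_smul, ← hB, ulsum_pow]
    congr 1
    group
  have hitA : ∀ (i : ℕ) (c : GL ι E ⧸ GZg R ι E), (fun c => A • c)^[i] c = A ^ i • c := by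
    intro i
    induction i with
    | zero => intro c; rw [pow_zero, one_smul]; rfl
    | succ i ih => intro c; rw [Function.iterate_succ_apply, ih, pow_succ, mul_smul]
  have hitB : ∀ (i : ℕ) (c : GL ι E ⧸ GZg R ι E), (fun c => B • c)^[i] c = B ^ i • c := by
    intro i
    induction i with
    | zero => intro c; rw [pow_zero, one_smul]; rfl
    | succ i ih => intro c; rw [Function.iterate_succ_apply, ih, pow_succ, mul_smul]
  have hDm : Function.Injective fun J : Finset ι => m • D J := fun J J' h =>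
    DJu_inj hinj hπ hnu (MulAction.injective m h)
  have h1 := sum_reps (p := p) (fun c => A • c) (fun c => B • c) (MulAction.injective A)
    (MulAction.injective B) (fun c => by
      change A • B • c = B • A • c
      rw [smul_smul, smul_smul, hAB]) N
    ((Finset.powersetCard J₀.card (Finset.univ : Finset ι)).image fun J => m • D J) Rr
    (fun c hc => (hN _).2 (smul_cosg hπ hBm ((hN _).1 hc)))
    (fun c hc => by
      obtain ⟨J, hJ, rfl⟩ := Finset.mem_image.1 hc
      exact (hN _).2 (smul_cosg hπ hm ((mem_cosg hinj hπ hnu).2 (Finset.mem_powersetCard.1 hJ).2)))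
    (fun c hc => by
      obtain ⟨J, hJ, rfl⟩ := Finset.mem_image.1 hc
      have h2 := hpowA 1 (D J)
      rw [pow_one, pow_one, hD, diag_fix res hinj hπ hker a ta ha] at h2
      exact h2)
    (fun c hc => by
      obtain ⟨J, hJ, rfl⟩ := Finset.mem_image.1 hc
      have h2 := hpowB 1 (D J)
      rw [pow_one, pow_one, hD, diag_fix res hinj hπ hker b tb hb] at h2
      exact h2) H hHA hHB
    (fun c hc hcZ j i hji => by
      have hc' : m⁻¹ • c ∈ cosg R (algebraMap R E π) hπ J₀ :=
        smul_cosg hπ ((GZg R ι E).inv_mem hm) ((hN _).1 hc)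
      obtain ⟨g, G, G', hg, hG, hGG⟩ := cosg_out hπ hc'
      refine coset_return res hinj hres hπ hker hπ0 hp.out M g G G' hG hGG a b ta tb ha hb hpow
        hnpow ?_ i j ?_
      · intro J hJ
        rw [hg] at hJ
        apply hcZ
        rw [hJ] at hc'
        refine Finset.mem_image.2 ⟨J, Finset.mem_powersetCard.2 ⟨Finset.subset_univ _,
          (mem_cosg hinj hπ hnu).1 hc'⟩, ?_⟩
        change m • ((DJu (algebraMap R E π) hπ J : GL ι E) : GL ι E ⧸ GZg R ι E) = c
        rw [← hJ, smul_inv_smul]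
      · rw [hg]
        rw [hitA, hitB] at hji
        have h3 := hpowA i (m⁻¹ • c)
        have h4 := hpowB j (m⁻¹ • c)
        rw [smul_inv_smul] at h3 h4
        rw [h3, h4] at hji
        exact MulAction.injective m hji) hR1 hR2 hR3
  rw [h1, Finset.sum_image fun J _ J' _ h => hDm h]

end Pool.Agent.CGN
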