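import Mathlib

/-!
# Linear independence and extension of scalars
-/

noncomputable section

namespace Pool.Agent.CGN

/-- **ULin.** Linearly independent vectors remain linearly independent over a larger field. -/
theorem li_map {F E κ : Type} [Field F] [Field E] [Fintype κ] (φ : F →+* E) {d : ℕ}
    (f : Fin d → κ → F) (hf : LinearIndependent F f) :
    LinearIndependent E fun i k => φ (f i k) := by
  classical
  obtain ⟨g, hg⟩ := LinearMap.exists_leftInverse_of_injective
    (Fintype.linearCombination F f) (by
      rw [LinearMap.ker_eq_bot']
      intro c hc
      funext i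
      exact Fintype.linearIndependent_iff.1 hf c (by
        rw [← hc, Fintype.linearCombination_apply]) i)
  have hgf : ∀ i j, g (f i) j = if i = j then 1 else 0 := by
    intro i j
    have h1 := LinearMap.congr_fun hg (Pi.single i 1)
    rw [LinearMap.comp_apply, LinearMap.id_apply, Fintype.linearCombination_apply_single,
      one_smul] at h1
    rw [h1, Pi.single_apply]
    simp only [eq_comm]
  have hsum : ∀ i j, ∑ k, f i k * g (Pi.single k 1) j = if i = j then 1 else 0 := by
    intro i j
    rw [← hgf i j]
    have h2 : f i = ∑ k, f i k • (Pi.single k 1 : κ → F) := by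
      funext k
      rw [Finset.sum_apply, Finset.sum_eq_single k]
      · simp
      · intro b _ hb
        simp [Pi.single_apply, Ne.symm hb]
      · intro hk
        exact absurd (Finset.mem_univ k) hk
    conv_rhs => rw [h2, map_sum, Finset.sum_apply]
    refine Finset.sum_congr rfl fun k _ => ?_
    rw [map_smul, Pi.smul_apply, smul_eq_mul]
  rw [Fintype.linearIndependent_iff]
  intro c hc j
  have h3 : ∀ k, ∑ i, c i * φ (f i k) = 0 := by
    intro k
    have h4 := congrFun hc k
    rw [Finset.sum_apply] at h4
    exact h4
  calc c j = ∑ i, c i * (if i = j then 1 else 0) := by simp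
    _ = ∑ i, c i * ∑ k, φ (f i k) * φ (g (Pi.single k 1) j) := by
        refine Finset.sum_congr rfl fun i _ => ?_
        congr 1
        have h5 := congrArg φ (hsum i j)
        rw [map_sum, apply_ite φ, map_one, map_zero] at h5
        rw [← h5]
        refine Finset.sum_congr rfl fun k _ => ?_
        rw [map_mul]
    _ = ∑ k, (∑ i, c i * φ (f i k)) * φ (g (Pi.single k 1) j) := by
        simp only [Finset.mul_sum, Finset.sum_mul]
        rw [Finset.sum_comm]
        refine Finset.sum_congr rfl fun k _ => Finset.sum_congr rfl fun i _ => ?_
        ring
    _ = 0 := by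
        simp only [h3, zero_mul, Finset.sum_const_zero]

end Pool.Agent.CGN
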