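import Pool.Agent.CGN.UMat

/-!
# The cosets of `GL_n(E) / GL_n(R)`
-/

noncomputable section

namespace Pool.Agent.CGN

open Matrix

/-- **ULocA.** A congruence for exponents. -/
theorem dvd_of_pow_eq {K : Type} [CommGroup K] {p : ℕ} (hp : p.Prime) {M i j : ℕ} {r s : K}
    (h : r ^ j = s ^ i) (hs : ∃ z, z ^ p ^ M = s) (hr : ¬ ∃ z, z ^ p ^ M = r) : p ∣ j := by
  by_contra hj
  obtain ⟨z, rfl⟩ := hs
  apply hr
  have h1 : IsCoprime (j : ℤ) ((p ^ M : ℕ) : ℤ) :=
    Nat.isCoprime_iff_coprime.2 (((Nat.Prime.coprime_iff_not_dvd hp).2 hj).symm.pow_right M)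
  obtain ⟨x, y, hxy⟩ := h1
  refine ⟨(z ^ i) ^ x * r ^ y, ?_⟩
  have h2 : r ^ (j : ℤ) = (z ^ i) ^ ((p ^ M : ℕ) : ℤ) := by
    rw [zpow_natCast, zpow_natCast, h, ← pow_mul, ← pow_mul, mul_comm]
  calc ((z ^ i) ^ x * r ^ y) ^ p ^ M = ((z ^ i) ^ ((p ^ M : ℕ) : ℤ)) ^ x *
        r ^ (y * ((p ^ M : ℕ) : ℤ)) := by
        rw [mul_pow, ← zpow_natCast ((z ^ i) ^ x), ← zpow_natCast (r ^ y), ← _root_.zpow_mul r,
          ← _root_.zpow_mul (z ^ i), ← _root_.zpow_mul (z ^ i), mul_comm x]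
    _ = r ^ (x * (j : ℤ) + y * ((p ^ M : ℕ) : ℤ)) := by
        rw [← h2, ← _root_.zpow_mul r, _root_.zpow_add, mul_comm x]
    _ = r := by rw [hxy, zpow_one]

variable {R k ι E : Type} [CommRing R] [Field k] [Fintype ι] [DecidableEq ι] (res : R →+* k)
variable [Field E] [Algebra R E]

/-- The group `GL_n(R)` in `GL_n(E)`. -/
abbrev GZg (R ι E : Type) [CommRing R] [Fintype ι] [DecidableEq ι] [Field E] [Algebra R E] :
    Subgroup (GL ι E) := (GeneralLinearGroup.map (n := ι) (algebraMap R E)).range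

/-- The diagonal matrix with the entries `π` for the indices in `J` and `1` for the others, as an
element of `GL_n(E)`. -/
def DJu (π : E) (hπ : π ≠ 0) (J : Finset ι) : GL ι E where
  val := DJ π J
  inv := DJ π⁻¹ J
  val_inv := by
    rw [DJ, DJ, diagonal_mul_diagonal, ← diagonal_one]
    congr 1
    funext i
    by_cases h : i ∈ J
    · rw [if_pos h, if_pos h, mul_inv_cancel₀ hπ]
    · rw [if_neg h, if_neg h, one_mul]
  inv_val := by
    rw [DJ, DJ, diagonal_mul_diagonal, ← diagonal_one]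
    congr 1
    funext i
    by_cases h : i ∈ J
    · rw [if_pos h, if_pos h, inv_mul_cancel₀ hπ]
    · rw [if_neg h, if_neg h, one_mul]

theorem DJu_val (π : E) (hπ : π ≠ 0) (J : Finset ι) :
    ((DJu π hπ J : GL ι E) : Matrix ι ι E) = DJ π J := rfl

omit [Fintype ι] in
theorem DJ_map (π : R) (J : Finset ι) :
    (DJ π J).map (algebraMap R E) = DJ (algebraMap R E π) J := by
  rw [DJ, DJ, diagonal_map (map_zero _)]
  congr 1
  funext i
  rw [apply_ite (algebraMap R E), map_one]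

/-- `g GL_n(R) = h GL_n(R)`, if `g = h U` and `h = g V` with `U`, `V` integral. -/
theorem coset_eq (hinj : Function.Injective (algebraMap R E)) {g h : GL ι E} {U V : Matrix ι ι R}
    (hU : (g : Matrix ι ι E) = (h : Matrix ι ι E) * U.map (algebraMap R E))
    (hV : (h : Matrix ι ι E) = (g : Matrix ι ι E) * V.map (algebraMap R E)) :
    (g : GL ι E ⧸ GZg R ι E) = (h : GL ι E ⧸ GZg R ι E) := by
  have hm : ∀ A B : Matrix ι ι R, A.map (algebraMap R E) = B.map (algebraMap R E) → A = B := by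
    intro A B hAB
    ext i j
    exact hinj (congrFun (congrFun hAB i) j)
  have h1 : ((g⁻¹ * h : GL ι E) : Matrix ι ι E) = V.map (algebraMap R E) := by
    rw [Units.val_mul, hV, ← mul_assoc, ← Units.val_mul, inv_mul_cancel, Units.val_one, one_mul]
  have h2 : ((h⁻¹ * g : GL ι E) : Matrix ι ι E) = U.map (algebraMap R E) := by
    rw [Units.val_mul, hU, ← mul_assoc, ← Units.val_mul, inv_mul_cancel, Units.val_one, one_mul]
  have h3 : V * U = 1 := by
    apply hm
    rw [Matrix.map_mul, ← h1, ← h2, Matrix.map_one _ (map_zero _) (map_one _), ← Units.val_mul]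
    rw [show g⁻¹ * h * (h⁻¹ * g) = 1 by group, Units.val_one]
  have h4 : U * V = 1 := by
    apply hm
    rw [Matrix.map_mul, ← h1, ← h2, Matrix.map_one _ (map_zero _) (map_one _), ← Units.val_mul]
    rw [show h⁻¹ * g * (g⁻¹ * h) = 1 by group, Units.val_one]
  rw [QuotientGroup.eq]
  exact ⟨⟨V, U, h3, h4⟩, Units.ext h1.symm⟩

/-- **ULocB.** The cosets which are not diagonal do not return.
PROOF. `WG` of `G` is not a coordinate subspace by `WG_coord`, so `coord_or_pair` gives indices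
`x ≠ y`; the matrix `a⁻ⁱ bʲ` maps `WG` to itself (`WG_stab`), so its diagonal entries modulo `π` at `x`
and `y` agree: apply `dvd_of_pow_eq`. -/
theorem coset_return (hinj : Function.Injective (algebraMap R E)) (hres : Function.Surjective res)
    {π : R} (hπ : algebraMap R E π ≠ 0) (hker : ∀ x, res x = 0 → ∃ y, x = π * y) (hπ0 : res π = 0)
    {p : ℕ} (hp : p.Prime) (M : ℕ) (g : GL ι E) (G G' : Matrix ι ι R)
    (hG : (g : Matrix ι ι E) = G.map (algebraMap R E)) (hGG : G * G' = π • (1 : Matrix ι ι R))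
    (a b : GL ι R) (ta tb : ι → kˣ)
    (ha : (a : Matrix ι ι R).map res = diagonal fun i => (ta i : k))
    (hb : (b : Matrix ι ι R).map res = diagonal fun i => (tb i : k))
    (hpow : ∀ x y, x ≠ y → ∃ z : kˣ, z ^ p ^ M = ta x / ta y)
    (hnpow : ∀ x y, x ≠ y → ¬ ∃ z : kˣ, z ^ p ^ M = tb x / tb y)
    (hno : ∀ J : Finset ι,
      (g : GL ι E ⧸ GZg R ι E) ≠ ((DJu (algebraMap R E π) hπ J : GL ι E) : GL ι E ⧸ GZg R ι E))
    (i j : ℕ)
    (h : (GeneralLinearGroup.map (algebraMap R E) b) ^ j • (g : GL ι E ⧸ GZg R ι E) =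
      (GeneralLinearGroup.map (algebraMap R E) a) ^ i • (g : GL ι E ⧸ GZg R ι E)) : p ∣ j := by
  have hm : ∀ A B : Matrix ι ι R, A.map (algebraMap R E) = B.map (algebraMap R E) → A = B := by
    intro A B hAB
    ext i j
    exact hinj (congrFun (congrFun hAB i) j)
  rcases coord_or_pair (WG res G) with ⟨J, hJ⟩ | ⟨x, y, hxy, ht⟩
  · exfalso
    obtain ⟨⟨U, hU⟩, ⟨V, hV⟩⟩ := WG_coord res hres hker hπ0 hGG hJ
    refine hno J (coset_eq hinj (U := V) (V := U) ?_ ?_)
    · rw [DJu_val, hG, ← DJ_map, ← Matrix.map_mul, ← hV]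
    · rw [DJu_val, hG, ← DJ_map, ← Matrix.map_mul, ← hU]
  · -- the matrix `a⁻ⁱ bʲ`
    obtain ⟨⟨C, hC⟩⟩ : Nonempty {C : GL ι R // (GeneralLinearGroup.map (algebraMap R E)
        ((a ^ i)⁻¹ * b ^ j)) * g = g * GeneralLinearGroup.map (algebraMap R E) C} := by
      have h1 : (((GeneralLinearGroup.map (algebraMap R E) a) ^ i)⁻¹ *
          (GeneralLinearGroup.map (algebraMap R E) b) ^ j) • (g : GL ι E ⧸ GZg R ι E) =
          (g : GL ι E ⧸ GZg R ι E) := by
        rw [mul_smul, h, inv_smul_smul]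
      have h2 : ((g * 1 : GL ι E) : GL ι E ⧸ GZg R ι E) =
          (((((GeneralLinearGroup.map (algebraMap R E) a) ^ i)⁻¹ *
            (GeneralLinearGroup.map (algebraMap R E) b) ^ j) * g : GL ι E) :
              GL ι E ⧸ GZg R ι E) := by
        rw [mul_one]
        exact h1.symm
      rw [mul_one, QuotientGroup.eq] at h2
      obtain ⟨C, hC⟩ := h2
      refine ⟨⟨C, ?_⟩⟩
      rw [hC, mul_inv_cancel_left, map_mul, map_inv, map_pow, map_pow]
    have hX : (((a ^ i)⁻¹ * b ^ j : GL ι R) : Matrix ι ι R) * G = G * (C : Matrix ι ι R) := by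
      apply hm
      rw [Matrix.map_mul, Matrix.map_mul, ← hG]
      exact congrArg Units.val hC
    have hmap : ∀ (c : GL ι R) (t : ι → kˣ), (c : Matrix ι ι R).map res =
        diagonal (fun i => (t i : k)) → GeneralLinearGroup.map res c =
          Units.map (Matrix.diagonalRingHom ι k : (ι → k) →* Matrix ι ι k)
            (MulEquiv.piUnits.symm t) := by
      intro c t hct
      apply Units.ext
      exact hct
    have hXr : ((((a ^ i)⁻¹ * b ^ j : GL ι R) : Matrix ι ι R)).map res =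
        diagonal fun z => ((((ta z) ^ i)⁻¹ * (tb z) ^ j : kˣ) : k) := by
      have h1 : GeneralLinearGroup.map res ((a ^ i)⁻¹ * b ^ j) =
          Units.map (Matrix.diagonalRingHom ι k : (ι → k) →* Matrix ι ι k)
            (MulEquiv.piUnits.symm ((ta ^ i)⁻¹ * tb ^ j)) := by
        rw [map_mul, map_inv, map_pow, map_pow, hmap a ta ha, hmap b tb hb, map_mul, map_inv,
          map_pow, map_pow, map_mul, map_inv, map_pow, map_pow]
      exact congrArg Units.val h1
    have h2 := ht (fun z => ((((ta z) ^ i)⁻¹ * (tb z) ^ j : kˣ) : k)) (by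
      intro w hw
      have h3 := WG_stab res hX hw
      rw [hXr] at h3
      have h4 : (diagonal fun z => ((((ta z) ^ i)⁻¹ * (tb z) ^ j : kˣ) : k)) *ᵥ w =
          (fun z => ((((ta z) ^ i)⁻¹ * (tb z) ^ j : kˣ) : k)) * w := by
        funext z
        rw [Matrix.mulVec_diagonal]
        rfl
      rwa [h4] at h3)
    have h5 : ((ta x) ^ i)⁻¹ * (tb x) ^ j = ((ta y) ^ i)⁻¹ * (tb y) ^ j := Units.ext h2
    refine dvd_of_pow_eq hp (M := M) (r := tb x / tb y) (s := ta x / ta y) (i := i) ?_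
      (hpow x y hxy) (hnpow x y hxy)
    rw [div_pow, div_pow, div_eq_div_iff_mul_eq_mul]
    rw [inv_mul_eq_iff_eq_mul] at h5
    rw [h5]
    rw [mul_assoc, mul_assoc, mul_comm ((tb y) ^ j), ← mul_assoc, ← mul_assoc, mul_assoc _ _ ((ta y) ^ i),
      mul_comm _ ((ta y) ^ i), ← mul_assoc]
    group

end Pool.Agent.CGN
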