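import Pool.Agent.CGN.URel
import Pool.Agent.CGN.UChar
import Pool.Agent.CGN.NP

/-!
# The unit trick: the theorem
-/

noncomputable section

namespace Pool.Agent.CGN

open NumberField IsDedekindDomain Matrix
open Pool.Agent.CG2 (Pl Fv Ov GalF Fbar Zbar Over IsInertia IsFrob Nm IsRay InRay expo TotPos Lies)
open Pool.Agent.CG2.GalFinAux (below)
open Pool.Agent.CGQ

variable {F : Type} [Field F] [NumberField F]

/-- The point of a product of a representative and of an element of `L`. -/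
private theorem UMain_lt_act {A : AD F} {S : Set (Pl F)} {φ : Spl A S}
    {K : Subgroup (sysA A).A} {L : Type} [Field L] [NumberField L] [Algebra F L]
    (X : TorL A φ K L) {I : Ideal (𝓞 L)} {t : (sysA A).A} (ht : X.IsRep I t) (x : Lˣ) :
    lt t (act (uL X.ι x) X.y) = act (uL X.ι x) (lt t X.y) := by
  refine Prod.ext rfl ?_
  change t * (diag (uL X.ι x) * X.y.2) = diag (uL X.ι x) * (t * X.y.2)
  rw [← mul_assoc, ← mul_assoc, X.rep_comm ht]

private theorem UMain_lt_congr {A : AD F} {K : Subgroup (sysA A).A} {t : (sysA A).A}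
    {y y' : (sysA A).Pt} (h : mkK K y = mkK K y') : mkK K (lt t y) = mkK K (lt t y') := by
  obtain ⟨k, hk, rfl⟩ := mkK_eq.1 h
  rw [lt_rt, mkK_rt _ hk]

/-- **U. The unit trick.**
PROOF. `exists_torL`, `principal`, `exists_ray_chi`, `sum_terms`. -/
theorem unit_main {A : AD F} {S : Set (Pl F)} (hS : S.Finite) {φ : Spl A S}
    {K : Subgroup (sysA A).A} (hK : OC K) (hΦ : HypOff K (chartA φ)) (hstd : Std (chartA φ))
    {L : Type} [Field L] [NumberField L] [Algebra F L] (ι : L →ₐ[F] DF A)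
    (hL : Module.finrank F L = A.n) (y : (sysA A).Pt) (u e : (𝓞 L)ˣ) {κ : Type} [Field κ]
    [IsAlgClosed κ] {p : ℕ} [Fact p.Prime] [CharP κ p] {η : (sysA A).G →* ℤˣ}
    {lam : {v : Pl F // v ∉ S} → Option (Fin A.n) → κ}
    (E : EigFam K (chartA φ) κ η (uA ι u) lam) (h0 : E.h y 1 ≠ 0)
    (hu : uA ι u ∈ Stab K y) (he : uA ι e ∈ Stab K y) (hηu : η (uA ι u) = 1)
    (hηe : η (uA ι e) = 1)
    (hηP : ∀ (x : 𝓞 L) (hx : x ≠ 0), TotPos x →
      η (uL ι (Units.mk0 (x : L) (by simpa using hx))) = 1) :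
    ∃ (T : Set (Pl F)) (χ : Pl L → κ), T.Finite ∧ S ⊆ T ∧ IsRay {w : Pl L | below F w ∈ T} χ ∧
      ∀ (v : {v : Pl F // v ∉ S}), v.1 ∉ T → ∀ M : ℕ, Sel L u e (p ^ M) v.1 →
        ∀ j : Fin A.n, lam v (some j) =
          ∑ I ∈ (abv L v.1).powersetCard ((j : ℕ) + 1), ∏ w ∈ I, χ w := by
  classical
  obtain ⟨X, rfl, rfl⟩ := exists_torL hS hK hΦ hstd ι y
  obtain ⟨m₁, hm₁, hprin⟩ := X.principal fun x hx hpos w => det_pos X.ι hx hpos w
  -- the value at an ideal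
  let a : Ideal (𝓞 L) → κ := fun I =>
    if h : I ≠ ⊥ then E.h (lt (X.exists_rep h).choose X.y) 1 else 0
  have ha : ∀ (I : Ideal (𝓞 L)) (t : (sysA A).A), I ≠ ⊥ → X.IsRep I t →
      a I = E.h (lt t X.y) 1 := by
    intro I t hI ht
    have h1 : a I = E.h (lt (X.exists_rep hI).choose X.y) 1 := dif_pos hI
    rw [h1]
    exact E.congr (X.rep_unique (X.exists_rep hI).choose_spec ht) 1
  -- the hypotheses of the character theorem
  have htop : ∃ I : Ideal (𝓞 L), I ≠ ⊥ ∧ IsCoprime I m₁ ∧ a I ≠ 0 := by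
    refine ⟨⊤, top_ne_bot, ?_, ?_⟩
    · rw [← Ideal.one_eq_top]
      exact isCoprime_one_left
    · rw [ha ⊤ 1 top_ne_bot X.rep_top, lt_one]
      exact h0
  have hray : ∀ I J : Ideal (𝓞 L), I ≠ ⊥ → IsCoprime I m₁ → InRay m₁ J → a (I * J) = a I := by
    rintro I _ hI - ⟨x, hx0, hx1, hx2, rfl⟩
    have hxL : (x : L) ≠ 0 := by simpa using hx0
    have hJ : Ideal.span {x} ≠ (⊥ : Ideal (𝓞 L)) := by
      rw [Ne, Ideal.span_singleton_eq_bot]
      exact hx0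
    obtain ⟨t, ht⟩ := X.exists_rep hI
    obtain ⟨t', ht'⟩ := X.exists_rep hJ
    have hIJ : I * Ideal.span {x} ≠ ⊥ := by
      rw [← Ideal.zero_eq_bot] at hI hJ ⊢
      exact mul_ne_zero hI hJ
    rw [ha _ _ hIJ (X.rep_mul hI hJ ht ht'), ha _ _ hI ht, lt_mul]
    have h1 := hprin x hxL hx1 hx2 t' ht'
    rw [E.congr (UMain_lt_congr (t := t) h1) 1, UMain_lt_act X ht,
      E.h_act _ (uL X.ι _) 1 (uL_comm X.ι _ _), hηP x hx0 hx2]
    simp
  obtain ⟨χ, hχ0, hχ1, hχ2⟩ := exists_ray_chi m₁ hm₁ a htop hray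
  have hfin : {w : Pl L | m₁ ≤ w.asIdeal}.Finite := by
    refine (Ideal.finite_factors (I := m₁) (by rw [Ideal.zero_eq_bot]; exact hm₁)).subset ?_
    intro w hw
    exact Ideal.dvd_iff_le.2 hw
  -- the bad places and the modulus
  let T : Set (Pl F) := X.T ∪ (below F) '' {w : Pl L | m₁ ≤ w.asIdeal}
  have hT : T.Finite := X.T_fin.union (hfin.image _)
  let P : Ideal (𝓞 L) := ∏ v ∈ hT.toFinset, v.asIdeal.map (algebraMap (𝓞 F) (𝓞 L))
  have hinj : Function.Injective (algebraMap (𝓞 F) (𝓞 L)) :=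
    FaithfulSMul.algebraMap_injective _ _
  have hP0 : P ≠ ⊥ := by
    rw [← Ideal.zero_eq_bot]
    refine Finset.prod_ne_zero_iff.2 fun v _ => ?_
    rw [Ideal.zero_eq_bot, Ne, Ideal.map_eq_bot_iff_of_injective hinj]
    exact v.ne_bot
  have hm₀ : m₁ * P ≠ ⊥ := by
    rw [← Ideal.zero_eq_bot] at hm₁ hP0 ⊢
    exact mul_ne_zero hm₁ hP0
  have hle1 : m₁ * P ≤ m₁ := Ideal.mul_le_left
  have hle2 : m₁ * P ≤ P := Ideal.mul_le_right
  have hPw : ∀ w : Pl L, below F w ∈ T → m₁ * P ≤ w.asIdeal := by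
    intro w hw
    have h1 : P ≤ (below F w).asIdeal.map (algebraMap (𝓞 F) (𝓞 L)) := by
      refine Ideal.le_of_dvd (Finset.dvd_prod_of_mem
        (fun v : Pl F => v.asIdeal.map (algebraMap (𝓞 F) (𝓞 L))) ?_)
      rw [Set.Finite.mem_toFinset]
      exact hw
    refine hle2.trans (h1.trans ?_)
    rw [Ideal.map_le_iff_le_comap]
    exact le_rfl
  refine ⟨T, χ, hT, fun v hv => Or.inl (X.S_le hv), ⟨hχ0, m₁ * P, hm₀, fun w hw => hPw w hw,
    fun b hb0 hb1 hb2 => hχ1 _ ⟨b, hb0, hle1 hb1, hb2, rfl⟩⟩, ?_⟩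
  intro v hv M hsel j
  have hvT : v.1 ∉ X.T := fun h => hv (Or.inl h)
  have hnw : ∀ w' : Pl L, below F w' = v.1 → ¬ m₁ ≤ w'.asIdeal := by
    intro w' h1 h2
    exact hv (Or.inr ⟨w', h2, h1⟩)
  refine (hχ2 ((abv L v.1).powersetCard ((j : ℕ) + 1)) (lam v (some j)) ?_ ?_).symm
  · intro J hJ w hw
    exact hnw w (mem_abv.1 ((Finset.mem_powersetCard.1 hJ).1 hw))
  · intro I hI _
    obtain ⟨t, ht⟩ := X.exists_rep hI
    have hIJ : ∀ J : Finset (Pl L), I * ∏ w ∈ J, w.asIdeal ≠ ⊥ := by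
      intro J
      have h1 := prod_ne_bot J
      rw [← Ideal.zero_eq_bot] at hI h1 ⊢
      exact mul_ne_zero hI h1
    choose tJ htJ using fun J : Finset (Pl L) => X.exists_rep (hIJ J)
    have h1 := X.sum_terms hL v hvT u e E hu he hηu hηe M hsel j hI ht tJ fun J _ => htJ J
    rw [ha _ _ hI ht, ← h1]
    exact Finset.sum_congr rfl fun J _ => ha _ _ (hIJ J) (htJ J)

end Pool.Agent.CGN
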