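import Pool.Agent.CGN.UCrd

/-!
# Lattices between `R^n` and `π R^n`
-/

noncomputable section

namespace Pool.Agent.CGN

open Matrix

variable {R k ι : Type} [CommRing R] [Field k] [Fintype ι] [DecidableEq ι] (res : R →+* k)

/-- The image of `G R^n` in `k^n`. -/
def WG (G : Matrix ι ι R) : Submodule k (ι → k) := LinearMap.range (G.map res).mulVecLin

/-- The diagonal matrix with the entries `π` for the indices in `J` and `1` for the others. -/
def DJ (π : R) (J : Finset ι) : Matrix ι ι R := diagonal fun i => if i ∈ J then π else 1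

omit [DecidableEq ι] in
theorem mem_WG {G : Matrix ι ι R} {x : ι → k} : x ∈ WG res G ↔ ∃ y, (G.map res) *ᵥ y = x :=
  Iff.rfl

omit [DecidableEq ι] in
/-- **UMatA.** If `A G = G C` then `A` modulo `π` maps the image of `G` to itself. -/
theorem WG_stab {G A C : Matrix ι ι R} (h : A * G = G * C) {x : ι → k} (hx : x ∈ WG res G) :
    (A.map res) *ᵥ x ∈ WG res G := by
  obtain ⟨y, rfl⟩ := hx
  refine ⟨(C.map res) *ᵥ y, ?_⟩
  change (G.map res) *ᵥ ((C.map res) *ᵥ y) = (A.map res) *ᵥ ((G.map res) *ᵥ y)
  rw [Matrix.mulVec_mulVec, Matrix.mulVec_mulVec, ← Matrix.map_mul, ← Matrix.map_mul, h]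

omit [DecidableEq ι] in
private theorem umat_res (G : Matrix ι ι R) (y : ι → R) (i : ι) :
    ((G.map res) *ᵥ (fun j => res (y j))) i = res ((G *ᵥ y) i) := by
  simp only [Matrix.mulVec, dotProduct, Matrix.map_apply, map_sum, map_mul]

/-- **UMatB.** If the image of `G` is the coordinate subspace of the vectors which vanish at the
indices in `J` (and `π R^n` is contained in `G R^n`), then `G R^n = DJ π J R^n`.
PROOF. The columns of `G` are divisible by `π` in the rows of `J`. A column of `DJ π J` reduces to an
element of the image of `G`, so it is `G y + π z = G (y + G' z)`. -/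
theorem WG_coord (hres : Function.Surjective res) {π : R} (hker : ∀ x, res x = 0 → ∃ y, x = π * y)
    (hπ0 : res π = 0) {G G' : Matrix ι ι R} (hG : G * G' = π • (1 : Matrix ι ι R)) {J : Finset ι}
    (hJ : ∀ x : ι → k, x ∈ WG res G ↔ ∀ i ∈ J, x i = 0) :
    (∃ U : Matrix ι ι R, DJ π J = G * U) ∧ ∃ U : Matrix ι ι R, G = DJ π J * U := by
  classical
  constructor
  · -- the columns of `DJ π J`
    have hcol : ∀ j : ι, ∃ y : ι → R, G *ᵥ y = (DJ π J).col j := by
      intro j
      have h1 : (fun i => res ((DJ π J).col j i)) ∈ WG res G := by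
        rw [hJ]
        intro i hi
        rw [Matrix.col_apply, DJ]
        by_cases hij : i = j
        · subst hij
          rw [Matrix.diagonal_apply_eq, if_pos hi, hπ0]
        · rw [Matrix.diagonal_apply_ne _ hij, map_zero]
      obtain ⟨y', hy'⟩ := h1
      choose y hy using fun j => hres (y' j)
      have hyy : (fun j => res (y j)) = y' := funext hy
      have h2 : ∀ i, ∃ z, (DJ π J).col j i - (G *ᵥ y) i = π * z := by
        intro i
        refine hker _ ?_
        rw [map_sub, ← umat_res, hyy]
        exact sub_eq_zero.2 (congrFun hy' i).symm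
      choose z hz using h2
      refine ⟨y + G' *ᵥ z, ?_⟩
      rw [Matrix.mulVec_add, Matrix.mulVec_mulVec, hG, Matrix.smul_mulVec, Matrix.one_mulVec]
      funext i
      rw [Pi.add_apply, Pi.smul_apply, smul_eq_mul, ← hz i]
      ring
    choose y hy using hcol
    refine ⟨Matrix.of fun i j => y j i, ?_⟩
    ext i j
    exact (congrFun (hy j) i).symm
  · have hrow : ∀ i ∈ J, ∀ j, ∃ u, G i j = π * u := by
      intro i hi j
      refine hker _ ?_
      have h1 : (G.map res) *ᵥ (Pi.single j 1) ∈ WG res G := ⟨_, rfl⟩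
      have h2 := (hJ _).1 h1 i hi
      rw [Matrix.mulVec_single_one] at h2
      exact h2
    choose! u hu using hrow
    refine ⟨Matrix.of fun i j => if i ∈ J then u i j else G i j, ?_⟩
    ext i j
    rw [DJ, Matrix.diagonal_mul, Matrix.of_apply]
    by_cases hi : i ∈ J
    · rw [if_pos hi, if_pos hi]
      exact hu i hi j
    · rw [if_neg hi, if_neg hi, one_mul]

end Pool.Agent.CGN
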