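import Pool.Agent.CGN.ULoc

/-!
# The diagonal cosets
-/

noncomputable section

namespace Pool.Agent.CGN

open Matrix

variable {R k ι E : Type} [CommRing R] [Field k] [Fintype ι] [DecidableEq ι] (res : R →+* k)
variable [Field E] [Algebra R E]

/-- The cosets in the double coset of `DJu π J`. -/
def cosg (R : Type) [CommRing R] [Algebra R E] (π : E) (hπ : π ≠ 0) (J : Finset ι) :
    Set (GL ι E ⧸ GZg R ι E) :=
  {c | ∃ m ∈ GZg R ι E, c = ((m * DJu π hπ J : GL ι E) : GL ι E ⧸ GZg R ι E)}

theorem DJ_det (π : R) (J : Finset ι) : (DJ π J).det = π ^ J.card := by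
  rw [DJ, det_diagonal, Finset.prod_ite, Finset.prod_const_one, mul_one, Finset.prod_const]
  congr 2
  ext i
  simp

/-- The permutation matrix as an element of `GL_n(R)`. -/
def permG (R : Type) [CommRing R] (σ : Equiv.Perm ι) : GL ι R where
  val := σ.permMatrix R
  inv := (σ⁻¹ : Equiv.Perm ι).permMatrix R
  val_inv := by
    rw [← Matrix.permMatrix_mul, inv_mul_cancel, Matrix.permMatrix_one]
  inv_val := by
    rw [← Matrix.permMatrix_mul, mul_inv_cancel, Matrix.permMatrix_one]

theorem permG_conj (π : R) {J J' : Finset ι} (σ : Equiv.Perm ι) (h : ∀ i, σ i ∈ J' ↔ i ∈ J) :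
    DJ π J * ((permG R σ : GL ι R) : Matrix ι ι R) =
      ((permG R σ : GL ι R) : Matrix ι ι R) * DJ π J' := by
  ext i j
  rw [DJ, DJ, diagonal_mul, mul_diagonal]
  change (if i ∈ J then π else 1) * (σ.permMatrix R) i j =
    (σ.permMatrix R) i j * (if j ∈ J' then π else 1)
  by_cases hij : σ i = j
  · subst hij
    rw [mul_comm]
    congr 1
    by_cases hi : i ∈ J
    · rw [if_pos hi, if_pos ((h i).2 hi)]
    · rw [if_neg hi, if_neg fun h' => hi ((h i).1 h')]
  · have h0 : (σ.permMatrix R) i j = 0 := by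
      rw [Equiv.Perm.permMatrix, PEquiv.toMatrix_apply]
      rw [if_neg]
      simpa using hij
    rw [h0, mul_zero, zero_mul]

theorem exists_perm {J J' : Finset ι} (h : J.card = J'.card) :
    ∃ σ : Equiv.Perm ι, ∀ i, σ i ∈ J' ↔ i ∈ J := by
  classical
  have e : {x // x ∈ J} ≃ {x // x ∈ J'} := Fintype.equivOfCardEq (by
    rw [Fintype.card_coe, Fintype.card_coe, h])
  refine ⟨e.extendSubtype, fun i => ⟨fun hi => ?_, fun hi => e.extendSubtype_mem i hi⟩⟩
  by_contra hc
  exact e.extendSubtype_not_mem i hc hi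

/-- **UPerA.** The coset of `DJu π J` is in the double coset of `DJu π J'` iff `J` and `J'` have the
same cardinality. -/
theorem mem_cosg (hinj : Function.Injective (algebraMap R E)) {π : R}
    (hπ : algebraMap R E π ≠ 0) (hnu : ¬ IsUnit π) {J J' : Finset ι} :
    ((DJu (algebraMap R E π) hπ J : GL ι E) : GL ι E ⧸ GZg R ι E) ∈
      cosg R (algebraMap R E π) hπ J' ↔ J.card = J'.card := by
  constructor
  · rintro ⟨m, ⟨a, rfl⟩, hc⟩
    rw [QuotientGroup.eq] at hc
    obtain ⟨b, hb⟩ := hc
    have h1 : DJu (algebraMap R E π) hπ J * GeneralLinearGroup.map (algebraMap R E) b =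
        GeneralLinearGroup.map (algebraMap R E) a * DJu (algebraMap R E π) hπ J' := by
      rw [hb, mul_inv_cancel_left]
    have h2 : DJ π J * (b : Matrix ι ι R) = (a : Matrix ι ι R) * DJ π J' := by
      have h3 : (DJ π J * (b : Matrix ι ι R)).map (algebraMap R E) =
          ((a : Matrix ι ι R) * DJ π J').map (algebraMap R E) := by
        rw [Matrix.map_mul, Matrix.map_mul, DJ_map, DJ_map]
        exact congrArg Units.val h1
      ext i j
      exact hinj (congrFun (congrFun h3 i) j)
    have h4 := congrArg Matrix.det h2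
    rw [det_mul, det_mul, DJ_det, DJ_det] at h4
    have hA : IsUnit (a : Matrix ι ι R).det := (Matrix.isUnit_iff_isUnit_det _).1 a.isUnit
    have hB : IsUnit (b : Matrix ι ι R).det := (Matrix.isUnit_iff_isUnit_det _).1 b.isUnit
    have hreg : ∀ x y : R, π * x = π * y → x = y := by
      intro x y hxy
      apply hinj
      have h5 := congrArg (algebraMap R E) hxy
      rw [map_mul, map_mul] at h5
      exact mul_left_cancel₀ hπ h5
    have key : ∀ (s t : ℕ) (u w : R), IsUnit u → IsUnit w → π ^ s * u = w * π ^ t → s ≤ t := by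
      intro s t
      induction t generalizing s with
      | zero =>
        intro u w hu hw h
        rw [pow_zero, mul_one] at h
        by_contra hlt
        obtain ⟨s', rfl⟩ := Nat.exists_eq_succ_of_ne_zero (n := s) (by omega)
        rw [pow_succ', mul_assoc] at h
        exact hnu (isUnit_of_mul_isUnit_left (h ▸ hw))
      | succ t ih =>
        intro u w hu hw h
        rcases Nat.eq_zero_or_pos s with rfl | hs
        · omega
        · obtain ⟨s', rfl⟩ := Nat.exists_eq_succ_of_ne_zero hs.ne'
          have h5 := ih s' u w hu hw (hreg _ _ (by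
            calc π * (π ^ s' * u) = π ^ (s' + 1) * u := by ring
              _ = w * π ^ (t + 1) := h
              _ = π * (w * π ^ t) := by ring))
          omega
    refine le_antisymm (key _ _ _ _ hB hA h4) (key _ _ _ _ hA hB ?_)
    rw [mul_comm, ← h4, mul_comm]
  · intro h
    obtain ⟨σ, hσ⟩ := exists_perm h
    refine ⟨GeneralLinearGroup.map (algebraMap R E) (permG R σ), ⟨_, rfl⟩, ?_⟩
    rw [QuotientGroup.eq]
    refine ⟨permG R σ, ?_⟩
    rw [eq_inv_mul_iff_mul_eq]
    apply Units.ext
    have h1 := congrArg (fun A : Matrix ι ι R => A.map (algebraMap R E)) (permG_conj π σ hσ)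
    simp only [Matrix.map_mul, DJ_map] at h1
    exact h1

/-- **UPerB.** The diagonal cosets are distinct. -/
theorem DJu_inj (hinj : Function.Injective (algebraMap R E)) {π : R}
    (hπ : algebraMap R E π ≠ 0) (hnu : ¬ IsUnit π) {J J' : Finset ι}
    (h : ((DJu (algebraMap R E π) hπ J : GL ι E) : GL ι E ⧸ GZg R ι E) =
      ((DJu (algebraMap R E π) hπ J' : GL ι E) : GL ι E ⧸ GZg R ι E)) : J = J' := by
  have key : ∀ J J' : Finset ι,
      ((DJu (algebraMap R E π) hπ J : GL ι E) : GL ι E ⧸ GZg R ι E) =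
      ((DJu (algebraMap R E π) hπ J' : GL ι E) : GL ι E ⧸ GZg R ι E) → J ⊆ J' := by
    intro J J' h i hi
    by_contra hi'
    rw [QuotientGroup.eq] at h
    obtain ⟨b, hb⟩ := h
    have h1 : DJu (algebraMap R E π) hπ J * GeneralLinearGroup.map (algebraMap R E) b =
        DJu (algebraMap R E π) hπ J' := by
      rw [hb, mul_inv_cancel_left]
    have h2 : DJ π J * (b : Matrix ι ι R) = DJ π J' := by
      have h3 : (DJ π J * (b : Matrix ι ι R)).map (algebraMap R E) =
          (DJ π J').map (algebraMap R E) := by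
        rw [Matrix.map_mul, DJ_map, DJ_map]
        exact congrArg Units.val h1
      ext i j
      exact hinj (congrFun (congrFun h3 i) j)
    have h3 := congrFun (congrFun h2 i) i
    rw [DJ, DJ, diagonal_mul, diagonal_apply_eq, if_pos hi, if_neg hi'] at h3
    exact hnu (IsUnit.of_mul_eq_one _ h3)
  exact Finset.Subset.antisymm (key J J' h) (key J' J h.symm)

/-- **UPerC.** The elements of the double coset and their cofactors are integral. -/
theorem cosg_out {π : R} (hπ : algebraMap R E π ≠ 0) {J : Finset ι} {c : GL ι E ⧸ GZg R ι E}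
    (hc : c ∈ cosg R (algebraMap R E π) hπ J) :
    ∃ (g : GL ι E) (G G' : Matrix ι ι R), (g : GL ι E ⧸ GZg R ι E) = c ∧
      (g : Matrix ι ι E) = G.map (algebraMap R E) ∧ G * G' = π • (1 : Matrix ι ι R) := by
  obtain ⟨m, ⟨a, rfl⟩, rfl⟩ := hc
  refine ⟨_, (a : Matrix ι ι R) * DJ π J, DJ π Jᶜ * ((a⁻¹ : GL ι R) : Matrix ι ι R), rfl, ?_, ?_⟩
  · rw [Matrix.map_mul, DJ_map]
    rfl
  · have h1 : DJ π J * DJ π Jᶜ = π • (1 : Matrix ι ι R) := by
      rw [DJ, DJ, diagonal_mul_diagonal, ← diagonal_one, ← diagonal_smul]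
      congr 1
      funext i
      by_cases h : i ∈ J
      · rw [if_pos h, if_neg (by simpa using h), mul_one, Pi.smul_apply, smul_eq_mul, mul_one]
      · rw [if_neg h, if_pos (by simpa using h), one_mul, Pi.smul_apply, smul_eq_mul, mul_one]
    rw [mul_assoc, ← mul_assoc (DJ π J), h1, smul_mul_assoc, one_mul, mul_smul_comm, ← Units.val_mul,
      mul_inv_cancel, Units.val_one]

end Pool.Agent.CGN
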