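import Pool.Agent.CGN.URep

/-!
# The unit trick: principal ideals
-/

noncomputable section

namespace Pool.Agent.CGN

open NumberField IsDedekindDomain Matrix
open Pool.Agent.CG2 (Pl Fv Ov IsRay InRay expo TotPos)
open Pool.Agent.CG2.GalFinAux (below)
open Pool.Agent.CGQ (Sys OC diag single act rt lt mkK mkK_eq mkK_rt Stab mem_Stab' lt_rt)

variable {F : Type} [Field F] [NumberField F] {L : Type} [Field L] [NumberField L] [Algebra F L]
variable {A : AD F} {S : Set (Pl F)} {φ : Spl A S} {K : Subgroup (sysA A).A}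

private theorem UPri_exp_lt (γ : WithZero (Multiplicative ℤ)) (hγ : γ ≠ 0) :
    ∃ n : ℕ, WithZero.exp (-(n : ℤ)) < γ := by
  obtain ⟨m, rfl⟩ : ∃ m : ℤ, γ = WithZero.exp m := ⟨WithZero.log γ, (WithZero.exp_log hγ).symm⟩
  refine ⟨(1 - m).toNat, WithZero.exp_lt_exp.2 ?_⟩
  have := Int.self_le_toNat (1 - m)
  omega

/-- The basis of the neighbourhoods of a point of `F_v`. -/
private theorem UPri_nhds (v : Pl F) (x : Fv v) {V : Set (Fv v)} (hV : V ∈ nhds x) :
    ∃ n : ℕ, ∀ y : Fv v, Valued.v (y - x) ≤ WithZero.exp (-(n : ℤ)) → y ∈ V := by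
  obtain ⟨γ, hγ⟩ := Valued.mem_nhds.1 hV
  have h0 : MonoidWithZeroHom.ValueGroup₀.embedding γ.1 ≠ 0 := by
    rw [map_ne_zero_iff _ (MonoidWithZeroHom.ValueGroup₀.embedding_strictMono.injective)]
    exact γ.ne_zero
  obtain ⟨n, hn⟩ := UPri_exp_lt _ h0
  refine ⟨n, fun y hy => hγ ?_⟩
  change Valued.v.restrict (y - x) < γ.1
  rw [Valuation.restrict_lt_iff_lt_embedding]
  exact lt_of_le_of_lt hy hn

private theorem UPri_exp_mono {m n : ℕ} (h : m ≤ n) {x : WithZero (Multiplicative ℤ)}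
    (hx : x ≤ WithZero.exp (-(n : ℤ))) : x ≤ WithZero.exp (-(m : ℤ)) :=
  hx.trans (WithZero.exp_le_exp.2 (by omega))

/-- The basis of the neighbourhoods of a vector. -/
private theorem UPri_pi {κ : Type} [Fintype κ] {v : Pl F} (x : κ → Fv v) {W : Set (κ → Fv v)}
    (hW : W ∈ nhds x) :
    ∃ n : ℕ, ∀ y : κ → Fv v, (∀ i, Valued.v (y i - x i) ≤ WithZero.exp (-(n : ℤ))) → y ∈ W := by
  classical
  rw [nhds_pi, Filter.mem_pi] at hW
  obtain ⟨I, hI, t, ht, htW⟩ := hW
  choose N hN using fun i => UPri_nhds v _ (ht i)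
  refine ⟨Finset.univ.sup N, fun y hy => htW fun i _ => hN i _ ?_⟩
  exact UPri_exp_mono (Finset.le_sup (Finset.mem_univ i)) (hy i)

/-- The coordinates of `x` are small. -/
private def UPri_sm {v : Pl F} (n : ℕ) (x : DV A v) : Prop :=
  ∀ i, Valued.v (x.co i) ≤ WithZero.exp (-(n : ℤ))

private theorem UPri_sm_add {v : Pl F} {n : ℕ} {x y : DV A v} (hx : UPri_sm n x)
    (hy : UPri_sm n y) : UPri_sm n (x + y) := fun i => by
  rw [SC.Alg.co_add]
  exact (Valuation.map_add _ _ _).trans (max_le (hx i) (hy i))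

private theorem UPri_sm_smul {v : Pl F} {n : ℕ} {x : DV A v} (hx : UPri_sm n x)
    {c : Fv v} (hc : Valued.v c ≤ 1) : UPri_sm n (c • x) := fun i => by
  rw [SC.Alg.co_smul, map_mul]
  calc Valued.v c * Valued.v (x.co i) ≤ 1 * Valued.v (x.co i) := mul_le_mul_left hc _
    _ ≤ _ := by rw [one_mul]; exact hx i

private theorem UPri_sm_zero {v : Pl F} (n : ℕ) : UPri_sm n (0 : DV A v) := fun i => by
  rw [SC.Alg.co_zero, map_zero]
  exact zero_le

/-- Every element becomes small after multiplication by a high power of a uniformiser. -/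
private theorem UPri_sm_ex {v : Pl F} (n : ℕ) (x : DV A v) : ∃ N : ℕ, ∀ c : Fv v,
    Valued.v c ≤ WithZero.exp (-(N : ℤ)) → UPri_sm n (c • x) := by
  have key : ∀ y : Fv v, ∃ N : ℕ, ∀ c : Fv v, Valued.v c ≤ WithZero.exp (-(N : ℤ)) →
      Valued.v (c * y) ≤ WithZero.exp (-(n : ℤ)) := by
    intro y
    by_cases hy : Valued.v y = 0
    · refine ⟨0, fun c _ => ?_⟩
      rw [map_mul, hy, mul_zero]
      exact zero_le
    · obtain ⟨m, hm⟩ : ∃ m : ℤ, Valued.v y = WithZero.exp m := ⟨WithZero.log (Valued.v y),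
        (WithZero.exp_log hy).symm⟩
      refine ⟨(n + m).toNat, fun c hc => ?_⟩
      rw [map_mul, hm]
      calc Valued.v c * WithZero.exp m ≤
            WithZero.exp (-(((n + m).toNat : ℕ) : ℤ)) * WithZero.exp m := mul_le_mul_left hc _
        _ = WithZero.exp (-(((n + m).toNat : ℕ) : ℤ) + m) := (WithZero.exp_add _ _).symm
        _ ≤ _ := WithZero.exp_le_exp.2 (by
            have := Int.self_le_toNat ((n : ℤ) + m)
            omega)
  choose N hN using fun i => key (x.co i)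
  refine ⟨Finset.univ.sup N, fun c hc i => ?_⟩
  rw [SC.Alg.co_smul]
  exact hN i c (UPri_exp_mono (Finset.le_sup (Finset.mem_univ i)) hc)

/-- The inverse of an element close to one is close to one. -/
private theorem UPri_inv {v : Pl F} {n : ℕ} (hn : 1 ≤ n) (y : (DV A v)ˣ)
    (hy : UPri_sm n (y.1 - 1)) : UPri_sm n ((y⁻¹ : (DV A v)ˣ).1 - 1) := by
  classical
  set z : DV A v := (y⁻¹ : (DV A v)ˣ).1 - 1 with hz
  have hrel : z = -((y.1 - 1) * z + (y.1 - 1)) := by
    have h1 : y.1 * (y⁻¹ : (DV A v)ˣ).1 = 1 := Units.mul_inv y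
    have h2 : (y⁻¹ : (DV A v)ˣ).1 = z + 1 := by rw [hz, sub_add_cancel]
    rw [h2, mul_add, mul_one] at h1
    have h3 : (y.1 - 1) * z = 1 - y.1 - z := by
      rw [sub_mul, one_mul, eq_sub_of_add_eq h1]
    rw [h3]
    abel
  -- products
  have hmul : ∀ i, Valued.v (((y.1 - 1) * z).co i) ≤
      WithZero.exp (-(n : ℤ)) * Finset.univ.sup (fun j => Valued.v (z.co j)) := by
    intro i
    rw [SC.Alg.co_mul]
    refine Valuation.map_sum_le _ fun a _ => Valuation.map_sum_le _ fun b _ => ?_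
    rw [map_mul, map_mul]
    have hc : Valued.v ((A.sF.map (algebraMap F (Fv v))).c a b i) ≤ 1 :=
      CG2.HR_int_le v (A.s.c a b i)
    calc Valued.v ((y.1 - 1).co a) * Valued.v (z.co b) *
          Valued.v ((A.sF.map (algebraMap F (Fv v))).c a b i) ≤
          Valued.v ((y.1 - 1).co a) * Valued.v (z.co b) * 1 := mul_le_mul_right hc _
      _ = Valued.v ((y.1 - 1).co a) * Valued.v (z.co b) := mul_one _
      _ ≤ WithZero.exp (-(n : ℤ)) * Valued.v (z.co b) := mul_le_mul_left (hy a) _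
      _ ≤ _ := mul_le_mul_right (Finset.le_sup (f := fun j => Valued.v (z.co j))
          (Finset.mem_univ b)) _
  obtain ⟨M, hM⟩ : ∃ M, M = Finset.univ.sup (fun j => Valued.v (z.co j)) := ⟨_, rfl⟩
  have hzi : ∀ i, Valued.v (z.co i) ≤ M := fun i => by
    rw [hM]
    exact Finset.le_sup (f := fun j => Valued.v (z.co j)) (Finset.mem_univ i)
  have hzb : ∀ i, Valued.v (z.co i) ≤ max (WithZero.exp (-(n : ℤ)) * M)
      (WithZero.exp (-(n : ℤ))) := by
    intro i
    have h1 : z.co i = -(((y.1 - 1) * z).co i + (y.1 - 1).co i) := by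
      conv_lhs => rw [hrel]
      rfl
    rw [h1, Valuation.map_neg]
    refine (Valuation.map_add _ _ _).trans (max_le_max ?_ (hy i))
    rw [hM]
    exact hmul i
  have hMb : M ≤ max (WithZero.exp (-(n : ℤ)) * M) (WithZero.exp (-(n : ℤ))) := by
    rw [hM]
    refine Finset.sup_le fun i _ => ?_
    rw [← hM]
    exact hzb i
  have hlt : WithZero.exp (-(n : ℤ)) < (1 : WithZero (Multiplicative ℤ)) := by
    rw [← WithZero.exp_zero]
    exact WithZero.exp_lt_exp.2 (by omega)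
  have hM1 : M ≤ WithZero.exp (-(n : ℤ)) := by
    rcases le_max_iff.1 hMb with h | h
    · have h0 : M = 0 := by
        by_contra h0
        have h1 : WithZero.exp (-(n : ℤ)) * M < 1 * M :=
          mul_lt_mul_of_pos_right hlt (zero_lt_iff.2 h0)
        rw [one_mul] at h1
        exact absurd h (not_le.2 h1)
      rw [h0]
      exact zero_le
    · exact h
  exact fun i => (hzi i).trans hM1

/-- The basis of the neighbourhoods of the unit element of the group of units. -/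
private theorem UPri_unit_nhds (A : AD F) (v : Pl F) {V : Set (DV A v)ˣ}
    (hV : V ∈ nhds (1 : (DV A v)ˣ)) :
    ∃ n : ℕ, ∀ y : (DV A v)ˣ, UPri_sm n (y.1 - 1) → y ∈ V := by
  classical
  rw [Units.isInducing_embedProduct.nhds_eq_comap] at hV
  obtain ⟨T, hT, hTV⟩ := hV
  -- neighbourhoods of a point of `DV`
  have hpi : ∀ {W : Set (DV A v)}, W ∈ nhds (1 : DV A v) →
      ∃ n : ℕ, ∀ y : DV A v, UPri_sm n (y - 1) → y ∈ W := by
    intro W hW
    obtain ⟨n, hn⟩ := UPri_pi (κ := Fin A.n × Fin A.n) (W := W) (1 : DV A v) hW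
    exact ⟨n, fun y hy => hn y fun i => hy i⟩
  have h1 : Units.embedProduct (DV A v) 1 = ((1 : DV A v), MulOpposite.op (1 : DV A v)) := by
    rw [Units.embedProduct_apply, inv_one]
    rfl
  rw [h1] at hT
  obtain ⟨W1, hW1, W2, hW2, hs⟩ := mem_nhds_prod_iff.1 hT
  obtain ⟨n1, hn1⟩ := hpi hW1
  have hW2' : MulOpposite.op ⁻¹' W2 ∈ nhds (1 : DV A v) :=
    MulOpposite.continuous_op.continuousAt.preimage_mem_nhds hW2
  obtain ⟨n2, hn2⟩ := hpi hW2'
  refine ⟨max 1 (max n1 n2), fun y hy => hTV ?_⟩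
  change Units.embedProduct (DV A v) y ∈ T
  rw [Units.embedProduct_apply]
  apply hs
  refine ⟨hn1 _ fun i => UPri_exp_mono (by omega) (hy i), ?_⟩
  exact hn2 _ fun i => UPri_exp_mono (n := max 1 (max n1 n2)) (by omega)
    (UPri_inv (by omega) y hy i)

/-- The bad places. -/
private theorem UPri_bad (X : TorL A φ K L) (v : Pl F) : ∃ I : Ideal (𝓞 L), I ≠ ⊥ ∧
    ∀ (e : 𝓞 L) (he : (e : L) ≠ 0), e - 1 ∈ I →
      (X.y.2.1 v)⁻¹ * (sysA A).loc v (uL X.ι (Units.mk0 (e : L) he)) * X.y.2.1 v ∈ X.U v := by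
  classical
  let g : (DV A v)ˣ := X.y.2.1 v
  obtain ⟨n, hn⟩ := UPri_unit_nhds A v (V := {y : (DV A v)ˣ | g⁻¹ * y * g ∈ X.U v})
    (by
      have h1 : IsOpen {y : (DV A v)ˣ | g⁻¹ * y * g ∈ X.U v} :=
        (X.U_open v).preimage ((continuous_const.mul continuous_id).mul continuous_const)
      refine h1.mem_nhds ?_
      change g⁻¹ * 1 * g ∈ X.U v
      rw [mul_one, inv_mul_cancel]
      exact (X.U v).one_mem)
  obtain ⟨s, hs⟩ := (Module.Finite.fg_top : (⊤ : Submodule (𝓞 F) (𝓞 L)).FG)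
  let D : 𝓞 L → DV A v := fun x => dloc A v (X.ι (x : L))
  have hDadd : ∀ x y, D (x + y) = D x + D y := by
    intro x y
    change dloc A v (X.ι ((x + y : 𝓞 L) : L)) = _
    rw [show ((x + y : 𝓞 L) : L) = (x : L) + (y : L) from rfl, map_add, map_add]
  have hDsmul : ∀ (r : 𝓞 F) (x : 𝓞 L), D (r • x) = ((r : F) : Fv v) • D x := by
    intro r x
    change dloc A v (X.ι ((r • x : 𝓞 L) : L)) = _
    have h1 : ((r • x : 𝓞 L) : L) = (r : F) • (x : L) := by
      rw [Algebra.smul_def, Algebra.smul_def]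
      rfl
    rw [h1, map_smul]
    apply SC.Alg.ext
    intro i
    rw [dE_co, SC.Alg.co_smul, SC.Alg.co_smul, dE_co]
    exact map_mul (algebraMap F (Fv v)) _ _
  have hval : ∀ r : 𝓞 F, Valued.v ((r : F) : Fv v) = v.intValuation r := by
    intro r
    rw [HeightOneSpectrum.adicCompletion.valued_coe]
    exact HeightOneSpectrum.valuation_of_algebraMap v r
  choose N hN using fun b : 𝓞 L => UPri_sm_ex n (D b)
  obtain ⟨ϖ, hϖ⟩ := v.intValuation_exists_uniformizer
  let M : ℕ := s.sup N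
  have hϖM : Valued.v (((ϖ ^ M : 𝓞 F) : F) : Fv v) = WithZero.exp (-(M : ℤ)) := by
    rw [hval, map_pow, hϖ, ← WithZero.exp_nsmul]
    congr 1
    simp
  have hϖ0 : ϖ ≠ 0 := by
    rintro rfl
    rw [map_zero] at hϖ
    exact WithZero.exp_ne_zero hϖ.symm
  refine ⟨Ideal.span {algebraMap (𝓞 F) (𝓞 L) (ϖ ^ M)}, ?_, fun e he hI => ?_⟩
  · rw [Ne, Ideal.span_singleton_eq_bot, map_eq_zero_iff _ (FaithfulSMul.algebraMap_injective _ _)]
    exact pow_ne_zero _ hϖ0
  · obtain ⟨y, hy⟩ := Ideal.mem_span_singleton'.1 hI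
    have hsm : ∀ y : 𝓞 L, UPri_sm n (D ((ϖ ^ M : 𝓞 F) • y)) := by
      intro y
      have hy : y ∈ Submodule.span (𝓞 F) (s : Set (𝓞 L)) := by
        rw [hs]
        trivial
      induction hy using Submodule.span_induction with
      | mem b hb =>
        rw [hDsmul]
        refine hN b _ ?_
        rw [hϖM]
        exact WithZero.exp_le_exp.2 (by
          have : N b ≤ M := Finset.le_sup (f := N) hb
          omega)
      | zero =>
        rw [smul_zero]
        have h1 : D 0 = 0 := by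
          change dloc A v (X.ι ((0 : 𝓞 L) : L)) = 0
          rw [show ((0 : 𝓞 L) : L) = 0 from rfl, map_zero, map_zero]
        rw [h1]
        exact UPri_sm_zero n
      | add x y _ _ hx hy =>
        rw [smul_add, hDadd]
        exact UPri_sm_add hx hy
      | smul r x _ hx =>
        rw [smul_comm, hDsmul]
        refine UPri_sm_smul hx ?_
        rw [hval]
        exact v.intValuation_le_one r
    refine hn ((sysA A).loc v (uL X.ι (Units.mk0 (e : L) he))) ?_
    have h1 : ((sysA A).loc v (uL X.ι (Units.mk0 (e : L) he)) : (DV A v)ˣ).1 - 1 =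
        D ((ϖ ^ M : 𝓞 F) • y) := by
      have h2 : (ϖ ^ M : 𝓞 F) • y = e - 1 := by
        rw [Algebra.smul_def, mul_comm]
        exact hy
      rw [h2]
      change dloc A v (X.ι (e : L)) - 1 = dloc A v (X.ι ((e - 1 : 𝓞 L) : L))
      rw [show ((e - 1 : 𝓞 L) : L) = (e : L) - 1 from rfl, map_sub, map_sub, map_one, map_one]
    rw [h1]
    exact hsm y

/-- **UPri.** Principal ideals. There is an ideal `m₁ ≠ ⊥` such that the representatives of the ideals
`(e)`, `e ≡ 1` modulo `m₁` and totally positive, act like `e`; `hdet` is the positivity of the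
signs. -/
theorem TorL.principal (X : TorL A φ K L)
    (hdet : ∀ (x : 𝓞 L), x ≠ 0 → TotPos x → ∀ w : SPl A, 0 < w.det (X.ι (x : L))) :
    ∃ m₁ : Ideal (𝓞 L), m₁ ≠ ⊥ ∧
    ∀ (e : 𝓞 L) (he : (e : L) ≠ 0), e - 1 ∈ m₁ → TotPos e → ∀ t, X.IsRep (Ideal.span {e}) t →
      mkK K (lt t X.y) = mkK K (act (uL X.ι (Units.mk0 (e : L) he)) X.y) := by
  classical
  choose J hJ0 hJ using UPri_bad X
  refine ⟨∏ v ∈ X.T_fin.toFinset, J v, ?_, fun e he h1 hpos t ht => ?_⟩
  · rw [← Ideal.zero_eq_bot]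
    exact Finset.prod_ne_zero_iff.2 fun v _ => hJ0 v
  · set x : Lˣ := Units.mk0 (e : L) he with hx
    have he0 : e ≠ 0 := fun h => he (by rw [h]; rfl)
    rw [mkK_eq]
    refine ⟨X.y.2⁻¹ * t⁻¹ * diag (uL X.ι x) * X.y.2, X.U_le _ fun v => ?_, ?_⟩
    · by_cases hv : v ∈ X.T
      · have h2 : (X.y.2⁻¹ * t⁻¹ * diag (uL X.ι x) * X.y.2).1 v =
            (X.y.2.1 v)⁻¹ * (sysA A).loc v (uL X.ι x) * X.y.2.1 v := by
          change (X.y.2.1 v)⁻¹ * (t.1 v)⁻¹ * (sysA A).loc v (uL X.ι x) * X.y.2.1 v = _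
          rw [ht.1 v hv, inv_one, mul_one]
        rw [h2]
        refine hJ v e he ?_
        exact Ideal.le_of_dvd (Finset.dvd_prod_of_mem J ((Set.Finite.mem_toFinset _).2 hv)) h1
      · obtain ⟨z, hz1, hz2⟩ := ht.2 v hv
        have h2 : (X.y.2⁻¹ * t⁻¹ * diag (uL X.ι x) * X.y.2).1 v =
            (X.y.2.1 v)⁻¹ * (sysA A).loc v (uL X.ι (z⁻¹ * x)) * X.y.2.1 v := by
          change (X.y.2.1 v)⁻¹ * (t.1 v)⁻¹ * (sysA A).loc v (uL X.ι x) * X.y.2.1 v = _
          rw [hz1, map_mul, map_mul, map_inv, map_inv]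
          simp only [mul_assoc]
        rw [h2]
        refine X.unit_mem v hv _ fun w hw => ?_
        rw [Units.val_mul, Units.val_inv_eq_inv_val, map_mul, map_inv₀, hz2 w hw]
        have h4 : w.valuation L (x : L) = WithZero.exp (-(expo w (Ideal.span {e}) : ℤ)) := by
          have h5 : w.valuation L (algebraMap (𝓞 L) L e) = w.intValuation e :=
            w.valuation_of_algebraMap e
          rw [w.intValuation_if_neg he0] at h5
          exact h5
        rw [h4, inv_mul_cancel₀ WithZero.exp_ne_zero]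
    · refine Prod.ext ?_ ?_
      · change (sysA A).sgn (uL X.ι x) * X.y.1 = X.y.1
        have h2 : (sysA A).sgn (uL X.ι x) = 1 := by
          funext w
          change (if 0 < w.det (X.ι (x : L)) then (1 : ℤˣ) else -1) = 1
          exact if_pos (hdet e he0 hpos w)
        rw [h2, one_mul]
      · change diag (uL X.ι x) * X.y.2 = t * X.y.2 * (X.y.2⁻¹ * t⁻¹ * diag (uL X.ι x) * X.y.2)
        group

end Pool.Agent.CGN
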