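import Pool.Agent.CG2.GalFin

/-!
# Totally split places
-/

noncomputable section

namespace Pool.Agent.CGN

open NumberField IsDedekindDomain
open Pool.Agent.CG2 (Pl)
open Pool.Agent.CG2.GalFinAux (below)

variable {F : Type} [Field F] [NumberField F] {L : Type} [Field L] [NumberField L] [Algebra F L]

set_option linter.deprecated false in
/-- **USplA.** At a totally split place the ramification indices and residue degrees are one.
PROOF. `Ideal.sum_ramification_inertia`: a sum of `finrank F L` positive numbers. -/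
theorem split_ef {v : Pl F} {P : Finset (Pl L)} (hP : ∀ w, w ∈ P ↔ below F w = v)
    (hcard : P.card = Module.finrank F L) {w : Pl L} (hw : w ∈ P) :
    v.asIdeal.ramificationIdx' w.asIdeal = 1 ∧ v.asIdeal.inertiaDeg' w.asIdeal = 1 := by
  classical
  have hvm : v.asIdeal.IsMaximal := v.isMaximal
  have hsum := Ideal.sum_ramification_inertia (𝓞 L) F L (p := v.asIdeal) v.ne_bot
  have himg : IsDedekindDomain.primesOverFinset v.asIdeal (𝓞 L) = P.image fun w => w.asIdeal := by
    ext Q
    rw [IsDedekindDomain.mem_primesOverFinset_iff v.ne_bot, Finset.mem_image]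
    constructor
    · rintro ⟨hQ, hQ'⟩
      have hQ0 : Q ≠ ⊥ := by
        rintro rfl
        have h1 : v.asIdeal = ⊥ := by
          have h2 := hQ'.over
          rw [h2]
          exact Ideal.under_bot _ _
        exact v.ne_bot h1
      refine ⟨⟨Q, hQ, hQ0⟩, (hP _).2 ?_, rfl⟩
      exact HeightOneSpectrum.ext hQ'.over.symm
    · rintro ⟨w', hw', rfl⟩
      refine ⟨w'.isPrime, ?_⟩
      exact CG2.GalFinAux.liesOver_of_lies (CG2.GalFinAux.lies_iff.2 ((hP _).1 hw'))
  rw [himg, Finset.sum_image (fun a _ b _ h => HeightOneSpectrum.ext h), ← hcard,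
    Finset.card_eq_sum_ones] at hsum
  have hpos : ∀ w' ∈ P, 1 ≤ v.asIdeal.ramificationIdx' w'.asIdeal *
      v.asIdeal.inertiaDeg' w'.asIdeal := by
    intro w' hw'
    have h1 : w'.asIdeal.LiesOver v.asIdeal :=
      CG2.GalFinAux.liesOver_of_lies (CG2.GalFinAux.lies_iff.2 ((hP _).1 hw'))
    have h2 : w'.asIdeal.IsPrime := w'.isPrime
    refine Right.one_le_mul ?_ ?_
    · exact Nat.pos_iff_ne_zero.mpr <|
        Ideal.IsDedekindDomain.ramificationIdx'_ne_zero_of_liesOver _ v.ne_bot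
    · exact Nat.pos_iff_ne_zero.mpr <| Ideal.inertiaDeg'_ne_zero v.asIdeal w'.asIdeal
  have h3 := (Finset.sum_eq_sum_iff_of_le hpos).1 hsum.symm w hw
  exact mul_eq_one.1 h3.symm

/-- **USplB.** The valuations at a totally split place. -/
theorem split_val {v : Pl F} {P : Finset (Pl L)} (hP : ∀ w, w ∈ P ↔ below F w = v)
    (hcard : P.card = Module.finrank F L) {w : Pl L} (hw : w ∈ P) (x : F) :
    w.valuation L (algebraMap F L x) = v.valuation F x := by
  have hlo : w.asIdeal.LiesOver v.asIdeal :=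
    CG2.GalFinAux.liesOver_of_lies (CG2.GalFinAux.lies_iff.2 ((hP w).1 hw))
  rw [← HeightOneSpectrum.valuation_liesOver L v w x, (split_ef hP hcard hw).1, pow_one]

/-- **USplC.** The residue fields at a totally split place. -/
theorem split_res {v : Pl F} {P : Finset (Pl L)} (hP : ∀ w, w ∈ P ↔ below F w = v)
    (hcard : P.card = Module.finrank F L) {w : Pl L} (hw : w ∈ P) (z : 𝓞 L) :
    ∃ a : 𝓞 F, z - algebraMap (𝓞 F) (𝓞 L) a ∈ w.asIdeal := by
  have hlo : w.asIdeal.LiesOver v.asIdeal :=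
    CG2.GalFinAux.liesOver_of_lies (CG2.GalFinAux.lies_iff.2 ((hP w).1 hw))
  have hvm : v.asIdeal.IsMaximal := v.isMaximal
  have hwm : w.asIdeal.IsMaximal := w.isMaximal
  have h1 := (split_ef hP hcard hw).2
  rw [Ideal.inertiaDeg'_algebraMap] at h1
  let _ : Field (𝓞 F ⧸ v.asIdeal) := Ideal.Quotient.field _
  let _ : Field (𝓞 L ⧸ w.asIdeal) := Ideal.Quotient.field _
  have h2 := (Algebra.finrank_eq_one_iff_bijective_algebraMap (F := 𝓞 F ⧸ v.asIdeal)
    (E := 𝓞 L ⧸ w.asIdeal)).1 h1
  obtain ⟨y, hy⟩ := h2.2 (Ideal.Quotient.mk w.asIdeal z)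
  obtain ⟨a, rfl⟩ := Ideal.Quotient.mk_surjective y
  refine ⟨a, ?_⟩
  rw [← Ideal.Quotient.eq, ← hy]
  rfl

end Pool.Agent.CGN
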