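import Pool.Agent.CGN.URes
import Pool.Agent.CGN.USpl

/-!
# Reduction at the places above a totally split place
-/

noncomputable section

namespace Pool.Agent.CGN

open NumberField IsDedekindDomain
open Pool.Agent.CG2 (Pl Fv Ov)
open Pool.Agent.CG2.GalFinAux (below)

variable {F : Type} [Field F] [NumberField F] {L : Type} [Field L] [NumberField L] [Algebra F L]

/-- **URed.** The reduction `𝓞 L → 𝓞 L ⧸ w = k_v` at a place `w` above the totally split place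
`v`. -/
theorem exists_red {v : Pl F} {P : Finset (Pl L)} (hP : ∀ w, w ∈ P ↔ below F w = v)
    (hcard : P.card = Module.finrank F L) {w : Pl L} (hw : w ∈ P) :
    ∃ f : 𝓞 L →+* kv v, (∀ z, f z = 0 ↔ z ∈ w.asIdeal) ∧
      ∀ r : 𝓞 F, f (algebraMap (𝓞 F) (𝓞 L) r) = resv v (algebraMap (𝓞 F) (Ov v) r) := by
  have hvm : v.asIdeal.IsMaximal := v.isMaximal
  have hwv : w.asIdeal.comap (algebraMap (𝓞 F) (𝓞 L)) = v.asIdeal :=
    CG2.GalFinAux.lies_iff.2 ((hP w).1 hw)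
  let g : 𝓞 F →+* 𝓞 L ⧸ w.asIdeal := (Ideal.Quotient.mk w.asIdeal).comp (algebraMap (𝓞 F) (𝓞 L))
  have hg : Function.Surjective g := by
    intro y
    obtain ⟨z, rfl⟩ := Ideal.Quotient.mk_surjective y
    obtain ⟨a, ha⟩ := split_res hP hcard hw z
    refine ⟨a, ?_⟩
    change Ideal.Quotient.mk w.asIdeal (algebraMap (𝓞 F) (𝓞 L) a) = _
    rw [eq_comm, Ideal.Quotient.eq]
    exact ha
  have hker : ∀ r : 𝓞 F, g r = 0 ↔ r ∈ v.asIdeal := by
    intro r
    change Ideal.Quotient.mk w.asIdeal (algebraMap (𝓞 F) (𝓞 L) r) = 0 ↔ _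
    rw [Ideal.Quotient.eq_zero_iff_mem, ← hwv, Ideal.mem_comap]
  let h : 𝓞 F →+* kv v := (resv v).comp (algebraMap (𝓞 F) (Ov v))
  have hh : ∀ r : 𝓞 F, h r = 0 ↔ r ∈ v.asIdeal := fun r => resv_int
  -- the isomorphism of the quotients
  let e : 𝓞 F ⧸ RingHom.ker g ≃+* 𝓞 L ⧸ w.asIdeal := RingHom.quotientKerEquivOfSurjective hg
  let h' : 𝓞 F ⧸ RingHom.ker g →+* kv v := Ideal.Quotient.lift (RingHom.ker g) h (by
    intro r hr
    rw [hh, ← hker]
    exact hr)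
  have hh' : ∀ y, h' y = 0 ↔ y = 0 := by
    intro y
    obtain ⟨r, rfl⟩ := Ideal.Quotient.mk_surjective y
    rw [Ideal.Quotient.eq_zero_iff_mem, RingHom.mem_ker, hker, ← hh]
    rfl
  refine ⟨(h'.comp e.symm.toRingHom).comp (Ideal.Quotient.mk w.asIdeal), ?_, ?_⟩
  · intro z
    change h' (e.symm (Ideal.Quotient.mk w.asIdeal z)) = 0 ↔ _
    rw [hh', EmbeddingLike.map_eq_zero_iff, Ideal.Quotient.eq_zero_iff_mem]
  · intro r
    change h' (e.symm (Ideal.Quotient.mk w.asIdeal (algebraMap (𝓞 F) (𝓞 L) r))) = _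
    have h1 : e (Ideal.Quotient.mk (RingHom.ker g) r) =
        Ideal.Quotient.mk w.asIdeal (algebraMap (𝓞 F) (𝓞 L) r) := rfl
    rw [← h1, RingEquiv.symm_apply_apply]
    rfl

end Pool.Agent.CGN
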