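import Pool.Agent.CGN.UPri
import Pool.Agent.CGN.ULHec

/-!
# The unit trick: the relation at a selected place
-/

noncomputable section

namespace Pool.Agent.CGN

open NumberField IsDedekindDomain Matrix
open Pool.Agent.CG2 (Pl Fv Ov IsRay InRay expo TotPos)
open Pool.Agent.CG2.GalFinAux (below)
open Pool.Agent.CGQ (Sys OC diag single single_same single_ne act rt lt mkK mkK_eq mkK_rt Stab
  mem_Stab' lt_rt rt_mul Reps exists_Reps)

variable {F : Type} [Field F] [NumberField F] {L : Type} [Field L] [NumberField L] [Algebra F L]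
variable {A : AD F} {S : Set (Pl F)} {φ : Spl A S} {K : Subgroup (sysA A).A}

/-- **URelA.** The neighbour given by an element of `L` with valuations `0` or `1` above `v`.
PROOF. `sg Φ v B = single v (g⁻¹ loc (u x) g)`, so `rt (lt t y) (sg Φ v B) =
lt (t * single v (loc (u x))) y`, and `t * single v (loc (u x))` represents `I * ∏ w`. -/
theorem TorL.nb_eq (X : TorL A φ K L) (v : {v : Pl F // v ∉ S}) (hv : v.1 ∉ X.T)
    (J : Finset (Pl L)) [∀ w, Decidable (w ∈ J)] (hJ : J ⊆ abv L v.1) (x : Lˣ)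
    (hx : ∀ w ∈ abv L v.1, w.valuation L (x : L) = if w ∈ J then WithZero.exp (-1 : ℤ) else 1)
    (B : GQ A.n v.1)
    (hB : (B : Matrix (Fin A.n) (Fin A.n) (Fv v.1)) = psi φ v (X.y.2.1 v.1) (X.ι (x : L)))
    {I : Ideal (𝓞 L)} (hI : I ≠ ⊥) {t t' : (sysA A).A} (ht : X.IsRep I t)
    (ht' : X.IsRep (I * ∏ w ∈ J, w.asIdeal) t') :
    mkK K (nb (chartA φ) v (lt t X.y) ((B : GQ A.n v.1) : GQ A.n v.1 ⧸ GZ A.n v.1)) =
      mkK K (lt t' X.y) := by
  classical
  -- the representative of the product of the places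
  have hs : X.IsRep (∏ w ∈ J, w.asIdeal) (single v.1 ((sysA A).loc v.1 (uL X.ι x))) := by
    refine ⟨fun v' hv' => single_ne (by rintro rfl; exact hv hv') _, fun v' hv' => ?_⟩
    by_cases h : v' = v.1
    · subst h
      refine ⟨x, single_same _ _, ?_⟩
      intro w' hw'
      rw [hx w' (mem_abv.2 hw'), expo_prod]
      by_cases hwJ : w' ∈ J
      · rw [if_pos hwJ, if_pos hwJ]
        rfl
      · rw [if_neg hwJ, if_neg hwJ]
        simp
    · refine ⟨1, ?_, ?_⟩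
      · rw [map_one, map_one]
        exact single_ne h _
      · intro w' hw'
        have hne : w' ∉ J := by
          intro hw'J
          exact h (hw'.symm.trans (mem_abv.1 (hJ hw'J)))
        rw [expo_prod, if_neg hne]
        simp
  have hrep := X.rep_mul hI (prod_ne_bot J) ht hs
  rw [← X.rep_unique hrep ht']
  -- the coset
  obtain ⟨k, hk⟩ := QuotientGroup.mk_out_eq_mul (GZ A.n v.1) B
  have h1 : mkK K (nb (chartA φ) v (lt t X.y) ((B : GQ A.n v.1) : GQ A.n v.1 ⧸ GZ A.n v.1)) =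
      mkK K (rt (lt t X.y) (sg (chartA φ) v B)) := by
    rw [nb, hk, map_mul, rt_mul]
    exact mkK_rt _ ((X.hyp v).sg_mem k.2)
  rw [h1]
  congr 1
  let g' : (sysA A).L v.1 := X.y.2.1 v.1
  have h2 : (chartA φ).e v (g'⁻¹ * (sysA A).loc v.1 (uL X.ι x) * g') = B := by
    apply Units.ext
    rw [hB]
    rfl
  have h3 : sg (chartA φ) v B = single v.1 (g'⁻¹ * (sysA A).loc v.1 (uL X.ι x) * g') := by
    rw [sg_apply, ← h2, MulEquiv.symm_apply_apply]
  rw [h3]
  refine Prod.ext rfl ?_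
  change t * X.y.2 * single v.1 (g'⁻¹ * (sysA A).loc v.1 (uL X.ι x) * g') =
    t * single v.1 ((sysA A).loc v.1 (uL X.ι x)) * X.y.2
  rw [mul_assoc t X.y.2 _, mul_assoc t _ X.y.2]
  congr 1
  apply Subtype.ext
  funext v'
  by_cases h : v' = v.1
  · subst h
    change X.y.2.1 v.1 * (single v.1 (g'⁻¹ * (sysA A).loc v.1 (uL X.ι x) * g')).1 v.1 =
      (single v.1 ((sysA A).loc v.1 (uL X.ι x))).1 v.1 * X.y.2.1 v.1
    rw [single_same, single_same]
    change g' * (g'⁻¹ * (sysA A).loc v.1 (uL X.ι x) * g') = (sysA A).loc v.1 (uL X.ι x) * g'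
    group
  · change X.y.2.1 v' * (single v.1 (g'⁻¹ * (sysA A).loc v.1 (uL X.ι x) * g')).1 v' =
      (single v.1 ((sysA A).loc v.1 (uL X.ι x))).1 v' * X.y.2.1 v'
    rw [single_ne h, single_ne h, mul_one, one_mul]

/-- **URelB.** The matrix of a unit. -/
theorem TorL.loc_eq (X : TorL A φ K L) (v : {v : Pl F // v ∉ S}) (hv : v.1 ∉ X.T)
    (z : (𝓞 L)ˣ) {I : Ideal (𝓞 L)} {t : (sysA A).A} (ht : X.IsRep I t) :
    ((locZ (chartA φ) v (lt t X.y) (uA X.ι z) : GQ A.n v.1) :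
      Matrix (Fin A.n) (Fin A.n) (Fv v.1)) =
      psi φ v (X.y.2.1 v.1) (X.ι (((z : 𝓞 L)) : L)) := by
  obtain ⟨x₀, hx₀, -⟩ := ht.2 v.1 hv
  have h2 : (lt t X.y).2.1 v.1 = (sysA A).loc v.1 (uL X.ι x₀) * X.y.2.1 v.1 := by
    change t.1 v.1 * X.y.2.1 v.1 = _
    rw [hx₀]
  have h3 : (sysA A).loc v.1 (uA X.ι z) * (sysA A).loc v.1 (uL X.ι x₀) =
      (sysA A).loc v.1 (uL X.ι x₀) * (sysA A).loc v.1 (uA X.ι z) := by
    rw [← map_mul ((sysA A).loc v.1), ← map_mul ((sysA A).loc v.1)]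
    congr 1
    exact uL_comm _ _ _
  have h1 : ((lt t X.y).2.1 v.1)⁻¹ * (sysA A).loc v.1 (uA X.ι z) * (lt t X.y).2.1 v.1 =
      (X.y.2.1 v.1)⁻¹ * (sysA A).loc v.1 (uA X.ι z) * X.y.2.1 v.1 := by
    rw [h2, _root_.mul_inv_rev]
    calc (X.y.2.1 v.1)⁻¹ * ((sysA A).loc v.1 (uL X.ι x₀))⁻¹ * (sysA A).loc v.1 (uA X.ι z) *
          ((sysA A).loc v.1 (uL X.ι x₀) * X.y.2.1 v.1) =
        (X.y.2.1 v.1)⁻¹ * (((sysA A).loc v.1 (uL X.ι x₀))⁻¹ * ((sysA A).loc v.1 (uA X.ι z) *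
          (sysA A).loc v.1 (uL X.ι x₀))) * X.y.2.1 v.1 := by simp only [mul_assoc]
      _ = _ := by rw [h3, inv_mul_cancel_left]
  unfold locZ
  rw [h1]
  rfl

omit [NumberField L] in
/-- The matrices of the elements of `L` commute. -/
theorem psi_comm (ι : L →ₐ[F] DF A) (v : {v : Pl F // v ∉ S}) (g : (DV A v.1)ˣ) (x y : L) :
    psi φ v g (ι x) * psi φ v g (ι y) = psi φ v g (ι y) * psi φ v g (ι x) := by
  rw [← map_mul (psi φ v g), ← map_mul (psi φ v g), ← map_mul ι, ← map_mul ι, mul_comm]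

/-- Powers in the residue field. -/
private theorem URel_pow {v : Pl F} {m : ℕ} (hm : m ≠ 0) {w w' : Pl L} {u : 𝓞 L} {t t' : (kv v)ˣ}
    (ht : ∀ r : 𝓞 F, u - algebraMap (𝓞 F) (𝓞 L) r ∈ w.asIdeal →
      (t : kv v) = resv v (algebraMap (𝓞 F) (Ov v) r))
    (ht' : ∀ r : 𝓞 F, u - algebraMap (𝓞 F) (𝓞 L) r ∈ w'.asIdeal →
      (t' : kv v) = resv v (algebraMap (𝓞 F) (Ov v) r))
    (hex : ∃ r : 𝓞 F, u - algebraMap (𝓞 F) (𝓞 L) r ∈ w.asIdeal)
    (hex' : ∃ r : 𝓞 F, u - algebraMap (𝓞 F) (𝓞 L) r ∈ w'.asIdeal) :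
    PPow v m w w' u ↔ ∃ z : (kv v)ˣ, z ^ m = t / t' := by
  have hneg : ∀ (w : Pl L) (r : 𝓞 F), algebraMap (𝓞 F) (𝓞 L) r - u ∈ w.asIdeal ↔
      u - algebraMap (𝓞 F) (𝓞 L) r ∈ w.asIdeal := fun w r => by
    rw [← neg_sub, neg_mem_iff]
  have hsub : ∀ a b : 𝓞 F, a - b ∈ v.asIdeal ↔
      resv v (algebraMap (𝓞 F) (Ov v) a) = resv v (algebraMap (𝓞 F) (Ov v) b) := fun a b => by
    rw [← resv_int, map_sub, map_sub, sub_eq_zero]
  constructor
  · rintro ⟨a, b, x, ha, hb, hx⟩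
    have h1 := ht a ((hneg w a).1 ha)
    have h2 := ht' b ((hneg w' b).1 hb)
    rw [hsub, map_mul, map_mul, map_pow, map_pow, ← h1, ← h2] at hx
    have h3 : IsUnit (resv v (algebraMap (𝓞 F) (Ov v) x)) := by
      rw [← isUnit_pow_iff hm]
      exact isUnit_of_mul_isUnit_left (hx ▸ t.isUnit)
    obtain ⟨z, hz⟩ := h3
    refine ⟨z, ?_⟩
    rw [eq_div_iff_mul_eq']
    apply Units.ext
    rw [Units.val_mul, Units.val_pow_eq_pow_val, hz, ← hx]
  · rintro ⟨z, hz⟩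
    obtain ⟨a, ha⟩ := hex
    obtain ⟨b, hb⟩ := hex'
    obtain ⟨x, hx⟩ := resv_int_surj v (z : kv v)
    refine ⟨a, b, x, (hneg w a).2 ha, (hneg w' b).2 hb, ?_⟩
    rw [hsub, map_mul, map_mul, map_pow, map_pow, ← ht a ha, ← ht' b hb, hx]
    rw [eq_div_iff_mul_eq'] at hz
    rw [← hz, Units.val_mul, Units.val_pow_eq_pow_val]

/-- **URelC.** The relation between the values at a selected place.
PROOF. `exists_frame_loc`, `hecke_local`, `nb_eq`. -/
theorem TorL.sum_terms (X : TorL A φ K L) (hL : Module.finrank F L = A.n)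
    (v : {v : Pl F // v ∉ S}) (hv : v.1 ∉ X.T) {κ : Type} [Field κ] {p : ℕ}
    [hp : Fact p.Prime] [CharP κ p] {η : (sysA A).G →* ℤˣ}
    {lam : {v : Pl F // v ∉ S} → Option (Fin A.n) → κ} (u e : (𝓞 L)ˣ)
    (E : EigFam K (chartA φ) κ η (uA X.ι u) lam)
    (hu : uA X.ι u ∈ Stab K X.y) (he : uA X.ι e ∈ Stab K X.y)
    (hηu : η (uA X.ι u) = 1) (hηe : η (uA X.ι e) = 1) (M : ℕ) (hsel : Sel L u e (p ^ M) v.1)
    (j : Fin A.n) {I : Ideal (𝓞 L)} (hI : I ≠ ⊥) {t : (sysA A).A} (ht : X.IsRep I t)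
    (tJ : Finset (Pl L) → (sysA A).A)
    (htJ : ∀ J ∈ (abv L v.1).powersetCard ((j : ℕ) + 1), X.IsRep (I * ∏ w ∈ J, w.asIdeal) (tJ J)) :
    ∑ J ∈ (abv L v.1).powersetCard ((j : ℕ) + 1), E.h (lt (tJ J) X.y) 1 =
      lam v (some j) * E.h (lt t X.y) 1 := by
  classical
  have hn : 0 < A.n := lt_of_le_of_lt (Nat.zero_le _) j.2
  have hP : ∀ w, w ∈ abv L v.1 ↔ below F w = v.1 := fun w => mem_abv
  have hcard : (abv L v.1).card = Module.finrank F L := hsel.split
  -- the enumeration of the places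
  obtain ⟨e₀⟩ : Nonempty (Fin A.n ≃ {w // w ∈ abv L v.1}) := by
    rw [← Fintype.card_eq, Fintype.card_fin, Fintype.card_coe, hcard, hL]
  let ee : Fin A.n → Pl L := fun i => (e₀ i).1
  have hee : ∀ i, ee i ∈ abv L v.1 := fun i => (e₀ i).2
  have heinj : Function.Injective ee := fun i i' h => e₀.injective (Subtype.ext h)
  have hesurj : ∀ w ∈ abv L v.1, ∃ i, ee i = w := fun w hw =>
    ⟨e₀.symm ⟨w, hw⟩, by
      change (e₀ (e₀.symm ⟨w, hw⟩)).1 = w
      rw [Equiv.apply_symm_apply]⟩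
  -- the frame
  obtain ⟨m, hm1, hm2⟩ := exists_frame_loc hP hcard ee hee heinj hesurj
    ((psi φ v (X.y.2.1 v.1)).comp (X.ι : L →+* DF A))
    (fun a => by
      change psi φ v (X.y.2.1 v.1) (X.ι (algebraMap F L a)) = _
      rw [AlgHom.commutes, psi_scalar])
    (fun x hx => X.psi_int v hv x fun w hw => hx w ((hP w).2 hw))
    (fun x hx w hw => X.int_psi hn v x hx w ((hP w).1 hw))
  -- the matrices of the units
  set γA : GQ A.n v.1 := locZ (chartA φ) v (lt t X.y) (uA X.ι u) with hγA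
  set γB : GQ A.n v.1 := locZ (chartA φ) v (lt t X.y) (uA X.ι e) with hγB
  obtain ⟨a, ta, ha1, ha2, ha3⟩ := hm1 u γA (X.loc_eq v hv u ht)
  obtain ⟨b, tb, hb1, hb2, hb3⟩ := hm1 e γB (X.loc_eq v hv e ht)
  have hAB : γA * γB = γB * γA := by
    apply Units.ext
    rw [Units.val_mul, Units.val_mul, hγA, hγB, X.loc_eq v hv u ht, X.loc_eq v hv e ht, psi_comm]
  have hstabu : uA X.ι u ∈ Stab K (lt t X.y) := X.stab_rep ht _ hu
  have hstabe : uA X.ι e ∈ Stab K (lt t X.y) := X.stab_rep ht _ he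
  -- powers
  have hpM : p ^ M ≠ 0 := pow_ne_zero _ hp.out.ne_zero
  have hpow : ∀ x y, x ≠ y → ∃ z : (kv v.1)ˣ, z ^ p ^ M = ta x / ta y := fun x y _ =>
    (URel_pow hpM (ha3 x) (ha3 y) (split_res hP hcard (hee x) _)
      (split_res hP hcard (hee y) _)).1 (hsel.pw _ (hee x) _ (hee y))
  have hnpow : ∀ x y, x ≠ y → ¬ ∃ z : (kv v.1)ˣ, z ^ p ^ M = tb x / tb y := fun x y hxy h =>
    hsel.np _ (hee x) _ (hee y) (fun h' => hxy (heinj h'))
      ((URel_pow hpM (hb3 x) (hb3 y) (split_res hP hcard (hee x) _)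
        (split_res hP hcard (hee y) _)).2 h)
  -- the function on the cosets
  let H : GQ A.n v.1 ⧸ GZ A.n v.1 → κ := fun c =>
    E.h (nb (chartA φ) v (lt t X.y) c) (Function.minimalPeriod (fun c => γA • c) c)
  have hper : ∀ (g : GQ A.n v.1), γA * g = g * γA → ∀ c : GQ A.n v.1 ⧸ GZ A.n v.1,
      Function.minimalPeriod (fun c => γA • c) (g • c) =
        Function.minimalPeriod (fun c => γA • c) c := by
    intro g hg c
    apply Function.minimalPeriod_eq_minimalPeriod_iff.2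
    intro k
    have hit : ∀ (k : ℕ) (c : GQ A.n v.1 ⧸ GZ A.n v.1), (fun c => γA • c)^[k] (g • c) =
        g • (fun c => γA • c)^[k] c := by
      intro k
      induction k with
      | zero => intro c; rfl
      | succ k ih =>
        intro c
        rw [Function.iterate_succ_apply, Function.iterate_succ_apply, ← ih]
        congr 1
        rw [smul_smul, smul_smul, hg]
    unfold Function.IsPeriodicPt Function.IsFixedPt
    rw [hit]
    exact ⟨fun h => MulAction.injective g h, fun h => by rw [h]⟩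
  have hH : ∀ (δ : (𝓞 L)ˣ), uA X.ι δ ∈ Stab K (lt t X.y) → η (uA X.ι δ) = 1 →
      γA * locZ (chartA φ) v (lt t X.y) (uA X.ι δ) =
        locZ (chartA φ) v (lt t X.y) (uA X.ι δ) * γA →
      ∀ c, H (locZ (chartA φ) v (lt t X.y) (uA X.ι δ) • c) = H c := by
    intro δ hδ hηδ hcomm c
    change E.h _ (Function.minimalPeriod _ (_ • c)) = E.h _ _
    rw [hper _ hcomm]
    have h3 := act_nb (X.hyp v) hδ c
    rw [← E.congr h3, E.h_act _ (uA X.ι δ) _ (uL_comm X.ι _ _), hηδ, Units.val_one, Int.cast_one,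
      one_mul]
  -- representatives
  have hmZ : mapO v.1 m ∈ GZ A.n v.1 := ⟨m, rfl⟩
  have hγAZ : γA ∈ GZ A.n v.1 := locZ_mem (X.hyp v) hstabu
  obtain ⟨R, hR⟩ := exists_Reps (fun c : GQ A.n v.1 ⧸ GZ A.n v.1 => γA • c)
    (MulAction.injective γA) (cosets_finite v.1 (some j)).toFinset (fun c hc => by
      rw [Set.Finite.mem_toFinset] at hc ⊢
      exact smul_mem_cosets hc hγAZ)
  have hT := E.h_T v (some j) (lt t X.y) hstabu R hR
  have hloc := hecke_local (p := p) M hmZ hAB a b ha1 hb1 ta tb ha2 hb2 hpow hnpow j H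
    (hH u hstabu hηu rfl) (hH e hstabe hηe hAB) R hR
  have hsum : ∑ c ∈ R, H c = lam v (some j) * E.h (lt t X.y) 1 := hT
  rw [← hsum, hloc]
  -- the bijection of the subsets
  symm
  refine Finset.sum_bij (fun J _ => J.image ee) ?_ ?_ ?_ ?_
  · intro J hJ
    rw [Finset.mem_powersetCard] at hJ ⊢
    refine ⟨fun w hw => ?_, ?_⟩
    · obtain ⟨i, -, rfl⟩ := Finset.mem_image.1 hw
      exact hee i
    · rw [Finset.card_image_of_injective _ heinj, hJ.2]
  · intro J _ J' _ h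
    exact Finset.image_injective heinj h
  · intro J hJ
    rw [Finset.mem_powersetCard] at hJ
    refine ⟨Finset.univ.filter fun i => ee i ∈ J, ?_, ?_⟩
    · rw [Finset.mem_powersetCard]
      refine ⟨Finset.subset_univ _, ?_⟩
      rw [← hJ.2, ← Finset.card_image_of_injective _ heinj]
      congr 1
      ext w
      rw [Finset.mem_image]
      constructor
      · rintro ⟨i, hi, rfl⟩
        exact (Finset.mem_filter.1 hi).2
      · intro hw
        obtain ⟨i, rfl⟩ := hesurj w (hJ.1 hw)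
        exact ⟨i, Finset.mem_filter.2 ⟨Finset.mem_univ _, hw⟩, rfl⟩
    · ext w
      rw [Finset.mem_image]
      constructor
      · rintro ⟨i, hi, rfl⟩
        exact (Finset.mem_filter.1 hi).2
      · intro hw
        obtain ⟨i, rfl⟩ := hesurj w (hJ.1 hw)
        exact ⟨i, Finset.mem_filter.2 ⟨Finset.mem_univ _, hw⟩, rfl⟩
  · intro J hJ
    rw [Finset.mem_powersetCard] at hJ
    have hJsub : J.image ee ⊆ abv L v.1 := by
      intro w hw
      obtain ⟨i, -, rfl⟩ := Finset.mem_image.1 hw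
      exact hee i
    -- an element of `L`
    obtain ⟨x, hx⟩ := exists_eltL (L := L) v.1 (∏ w ∈ J.image ee, w.asIdeal)
    have hx' : ∀ w ∈ abv L v.1, w.valuation L (x : L) =
        if w ∈ J.image ee then WithZero.exp (-1 : ℤ) else 1 := by
      intro w hw
      rw [hx w ((hP w).1 hw), expo_prod]
      by_cases hwJ : w ∈ J.image ee
      · rw [if_pos hwJ, if_pos hwJ]
        rfl
      · rw [if_neg hwJ, if_neg hwJ]
        simp
    let B : GQ A.n v.1 := Units.map (((psi φ v (X.y.2.1 v.1)).comp (X.ι : L →+* DF A) :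
      L →+* Matrix (Fin A.n) (Fin A.n) (Fv v.1)) : L →* Matrix (Fin A.n) (Fin A.n) (Fv v.1)) x
    have hB : (B : Matrix (Fin A.n) (Fin A.n) (Fv v.1)) =
        psi φ v (X.y.2.1 v.1) (X.ι (x : L)) := rfl
    have hBc : ((B : GQ A.n v.1) : GQ A.n v.1 ⧸ GZ A.n v.1) = mapO v.1 m • dcs A.n v.1 J :=
      hm2 J x B rfl (fun i => by
        rw [hx' (ee i) (hee i)]
        by_cases hi : i ∈ J
        · rw [if_pos hi, if_pos (Finset.mem_image_of_mem ee hi)]
        · rw [if_neg hi, if_neg (fun h => hi (by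
            obtain ⟨i', hi', h'⟩ := Finset.mem_image.1 h
            rwa [← heinj h']))])
    have hfix : γA • ((B : GQ A.n v.1) : GQ A.n v.1 ⧸ GZ A.n v.1) =
        ((B : GQ A.n v.1) : GQ A.n v.1 ⧸ GZ A.n v.1) := by
      change ((γA * B : GQ A.n v.1) : GQ A.n v.1 ⧸ GZ A.n v.1) = _
      have hcomm : γA * B = B * γA := by
        apply Units.ext
        rw [Units.val_mul, Units.val_mul, hγA, X.loc_eq v hv u ht, hB, psi_comm]
      rw [hcomm, eq_comm, QuotientGroup.eq, inv_mul_cancel_left]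
      exact hγAZ
    have hper1 : Function.minimalPeriod (fun c : GQ A.n v.1 ⧸ GZ A.n v.1 => γA • c)
        ((B : GQ A.n v.1) : GQ A.n v.1 ⧸ GZ A.n v.1) = 1 :=
      Function.minimalPeriod_eq_one_iff_isFixedPt.2 hfix
    rw [← hBc]
    change E.h (nb (chartA φ) v (lt t X.y) ((B : GQ A.n v.1) : GQ A.n v.1 ⧸ GZ A.n v.1))
      (Function.minimalPeriod (fun c : GQ A.n v.1 ⧸ GZ A.n v.1 => γA • c)
        ((B : GQ A.n v.1) : GQ A.n v.1 ⧸ GZ A.n v.1)) = E.h (lt (tJ (J.image ee)) X.y) 1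
    rw [hper1]
    refine E.congr (X.nb_eq v hv (J.image ee) hJsub x hx' B hB hI ht (htJ _ ?_)) 1
    rw [Finset.mem_powersetCard]
    exact ⟨hJsub, by rw [Finset.card_image_of_injective _ heinj, hJ.2]⟩

end Pool.Agent.CGN
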