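import Pool.Agent.CGN.UTor

/-!
# The unit trick: representatives of ideals
-/

noncomputable section

namespace Pool.Agent.CGN

open NumberField IsDedekindDomain Matrix
open Pool.Agent.CG2 (Pl Fv Ov IsRay InRay expo TotPos)
open Pool.Agent.CG2.GalFinAux (below)
open Pool.Agent.CGQ (Sys OC diag single act rt lt mkK mkK_eq mkK_rt Stab mem_Stab' lt_rt)

variable {F : Type} [Field F] [NumberField F] {L : Type} [Field L] [NumberField L] [Algebra F L]
variable {A : AD F} {S : Set (Pl F)} {φ : Spl A S} {K : Subgroup (sysA A).A}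

/-- **URepA.** Elements of `L` which are units above the good place `v` are in the group `K`, seen
from `y`. -/
theorem TorL.unit_mem (X : TorL A φ K L) (v : Pl F) (hv : v ∉ X.T) (x : Lˣ)
    (hx : ∀ w : Pl L, below F w = v → w.valuation L (x : L) = 1) :
    (X.y.2.1 v)⁻¹ * (sysA A).loc v (uL X.ι x) * X.y.2.1 v ∈ X.U v := by
  have hvS : v ∉ S := fun h => hv (X.S_le h)
  refine X.U_good v hv ?_
  refine (X.std ⟨v, hvS⟩ _).1 ((mem_GZ_iff v _).2 ⟨fun i j => ?_, fun i j => ?_⟩)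
  · exact X.psi_int ⟨v, hvS⟩ hv (x : L) (fun w hw => (hx w hw).le) i j
  · have h1 := X.psi_int ⟨v, hvS⟩ hv ((x⁻¹ : Lˣ) : L) (fun w hw => by
      rw [Units.val_inv_eq_inv_val, map_inv₀, hx w hw, inv_one]) i j
    have h2 : ((X.y.2.1 v)⁻¹ * (sysA A).loc v (uL X.ι x) * X.y.2.1 v)⁻¹ =
        (X.y.2.1 v)⁻¹ * (sysA A).loc v (uL X.ι x⁻¹) * X.y.2.1 v := by
      rw [map_inv, map_inv]
      group
    rw [← map_inv, h2]
    exact h1

/-- **URepB.** Representatives exist. -/
theorem TorL.exists_rep (X : TorL A φ K L) {I : Ideal (𝓞 L)} (hI : I ≠ ⊥) : ∃ t, X.IsRep I t := by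
  classical
  choose x hx using fun v : Pl F => exists_eltL (L := L) v I
  let P : Pl F → Prop := fun v => v ∈ X.T ∨ ∀ w : Pl L, below F w = v → expo w I = 0
  let g : ∀ v, (sysA A).L v := fun v => if P v then 1 else (sysA A).loc v (uL X.ι (x v))
  have hg1 : ∀ v, P v → g v = 1 := fun v h => if_pos h
  have hg2 : ∀ v, ¬ P v → g v = (sysA A).loc v (uL X.ι (x v)) := fun v h => if_neg h
  have hfin : {v | g v ∉ (sysA A).B v}.Finite := by
    refine ((Ideal.finite_factors hI).image (below F)).subset ?_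
    intro v hv
    by_contra hc
    apply hv
    have hP : P v := Or.inr fun w hw => by
      by_contra h
      exact hc ⟨w, (Pool.Agent.CG2.GalL_expo_ne_zero w hI).1 h, hw⟩
    rw [hg1 v hP]
    exact ((sysA A).B v).one_mem
  refine ⟨⟨g, hfin⟩, fun v hv => hg1 v (Or.inl hv), fun v hv => ?_⟩
  by_cases h : ∀ w : Pl L, below F w = v → expo w I = 0
  · refine ⟨1, ?_, ?_⟩
    · rw [map_one, map_one]
      exact hg1 v (Or.inr h)
    · intro w hw
      rw [h w hw]
      simp
  · exact ⟨x v, hg2 v (by rintro (h1 | h1); exacts [hv h1, h h1]), hx v⟩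

/-- **URepC.** Two representatives of the same ideal give the same point. -/
theorem TorL.rep_unique (X : TorL A φ K L) {I : Ideal (𝓞 L)} {t t' : (sysA A).A}
    (ht : X.IsRep I t) (ht' : X.IsRep I t') : mkK K (lt t X.y) = mkK K (lt t' X.y) := by
  refine mkK_eq.2 ⟨X.y.2⁻¹ * t⁻¹ * t' * X.y.2, ?_, ?_⟩
  · apply X.U_le
    intro v
    change (X.y.2.1 v)⁻¹ * (t.1 v)⁻¹ * t'.1 v * X.y.2.1 v ∈ X.U v
    by_cases hv : v ∈ X.T
    · rw [ht.1 v hv, ht'.1 v hv, inv_one, mul_one, mul_one, inv_mul_cancel]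
      exact (X.U v).one_mem
    · obtain ⟨x, hx1, hx2⟩ := ht.2 v hv
      obtain ⟨x', hx1', hx2'⟩ := ht'.2 v hv
      have h1 := X.unit_mem v hv (x⁻¹ * x') (by
        intro w hw
        rw [Units.val_mul, Units.val_inv_eq_inv_val, map_mul, map_inv₀, hx2 w hw, hx2' w hw,
          ← WithZero.exp_neg, ← WithZero.exp_add, neg_neg, add_neg_cancel, WithZero.exp_zero])
      have h2 : (sysA A).loc v (uL X.ι (x⁻¹ * x')) = (t.1 v)⁻¹ * t'.1 v := by
        rw [map_mul, map_mul, hx1, hx1', map_inv, map_inv]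
      rw [h2] at h1
      simpa only [mul_assoc] using h1
  · refine Prod.ext rfl ?_
    change t' * X.y.2 = t * X.y.2 * (X.y.2⁻¹ * t⁻¹ * t' * X.y.2)
    group

/-- **URepD.** Products of representatives. -/
theorem TorL.rep_mul (X : TorL A φ K L) {I J : Ideal (𝓞 L)} (hI : I ≠ ⊥) (hJ : J ≠ ⊥)
    {t t' : (sysA A).A} (ht : X.IsRep I t) (ht' : X.IsRep J t') : X.IsRep (I * J) (t * t') := by
  refine ⟨?_, ?_⟩
  · intro v hv
    change t.1 v * t'.1 v = 1
    rw [ht.1 v hv, ht'.1 v hv, mul_one]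
  · intro v hv
    obtain ⟨x, hx, hx'⟩ := ht.2 v hv
    obtain ⟨x', hy, hy'⟩ := ht'.2 v hv
    refine ⟨x * x', ?_, ?_⟩
    · change t.1 v * t'.1 v = _
      rw [hx, hy, map_mul, map_mul]
    · intro w hw
      rw [Units.val_mul, map_mul, hx' w hw, hy' w hw, ← WithZero.exp_add,
        CG2.GalL_expo_mul w hI hJ]
      congr 1
      push_cast
      ring

theorem TorL.rep_top (X : TorL A φ K L) : X.IsRep ⊤ 1 := by
  refine ⟨fun v _ => rfl, ?_⟩
  intro v _
  refine ⟨1, ?_, ?_⟩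
  · rw [map_one, map_one]
    rfl
  · intro w _
    rw [Units.val_one, map_one, CG2.GalL_expo_top]
    rfl

end Pool.Agent.CGN
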