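import Pool.Agent.CG2.HeckeReps

/-!
# The residue field at a finite place
-/

noncomputable section

namespace Pool.Agent.CGN

open NumberField IsDedekindDomain
open Pool.Agent.CG2 (Pl Fv Ov pi)

variable {F : Type} [Field F] [NumberField F]

/-- The residue field of `O_v`. -/
abbrev kv (v : Pl F) := IsLocalRing.ResidueField (Ov v)

/-- Reduction. -/
def resv (v : Pl F) : Ov v →+* kv v := IsLocalRing.residue (Ov v)

theorem resv_surj (v : Pl F) : Function.Surjective (resv v) := IsLocalRing.residue_surjective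

theorem ov_isUnit {v : Pl F} {x : Ov v} : IsUnit x ↔ Valued.v (x : Fv v) = 1 := by
  constructor
  · rintro ⟨u, rfl⟩
    have h1 : Valued.v ((u : Ov v) : Fv v) * Valued.v (((u⁻¹ : (Ov v)ˣ) : Ov v) : Fv v) = 1 := by
      rw [← map_mul]
      have h2 : ((u : Ov v) : Fv v) * (((u⁻¹ : (Ov v)ˣ) : Ov v) : Fv v) = 1 :=
        congrArg Subtype.val (Units.mul_inv u)
      rw [h2, map_one]
    refine le_antisymm (u : Ov v).2 ?_
    rw [← h1]
    calc Valued.v ((u : Ov v) : Fv v) * Valued.v (((u⁻¹ : (Ov v)ˣ) : Ov v) : Fv v) ≤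
          Valued.v ((u : Ov v) : Fv v) * 1 := mul_le_mul_right ((u⁻¹ : (Ov v)ˣ) : Ov v).2 _
      _ = _ := mul_one _
  · intro h
    have h0 : (x : Fv v) ≠ 0 := by
      intro h0
      rw [h0, map_zero] at h
      exact zero_ne_one h
    refine ⟨⟨x, ⟨(x : Fv v)⁻¹, ?_⟩, ?_, ?_⟩, rfl⟩
    · change Valued.v (x : Fv v)⁻¹ ≤ 1
      rw [map_inv₀, h, inv_one]
    · exact Subtype.ext (mul_inv_cancel₀ h0)
    · exact Subtype.ext (inv_mul_cancel₀ h0)

theorem resv_eq_zero {v : Pl F} {x : Ov v} : resv v x = 0 ↔ Valued.v (x : Fv v) < 1 := by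
  rw [resv, IsLocalRing.residue_eq_zero_iff, IsLocalRing.mem_maximalIdeal, mem_nonunits_iff,
    ov_isUnit]
  constructor
  · intro h
    exact lt_of_le_of_ne x.2 h
  · intro h
    exact h.ne

theorem pi_val_le (v : Pl F) : Valued.v ((pi v : F) : Fv v) ≤ 1 := by
  rw [CG2.heckeReps_pi, ← WithZero.exp_zero]
  exact WithZero.exp_le_exp.2 (by norm_num)

theorem pi_val_lt (v : Pl F) : Valued.v ((pi v : F) : Fv v) < 1 := by
  rw [CG2.heckeReps_pi, ← WithZero.exp_zero]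
  exact WithZero.exp_lt_exp.2 (by norm_num)

/-- The uniformiser as an element of `O_v`. -/
def piv (v : Pl F) : Ov v := ⟨((pi v : F) : Fv v), pi_val_le v⟩

theorem piv_coe (v : Pl F) : algebraMap (Ov v) (Fv v) (piv v) = ((pi v : F) : Fv v) := rfl

theorem piv_ne (v : Pl F) : algebraMap (Ov v) (Fv v) (piv v) ≠ 0 := CG2.heckeReps_pi_ne v

theorem resv_pi (v : Pl F) : resv v (piv v) = 0 := resv_eq_zero.2 (pi_val_lt v)

theorem piv_not_unit (v : Pl F) : ¬ IsUnit (piv v) := by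
  intro h
  have h1 := h.map (resv v)
  rw [resv_pi] at h1
  exact not_isUnit_zero h1

theorem resv_ker (v : Pl F) (x : Ov v) (h : resv v x = 0) : ∃ y, x = piv v * y := by
  refine ⟨⟨(x : Fv v) / ((pi v : F) : Fv v), CG2.heckeReps_div (resv_eq_zero.1 h)⟩, ?_⟩
  apply Subtype.ext
  change (x : Fv v) = ((pi v : F) : Fv v) * ((x : Fv v) / ((pi v : F) : Fv v))
  rw [mul_div_cancel₀ _ (CG2.heckeReps_pi_ne v)]

theorem ov_inj (v : Pl F) : Function.Injective (algebraMap (Ov v) (Fv v)) := Subtype.val_injective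

theorem oint_coe (v : Pl F) (a : 𝓞 F) :
    ((algebraMap (𝓞 F) (Ov v) a : Ov v) : Fv v) = ((a : F) : Fv v) := rfl

theorem resv_int {v : Pl F} {a : 𝓞 F} :
    resv v (algebraMap (𝓞 F) (Ov v) a) = 0 ↔ a ∈ v.asIdeal := by
  rw [resv_eq_zero, oint_coe]
  have h := CG2.HR_lt_iff v a 0
  rw [sub_zero] at h
  rw [← h]
  have h0 : (((0 : 𝓞 F) : F) : Fv v) = 0 := map_zero (algebraMap F (Fv v))
  rw [h0, sub_zero]

theorem resv_int_surj (v : Pl F) (x : kv v) : ∃ a : 𝓞 F, resv v (algebraMap (𝓞 F) (Ov v) a) = x := by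
  obtain ⟨y, rfl⟩ := resv_surj v x
  obtain ⟨a, ha⟩ := CG2.exists_int_sub_lt v (y : Fv v) y.2 1
  refine ⟨a, ?_⟩
  rw [eq_comm, ← sub_eq_zero, ← map_sub, resv_eq_zero]
  exact ha

end Pool.Agent.CGN
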