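import Pool.Agent.CGN.IDefs
import Pool.Agent.CGN.UElt
import Pool.Agent.CGN.UInt
import Pool.Agent.CGN.ULin

/-!
# The unit trick: the data of an extension `L` in `D` and of a point
-/

noncomputable section

namespace Pool.Agent.CGN

open NumberField IsDedekindDomain Matrix
open Pool.Agent.CG2 (Pl Fv Ov IsRay InRay expo TotPos)
open Pool.Agent.CG2.GalFinAux (below)
open Pool.Agent.CGQ (Sys OC diag single act rt lt mkK mkK_eq mkK_rt Stab mem_Stab' lt_rt)

variable {F : Type} [Field F] [NumberField F]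

/-- The data of an extension `L` of `F` in `D` and of a point, with auxiliary choices. -/
structure TorL (A : AD F) {S : Set (Pl F)} (φ : Spl A S) (K : Subgroup (sysA A).A) (L : Type)
    [Field L] [NumberField L] [Algebra F L] where
  /-- the embedding -/
  ι : L →ₐ[F] DF A
  /-- the point -/
  y : (sysA A).Pt
  /-- a neighbourhood of `1` in `K` -/
  U : ∀ v : Pl F, Subgroup (DV A v)ˣ
  U_open : ∀ v, IsOpen (U v : Set (DV A v)ˣ)
  U_le : ∀ k : (sysA A).A, (∀ v, k.1 v ∈ U v) → k ∈ K
  /-- the bad places -/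
  T : Set (Pl F)
  T_fin : T.Finite
  S_le : S ⊆ T
  U_good : ∀ v, v ∉ T → BZ A v ≤ U v
  hyp : HypOff K (chartA φ)
  std : Std (chartA φ)
  int : ∀ (v : {v : Pl F // v ∉ S}), v.1 ∉ T → ∀ (x : 𝓞 L) i j,
    Valued.v (psi φ v (y.2.1 v.1) (ι (x : L)) i j) ≤ 1

variable {A : AD F} {S : Set (Pl F)} {φ : Spl A S} {K : Subgroup (sysA A).A} {L : Type}
  [Field L] [NumberField L] [Algebra F L]

omit [NumberField L] in
theorem uL_comm (ι : L →ₐ[F] DF A) (x y : Lˣ) : uL ι x * uL ι y = uL ι y * uL ι x := by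
  rw [← map_mul, ← map_mul, mul_comm]

omit [NumberField L] in
theorem uL_val (ι : L →ₐ[F] DF A) (x : Lˣ) : (show (DF A)ˣ from uL ι x).1 = ι (x : L) := rfl

/-- The element `t` of `A` represents the ideal `I`: its components are `1` at the bad places
and at the good places `v` elements of `L` with the same valuations as `I` at the places above
`v`. -/
def TorL.IsRep (X : TorL A φ K L) (I : Ideal (𝓞 L)) (t : (sysA A).A) : Prop :=
  (∀ v ∈ X.T, t.1 v = 1) ∧ ∀ v, v ∉ X.T → ∃ x : Lˣ, t.1 v = (sysA A).loc v (uL X.ι x) ∧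
    ∀ w : Pl L, below F w = v → w.valuation L (x : L) = WithZero.exp (-(expo w I : ℤ))

/-- Representatives commute with the elements of `L`. -/
theorem TorL.rep_comm (X : TorL A φ K L) {I : Ideal (𝓞 L)} {t : (sysA A).A} (ht : X.IsRep I t)
    (x : Lˣ) : diag (uL X.ι x) * t = t * diag (uL X.ι x) := by
  apply Subtype.ext
  funext v
  by_cases hv : v ∈ X.T
  · change (sysA A).loc v (uL X.ι x) * t.1 v = t.1 v * (sysA A).loc v (uL X.ι x)
    rw [ht.1 v hv, mul_one, one_mul]
  · obtain ⟨z, hz, -⟩ := ht.2 v hv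
    change (sysA A).loc v (uL X.ι x) * t.1 v = t.1 v * (sysA A).loc v (uL X.ι x)
    rw [hz, ← map_mul ((sysA A).loc v), ← map_mul ((sysA A).loc v), uL_comm]

/-- The stabiliser of `y` and of `t y` have the same elements in `L`. -/
theorem TorL.stab_rep (X : TorL A φ K L) {I : Ideal (𝓞 L)} {t : (sysA A).A} (ht : X.IsRep I t)
    (x : Lˣ) (hx : uL X.ι x ∈ Stab K X.y) : uL X.ι x ∈ Stab K (lt t X.y) := by
  obtain ⟨κ, hκ, h⟩ := mem_Stab'.1 hx
  refine mem_Stab'.2 ⟨κ, hκ, ?_⟩
  rw [← lt_rt, ← h]
  refine Prod.ext rfl ?_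
  change diag (uL X.ι x) * (t * X.y.2) = t * (diag (uL X.ι x) * X.y.2)
  rw [← mul_assoc, X.rep_comm ht, mul_assoc]

/-! ### Scalars -/

theorem dE_alg (A : AD F) {E : Type} [CommRing E] (f : F →+* E) (a : F) :
    dE A f (algebraMap F (DF A) a) = algebraMap E (DE A f) (f a) := by
  apply SC.Alg.ext
  intro i
  rw [Algebra.algebraMap_eq_smul_one, Algebra.algebraMap_eq_smul_one, dE_co, SC.Alg.co_smul,
    SC.Alg.co_smul, map_mul]
  rfl

theorem psi_scalar (φ : Spl A S) (v : {v : Pl F // v ∉ S}) (g : (DV A v.1)ˣ) (a : F) :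
    psi φ v g (algebraMap F (DF A) a) =
      ((a : F) : Fv v.1) • (1 : Matrix (Fin A.n) (Fin A.n) (Fv v.1)) := by
  change φ v ((g⁻¹ : (DV A v.1)ˣ).1 * dloc A v.1 (algebraMap F (DF A) a) * g.1) = _
  rw [dE_alg, ← Algebra.commutes, mul_assoc, Units.inv_mul, mul_one, AlgEquiv.commutes,
    Algebra.algebraMap_eq_smul_one]
  rfl

/-! ### Existence of the data -/

/-- **UTX.** Existence of the auxiliary data.
PROOF. `U` from `hK.op`. `𝓞 L` is generated over `𝓞 F` by a finite set `s`; `T` is the union of `S`, the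
finite set where not `BZ ≤ U v`, the finite set of the `v` where `y.2.1 v ∉ BZ`, and the finite sets
of the `v` where the localisation of the unit `ι b` of `D` is not in `BZ`, for the elements `b ≠ 0` of
`s`. -/
theorem exists_torL (hS : S.Finite) (hK : OC K) (hΦ : HypOff K (chartA φ))
    (hstd : Std (chartA φ)) (ι : L →ₐ[F] DF A) (y : (sysA A).Pt) :
    ∃ X : TorL A φ K L, X.ι = ι ∧ X.y = y := by
  classical
  obtain ⟨U, hU1, hU2, hU3⟩ := hK.op
  obtain ⟨s, hs⟩ := (Module.Finite.fg_top : (⊤ : Submodule (𝓞 F) (𝓞 L)).FG)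
  let γ : 𝓞 L → (sysA A).G := fun b =>
    if h : (b : L) ≠ 0 then uL ι (Units.mk0 (b : L) h) else 1
  let T : Set (Pl F) := S ∪ ({v | ¬ (sysA A).B v ≤ U v} ∪
    ({v | y.2.1 v ∉ (sysA A).B v} ∪ ⋃ b ∈ s, {v | (sysA A).loc v (γ b) ∉ (sysA A).B v}))
  have hT : T.Finite := hS.union (hU2.union (y.2.2.union
    (Set.Finite.biUnion s.finite_toSet fun b _ => (sysA A).fin (γ b))))
  refine ⟨{ ι := ι
            y := y
            U := U
            U_open := hU1
            U_le := hU3
            T := T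
            T_fin := hT
            S_le := Set.subset_union_left
            U_good := ?_
            hyp := hΦ
            std := hstd
            int := ?_ }, rfl, rfl⟩
  · intro v hv
    by_contra h
    exact hv (Or.inr (Or.inl h))
  · intro v hv x
    have hy : y.2.1 v.1 ∈ (sysA A).B v.1 := by
      by_contra h
      exact hv (Or.inr (Or.inr (Or.inl h)))
    have hmem : x ∈ Submodule.span (𝓞 F) (s : Set (𝓞 L)) := by
      rw [hs]
      trivial
    induction hmem using Submodule.span_induction with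
    | mem b hb =>
      intro i j
      by_cases hb0 : (b : L) = 0
      · rw [hb0, map_zero, map_zero]
        change Valued.v (0 : Fv v.1) ≤ 1
        rw [map_zero]
        exact zero_le
      · have h2 : (sysA A).loc v.1 (γ b) ∈ (sysA A).B v.1 := by
          by_contra h
          refine hv (Or.inr (Or.inr (Or.inr ?_)))
          exact Set.mem_biUnion hb h
        have h3 : (y.2.1 v.1)⁻¹ * (sysA A).loc v.1 (γ b) * y.2.1 v.1 ∈ (sysA A).B v.1 :=
          ((sysA A).B v.1).mul_mem (((sysA A).B v.1).mul_mem (((sysA A).B v.1).inv_mem hy) h2) hy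
        have h4 := (hstd v _).2 h3
        have h5 : γ b = uL ι (Units.mk0 (b : L) hb0) := dif_pos hb0
        rw [h5] at h4
        exact ((mem_GZ_iff v.1 _).1 h4).1 i j
    | zero =>
      intro i j
      have h0 : ((0 : 𝓞 L) : L) = 0 := rfl
      rw [h0, map_zero, map_zero]
      change Valued.v (0 : Fv v.1) ≤ 1
      rw [map_zero]
      exact zero_le
    | add a b _ _ ha hb =>
      intro i j
      have h0 : ((a + b : 𝓞 L) : L) = (a : L) + (b : L) := rfl
      rw [h0, map_add, map_add, Matrix.add_apply]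
      exact (Valuation.map_add _ _ _).trans (max_le (ha i j) (hb i j))
    | smul r a _ ha =>
      intro i j
      have h0 : ((r • a : 𝓞 L) : L) = algebraMap F L (r : F) * (a : L) := by
        rw [Algebra.smul_def]
        rfl
      rw [h0, map_mul, map_mul, AlgHom.commutes, psi_scalar, smul_mul_assoc, one_mul,
        Matrix.smul_apply, smul_eq_mul, map_mul]
      exact mul_le_one' (CG2.HR_int_le v.1 r) (ha i j)

/-! ### Integrality -/

/-- An element of `L` which is integral above `v` is the quotient of an integer of `L` by an integer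
of `F` prime to `v`. -/
theorem exists_denom {v : Pl F} {x : L} (hx : ∀ w : Pl L, below F w = v → w.valuation L x ≤ 1) :
    ∃ (s : 𝓞 F) (z : 𝓞 L), s ∉ v.asIdeal ∧ algebraMap F L (s : F) * x = (z : L) := by
  classical
  -- a multiple which is integral
  have halg : ∃ d : 𝓞 F, d ≠ 0 ∧ ∀ w : Pl L, w.valuation L (algebraMap F L (d : F) * x) ≤ 1 := by
    have hfd : FiniteDimensional F L := Module.Finite.of_restrictScalars_finite ℚ F L
    have h1 : IsAlgebraic (𝓞 F) x :=
      (IsFractionRing.isAlgebraic_iff (𝓞 F) F L).2 (Algebra.IsAlgebraic.isAlgebraic x)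
    obtain ⟨d, hd0, hd⟩ := h1.exists_integral_multiple
    refine ⟨d, hd0, fun w => ?_⟩
    have h2 : IsIntegral (𝓞 L) (d • x) := hd.tower_top
    obtain ⟨z, hz⟩ := IsIntegrallyClosed.isIntegral_iff.1 h2
    have h3 : algebraMap F L (d : F) * x = (z : L) := by
      rw [show ((z : 𝓞 L) : L) = algebraMap (𝓞 L) L z from rfl, hz, Algebra.smul_def]
      rfl
    rw [h3]
    exact w.valuation_le_one z
  obtain ⟨d, hd0, hd⟩ := halg
  -- the element `s`
  have hfin : {v' : Pl F | d ∈ v'.asIdeal}.Finite := by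
    have h0 : Ideal.span {d} ≠ (0 : Ideal (𝓞 F)) := by
      rw [Ne, Ideal.zero_eq_bot, Ideal.span_singleton_eq_bot]
      exact hd0
    refine (Ideal.finite_factors h0).subset ?_
    intro w hw
    exact Ideal.dvd_span_singleton.2 hw
  obtain ⟨s, hs⟩ := IsDedekindDomain.exists_forall_sub_mem_ideal (s := insert v hfin.toFinset)
    (fun w : Pl F => w.asIdeal) (fun w => if w = v then 1 else expo w (Ideal.span {d}))
    (fun w _ => w.prime) (fun w _ w' _ h h' => h (HeightOneSpectrum.ext h'))
    (fun w' => if w'.1 = v then 1 else 0)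
  have hsv : s ∉ v.asIdeal := by
    have h1 := hs v (Finset.mem_insert_self _ _)
    rw [if_pos rfl, if_pos rfl, pow_one] at h1
    intro h2
    have h3 : (1 : 𝓞 F) ∈ v.asIdeal := by
      have := v.asIdeal.sub_mem h2 h1
      rwa [sub_sub_cancel] at this
    exact v.isPrime.ne_top ((Ideal.eq_top_iff_one _).2 h3)
  have hsv' : ∀ v' : Pl F, v' ≠ v → v'.valuation F (s : F) ≤ v'.valuation F (d : F) := by
    intro v' hne
    by_cases hdv : d ∈ v'.asIdeal
    · have h1 := hs v' (Finset.mem_insert_of_mem (hfin.mem_toFinset.2 hdv))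
      rw [if_neg hne, if_neg hne, sub_zero] at h1
      have h2 := (v'.intValuation_le_pow_iff_mem _ _).2 h1
      have h3 : v'.valuation F (algebraMap (𝓞 F) F s) = v'.intValuation s :=
        v'.valuation_of_algebraMap s
      have h4 : v'.valuation F (algebraMap (𝓞 F) F d) = v'.intValuation d :=
        v'.valuation_of_algebraMap d
      have h5 : v'.intValuation d = WithZero.exp (-(expo v' (Ideal.span {d}) : ℤ)) :=
        v'.intValuation_if_neg hd0
      change v'.valuation F (algebraMap (𝓞 F) F s) ≤ v'.valuation F (algebraMap (𝓞 F) F d)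
      rw [h3, h4, h5]
      exact h2
    · have h1 : v'.valuation F (algebraMap (𝓞 F) F d) = 1 :=
        (v'.valuation_eq_one_iff_notMem (K := F)).2 hdv
      change v'.valuation F (algebraMap (𝓞 F) F s) ≤ v'.valuation F (algebraMap (𝓞 F) F d)
      rw [h1]
      exact v'.valuation_le_one s
  -- the product is integral
  have hint : ∀ w : Pl L, w.valuation L (algebraMap F L (s : F) * x) ≤ 1 := by
    intro w
    have hlo : w.asIdeal.LiesOver (below F w).asIdeal :=
      CG2.GalFinAux.liesOver_of_lies (CG2.GalFinAux.lies_below w)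
    by_cases hw : below F w = v
    · rw [map_mul]
      refine mul_le_one' ?_ (hx w hw)
      rw [← HeightOneSpectrum.valuation_liesOver L (below F w) w]
      exact pow_le_one₀ zero_le ((below F w).valuation_le_one s)
    · refine le_trans ?_ (hd w)
      rw [map_mul, map_mul, ← HeightOneSpectrum.valuation_liesOver L (below F w) w,
        ← HeightOneSpectrum.valuation_liesOver L (below F w) w]
      exact mul_le_mul_left (pow_le_pow_left₀ zero_le (hsv' _ hw) _) _
  obtain ⟨z, hz⟩ := HeightOneSpectrum.mem_integers_of_valuation_le_one L _ hint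
  exact ⟨s, z, hsv, hz.symm⟩

/-- **UTB.** Elements of `L` which are integral above the good place `v` have integral matrices. -/
theorem TorL.psi_int (X : TorL A φ K L) (v : {v : Pl F // v ∉ S}) (hv : v.1 ∉ X.T) (x : L)
    (hx : ∀ w : Pl L, below F w = v.1 → w.valuation L x ≤ 1) (i j : Fin A.n) :
    Valued.v (psi φ v (X.y.2.1 v.1) (X.ι x) i j) ≤ 1 := by
  obtain ⟨s, z, hs, hz⟩ := exists_denom hx
  have h1 : Valued.v ((s : F) : Fv v.1) = 1 := by
    rw [HeightOneSpectrum.valuedAdicCompletion_eq_valuation']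
    exact (v.1.valuation_eq_one_iff_notMem (K := F)).2 hs
  have h2 := X.int v hv z i j
  rw [← hz, map_mul, map_mul, AlgHom.commutes, psi_scalar, smul_mul_assoc, one_mul,
    Matrix.smul_apply, smul_eq_mul, map_mul, h1, one_mul] at h2
  exact h2

theorem nontrivial_DF (hn : 0 < A.n) : Nontrivial (DF A) := by
  have h : Nonempty (Fin A.n × Fin A.n) := ⟨(⟨0, hn⟩, ⟨0, hn⟩)⟩
  exact (inferInstance : Nontrivial (Fin A.n × Fin A.n → F))

/-- **UTC.** Conversely, elements with integral matrices are integral above `v`. -/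
theorem TorL.int_psi (X : TorL A φ K L) (hn : 0 < A.n) (v : {v : Pl F // v ∉ S}) (x : L)
    (hx : ∀ i j, Valued.v (psi φ v (X.y.2.1 v.1) (X.ι x) i j) ≤ 1) (w : Pl L)
    (hw : below F w = v.1) : w.valuation L x ≤ 1 := by
  have hnt : Nontrivial (DF A) := nontrivial_DF hn
  refine val_le_of_int hw ((psi φ v (X.y.2.1 v.1)).comp (X.ι : L →+* DF A)) (fun a => ?_) x ?_ hx
  · change psi φ v (X.y.2.1 v.1) (X.ι (algebraMap F L a)) = _
    rw [AlgHom.commutes, psi_scalar]
  · intro d hd
    -- the images in `D`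
    have h1 : LinearIndependent F fun i : Fin d => X.ι (x ^ (i : ℕ)) :=
      hd.map' X.ι.toLinearMap (LinearMap.ker_eq_bot.2 X.ι.toRingHom.injective)
    -- the coordinates
    have h2 : LinearIndependent F fun (i : Fin d) (k : Fin A.n × Fin A.n) =>
        (X.ι (x ^ (i : ℕ))).co k :=
      h1.map' A.sF.lin.toLinearMap (LinearEquiv.ker _)
    have h3 := li_map (algebraMap F (Fv v.1)) _ h2
    have h4 : LinearIndependent (Fv v.1) fun i : Fin d => dloc A v.1 (X.ι (x ^ (i : ℕ))) :=
      h3.map' (A.sF.map (algebraMap F (Fv v.1))).lin.symm.toLinearMap (LinearEquiv.ker _)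
    -- the isomorphism
    let Λ : DV A v.1 →ₗ[Fv v.1] Matrix (Fin A.n) (Fin A.n) (Fv v.1) :=
      { toFun := fun z => φ v (((X.y.2.1 v.1)⁻¹ : (DV A v.1)ˣ).1 * z *
          (show (DV A v.1)ˣ from X.y.2.1 v.1).1)
        map_add' := fun a b => by rw [mul_add, add_mul, map_add]
        map_smul' := fun c a => by
          rw [mul_smul_comm, smul_mul_assoc, map_smul, RingHom.id_apply] }
    have hΛ : Function.Injective Λ := by
      intro a b hab
      have h5 := (φ v).injective hab
      have h6 := (Units.mul_left_inj (show (DV A v.1)ˣ from X.y.2.1 v.1)).1 h5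
      exact (Units.mul_right_inj ((X.y.2.1 v.1)⁻¹ : (DV A v.1)ˣ)).1 h6
    have h5 := h4.map' Λ (LinearMap.ker_eq_bot.2 hΛ)
    have h6 : (fun i : Fin d => ((psi φ v (X.y.2.1 v.1)).comp (X.ι : L →+* DF A)) x ^ (i : ℕ)) =
        Λ ∘ fun i : Fin d => dloc A v.1 (X.ι (x ^ (i : ℕ))) := by
      funext i
      rw [← map_pow]
      rfl
    rw [h6]
    exact h5

end Pool.Agent.CGN
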